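import Pool.Agent.Lib.FGF.PCase

/-!
# The fractional Gyarfas-Sumner conjecture: a pool all of whose items have type A
-/

set_option autoImplicit false

namespace Pool.Agent.Lib.FGF

open Finset Classical

open PCase in
theorem stACase : StACase := by
  intro P hP n T H ξ V _ G ν σ hC hS A hA hcard hty
  have h2 := hP.h2
  obtain ⟨q, hq⟩ := hP.he
  have hm := hP.hm
  exact ladder P n T H ξ ν σ hC hS 2 q (by omega) (by omega) (by omega) (by omega)
    A hA (by omega) fun s hs S h3 h4 h5 C h6 => hty s hs S h3 h4 h5 C h6

end Pool.Agent.Lib.FGF
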