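import Pool.Agent.Lib.FGF.Stmts

/-!
# The fractional Gyarfas-Sumner conjecture: items of type A (module `AItem`)

At a good hub `y` of `x` the masters of the vertices `t ∈ F y` are averaged (`mid`); Lemma A turns
this average into masters of the good vertices of `y`, and the average over the good hubs of `x`
is a master of `x` which has lost two levels (`step`).  A master system of level two would bound
the number of the good vertices at every hub (`nomas`).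
-/

set_option autoImplicit false

namespace Pool.Agent.Lib.FGF

open Finset Classical
open Pool.Agent.Lib.FracGS (nb wnb TAdj pat)
open Pool.Agent.Lib.GSR3 (Stab Small Tree)
open Pool.Agent.Lib.GSR5 (NLC)

namespace AItem

/-! ### Elementary properties -/

lemma nm_nn {V : Type} [Fintype V] (G : SimpleGraph V) {r : V → ℝ} (h : ∀ v, 0 ≤ r v) (x : V) :
    0 ≤ nm G r x := by
  unfold nm wnb
  exact Finset.sum_nonneg fun u _ => h u

lemma nm_mono {V : Type} [Fintype V] (G : SimpleGraph V) {r s : V → ℝ} (h : ∀ v, r v ≤ s v)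
    (x : V) : nm G r x ≤ nm G s x := by
  unfold nm wnb
  exact Finset.sum_le_sum fun u _ => h u

lemma cm_nn {V : Type} [Fintype V] (G : SimpleGraph V) {r : V → ℝ} (h : ∀ v, 0 ≤ r v) (x : V) :
    0 ≤ cm G r x := add_nonneg (h x) (nm_nn G h x)

lemma cm_add {V : Type} [Fintype V] (G : SimpleGraph V) (r s : V → ℝ) (x : V) :
    cm G (fun u => r u + s u) x = cm G r x + cm G s x := by
  unfold cm nm wnb
  rw [Finset.sum_add_distrib]
  ring

lemma cm_av {V : Type} [Fintype V] (G : SimpleGraph V) (Y : Finset V) (R : V → ℝ)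
    (m : V → V → ℝ) (τ : ℝ) (b : V) :
    cm G (fun u => τ * ∑ y ∈ Y, R y * m y u) b = τ * ∑ y ∈ Y, R y * cm G (m y) b := by
  unfold cm nm wnb
  rw [← Finset.mul_sum, ← mul_add, Finset.sum_comm, ← Finset.sum_add_distrib]
  congr 1
  refine Finset.sum_congr rfl fun y _ => ?_
  rw [← Finset.mul_sum, mul_add]

/-- The averages of the point masses. -/
lemma cm_dl {V : Type} [Fintype V] (G : SimpleGraph V) (r : V → ℝ) (x : V) :
    ∑ y, r y * cm G (fun u => if u = y then 1 else 0) x = cm G r x := by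
  unfold cm nm wnb
  simp only [mul_add, Finset.sum_add_distrib, Finset.mul_sum]
  congr 1
  · simp
  · rw [Finset.sum_comm]
    refine Finset.sum_congr rfl fun u _ => ?_
    simp

lemma dom_mono {V : Type} [Fintype V] {G : SimpleGraph V} {M j : ℕ} {v : V} {m : V → ℝ}
    {L L' : Finset V} (h : Dom G M j v m L) (hL : L' ⊆ L) : Dom G M j v m L' :=
  fun φ hφ hv hall => h φ hφ hv fun u h0 hu => ⟨hL (hall u h0 hu).1, (hall u h0 hu).2⟩

lemma hasMS_mono {V : Type} [Fintype V] {G : SimpleGraph V} {M j : ℕ} {B : ℝ} {W W' : Finset V}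
    {a : ℕ → V → ℝ} {C : Finset ℕ} (h : HasMS G M j B W a C) (hW : W' ⊆ W) :
    HasMS G M j B W' a C := by
  obtain ⟨m, hm⟩ := h
  exact ⟨m, hm.nn, fun v hv => dom_mono (hm.dom v (hW hv)) hW,
    fun v hv x hx => hm.bd v (hW hv) x (hW hx)⟩

lemma ms_mono {V : Type} {r : V → ℝ} (h : ∀ v, 0 ≤ r v) {A B : Finset V} (hAB : A ⊆ B) :
    ms r A ≤ ms r B :=
  Finset.sum_le_sum_of_subset_of_nonneg hAB fun v _ _ => h v

lemma ms_nn {V : Type} {r : V → ℝ} (h : ∀ v, 0 ≤ r v) (A : Finset V) : 0 ≤ ms r A :=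
  Finset.sum_nonneg fun v _ => h v

/-! ### Parameters -/

lemma tau_one {P : Par} (hP : P.OK) : 1 ≤ P.τ := by
  refine le_trans ?_ hP.τ1
  have h : (1 : ℕ) ≤ (P.M + 1) ^ P.h := Nat.one_le_pow _ _ (by omega)
  have h2 : ((1 : ℕ) : ℝ) ≤ (((P.M + 1) ^ P.h : ℕ) : ℝ) := by exact_mod_cast h
  simpa using h2

lemma tau_pow {P : Par} (hP : P.OK) {j : ℕ} (hj : j ≤ P.h) : ((P.M + 1 : ℕ) : ℝ) ^ j ≤ P.τ := by
  refine le_trans ?_ hP.τ1
  exact pow_le_pow_right₀ (by push_cast; linarith [Nat.cast_nonneg (α := ℝ) P.M]) hj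

lemma B_one {P : Par} (hP : P.OK) : 1 ≤ P.B := by
  have h1 := hP.B1
  have h2 : 0 ≤ 64 * P.κ * 2 * P.τ / P.ε := by
    have := tau_one hP
    have := hP.κ1
    have := hP.ε0
    positivity
  linarith

lemma eps4 {P : Par} (hP : P.OK) : 4 ≤ 4 / P.ε ^ 2 := by
  have h0 := hP.ε0
  have h1 := hP.ε1
  rw [le_div_iff₀ (by positivity)]
  have : P.ε ^ 2 ≤ 1 := by nlinarith
  linarith

lemma L0_pos {P : Par} (hP : P.OK) : 4 ≤ P.L0 := by
  have h1 := hP.L2
  have h2 := eps4 hP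
  have h3 := tau_one hP
  have h4 : 1 ≤ P.τ ^ 2 := by nlinarith
  nlinarith

/-- `B m / L0 < 1`. -/
lemma BmL {P : Par} (hP : P.OK) : P.B * P.m < P.L0 := by
  have h1 := hP.L1
  have h2 := eps4 hP
  have h3 := tau_one hP
  have h4 := B_one hP
  have h5 : (2 : ℝ) ≤ P.m := by exact_mod_cast le_trans hP.h2 hP.hm
  have h6 : 0 < P.B * P.m := by positivity
  have h7 : 4 * 4 ≤ (4 * P.τ) * (4 / P.ε ^ 2) := by
    apply mul_le_mul <;> nlinarith
  have h8 : 4 * P.τ * P.B * P.m * (4 / P.ε ^ 2) = (4 * P.τ) * (4 / P.ε ^ 2) * (P.B * P.m) := by ring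
  rw [h8] at h1
  nlinarith

/-- `τ B m (4/ε²) / L0 ≤ 1/4`. -/
lemma BmL2 {P : Par} (hP : P.OK) : P.τ * (P.B * (4 / P.ε ^ 2) / P.L0 * P.m) ≤ 1 / 4 := by
  have h1 := hP.L1
  have h2 := L0_pos hP
  have h3 : P.τ * (P.B * (4 / P.ε ^ 2) / P.L0 * P.m) =
      (4 * P.τ * P.B * P.m * (4 / P.ε ^ 2)) / P.L0 / 4 := by ring
  rw [h3]
  have h4 : (4 * P.τ * P.B * P.m * (4 / P.ε ^ 2)) / P.L0 ≤ 1 := by
    rw [div_le_one (by linarith)]
    exact h1
  linarith

/-! ### The data -/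

section

variable {P : Par} {n : ℕ} {T : Finset (Finset ℕ)} {H ξ : ℝ} {V : Type} [Fintype V]
  {G : SimpleGraph V} {ν : V → ℝ} {σ : Dat V}

lemma chain (hs : Sys P (n + 1) T H ξ G ν σ) {c : ℕ} (hc : c ≤ n) : σ.W n ⊆ σ.W c := by
  have h1 : ∀ s, c ≤ s → s ≤ n → σ.W s ⊆ σ.W c := by
    intro s hs1
    induction s, hs1 using Nat.le_induction with
    | base => exact fun _ _ h => h
    | succ r _ ih2 =>
      intro hr
      exact (hs.sub r (by omega)).trans (ih2 (by omega))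
  exact h1 n hc le_rfl

lemma sc_pos (hs : Sys P (n + 1) T H ξ G ν σ) {c : ℕ} (hc : c < n) {v : V} (hv : v ∈ σ.W n) :
    0 < sc G σ c v :=
  hs.ap c (by omega) v (chain hs (by omega) hv)

lemma sc_nn (hs : Sys P (n + 1) T H ξ G ν σ) {c : ℕ} (hc : c ≤ n) (v : V) :
    0 ≤ sc G σ c v :=
  nm_nn G (hs.ρ0 c (by omega)) v

lemma ms_pos (hH : 1 ≤ H) (hs : Sys P (n + 1) T H ξ G ν σ) : 0 < ms ν (σ.W n) := by
  have h1 := hs.pos
  have h2 : 0 < ms ν (σ.W (n + 1)) := by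
    by_contra h
    push Not at h
    nlinarith
  exact lt_of_lt_of_le h2 (ms_mono hs.ν0 (hs.sub n (by omega)))

/-- The averages of the masters of the vertices `t ∈ F y` at the good hubs `y`. -/
lemma mid (hP : P.OK) (h2 : StAvg) (hH : 1 ≤ H) (hs : Sys P (n + 1) T H ξ G ν σ)
    {S : Finset ℕ} (hS : S ⊆ Finset.range n) (hcard : S.card = P.m) {W' : Finset V}
    (hW' : W' ⊆ σ.W (n + 1)) {Gd F : V → Finset V} {A : ℕ → V → ℝ} {μ : V → ℝ}
    (hA : AData P G ν σ (4 * P.τ ^ 2 * H) S n W' Gd F A μ) {C : Finset ℕ} (hC : C ⊆ S) {j : ℕ}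
    (hj2 : 2 ≤ j) (hjh : j ≤ P.h) (hms : HasMS G P.M j P.B (σ.W n) (sc G σ) C) :
    ∃ mp : V → V → ℝ, (∀ y u, 0 ≤ mp y u) ∧
      (∀ v ∈ W', ∀ y ∈ Gd v, Dom G P.M (j - 1) y (mp y) (σ.W n)) ∧
      ∀ v ∈ W', ∀ y ∈ Gd v, ∀ x ∈ σ.W (n + 1), cm G (mp y) x ≤
        P.τ * (P.B * (4 / P.ε ^ 2) / P.L0 * ∑ c ∈ C, sc G σ c x / sc G σ c v +
          1 / (4 * P.τ ^ 2) * (sc G σ n x / sc G σ n v)) := by
  obtain ⟨m, l, hM, hl0, -, hdom, hbd⟩ := hs.ker n (by omega) C (hC.trans hS) j hj2 hjh hms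
  have hτ := tau_one hP
  have hB := B_one hP
  have hL0 : 0 < P.L0 := by linarith [L0_pos hP]
  have hε := hP.ε0
  have hWn := ms_pos hH hs
  have hcn : ∀ c ∈ C, c < n := fun c hc => Finset.mem_range.1 (hS (hC hc))
  have hCm : (C.card : ℝ) ≤ P.m := by
    rw [← hcard]
    exact_mod_cast Finset.card_le_card hC
  have hF : ∀ v ∈ W', ∀ y ∈ Gd v, 0 < ms ν (F y) := by
    intro v hv y hy
    obtain ⟨h1, -, h3⟩ := hA.med v hv y hy
    refine lt_of_lt_of_le ?_ h3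
    positivity
  refine ⟨fun y u => P.τ * ∑ t ∈ F y, (ν t / ms ν (F y)) * (m t u + l t u), ?_, ?_, ?_⟩
  · intro y u
    exact mul_nonneg (by linarith) (Finset.sum_nonneg fun t _ => mul_nonneg
      (div_nonneg (hs.ν0 t) (ms_nn hs.ν0 _)) (add_nonneg (hM.nn t u) (hl0 t u)))
  · intro v hv y hy
    refine h2 P.M (j - 1) P.τ (tau_pow hP (by omega)) V G y (σ.W n) (F y)
      (fun t => ν t / ms ν (F y)) (fun t u => m t u + l t u)
      (fun t => div_nonneg (hs.ν0 t) (ms_nn hs.ν0 _)) ?_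
      (fun t u => add_nonneg (hM.nn t u) (hl0 t u)) ?_
    · rw [← Finset.sum_div]
      exact div_self (hF v hv y hy).ne'
    · intro t ht
      obtain ⟨ht1, ht2⟩ := hA.fib y t ht
      have hρ := (hA.adj v hv y hy).2
      refine hdom t ht1 y hρ ht2 ?_
      have hyW := (hs.ρW n (by omega) y hρ).1
      refine lt_of_le_of_lt (hM.bd t ht1 y hyW) ?_
      have h3 : ∑ c ∈ C, sc G σ c y / sc G σ c t ≤ ∑ _c ∈ C, 1 / P.L0 := by
        refine Finset.sum_le_sum fun c hc => ?_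
        obtain ⟨h4, -, h6, h7⟩ := hA.cls v hv y hy c (hC hc)
        have h8 := h7 t ht
        have h9 : 0 < sc G σ c t := lt_of_lt_of_le (by positivity) h8
        rw [div_le_div_iff₀ h9 hL0]
        nlinarith
      rw [Finset.sum_const, nsmul_eq_mul] at h3
      have h10 := BmL hP
      calc P.B * ∑ c ∈ C, sc G σ c y / sc G σ c t ≤ P.B * (P.m * (1 / P.L0)) := by
            refine mul_le_mul_of_nonneg_left (h3.trans ?_) (by linarith)
            exact mul_le_mul_of_nonneg_right hCm (by positivity)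
        _ = P.B * P.m / P.L0 := by ring
        _ < 1 := by
            rw [div_lt_one hL0]
            exact h10
  · intro v hv y hy x hx
    have hxn : x ∈ σ.W n := hs.sub n (by omega) hx
    have hvn : v ∈ σ.W n := hs.sub n (by omega) (hW' hv)
    have hFp := hF v hv y hy
    rw [cm_av]
    refine mul_le_mul_of_nonneg_left ?_ (by linarith)
    have e1 : ∑ t ∈ F y, (ν t / ms ν (F y)) * cm G (fun u => m t u + l t u) x =
        ∑ t ∈ F y, (ν t / ms ν (F y)) * cm G (m t) x +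
          ∑ t ∈ F y, (ν t / ms ν (F y)) * cm G (l t) x := by
      rw [← Finset.sum_add_distrib]
      refine Finset.sum_congr rfl fun t _ => ?_
      rw [cm_add, mul_add]
    rw [e1]
    refine add_le_add ?_ ?_
    · -- the masters `m t`
      have h3 : ∀ t ∈ F y, cm G (m t) x ≤
          P.B * (4 / P.ε ^ 2) / P.L0 * ∑ c ∈ C, sc G σ c x / sc G σ c v := by
        intro t ht
        refine (hM.bd t (hA.fib y t ht).1 x hxn).trans ?_
        have h4 : P.B * (4 / P.ε ^ 2) / P.L0 * ∑ c ∈ C, sc G σ c x / sc G σ c v =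
            P.B * ∑ c ∈ C, (4 / P.ε ^ 2) / P.L0 * (sc G σ c x / sc G σ c v) := by
          rw [← Finset.mul_sum]
          ring
        rw [h4]
        refine mul_le_mul_of_nonneg_left (Finset.sum_le_sum fun c hc => ?_) (by linarith)
        obtain ⟨h5, h6, -, h8⟩ := hA.cls v hv y hy c (hC hc)
        have h9 := h8 t ht
        have h10 : 0 < sc G σ c t := lt_of_lt_of_le (by positivity) h9
        have h11 := sc_pos hs (hcn c hc) hvn
        have h12 : 0 ≤ sc G σ c x := (sc_pos hs (hcn c hc) hxn).le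
        have h13 : P.L0 * sc G σ c v ≤ (4 / P.ε ^ 2) * sc G σ c t := by
          calc P.L0 * sc G σ c v ≤ P.L0 * (4 / P.ε ^ 2 * A c y) :=
                mul_le_mul_of_nonneg_left h6 hL0.le
            _ = 4 / P.ε ^ 2 * (P.L0 * A c y) := by ring
            _ ≤ 4 / P.ε ^ 2 * sc G σ c t := mul_le_mul_of_nonneg_left h9 (by positivity)
        rw [div_mul_div_comm, div_le_div_iff₀ h10 (by positivity)]
        nlinarith
      calc ∑ t ∈ F y, (ν t / ms ν (F y)) * cm G (m t) x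
          ≤ ∑ t ∈ F y, (ν t / ms ν (F y)) *
            (P.B * (4 / P.ε ^ 2) / P.L0 * ∑ c ∈ C, sc G σ c x / sc G σ c v) :=
            Finset.sum_le_sum fun t ht => mul_le_mul_of_nonneg_left (h3 t ht)
              (div_nonneg (hs.ν0 t) hFp.le)
        _ = P.B * (4 / P.ε ^ 2) / P.L0 * ∑ c ∈ C, sc G σ c x / sc G σ c v := by
            rw [← Finset.sum_mul, ← Finset.sum_div]
            have : (∑ t ∈ F y, ν t) / ms ν (F y) = 1 := div_self hFp.ne'
            rw [this, one_mul]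
    · -- the measures `l t`
      have h3 : ∑ t ∈ F y, ν t * cm G (l t) x ≤ H * ms ν (σ.W n) * sc G σ n x := by
        refine le_trans ?_ (hbd x hx)
        exact Finset.sum_le_sum_of_subset_of_nonneg (fun t ht => (hA.fib y t ht).1)
          fun t _ _ => mul_nonneg (hs.ν0 t) (cm_nn G (hl0 t) x)
      have h4 : ∑ t ∈ F y, (ν t / ms ν (F y)) * cm G (l t) x =
          (∑ t ∈ F y, ν t * cm G (l t) x) / ms ν (F y) := by
        rw [Finset.sum_div]
        refine Finset.sum_congr rfl fun t _ => ?_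
        ring
      rw [h4]
      obtain ⟨h5, h6, h7⟩ := hA.med v hv y hy
      have h8 : 0 < sc G σ n v := hs.ap n (by omega) v (hW' hv)
      have h9 : 0 < sc G σ n x := hs.ap n (by omega) x hx
      calc (∑ t ∈ F y, ν t * cm G (l t) x) / ms ν (F y)
          ≤ (H * ms ν (σ.W n) * sc G σ n x) / (4 * P.τ ^ 2 * H * ms ν (σ.W n) * sc G σ n v) := by
            refine div_le_div₀ (by positivity) h3 (by positivity) ?_
            refine le_trans ?_ h7
            exact mul_le_mul_of_nonneg_left h6 (by positivity)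
        _ = 1 / (4 * P.τ ^ 2) * (sc G σ n x / sc G σ n v) := by
            have : H ≠ 0 := by linarith
            field_simp

/-- The averaged masters are light at the good vertices of the hub. -/
lemma mid_lt (hP : P.OK) (hs : Sys P (n + 1) T H ξ G ν σ)
    {S : Finset ℕ} (hS : S ⊆ Finset.range n) (hcard : S.card = P.m) {C : Finset ℕ} (hC : C ⊆ S)
    {v : V} (hv : v ∈ σ.W (n + 1)) :
    P.τ * (P.B * (4 / P.ε ^ 2) / P.L0 * ∑ c ∈ C, sc G σ c v / sc G σ c v +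
          1 / (4 * P.τ ^ 2) * (sc G σ n v / sc G σ n v)) < 1 := by
  have hτ := tau_one hP
  have hB := B_one hP
  have hL0 : 0 < P.L0 := by linarith [L0_pos hP]
  have hε := hP.ε0
  have hcn : ∀ c ∈ C, c < n := fun c hc => Finset.mem_range.1 (hS (hC hc))
  have hCm : (C.card : ℝ) ≤ P.m := by
    rw [← hcard]
    exact_mod_cast Finset.card_le_card hC
  have h8 : 0 < sc G σ n v := hs.ap n (by omega) v hv
  have h1 : ∑ c ∈ C, sc G σ c v / sc G σ c v = C.card := by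
    rw [Finset.card_eq_sum_ones]
    push_cast
    refine Finset.sum_congr rfl fun c hc => ?_
    exact div_self (sc_pos hs (hcn c hc) (hs.sub n (by omega) hv)).ne'
  rw [h1, div_self h8.ne', mul_one, mul_add]
  have h2 : P.τ * (P.B * (4 / P.ε ^ 2) / P.L0 * C.card) ≤ 1 / 4 := by
    refine le_trans ?_ (BmL2 hP)
    refine mul_le_mul_of_nonneg_left ?_ (by linarith)
    exact mul_le_mul_of_nonneg_left hCm (by positivity)
  have h3 : P.τ * (1 / (4 * P.τ ^ 2)) ≤ 1 / 4 := by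
    have : P.τ * (1 / (4 * P.τ ^ 2)) = 1 / (4 * P.τ) := by
      field_simp
    rw [this]
    exact one_div_le_one_div_of_le (by norm_num) (by linarith)
  linarith

/-- Lemma A with the bound `Λ` for the mass. -/
def LA (M j : ℕ) (Λ : ℝ) : Prop :=
  ∀ (V : Type) [Fintype V] (G : SimpleGraph V)
    (m : V → ℝ) (L X : Finset V) (v : V), (∀ u, 0 ≤ m u) → X ⊆ L → (∀ c ∈ X, G.Adj v c) →
      Stab G X → Dom G M (j + 1) v m L →
        ∃ l : V → ℝ, (∀ u, 0 ≤ l u) ∧ (∀ u, l u ≠ 0 → u ∈ L) ∧ ∑ u, l u ≤ Λ ∧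
          ∀ c ∈ X, cm G m c < 1 →
            Dom G M j c (fun u => m u + (if u = v then 1 else 0) + l u) L

lemma LA_all (h1 : StLemA) (M h : ℕ) (hM : 1 ≤ M) :
    ∃ Λ : ℝ, 0 ≤ Λ ∧ ∀ j, 1 ≤ j → j ≤ h → LA M j Λ := by
  induction h with
  | zero => exact ⟨0, le_rfl, fun j hj hj' => absurd hj (by omega)⟩
  | succ k ih =>
    obtain ⟨Λ1, h10, h11⟩ := ih
    obtain ⟨Λ2, h20, h21⟩ := h1 M (k + 1) hM (by omega)
    refine ⟨max Λ1 Λ2, le_max_of_le_left h10, fun j hj hj' => ?_⟩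
    intro V _ G m L X v hm hX hadj hst hD
    rcases Nat.lt_or_ge j (k + 1) with hlt | hge
    · obtain ⟨l, a1, a2, a3, a4⟩ := h11 j hj (by omega) V G m L X v hm hX hadj hst hD
      exact ⟨l, a1, a2, a3.trans (le_max_left _ _), a4⟩
    · obtain rfl : j = k + 1 := by omega
      obtain ⟨l, a1, a2, a3, a4⟩ := h21 V G m L X v hm hX hadj hst hD
      exact ⟨l, a1, a2, a3.trans (le_max_right _ _), a4⟩

/-- `τ² (4/ε²) / L0 ≤ 1`. -/
lemma tauL {P : Par} (hP : P.OK) : P.τ ^ 2 * (4 / P.ε ^ 2) / P.L0 ≤ 1 := by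
  have h2 := L0_pos hP
  rw [div_le_one (by linarith)]
  exact hP.L2

lemma xi_nn (hs : Sys P (n + 1) T H ξ G ν σ) : 0 ≤ ξ := by
  have h := hs.al ∅ (fun u hu => absurd hu (Finset.notMem_empty u))
  simpa [ms] using h

/-- The property `dξ` on a subset. -/
lemma dxi (hs : Sys P (n + 1) T H ξ G ν σ) {W1 : Finset V} (hW1 : W1 ⊆ σ.W (n + 1)) :
    ∀ w ∈ W1, nm G (zt G ν (σ.ρ n) W1) w ≤ ξ := by
  intro w hw
  refine le_trans (nm_mono G (fun v => ?_) w) (hs.dξ n (by omega) w (hW1 hw))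
  unfold zt
  by_cases hv : v ∈ W1
  · rw [if_pos hv, if_pos (hW1 hv)]
  · rw [if_neg hv]
    split_ifs
    · exact div_nonneg (hs.ν0 v) (nm_nn G (hs.ρ0 n (by omega)) v)
    · exact le_rfl

/-- Two levels of a master system are lost. -/
lemma step (hP : P.OK) (h2 : StAvg) (h5 : StPOne) (hH : 1 ≤ H)
    (hs : Sys P (n + 1) T H ξ G ν σ)
    {S : Finset ℕ} (hS : S ⊆ Finset.range n) (hcard : S.card = P.m) {W' : Finset V}
    (hW' : W' ⊆ σ.W (n + 1)) {Gd F : V → Finset V} {A : ℕ → V → ℝ} {μ : V → ℝ}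
    (hA : AData P G ν σ (4 * P.τ ^ 2 * H) S n W' Gd F A μ) {W1 : Finset V} {Gd' : V → Finset V}
    (hW1 : W1 ⊆ W') (hG1 : ∀ x ∈ W1, Gd' x ⊆ Gd x)
    (hG2 : ∀ x ∈ W1, P.ε / 32 / (2 * P.κ) * nm G (σ.ρ n) x ≤ ∑ y ∈ Gd' x, σ.ρ n y)
    (hG3 : ∀ y, Stab G (W1.filter (fun x => y ∈ Gd' x)))
    {C : Finset ℕ} (hC : C ⊆ S) {j : ℕ} (hjh : j + 2 ≤ P.h)
    (hms : HasMS G P.M (j + 2) P.B (σ.W n) (sc G σ) C) {Λ : ℝ} (hΛ0 : 0 ≤ Λ)
    (hΛ : LA P.M j Λ) :
    ∃ b ⊆ W1, ms ν b ≤ 2 * Λ * ξ ∧ HasMS G P.M j P.B (W1 \ b) (sc G σ) (insert n C) := by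
  obtain ⟨mp, hmp0, hmpD, hmpB⟩ := mid hP h2 hH hs hS hcard hW' hA hC (by omega) hjh hms
  have hτ := tau_one hP
  have hB := B_one hP
  have hL0 : 0 < P.L0 := by linarith [L0_pos hP]
  have hε := hP.ε0
  have hκ : 0 < P.κ := by linarith [hP.κ1]
  have hξ := xi_nn hs
  have hcn : ∀ c ∈ C, c < n := fun c hc => Finset.mem_range.1 (hS (hC hc))
  have hW1n : W1 ⊆ σ.W (n + 1) := hW1.trans hW'
  have hsub := hs.sub n (by omega)
  have hρ0 := hs.ρ0 n (by omega)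
  have hscp : ∀ x ∈ W1, 0 < nm G (σ.ρ n) x := fun x hx => hs.ap n (by omega) x (hW1n hx)
  have hL : ∀ y, ∃ l : V → ℝ, (∀ u, 0 ≤ l u) ∧ (∀ u, l u ≠ 0 → u ∈ W1) ∧ ∑ u, l u ≤ Λ ∧
      ∀ x ∈ W1, y ∈ Gd' x →
        Dom G P.M j x (fun u => mp y u + (if u = y then 1 else 0) + l u) W1 := by
    intro y
    by_cases hy : ∃ v ∈ W1, y ∈ Gd' v
    · obtain ⟨v, hv, hyv⟩ := hy
      obtain ⟨l, hl0, hlW, hlΛ, hlD⟩ := hΛ V G (mp y) W1 (W1.filter (fun x => y ∈ Gd' x)) y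
        (hmp0 y) (Finset.filter_subset _ _)
        (fun c hc => by
          rw [Finset.mem_filter] at hc
          exact (hA.adj c (hW1 hc.1) y (hG1 c hc.1 hc.2)).1.symm)
        (hG3 y) (dom_mono (hmpD v (hW1 hv) y (hG1 v hv hyv)) (hW1n.trans hsub))
      refine ⟨l, hl0, hlW, hlΛ, fun x hx hyx => hlD x (Finset.mem_filter.2 ⟨hx, hyx⟩) ?_⟩
      exact lt_of_le_of_lt (hmpB x (hW1 hx) y (hG1 x hx hyx) x (hW1n hx))
        (mid_lt hP hs hS hcard hC (hW1n hx))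
    · push Not at hy
      refine ⟨fun _ => 0, fun _ => le_rfl, fun u hu => absurd rfl hu, by simpa using hΛ0,
        fun x hx hyx => absurd hyx (hy x hx)⟩
  choose l hl0 hlW hlΛ hlD using hL
  have hb := h5 V G ν (σ.ρ n) W1 ξ Λ l hξ hΛ0 hs.ν0 hρ0 (hs.ρ1 n (by omega)) hscp
    (dxi hs hW1n) (fun x hx => hs.at' n (by omega) x (hW1n hx)) hl0 hlW hlΛ
  refine ⟨_, Finset.filter_subset _ _, hb, ?_⟩
  set b := W1.filter (fun x => nm G (σ.ρ n) x < ∑ y, σ.ρ n y * cm G (l y) x) with hbdef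
  have hD : ∀ v ∈ W1, 0 < ∑ y ∈ Gd' v, σ.ρ n y := fun v hv =>
    lt_of_lt_of_le (mul_pos (by positivity) (hscp v hv)) (hG2 v hv)
  have hδ0 : ∀ y u : V, (0 : ℝ) ≤ if u = y then 1 else 0 := by
    intro y u
    split_ifs <;> norm_num
  have hm0 : ∀ y u, 0 ≤ mp y u + (if u = y then 1 else 0) + l y u := fun y u =>
    add_nonneg (add_nonneg (hmp0 y u) (hδ0 y u)) (hl0 y u)
  refine ⟨fun v u => P.τ * ∑ y ∈ Gd' v, (σ.ρ n y / ∑ y ∈ Gd' v, σ.ρ n y) *
    (mp y u + (if u = y then 1 else 0) + l y u), ?_, ?_, ?_⟩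
  · intro v u
    exact mul_nonneg (by linarith) (Finset.sum_nonneg fun y _ => mul_nonneg
      (div_nonneg (hρ0 y) (Finset.sum_nonneg fun y _ => hρ0 y)) (hm0 y u))
  · intro v hv
    have hv1 : v ∈ W1 := (Finset.mem_sdiff.1 hv).1
    refine dom_mono ?_ Finset.sdiff_subset
    refine h2 P.M j P.τ (tau_pow hP (by omega)) V G v W1 (Gd' v)
      (fun y => σ.ρ n y / ∑ y ∈ Gd' v, σ.ρ n y)
      (fun y u => mp y u + (if u = y then 1 else 0) + l y u)
      (fun y => div_nonneg (hρ0 y) (hD v hv1).le) ?_ hm0 fun y hy => hlD y v hv1 hy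
    rw [← Finset.sum_div]
    exact div_self (hD v hv1).ne'
  · intro v hv x hx
    have hv1 : v ∈ W1 := (Finset.mem_sdiff.1 hv).1
    have hx1 : x ∈ W1 := (Finset.mem_sdiff.1 hx).1
    have hxb : ∑ y, σ.ρ n y * cm G (l y) x ≤ sc G σ n x := by
      by_contra h
      push Not at h
      exact (Finset.mem_sdiff.1 hx).2 (Finset.mem_filter.2 ⟨hx1, h⟩)
    have hDv := hD v hv1
    have hsv : 0 < sc G σ n v := hscp v hv1
    have hsx : 0 < sc G σ n x := hscp x hx1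
    rw [cm_av]
    have e1 : ∑ y ∈ Gd' v, (σ.ρ n y / ∑ y ∈ Gd' v, σ.ρ n y) *
        cm G (fun u => mp y u + (if u = y then 1 else 0) + l y u) x =
        ∑ y ∈ Gd' v, (σ.ρ n y / ∑ y ∈ Gd' v, σ.ρ n y) * cm G (mp y) x +
        ((∑ y ∈ Gd' v, σ.ρ n y * cm G (fun u => if u = y then 1 else 0) x) / (∑ y ∈ Gd' v, σ.ρ n y)
          + (∑ y ∈ Gd' v, σ.ρ n y * cm G (l y) x) / (∑ y ∈ Gd' v, σ.ρ n y)) := by
      rw [Finset.sum_div, Finset.sum_div, ← Finset.sum_add_distrib, ← Finset.sum_add_distrib]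
      refine Finset.sum_congr rfl fun y _ => ?_
      rw [cm_add G (fun u => mp y u + (if u = y then 1 else 0)) (l y),
        cm_add G (mp y) (fun u => if u = y then 1 else 0)]
      ring
    rw [e1]
    -- the averaged masters
    have h3 : ∑ y ∈ Gd' v, (σ.ρ n y / ∑ y ∈ Gd' v, σ.ρ n y) * cm G (mp y) x ≤
        P.τ * (P.B * (4 / P.ε ^ 2) / P.L0 * ∑ c ∈ C, sc G σ c x / sc G σ c v +
          1 / (4 * P.τ ^ 2) * (sc G σ n x / sc G σ n v)) := by
      calc ∑ y ∈ Gd' v, (σ.ρ n y / ∑ y ∈ Gd' v, σ.ρ n y) * cm G (mp y) x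
          ≤ ∑ y ∈ Gd' v, (σ.ρ n y / ∑ y ∈ Gd' v, σ.ρ n y) *
            (P.τ * (P.B * (4 / P.ε ^ 2) / P.L0 * ∑ c ∈ C, sc G σ c x / sc G σ c v +
          1 / (4 * P.τ ^ 2) * (sc G σ n x / sc G σ n v))) :=
            Finset.sum_le_sum fun y hy => mul_le_mul_of_nonneg_left
              (hmpB v (hW1 hv1) y (hG1 v hv1 hy) x (hW1n hx1)) (div_nonneg (hρ0 y) hDv.le)
        _ = P.τ * (P.B * (4 / P.ε ^ 2) / P.L0 * ∑ c ∈ C, sc G σ c x / sc G σ c v +
          1 / (4 * P.τ ^ 2) * (sc G σ n x / sc G σ n v)) := by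
            rw [← Finset.sum_mul, ← Finset.sum_div, div_self hDv.ne', one_mul]
    -- the point masses and the lists
    have h4 : ∑ y ∈ Gd' v, σ.ρ n y * cm G (fun u => if u = y then 1 else 0) x ≤ sc G σ n x := by
      calc ∑ y ∈ Gd' v, σ.ρ n y * cm G (fun u => if u = y then 1 else 0) x
          ≤ ∑ y, σ.ρ n y * cm G (fun u => if u = y then 1 else 0) x :=
            Finset.sum_le_univ_sum_of_nonneg fun y =>
              mul_nonneg (hρ0 y) (cm_nn G (hδ0 y) x)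
        _ = cm G (σ.ρ n) x := cm_dl G (σ.ρ n) x
        _ = sc G σ n x := by
            have : σ.ρ n x = 0 := by
              by_contra h
              exact (hs.ρW n (by omega) x h).2 (hW1n hx1)
            unfold cm sc
            rw [this, zero_add]
    have h5' : ∑ y ∈ Gd' v, σ.ρ n y * cm G (l y) x ≤ sc G σ n x :=
      le_trans (Finset.sum_le_univ_sum_of_nonneg fun y =>
        mul_nonneg (hρ0 y) (cm_nn G (hl0 y) x)) hxb
    have h6 : P.ε / 32 / (2 * P.κ) * sc G σ n v ≤ ∑ y ∈ Gd' v, σ.ρ n y := hG2 v hv1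
    have h7 : ∀ z : ℝ, z ≤ sc G σ n x → z / (∑ y ∈ Gd' v, σ.ρ n y) ≤
        64 * P.κ / P.ε * (sc G σ n x / sc G σ n v) := by
      intro z hz
      calc z / (∑ y ∈ Gd' v, σ.ρ n y) ≤ sc G σ n x / (∑ y ∈ Gd' v, σ.ρ n y) :=
            div_le_div_of_nonneg_right hz hDv.le
        _ ≤ sc G σ n x / (P.ε / 32 / (2 * P.κ) * sc G σ n v) :=
            div_le_div_of_nonneg_left hsx.le (by positivity) h6
        _ = 64 * P.κ / P.ε * (sc G σ n x / sc G σ n v) := by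
            field_simp
            ring
    have h8 := h7 _ h4
    have h9 := h7 _ h5'
    have hnC : n ∉ C := fun h => absurd (hcn n h) (lt_irrefl n)
    rw [Finset.sum_insert hnC]
    set X := sc G σ n x / sc G σ n v with hXdef
    have hX0 : 0 ≤ X := by positivity
    set Y := ∑ c ∈ C, sc G σ c x / sc G σ c v with hYdef
    have hY0 : 0 ≤ Y := by
      refine Finset.sum_nonneg fun c hc => div_nonneg ?_ ?_
      · exact (sc_pos hs (hcn c hc) (hsub (hW1n hx1))).le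
      · exact (sc_pos hs (hcn c hc) (hsub (hW1n hv1))).le
    calc P.τ * (∑ y ∈ Gd' v, (σ.ρ n y / ∑ y ∈ Gd' v, σ.ρ n y) * cm G (mp y) x +
        ((∑ y ∈ Gd' v, σ.ρ n y * cm G (fun u => if u = y then 1 else 0) x) / (∑ y ∈ Gd' v, σ.ρ n y)
          + (∑ y ∈ Gd' v, σ.ρ n y * cm G (l y) x) / (∑ y ∈ Gd' v, σ.ρ n y)))
        ≤ P.τ * (P.τ * (P.B * (4 / P.ε ^ 2) / P.L0 * Y + 1 / (4 * P.τ ^ 2) * X) +
          (64 * P.κ / P.ε * X + 64 * P.κ / P.ε * X)) :=
          mul_le_mul_of_nonneg_left (add_le_add h3 (add_le_add h8 h9)) (by linarith)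
      _ = (1 / 4 + 64 * P.κ * 2 * P.τ / P.ε) * X +
          P.B * (P.τ ^ 2 * (4 / P.ε ^ 2) / P.L0) * Y := by
          field_simp
          ring
      _ ≤ P.B * X + P.B * 1 * Y := by
          refine add_le_add (mul_le_mul_of_nonneg_right ?_ hX0)
            (mul_le_mul_of_nonneg_right (mul_le_mul_of_nonneg_left (tauL hP) (by linarith)) hY0)
          linarith [hP.B1]
      _ = P.B * (X + Y) := by ring

/-- There is no master system of level two. -/
lemma nomas (hP : P.OK) (h2 : StAvg) (h3 : StCnt) (h6 : StFib) (hH : 1 ≤ H)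
    (hs : Sys P (n + 1) T H ξ G ν σ)
    {S : Finset ℕ} (hS : S ⊆ Finset.range n) (hcard : S.card = P.m) {W' : Finset V}
    (hW' : W' ⊆ σ.W (n + 1)) {Gd F : V → Finset V} {A : ℕ → V → ℝ} {μ : V → ℝ}
    (hA : AData P G ν σ (4 * P.τ ^ 2 * H) S n W' Gd F A μ) {W1 : Finset V} {Gd' : V → Finset V}
    (hW1 : W1 ⊆ W') (hG1 : ∀ x ∈ W1, Gd' x ⊆ Gd x)
    (hG2 : ∀ x ∈ W1, P.ε / 32 / (2 * P.κ) * nm G (σ.ρ n) x ≤ ∑ y ∈ Gd' x, σ.ρ n y)
    (hG3 : ∀ y, Stab G (W1.filter (fun x => y ∈ Gd' x)))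
    {C : Finset ℕ} (hC : C ⊆ S) (hms : HasMS G P.M 2 P.B (σ.W n) (sc G σ) C) :
    P.ε / 32 / (2 * P.κ) * ms ν W1 ≤ P.M * ξ := by
  obtain ⟨mp, hmp0, hmpD, hmpB⟩ := mid hP h2 hH hs hS hcard hW' hA hC le_rfl hP.h2 hms
  have hε := hP.ε0
  have hκ : 0 < P.κ := by linarith [hP.κ1]
  have hξ := xi_nn hs
  have hW1n : W1 ⊆ σ.W (n + 1) := hW1.trans hW'
  have hsub := hs.sub n (by omega)
  refine h6 V G ν (σ.ρ n) W1 ξ (P.ε / 32 / (2 * P.κ)) P.M Gd' hξ (by positivity) hs.ν0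
    (hs.ρ0 n (by omega)) (hs.ρ1 n (by omega)) (fun x hx => hs.ap n (by omega) x (hW1n hx))
    (fun x hx => hs.at' n (by omega) x (hW1n hx)) hG2 fun y _ => ?_
  by_cases hy : ∃ v ∈ W1, y ∈ Gd' v
  · obtain ⟨v, hv, hyv⟩ := hy
    refine le_of_lt (h3 P.M hP.M1 V G (mp y) W1 (W1.filter (fun x => y ∈ Gd' x)) y
      (Finset.filter_subset _ _) ?_ (hG3 y) ?_
      (dom_mono (hmpD v (hW1 hv) y (hG1 v hv hyv)) (hW1n.trans hsub)))
    · intro c hc
      rw [Finset.mem_filter] at hc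
      exact (hA.adj c (hW1 hc.1) y (hG1 c hc.1 hc.2)).1.symm
    · intro c hc
      rw [Finset.mem_filter] at hc
      exact lt_of_le_of_lt (hmpB c (hW1 hc.1) y (hG1 c hc.1 hc.2) c (hW1n hc.1))
        (mid_lt hP hs hS hcard hC (hW1n hc.1))
  · push Not at hy
    rw [Finset.filter_false_of_mem hy]
    simp

omit [Fintype V] in
lemma ms_union_le {r : V → ℝ} (h : ∀ v, 0 ≤ r v) (A B : Finset V) :
    ms r (A ∪ B) ≤ ms r A + ms r B := by
  have h1 : ms r (A ∪ B) + ms r (A ∩ B) = ms r A + ms r B := Finset.sum_union_inter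
  linarith [ms_nn h (A ∩ B)]

omit [Fintype V] in
lemma ms_biUnion_le {α : Type} {r : V → ℝ} (h : ∀ v, 0 ≤ r v) (J : Finset α) (b : α → Finset V)
    {q : ℝ} (hq : ∀ p, ms r (b p) ≤ q) : ms r (J.biUnion b) ≤ J.card * q := by
  induction J using Finset.induction_on with
  | empty => simp [ms]
  | insert a J ha ih =>
    rw [Finset.biUnion_insert, Finset.card_insert_of_notMem ha]
    push_cast
    linarith [ms_union_le h (b a) (J.biUnion b), hq a]

end

end AItem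

open AItem

/-- Module `AItem`. -/
theorem stAItem (h1 : StLemA) (h2 : StAvg) (h3 : StCnt) (h4 : StStb) (h5 : StPOne)
    (h6 : StFib) : StAItem := by
  intro P hP n H hH
  obtain ⟨Λ, hΛ0, hΛ⟩ := LA_all h1 P.M P.h hP.M1
  have hτ := tau_one hP
  have hε := hP.ε0
  have hκ : 0 < P.κ := by linarith [hP.κ1]
  refine ⟨4 * P.τ ^ 2 * H, by positivity, fun c hc => ?_⟩
  obtain ⟨e, he⟩ : ∃ e : ℝ, e = P.ε / 32 / (2 * P.κ) := ⟨_, rfl⟩
  have he0 : 0 < e := by
    rw [he]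
    positivity
  obtain ⟨w0, hw0⟩ : ∃ w0 : ℝ, w0 = e / (H * c) := ⟨_, rfl⟩
  have hw00 : 0 < w0 := by
    rw [hw0]
    positivity
  obtain ⟨N, hN⟩ : ∃ N : ℝ, N = (2 ^ P.m * (P.h + 1) : ℕ) := ⟨_, rfl⟩
  have hN0 : 0 ≤ N := by
    rw [hN]
    positivity
  refine ⟨min (w0 / (4 * (N * Λ + 1))) (e * w0 / (2 * (P.M + 1))),
    lt_min (by positivity) (by positivity), ?_⟩
  intro T V _ G ν σ ξ S W' Gd F A μ hξ hcls hs hS hcard hW' hcW hA
  have hξ0 := xi_nn hs
  have hξa : N * (2 * Λ * ξ) ≤ w0 / 2 := by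
    have h7 := hξ.trans (min_le_left _ _)
    rw [le_div_iff₀ (by positivity)] at h7
    nlinarith [mul_nonneg hN0 hΛ0]
  have hξb : P.M * ξ < e * w0 := by
    have h7 := hξ.trans (min_le_right _ _)
    rw [le_div_iff₀ (by positivity)] at h7
    have h8 : 0 < e * w0 := by positivity
    nlinarith [Nat.cast_nonneg (α := ℝ) P.M]
  obtain ⟨W1, Gd', hW1, hmW1, hG1, hG2, hG3⟩ := h4 P.κ (P.ε / 32) hP.κ1 (by positivity) V G ν
    (σ.ρ n) W' Gd hcls.nbs hs.ν0 (hs.ρ0 n (by omega))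
    (fun x hx => hs.ap n (by omega) x (hW' hx)) (fun x hx y hy => (hA.adj x hx y hy).1) hA.mass
  have hW1w : w0 ≤ ms ν W1 := by
    have h7 := hs.pos
    have h8 : 1 ≤ H * (c * ms ν W') :=
      h7.trans (mul_le_mul_of_nonneg_left hcW (by linarith))
    have h9 : e * ms ν W' ≤ ms ν W1 := by
      rw [he]
      calc P.ε / 32 / (2 * P.κ) * ms ν W' = (P.ε / 32 * ms ν W') / (2 * P.κ) := by ring
        _ ≤ ms ν W1 := by
          rw [div_le_iff₀ (by positivity)]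
          linarith
    rw [hw0, div_le_iff₀ (by positivity)]
    calc e ≤ e * (H * (c * ms ν W')) := le_mul_of_one_le_right he0.le h8
      _ = (e * ms ν W') * (H * c) := by ring
      _ ≤ ms ν W1 * (H * c) := mul_le_mul_of_nonneg_right h9 (by positivity)
  -- the bad sets
  have hb : ∀ p : Finset ℕ × ℕ, ∃ b : Finset V, ms ν b ≤ 2 * Λ * ξ ∧
      (p.1 ⊆ S → 1 ≤ p.2 → p.2 + 2 ≤ P.h → HasMS G P.M (p.2 + 2) P.B (σ.W n) (sc G σ) p.1 →
        HasMS G P.M p.2 P.B (W1 \ b) (sc G σ) (insert n p.1)) := by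
    intro p
    by_cases hp : p.1 ⊆ S ∧ 1 ≤ p.2 ∧ p.2 + 2 ≤ P.h ∧
        HasMS G P.M (p.2 + 2) P.B (σ.W n) (sc G σ) p.1
    · obtain ⟨hp1, hp2, hp3, hp4⟩ := hp
      obtain ⟨b, -, hb1, hb2⟩ := step hP h2 h5 hH hs hS hcard hW' hA hW1 hG1 hG2 hG3 hp1 hp3 hp4
        hΛ0 (hΛ p.2 hp2 (by omega))
      exact ⟨b, hb1, fun _ _ _ _ => hb2⟩
    · refine ⟨∅, ?_, fun a1 a2 a3 a4 => absurd ⟨a1, a2, a3, a4⟩ hp⟩
      simp only [ms, Finset.sum_empty]
      positivity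
  choose b hb1 hb2 using hb
  set J : Finset (Finset ℕ × ℕ) := S.powerset ×ˢ Finset.range (P.h + 1) with hJ
  have hJc : (J.card : ℝ) = N := by
    rw [hN, hJ, Finset.card_product, Finset.card_powerset, Finset.card_range, hcard]
  have hU : ms ν (J.biUnion b) ≤ w0 / 2 := by
    refine (ms_biUnion_le hs.ν0 J b hb1).trans ?_
    rw [hJc]
    exact hξa
  have hW2 : ms ν W1 ≤ 2 * ms ν (W1 \ J.biUnion b) := by
    have h7 : ms ν W1 ≤ ms ν (W1 \ J.biUnion b) + ms ν (J.biUnion b) := by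
      refine le_trans (ms_mono hs.ν0 ?_) (ms_union_le hs.ν0 _ _)
      rw [Finset.sdiff_union_self_eq_union]
      exact Finset.subset_union_left
    linarith
  refine ⟨W1 \ J.biUnion b, Finset.sdiff_subset.trans hW1, ?_, ?_⟩
  · have h7 := ms_nn hs.ν0 (W1 \ J.biUnion b)
    have h8 : 2 * P.κ * ms ν W1 ≤ 2 * P.κ * (2 * ms ν (W1 \ J.biUnion b)) :=
      mul_le_mul_of_nonneg_left hW2 (by positivity)
    have h9 : 0 ≤ P.κ * ms ν (W1 \ J.biUnion b) := by positivity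
    nlinarith
  · intro C hC
    have e1 : (σ.shr (n + 1) (W1 \ J.biUnion b)).W n = σ.W n :=
      Function.update_of_ne (by omega) _ _
    have e2 : (σ.shr (n + 1) (W1 \ J.biUnion b)).W (n + 1) = W1 \ J.biUnion b :=
      Function.update_self _ _ _
    rw [e1, e2]
    refine ⟨fun j hj1 hj2 hms => ?_, fun hms => ?_⟩
    · refine hasMS_mono (hb2 (C, j) hC hj1 hj2 hms) (Finset.sdiff_subset_sdiff le_rfl ?_)
      exact Finset.subset_biUnion_of_mem b (Finset.mem_product.2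
        ⟨Finset.mem_powerset.2 hC, Finset.mem_range.2 (by simp only; omega)⟩)
    · have h7 := nomas hP h2 h3 h6 hH hs hS hcard hW' hA hW1 hG1 hG2 hG3 hC hms
      rw [← he] at h7
      have h8 : e * w0 ≤ e * ms ν W1 := mul_le_mul_of_nonneg_left hW1w he0.le
      linarith

end Pool.Agent.Lib.FGF
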