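import Pool.Agent.Lib.FGF.Stmts2
import Pool.Agent.Lib.GSR5.ChainF
import Pool.Agent.Lib.GSR5.TreeF
import Pool.Agent.Lib.GSR3.Refine
import Pool.Agent.Lib.GSR3.Words
import Pool.Agent.Lib.GSR3.Forest

/-!
# The fractional Gyarfas-Sumner conjecture for all forests
-/

set_option autoImplicit false

namespace Pool.Agent.Lib.FGF

open Finset Classical
open Pool.Agent.Lib.FracGS (nb wnb TAdj)
open Pool.Agent.Lib.GSR3 (Stab Small Tree FGS CompRad small_of_induce cliqueFree_nb)
open Pool.Agent.Lib.GSR5 (NLC HasLabF)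
open Pool.Agent.Lib.MP_763321_co (pat exists_pat)

namespace AllAux

lemma tadj_map {M N : ℕ} (c : Fin M → Fin N) (hc : Function.Injective c)
    (u w : List (Fin M)) : TAdj (u.map c) (w.map c) ↔ TAdj u w := by
  have key : ∀ a b : List (Fin M), (∃ t, a.map c = t :: b.map c) ↔ ∃ t, a = t :: b := by
    intro a b
    constructor
    · rintro ⟨t, h⟩
      cases a with
      | nil => rw [List.map_nil] at h; cases h
      | cons s a =>
        rw [List.map_cons] at h
        exact ⟨s, by rw [(List.map_injective_iff.mpr hc) (List.cons.inj h).2]⟩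
    · rintro ⟨t, rfl⟩
      exact ⟨c t, by rw [List.map_cons]⟩
  unfold TAdj
  rw [key u w, key w u]

/-- A tree of radius at most `d` is an induced subgraph of the tree of words on a nonempty
alphabet. -/
lemma words (W : Type) [Fintype W] (T : SimpleGraph W) (r : W) (d : ℕ) (hT : T.IsTree)
    (hd : ∀ v, T.dist r v ≤ d) : ∃ (M : ℕ) (f : W → List (Fin M)), 1 ≤ M ∧
      (∀ v, (f v).length ≤ d) ∧ Function.Injective f ∧ ∀ u v, T.Adj u v ↔ TAdj (f u) (f v) := by
  obtain ⟨M, f, h1, h2, h3⟩ := GSR3.stWords W T r d hT hd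
  have hinj : Function.Injective (Fin.castSucc : Fin M → Fin (M + 1)) :=
    Fin.castSucc_injective M
  refine ⟨M + 1, fun v => (f v).map Fin.castSucc, by omega, ?_, ?_, ?_⟩
  · intro v
    rw [List.length_map]
    exact h1 v
  · intro a b hab
    exact h2 ((List.map_injective_iff.mpr hinj) hab)
  · intro u v
    rw [tadj_map _ hinj]
    exact h3 u v

/-- Trees. -/
lemma tree (h1 : StRest) (d : ℕ) (hd2 : 2 ≤ d) (hde : Even d) (W : Type) [Fintype W]
    (T : SimpleGraph W) (r : W) (hT : T.IsTree) (hr : ∀ v, T.dist r v ≤ d) : FGS T := by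
  obtain ⟨M, f, hM, hf1, hf2, hf3⟩ := words W T r d hT hr
  obtain ⟨m, par, hm, hpar, ⟨ψ⟩⟩ := exists_pat (Fintype.card W) T hT.isAcyclic rfl
  intro k
  induction k with
  | zero =>
    refine ⟨1, le_rfl, ?_⟩
    intro V _ G hG _
    exact absurd (by simp : G.IsNClique 0 ∅) (hG ∅)
  | succ k ih =>
    obtain ⟨c, hc, hind⟩ := ih
    obtain ⟨g, hg, hrest⟩ := h1 M d (m - 1) par c hM hd2 hde hpar hc
    obtain ⟨F, hF, hch⟩ := GSR5.stChainF GSR5.stTreeF GSR3.stEqList GSR3.stProper (m - 1) par c g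
      hpar (by linarith) hg
    refine ⟨max 1 F, le_max_left _ _, ?_⟩
    intro V _ G hG hT'
    have hnb : ∀ v, Small G (nb G Finset.univ v) c := by
      intro v
      refine small_of_induce G _ c (hind _ _ (cliqueFree_nb G k hG v) ?_)
      exact ⟨fun φ => hT'.false (φ.trans (SimpleGraph.Embedding.induce _))⟩
    have htree : ∀ φ : List (Fin M) → V, ¬ Tree G d M φ := by
      intro φ hφ
      refine hT'.false ⟨⟨fun v => φ (f v),
        fun u v huv => hf2 (hφ.inj _ _ (hf1 u) (hf1 v) huv)⟩, ?_⟩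
      intro u v
      show G.Adj (φ (f u)) (φ (f v)) ↔ T.Adj u v
      rw [hφ.adj _ _ (hf1 u) (hf1 v), hf3 u v]
    have hpat : IsEmpty (pat par (m - 1 + 1) ↪g G) := by
      rw [Nat.sub_add_cancel hm]
      exact ⟨fun φ => hT'.false (ψ.trans φ)⟩
    exact (hch V G Finset.univ (hrest V G htree hpat hnb) hpat).mono_const (le_max_right _ _)

lemma compRad {W : Type} [Fintype W] (F : SimpleGraph W) :
    CompRad F (2 * (Fintype.card W + 1)) := by
  intro v
  refine ⟨v, fun u hu => ?_⟩
  obtain ⟨p⟩ := hu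
  refine ⟨p.bypass, ?_⟩
  have h := p.bypass_isPath.length_lt
  omega

end AllAux

/-- The fractional Gyarfas-Sumner conjecture for all forests. -/
theorem stAll (h1 : StRest) : StAll := by
  intro W _ F hF
  refine GSR3.forest (2 * (Fintype.card W + 1)) ?_ (Fintype.card W) W F rfl hF
    (AllAux.compRad F)
  intro W' _ T r hT hr
  exact AllAux.tree h1 _ (by omega) (even_two_mul _) W' T r hT hr

end Pool.Agent.Lib.FGF
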