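import Pool.Agent.Lib.FGF.Stmts
import Pool.Agent.Lib.GSR3.Forest

/-!
# Module Atom: sets whose chosen neighbours have few neighbours in the set
-/

set_option autoImplicit false

namespace Pool.Agent.Lib.FGF

open Finset Classical
open Pool.Agent.Lib.FracGS (nb wnb TAdj pat)
open Pool.Agent.Lib.GSR3 (Stab Small Tree)
open Pool.Agent.Lib.GSR5 (NLC LabCov)

namespace Atom

/-- A relation with out-degrees at most `l` has a proper colouring with `2 l + 1` colours. -/
theorem col {V : Type} (R : V → V → Prop) (l : ℕ) (A : Finset V) :
    (∀ x ∈ A, (A.filter (fun z => R x z)).card ≤ l) →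
      ∃ c : V → Fin (2 * l + 1), ∀ x ∈ A, ∀ z ∈ A, x ≠ z → R x z → c x ≠ c z := by
  induction A using Finset.strongInduction with
  | H A ih =>
    intro h
    rcases A.eq_empty_or_nonempty with rfl | hne
    · exact ⟨fun _ => 0, fun x hx => absurd hx (Finset.notMem_empty x)⟩
    have key : ∃ z ∈ A, (A.filter (fun x => R x z)).card ≤ l := by
      by_contra hno
      push Not at hno
      have h1 : ∑ x ∈ A, (A.filter (fun z => R x z)).card ≤ A.card * l := by
        have := Finset.sum_le_card_nsmul A (fun x => (A.filter (fun z => R x z)).card) l h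
        simpa using this
      have h2 : A.card * (l + 1) ≤ ∑ z ∈ A, (A.filter (fun x => R x z)).card := by
        have := Finset.card_nsmul_le_sum A (fun z => (A.filter (fun x => R x z)).card) (l + 1)
          fun z hz => hno z hz
        simpa using this
      have h3 : ∑ x ∈ A, (A.filter (fun z => R x z)).card =
          ∑ z ∈ A, (A.filter (fun x => R x z)).card :=
        Finset.sum_card_bipartiteAbove_eq_sum_card_bipartiteBelow R
      have h4 : 0 < A.card := Finset.card_pos.2 hne
      rw [h3] at h1
      have h5 := h2.trans h1
      have h6 := Nat.le_of_mul_le_mul_left h5 h4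
      omega
    obtain ⟨z, hz, hzl⟩ := key
    obtain ⟨c, hc⟩ := ih (A.erase z) (Finset.erase_ssubset hz) (fun x hx =>
      (Finset.card_le_card (Finset.filter_subset_filter _ (Finset.erase_subset z A))).trans
        (h x (Finset.mem_of_mem_erase hx)))
    have h1 : ((A.filter (fun w => R z w) ∪ A.filter (fun x => R x z)).image c).card <
        (Finset.univ : Finset (Fin (2 * l + 1))).card := by
      rw [Finset.card_univ, Fintype.card_fin]
      have h2 := Finset.card_image_le (s := A.filter (fun w => R z w) ∪
        A.filter (fun x => R x z)) (f := c)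
      have h3 := Finset.card_union_le (A.filter (fun w => R z w)) (A.filter (fun x => R x z))
      have h4 := h z hz
      omega
    obtain ⟨k, -, hk⟩ := Finset.exists_mem_notMem_of_card_lt_card h1
    refine ⟨Function.update c z k, ?_⟩
    intro x hx w hw hxw hR
    by_cases hxz : x = z
    · subst hxz
      rw [Function.update_self, Function.update_of_ne (Ne.symm hxw)]
      intro he
      apply hk
      rw [he]
      exact Finset.mem_image_of_mem c (Finset.mem_union_left _ (Finset.mem_filter.2 ⟨hw, hR⟩))
    by_cases hwz : w = z
    · subst hwz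
      rw [Function.update_self, Function.update_of_ne hxz]
      intro he
      apply hk
      rw [← he]
      exact Finset.mem_image_of_mem c (Finset.mem_union_right _ (Finset.mem_filter.2 ⟨hx, hR⟩))
    · rw [Function.update_of_ne hxz, Function.update_of_ne hwz]
      exact hc x (Finset.mem_erase.2 ⟨hxz, hx⟩) w (Finset.mem_erase.2 ⟨hwz, hw⟩) hxw hR

end Atom

open Atom in
/-- Module `Atom`. -/
theorem stAtom : StAtom := by
  intro κ C0 hκ hC0 V _ G _ hN A y l hadj hout hdeg
  obtain ⟨c, hc⟩ := col (fun x z => G.Adj z (y x)) l A hdeg
  have h1 : ∀ k ∈ (Finset.univ : Finset (Fin (2 * l + 1))), Small G (A.filter (fun x => c x = k))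
      C0 := by
    intro k _
    refine hN _ y id ⟨Finset.subset_univ _, fun a _ => Finset.mem_univ _, ?_, ?_, ?_⟩ ?_
    · intro a ha b hb he
      exact hout a (Finset.mem_filter.1 ha).1 (he ▸ (Finset.mem_filter.1 hb).1)
    · intro a ha
      exact (hadj a (Finset.mem_filter.1 ha).1).symm
    · intro a ha b hb hab
      by_contra hne
      have ha' := Finset.mem_filter.1 ha
      have hb' := Finset.mem_filter.1 hb
      exact hc a ha'.1 b hb'.1 hne hab.symm (ha'.2.trans hb'.2.symm)
    · intro u
      refine GSR3.Stab.small ?_ hκ
      intro a ha b hb hab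
      have ha' := (Finset.mem_filter.1 ha).2
      have hb' := (Finset.mem_filter.1 hb).2
      have : a = b := ha'.trans hb'.symm
      exact G.loopless.irrefl _ (this ▸ hab)
  have h2 := GSR3.small_biUnion hC0 (fun k => A.filter (fun x => c x = k)) Finset.univ h1
  rw [Finset.card_univ, Fintype.card_fin] at h2
  have h3 : Finset.univ.biUnion (fun k => A.filter (fun x => c x = k)) = A := by
    ext x
    simp
  rw [h3] at h2
  refine h2.mono_const (le_of_eq ?_)
  push_cast
  ring

end Pool.Agent.Lib.FGF
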