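import Pool.Agent.Lib.FGF.Stmts

/-!
# Fractional Gyarfas-Sumner: averages of masters are masters
-/

set_option autoImplicit false

namespace Pool.Agent.Lib.FGF

open Finset Classical
open Pool.Agent.Lib.FracGS (nb wnb TAdj)
open Pool.Agent.Lib.GSR3 (Stab Small Tree)

namespace Avg

/-- the non-empty words of length at most `j` -/
noncomputable def wds (M j : ℕ) : Finset (List (Fin M)) :=
  (List.finite_length_le (Fin M) j).toFinset.filter (fun u => u ≠ [])

lemma mem_wds {M j : ℕ} {u : List (Fin M)} : u ∈ wds M j ↔ u.length ≤ j ∧ u ≠ [] := by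
  unfold wds
  simp

lemma card_wds (M j : ℕ) : (wds M j).card ≤ (M + 1) ^ j := by
  have h1 : (Finset.univ : Finset (Fin j → Option (Fin M))).card = (M + 1) ^ j := by
    simp
  rw [← h1]
  refine Finset.card_le_card_of_injOn (fun u => fun i : Fin j => u[i.1]?)
    (fun u _ => Finset.mem_coe.2 (Finset.mem_univ _)) ?_
  intro u hu w hw h
  have hu' := (mem_wds.1 (Finset.mem_coe.1 hu)).1
  have hw' := (mem_wds.1 (Finset.mem_coe.1 hw)).1
  refine List.ext_getElem? fun i => ?_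
  by_cases hi : i < j
  · exact congrFun h ⟨i, hi⟩
  · push Not at hi
    rw [List.getElem?_eq_none (hu'.trans hi), List.getElem?_eq_none (hw'.trans hi)]

lemma cm_avg {V : Type} [Fintype V] (G : SimpleGraph V) (Y : Finset V) (R : V → ℝ)
    (m : V → V → ℝ) (τ : ℝ) (b : V) :
    cm G (fun u => τ * ∑ y ∈ Y, R y * m y u) b = τ * ∑ y ∈ Y, R y * cm G (m y) b := by
  unfold cm nm wnb
  rw [← Finset.mul_sum, ← mul_add, Finset.sum_comm, ← Finset.sum_add_distrib]
  congr 1
  refine Finset.sum_congr rfl fun y _ => ?_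
  rw [← Finset.mul_sum, mul_add]

lemma cm_nonneg {V : Type} [Fintype V] (G : SimpleGraph V) {m : V → ℝ} (h : ∀ u, 0 ≤ m u)
    (b : V) : 0 ≤ cm G m b := by
  unfold cm nm wnb
  exact add_nonneg (h b) (Finset.sum_nonneg fun u _ => h u)

end Avg

open Avg

/-- Module `Avg`. -/
theorem stAvg : StAvg := by
  intro M j τ hτ V _ G x L Y R m hR hR1 hm hD φ hφ hx hall
  have h1 : ∀ y ∈ Y, 1 ≤ ∑ u ∈ wds M j, cm G (m y) (φ u) := by
    intro y hy
    by_contra hlt
    push Not at hlt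
    refine hD y hy φ hφ hx fun u hu0 hu => ⟨(hall u hu0 hu).1, ?_⟩
    exact lt_of_le_of_lt (Finset.single_le_sum (f := fun u => cm G (m y) (φ u))
      (fun u _ => cm_nonneg G (hm y) _) (mem_wds.2 ⟨hu, hu0⟩)) hlt
  have h2 : 1 ≤ ∑ u ∈ wds M j, ∑ y ∈ Y, R y * cm G (m y) (φ u) := by
    rw [Finset.sum_comm]
    calc (1 : ℝ) = ∑ y ∈ Y, R y := hR1.symm
      _ ≤ ∑ y ∈ Y, ∑ u ∈ wds M j, R y * cm G (m y) (φ u) := by
          refine Finset.sum_le_sum fun y hy => ?_
          rw [← Finset.mul_sum]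
          exact le_mul_of_one_le_right (hR y) (h1 y hy)
  have hne : (wds M j).Nonempty := by
    by_contra hne
    rw [Finset.not_nonempty_iff_eq_empty] at hne
    rw [hne, Finset.sum_empty] at h2
    linarith
  have h3 : ∑ u ∈ wds M j, cm G (fun u => τ * ∑ y ∈ Y, R y * m y u) (φ u) <
      ∑ _u ∈ wds M j, (1 : ℝ) := by
    refine Finset.sum_lt_sum_of_nonempty hne fun u hu => ?_
    obtain ⟨hu1, hu0⟩ := mem_wds.1 hu
    exact (hall u hu0 hu1).2
  have h4 : ∑ _u ∈ wds M j, (1 : ℝ) ≤ τ := by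
    rw [Finset.sum_const, nsmul_eq_mul, mul_one]
    refine le_trans ?_ hτ
    exact_mod_cast card_wds M j
  simp only [cm_avg] at h3
  rw [← Finset.mul_sum] at h3
  have hτ0 : 0 ≤ τ := le_trans (by positivity) hτ
  have h5 := le_mul_of_one_le_right hτ0 h2
  linarith

end Pool.Agent.Lib.FGF
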