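import Pool.Agent.Lib.FGF.BStmts
import Pool.Agent.Lib.GSR3.Base

/-!
# Fractional Gyarfas-Sumner for all forests: random bits, modules BBits and BProp
-/

set_option autoImplicit false

namespace Pool.Agent.Lib.FGF

open Finset Classical
open Pool.Agent.Lib.FracGS (nb wnb pat)
open Pool.Agent.Lib.GSR3 (Stab Small)

namespace BBitsAux

/-- the sets which contain `x` and are disjoint from `B` -/
noncomputable def okSets {V : Type} [Fintype V] (x : V) (B : Finset V) : Finset (Finset V) :=
  (univ : Finset (Finset V)).filter fun T => x ∈ T ∧ Disjoint B T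

theorem card_ok {V : Type} [Fintype V] (x : V) (B : Finset V) (L : ℕ) (hB : B.card ≤ L)
    (hx : x ∉ B) : (univ : Finset (Finset V)).card ≤ 2 ^ (L + 1) * (okSets x B).card := by
  have h1 : (univ : Finset (Finset V)).card ≤
      ((insert x B).powerset ×ˢ okSets x B).card := by
    refine Finset.card_le_card_of_injOn
      (fun T => (T ∩ insert x B, insert x (T \ insert x B))) ?_ ?_
    · intro T _
      rw [Finset.mem_coe, Finset.mem_product]
      refine ⟨Finset.mem_powerset.mpr Finset.inter_subset_right, ?_⟩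
      rw [okSets, Finset.mem_filter]
      refine ⟨Finset.mem_univ _, Finset.mem_insert_self _ _, ?_⟩
      rw [Finset.disjoint_left]
      intro b hb hb'
      rcases Finset.mem_insert.mp hb' with h | h
      · exact hx (h ▸ hb)
      · exact (Finset.mem_sdiff.mp h).2 (Finset.mem_insert_of_mem hb)
    · intro T _ T' _ h
      have h2 : T ∩ insert x B = T' ∩ insert x B := congrArg Prod.fst h
      have h3 : insert x (T \ insert x B) = insert x (T' \ insert x B) := congrArg Prod.snd h
      ext y
      by_cases hy : y ∈ insert x B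
      · have h4 : y ∈ T ∩ insert x B ↔ y ∈ T' ∩ insert x B := by rw [h2]
        simpa [hy] using h4
      · have h4 : y ∈ insert x (T \ insert x B) ↔ y ∈ insert x (T' \ insert x B) := by rw [h3]
        have hyx : y ≠ x := fun h => hy (h ▸ Finset.mem_insert_self _ _)
        simp only [Finset.mem_insert, Finset.mem_sdiff, hyx, false_or] at h4
        rw [Finset.mem_insert] at hy
        push Not at hy
        constructor
        · intro h5
          exact (h4.mp ⟨h5, by simpa using hy.2⟩).1
        · intro h5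
          exact (h4.mpr ⟨h5, by simpa using hy.2⟩).1
  refine h1.trans ?_
  rw [Finset.card_product, Finset.card_powerset]
  refine Nat.mul_le_mul_right _ (Nat.pow_le_pow_right (by norm_num) ?_)
  rw [Finset.card_insert_of_notMem hx]
  omega

end BBitsAux

open BBitsAux

theorem stBBits : StBBits := by
  intro V _ ν α β L W hν hβ hα
  have hmain : ∃ T ∈ (univ : Finset (Finset V)), ∑ x ∈ W, ν x ≤
      2 ^ (L + 1) * ∑ x ∈ W.filter (fun a => T ∈ okSets (α a) (β a)), ν x := by
    refine Finset.exists_le_of_sum_le ⟨∅, Finset.mem_univ _⟩ ?_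
    rw [Finset.sum_const, nsmul_eq_mul, ← Finset.mul_sum]
    have h1 : ∑ T : Finset V, ∑ x ∈ W.filter (fun a => T ∈ okSets (α a) (β a)), ν x =
        ∑ x ∈ W, ((okSets (α x) (β x)).card : ℝ) * ν x := by
      simp only [Finset.sum_filter]
      rw [Finset.sum_comm]
      refine Finset.sum_congr rfl fun x _ => ?_
      rw [← Finset.sum_filter, Finset.sum_const, nsmul_eq_mul]
      congr 2
      congr 1
      ext T
      simp
    rw [h1, Finset.mul_sum, Finset.mul_sum]
    refine Finset.sum_le_sum fun x hx => ?_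
    rw [← mul_assoc]
    refine mul_le_mul_of_nonneg_right ?_ (hν x)
    exact_mod_cast card_ok (α x) (β x) L (hβ x hx) (hα x hx)
  obtain ⟨T, -, hT⟩ := hmain
  refine ⟨W.filter (fun a => T ∈ okSets (α a) (β a)), Finset.filter_subset _ _, hT, ?_⟩
  intro a ha b hb hab
  have h1 := (Finset.mem_filter.mp (Finset.mem_filter.mp ha).2).2.2
  have h2 := (Finset.mem_filter.mp (Finset.mem_filter.mp hb).2).2.1
  exact Finset.disjoint_left.mp h1 hab h2

theorem stBProp : StBProp := by
  intro V _ G ν lab near L κ W I hν hκ hS hlab hnear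
  obtain ⟨W₃, hW₃, hle, hbits⟩ := stBBits V ν lab (fun a => (near a).erase (lab a)) L W hν
    (fun a ha => (Finset.card_erase_le).trans (hnear a ha))
    (fun a _ => Finset.notMem_erase _ _)
  -- stable parts of the fibres
  have hfib : ∀ y : V, ∃ T, T ⊆ W₃.filter (fun x => lab x = y) ∧ Stab G T ∧
      ∑ x ∈ W₃.filter (fun x => lab x = y), ν x ≤ κ * ∑ x ∈ T, ν x := by
    intro y
    by_cases hy : y ∈ I
    · have h1 : W₃.filter (fun x => lab x = y) ⊆ nb G W y := by
        intro x hx
        obtain ⟨hx1, hx2⟩ := Finset.mem_filter.mp hx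
        rw [FracGS.mem_nb]
        have h2 := hlab x (hW₃ hx1)
        rw [FracGS.mem_nb, hx2] at h2
        exact ⟨hW₃ hx1, h2.2.symm⟩
      exact ((hS y hy).mono_set h1) ν hν
    · have h1 : W₃.filter (fun x => lab x = y) = ∅ := by
        rw [Finset.filter_eq_empty_iff]
        intro x hx h2
        have h3 := hlab x (hW₃ hx)
        rw [FracGS.mem_nb, h2] at h3
        exact hy h3.1
      refine ⟨∅, Finset.empty_subset _, GSR3.stab_empty, ?_⟩
      rw [h1]
      simp
  choose T hTsub hTst hTle using hfib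
  set W' : Finset V := W₃.filter (fun x => x ∈ T (lab x)) with hW'
  have hTeq : ∀ y, W'.filter (fun x => lab x = y) = T y := by
    intro y
    ext x
    rw [hW', Finset.mem_filter, Finset.mem_filter]
    constructor
    · rintro ⟨⟨_, h2⟩, h3⟩
      rw [← h3]
      exact h2
    · intro h
      obtain ⟨h1, h2⟩ := Finset.mem_filter.mp (hTsub y h)
      exact ⟨⟨h1, by rw [h2]; exact h⟩, h2⟩
  have h1 : ∑ x ∈ W₃, ν x ≤ κ * ∑ x ∈ W', ν x := by
    rw [← Finset.sum_fiberwise_of_maps_to (t := univ) (g := lab) (fun x _ => Finset.mem_univ _),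
      ← Finset.sum_fiberwise_of_maps_to (s := W') (t := univ) (g := lab)
        (fun x _ => Finset.mem_univ _), Finset.mul_sum]
    refine Finset.sum_le_sum fun y _ => ?_
    rw [hTeq y]
    exact hTle y
  refine ⟨W', (Finset.filter_subset _ _).trans hW₃, ?_, ?_⟩
  · calc ∑ x ∈ W, ν x ≤ 2 ^ (L + 1) * ∑ x ∈ W₃, ν x := hle
      _ ≤ 2 ^ (L + 1) * (κ * ∑ x ∈ W', ν x) := mul_le_mul_of_nonneg_left h1 (by positivity)
      _ = κ * 2 ^ (L + 1) * ∑ x ∈ W', ν x := by ring
  · intro x hx t ht hadj hmem
    obtain ⟨hx1, hx2⟩ := Finset.mem_filter.mp hx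
    obtain ⟨ht1, ht2⟩ := Finset.mem_filter.mp ht
    have h2 : lab x = lab t := by
      by_contra hne
      exact hbits t ht1 x hx1 (Finset.mem_erase.mpr ⟨hne, hmem⟩)
    rw [← h2] at ht2
    exact hTst (lab x) x hx2 t ht2 hadj

end Pool.Agent.Lib.FGF
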