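import Pool.Agent.Lib.FGF.BDefs

/-!
# Fractional Gyarfas-Sumner for all forests: labels and lists (type B), statements
-/

set_option autoImplicit false

namespace Pool.Agent.Lib.FGF

open Finset Classical
open Pool.Agent.Lib.FracGS (nb wnb pat)
open Pool.Agent.Lib.GSR3 (Stab Small)

/-- Module `BSamp`: sampling.  `a x = wnb G I ρ x`.  If the hubs in `Good x` have a positive
proportion of the hub mass of `x` and the sets `F y` are small, then on a part of the world there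
are labels in `Good x` and short lists which contain all close labels. -/
def StBSamp : Prop :=
  ∀ e K Ups H : ℝ, 0 < e → 0 ≤ K → 0 < Ups → 1 ≤ H → ∃ (L : ℕ) (c : ℝ), 0 < c ∧
    ∀ (V : Type) [Fintype V] (G : SimpleGraph V) (ν ρ sig : V → ℝ) (W' W I : Finset V)
      (Good F : V → Finset V),
      (∀ v, 0 ≤ ν v) → (∀ v, 0 ≤ ρ v) → ∑ y ∈ I, ρ y ≤ 1 → W ⊆ W' →
      ∑ x ∈ W', ν x ≤ H * ∑ x ∈ W, ν x →
      (∀ x ∈ W, 0 < wnb G I ρ x) →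
      (∀ x ∈ W, Good x ⊆ nb G I x) →
      (∀ x ∈ W, e * wnb G I ρ x ≤ ∑ y ∈ Good x, ρ y) →
      (∀ x ∈ W, ∀ y ∈ Good x, 0 < sig y ∧ sig y ≤ wnb G I ρ x ∧
        ∑ t ∈ F y, ν t ≤ K * (∑ t ∈ W', ν t) * sig y) →
      ∃ (W2 : Finset V) (lab : V → V) (near : V → Finset V), W2 ⊆ W ∧
        c * ∑ x ∈ W, ν x ≤ ∑ x ∈ W2, ν x ∧
        (∀ x ∈ W2, lab x ∈ Good x) ∧ (∀ x ∈ W2, (near x).card ≤ L) ∧
        ∀ x ∈ W2, ∀ t ∈ W2, G.Adj t (lab x) →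
          (wnb G I ρ t < Ups * wnb G I ρ x ∨ t ∈ F (lab x)) → lab x ∈ near t

/-- Module `BBits`: random bits.  If `α a ∉ β a` for `a ∈ W` and the lists `β a` are short, then
on a part of `W` no `α b` lies in any `β a`. -/
def StBBits : Prop :=
  ∀ (V : Type) [Fintype V] (ν : V → ℝ) (α : V → V) (β : V → Finset V) (L : ℕ) (W : Finset V),
    (∀ v, 0 ≤ ν v) → (∀ a ∈ W, (β a).card ≤ L) → (∀ a ∈ W, α a ∉ β a) →
      ∃ W', W' ⊆ W ∧ ∑ x ∈ W, ν x ≤ 2 ^ (L + 1) * ∑ x ∈ W', ν x ∧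
        ∀ a ∈ W', ∀ b ∈ W', α b ∉ β a

/-- Module `BProp`: adjacent vertices of the world do not see each other's labels. -/
def StBProp : Prop :=
  ∀ (V : Type) [Fintype V] (G : SimpleGraph V) (ν : V → ℝ) (lab : V → V) (near : V → Finset V)
    (L : ℕ) (κ : ℝ) (W I : Finset V), (∀ v, 0 ≤ ν v) → 1 ≤ κ →
      (∀ y ∈ I, Small G (nb G W y) κ) → (∀ x ∈ W, lab x ∈ nb G I x) →
      (∀ a ∈ W, (near a).card ≤ L) →
      ∃ W', W' ⊆ W ∧ ∑ x ∈ W, ν x ≤ κ * 2 ^ (L + 1) * ∑ x ∈ W', ν x ∧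
        ∀ x ∈ W', ∀ t ∈ W', G.Adj x t → lab x ∉ near t

/-- Module `BList`: existence of labels and lists. -/
def StBList : Prop :=
  ∀ κ e K Ups H : ℝ, 1 ≤ κ → 0 < e → 0 ≤ K → 0 < Ups → 1 ≤ H → ∃ (L : ℕ) (c : ℝ), 0 < c ∧
    ∀ (V : Type) [Fintype V] (G : SimpleGraph V) (ν ρ sig : V → ℝ) (W' W I : Finset V)
      (Good F : V → Finset V) (Cf : V → V → Prop),
      (∀ v, 0 ≤ ν v) → (∀ v, 0 ≤ ρ v) → ∑ y ∈ I, ρ y ≤ 1 → W ⊆ W' →
      ∑ x ∈ W', ν x ≤ H * ∑ x ∈ W, ν x →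
      (∀ y ∈ I, Small G (nb G W y) κ) →
      (∀ x ∈ W, 0 < wnb G I ρ x) →
      (∀ x ∈ W, Good x ⊆ nb G I x) →
      (∀ x ∈ W, e * wnb G I ρ x ≤ ∑ y ∈ Good x, ρ y) →
      (∀ x ∈ W, ∀ y ∈ Good x, 0 < sig y ∧ sig y ≤ wnb G I ρ x ∧
        ∑ t ∈ F y, ν t ≤ K * (∑ t ∈ W', ν t) * sig y) →
      (∀ x ∈ W, ∀ y ∈ Good x, ∀ t ∈ W, G.Adj t y → Cf x t → t ∈ F y) →
      ∃ (W2 : Finset V) (lab : V → V) (near : V → Finset V), W2 ⊆ W ∧
        c * ∑ x ∈ W, ν x ≤ ∑ x ∈ W2, ν x ∧ BItem G W2 I (wnb G I ρ) Ups Cf L lab near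

/-- Module `BSepM`: separation of all the words on a part of the world. -/
def StBSep : Prop :=
  ∀ i L : ℕ, ∃ c : ℝ, 0 < c ∧ ∀ (V : Type) [Fintype V] (ν : V → ℝ) (B : ℕ → Finset ℕ → Prop)
    (lab : ℕ → Finset ℕ → V → V) (near : ℕ → Finset ℕ → V → Finset V) (W : Finset V),
    (∀ v, 0 ≤ ν v) → (∀ s S, B s S → S ⊆ range s) →
    (∀ l S, l < i → B l S → ∀ v, BWord B l i v → ∀ a ∈ W,
      (near l S (bapp lab v a)).card ≤ L) →
      ∃ W', W' ⊆ W ∧ c * ∑ x ∈ W, ν x ≤ ∑ x ∈ W', ν x ∧ BSep B lab near i W'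

/-- Module `BKey`: the key lemma. -/
def StBKey : Prop :=
  ∀ (V : Type) (G : SimpleGraph V) (W I : ℕ → Finset V) (a : ℕ → V → ℝ) (Ups : ℝ) (L : ℕ → ℕ)
    (B : ℕ → Finset ℕ → Prop) (lab : ℕ → Finset ℕ → V → V) (near : ℕ → Finset ℕ → V → Finset V)
    (n : ℕ), BRec G W I a Ups L B lab near n →
      ∀ i ≤ n, ∀ l S, l < i → B l S → ∀ v w, BWord B l i v → BWord B l i w →
        (∀ p ∈ v, ∀ q ∈ w, p.1 = q.1 → p = q) → v.getLast? ≠ w.getLast? →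
          ∀ b ∈ W i, lab l S (bapp lab w b) ∉ near l S (bapp lab v b)

/-- Module `BPick`: among many stages one can choose `m + 1` large ones on which finitely many
properties are constant, with many smaller stages left. -/
def StBPick : Prop :=
  ∀ (ι : Type) [Fintype ι] (m r : ℕ) (P : Finset ℕ),
    (m * 2 ^ Fintype.card ι + 1) + r ≤ P.card → ∀ T : ℕ → ι → Prop,
      ∃ (s : ℕ) (S R : Finset ℕ), s ∈ P ∧ S ⊆ P ∧ R ⊆ P ∧ S.card = m ∧ (∀ c ∈ S, c < s) ∧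
        (∀ c ∈ R, c < s) ∧ r ≤ R.card ∧ ∀ c ∈ S, ∀ j, T c j ↔ T s j

/-- Module `BTree`: a large pool of stages whose `m`-sets are all of type B gives every tree. -/
def StBTree : Prop :=
  ∀ (m n : ℕ) (par : ℕ → ℕ), (∀ j, 1 ≤ j → par j < j) → ∃ N0 : ℕ,
    ∀ (V : Type) (G : SimpleGraph V) (W I : ℕ → Finset V) (a : ℕ → V → ℝ) (Ups : ℝ) (L : ℕ → ℕ)
      (B : ℕ → Finset ℕ → Prop) (lab : ℕ → Finset ℕ → V → V)
      (near : ℕ → Finset ℕ → V → Finset V) (N : ℕ) (P : Finset ℕ),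
      BRec G W I a Ups L B lab near N → (W N).Nonempty → P ⊆ range N → N0 ≤ P.card →
      (∀ s ∈ P, ∀ S, S ⊆ P → S.card = m → (∀ c ∈ S, c < s) → B s S) →
        Nonempty (pat par (n + 1) ↪g G)

end Pool.Agent.Lib.FGF
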