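import Pool.Agent.Lib.FGF.Stmts
import Pool.Agent.Lib.FGF.BStmts

/-!
# The fractional Gyarfas-Sumner conjecture: the separation property of the last world
-/

set_option autoImplicit false

namespace Pool.Agent.Lib.FGF

open Finset Classical
open Pool.Agent.Lib.FracGS (nb wnb TAdj pat)
open Pool.Agent.Lib.GSR3 (Stab Small Tree)
open Pool.Agent.Lib.GSR5 (NLC)

namespace SepM

variable {V : Type} {W : ℕ → Finset V} {B : ℕ → Finset ℕ → Prop}
  {lab : ℕ → Finset ℕ → V → V} {N : ℕ}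

lemma anti (h : ∀ i < N, W (i + 1) ⊆ W i) {i j : ℕ} (hij : i ≤ j) (hj : j ≤ N) :
    W j ⊆ W i := by
  induction j, hij using Nat.le_induction with
  | base => exact Subset.refl _
  | succ j hij ih => exact (h j (by omega)).trans (ih (by omega))

lemma bapp_mem (h : ∀ i < N, W (i + 1) ⊆ W i)
    (hlab : ∀ s < N, ∀ S, B s S → ∀ x ∈ W (s + 1), lab s S x ∈ W s) :
    ∀ (v : List (ℕ × Finset ℕ)) (l i : ℕ), l < i → i ≤ N → BWord B l i v → ∀ b ∈ W i,
      bapp lab v b ∈ W (l + 1) := by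
  intro v
  induction v with
  | nil =>
    intro l i hl hi _ b hb
    exact anti h (by omega) hi hb
  | cons m z ih =>
    intro l i hl hi hw b hb
    obtain ⟨h1, h2⟩ := hw
    rw [List.pairwise_cons] at h1
    obtain ⟨h3, h4, h5⟩ := h2 m (by simp)
    refine ih l m.1 h3 (by omega) ⟨h1.2, ?_⟩ _ ?_
    · intro p hp
      obtain ⟨h6, _, h8⟩ := h2 p (List.mem_cons_of_mem _ hp)
      exact ⟨h6, h1.1 p hp, h8⟩
    · exact hlab m.1 (by omega) m.2 h5 b (anti h (by omega) hi hb)

end SepM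

open SepM in
theorem stSepM (h : StBSep) : StSepM := by
  intro P _ n H hH
  obtain ⟨c, hc, hmain⟩ := h n ⌊H⌋₊
  refine ⟨max 1 (1 / c), le_max_left _ _, ?_⟩
  intro T V _ G ν σ ξ hS
  obtain ⟨W', hW', hm, hsep⟩ := hmain V ν (fun s S => σ.isB S s) (fun s S => σ.lab S s)
    (fun s S => σ.near S s) (σ.W n) hS.ν0 (fun s S hB => (hS.lab S s hB).2.1) (by
      intro l S hl hB v hv a ha
      refine Nat.le_floor ((hS.lab S l hB).2.2.2.card _ ?_)
      refine bapp_mem (N := n) hS.sub ?_ v l n hl le_rfl hv a ha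
      intro s hs S' hB' x hx
      exact ((hS.lab S' s hB').2.2.2.mem x hx).1)
  refine ⟨W', hW', ?_, ?_⟩
  · have h0 : 0 ≤ ms ν W' := Finset.sum_nonneg (fun v _ => hS.ν0 v)
    have h1 : c * ms ν (σ.W n) ≤ ms ν W' := hm
    have h2 : ms ν (σ.W n) ≤ 1 / c * ms ν W' := by
      rw [one_div, inv_mul_eq_div, le_div_iff₀ hc]
      linarith
    exact h2.trans (mul_le_mul_of_nonneg_right (le_max_right _ _) h0)
  · have h1 : (σ.shr n W').W n = W' := by
      simp [Dat.shr]
    unfold SepAt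
    rw [h1]
    exact hsep

end Pool.Agent.Lib.FGF
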