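import Pool.Agent.Lib.FGF.Stmts2
import Pool.Agent.Lib.FGF.BStmts
import Pool.Agent.Lib.FGF.SepM

/-!
# The fractional Gyarfas-Sumner conjecture: a pool all of whose items have type B
-/

set_option autoImplicit false

namespace Pool.Agent.Lib.FGF

open Finset Classical
open Pool.Agent.Lib.FracGS (nb wnb TAdj pat)
open Pool.Agent.Lib.GSR3 (Stab Small Tree)
open Pool.Agent.Lib.GSR5 (NLC)

theorem stBCase (h : StBTree) : StBCase := by
  intro m n0 par hpar
  obtain ⟨N0, hmain⟩ := h m n0 par hpar
  refine ⟨N0 + 1, ?_⟩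
  intro P _ _ n T H ξ V _ G ν σ hS A hA hAc hB
  have hne : A.Nonempty := Finset.card_pos.mp (by omega)
  set N : ℕ := A.max' hne with hN
  have hNA : N ∈ A := A.max'_mem hne
  have hNn : N < n := by
    have := hA hNA
    simpa using this
  have hlt : ∀ s ∈ A.erase N, s < N := by
    intro s hs
    rw [Finset.mem_erase] at hs
    exact lt_of_le_of_ne (A.le_max' s hs.2) hs.1
  have hrec : BRec G σ.W (fun s => σ.W s \ σ.W (s + 1)) (sc G σ) P.Υ (fun _ => ⌊H⌋₊)
      (fun s S => σ.isB S s) (fun s S => σ.lab S s) (fun s S => σ.near S s) N := by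
    refine ⟨?_, ?_, ?_, ?_, ?_, ?_⟩
    · intro i hi
      exact hS.sub i (by omega)
    · intro i _
      exact Finset.sdiff_subset
    · intro i _
      exact Finset.sdiff_disjoint
    · intro s S hs
      exact (hS.lab S s hs).2.1
    · intro s _ S hs
      obtain ⟨_, _, _, hL⟩ := hS.lab S s hs
      refine ⟨?_, ?_, ?_, ?_, ?_⟩
      · intro x hx
        have := hL.mem x hx
        exact Finset.mem_sdiff.mpr this
      · intro x hx
        exact (hL.adj x hx).symm
      · intro x hx
        exact Nat.le_floor (hL.card x hx)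
      · exact hL.prop
      · exact hL.conf
    · intro i hi
      exact hS.sep i (by omega)
  refine hmain V G σ.W _ (sc G σ) P.Υ _ _ _ _ N (A.erase N) hrec ?_ ?_ ?_ ?_
  · have h1 : (σ.W n).Nonempty := by
      rw [Finset.nonempty_iff_ne_empty]
      intro h2
      have h3 := hS.pos
      rw [h2] at h3
      simp only [ms, Finset.sum_empty, mul_zero] at h3
      linarith
    exact h1.mono (SepM.anti (N := n) hS.sub hNn.le le_rfl)
  · intro s hs
    exact Finset.mem_range.mpr (hlt s hs)
  · rw [Finset.card_erase_of_mem hNA]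
    omega
  · intro s hs S hSA hSc hSs
    refine hB s (Finset.mem_of_mem_erase hs) S (hSA.trans (Finset.erase_subset _ _)) ?_ hSc
    intro c hc
    exact Finset.mem_range.mpr (hSs c hc)

end Pool.Agent.Lib.FGF
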