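import Pool.Agent.Lib.FGF.Stmts
import Pool.Agent.Lib.FGF.BStmts
import Pool.Agent.Lib.GSR3.Base

/-!
# The fractional Gyarfas-Sumner conjecture: labels and lists of an item
-/

set_option autoImplicit false

namespace Pool.Agent.Lib.FGF

open Finset Classical
open Pool.Agent.Lib.FracGS (nb wnb TAdj pat)
open Pool.Agent.Lib.GSR3 (Stab Small Tree)
open Pool.Agent.Lib.GSR5 (NLC)

namespace BItemBr

lemma wnb_supp {V : Type} [Fintype V] (G : SimpleGraph V) (ρ : V → ℝ) (x : V) :
    wnb G (Finset.univ.filter (fun v => ρ v ≠ 0)) ρ x = nm G ρ x := by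
  unfold nm wnb nb
  rw [Finset.filter_filter, Finset.sum_filter, Finset.sum_filter]
  refine Finset.sum_congr rfl fun v _ => ?_
  by_cases h : ρ v = 0
  · simp [h]
  · simp [h]

lemma small_mono {V : Type} {G : SimpleGraph V} {A B : Finset V} {c : ℝ} (_hc : 0 ≤ c)
    (hAB : A ⊆ B) (h : Small G B c) : Small G A c := by
  intro w hw
  obtain ⟨J, hJ, hJs, hJw⟩ := h (fun v => if v ∈ A then w v else 0) (by
    intro v
    by_cases hv : v ∈ A
    · simp [hv, hw v]
    · simp [hv])
  refine ⟨J ∩ A, Finset.inter_subset_right, ?_, ?_⟩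
  · intro u hu v hv
    exact hJs u (Finset.mem_inter.mp hu).1 v (Finset.mem_inter.mp hv).1
  · have h1 : ∑ v ∈ B, (if v ∈ A then w v else 0) = ∑ v ∈ A, w v := by
      rw [← Finset.sum_filter]
      congr 1
      ext v
      simp only [Finset.mem_filter]
      exact ⟨fun h => h.2, fun h => ⟨hAB h, h⟩⟩
    have h2 : ∑ v ∈ J, (if v ∈ A then w v else 0) = ∑ v ∈ J ∩ A, w v := by
      rw [← Finset.sum_filter, Finset.filter_mem_eq_inter]
    rw [h1, h2] at hJw
    exact hJw

end BItemBr

open BItemBr in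
theorem stBItem (h : StBList) : StBItem := by
  intro P hP n H K c hH hK hc
  have hε : 0 < P.ε := hP.ε0
  have hε2 : 0 < 4 / P.ε ^ 2 := by positivity
  have hτ : 1 ≤ P.τ := by
    refine le_trans ?_ hP.τ1
    refine one_le_pow₀ ?_
    push_cast
    have : (0 : ℝ) ≤ P.M := Nat.cast_nonneg _
    linarith
  have hκ : 1 ≤ P.κ := hP.κ1
  have hB : 1 ≤ P.B := by
    refine le_trans ?_ hP.B1
    have : 0 ≤ 64 * P.κ * 2 * P.τ / P.ε := by positivity
    linarith
  have hm : (0 : ℝ) < P.m := by
    have h1 := hP.h2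
    have h2 := hP.hm
    exact_mod_cast (by omega : 0 < P.m)
  have hL0 : 0 < P.L0 := by
    refine lt_of_lt_of_le ?_ hP.L1
    have : 0 < P.B := by linarith
    have : 0 < P.τ := by linarith
    positivity
  have hΥ : 0 < P.Υ := by
    unfold Par.Υ
    positivity
  obtain ⟨L, c0, hc0, hmain⟩ := h P.κ (P.ε / 32) K P.Υ (H * c) hκ (by positivity) hK.le hΥ (by
    nlinarith)
  refine ⟨max 1 (max L (1 / c0)), le_max_left _ _, ?_⟩
  intro T V _ G ν σ ξ S W' Gd F A μ hCls hS hSn hSm hW' hcW hD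
  have hsub : σ.W (n + 1) ⊆ σ.W n := hS.sub n (by omega)
  have hwn : ∀ x, wnb G (Finset.univ.filter (fun v => σ.ρ n v ≠ 0)) (σ.ρ n) x = sc G σ n x :=
    fun x => wnb_supp G (σ.ρ n) x
  have hρ0 := hS.ρ0 n (by omega)
  obtain ⟨W2, lb, nr, hW2, hms, hIt⟩ := hmain V G ν (σ.ρ n) μ (σ.W n) W'
    (Finset.univ.filter (fun v => σ.ρ n v ≠ 0)) Gd F
    (fun x t => ∀ c ∈ S, P.Υ * sc G σ c x ≤ sc G σ c t) hS.ν0 hρ0 (by
      refine le_trans ?_ (hS.ρ1 n (by omega))
      exact Finset.sum_le_sum_of_subset_of_nonneg (Finset.subset_univ _) (fun v _ _ => hρ0 v))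
    (hW'.trans hsub) (by
      have h1 : ∑ x ∈ σ.W n, ν x ≤ 1 := by
        rw [← hS.ν1]
        exact Finset.sum_le_sum_of_subset_of_nonneg (Finset.subset_univ _)
          (fun v _ _ => hS.ν0 v)
      have h2 := hS.pos
      have h3 : H * ms ν (σ.W (n + 1)) ≤ H * (c * ms ν W') :=
        mul_le_mul_of_nonneg_left hcW (by linarith)
      calc ∑ x ∈ σ.W n, ν x ≤ 1 := h1
        _ ≤ H * ms ν (σ.W (n + 1)) := h2
        _ ≤ H * (c * ms ν W') := h3
        _ = H * c * ∑ x ∈ W', ν x := by
          unfold ms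
          ring)
    (by
      intro y _
      refine small_mono (by linarith) ?_ (hCls.nbs y)
      unfold nb
      exact Finset.filter_subset_filter _ (Finset.subset_univ _))
    (by
      intro x hx
      rw [hwn]
      exact hS.ap n (by omega) x (hW' hx))
    (by
      intro x hx y hy
      obtain ⟨h1, h2⟩ := hD.adj x hx y hy
      unfold nb
      simp only [Finset.mem_filter, Finset.mem_univ, true_and]
      exact ⟨h2, h1⟩)
    (by
      intro x hx
      rw [hwn]
      exact hD.mass x hx)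
    (by
      intro x hx y hy
      rw [hwn]
      exact hD.med x hx y hy)
    (by
      intro x hx y hy t ht hty hcf
      refine hD.fib y t (hsub (hW' ht)) hty ?_
      intro c hc
      obtain ⟨h1, h2⟩ := hD.cls x hx y hy c hc
      refine le_trans ?_ (hcf c hc)
      calc P.L0 * A c y ≤ P.L0 * (4 / P.ε ^ 2 * sc G σ c x) :=
            mul_le_mul_of_nonneg_left h2 hL0.le
        _ = P.Υ * sc G σ c x := by
          unfold Par.Υ
          ring)
  refine ⟨W2, lb, nr, hW2, ?_, ?_⟩
  · have h0 : 0 ≤ ms ν W2 := Finset.sum_nonneg (fun v _ => hS.ν0 v)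
    have h1 : c0 * ms ν W' ≤ ms ν W2 := hms
    have h2 : ms ν W' ≤ 1 / c0 * ms ν W2 := by
      rw [one_div, inv_mul_eq_div, le_div_iff₀ hc0]
      linarith
    exact h2.trans (mul_le_mul_of_nonneg_right
      ((le_max_right _ _).trans (le_max_right _ _)) h0)
  · have e1 : (σ.setB S n W2 lb nr).W (n + 1) = W2 := by
      simp [Dat.setB]
    have e2 : (σ.setB S n W2 lb nr).W n = σ.W n := by
      simp [Dat.setB]
    have e3 : (σ.setB S n W2 lb nr).lab S n = lb := by
      simp [Dat.setB]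
    have e4 : (σ.setB S n W2 lb nr).near S n = nr := by
      simp [Dat.setB]
    have e5 : ∀ k x, sc G (σ.setB S n W2 lb nr) k x = sc G σ k x := fun _ _ => rfl
    refine ⟨?_, ?_, ?_, ?_, ?_⟩
    · intro x hx
      rw [e1] at hx ⊢
      rw [e2, e3]
      have h1 := hIt.mem x hx
      simp only [Finset.mem_filter, Finset.mem_univ, true_and] at h1
      obtain ⟨h2, h3⟩ := hS.ρW n (by omega) _ h1
      exact ⟨h2, fun h4 => h3 (hW' (hW2 h4))⟩
    · intro x hx
      rw [e1] at hx
      rw [e3]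
      exact (hIt.adj x hx).symm
    · intro t ht
      rw [e1] at ht
      rw [e4]
      have h1 : ((nr t).card : ℝ) ≤ L := by exact_mod_cast hIt.card t ht
      exact h1.trans ((le_max_left _ _).trans (le_max_right _ _))
    · intro x hx t ht hadj hcf
      rw [e1] at hx ht
      rw [e3] at hadj ⊢
      rw [e4]
      refine hIt.conf x hx t ht hadj ?_
      rw [hwn, hwn]
      exact hcf
    · intro x hx t ht hadj
      rw [e1] at hx ht
      rw [e3, e4]
      exact hIt.prop x hx t ht hadj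

end Pool.Agent.Lib.FGF
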