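import Pool.Agent.Lib.FGF.BStmts

/-!
# Fractional Gyarfas-Sumner for all forests: the key lemma for labels and lists
-/

set_option autoImplicit false

namespace Pool.Agent.Lib.FGF

open Finset Classical
open Pool.Agent.Lib.FracGS (nb wnb pat)
open Pool.Agent.Lib.GSR3 (Stab Small)

lemma bapp_append {V : Type} (lab : ℕ → Finset ℕ → V → V) (v w : List (ℕ × Finset ℕ)) :
    ∀ b, bapp lab (v ++ w) b = bapp lab w (bapp lab v b) := by
  induction v with
  | nil => exact fun b => rfl
  | cons m z ih => exact fun b => ih (lab m.1 m.2 b)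

section Rec

variable {V : Type} {G : SimpleGraph V} {W I : ℕ → Finset V} {a : ℕ → V → ℝ} {Ups : ℝ}
  {L : ℕ → ℕ} {B : ℕ → Finset ℕ → Prop} {lab : ℕ → Finset ℕ → V → V}
  {near : ℕ → Finset ℕ → V → Finset V} {n : ℕ}

lemma BRec.chain_sub (h : BRec G W I a Ups L B lab near n) {i j : ℕ} (hij : i ≤ j) (hj : j ≤ n) :
    W j ⊆ W i := by
  induction j, hij using Nat.le_induction with
  | base => exact Subset.refl _
  | succ j hij ih => exact (h.anti j (by omega)).trans (ih (by omega))

lemma BWord.tail {l i : ℕ} {m : ℕ × Finset ℕ} {z : List (ℕ × Finset ℕ)}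
    (h : BWord B l i (m :: z)) : BWord B l m.1 z := by
  obtain ⟨h1, h2⟩ := h
  rw [List.pairwise_cons] at h1
  exact ⟨h1.2, fun q hq => ⟨(h2 q (List.mem_cons_of_mem _ hq)).1, h1.1 q hq,
    (h2 q (List.mem_cons_of_mem _ hq)).2.2⟩⟩

lemma BWord.head {l i : ℕ} {m : ℕ × Finset ℕ} {z : List (ℕ × Finset ℕ)}
    (h : BWord B l i (m :: z)) : l < m.1 ∧ m.1 < i ∧ B m.1 m.2 := h.2 m (by simp)

lemma bapp_mem (h : BRec G W I a Ups L B lab near n) {l : ℕ} :
    ∀ (v : List (ℕ × Finset ℕ)) (i : ℕ), i ≤ n → l < i → BWord B l i v → ∀ b ∈ W i,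
      bapp lab v b ∈ W (l + 1) := by
  intro v
  induction v with
  | nil => exact fun i hi hl _ b hb => h.chain_sub (by omega) hi hb
  | cons m z ih =>
    intro i hi hl hv b hb
    obtain ⟨h1, h2, h3⟩ := hv.head
    have hb' : b ∈ W (m.1 + 1) := h.chain_sub (by omega) hi hb
    exact ih m.1 (by omega) h1 hv.tail _
      (h.hub m.1 (by omega) ((h.item m.1 (by omega) m.2 h3).mem b hb'))

/-- A word up to stage `i + 1` is a word up to stage `i` or starts with a letter of stage `i`. -/
lemma bword_cases {l i : ℕ} {v : List (ℕ × Finset ℕ)} (h : BWord B l (i + 1) v) :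
    BWord B l i v ∨ ∃ S z, v = (i, S) :: z ∧ BWord B l i z ∧ B i S := by
  cases v with
  | nil => exact Or.inl ⟨List.Pairwise.nil, fun m hm => by simp at hm⟩
  | cons m z =>
    obtain ⟨h1, h2, h3⟩ := h.head
    by_cases hm : m.1 = i
    · right
      obtain ⟨s, S⟩ := m
      simp only at hm
      subst hm
      exact ⟨S, z, rfl, h.tail, h3⟩
    · left
      refine ⟨h.1, fun q hq => ⟨(h.2 q hq).1, ?_, (h.2 q hq).2.2⟩⟩
      rcases List.mem_cons.1 hq with rfl | hq'
      · omega
      · have := (List.pairwise_cons.1 h.1).1 q hq'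
        omega

lemma bword_nil {l : ℕ} {v : List (ℕ × Finset ℕ)} (h : BWord B l (l + 1) v) : v = [] := by
  cases v with
  | nil => rfl
  | cons m z =>
    obtain ⟨h1, h2, -⟩ := h.head
    omega

lemma getLast_cons_ne {m : ℕ × Finset ℕ} {z w : List (ℕ × Finset ℕ)}
    (hne : (m :: z).getLast? ≠ w.getLast?) (hlast : z.getLast? = w.getLast?) :
    z = [] ∧ w = [] := by
  cases z with
  | nil =>
    rw [List.getLast?_nil] at hlast
    exact ⟨rfl, List.getLast?_eq_none_iff.mp hlast.symm⟩
  | cons q z' =>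
    exfalso
    apply hne
    rw [← hlast, List.getLast?_cons, List.getLast?_cons]
    rfl

lemma bkey (h : BRec G W I a Ups L B lab near n) : ∀ i ≤ n, ∀ l S, l < i → B l S → ∀ v w,
    BWord B l i v → BWord B l i w → (∀ p ∈ v, ∀ q ∈ w, p.1 = q.1 → p = q) →
      v.getLast? ≠ w.getLast? → ∀ b ∈ W i, lab l S (bapp lab w b) ∉ near l S (bapp lab v b) := by
  intro i
  induction i with
  | zero =>
    intro _ l S h1
    omega
  | succ i ih =>
    intro hi l S hli hS v w hv hw hvw hne b hb
    rcases Nat.eq_or_lt_of_le (Nat.lt_succ_iff.1 hli) with h1 | h1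
    · subst h1
      rw [bword_nil hv, bword_nil hw] at hne
      exact absurd rfl hne
    have ih' := ih (by omega) l S h1 hS
    have hbi : b ∈ W i := h.anti i (by omega) hb
    have hitem := h.item l (by omega) S hS
    have hsub : W i ⊆ W (l + 1) := h.chain_sub (by omega) (by omega)
    rcases bword_cases hv with hv' | ⟨S1, z, rfl, hz, hB1⟩ <;>
      rcases bword_cases hw with hw' | ⟨S2, y, rfl, hy, hB2⟩
    · exact ih' v w hv' hw' hvw hne b hbi
    · have hit := h.item i (by omega) S2 hB2
      have hb' : lab i S2 b ∈ W i := h.hub i (by omega) (hit.mem b hb)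
      intro hmem
      have hmem' : lab l S (bapp lab y (lab i S2 b)) ∈ near l S (bapp lab v b) := hmem
      rcases h.sep i (by omega) l S h1 hS v y hv' hy with h2 | h2
      · by_cases hlast : y.getLast? = v.getLast?
        · obtain ⟨rfl, rfl⟩ := getLast_cons_ne (Ne.symm hne) hlast
          exact hitem.prop _ (hsub hb') _ (hsub hbi) (hit.adj b hb) hmem'
        · exact ih' v y hv' hy (fun p hp q hq => hvw p hp q (List.mem_cons_of_mem _ hq))
            (Ne.symm hlast) b hbi (h2 b hbi)
      · exact h2 b hbi _ hb' hmem'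
    · have hit := h.item i (by omega) S1 hB1
      have hb' : lab i S1 b ∈ W i := h.hub i (by omega) (hit.mem b hb)
      intro hmem
      have hmem' : lab l S (bapp lab w b) ∈ near l S (bapp lab z (lab i S1 b)) := hmem
      rcases h.sep i (by omega) l S h1 hS z w hz hw' with h2 | h2
      · by_cases hlast : z.getLast? = w.getLast?
        · obtain ⟨rfl, rfl⟩ := getLast_cons_ne hne hlast
          exact hitem.prop _ (hsub hbi) _ (hsub hb') (hit.adj b hb).symm hmem'
        · exact ih' z w hz hw' (fun p hp q hq => hvw p (List.mem_cons_of_mem _ hp) q hq)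
            hlast b hbi (h2 b hbi)
      · exact h2 _ hb' b hbi hmem'
    · have heq : ((i, S1) : ℕ × Finset ℕ) = (i, S2) := hvw _ (by simp) _ (by simp) rfl
      obtain ⟨-, rfl⟩ := Prod.mk.inj heq
      have hit := h.item i (by omega) S1 hB1
      have hb' : lab i S1 b ∈ W i := h.hub i (by omega) (hit.mem b hb)
      refine ih' z y hz hy (fun p hp q hq => hvw p (List.mem_cons_of_mem _ hp) q
        (List.mem_cons_of_mem _ hq)) (fun h2 => hne ?_) _ hb'
      rw [List.getLast?_cons, List.getLast?_cons, h2]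

end Rec

/-- Module `BKey`. -/
theorem stBKey : StBKey :=
  fun _ _ _ _ _ _ _ _ _ _ _ h i hi l S hl hS v w hv hw hvw hne b hb =>
    bkey h i hi l S hl hS v w hv hw hvw hne b hb

end Pool.Agent.Lib.FGF
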