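import Pool.Agent.Lib.FGF.BStmts
import Pool.Agent.Lib.GSR3.Base

/-!
# Fractional Gyarfas-Sumner for all forests: existence of labels and lists
-/

set_option autoImplicit false

namespace Pool.Agent.Lib.FGF

open Finset Classical
open Pool.Agent.Lib.FracGS (nb wnb pat)
open Pool.Agent.Lib.GSR3 (Stab Small)

theorem stBList (h1 : StBSamp) (h2 : StBProp) : StBList := by
  intro κ e K Ups H hκ he hK hU hH
  obtain ⟨L, c, hc, hS⟩ := h1 e K Ups H he hK hU hH
  have hpos : 0 < κ * 2 ^ (L + 1) := by positivity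
  refine ⟨L, c / (κ * 2 ^ (L + 1)), by positivity, ?_⟩
  intro V _ G ν ρ sig W' W I Good F Cf hν hρ hI hWW hm hsm hpw hG hGe hsig hCf
  obtain ⟨W2, lab, near, hW2, hmass, hlab, hnear, hconf⟩ :=
    hS V G ν ρ sig W' W I Good F hν hρ hI hWW hm hpw hG hGe hsig
  have hlab' : ∀ x ∈ W2, lab x ∈ nb G I x := fun x hx => hG x (hW2 hx) (hlab x hx)
  have hsub : ∀ y, nb G W2 y ⊆ nb G W y := by
    intro y
    exact filter_subset_filter _ hW2
  obtain ⟨W3, hW3, hmass3, hprop⟩ := h2 V G ν lab near L κ W2 I hν hκ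
    (fun y hy => (hsm y hy).mono_set (hsub y)) hlab' hnear
  refine ⟨W3, lab, near, hW3.trans hW2, ?_, ?_⟩
  · rw [div_mul_eq_mul_div, div_le_iff₀ hpos]
    calc c * ∑ x ∈ W, ν x ≤ ∑ x ∈ W2, ν x := hmass
      _ ≤ κ * 2 ^ (L + 1) * ∑ x ∈ W3, ν x := hmass3
      _ = (∑ x ∈ W3, ν x) * (κ * 2 ^ (L + 1)) := mul_comm _ _
  · refine ⟨fun x hx => ?_, fun x hx => ?_, fun x hx => hnear x (hW3 hx), hprop, ?_⟩
    · exact (mem_filter.1 (hlab' x (hW3 hx))).1
    · exact (mem_filter.1 (hlab' x (hW3 hx))).2.symm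
    · intro x hx t ht hadj hor
      refine hconf x (hW3 hx) t (hW3 ht) hadj ?_
      rcases hor with h | h
      · exact Or.inl h
      · exact Or.inr (hCf x (hW2 (hW3 hx)) (lab x) (hlab x (hW3 hx)) t (hW2 (hW3 ht)) hadj h)

end Pool.Agent.Lib.FGF
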