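import Pool.Agent.Lib.FGF.BStmts

/-!
# Fractional Gyarfas-Sumner for all forests: choice of large stages
-/

set_option autoImplicit false

namespace Pool.Agent.Lib.FGF

open Finset Classical
open Pool.Agent.Lib.FracGS (nb wnb pat)
open Pool.Agent.Lib.GSR3 (Stab Small)

namespace BPickAux

/-- the `q` largest elements of a finite set -/
theorem exists_top (P : Finset ℕ) : ∀ q ≤ P.card, ∃ Q ⊆ P, Q.card = q ∧
    ∀ c ∈ P \ Q, ∀ d ∈ Q, c < d := by
  intro q
  induction q with
  | zero =>
    intro _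
    exact ⟨∅, empty_subset _, card_empty, fun _ _ d hd => absurd hd (notMem_empty d)⟩
  | succ q ih =>
    intro hq
    obtain ⟨Q, hQ, hc, hlt⟩ := ih (by omega)
    have hne : (P \ Q).Nonempty := by
      rw [← card_pos, card_sdiff_of_subset hQ]
      omega
    set x := (P \ Q).max' hne with hx
    have hxm : x ∈ P \ Q := max'_mem _ _
    have hxP : x ∈ P := (mem_sdiff.1 hxm).1
    have hxQ : x ∉ Q := (mem_sdiff.1 hxm).2
    refine ⟨insert x Q, insert_subset hxP hQ, by rw [card_insert_of_notMem hxQ, hc], ?_⟩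
    intro c hcc d hd
    obtain ⟨hcP, hcQ⟩ := mem_sdiff.1 hcc
    rw [mem_insert, not_or] at hcQ
    have hc' : c ∈ P \ Q := mem_sdiff.2 ⟨hcP, hcQ.2⟩
    rcases mem_insert.1 hd with rfl | hd
    · exact lt_of_le_of_ne (le_max' _ _ hc') hcQ.1
    · exact hlt c hc' d hd

end BPickAux

open BPickAux in
theorem stBPick : StBPick := by
  intro ι _ m r P hP T
  obtain ⟨Q, hQ, hcard, hlt⟩ := exists_top P (m * 2 ^ Fintype.card ι + 1) (by omega)
  have hcT : (univ : Finset (ι → Prop)).card = 2 ^ Fintype.card ι := by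
    rw [card_univ, Fintype.card_fun]
    simp
  obtain ⟨y, -, hy⟩ := exists_lt_card_fiber_of_mul_lt_card_of_maps_to (s := Q)
    (t := (univ : Finset (ι → Prop))) (f := T) (n := m) (fun a _ => mem_univ _) (by
      rw [hcT, hcard, mul_comm]
      omega)
  set A := Q.filter (fun x => T x = y) with hA
  have hne : A.Nonempty := by
    rw [← card_pos]
    omega
  set s := A.max' hne with hs
  have hsA : s ∈ A := max'_mem _ _
  have hsQ : s ∈ Q := (mem_filter.1 hsA).1
  obtain ⟨S, hS, hSc⟩ := exists_subset_card_eq (s := A.erase s) (n := m) (by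
    rw [card_erase_of_mem hsA]
    omega)
  refine ⟨s, S, P \ Q, hQ hsQ, ?_, sdiff_subset, hSc, ?_, ?_, ?_, ?_⟩
  · intro c hc
    exact hQ (mem_filter.1 (mem_of_mem_erase (hS hc))).1
  · intro c hc
    have h1 := hS hc
    exact lt_of_le_of_ne (le_max' _ _ (mem_of_mem_erase h1)) (ne_of_mem_erase h1)
  · intro c hc
    exact hlt c hc s hsQ
  · rw [card_sdiff_of_subset hQ, hcard]
    omega
  · intro c hc j
    have h1 := (mem_filter.1 (mem_of_mem_erase (hS hc))).2
    have h2 := (mem_filter.1 hsA).2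
    rw [h1, h2]

end Pool.Agent.Lib.FGF
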