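import Pool.Agent.Lib.FGF.BStmts

/-!
# Fractional Gyarfas-Sumner for all forests: separation of all the words
-/

set_option autoImplicit false

namespace Pool.Agent.Lib.FGF

open Finset Classical
open Pool.Agent.Lib.FracGS (nb wnb pat)
open Pool.Agent.Lib.GSR3 (Stab Small)

namespace BSepAux

/-- All the words with stages smaller than `i`. -/
noncomputable def words : ℕ → Finset (List (ℕ × Finset ℕ))
  | 0 => {[]}
  | i + 1 => words i ∪ ((range i).powerset ×ˢ words i).image (fun z => (i, z.1) :: z.2)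

theorem mem_words (i : ℕ) : ∀ v : List (ℕ × Finset ℕ), v.Pairwise (fun a b => b.1 < a.1) →
    (∀ m ∈ v, m.1 < i ∧ m.2 ⊆ range m.1) → v ∈ words i := by
  induction i with
  | zero =>
    intro v _ h
    cases v with
    | nil => simp [words]
    | cons m z => exact absurd (h m (by simp)).1 (Nat.not_lt_zero _)
  | succ i ih =>
    intro v hp h
    rw [words, Finset.mem_union]
    cases v with
    | nil => exact Or.inl (ih [] List.Pairwise.nil (by simp))
    | cons m z =>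
      rw [List.pairwise_cons] at hp
      obtain ⟨h1, h2⟩ := h m (by simp)
      rcases Nat.lt_or_ge m.1 i with hm | hm
      · left
        refine ih _ (List.pairwise_cons.2 hp) fun k hk => ?_
        rcases List.mem_cons.1 hk with rfl | hk'
        · exact ⟨hm, h2⟩
        · exact ⟨(hp.1 k hk').trans hm, (h k hk).2⟩
      · right
        have hmi : m.1 = i := by omega
        rw [Finset.mem_image]
        refine ⟨(m.2, z), ?_, ?_⟩
        · rw [Finset.mem_product, Finset.mem_powerset]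
          refine ⟨hmi ▸ h2, ih _ hp.2 fun k hk => ⟨?_, (h k (List.mem_cons_of_mem _ hk)).2⟩⟩
          exact hmi ▸ hp.1 k hk
        · rw [← hmi]

/-- One pair. -/
theorem one (h : StBBits) (V : Type) [Fintype V] (ν : V → ℝ) (α : V → V) (β : V → Finset V)
    (L : ℕ) (W : Finset V) (hν : ∀ v, 0 ≤ ν v) (hc : ∀ a ∈ W, (β a).card ≤ L) :
    ∃ W', W' ⊆ W ∧ ∑ x ∈ W, ν x ≤ 2 ^ (L + 2) * ∑ x ∈ W', ν x ∧
      ((∀ a ∈ W', α a ∈ β a) ∨ (∀ a ∈ W', ∀ b ∈ W', α b ∉ β a)) := by
  have hsplit := Finset.sum_filter_add_sum_filter_not W (fun a => α a ∈ β a) ν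
  rcases le_total (∑ x ∈ W with ¬ α x ∈ β x, ν x) (∑ x ∈ W with α x ∈ β x, ν x) with h1 | h1
  · refine ⟨W.filter (fun a => α a ∈ β a), Finset.filter_subset _ _, ?_, Or.inl ?_⟩
    · have h2 : 0 ≤ ∑ x ∈ W with α x ∈ β x, ν x := Finset.sum_nonneg fun x _ => hν x
      have h3 : (2 : ℝ) ≤ 2 ^ (L + 2) := by
        have h4 : (1 : ℝ) ≤ 2 ^ L := one_le_pow₀ (by norm_num)
        rw [pow_add]
        linarith
      nlinarith
    · intro a ha
      exact (Finset.mem_filter.1 ha).2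
  · obtain ⟨W', hW', hm, hs⟩ := h V ν α β L (W.filter (fun a => ¬ α a ∈ β a)) hν
      (fun a ha => hc a (Finset.mem_filter.1 ha).1) (fun a ha => (Finset.mem_filter.1 ha).2)
    refine ⟨W', hW'.trans (Finset.filter_subset _ _), ?_, Or.inr hs⟩
    have h2 : (2 : ℝ) ^ (L + 2) = 2 * 2 ^ (L + 1) := by ring
    rw [h2]
    linarith

/-- Finitely many pairs. -/
theorem many (h : StBBits) {ι : Type} (D : Finset ι) (V : Type) [Fintype V] (ν : V → ℝ)
    (α : ι → V → V) (β : ι → V → Finset V) (L : ℕ) (hν : ∀ v, 0 ≤ ν v) :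
    ∀ W : Finset V, (∀ j ∈ D, ∀ a ∈ W, (β j a).card ≤ L) →
    ∃ W', W' ⊆ W ∧ ∑ x ∈ W, ν x ≤ (2 ^ (L + 2)) ^ D.card * ∑ x ∈ W', ν x ∧
      ∀ j ∈ D, ((∀ a ∈ W', α j a ∈ β j a) ∨ (∀ a ∈ W', ∀ b ∈ W', α j b ∉ β j a)) := by
  induction D using Finset.induction_on with
  | empty => intro W _; exact ⟨W, Finset.Subset.refl _, by simp, by simp⟩
  | insert j D hj ih =>
    intro W hc
    obtain ⟨W1, hW1, hm1, hs1⟩ := ih W fun k hk a ha => hc k (Finset.mem_insert_of_mem hk) a ha
    obtain ⟨W2, hW2, hm2, hs2⟩ := one h V ν (α j) (β j) L W1 hν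
      fun a ha => hc j (Finset.mem_insert_self _ _) a (hW1 ha)
    refine ⟨W2, hW2.trans hW1, ?_, ?_⟩
    · rw [Finset.card_insert_of_notMem hj, pow_succ, mul_assoc]
      exact hm1.trans (mul_le_mul_of_nonneg_left hm2 (by positivity))
    · intro k hk
      rcases Finset.mem_insert.1 hk with rfl | hk
      · exact hs2
      · rcases hs1 k hk with h3 | h3
        · exact Or.inl fun a ha => h3 a (hW2 ha)
        · exact Or.inr fun a ha b hb => h3 a (hW2 ha) b (hW2 hb)

end BSepAux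

open BSepAux in
/-- Module `BSepM`. -/
theorem stBSep (h : StBBits) : StBSep := by
  intro i L
  obtain ⟨D, hD⟩ : ∃ D : Finset ((ℕ × Finset ℕ) × (List (ℕ × Finset ℕ) × List (ℕ × Finset ℕ))),
      D = (range i ×ˢ (range i).powerset) ×ˢ (words i ×ˢ words i) := ⟨_, rfl⟩
  refine ⟨1 / (2 ^ (L + 2)) ^ D.card, by positivity, ?_⟩
  intro V _ ν B lab near W hν hB hc
  obtain ⟨D', hD'⟩ : ∃ D' : Finset ((ℕ × Finset ℕ) × (List (ℕ × Finset ℕ) ×
      List (ℕ × Finset ℕ))), D' = D.filter (fun j => j.1.1 < i ∧ B j.1.1 j.1.2 ∧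
        BWord B j.1.1 i j.2.1) := ⟨_, rfl⟩
  obtain ⟨W', hW', hm, hs⟩ := many h D' V ν
    (fun j a => lab j.1.1 j.1.2 (bapp lab j.2.2 a))
    (fun j a => near j.1.1 j.1.2 (bapp lab j.2.1 a)) L hν W (by
      intro j hj a ha
      rw [hD', Finset.mem_filter] at hj
      exact hc _ _ hj.2.1 hj.2.2.1 _ hj.2.2.2 a ha)
  refine ⟨W', hW', ?_, ?_⟩
  · have h1 : 0 ≤ ∑ x ∈ W', ν x := Finset.sum_nonneg fun x _ => hν x
    have h2 : ((2 : ℝ) ^ (L + 2)) ^ D'.card ≤ (2 ^ (L + 2)) ^ D.card := by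
      refine pow_le_pow_right₀ (one_le_pow₀ (by norm_num)) ?_
      rw [hD']
      exact Finset.card_filter_le _ _
    rw [one_div, inv_mul_le_iff₀ (by positivity)]
    exact hm.trans (mul_le_mul_of_nonneg_right h2 h1)
  · intro l S hl hBl v w hv hw
    have hmem : ∀ u, BWord B l i u → u ∈ words i := by
      intro u hu
      exact mem_words i u hu.1 fun m hm => ⟨(hu.2 m hm).2.1, hB _ _ (hu.2 m hm).2.2⟩
    have hj : ((l, S), (v, w)) ∈ D' := by
      rw [hD', Finset.mem_filter, hD]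
      refine ⟨?_, hl, hBl, hv⟩
      rw [Finset.mem_product, Finset.mem_product, Finset.mem_product, Finset.mem_range,
        Finset.mem_powerset]
      refine ⟨⟨hl, (hB _ _ hBl).trans ?_⟩, hmem v hv, hmem w hw⟩
      intro x hx
      rw [Finset.mem_range] at hx ⊢
      exact hx.trans hl
    exact hs _ hj

end Pool.Agent.Lib.FGF
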