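import Pool.Agent.Lib.FGF.BStmts

/-!
# Fractional Gyarfas-Sumner for all forests: a pool of type B contains every tree
-/

set_option autoImplicit false

namespace Pool.Agent.Lib.FGF

open Finset Classical
open Pool.Agent.Lib.FracGS (nb wnb pat)
open Pool.Agent.Lib.GSR3 (Stab Small)

namespace BTree

lemma bapp_append {V : Type} (lab : ℕ → Finset ℕ → V → V) (v w : List (ℕ × Finset ℕ)) (b : V) :
    bapp lab (v ++ w) b = bapp lab w (bapp lab v b) := by
  induction v generalizing b with
  | nil => rfl
  | cons m z ih => exact ih (lab m.1 m.2 b)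

/-- The words of the nodes. -/
def nw (par : ℕ → ℕ) (le : ℕ → ℕ × Finset ℕ) (j : ℕ) : List (ℕ × Finset ℕ) :=
  if _h : par j < j then nw par le (par j) ++ [le j] else []
termination_by j

lemma nw_zero (par : ℕ → ℕ) (le : ℕ → ℕ × Finset ℕ) : nw par le 0 = [] := by
  rw [nw, dif_neg (Nat.not_lt_zero _)]

lemma nw_pos {par : ℕ → ℕ} (le : ℕ → ℕ × Finset ℕ) {j : ℕ} (h : par j < j) :
    nw par le j = nw par le (par j) ++ [le j] := by
  rw [nw, dif_pos h]

lemma nw_congr {par : ℕ → ℕ} (hpar : ∀ j, 1 ≤ j → par j < j) {le le' : ℕ → ℕ × Finset ℕ} :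
    ∀ j, (∀ i, 1 ≤ i → i ≤ j → le i = le' i) → nw par le j = nw par le' j := by
  intro j
  induction j using Nat.strong_induction_on with
  | _ j ih =>
    intro h
    rcases Nat.eq_zero_or_pos j with h0 | h0
    · subst h0
      rw [nw_zero, nw_zero]
    · have h1 := hpar j h0
      rw [nw_pos le h1, nw_pos le' h1, ih (par j) h1 (fun i hi hi2 => h i hi (by omega)),
        h j h0 le_rfl]

lemma mem_nw {par : ℕ → ℕ} (hpar : ∀ j, 1 ≤ j → par j < j) {le : ℕ → ℕ × Finset ℕ} :
    ∀ j, ∀ m ∈ nw par le j, ∃ i, 1 ≤ i ∧ i ≤ j ∧ m = le i := by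
  intro j
  induction j using Nat.strong_induction_on with
  | _ j ih =>
    intro m hm
    rcases Nat.eq_zero_or_pos j with h0 | h0
    · subst h0
      rw [nw_zero] at hm
      simp at hm
    · have h1 := hpar j h0
      rw [nw_pos le h1] at hm
      rcases List.mem_append.mp hm with h2 | h2
      · obtain ⟨i, hi, hi2, hi3⟩ := ih (par j) h1 m h2
        exact ⟨i, hi, by omega, hi3⟩
      · rw [List.mem_singleton] at h2
        exact ⟨j, h0, le_rfl, h2⟩

lemma nw_word {par : ℕ → ℕ} (hpar : ∀ j, 1 ≤ j → par j < j) {le : ℕ → ℕ × Finset ℕ}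
    {B : ℕ → Finset ℕ → Prop} {l N k : ℕ} (hl : ∀ i, 1 ≤ i → i ≤ k → l < (le i).1)
    (hN : ∀ i, 1 ≤ i → i ≤ k → (le i).1 < N) (hB : ∀ i, 1 ≤ i → i ≤ k → B (le i).1 (le i).2)
    (hd : ∀ i j, 1 ≤ i → i < j → j ≤ k → (le j).1 < (le i).1) :
    ∀ j ≤ k, BWord B l N (nw par le j) := by
  intro j
  induction j using Nat.strong_induction_on with
  | _ j ih =>
    intro hj
    refine ⟨?_, ?_⟩
    · rcases Nat.eq_zero_or_pos j with h0 | h0
      · subst h0
        rw [nw_zero]
        exact List.Pairwise.nil
      · have h1 := hpar j h0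
        rw [nw_pos le h1, List.pairwise_append]
        refine ⟨(ih (par j) h1 (by omega)).1, List.pairwise_singleton _ _, ?_⟩
        intro a ha c hc
        rw [List.mem_singleton] at hc
        obtain ⟨i, hi, hi2, hi3⟩ := mem_nw hpar (par j) a ha
        rw [hc, hi3]
        exact hd i j hi (by omega) hj
    · intro m hm
      obtain ⟨i, hi, hi2, hi3⟩ := mem_nw hpar j m hm
      rw [hi3]
      exact ⟨hl i hi (by omega), hN i hi (by omega), hB i hi (by omega)⟩

lemma nw_last {par : ℕ → ℕ} (hpar : ∀ j, 1 ≤ j → par j < j) {le : ℕ → ℕ × Finset ℕ} {k : ℕ}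
    (hd : ∀ i j, 1 ≤ i → i < j → j ≤ k → (le j).1 < (le i).1) {i j : ℕ} (hi : i ≤ k) (hj : j ≤ k)
    (h : (nw par le i).getLast? = (nw par le j).getLast?) : i = j := by
  rcases Nat.eq_zero_or_pos i with h0 | h0 <;> rcases Nat.eq_zero_or_pos j with h1 | h1
  · omega
  · rw [h0, nw_zero, nw_pos le (hpar j h1)] at h
    simp at h
  · rw [h1, nw_zero, nw_pos le (hpar i h0)] at h
    simp at h
  · rw [nw_pos le (hpar i h0), nw_pos le (hpar j h1)] at h
    simp only [List.getLast?_append, List.getLast?_singleton, Option.some_or,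
      Option.some.injEq] at h
    rcases Nat.lt_trichotomy i j with h2 | h2 | h2
    · have := hd i j h0 h2 hj
      rw [h] at this
      omega
    · exact h2
    · have := hd j i h1 h2 hi
      rw [h] at this
      omega

variable {V : Type} {G : SimpleGraph V} {W I : ℕ → Finset V} {a : ℕ → V → ℝ} {Ups : ℝ}
  {L : ℕ → ℕ} {B : ℕ → Finset ℕ → Prop} {lab : ℕ → Finset ℕ → V → V}
  {near : ℕ → Finset ℕ → V → Finset V} {N : ℕ}

lemma anti (h : BRec G W I a Ups L B lab near N) {i j : ℕ} (hij : i ≤ j) (hj : j ≤ N) :
    W j ⊆ W i := by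
  induction j, hij using Nat.le_induction with
  | base => exact Subset.refl _
  | succ j hij ih => exact (h.anti j (by omega)).trans (ih (by omega))

lemma bapp_mem (h : BRec G W I a Ups L B lab near N) : ∀ (v : List (ℕ × Finset ℕ)) (l i : ℕ),
    l < i → i ≤ N → BWord B l i v → ∀ b ∈ W i, bapp lab v b ∈ W (l + 1) := by
  intro v
  induction v with
  | nil =>
    intro l i hl hi _ b hb
    exact anti h (by omega) hi hb
  | cons m z ih =>
    intro l i hl hi hw b hb
    obtain ⟨h1, h2⟩ := hw
    rw [List.pairwise_cons] at h1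
    obtain ⟨h3, h4, h5⟩ := h2 m (by simp)
    refine ih l m.1 h3 (by omega) ⟨h1.2, ?_⟩ _ ?_
    · intro p hp
      obtain ⟨h6, _, h8⟩ := h2 p (List.mem_cons_of_mem _ hp)
      exact ⟨h6, h1.1 p hp, h8⟩
    · exact h.hub m.1 (by omega) ((h.item m.1 (by omega) m.2 h5).mem b (anti h (by omega) hi hb))

end BTree

open BTree in
theorem stBTree (hKey : StBKey) (hPick : StBPick) : StBTree := by
  intro m n par hpar
  set q : ℕ := m * 2 ^ Fintype.card (Fin (n + 1) × Fin (n + 1)) + 1 with hq
  refine ⟨n * q, ?_⟩
  intro V G W I a Ups L B lab near N P hR hne hP hcard hall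
  obtain ⟨b, hb⟩ := hne
  have key : ∀ k ≤ n, ∃ (le : ℕ → ℕ × Finset ℕ) (R : Finset ℕ), R ⊆ P ∧ (n - k) * q ≤ R.card ∧
      (∀ i, 1 ≤ i → i ≤ k → (le i).1 < N) ∧ (∀ i, 1 ≤ i → i ≤ k → B (le i).1 (le i).2) ∧
      (∀ i j, 1 ≤ i → i < j → j ≤ k → (le j).1 < (le i).1) ∧
      (∀ i, 1 ≤ i → i ≤ k → ∀ c ∈ R, c < (le i).1) ∧
      ∀ i j, i < j → j ≤ k → bapp lab (nw par le j) b ≠ bapp lab (nw par le i) b ∧
        (G.Adj (bapp lab (nw par le j) b) (bapp lab (nw par le i) b) ↔ par j = i) := by
    intro k
    induction k with
    | zero =>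
      intro _
      refine ⟨fun _ => (0, ∅), P, Subset.refl _, by simpa using hcard, ?_, ?_, ?_, ?_, ?_⟩
      · intro i hi hi2
        omega
      · intro i hi hi2
        omega
      · intro i j hi hi2 hj
        omega
      · intro i hi hi2
        omega
      · intro i j hij hj
        omega
    | succ k ih =>
      intro hk
      obtain ⟨le, R, hRP, hRc, hN, hB, hd, hlt, hemb⟩ := ih (by omega)
      set X : ℕ → V := fun j => bapp lab (nw par le j) b with hX
      obtain ⟨s, S, R', hsR, hSR, hR'R, hSc, hSs, hR's, hR'c, hT⟩ :=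
        hPick (Fin (n + 1) × Fin (n + 1)) m ((n - (k + 1)) * q) R (by
          rw [← hq]
          have : (n - k) * q = q + (n - (k + 1)) * q := by
            rw [show n - k = (n - (k + 1)) + 1 by omega]
            ring
          omega) (fun c p => Ups * a c (X p.2.1) ≤ a c (X p.1.1))
      have hBs : B s S := hall s (hRP hsR) S (hSR.trans hRP) hSc hSs
      have hsN : s < N := by
        have := hP (hRP hsR)
        simpa using this
      have hp0 : par (k + 1) < k + 1 := hpar (k + 1) (by omega)
      set le' : ℕ → ℕ × Finset ℕ := Function.update le (k + 1) (s, S) with hle'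
      have hold : ∀ i, i ≤ k → le' i = le i := by
        intro i hi
        rw [hle', Function.update_of_ne (by omega)]
      have hnew : le' (k + 1) = (s, S) := by
        rw [hle', Function.update_self]
      have hnw : ∀ j ≤ k, nw par le' j = nw par le j := by
        intro j hj
        exact nw_congr hpar j (fun i _ hi2 => hold i (by omega))
      have hword : ∀ j ≤ k, BWord B s N (nw par le j) :=
        nw_word hpar (fun i hi hi2 => hlt i hi hi2 s hsR) hN hB hd
      have hXW : ∀ j ≤ k, X j ∈ W (s + 1) := by
        intro j hj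
        exact bapp_mem hR _ s N hsN le_rfl (hword j hj) b hb
      have hit := hR.item s hsN S hBs
      have hXn : bapp lab (nw par le' (k + 1)) b = lab s S (X (par (k + 1))) := by
        rw [nw_pos le' hp0, bapp_append, hnw _ (by omega), hnew]
        rfl
      refine ⟨le', R', hR'R.trans hRP, hR'c, ?_, ?_, ?_, ?_, ?_⟩
      · intro i hi hi2
        rcases Nat.lt_or_ge k i with h1 | h1
        · obtain rfl : i = k + 1 := by omega
          rw [hnew]
          exact hsN
        · rw [hold i h1]
          exact hN i hi h1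
      · intro i hi hi2
        rcases Nat.lt_or_ge k i with h1 | h1
        · obtain rfl : i = k + 1 := by omega
          rw [hnew]
          exact hBs
        · rw [hold i h1]
          exact hB i hi h1
      · intro i j hi hij hj
        rcases Nat.lt_or_ge k j with h1 | h1
        · obtain rfl : j = k + 1 := by omega
          rw [hnew, hold i (by omega)]
          exact hlt i hi (by omega) s hsR
        · rw [hold i (by omega), hold j h1]
          exact hd i j hi hij h1
      · intro i hi hi2 c hc
        rcases Nat.lt_or_ge k i with h1 | h1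
        · obtain rfl : i = k + 1 := by omega
          rw [hnew]
          exact hR's c hc
        · rw [hold i h1]
          exact hlt i hi h1 c (hR'R hc)
      · intro i j hij hj
        rcases Nat.lt_or_ge k j with h1 | h1
        · obtain rfl : j = k + 1 := by omega
          rw [hXn, hnw i (by omega)]
          have hXi := hXW i (by omega)
          have hXp := hXW (par (k + 1)) (by omega)
          refine ⟨?_, ?_, ?_⟩
          · intro h2
            have h3 := hit.mem _ hXp
            rw [h2] at h3
            exact (Finset.disjoint_left.mp (hR.out s hsN)) h3 hXi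
          · intro hadj
            by_contra hne
            have hc := hit.conf _ hXp _ hXi hadj.symm (by
              by_cases h2 : Ups * a s (X (par (k + 1))) ≤ a s (X i)
              · right
                intro c hc
                exact (hT c hc (⟨i, by omega⟩, ⟨par (k + 1), by omega⟩)).mpr h2
              · left
                exact lt_of_not_ge h2)
            refine hKey V G W I a Ups L B lab near N hR N le_rfl s S hsN hBs (nw par le i)
              (nw par le (par (k + 1))) (hword i (by omega)) (hword _ (by omega)) ?_ ?_ b hb hc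
            · intro p hp p' hp' hpp
              obtain ⟨i1, h3, h4, h5⟩ := mem_nw hpar _ p hp
              obtain ⟨i2, h6, h7, h8⟩ := mem_nw hpar _ p' hp'
              have h9 : i1 = i2 := by
                rw [h5, h8] at hpp
                rcases Nat.lt_trichotomy i1 i2 with h10 | h10 | h10
                · have := hd i1 i2 h3 h10 (by omega)
                  omega
                · exact h10
                · have := hd i2 i1 h6 h10 (by omega)
                  omega
              rw [h5, h8, h9]
            · intro h3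
              exact hne (nw_last hpar hd (by omega) (by omega) h3).symm
          · intro hpe
            rw [hpe]
            exact hit.adj _ hXi
        · rw [hnw i (by omega), hnw j h1]
          exact hemb i j hij h1
  obtain ⟨le, R, -, -, -, -, -, -, hemb⟩ := key n le_rfl
  refine ⟨⟨⟨fun j => bapp lab (nw par le j.1) b, ?_⟩, ?_⟩⟩
  · intro i j hij
    simp only at hij
    rcases Nat.lt_trichotomy i.1 j.1 with h1 | h1 | h1
    · exact absurd hij.symm (hemb _ _ h1 (by omega)).1
    · exact Fin.ext h1
    · exact absurd hij (hemb _ _ h1 (by omega)).1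
  · intro i j
    change G.Adj (bapp lab (nw par le i.1) b) (bapp lab (nw par le j.1) b) ↔
      (i.1 < j.1 ∧ par j.1 = i.1) ∨ (j.1 < i.1 ∧ par i.1 = j.1)
    rcases Nat.lt_trichotomy i.1 j.1 with h1 | h1 | h1
    · rw [G.adj_comm, (hemb _ _ h1 (by omega)).2]
      constructor
      · intro h2
        exact Or.inl ⟨h1, h2⟩
      · rintro (h2 | h2)
        · exact h2.2
        · omega
    · rw [show i = j from Fin.ext h1]
      constructor
      · intro h2
        exact absurd h2 (G.loopless.irrefl _)
      · rintro (h2 | h2)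
        · omega
        · omega
    · rw [(hemb _ _ h1 (by omega)).2]
      constructor
      · intro h2
        exact Or.inr ⟨h1, h2⟩
      · rintro (h2 | h2)
        · omega
        · exact h2.2

end Pool.Agent.Lib.FGF
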