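import Pool.Agent.Lib.FGF.BSamp
import Pool.Agent.Lib.FGF.BBits
import Pool.Agent.Lib.FGF.BList
import Pool.Agent.Lib.FGF.BPick
import Pool.Agent.Lib.FGF.BSepM
import Pool.Agent.Lib.FGF.BKey
import Pool.Agent.Lib.FGF.BTree
import Pool.Agent.Lib.FGF.BItemBr
import Pool.Agent.Lib.FGF.SepM
import Pool.Agent.Lib.FGF.BCaseBr

/-!
# The fractional Gyarfas-Sumner conjecture: the type B block is complete
-/

set_option autoImplicit false

namespace Pool.Agent.Lib.FGF

theorem stBItemAll : StBItem := stBItem (stBList stBSamp stBProp)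

theorem stSepMAll : StSepM := stSepM (stBSep stBBits)

theorem stBCaseAll : StBCase := stBCase (stBTree stBKey stBPick)

end Pool.Agent.Lib.FGF
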