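import Pool.Agent.Lib.GSR5.Defs

/-!
# Fractional Gyarfas-Sumner for all forests: labels and lists (type B), definitions

A letter is a pair `(s, S)`: a stage `s` and a set `S` of smaller stages.  For an item `(s, S)` of
type B every vertex `x` of the world has a label `lab s S x`, a hub of stage `s` adjacent to `x`,
and a short list `near s S x` of hubs.
-/

set_option autoImplicit false

namespace Pool.Agent.Lib.FGF

open Finset Classical
open Pool.Agent.Lib.FracGS (nb wnb pat)
open Pool.Agent.Lib.GSR3 (Stab Small)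

/-- Apply a word to `b`: the head of the list is applied first, the letter `(s, S)` acts as
`lab s S`. -/
def bapp {V : Type} (lab : ℕ → Finset ℕ → V → V) : List (ℕ × Finset ℕ) → V → V
  | [], b => b
  | m :: z, b => bapp lab z (lab m.1 m.2 b)

/-- Words: the letters `(s, S)` satisfy `B s S`, the stages are strictly decreasing and lie
strictly between `l` and `i`. -/
def BWord (B : ℕ → Finset ℕ → Prop) (l i : ℕ) (v : List (ℕ × Finset ℕ)) : Prop :=
  v.Pairwise (fun a b => b.1 < a.1) ∧ ∀ m ∈ v, l < m.1 ∧ m.1 < i ∧ B m.1 m.2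

/-- Labels and lists on the world `W` with hubs in `I` (one item of type B).  `Cf x t` is the
second way in which `t` may be close to the label of `x`. -/
structure BItem {V : Type} (G : SimpleGraph V) (W I : Finset V) (a : V → ℝ) (Ups : ℝ)
    (Cf : V → V → Prop) (L : ℕ) (lab : V → V) (near : V → Finset V) : Prop where
  mem : ∀ x ∈ W, lab x ∈ I
  adj : ∀ x ∈ W, G.Adj (lab x) x
  card : ∀ x ∈ W, (near x).card ≤ L
  prop : ∀ x ∈ W, ∀ t ∈ W, G.Adj x t → lab x ∉ near t
  conf : ∀ x ∈ W, ∀ t ∈ W, G.Adj t (lab x) → (a t < Ups * a x ∨ Cf x t) → lab x ∈ near t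

/-- The words are separated on `W` (the world before stage `i`). -/
def BSep {V : Type} (B : ℕ → Finset ℕ → Prop) (lab : ℕ → Finset ℕ → V → V)
    (near : ℕ → Finset ℕ → V → Finset V) (i : ℕ) (W : Finset V) : Prop :=
  ∀ l S, l < i → B l S → ∀ v w, BWord B l i v → BWord B l i w →
    (∀ a ∈ W, lab l S (bapp lab w a) ∈ near l S (bapp lab v a)) ∨
      (∀ a ∈ W, ∀ b ∈ W, lab l S (bapp lab w b) ∉ near l S (bapp lab v a))

/-- The record of the items of type B of the stages `0, ..., n - 1`: `B s S` says that the item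
`(s, S)` has type B. -/
structure BRec {V : Type} (G : SimpleGraph V) (W I : ℕ → Finset V) (a : ℕ → V → ℝ) (Ups : ℝ)
    (L : ℕ → ℕ) (B : ℕ → Finset ℕ → Prop) (lab : ℕ → Finset ℕ → V → V)
    (near : ℕ → Finset ℕ → V → Finset V) (n : ℕ) : Prop where
  anti : ∀ i < n, W (i + 1) ⊆ W i
  hub : ∀ i < n, I i ⊆ W i
  out : ∀ i < n, Disjoint (I i) (W (i + 1))
  sub : ∀ s S, B s S → S ⊆ range s
  item : ∀ s < n, ∀ S, B s S → BItem G (W (s + 1)) (I s) (a s) Ups
    (fun x t => ∀ c ∈ S, Ups * a c x ≤ a c t) (L s) (lab s S) (near s S)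
  sep : ∀ i ≤ n, BSep B lab near i (W i)

end Pool.Agent.Lib.FGF
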