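import Pool.Agent.Lib.FGF.Stmts

/-!
# The fractional Gyarfas-Sumner conjecture: a new stage
-/

set_option autoImplicit false

namespace Pool.Agent.Lib.FGF

namespace BMoveX

open Finset Classical
open Pool.Agent.Lib.FracGS (nb wnb TAdj pat)
open Pool.Agent.Lib.GSR3 (Stab Small Tree)
open Pool.Agent.Lib.GSR5 (NLC)

variable {V : Type} [Fintype V]

omit [Fintype V] in
theorem ms_nonneg {ν : V → ℝ} (h : ∀ v, 0 ≤ ν v) (A : Finset V) : 0 ≤ ms ν A :=
  Finset.sum_nonneg fun v _ => h v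

omit [Fintype V] in
theorem ms_mono {ν : V → ℝ} (h : ∀ v, 0 ≤ ν v) {A B : Finset V} (hAB : A ⊆ B) :
    ms ν A ≤ ms ν B :=
  Finset.sum_le_sum_of_subset_of_nonneg hAB fun v _ _ => h v

theorem nm_nonneg {r : V → ℝ} (h : ∀ v, 0 ≤ r v) (G : SimpleGraph V) (x : V) :
    0 ≤ nm G r x :=
  Finset.sum_nonneg fun v _ => h v

theorem nm_mono {r r' : V → ℝ} (h : ∀ v, r v ≤ r' v) (G : SimpleGraph V) (x : V) :
    nm G r x ≤ nm G r' x :=
  Finset.sum_le_sum fun v _ => h v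

theorem zt_mono {ν r : V → ℝ} (hν : ∀ v, 0 ≤ ν v) (hr : ∀ v, 0 ≤ r v) {A B : Finset V}
    (hAB : A ⊆ B) (G : SimpleGraph V) (x : V) : zt G ν r A x ≤ zt G ν r B x := by
  unfold zt
  by_cases hA : x ∈ A
  · rw [if_pos hA, if_pos (hAB hA)]
  · rw [if_neg hA]
    split_ifs
    · exact div_nonneg (hν x) (nm_nonneg hr G x)
    · exact le_rfl

theorem cm_sum (G : SimpleGraph V) (W : Finset V) (ν : V → ℝ) (l : V → V → ℝ) (x : V) :
    cm G (fun v => ∑ t ∈ W, ν t * l t v) x = ∑ t ∈ W, ν t * cm G (l t) x := by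
  unfold cm nm wnb
  rw [Finset.sum_comm]
  simp only [← Finset.mul_sum, ← Finset.sum_add_distrib, ← mul_add]

theorem cm_nonneg {r : V → ℝ} (h : ∀ v, 0 ≤ r v) (G : SimpleGraph V) (x : V) :
    0 ≤ cm G r x := add_nonneg (h x) (nm_nonneg h G x)

/-! ### Data which agree up to the world `n` -/

/-- The data agree up to the world `n`. -/
structure Agr (n : ℕ) (σ σ' : Dat V) : Prop where
  ρ : ∀ c < n, σ'.ρ c = σ.ρ c
  W : ∀ s ≤ n, σ'.W s = σ.W s
  isB : σ'.isB = σ.isB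
  lab : σ'.lab = σ.lab
  near : σ'.near = σ.near

section agr

variable {n : ℕ} {σ σ' : Dat V} {P : Par} {G : SimpleGraph V} {ν : V → ℝ}

theorem sc_eq (h : Agr n σ σ') {c : ℕ} (hc : c < n) : sc G σ' c = sc G σ c := by
  funext x
  unfold sc
  rw [h.ρ c hc]

theorem big_eq (h : Agr n σ σ') {S : Finset ℕ} (hS : ∀ c ∈ S, c < n) {s : ℕ} (hs : s < n)
    (x : V) : big P G σ' S s x = big P G σ S s x := by
  unfold big
  rw [h.ρ s hs]
  refine Finset.sum_congr ?_ (fun _ _ => rfl)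
  apply Finset.filter_congr
  intro y _
  refine and_congr_right fun _ => forall₂_congr fun c hc => ?_
  rw [sc_eq h (hS c hc)]

theorem plus2 (h : Agr n σ σ') {c s : ℕ} (hc : c < n) (hs : s < n)
    (hp : Plus2 P G σ c s) : Plus2 P G σ' c s := by
  intro x hx
  rw [h.W (s + 1) hs] at hx
  rw [big_eq h (by simpa using hc) hs, sc_eq h hs]
  exact hp x hx

theorem minus2 (h : Agr n σ σ') {c s : ℕ} (hc : c < n) (hs : s < n)
    (hp : Minus2 P G σ c s) : Minus2 P G σ' c s := by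
  intro x hx
  rw [h.W (s + 1) hs] at hx
  rw [big_eq h (by simpa using hc) hs, sc_eq h hs]
  exact hp x hx

theorem plusS (h : Agr n σ σ') {S : Finset ℕ} {s : ℕ} (hS : ∀ c ∈ S, c < n) (hs : s < n)
    (hp : PlusS P G σ S s) : PlusS P G σ' S s := by
  intro x hx
  rw [h.W (s + 1) hs] at hx
  rw [big_eq h hS hs, sc_eq h hs]
  exact hp x hx

theorem minusS (h : Agr n σ σ') {S : Finset ℕ} {s : ℕ} (hS : ∀ c ∈ S, c < n) (hs : s < n)
    (hp : MinusS P G σ S s) : MinusS P G σ' S s := by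
  intro x hx
  rw [h.W (s + 1) hs] at hx
  rw [big_eq h hS hs, sc_eq h hs]
  exact hp x hx

theorem ms_congr {M j : ℕ} {B : ℝ} {W : Finset V} {a a' : ℕ → V → ℝ} {C : Finset ℕ}
    {m : V → V → ℝ} (h : ∀ c ∈ C, a' c = a c) (hm : MS G M j B W a C m) :
    MS G M j B W a' C m := by
  refine ⟨hm.nn, hm.dom, fun v hv x hx => ?_⟩
  have e : ∑ c ∈ C, a' c x / a' c v = ∑ c ∈ C, a c x / a c v :=
    Finset.sum_congr rfl (fun c hc => by rw [h c hc])
  rw [e]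
  exact hm.bd v hv x hx

theorem hasMS_congr {M j : ℕ} {B : ℝ} {W : Finset V} {a a' : ℕ → V → ℝ} {C : Finset ℕ}
    (h : ∀ c ∈ C, a' c = a c) (hm : HasMS G M j B W a C) : HasMS G M j B W a' C := by
  obtain ⟨m, hm⟩ := hm
  exact ⟨m, ms_congr h hm⟩

theorem typeP (h : Agr n σ σ') {S : Finset ℕ} {s : ℕ} (hS : ∀ c ∈ S, c < n) (hs : s < n)
    (hp : TypeP P G σ S s) : TypeP P G σ' S s := by
  intro C hC
  have hsc : ∀ c ∈ C, sc G σ' c = sc G σ c := fun c hc => sc_eq h (hS c (hC hc))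
  have hsc' : ∀ c ∈ insert s C, sc G σ' c = sc G σ c := by
    intro c hc
    rcases Finset.mem_insert.1 hc with rfl | hc
    · exact sc_eq h hs
    · exact hsc c hc
  obtain ⟨h1, h2⟩ := hp C hC
  rw [h.W s hs.le, h.W (s + 1) hs]
  refine ⟨fun j hj hj' hm => ?_, fun hm => h2 (hasMS_congr (fun c hc => (hsc c hc).symm) hm)⟩
  exact hasMS_congr hsc' (h1 j hj hj' (hasMS_congr (fun c hc => (hsc c hc).symm) hm))

theorem typeA (h : Agr n σ σ') {S : Finset ℕ} {s : ℕ} (hS : ∀ c ∈ S, c < n) (hs : s < n)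
    (hp : TypeA P G σ S s) : TypeA P G σ' S s := by
  intro C hC
  have hsc : ∀ c ∈ C, sc G σ' c = sc G σ c := fun c hc => sc_eq h (hS c (hC hc))
  have hsc' : ∀ c ∈ insert s C, sc G σ' c = sc G σ c := by
    intro c hc
    rcases Finset.mem_insert.1 hc with rfl | hc
    · exact sc_eq h hs
    · exact hsc c hc
  obtain ⟨h1, h2⟩ := hp C hC
  rw [h.W s hs.le, h.W (s + 1) hs]
  refine ⟨fun j hj hj' hm => ?_, fun hm => h2 (hasMS_congr (fun c hc => (hsc c hc).symm) hm)⟩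
  exact hasMS_congr hsc' (h1 j hj hj' (hasMS_congr (fun c hc => (hsc c hc).symm) hm))

theorem lk_eq (h : Agr n σ σ') {S : Finset ℕ} (hS : ∀ c ∈ S, c < n) {s : ℕ} (hs : s < n)
    (W' : Finset V) : lk G ν (σ'.ρ s) σ'.ρ S W' = lk G ν (σ.ρ s) σ.ρ S W' := by
  unfold lk
  rw [h.ρ s hs]
  refine Finset.sum_congr rfl fun y _ => ?_
  congr 1
  refine Finset.sum_congr rfl fun x _ => Finset.sum_congr rfl fun x' _ => ?_
  congr 1
  exact Finset.prod_congr rfl fun c hc => by rw [h.ρ c (hS c hc)]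

theorem typeU (h : Agr n σ σ') {S : Finset ℕ} {s : ℕ} (hS : ∀ c ∈ S, c < n) (hs : s < n)
    {ξ ξ' c5 : ℝ} (hξ0 : 0 ≤ ξ) (hsub : σ'.W (n + 1) ⊆ σ.W n)
    (hms : ms ν (σ.W n) ≤ c5 * ms ν (σ'.W (n + 1))) (hξ : ξ * c5 ≤ ξ')
    (hν : ∀ v, 0 ≤ ν v)
    (hp : TypeU P G ν σ n ξ S s) : TypeU P G ν σ' (n + 1) ξ' S s := by
  intro W' hW' hm
  rw [lk_eq h hS hs]
  refine hp W' (hW'.trans hsub) (le_trans ?_ hm)
  calc ξ * ms ν (σ.W n) ≤ ξ * (c5 * ms ν (σ'.W (n + 1))) :=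
        mul_le_mul_of_nonneg_left hms hξ0
    _ = (ξ * c5) * ms ν (σ'.W (n + 1)) := by ring
    _ ≤ ξ' * ms ν (σ'.W (n + 1)) := mul_le_mul_of_nonneg_right hξ (ms_nonneg hν _)

theorem labOK (h : Agr n σ σ') {S : Finset ℕ} {s : ℕ} (hS : ∀ c ∈ S, c < n) (hs : s < n)
    {H H' : ℝ} (hH : H ≤ H') (hp : LabOK P G σ H S s) : LabOK P G σ' H' S s := by
  have e1 := h.W s hs.le
  have e2 := h.W (s + 1) hs
  refine ⟨?_, ?_, ?_, ?_, ?_⟩
  · rw [e1, e2, h.lab]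
    exact hp.mem
  · rw [e2, h.lab]
    exact hp.adj
  · rw [e2, h.near]
    exact fun t ht => (hp.card t ht).trans hH
  · rw [e2, h.lab, h.near, sc_eq h hs]
    intro x hx t ht ha hc
    refine hp.conf x hx t ht ha (hc.imp id fun hc c hcS => ?_)
    have := hc c hcS
    rwa [sc_eq h (hS c hcS)] at this
  · rw [e2, h.lab, h.near]
    exact hp.prop

theorem kerOK (h : Agr n σ σ') {C : Finset ℕ} {s j : ℕ} (hC : ∀ c ∈ C, c < n) (hs : s < n)
    {H H' : ℝ} (hH : H ≤ H') (hν : ∀ v, 0 ≤ ν v) (hρ : ∀ v, 0 ≤ σ.ρ s v)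
    (hp : KerOK P G ν σ H s C j) : KerOK P G ν σ' H' s C j := by
  obtain ⟨m, l, h1, h2, h3, h4, h5⟩ := hp
  refine ⟨m, l, ?_, h2, h3, ?_, ?_⟩
  · rw [h.W s hs.le]
    exact ms_congr (fun c hc => sc_eq h (hC c hc)) h1
  · rw [h.W s hs.le, h.ρ s hs]
    exact h4
  · rw [h.W s hs.le, h.W (s + 1) hs, sc_eq h hs]
    intro x hx
    refine (h5 x hx).trans ?_
    rw [mul_assoc, mul_assoc]
    exact mul_le_mul_of_nonneg_right hH
      (mul_nonneg (ms_nonneg hν _) (nm_nonneg hρ G x))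

omit [Fintype V] in
theorem sepAt (h : Agr n σ σ') {i : ℕ} (hi : i ≤ n) (hp : SepAt σ i) : SepAt σ' i := by
  unfold SepAt at *
  rw [h.W i hi, h.isB, h.lab, h.near]
  exact hp

end agr

/-! ### The masters -/

/-- Lemma A for `M`, `j` and the constant `Λ`. -/
def LA (M j : ℕ) (Λ : ℝ) : Prop :=
  0 ≤ Λ ∧ ∀ (V : Type) [Fintype V] (G : SimpleGraph V)
    (m : V → ℝ) (L X : Finset V) (v : V), (∀ u, 0 ≤ m u) → X ⊆ L → (∀ c ∈ X, G.Adj v c) →
      Stab G X → Dom G M (j + 1) v m L →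
        ∃ l : V → ℝ, (∀ u, 0 ≤ l u) ∧ (∀ u, l u ≠ 0 → u ∈ L) ∧ ∑ u, l u ≤ Λ ∧
          ∀ c ∈ X, cm G m c < 1 →
            Dom G M j c (fun u => m u + (if u = v then 1 else 0) + l u) L

theorem ker_l {G : SimpleGraph V} {M j : ℕ} {Λ : ℝ} (hL : LA M j Λ) (m : V → V → ℝ)
    (hm0 : ∀ t x, 0 ≤ m t x) (W : Finset V) (hdom : ∀ v ∈ W, Dom G M (j + 1) v (m v) W)
    (ρ : V → ℝ) (hρW : ∀ v, ρ v ≠ 0 → v ∈ W)
    (hst : Stab G (Finset.univ.filter (fun v => ρ v ≠ 0))) :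
    ∃ l : V → V → ℝ, (∀ t v, 0 ≤ l t v) ∧ (∀ t v, l t v ≠ 0 → v ∈ W) ∧
      (∀ t, ∑ v, l t v ≤ 1 + Λ) ∧
      ∀ t ∈ W, ∀ y, ρ y ≠ 0 → G.Adj t y → cm G (m t) y < 1 →
        Dom G M j y (fun v => m t v + l t v) W := by
  have key : ∀ t, ∃ l : V → ℝ, (∀ v, 0 ≤ l v) ∧ (∀ v, l v ≠ 0 → v ∈ W) ∧
      (∑ v, l v ≤ 1 + Λ) ∧
      (t ∈ W → ∀ y, ρ y ≠ 0 → G.Adj t y → cm G (m t) y < 1 →
        Dom G M j y (fun v => m t v + l v) W) := by
    intro t
    by_cases ht : t ∈ W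
    · obtain ⟨l, hl1, hl2, hl3, hl4⟩ := hL.2 V G (m t) W
        (Finset.univ.filter (fun y => ρ y ≠ 0 ∧ G.Adj t y)) t (hm0 t)
        (fun y hy => hρW y (Finset.mem_filter.1 hy).2.1)
        (fun y hy => (Finset.mem_filter.1 hy).2.2)
        (fun u hu v hv => hst u (by
            simp only [Finset.mem_filter, Finset.mem_univ, true_and] at hu ⊢
            exact hu.1) v (by
            simp only [Finset.mem_filter, Finset.mem_univ, true_and] at hv ⊢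
            exact hv.1))
        (hdom t ht)
      refine ⟨fun v => (if v = t then 1 else 0) + l v, fun v => ?_, fun v hv => ?_, ?_, ?_⟩
      · have := hl1 v
        dsimp only
        split_ifs <;> linarith
      · by_contra hvW
        apply hv
        have h1 : v ≠ t := fun h => hvW (h ▸ ht)
        have h2 : l v = 0 := by
          by_contra h
          exact hvW (hl2 v h)
        simp [h1, h2]
      · rw [Finset.sum_add_distrib, Finset.sum_ite_eq' Finset.univ t (fun _ => (1 : ℝ))]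
        simp only [Finset.mem_univ, if_true]
        linarith
      · intro _ y hy hty hcm
        have h := hl4 y (by
          simp only [Finset.mem_filter, Finset.mem_univ, true_and]
          exact ⟨hy, hty⟩) hcm
        have e : (fun u => m t u + (if u = t then 1 else 0) + l u) =
            (fun v => m t v + ((if v = t then 1 else 0) + l v)) := by
          funext v
          ring
        rw [e] at h
        exact h
    · refine ⟨fun _ => 0, fun _ => le_rfl, fun v hv => absurd rfl hv, ?_, fun h => absurd h ht⟩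
      have := hL.1
      simp only [Finset.sum_const_zero]
      linarith
  choose l hl1 hl2 hl3 hl4 using key
  exact ⟨l, hl1, hl2, hl3, fun t ht => hl4 t ht⟩

theorem sub_of_le {P : Par} {n : ℕ} {T : Finset (Finset ℕ)} {H ξ : ℝ} {G : SimpleGraph V}
    {ν : V → ℝ} {σ : Dat V} (hS : Sys P n T H ξ G ν σ) {a b : ℕ} (hab : a ≤ b) (hb : b ≤ n) :
    σ.W b ⊆ σ.W a := by
  induction b, hab using Nat.le_induction with
  | base => exact fun x hx => hx
  | succ b hab ih => exact (hS.sub b (by omega)).trans (ih (by omega))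

/-- The indices of the master systems. -/
abbrev JM (n h : ℕ) : Type := ↥((Finset.range n).powerset ×ˢ Finset.range (h + 1))

/-- The indices of the signs. -/
abbrev JS (n : ℕ) : Type := ↥(Finset.range n) ⊕ ↥((Finset.range n).powerset)

/-- The statement of `StBas3` for given constants. -/
def B3 (κ C0 : ℝ) (n : ℕ) (Λ H ξ' : ℝ) (q : ℕ) (ξ : ℝ) : Prop :=
  ∀ (V : Type) [Fintype V] (G : SimpleGraph V) (ν ρ : V → ℝ)
      (W W1 : Finset V) (b : ℕ → V → ℝ) (J : Type) [Fintype J] (k : J → V → ℝ),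
      (∀ v, Small G (nb G Finset.univ v) κ) → NLC G Finset.univ κ C0 →
      (∀ v, 0 ≤ ν v) → ∑ v, ν v = 1 → (∀ I, Stab G I → ms ν I ≤ ξ) →
      (∀ v, 0 ≤ ρ v) → (∀ v, ρ v ≠ 0 → v ∈ W) → ∑ v, ρ v ≤ 1 →
      Stab G (Finset.univ.filter (fun v => ρ v ≠ 0)) → W1 ⊆ W → 1 ≤ H * ms ν W1 →
      (∀ x ∈ W1, 0 < nm G ρ x) → (∀ w ∈ W, nm G (zt G ν ρ W1) w ≤ 16 * C0) →
      (∀ c < n, ∀ x ∈ W, 0 < b c x) →
      (∀ c < n, ∀ w ∈ W, nm G (fun x => if x ∈ W then ν x / b c x else 0) w ≤ ξ) →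
      Fintype.card J ≤ q → (∀ i v, 0 ≤ k i v) → (∀ i, ∑ v, k i v ≤ Λ * ms ν W) →
        ∃ W2, W2 ⊆ W1 ∧ ms ν W1 ≤ 2 * ms ν W2 ∧ (∀ x ∈ W2, ρ x = 0) ∧
          (∀ w ∈ W2, nm G (zt G ν ρ W1) w ≤ ξ') ∧ (∀ x ∈ W2, ν x ≤ ξ' * nm G ρ x) ∧
          (∀ c < n, ∀ x ∈ W2, nm G ρ x ≤ ξ' * b c x) ∧
          ∀ x ∈ W2, ∀ i, k i x ≤ ms ν W * nm G ρ x

/-- The data with a new stage. -/
def ext (σ : Dat V) (n : ℕ) (ρ : V → ℝ) (W' : Finset V) : Dat V where
  ρ := Function.update σ.ρ n ρ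
  W := Function.update σ.W (n + 1) W'
  isB := σ.isB
  lab := σ.lab
  near := σ.near

omit [Fintype V] in
theorem ext_agr (σ : Dat V) (n : ℕ) (ρ : V → ℝ) (W' : Finset V) : Agr n σ (ext σ n ρ W') where
  ρ := fun c hc => Function.update_of_ne (by omega) _ _
  W := fun s hs => Function.update_of_ne (by omega) _ _
  isB := rfl
  lab := rfl
  near := rfl

theorem core (h2 : StNS) (h3 : StBas1) (h4 : StBas2) (h6 : StFar) (h7 : StPig)
    (P : Par) (hP : P.OK) (hΛ : 0 ≤ P.Λ)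
    (hLA : ∀ j, 1 ≤ j → j + 1 ≤ P.h → ∃ Λ, LA P.M j Λ ∧ 1 + Λ ≤ P.Λ)
    (n : ℕ) (H1 ξ' ξ3 ξ1 c5 H' : ℝ) (hH1 : 1 ≤ H1)
    (hB : B3 P.κ P.C0 n P.Λ (H1 * (64 * P.C0)) ξ' (Fintype.card (JM n P.h)) ξ3)
    (hξ1 : 0 ≤ ξ1) (e3 : ξ1 ≤ ξ3) (e2 : 2 * ξ1 * H1 ≤ 1) (e5 : ξ1 * c5 ≤ ξ')
    (hc5 : c5 = 32 * P.C0 * 2 * 2 * (16 * P.C0 * P.Γ) * 2 ^ (Fintype.card (JS n)))
    (hH' : H' = c5 * H1 + 16 * P.C0 +
      (1024 * P.C0 ^ 2 * P.Λ * (Fintype.card (JM n P.h) + 1) + 1) + H1)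
    (G : SimpleGraph V) (ν : V → ℝ) (σ : Dat V) (hC : Cls P G)
    (hS : Sys P n (full P n) H1 ξ1 G ν σ) (hsep : SepAt σ n) :
    ∃ σ' : Dat V, Sys P (n + 1) ∅ H' ξ' G ν σ' := by
  have hC0 : 1 ≤ P.C0 := hP.C0
  have hΓ : 2 ≤ P.Γ := hP.Γ4
  have hν := hS.ν0
  set q : ℕ := Fintype.card (JM n P.h) with hq
  have h2p : (1 : ℝ) ≤ 2 ^ (Fintype.card (JS n)) := one_le_pow₀ (by norm_num)
  have hcc : 1 ≤ 16 * P.C0 * P.Γ := by nlinarith
  have hcd : 1 ≤ 32 * P.C0 * 2 * 2 := by linarith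
  have hc51 : 1 ≤ c5 := by
    rw [hc5]
    exact one_le_mul_of_one_le_of_one_le (one_le_mul_of_one_le_of_one_le hcd hcc) h2p
  have hKnn : 0 ≤ 1024 * P.C0 ^ 2 * P.Λ * ((q : ℝ) + 1) := by positivity
  have hc5H : 1 ≤ c5 * H1 := one_le_mul_of_one_le_of_one_le hc51 hH1
  have hξ1' : ξ1 ≤ ξ' := by nlinarith
  have hHH : H1 ≤ H' := by rw [hH']; linarith
  set W : Finset V := σ.W n with hW
  have hmsW1 : ms ν W ≤ 1 := by
    have := ms_mono hν (Finset.subset_univ W)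
    have e : ms ν Finset.univ = 1 := hS.ν1
    linarith
  have hms0 : 0 ≤ ms ν W := ms_nonneg hν W
  have hpos := hS.pos
  have hmspos : 0 < ms ν W := by
    rcases hms0.eq_or_lt with h | h
    · rw [← hW, ← h] at hpos
      norm_num at hpos
    · exact h
  -- the hubs
  obtain ⟨ρ, W1, hρ0, hρW, hρ1, hρS, hW1, hm1, hap1, hzt1⟩ := h3 P.C0 hC0 V G ν W ξ1
    (h2 P.κ P.C0 hP.κ1 (by linarith) V G hC.nbs hC.nlc) hν hS.al hmspos (by nlinarith)
  -- the masters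
  have kerdata : ∀ i : Finset ℕ × ℕ, ∃ (m l : V → V → ℝ), (∀ t v, 0 ≤ l t v) ∧
      (∀ t v, l t v ≠ 0 → v ∈ W) ∧ (∀ t, ∑ v, l t v ≤ P.Λ) ∧
      (2 ≤ i.2 → i.2 ≤ P.h → HasMS G P.M i.2 P.B W (sc G σ) i.1 →
        MS G P.M i.2 P.B W (sc G σ) i.1 m ∧
        ∀ t ∈ W, ∀ y, ρ y ≠ 0 → G.Adj t y → cm G (m t) y < 1 →
          Dom G P.M (i.2 - 1) y (fun v => m t v + l t v) W) := by
    rintro ⟨C, j⟩
    by_cases hc : 2 ≤ j ∧ j ≤ P.h ∧ HasMS G P.M j P.B W (sc G σ) C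
    · obtain ⟨hj2, hjh, m, hm⟩ := hc
      obtain ⟨j', rfl⟩ : ∃ j', j = j' + 1 := ⟨j - 1, by omega⟩
      obtain ⟨Λ, hL1, hL2⟩ := hLA j' (by omega) hjh
      obtain ⟨l, hl1, hl2, hl3, hl4⟩ := ker_l hL1 m hm.nn W hm.dom ρ hρW hρS
      exact ⟨m, l, hl1, hl2, fun t => (hl3 t).trans hL2, fun _ _ _ => ⟨hm, hl4⟩⟩
    · refine ⟨fun _ _ => 0, fun _ _ => 0, fun _ _ => le_rfl, fun _ _ h => absurd rfl h,
        fun _ => by simpa using hΛ, fun a b c => absurd ⟨a, b, c⟩ hc⟩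
  choose m l hl0 hlW hlΛ hml using kerdata
  set k : JM n P.h → V → ℝ := fun i v => ∑ t ∈ W, ν t * l i.1 t v with hk
  have hk0 : ∀ i v, 0 ≤ k i v := fun i v =>
    Finset.sum_nonneg fun t _ => mul_nonneg (hν t) (hl0 _ t v)
  have hkW : ∀ i v, k i v ≠ 0 → v ∈ W := by
    intro i v hv
    by_contra hvW
    apply hv
    rw [hk]
    refine Finset.sum_eq_zero fun t _ => ?_
    have : l i.1 t v = 0 := by
      by_contra h
      exact hvW (hlW _ t v h)
    rw [this, mul_zero]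
  have hkΛ : ∀ i, ∑ v, k i v ≤ P.Λ * ms ν W := by
    intro i
    rw [hk]
    dsimp only
    rw [Finset.sum_comm]
    unfold ms
    rw [Finset.mul_sum]
    refine Finset.sum_le_sum fun t _ => ?_
    rw [← Finset.mul_sum, mul_comm P.Λ]
    exact mul_le_mul_of_nonneg_left (hlΛ _ t) (hν t)
  obtain ⟨W2, hW2, hm2, hk2⟩ := h4 V G ν ρ W W1 P.C0 P.Λ (JM n P.h) k hC0 hΛ hν hρ0 hk0 hkW
    hkΛ hW1 hmspos hm1 hap1 hzt1
  -- the negligible sets
  have hWsub : ∀ c < n, W ⊆ σ.W (c + 1) := fun c hc => sub_of_le hS hc le_rfl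
  have hms12 : ms ν W ≤ 64 * P.C0 * ms ν W2 := by
    have : 32 * P.C0 * ms ν W1 ≤ 32 * P.C0 * (2 * ms ν W2) :=
      mul_le_mul_of_nonneg_left hm2 (by linarith)
    linarith
  obtain ⟨W3, hW3, hm3, hρ3, hzt3, hat3, hdrop3, hk3⟩ := hB V G ν ρ W W2 (sc G σ) (JM n P.h) k
    hC.nbs hC.nlc hν hS.ν1 (fun I hI => (hS.al I hI).trans e3) hρ0 hρW hρ1 hρS (hW2.trans hW1)
    (by
      have : H1 * ms ν W ≤ H1 * (64 * P.C0 * ms ν W2) :=
        mul_le_mul_of_nonneg_left hms12 (by linarith)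
      linarith)
    (fun x hx => hap1 x (hW2 hx))
    (fun w hw => by
      have e1 : nm G (zt G ν ρ W2) w ≤ nm G (zt G ν ρ W1) w :=
        nm_mono (fun v => zt_mono hν hρ0 hW2 G v) G w
      have e2 := hzt1 w hw
      have e3 : 16 * P.C0 * ms ν W ≤ 16 * P.C0 * 1 :=
        mul_le_mul_of_nonneg_left hmsW1 (by linarith)
      linarith)
    (fun c hc x hx => hS.ap c hc x (hWsub c hc hx))
    (fun c hc w hw => by
      refine (le_trans ?_ (hS.dξ c hc w (hWsub c hc hw))).trans e3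
      exact nm_mono (fun v => zt_mono hν (hS.ρ0 c hc) (hWsub c hc) G v) G w)
    le_rfl hk0 hkΛ
  -- long edges
  obtain ⟨W4, hW4, hm4, hfar4⟩ := h6 P.C0 P.Γ hC0 hΓ V G ν ρ W3
    (h2 P.κ P.C0 hP.κ1 (by linarith) V G hC.nbs hC.nlc) hν hρ0
    (fun x hx => hap1 x (hW2 (hW3 hx)))
  -- signs
  set σ0 : Dat V := ext σ n ρ ∅ with hσ0
  obtain ⟨W5, hW5, hm5, hp5⟩ := h7 V ν W4 (JS n)
    (fun i x => match i with
      | Sum.inl c => P.ε2 * nm G ρ x ≤ big P G σ0 {c.1} n x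
      | Sum.inr S => P.εp * nm G ρ x ≤ big P G σ0 S.1 n x) hν
  set σ' : Dat V := ext σ n ρ W5 with hσ'
  have hag : Agr n σ σ' := ext_agr σ n ρ W5
  have hρn : σ'.ρ n = ρ := Function.update_self _ _ _
  have hWn : σ'.W n = W := hag.W n le_rfl
  have hWn1 : σ'.W (n + 1) = W5 := Function.update_self _ _ _
  have hscn : sc G σ' n = nm G ρ := by
    funext x
    unfold sc
    rw [hρn]
  have hbig : ∀ S x, big P G σ' S n x = big P G σ0 S n x := fun S x => rfl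
  have hsub5 : W5 ⊆ W := hW5.trans (hW4.trans (hW3.trans (hW2.trans hW1)))
  have hms5 : ms ν W ≤ c5 * ms ν W5 := by
    have a3 : 32 * P.C0 * 2 * ms ν W2 ≤ 32 * P.C0 * 2 * (2 * ms ν W3) :=
      mul_le_mul_of_nonneg_left hm3 (by linarith)
    have a4 : 32 * P.C0 * 2 * 2 * ms ν W3 ≤ 32 * P.C0 * 2 * 2 * (16 * P.C0 * P.Γ * ms ν W4) :=
      mul_le_mul_of_nonneg_left hm4 (by linarith)
    have a5 : 32 * P.C0 * 2 * 2 * (16 * P.C0 * P.Γ) * ms ν W4 ≤
        32 * P.C0 * 2 * 2 * (16 * P.C0 * P.Γ) * (2 ^ (Fintype.card (JS n)) * ms ν W5) :=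
      mul_le_mul_of_nonneg_left hm5 (by positivity)
    rw [hc5]
    linarith
  refine ⟨σ', ?_⟩
  refine ⟨hν, hS.ν1, fun I hI => (hS.al I hI).trans hξ1', ?_, ?_, ?_, ?_, ?_, ?_, ?_, ?_, ?_,
    ?_, ?_, ?_, ?_, ?_, ?_, ?_, ?_, ?_, ?_⟩
  · -- W0
    rw [hag.W 0 (Nat.zero_le _)]
    exact hS.W0
  · -- sub
    intro s hs
    rcases Nat.lt_succ_iff_lt_or_eq.1 hs with hs | rfl
    · rw [hag.W s hs.le, hag.W (s + 1) hs]
      exact hS.sub s hs
    · rw [hWn1, hWn]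
      exact hsub5
  · -- pos
    rw [hWn1]
    have a1 : H1 * ms ν W ≤ H1 * (c5 * ms ν W5) := mul_le_mul_of_nonneg_left hms5 (by linarith)
    have a2 : c5 * H1 * ms ν W5 ≤ H' * ms ν W5 :=
      mul_le_mul_of_nonneg_right (by rw [hH']; linarith) (ms_nonneg hν _)
    have a3 : 1 ≤ H1 * ms ν W := hpos
    linarith
  · -- ρ0
    intro s hs
    rcases Nat.lt_succ_iff_lt_or_eq.1 hs with hs | rfl
    · rw [hag.ρ s hs]
      exact hS.ρ0 s hs
    · rw [hρn]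
      exact hρ0
  · -- ρW
    intro s hs
    rcases Nat.lt_succ_iff_lt_or_eq.1 hs with hs | rfl
    · rw [hag.ρ s hs, hag.W s hs.le, hag.W (s + 1) hs]
      exact hS.ρW s hs
    · rw [hρn, hWn, hWn1]
      exact fun v hv => ⟨hρW v hv, fun h => hv (hρ3 v (hW4 (hW5 h)))⟩
  · -- ρ1
    intro s hs
    rcases Nat.lt_succ_iff_lt_or_eq.1 hs with hs | rfl
    · rw [hag.ρ s hs]
      exact hS.ρ1 s hs
    · rw [hρn]
      exact hρ1
  · -- ρS
    intro s hs
    rcases Nat.lt_succ_iff_lt_or_eq.1 hs with hs | rfl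
    · rw [hag.ρ s hs]
      exact hS.ρS s hs
    · rw [hρn]
      exact hρS
  · -- ap
    intro s hs
    rcases Nat.lt_succ_iff_lt_or_eq.1 hs with hs | rfl
    · rw [hag.W (s + 1) hs, sc_eq hag hs]
      exact hS.ap s hs
    · rw [hWn1, hscn]
      exact fun x hx => hap1 x (hW2 (hW3 (hW4 (hW5 hx))))
  · -- dH
    intro s hs
    rcases Nat.lt_succ_iff_lt_or_eq.1 hs with hs | rfl
    · rw [hag.ρ s hs, hag.W s hs.le, hag.W (s + 1) hs]
      exact fun w hw => (hS.dH s hs w hw).trans hHH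
    · rw [hρn, hWn, hWn1]
      intro w hw
      have e1 : nm G (zt G ν ρ W5) w ≤ nm G (zt G ν ρ W1) w :=
        nm_mono (fun v => zt_mono hν hρ0 (hW5.trans (hW4.trans (hW3.trans hW2))) G v) G w
      have e2 := hzt1 w hw
      have e3 : 16 * P.C0 * ms ν W ≤ 16 * P.C0 * 1 :=
        mul_le_mul_of_nonneg_left hmsW1 (by linarith)
      rw [hH']
      linarith
  · -- dξ
    intro s hs
    rcases Nat.lt_succ_iff_lt_or_eq.1 hs with hs | rfl
    · rw [hag.ρ s hs, hag.W (s + 1) hs]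
      exact fun w hw => (hS.dξ s hs w hw).trans hξ1'
    · rw [hρn, hWn1]
      intro w hw
      have e1 : nm G (zt G ν ρ W5) w ≤ nm G (zt G ν ρ W2) w :=
        nm_mono (fun v => zt_mono hν hρ0 (hW5.trans (hW4.trans hW3)) G v) G w
      exact e1.trans (hzt3 w (hW4 (hW5 hw)))
  · -- at'
    intro s hs
    rcases Nat.lt_succ_iff_lt_or_eq.1 hs with hs | rfl
    · rw [hag.W (s + 1) hs, sc_eq hag hs]
      intro x hx
      exact (hS.at' s hs x hx).trans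
        (mul_le_mul_of_nonneg_right hξ1' (nm_nonneg (hS.ρ0 s hs) G x))
    · rw [hWn1, hscn]
      exact fun x hx => hat3 x (hW4 (hW5 hx))
  · -- drop
    intro c s hcs hs
    rcases Nat.lt_succ_iff_lt_or_eq.1 hs with hs | rfl
    · rw [hag.W (s + 1) hs, sc_eq hag hs, sc_eq hag (hcs.trans hs)]
      intro x hx
      exact (hS.drop c s hcs hs x hx).trans
        (mul_le_mul_of_nonneg_right hξ1' (nm_nonneg (hS.ρ0 c (hcs.trans hs)) G x))
    · rw [hWn1, hscn, sc_eq hag hcs]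
      exact fun x hx => hdrop3 c hcs x (hW4 (hW5 hx))
  · -- far
    intro s hs
    rcases Nat.lt_succ_iff_lt_or_eq.1 hs with hs | rfl
    · rw [hag.W (s + 1) hs, sc_eq hag hs]
      exact hS.far s hs
    · rw [hWn1, hscn]
      exact fun x hx y hy h => hfar4 x (hW5 hx) y (hW5 hy) h
  · -- sg2
    intro c s hcs hs
    rcases Nat.lt_succ_iff_lt_or_eq.1 hs with hs | rfl
    · exact (hS.sg2 c s hcs hs).imp (plus2 hag (hcs.trans hs) hs)
        (minus2 hag (hcs.trans hs) hs)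
    · unfold Plus2 Minus2
      rw [hWn1, hscn]
      rcases hp5 (Sum.inl ⟨c, Finset.mem_range.2 hcs⟩) with h | h
      · left
        exact fun x hx => h x hx
      · right
        exact fun x hx => not_le.1 (h x hx)
  · -- sgS
    intro s hs S hSs hSc
    rcases Nat.lt_succ_iff_lt_or_eq.1 hs with hs | rfl
    · have hSn : ∀ c ∈ S, c < n := fun c hc => (Finset.mem_range.1 (hSs hc)).trans hs
      exact (hS.sgS s hs S hSs hSc).imp (plusS hag hSn hs) (minusS hag hSn hs)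
    · unfold PlusS MinusS
      rw [hWn1, hscn]
      rcases hp5 (Sum.inr ⟨S, Finset.mem_powerset.2 hSs⟩) with h | h
      · left
        exact fun x hx => h x hx
      · right
        exact fun x hx => not_le.1 (h x hx)
  · -- ker
    intro s hs C hCs j hj2 hjh hms
    rcases Nat.lt_succ_iff_lt_or_eq.1 hs with hs | rfl
    · have hCn : ∀ c ∈ C, c < n := fun c hc => (Finset.mem_range.1 (hCs hc)).trans hs
      rw [hag.W s hs.le] at hms
      exact kerOK hag hCn hs hHH hν (hS.ρ0 s hs) (hS.ker s hs C hCs j hj2 hjh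
        (hasMS_congr (fun c hc => (sc_eq hag (hCn c hc)).symm) hms))
    · have hCn : ∀ c ∈ C, c < s := fun c hc => Finset.mem_range.1 (hCs hc)
      rw [hWn] at hms
      have hms' : HasMS G P.M j P.B W (sc G σ) C :=
        hasMS_congr (fun c hc => (sc_eq hag (hCn c hc)).symm) hms
      obtain ⟨hq1, hq2⟩ := hml (C, j) hj2 hjh hms'
      have hi : (C, j) ∈ (Finset.range s).powerset ×ˢ Finset.range (P.h + 1) :=
        Finset.mem_product.2 ⟨Finset.mem_powerset.2 hCs, Finset.mem_range.2 (by simp; omega)⟩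
      unfold KerOK
      rw [hWn, hWn1, hscn, hρn]
      refine ⟨m (C, j), l (C, j), ms_congr (fun c hc => sc_eq hag (hCn c hc)) hq1,
        hl0 (C, j), hlΛ (C, j), hq2, ?_⟩
      intro x hx
      rw [← cm_sum]
      have b1 := hk2 x (hW3 (hW4 (hW5 hx))) ⟨(C, j), hi⟩
      have b2 := hk3 x (hW4 (hW5 hx)) ⟨(C, j), hi⟩
      have b3 : cm G (fun v => ∑ t ∈ W, ν t * l (C, j) t v) x =
          k ⟨(C, j), hi⟩ x + nm G (k ⟨(C, j), hi⟩) x := rfl
      have b4 : 0 ≤ ms ν W * nm G ρ x := mul_nonneg hms0 (nm_nonneg hρ0 G x)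
      have b5 : (1024 * P.C0 ^ 2 * P.Λ * ((q : ℝ) + 1) + 1) * (ms ν W * nm G ρ x) ≤
          H' * (ms ν W * nm G ρ x) :=
        mul_le_mul_of_nonneg_right (by rw [hH']; linarith) b4
      rw [b3]
      linarith
  · -- itm
    intro s hs S hSs hSc hor
    have hs : s < n := by
      rcases hor with h | h
      · omega
      · exact absurd h (Finset.notMem_empty _)
    have hSn : ∀ c ∈ S, c < n := fun c hc => (Finset.mem_range.1 (hSs hc)).trans hs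
    have hit : Item P G ν σ n ξ1 S s := by
      refine hS.itm s hs S hSs hSc ?_
      by_cases h : s + 1 < n
      · exact Or.inl h
      · right
        unfold full
        have e : n - 1 = s := by omega
        rw [e]
        exact Finset.mem_powersetCard.2 ⟨hSs, hSc⟩
    rcases hit with h | ⟨hm, h⟩
    · exact Or.inl (typeP hag hSn hs h)
    · refine Or.inr ⟨minusS hag hSn hs hm, ?_⟩
      rcases h with ⟨c, hc, h⟩ | h | h | h
      · exact Or.inl ⟨c, hc, plus2 hag (hSn c hc) hs h⟩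
      · refine Or.inr (Or.inl (typeU hag hSn hs hξ1 (c5 := c5) ?_ ?_ e5 hν h))
        · rw [hWn1]
          exact hsub5
        · rw [hWn1]
          exact hms5
      · exact Or.inr (Or.inr (Or.inl (typeA hag hSn hs h)))
      · exact Or.inr (Or.inr (Or.inr h))
  · -- lab
    intro S s hb
    obtain ⟨hs, hSs, hSc, hlab⟩ := hS.lab S s hb
    have hSn : ∀ c ∈ S, c < n := fun c hc => (Finset.mem_range.1 (hSs hc)).trans hs
    exact ⟨by omega, hSs, hSc, labOK hag hSn hs hHH hlab⟩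
  · -- sep
    intro i hi
    rcases Nat.lt_succ_iff_lt_or_eq.1 hi with hi | rfl
    · exact sepAt hag hi.le (hS.sep i hi)
    · exact sepAt hag le_rfl hsep

end BMoveX

open BMoveX in
/-- Module `BMove`: a new stage. -/
theorem stBMove (h1 : StLemA) (h2 : StNS) (h3 : StBas1) (h4 : StBas2) (h5 : StBas3)
    (h6 : StFar) (h7 : StPig) (h8 : StSepM) (h9 : StShr) (h10 : StMono) : StBMove := by
  intro M h
  by_cases hM : 1 ≤ M
  swap
  · exact ⟨0, fun P hP hPM => absurd (hPM ▸ hP.M1) hM⟩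
  have key : ∀ j, ∃ Λ : ℝ, 0 ≤ Λ ∧ (1 ≤ j → LA M j Λ) := by
    intro j
    by_cases hj : 1 ≤ j
    · obtain ⟨Λ, hΛ⟩ := h1 M j hM hj
      exact ⟨Λ, hΛ.1, fun _ => hΛ⟩
    · exact ⟨0, le_rfl, fun h => absurd h hj⟩
  choose Λf hΛ0 hΛf using key
  refine ⟨1 + ∑ j ∈ Finset.range h, Λf j, ?_⟩
  intro P hP hPM hPh hPΛ n F hF H hH
  subst hPM
  subst hPh
  have hsum0 : 0 ≤ ∑ j ∈ Finset.range P.h, Λf j := Finset.sum_nonneg fun j _ => hΛ0 j
  have hΛ : 0 ≤ P.Λ := by linarith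
  have hLA : ∀ j, 1 ≤ j → j + 1 ≤ P.h → ∃ Λ, LA P.M j Λ ∧ 1 + Λ ≤ P.Λ := by
    intro j hj hjh
    have := Finset.single_le_sum (f := Λf) (s := Finset.range P.h) (fun j _ => hΛ0 j)
      (Finset.mem_range.2 hjh)
    exact ⟨Λf j, hΛf j hj, by linarith⟩
  obtain ⟨c0, hc0, hsep⟩ := h8 P hP n H hH
  have hC0 : 1 ≤ P.C0 := hP.C0
  have hΓ : 2 ≤ P.Γ := hP.Γ4
  have hH1 : 1 ≤ c0 * H := one_le_mul_of_one_le_of_one_le hc0 hH
  set H1 : ℝ := c0 * H with hH1def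
  set c5 : ℝ := 32 * P.C0 * 2 * 2 * (16 * P.C0 * P.Γ) * 2 ^ (Fintype.card (JS n)) with hc5
  set H' : ℝ := c5 * H1 + 16 * P.C0 +
      (1024 * P.C0 ^ 2 * P.Λ * (Fintype.card (JM n P.h) + 1) + 1) + H1 with hH'
  have h2p : (1 : ℝ) ≤ 2 ^ (Fintype.card (JS n)) := one_le_pow₀ (by norm_num)
  have hcc : 1 ≤ 16 * P.C0 * P.Γ := by nlinarith
  have hcd : 1 ≤ 32 * P.C0 * 2 * 2 := by linarith
  have hc51 : 1 ≤ c5 := by
    rw [hc5]
    exact one_le_mul_of_one_le_of_one_le (one_le_mul_of_one_le_of_one_le hcd hcc) h2p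
  have hKnn : 0 ≤ 1024 * P.C0 ^ 2 * P.Λ * ((Fintype.card (JM n P.h) : ℝ) + 1) := by positivity
  have hc5H : 1 ≤ c5 * H1 := one_le_mul_of_one_le_of_one_le hc51 hH1
  have hH'1 : 1 ≤ H' := by rw [hH']; linarith
  have h64 : 1 ≤ H1 * (64 * P.C0) := one_le_mul_of_one_le_of_one_le hH1 (by linarith)
  obtain ⟨ξ3, hξ3, hB⟩ := h5 P.κ P.C0 hP.κ1 hC0 n P.Λ (H1 * (64 * P.C0)) (F H')
    (Fintype.card (JM n P.h)) hΛ h64 (hF H')
  set e : ℝ := min ξ3 (min (F H' / c5) (1 / (2 * H1))) with he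
  have he0 : 0 < e := by
    rw [he]
    refine lt_min hξ3 (lt_min ?_ ?_)
    · exact div_pos (hF H') (by linarith)
    · exact div_pos one_pos (by linarith)
  have e3 : e ≤ ξ3 := min_le_left _ _
  have e5 : e * c5 ≤ F H' := by
    rw [← le_div_iff₀ (by linarith)]
    exact (min_le_right _ _).trans (min_le_left _ _)
  have e2 : 2 * e * H1 ≤ 1 := by
    have : e ≤ 1 / (2 * H1) := (min_le_right _ _).trans (min_le_right _ _)
    rw [le_div_iff₀ (by linarith)] at this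
    linarith
  refine ⟨e / c0, div_pos he0 (by linarith), ?_⟩
  intro V _ G ν σ hC hS
  have hfin : ∀ σ1 : Dat V, Sys P n (full P n) H1 e G ν σ1 → SepAt σ1 n →
      ∃ (H' : ℝ) (σ' : Dat V), 1 ≤ H' ∧ Sys P (n + 1) ∅ H' (F H') G ν σ' := by
    intro σ1 hS1 hsep1
    obtain ⟨σ', hσ'⟩ := core h2 h3 h4 h6 h7 P hP hΛ hLA n H1 (F H') ξ3 e c5 H' hH1 hB he0.le
      e3 e2 e5 hc5 hH' G ν σ1 hC hS1 hsep1
    exact ⟨H', σ', hH'1, hσ'⟩
  obtain ⟨W', hW', hms, hsp⟩ := hsep (full P n) V G ν σ (e / c0) hS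
  rcases n with _ | n
  · refine hfin σ (h10 P 0 _ H H1 (e / c0) e V G ν σ ?_ ?_ hS) ?_
    · rw [hH1def]
      nlinarith
    · exact div_le_self he0.le hc0
    · intro t l hl
      exact absurd hl (Nat.not_lt_zero _)
  · have hS2 := h9 P hP n (full P (n + 1)) H (e / c0) c0 V G ν σ W' hc0 (by linarith)
      (div_pos he0 (by linarith)).le hS hW' hms
    have e1 : c0 * (e / c0) = e := mul_div_cancel₀ e (by linarith)
    rw [e1] at hS2
    exact hfin _ hS2 hsp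

end Pool.Agent.Lib.FGF
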