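import Pool.Agent.Lib.FGF.BStmts
import Pool.Agent.Lib.FracGS.Base
import Pool.Agent.Lib.FracGS.Sample

/-!
# Fractional Gyarfas-Sumner for all forests: module BSamp (random labels and lists)
-/

set_option autoImplicit false

namespace Pool.Agent.Lib.FGF

open Finset Classical
open Pool.Agent.Lib.FracGS (nb wnb pat bern mem_nb bern_nonneg sum_bern sum_bern_filter
  sum_bern_card)
open Pool.Agent.Lib.GSR3 (Stab Small)

namespace BSampAux

lemma geo (J : Finset ℤ) (j0 : ℤ) (h : ∀ j ∈ J, j0 ≤ j) :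
    ∑ j ∈ J, (2 : ℝ) ^ (-j) ≤ 2 * 2 ^ (-j0) := by
  have h1 : ∀ j ∈ J, (2 : ℝ) ^ (-j) = 2 ^ (-j0) * (1 / 2) ^ (j - j0).toNat := by
    intro j hj
    have h2 := h j hj
    have h3 : ((j - j0).toNat : ℤ) = j - j0 := Int.toNat_of_nonneg (by omega)
    have h4 : ((1 / 2 : ℝ)) ^ (j - j0).toNat = 2 ^ (-(j - j0)) := by
      rw [one_div, inv_pow, ← zpow_natCast, h3, ← zpow_neg]
    rw [h4, ← zpow_add₀ (by norm_num)]
    congr 1
    ring
  rw [Finset.sum_congr rfl h1, ← Finset.mul_sum]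
  have h5 : ∑ j ∈ J, (1 / 2 : ℝ) ^ (j - j0).toNat =
      ∑ n ∈ J.image (fun j => (j - j0).toNat), (1 / 2 : ℝ) ^ n := by
    rw [Finset.sum_image]
    intro x hx y hy hxy
    have h6 := h x hx
    have h7 := h y hy
    simp only at hxy
    omega
  have h6 : ∑ n ∈ J.image (fun j => (j - j0).toNat), (1 / 2 : ℝ) ^ n ≤ 2 := by
    calc _ ≤ ∑' n : ℕ, (1 / 2 : ℝ) ^ n :=
          Summable.sum_le_tsum _ (fun _ _ => by positivity) summable_geometric_two
      _ = 2 := tsum_geometric_two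
  rw [h5, mul_comm]
  exact mul_le_mul_of_nonneg_right h6 (by positivity)

lemma geo' (J : Finset ℤ) (s : ℝ) (hs : 0 < s) :
    ∑ j ∈ J.filter (fun j => s < (2 : ℝ) ^ j), (2 : ℝ) ^ (-j) ≤ 2 / s := by
  have h1 : s < (2 : ℝ) ^ (Int.log 2 s + 1) := by
    have h := Int.lt_zpow_succ_log_self (b := 2) (by norm_num) s
    exact_mod_cast h
  have h2 : (2 : ℝ) ^ (Int.log 2 s) ≤ s := by
    have h := Int.zpow_log_le_self (b := 2) (by norm_num) hs
    exact_mod_cast h
  have h3 : ∀ j ∈ J.filter (fun j => s < (2 : ℝ) ^ j), Int.log 2 s + 1 ≤ j := by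
    intro j hj
    have h4 := (Finset.mem_filter.1 hj).2
    have h5 : (2 : ℝ) ^ (Int.log 2 s) < 2 ^ j := lt_of_le_of_lt h2 h4
    have h6 := (zpow_lt_zpow_iff_right₀ (by norm_num : (1 : ℝ) < 2)).1 h5
    omega
  refine (geo _ _ h3).trans ?_
  rw [zpow_neg, ← div_eq_mul_inv]
  exact div_le_div_of_nonneg_left (by norm_num) hs h1.le

variable {V : Type}

lemma partA (J : Finset ℤ) (N : Finset V) (ρ : V → ℝ) (R U A : ℝ) (hU : 0 < U)
    (hA : 0 < A) (hR : 0 ≤ R) (hsum : ∑ y ∈ N, ρ y = A) :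
    ∑ j ∈ J, ∑ y ∈ N, (if A < U * 2 ^ (j + 1) then R * ρ y * 2 ^ (-j) else 0) ≤ 4 * R * U := by
  have h1 : ∀ j ∈ J, ∑ y ∈ N, (if A < U * 2 ^ (j + 1) then R * ρ y * 2 ^ (-j) else 0) =
      if A / (2 * U) < 2 ^ j then R * A * (2 : ℝ) ^ (-j) else 0 := by
    intro j _
    have h2 : (A < U * 2 ^ (j + 1)) ↔ (A / (2 * U) < 2 ^ j) := by
      rw [div_lt_iff₀ (by linarith), zpow_add₀ (by norm_num), zpow_one]
      constructor <;> intro h <;> linarith
    by_cases hc : A < U * 2 ^ (j + 1)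
    · rw [if_pos (h2.1 hc)]
      simp only [if_pos hc]
      rw [← Finset.sum_mul, ← Finset.mul_sum, hsum]
    · rw [if_neg fun h => hc (h2.2 h)]
      simp only [if_neg hc]
      simp
  rw [Finset.sum_congr rfl h1, ← Finset.sum_filter, ← Finset.mul_sum]
  have h3 := geo' J (A / (2 * U)) (by positivity)
  calc R * A * ∑ j ∈ J.filter (fun j => A / (2 * U) < (2 : ℝ) ^ j), (2 : ℝ) ^ (-j)
      ≤ R * A * (2 / (A / (2 * U))) :=
        mul_le_mul_of_nonneg_left h3 (mul_nonneg hR hA.le)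
    _ = 4 * R * U := by
        field_simp
        ring

lemma partB (J : Finset ℤ) (N : Finset V) (ρ sig : V → ℝ) (R : ℝ) (c : V → Prop) (hR : 0 ≤ R)
    (hρ : ∀ v, 0 ≤ ρ v) (hc : ∀ y ∈ N, c y → 0 < sig y) :
    ∑ j ∈ J, ∑ y ∈ N, (if c y ∧ sig y < 2 ^ (j + 1) then R * ρ y * 2 ^ (-j) else 0) ≤
      4 * R * ∑ y ∈ N.filter c, ρ y / sig y := by
  rw [Finset.sum_comm, Finset.sum_filter, Finset.mul_sum]
  refine Finset.sum_le_sum fun y hy => ?_
  by_cases h : c y
  · have hs := hc y hy h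
    rw [if_pos h]
    have h1 : ∀ j ∈ J, (if c y ∧ sig y < 2 ^ (j + 1) then R * ρ y * 2 ^ (-j) else 0) =
        if sig y / 2 < 2 ^ j then R * ρ y * (2 : ℝ) ^ (-j) else 0 := by
      intro j _
      have h2 : (c y ∧ sig y < 2 ^ (j + 1)) ↔ (sig y / 2 < 2 ^ j) := by
        rw [div_lt_iff₀ (by norm_num), zpow_add₀ (by norm_num), zpow_one]
        simp only [h, true_and]
      by_cases h3 : sig y / 2 < 2 ^ j
      · rw [if_pos h3, if_pos (h2.2 h3)]
      · rw [if_neg h3, if_neg fun h4 => h3 (h2.1 h4)]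
    rw [Finset.sum_congr rfl h1, ← Finset.sum_filter, ← Finset.mul_sum]
    have h3 := geo' J (sig y / 2) (by positivity)
    calc R * ρ y * ∑ j ∈ J.filter (fun j => sig y / 2 < (2 : ℝ) ^ j), (2 : ℝ) ^ (-j)
        ≤ R * ρ y * (2 / (sig y / 2)) :=
          mul_le_mul_of_nonneg_left h3 (mul_nonneg hR (hρ y))
      _ = 4 * R * (ρ y / sig y) := by
          field_simp
          ring
  · simp [h]

section Prob

variable {ι : Type}

lemma prod_small {p : ι → ℝ} (h0 : ∀ i, 0 ≤ p i) (h1 : ∀ i, p i ≤ 1) (T : Finset ι) :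
    (∏ i ∈ T, (1 - p i)) * (1 + ∑ i ∈ T, p i) ≤ 1 ∧ 0 ≤ ∏ i ∈ T, (1 - p i) := by
  induction T using Finset.induction_on with
  | empty => simp
  | insert a s ha ih =>
    rw [Finset.prod_insert ha, Finset.sum_insert ha]
    obtain ⟨i1, i2⟩ := ih
    have ha0 := h0 a
    have ha1 := h1 a
    have hs : 0 ≤ ∑ i ∈ s, p i := Finset.sum_nonneg fun i _ => h0 i
    refine ⟨?_, mul_nonneg (by linarith) i2⟩
    have h6 : (1 - p a) * (1 + (p a + ∑ i ∈ s, p i)) ≤ 1 + ∑ i ∈ s, p i := by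
      nlinarith [mul_nonneg ha0 hs, mul_nonneg ha0 ha0]
    have h7 := mul_le_mul_of_nonneg_left h6 i2
    calc ((1 - p a) * ∏ i ∈ s, (1 - p i)) * (1 + (p a + ∑ i ∈ s, p i))
        = (∏ i ∈ s, (1 - p i)) * ((1 - p a) * (1 + (p a + ∑ i ∈ s, p i))) := by ring
      _ ≤ (∏ i ∈ s, (1 - p i)) * (1 + ∑ i ∈ s, p i) := h7
      _ ≤ 1 := i1

variable [Fintype ι]

lemma no_hit {p : ι → ℝ} (h0 : ∀ i, 0 ≤ p i) (h1 : ∀ i, p i ≤ 1) (T : Finset ι)
    (h2 : 2 ≤ ∑ i ∈ T, p i ∨ ∃ i ∈ T, p i = 1) :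
    ∑ Z : Finset ι, bern p Z * (if Disjoint T Z then 1 else 0) ≤ 1 / 3 := by
  have h3 : ∑ Z : Finset ι, bern p Z * (if Disjoint T Z then 1 else 0) =
      ∏ i ∈ T, (1 - p i) := by
    have h4 := sum_bern_filter p ∅ T (Finset.disjoint_empty_left _)
    rw [Finset.prod_empty, one_mul] at h4
    rw [← h4, Finset.sum_filter]
    refine Finset.sum_congr rfl fun Z _ => ?_
    by_cases h : Disjoint T Z
    · simp [h]
    · simp [h]
  rw [h3]
  obtain ⟨i1, i2⟩ := prod_small h0 h1 T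
  rcases h2 with h2 | ⟨i, hi, hi1⟩
  · nlinarith
  · rw [Finset.prod_eq_zero hi (by rw [hi1]; ring)]
    norm_num

lemma many {p : ι → ℝ} (h0 : ∀ i, 0 ≤ p i) (h1 : ∀ i, p i ≤ 1) (T : Finset ι) (E0 : ℝ)
    (hE : ∑ i ∈ T, p i ≤ E0) (L : ℕ) (hL : 6 * E0 ≤ L) :
    ∑ Z : Finset ι, bern p Z * (if L < (T.filter (fun i => i ∈ Z)).card then 1 else 0) ≤
      1 / 6 := by
  have h := sum_bern_card p (fun _ => 1) T
  simp only [mul_one] at h
  have h2 : ((L : ℝ) + 1) * ∑ Z : Finset ι, bern p Z *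
      (if L < (T.filter (fun i => i ∈ Z)).card then 1 else 0) ≤ ∑ i ∈ T, p i := by
    rw [← h, Finset.mul_sum]
    refine Finset.sum_le_sum fun Z _ => ?_
    have hb := bern_nonneg h0 h1 Z
    rw [Finset.sum_const, nsmul_eq_mul, mul_one]
    split_ifs with hc
    · have h2 : (L : ℝ) + 1 ≤ ((T.filter (fun i => i ∈ Z)).card : ℝ) := by exact_mod_cast hc
      nlinarith
    · have h2 : (0 : ℝ) ≤ ((T.filter (fun i => i ∈ Z)).card : ℝ) := Nat.cast_nonneg _
      nlinarith [mul_nonneg hb h2]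
  have hL0 : (0 : ℝ) ≤ L := Nat.cast_nonneg L
  have h3 : ((L : ℝ) + 1) * ∑ Z : Finset ι, bern p Z *
      (if L < (T.filter (fun i => i ∈ Z)).card then 1 else 0) ≤ ((L : ℝ) + 1) * (1 / 6) := by
    linarith
  exact le_of_mul_le_mul_left h3 (by linarith)

end Prob

end BSampAux

open BSampAux in
theorem stBSamp : StBSamp := by
  intro e K Ups H he hK hUps hH
  have hR : (0 : ℝ) < 2 / e := by positivity
  refine ⟨⌈6 * (4 * (2 / e) * Ups + 4 * (2 / e) * (4 * (K + 1) * H))⌉₊, 3 / 8, by norm_num, ?_⟩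
  intro V _ G ν ρ sig W' W I Good F hν hρ hρ1 hWW' hH' hpos hGood heG hsig
  set L : ℕ := ⌈6 * (4 * (2 / e) * Ups + 4 * (2 / e) * (4 * (K + 1) * H))⌉₊ with hLdef
  have hL : 6 * (4 * (2 / e) * Ups + 4 * (2 / e) * (4 * (K + 1) * H)) ≤ (L : ℝ) := Nat.le_ceil _
  set R : ℝ := 2 / e with hRdef
  set a : V → ℝ := fun x => wnb G I ρ x with hadef
  let Pb : V → Prop := fun y => ∃ x ∈ W, y ∈ Good x
  let f : V → ℝ := fun t => ∑ y ∈ (nb G I t).filter (fun y => Pb y ∧ t ∈ F y), ρ y / sig y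
  have hsigp : ∀ y, Pb y → 0 < sig y := fun y ⟨x, hx, hy⟩ => (hsig x hx y hy).1
  have hνW' : 0 ≤ ∑ t ∈ W', ν t := Finset.sum_nonneg fun t _ => hν t
  have hνW : 0 ≤ ∑ t ∈ W, ν t := Finset.sum_nonneg fun t _ => hν t
  -- the average of f
  have havg : ∑ t ∈ W, ν t * f t ≤ (K + 1) * H * ∑ t ∈ W, ν t := by
    have h1 : ∑ t ∈ W, ν t * f t =
        ∑ y ∈ I, ∑ t ∈ W, (if G.Adj t y ∧ Pb y ∧ t ∈ F y then ν t * (ρ y / sig y) else 0) := by
      rw [Finset.sum_comm]
      refine Finset.sum_congr rfl fun t _ => ?_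
      show ν t * ∑ y ∈ (nb G I t).filter (fun y => Pb y ∧ t ∈ F y), ρ y / sig y = _
      rw [nb, Finset.filter_filter, Finset.sum_filter, Finset.mul_sum]
      refine Finset.sum_congr rfl fun y _ => ?_
      split_ifs <;> simp
    rw [h1]
    have h2 : ∀ y ∈ I, ∑ t ∈ W, (if G.Adj t y ∧ Pb y ∧ t ∈ F y then ν t * (ρ y / sig y) else 0) ≤
        ρ y * (K * ∑ t ∈ W', ν t) := by
      intro y _
      by_cases hy : Pb y
      · have hs := hsigp y hy
        obtain ⟨x, hx, hyx⟩ := hy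
        have h3 := (hsig x hx y hyx).2.2
        calc ∑ t ∈ W, (if G.Adj t y ∧ Pb y ∧ t ∈ F y then ν t * (ρ y / sig y) else 0)
            ≤ ∑ t ∈ W, (if t ∈ F y then ν t * (ρ y / sig y) else 0) := by
              refine Finset.sum_le_sum fun t _ => ?_
              have h4 : 0 ≤ ν t * (ρ y / sig y) := mul_nonneg (hν t) (div_nonneg (hρ y) hs.le)
              split_ifs with h5 h6 h6
              · exact le_refl _
              · exact absurd h5.2.2 h6
              · exact h4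
              · exact le_refl _
          _ = ∑ t ∈ W ∩ F y, ν t * (ρ y / sig y) := by
              rw [← Finset.sum_filter, Finset.filter_mem_eq_inter]
          _ ≤ ∑ t ∈ F y, ν t * (ρ y / sig y) :=
              Finset.sum_le_sum_of_subset_of_nonneg Finset.inter_subset_right
                fun t _ _ => mul_nonneg (hν t) (div_nonneg (hρ y) hs.le)
          _ = (∑ t ∈ F y, ν t) * (ρ y / sig y) := by rw [Finset.sum_mul]
          _ ≤ (K * (∑ t ∈ W', ν t) * sig y) * (ρ y / sig y) :=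
              mul_le_mul_of_nonneg_right h3 (div_nonneg (hρ y) hs.le)
          _ = ρ y * (K * ∑ t ∈ W', ν t) := by
              field_simp
      · refine le_of_eq_of_le (Finset.sum_eq_zero fun t _ => if_neg fun h => hy h.2.1) ?_
        exact mul_nonneg (hρ y) (mul_nonneg hK hνW')
    refine (Finset.sum_le_sum h2).trans ?_
    rw [← Finset.sum_mul]
    calc (∑ y ∈ I, ρ y) * (K * ∑ t ∈ W', ν t) ≤ 1 * (K * ∑ t ∈ W', ν t) :=
          mul_le_mul_of_nonneg_right hρ1 (mul_nonneg hK hνW')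
      _ ≤ (K + 1) * (H * ∑ t ∈ W, ν t) := by
          rw [one_mul]
          exact mul_le_mul (by linarith) hH' hνW' (by linarith)
      _ = _ := by ring
  -- the part W1
  let T4 : ℝ := 4 * (K + 1) * H
  have hT4 : 0 < T4 := by positivity
  let W1 : Finset V := W.filter (fun t => f t ≤ T4)
  have hf0 : ∀ t, 0 ≤ f t := by
    intro t
    refine Finset.sum_nonneg fun y hy => ?_
    have h1 := (Finset.mem_filter.1 hy).2
    exact div_nonneg (hρ y) (hsigp y h1.1).le
  have hW1 : 3 / 4 * ∑ t ∈ W, ν t ≤ ∑ t ∈ W1, ν t := by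
    have h1 := Finset.sum_filter_add_sum_filter_not W (fun t => f t ≤ T4) ν
    have h2 : T4 * ∑ t ∈ W.filter (fun t => ¬ f t ≤ T4), ν t ≤ ∑ t ∈ W, ν t * f t := by
      rw [Finset.mul_sum]
      calc ∑ t ∈ W.filter (fun t => ¬ f t ≤ T4), T4 * ν t
          ≤ ∑ t ∈ W.filter (fun t => ¬ f t ≤ T4), ν t * f t := by
            refine Finset.sum_le_sum fun t ht => ?_
            have h3 := (Finset.mem_filter.1 ht).2
            push Not at h3
            rw [mul_comm]
            exact mul_le_mul_of_nonneg_left h3.le (hν t)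
        _ ≤ _ := Finset.sum_le_sum_of_subset_of_nonneg (Finset.filter_subset _ _)
            fun t _ _ => mul_nonneg (hν t) (hf0 t)
    have h3 : T4 * ∑ t ∈ W.filter (fun t => ¬ f t ≤ T4), ν t ≤ T4 * (1 / 4 * ∑ t ∈ W, ν t) := by
      refine (h2.trans havg).trans (le_of_eq ?_)
      show (K + 1) * H * ∑ t ∈ W, ν t = 4 * (K + 1) * H * (1 / 4 * ∑ t ∈ W, ν t)
      ring
    have h4 := le_of_mul_le_mul_left h3 hT4
    show 3 / 4 * ∑ t ∈ W, ν t ≤ ∑ t ∈ W.filter (fun t => f t ≤ T4), ν t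
    linarith
  have hW1W : ∀ t ∈ W1, t ∈ W := fun t ht => (Finset.mem_filter.1 ht).1
  have hW1f : ∀ t ∈ W1, f t ≤ T4 := fun t ht => (Finset.mem_filter.1 ht).2
  -- windows
  let jj : V → ℤ := fun x => Int.log 2 (a x)
  let J : Finset ℤ := W.image jj
  have hjJ : ∀ x ∈ W, jj x ∈ J := fun x hx => Finset.mem_image_of_mem jj hx
  have hj1 : ∀ x ∈ W, (2 : ℝ) ^ (jj x) ≤ a x := by
    intro x hx
    have h := Int.zpow_log_le_self (b := 2) (by norm_num) (hpos x hx)
    exact_mod_cast h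
  have hj2 : ∀ x, a x < (2 : ℝ) ^ (jj x + 1) := by
    intro x
    have h := Int.lt_zpow_succ_log_self (b := 2) (by norm_num) (a x)
    exact_mod_cast h
  -- the sample
  let p : (↥J × V) → ℝ := fun i => min 1 (R * ρ i.2 * (2 : ℝ) ^ (-(i.1 : ℤ)))
  have hq0 : ∀ i : ↥J × V, 0 ≤ R * ρ i.2 * (2 : ℝ) ^ (-(i.1 : ℤ)) := fun i =>
    mul_nonneg (mul_nonneg hR.le (hρ _)) (by positivity)
  have hp0 : ∀ i, 0 ≤ p i := fun i => le_min zero_le_one (hq0 i)
  have hp1 : ∀ i, p i ≤ 1 := fun i => min_le_left _ _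
  let Tn : V → Finset (↥J × V) := fun t => Finset.univ.filter (fun i => i.2 ∈ nb G I t ∧
    (a t < Ups * 2 ^ ((i.1 : ℤ) + 1) ∨ ((Pb i.2 ∧ t ∈ F i.2) ∧ sig i.2 < 2 ^ ((i.1 : ℤ) + 1))))
  have hTn : ∀ t ∈ W1, ∑ i ∈ Tn t, p i ≤ 4 * R * Ups + 4 * R * T4 := by
    intro t ht
    have hA := partA J (nb G I t) ρ R Ups (a t) hUps (hpos t (hW1W t ht)) hR.le rfl
    have hB := partB J (nb G I t) ρ sig R (fun y => Pb y ∧ t ∈ F y) hR.le hρ
      (fun y _ hc => hsigp y hc.1)
    have hf := hW1f t ht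
    have h1 : ∑ i ∈ Tn t, p i ≤
        (∑ j ∈ J, ∑ y ∈ nb G I t, (if a t < Ups * 2 ^ (j + 1) then R * ρ y * 2 ^ (-j) else 0)) +
        ∑ j ∈ J, ∑ y ∈ nb G I t,
          (if (Pb y ∧ t ∈ F y) ∧ sig y < 2 ^ (j + 1) then R * ρ y * 2 ^ (-j) else 0) := by
      rw [← Finset.sum_add_distrib]
      simp only [← Finset.sum_add_distrib]
      show ∑ i ∈ Finset.univ.filter (fun i : ↥J × V => i.2 ∈ nb G I t ∧
        (a t < Ups * 2 ^ ((i.1 : ℤ) + 1) ∨
          ((Pb i.2 ∧ t ∈ F i.2) ∧ sig i.2 < 2 ^ ((i.1 : ℤ) + 1)))), p i ≤ _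
      rw [Finset.sum_filter, Fintype.sum_prod_type]
      rw [← Finset.sum_coe_sort J]
      refine Finset.sum_le_sum fun j _ => ?_
      rw [← Finset.sum_subset (Finset.subset_univ (nb G I t))]
      · refine Finset.sum_le_sum fun y hy => ?_
        have hq := hq0 (j, y)
        have hpq : p (j, y) ≤ R * ρ y * (2 : ℝ) ^ (-(j : ℤ)) := min_le_right _ _
        simp only at hq
        by_cases hc1 : a t < Ups * 2 ^ ((j : ℤ) + 1)
        · rw [if_pos ⟨hy, Or.inl hc1⟩, if_pos hc1]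
          split_ifs
          · linarith
          · linarith
        · by_cases hc2 : (Pb y ∧ t ∈ F y) ∧ sig y < 2 ^ ((j : ℤ) + 1)
          · rw [if_pos ⟨hy, Or.inr hc2⟩, if_neg hc1, if_pos hc2]
            linarith
          · rw [if_neg, if_neg hc1, if_neg hc2]
            · simp
            · rintro ⟨_, h | h⟩
              · exact hc1 h
              · exact hc2 h
      · intro y _ hy
        exact if_neg fun h => hy h.1
    have h2 : 4 * R * ∑ y ∈ (nb G I t).filter (fun y => Pb y ∧ t ∈ F y), ρ y / sig y ≤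
        4 * R * T4 := mul_le_mul_of_nonneg_left hf (by linarith)
    refine h1.trans (add_le_add ?_ ?_)
    · refine le_trans (le_of_eq ?_) hA
      congr!
    · refine le_trans ?_ h2
      refine le_trans (le_of_eq ?_) (hB.trans (le_of_eq ?_))
      · congr!
      · congr!
  -- the events
  let good : V → Finset (↥J × V) → Prop := fun t Z =>
    (∃ y ∈ Good t, ∃ h : jj t ∈ J, ((⟨jj t, h⟩ : ↥J), y) ∈ Z) ∧
      ((Tn t).filter (fun i => i ∈ Z)).card ≤ L
  have hgood : ∀ t ∈ W1, 1 / 2 ≤ ∑ Z : Finset (↥J × V), bern p Z * (if good t Z then 1 else 0) := by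
    intro t ht
    have htW := hW1W t ht
    have h1 : ∑ Z : Finset (↥J × V), bern p Z *
        (if L < ((Tn t).filter (fun i => i ∈ Z)).card then 1 else 0) ≤ 1 / 6 := by
      convert many hp0 hp1 (Tn t) _ (hTn t ht) L hL
    let Th : Finset (↥J × V) := (Good t).image (fun y => ((⟨jj t, hjJ t htW⟩ : ↥J), y))
    have hinj : Set.InjOn (fun y => (((⟨jj t, hjJ t htW⟩ : ↥J), y) : ↥J × V)) (Good t) := by
      intro x _ y _ hxy
      exact (Prod.mk.inj hxy).2
    have h2 : 2 ≤ ∑ i ∈ Th, p i ∨ ∃ i ∈ Th, p i = 1 := by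
      by_cases hex : ∃ i ∈ Th, p i = 1
      · exact Or.inr hex
      · left
        push Not at hex
        have h3 : ∑ i ∈ Th, p i = ∑ y ∈ Good t, R * ρ y * (2 : ℝ) ^ (-(jj t)) := by
          show ∑ i ∈ (Good t).image (fun y => ((⟨jj t, hjJ t htW⟩ : ↥J), y)), p i = _
          rw [Finset.sum_image hinj]
          refine Finset.sum_congr rfl fun y hy => ?_
          have h4 := hex ((⟨jj t, hjJ t htW⟩ : ↥J), y) (Finset.mem_image_of_mem _ hy)
          show min 1 (R * ρ y * (2 : ℝ) ^ (-(jj t))) = _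
          change min 1 (R * ρ y * (2 : ℝ) ^ (-(jj t))) ≠ 1 at h4
          rcases min_choice 1 (R * ρ y * (2 : ℝ) ^ (-(jj t))) with h5 | h5
          · exact absurd h5 h4
          · exact h5
        rw [h3, ← Finset.sum_mul, ← Finset.mul_sum]
        have h5 := heG t htW
        have h6 := hj1 t htW
        have h7 : (1 : ℝ) ≤ a t * (2 : ℝ) ^ (-(jj t)) := by
          rw [zpow_neg, ← div_eq_mul_inv, one_le_div (by positivity)]
          exact h6
        calc (2 : ℝ) = R * e * 1 := by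
              rw [hRdef]
              field_simp
          _ ≤ R * e * (a t * (2 : ℝ) ^ (-(jj t))) :=
              mul_le_mul_of_nonneg_left h7 (by positivity)
          _ = R * (e * a t) * (2 : ℝ) ^ (-(jj t)) := by ring
          _ ≤ R * (∑ y ∈ Good t, ρ y) * (2 : ℝ) ^ (-(jj t)) := by
              refine mul_le_mul_of_nonneg_right ?_ (by positivity)
              exact mul_le_mul_of_nonneg_left h5 hR.le
    have h3 : ∑ Z : Finset (↥J × V), bern p Z * (if Disjoint Th Z then 1 else 0) ≤ 1 / 3 := by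
      convert no_hit hp0 hp1 Th h2
    have h4 : ∑ Z : Finset (↥J × V), bern p Z * 1 ≤
        ∑ Z : Finset (↥J × V), (bern p Z * (if good t Z then 1 else 0) +
          bern p Z * (if Disjoint Th Z then 1 else 0) +
          bern p Z * (if L < ((Tn t).filter (fun i => i ∈ Z)).card then 1 else 0)) := by
      refine Finset.sum_le_sum fun Z _ => ?_
      have hb := bern_nonneg hp0 hp1 Z
      by_cases hD : Disjoint Th Z
      · rw [if_pos hD]
        have e1 : 0 ≤ bern p Z * (if good t Z then 1 else 0) := by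
          split_ifs <;> simp [hb]
        have e2 : 0 ≤ bern p Z *
            (if L < ((Tn t).filter (fun i => i ∈ Z)).card then 1 else 0) := by
          split_ifs <;> simp [hb]
        linarith
      · by_cases hLc : L < ((Tn t).filter (fun i => i ∈ Z)).card
        · rw [if_pos hLc, if_neg hD]
          have e1 : 0 ≤ bern p Z * (if good t Z then 1 else 0) := by
            split_ifs <;> simp [hb]
          linarith
        · have hg : good t Z := by
            refine ⟨?_, not_lt.1 hLc⟩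
            rw [Finset.not_disjoint_iff] at hD
            obtain ⟨i, hi, hiZ⟩ := hD
            obtain ⟨y, hy, rfl⟩ := Finset.mem_image.1 hi
            exact ⟨y, hy, hjJ t htW, hiZ⟩
          rw [if_pos hg, if_neg hLc, if_neg hD]
          linarith
    rw [Finset.sum_add_distrib, Finset.sum_add_distrib] at h4
    simp only [mul_one] at h4
    rw [sum_bern] at h4
    linarith
  -- a good sample
  have hex : ∃ Z : Finset (↥J × V), 1 / 2 * ∑ t ∈ W1, ν t ≤
      ∑ t ∈ W1, ν t * (if good t Z then 1 else 0) := by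
    refine FracGS.Sample.exists_ge_bern hp0 hp1 _ _ ?_
    have h1 : ∑ Z : Finset (↥J × V), bern p Z * ∑ t ∈ W1, ν t * (if good t Z then 1 else 0) =
        ∑ t ∈ W1, ν t * ∑ Z : Finset (↥J × V), bern p Z * (if good t Z then 1 else 0) := by
      simp only [Finset.mul_sum]
      rw [Finset.sum_comm]
      refine Finset.sum_congr rfl fun t _ => Finset.sum_congr rfl fun Z _ => ?_
      ring
    rw [h1, Finset.mul_sum]
    refine Finset.sum_le_sum fun t ht => ?_
    have h2 := hgood t ht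
    have h3 := mul_le_mul_of_nonneg_left h2 (hν t)
    linarith
  obtain ⟨Z, hZ⟩ := hex
  have hlab : ∀ x, ∃ y, good x Z → (y ∈ Good x ∧ ∃ h : jj x ∈ J, ((⟨jj x, h⟩ : ↥J), y) ∈ Z) := by
    intro x
    by_cases hx : good x Z
    · obtain ⟨⟨y, hy, hh⟩, _⟩ := hx
      exact ⟨y, fun _ => ⟨hy, hh⟩⟩
    · exact ⟨x, fun h => absurd h hx⟩
  choose lab hlab using hlab
  refine ⟨W1.filter (fun t => good t Z), lab,
    fun t => ((Tn t).filter (fun i => i ∈ Z)).image Prod.snd, ?_, ?_, ?_, ?_, ?_⟩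
  · intro t ht
    exact hW1W t (Finset.mem_filter.1 ht).1
  · have h1 : ∑ t ∈ W1, ν t * (if good t Z then 1 else 0) =
        ∑ t ∈ W1.filter (fun t => good t Z), ν t := by
      rw [Finset.sum_filter (s := W1) (p := fun t => good t Z)]
      refine Finset.sum_congr rfl fun t _ => ?_
      split_ifs <;> simp
    rw [h1] at hZ
    linarith
  · intro x hx
    exact (hlab x (Finset.mem_filter.1 hx).2).1
  · intro x hx
    exact Finset.card_image_le.trans (Finset.mem_filter.1 hx).2.2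
  · intro x hx t ht hadj hcond
    have hxg := (Finset.mem_filter.1 hx).2
    have hxW := hW1W x (Finset.mem_filter.1 hx).1
    obtain ⟨hy, hJx, hyZ⟩ := hlab x hxg
    refine Finset.mem_image.2 ⟨((⟨jj x, hJx⟩ : ↥J), lab x), ?_, rfl⟩
    refine Finset.mem_filter.2 ⟨?_, hyZ⟩
    refine Finset.mem_filter.2 ⟨Finset.mem_univ _, ?_, ?_⟩
    · exact mem_nb.2 ⟨(mem_nb.1 (hGood x hxW hy)).1, hadj⟩
    · rcases hcond with hc | hc
      · left
        exact hc.trans (mul_lt_mul_of_pos_left (hj2 x) hUps)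
      · right
        exact ⟨⟨⟨x, hxW, hy⟩, hc⟩, lt_of_le_of_lt (hsig x hxW _ hy).2.1 (hj2 x)⟩

end Pool.Agent.Lib.FGF
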