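import Pool.Agent.Lib.FGF.Stmts3

/-!
# The fractional Gyarfas-Sumner conjecture: the hubs of a new stage
-/

set_option autoImplicit false

namespace Pool.Agent.Lib.FGF

open Finset Classical
open Pool.Agent.Lib.FracGS (nb wnb TAdj pat)
open Pool.Agent.Lib.GSR3 (Stab Small Tree)
open Pool.Agent.Lib.GSR5 (NLC)

namespace Bas1

variable {V : Type} [Fintype V] (G : SimpleGraph V)

theorem nm_eq (r : V → ℝ) (x : V) : nm G r x = ∑ y, if G.Adj x y then r y else 0 := by
  unfold nm wnb nb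
  rw [Finset.sum_filter]

theorem nm_nonneg {r : V → ℝ} (hr : ∀ v, 0 ≤ r v) (x : V) : 0 ≤ nm G r x :=
  Finset.sum_nonneg fun v _ => hr v

theorem nm_mono {r s : V → ℝ} (h : ∀ v, r v ≤ s v) (x : V) : nm G r x ≤ nm G s x :=
  Finset.sum_le_sum fun v _ => h v

theorem nm_smul (c : ℝ) (r : V → ℝ) (x : V) : nm G (fun v => c * r v) x = c * nm G r x := by
  unfold nm wnb
  rw [Finset.mul_sum]

theorem zt_nonneg {ν r : V → ℝ} (hν : ∀ v, 0 ≤ ν v) (hr : ∀ v, 0 ≤ r v) (A : Finset V) (x : V) :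
    0 ≤ zt G ν r A x := by
  unfold zt
  split_ifs
  · exact div_nonneg (hν x) (nm_nonneg G hr x)
  · exact le_refl 0

/-- double counting -/
theorem dc (ν r s : V → ℝ) (A : Finset V) :
    ∑ x ∈ A, ν x * (nm G s x / nm G r x) = ∑ w, s w * nm G (zt G ν r A) w := by
  have h1 : ∀ w, s w * nm G (zt G ν r A) w =
      ∑ x ∈ A, if G.Adj w x then s w * (ν x / nm G r x) else 0 := by
    intro w
    rw [nm_eq, Finset.mul_sum, ← Finset.sum_filter_add_sum_filter_not Finset.univ (· ∈ A)]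
    have h2 : ∑ x ∈ Finset.univ.filter (fun x => ¬ x ∈ A),
        s w * (if G.Adj w x then zt G ν r A x else 0) = 0 := by
      refine Finset.sum_eq_zero fun x hx => ?_
      rw [Finset.mem_filter] at hx
      unfold zt
      rw [if_neg hx.2]
      simp
    rw [h2, add_zero, Finset.filter_mem_eq_inter, Finset.univ_inter]
    refine Finset.sum_congr rfl fun x hx => ?_
    unfold zt
    rw [if_pos hx]
    split_ifs
    · rfl
    · rw [mul_zero]
  simp only [h1]
  rw [Finset.sum_comm]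
  refine Finset.sum_congr rfl fun x _ => ?_
  rw [nm_eq G s x, Finset.sum_div, Finset.mul_sum]
  refine Finset.sum_congr rfl fun w _ => ?_
  by_cases h : G.Adj x w
  · rw [if_pos h, if_pos h.symm]
    ring
  · rw [if_neg h, if_neg fun h' => h h'.symm]
    simp

theorem core {C0 : ℝ} (hC : 1 ≤ C0) (ν : V → ℝ) (W : Finset V) (α : ℝ) (hNS : NSP G C0)
    (hν : ∀ v, 0 ≤ ν v) (hα : ∀ I, Stab G I → ms ν I ≤ α) (hW : 0 < ms ν W)
    (hαW : 2 * α ≤ ms ν W)
    (W0 : Finset V) (hW0 : W0 = W.filter (fun x => ∃ y ∈ W, G.Adj x y)) (π : V → ℝ)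
    (hπ : ∀ v, 0 ≤ π v) (hπW : ∀ v, π v ≠ 0 → v ∈ W0) (hπ1 : ∑ v, π v = 1)
    (hle : ∀ w ∈ W0, nm G (zt G ν π W0) w ≤ ms ν W0)
    (heq : ∀ w ∈ W0, π w ≠ 0 → nm G (zt G ν π W0) w = ms ν W0) :
    ∃ (ρ : V → ℝ) (W1 : Finset V), (∀ v, 0 ≤ ρ v) ∧ (∀ v, ρ v ≠ 0 → v ∈ W) ∧
      ∑ v, ρ v ≤ 1 ∧ Stab G (Finset.univ.filter (fun v => ρ v ≠ 0)) ∧ W1 ⊆ W ∧
      ms ν W ≤ 32 * C0 * ms ν W1 ∧ (∀ x ∈ W1, 0 < nm G ρ x) ∧
      ∀ w ∈ W, nm G (zt G ν ρ W1) w ≤ 16 * C0 * ms ν W := by
  have hC0 : 0 < C0 := by linarith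
  have hsub : W0 ⊆ W := by rw [hW0]; exact Finset.filter_subset _ _
  have hmsW0 : ms ν W ≤ 2 * ms ν W0 := by
    have h1 : ms ν W = ms ν W0 + ms ν (W.filter (fun x => ¬ ∃ y ∈ W, G.Adj x y)) := by
      unfold ms
      rw [hW0, Finset.sum_filter_add_sum_filter_not]
    have h2 : Stab G (W.filter (fun x => ¬ ∃ y ∈ W, G.Adj x y)) := by
      intro u hu v hv huv
      rw [Finset.mem_filter] at hu hv
      exact hu.2 ⟨v, hv.1, huv⟩
    have h3 := hα _ h2
    linarith
  have hpos : 0 < ms ν W0 := by linarith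
  have hle' : ms ν W0 ≤ ms ν W :=
    Finset.sum_le_sum_of_subset_of_nonneg hsub fun v _ _ => hν v
  -- the window
  obtain ⟨I, hIA, hIs, hI⟩ := hNS (zt G ν π W0) (zt_nonneg G hν hπ W0) (ms ν W0) (ms ν W0) hpos
    le_rfl π hπ
  have hA : ∑ v ∈ Finset.univ.filter (fun x => ms ν W0 ≤ nm G (zt G ν π W0) x ∧
      nm G (zt G ν π W0) x ≤ ms ν W0), π v = 1 := by
    rw [← hπ1, Finset.sum_filter]
    refine Finset.sum_congr rfl fun v _ => ?_
    split_ifs with h
    · rfl
    · by_contra h2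
      have h3 : π v ≠ 0 := fun h4 => h2 h4.symm
      have h4 := heq v (hπW v h3) h3
      exact h ⟨h4.ge, h4.le⟩
  rw [hA, div_self hpos.ne', mul_one] at hI
  obtain ⟨ρ, hρ⟩ : ∃ ρ : V → ℝ, ρ = fun v => if v ∈ I then π v else 0 := ⟨_, rfl⟩
  have hρ0 : ∀ v, 0 ≤ ρ v := by
    intro v
    rw [hρ]
    dsimp only
    split_ifs
    · exact hπ v
    · exact le_refl 0
  have hρπ : ∀ v, ρ v ≤ π v := by
    intro v
    rw [hρ]
    dsimp only
    split_ifs
    · exact le_refl _
    · exact hπ v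
  have hρI : ∀ v, ρ v ≠ 0 → v ∈ I := by
    intro v hv
    by_contra h
    rw [hρ] at hv
    exact hv (if_neg h)
  have hρW : ∀ v, ρ v ≠ 0 → v ∈ W0 := by
    intro v hv
    refine hπW v fun h => hv ?_
    exact le_antisymm (h ▸ hρπ v) (hρ0 v)
  obtain ⟨W1, hW1⟩ : ∃ W1 : Finset V, W1 = W0.filter (fun x => 0 < nm G π x ∧
      nm G π x ≤ 16 * C0 * nm G ρ x) := ⟨_, rfl⟩
  have hW1s : W1 ⊆ W0 := by rw [hW1]; exact Finset.filter_subset _ _
  have hW1p : ∀ x ∈ W1, 0 < nm G π x ∧ nm G π x ≤ 16 * C0 * nm G ρ x := by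
    intro x hx
    rw [hW1, Finset.mem_filter] at hx
    exact hx.2
  have hρpos : ∀ x ∈ W1, 0 < nm G ρ x := by
    intro x hx
    obtain ⟨h1, h2⟩ := hW1p x hx
    by_contra h3
    rw [not_lt] at h3
    have h4 : 16 * C0 * nm G ρ x ≤ 0 := mul_nonpos_of_nonneg_of_nonpos (by positivity) h3
    linarith
  refine ⟨ρ, W1, hρ0, fun v hv => hsub (hρW v hv), ?_, ?_, hW1s.trans hsub, ?_, hρpos, ?_⟩
  · rw [← hπ1]
    exact Finset.sum_le_sum fun v _ => hρπ v
  · intro u hu v hv
    rw [Finset.mem_filter] at hu hv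
    exact hIs u (hρI u hu.2) v (hρI v hv.2)
  · -- the mass of `W1`
    have h1 : ∑ x ∈ W0, ν x * (nm G ρ x / nm G π x) = (∑ v ∈ I, π v) * ms ν W0 := by
      rw [dc, Finset.sum_mul, ← Finset.sum_filter_add_sum_filter_not Finset.univ (· ∈ I)]
      have h2 : ∑ w ∈ Finset.univ.filter (fun w => ¬ w ∈ I), ρ w * nm G (zt G ν π W0) w = 0 := by
        refine Finset.sum_eq_zero fun w hw => ?_
        rw [Finset.mem_filter] at hw
        rw [hρ]
        dsimp only
        rw [if_neg hw.2, zero_mul]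
      rw [h2, add_zero, Finset.filter_mem_eq_inter, Finset.univ_inter]
      refine Finset.sum_congr rfl fun w hw => ?_
      have h3 : ρ w = π w := by
        rw [hρ]
        exact if_pos hw
      rw [h3]
      by_cases h4 : π w = 0
      · rw [h4, zero_mul, zero_mul]
      · rw [heq w (hπW w h4) h4]
    have h2 : ∀ x ∈ W0, ν x * (nm G ρ x / nm G π x) ≤
        (if x ∈ W1 then ν x else 0) + ν x / (16 * C0) := by
      intro x hx
      have hπx := nm_nonneg G hπ x
      have hρx := nm_nonneg G hρ0 x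
      have hρπx := nm_mono G hρπ x
      have h3 : 0 ≤ ν x / (16 * C0) := div_nonneg (hν x) (by positivity)
      by_cases h4 : x ∈ W1
      · rw [if_pos h4]
        have h5 : nm G ρ x / nm G π x ≤ 1 := div_le_one_of_le₀ hρπx hπx
        have h6 := mul_le_mul_of_nonneg_left h5 (hν x)
        linarith
      · rw [if_neg h4, zero_add]
        rcases hπx.eq_or_lt with h5 | h5
        · rw [← h5, div_zero, mul_zero]
          exact h3
        · have h6 : 16 * C0 * nm G ρ x < nm G π x := by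
            by_contra h7
            rw [not_lt] at h7
            refine h4 ?_
            rw [hW1, Finset.mem_filter]
            exact ⟨hx, h5, h7⟩
          have h7 : nm G ρ x / nm G π x ≤ 1 / (16 * C0) := by
            rw [div_le_div_iff₀ h5 (by positivity)]
            linarith
          have h8 := mul_le_mul_of_nonneg_left h7 (hν x)
          rw [mul_one_div] at h8
          exact h8
    have h3 := Finset.sum_le_sum h2
    rw [h1, Finset.sum_add_distrib, ← Finset.sum_div, ← Finset.sum_filter,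
      Finset.filter_mem_eq_inter, Finset.inter_eq_right.2 hW1s] at h3
    change (∑ v ∈ I, π v) * ms ν W0 ≤ ms ν W1 + ms ν W0 / (16 * C0) at h3
    have h4 : ms ν W0 ≤ 8 * C0 * ((∑ v ∈ I, π v) * ms ν W0) := by
      have h5 := mul_le_mul_of_nonneg_right hI hpos.le
      linarith
    have h5 : 8 * C0 * ((∑ v ∈ I, π v) * ms ν W0) ≤
        8 * C0 * (ms ν W1 + ms ν W0 / (16 * C0)) :=
      mul_le_mul_of_nonneg_left h3 (by positivity)
    have h6 : 8 * C0 * (ms ν W1 + ms ν W0 / (16 * C0)) = 8 * C0 * ms ν W1 + ms ν W0 / 2 := by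
      field_simp
      ring
    linarith
  · -- degrees
    intro w hw
    have h1 : ∀ x, zt G ν ρ W1 x ≤ 16 * C0 * zt G ν π W0 x := by
      intro x
      unfold zt
      by_cases hx : x ∈ W1
      · rw [if_pos hx, if_pos (hW1s hx)]
        obtain ⟨h2, h3⟩ := hW1p x hx
        have h4 := hρpos x hx
        rw [← mul_div_assoc, div_le_div_iff₀ h4 h2]
        have h5 := mul_le_mul_of_nonneg_left h3 (hν x)
        linarith
      · rw [if_neg hx]
        have := zt_nonneg G hν hπ W0 x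
        unfold zt at this
        positivity
    by_cases h2 : w ∈ W0
    · have h3 := nm_mono G h1 w
      rw [nm_smul] at h3
      have h4 := mul_le_mul_of_nonneg_left (hle w h2) (show (0 : ℝ) ≤ 16 * C0 by positivity)
      have h5 := mul_le_mul_of_nonneg_left hle' (show (0 : ℝ) ≤ 16 * C0 by positivity)
      linarith
    · have h3 : nm G (zt G ν ρ W1) w = 0 := by
        rw [nm_eq]
        refine Finset.sum_eq_zero fun y _ => ?_
        split_ifs with h4
        · unfold zt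
          rw [if_neg]
          intro h5
          refine h2 ?_
          rw [hW0, Finset.mem_filter]
          exact ⟨hw, y, hsub (hW1s h5), h4⟩
        · rfl
      rw [h3]
      positivity

end Bas1

/-- **Module `Bas1`**: the hubs of a new stage. -/
theorem stBas1 (h : StNash) : StBas1 := by
  intro C0 hC V _ G ν W α hNS hν hα hW hαW
  obtain ⟨W0, hW0⟩ : ∃ W0 : Finset V, W0 = W.filter (fun x => ∃ y ∈ W, G.Adj x y) := ⟨_, rfl⟩
  have hmsW0 : ms ν W ≤ 2 * ms ν W0 := by
    have h1 : ms ν W = ms ν W0 + ms ν (W.filter (fun x => ¬ ∃ y ∈ W, G.Adj x y)) := by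
      unfold ms
      rw [hW0, Finset.sum_filter_add_sum_filter_not]
    have h2 : Stab G (W.filter (fun x => ¬ ∃ y ∈ W, G.Adj x y)) := by
      intro u hu v hv huv
      rw [Finset.mem_filter] at hu hv
      exact hu.2 ⟨v, hv.1, huv⟩
    have h3 := hα _ h2
    linarith
  obtain ⟨p, hp, hpW, hp1, -, hle, heq⟩ := h V G ν W0 hν (by linarith) (by
    intro x hx
    rw [hW0, Finset.mem_filter] at hx
    obtain ⟨hxW, y, hy, hxy⟩ := hx
    refine ⟨y, ?_, hxy⟩
    rw [hW0, Finset.mem_filter]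
    exact ⟨hy, x, hxW, hxy.symm⟩)
  exact Bas1.core G hC ν W α hNS hν hα hW hαW W0 hW0 p hp hpW hp1 hle fun w _ hw => heq w hw

end Pool.Agent.Lib.FGF
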