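import Pool.Agent.Lib.FGF.Base

/-!
# Module `Bas2`: the weights of the neighbourhoods for the family `k`
-/

set_option autoImplicit false

namespace Pool.Agent.Lib.FGF

open Finset Classical
open Pool.Agent.Lib.FracGS (nb wnb TAdj pat)
open Pool.Agent.Lib.GSR3 (Stab Small Tree)

namespace Bas2

variable {V : Type} [Fintype V] {G : SimpleGraph V}

/-- The exceptional set of one member of the family. -/
theorem one {ν ρ : V → ℝ} {W W1 : Finset V} {C0 Λ N : ℝ} {k : V → ℝ} (hC0 : 1 ≤ C0)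
    (hΛ : 0 < Λ) (hN : 0 < N) (hν : ∀ v, 0 ≤ ν v) (hρ : ∀ v, 0 ≤ ρ v) (hk : ∀ v, 0 ≤ k v)
    (hkW : ∀ v, k v ≠ 0 → v ∈ W) (hks : ∑ v, k v ≤ Λ * ms ν W) (hpos : 0 < ms ν W)
    (hW : ms ν W ≤ 32 * C0 * ms ν W1)
    (hz : ∀ w ∈ W, nm G (zt G ν ρ W1) w ≤ 16 * C0 * ms ν W) :
    N * ms ν (W1.filter fun x => 1024 * C0 ^ 2 * Λ * N * ms ν W < nm G k x / nm G ρ x) ≤
      ms ν W1 / 2 := by
  have h1 := markov hν W1 (f := fun x => nm G k x / nm G ρ x)
    (fun x _ => div_nonneg (nm_nonneg hk x) (nm_nonneg hρ x)) (1024 * C0 ^ 2 * Λ * N * ms ν W)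
  have h2 : ∑ x ∈ W1, ν x * (nm G k x / nm G ρ x) ≤ (16 * C0 * ms ν W) * ∑ v, k v :=
    sum_zt_nm_le hk fun v hv => hz v (hkW v hv)
  have h3 : (16 * C0 * ms ν W) * ∑ v, k v ≤ (16 * C0 * ms ν W) * (Λ * ms ν W) :=
    mul_le_mul_of_nonneg_left hks (by positivity)
  set B := ms ν (W1.filter fun x => 1024 * C0 ^ 2 * Λ * N * ms ν W < nm G k x / nm G ρ x)
    with hB
  have h4 : 1024 * C0 ^ 2 * Λ * N * ms ν W * B ≤ (16 * C0 * ms ν W) * (Λ * ms ν W) :=
    h1.trans (h2.trans h3)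
  have h5 : (16 * C0 * Λ * ms ν W) * (64 * C0 * (N * B)) ≤
      (16 * C0 * Λ * ms ν W) * ms ν W := by
    calc (16 * C0 * Λ * ms ν W) * (64 * C0 * (N * B))
        = 1024 * C0 ^ 2 * Λ * N * ms ν W * B := by ring
      _ ≤ (16 * C0 * ms ν W) * (Λ * ms ν W) := h4
      _ = (16 * C0 * Λ * ms ν W) * ms ν W := by ring
  have h6 : 64 * C0 * (N * B) ≤ ms ν W := le_of_mul_le_mul_left h5 (by positivity)
  have h7 : (64 * C0) * (N * B) ≤ (64 * C0) * (ms ν W1 / 2) := by
    calc (64 * C0) * (N * B) ≤ ms ν W := h6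
      _ ≤ 32 * C0 * ms ν W1 := hW
      _ = (64 * C0) * (ms ν W1 / 2) := by ring
  exact le_of_mul_le_mul_left h7 (by positivity)

end Bas2

theorem stBas2 : StBas2 := by
  intro V _ G ν ρ W W1 C0 Λ J _ k hC0 hΛ hν hρ hk hkW hks hsub hpos hW hW1 hz
  have hN : (0 : ℝ) < (Fintype.card J + 1 : ℝ) := by positivity
  rcases hΛ.lt_or_eq with hΛ' | hΛ'
  · set Bd : J → Finset V := fun i => W1.filter fun x =>
      1024 * C0 ^ 2 * Λ * (Fintype.card J + 1) * ms ν W < nm G (k i) x / nm G ρ x with hBd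
    have h1 : ∀ i, (Fintype.card J + 1 : ℝ) * ms ν (Bd i) ≤ ms ν W1 / 2 := fun i =>
      Bas2.one hC0 hΛ' hN hν hρ (hk i) (hkW i) (hks i) hpos hW hz
    have h2 : ms ν ((Finset.univ : Finset J).biUnion Bd) ≤ ms ν W1 / 2 := by
      have h3 := ms_biUnion_le hν (Finset.univ : Finset J) Bd
      have h4 : (Fintype.card J + 1 : ℝ) * ∑ i, ms ν (Bd i) ≤
          Fintype.card J * (ms ν W1 / 2) := by
        rw [Finset.mul_sum]
        calc ∑ i, (Fintype.card J + 1 : ℝ) * ms ν (Bd i) ≤ ∑ _i : J, ms ν W1 / 2 :=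
              Finset.sum_le_sum fun i _ => h1 i
          _ = Fintype.card J * (ms ν W1 / 2) := by simp
      have h5 := ms_nonneg hν W1
      have h6 : (Fintype.card J + 1 : ℝ) * ∑ i, ms ν (Bd i) ≤
          (Fintype.card J + 1 : ℝ) * (ms ν W1 / 2) := by
        refine h4.trans ?_
        have : (0 : ℝ) ≤ ms ν W1 / 2 := by positivity
        nlinarith
      exact h3.trans (le_of_mul_le_mul_left h6 hN)
    refine ⟨W1 \ (Finset.univ : Finset J).biUnion Bd, Finset.sdiff_subset, ?_, ?_⟩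
    · have h3 : W1 = (W1 \ (Finset.univ : Finset J).biUnion Bd) ∪
          (W1 ∩ (Finset.univ : Finset J).biUnion Bd) := (Finset.sdiff_union_inter _ _).symm
      have h4 : ms ν W1 ≤ ms ν (W1 \ (Finset.univ : Finset J).biUnion Bd) +
          ms ν (W1 ∩ (Finset.univ : Finset J).biUnion Bd) := by
        conv_lhs => rw [h3]
        exact ms_union_le hν _ _
      have h5 := ms_mono hν (Finset.inter_subset_right (s₁ := W1)
        (s₂ := (Finset.univ : Finset J).biUnion Bd))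
      linarith
    · intro x hx i
      rw [Finset.mem_sdiff] at hx
      have h3 : ¬ (1024 * C0 ^ 2 * Λ * (Fintype.card J + 1) * ms ν W <
          nm G (k i) x / nm G ρ x) := by
        intro h
        exact hx.2 (Finset.mem_biUnion.mpr ⟨i, Finset.mem_univ _,
          Finset.mem_filter.mpr ⟨hx.1, h⟩⟩)
      rw [not_lt, div_le_iff₀ (hW1 x hx.1)] at h3
      exact h3
  · refine ⟨W1, Finset.Subset.refl _, ?_, ?_⟩
    · have := ms_nonneg hν W1
      linarith
    · intro x hx i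
      have h1 : ∑ v, k i v = 0 := by
        refine le_antisymm ?_ (Finset.sum_nonneg fun v _ => hk i v)
        have := hks i
        rw [← hΛ', zero_mul] at this
        exact this
      have h2 : ∀ v, k i v = 0 := fun v =>
        (Finset.sum_eq_zero_iff_of_nonneg fun v _ => hk i v).1 h1 v (Finset.mem_univ v)
      have h3 : nm G (k i) x = 0 := by
        rw [nm_eq]
        refine Finset.sum_eq_zero fun y _ => ?_
        rw [h2 y, ite_self]
      rw [h3, ← hΛ']
      simp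

end Pool.Agent.Lib.FGF
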