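import Pool.Agent.Lib.FGF.Stmts
import Pool.Agent.Lib.GSR3.Base

/-!
# Module `Bas3`: removing the negligible sets
-/

set_option autoImplicit false

namespace Pool.Agent.Lib.FGF

open Finset Classical
open Pool.Agent.Lib.FracGS (nb wnb TAdj pat mem_nb wnb_nonneg sum_mul_wnb)
open Pool.Agent.Lib.GSR3 (Stab Small Tree)
open Pool.Agent.Lib.GSR5 (NLC)

namespace Bas3

variable {V : Type} {G : SimpleGraph V} {ν : V → ℝ}

theorem ms_nonneg (hν : ∀ v, 0 ≤ ν v) (A : Finset V) : 0 ≤ ms ν A :=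
  Finset.sum_nonneg fun v _ => hν v

theorem ms_mono (hν : ∀ v, 0 ≤ ν v) {A B : Finset V} (h : A ⊆ B) : ms ν A ≤ ms ν B :=
  Finset.sum_le_sum_of_subset_of_nonneg h fun v _ _ => hν v

theorem ms_union (hν : ∀ v, 0 ≤ ν v) (A B : Finset V) : ms ν (A ∪ B) ≤ ms ν A + ms ν B := by
  have h1 := Finset.sum_union_inter (s₁ := A) (s₂ := B) (f := ν)
  have h2 := ms_nonneg hν (A ∩ B)
  unfold ms at *
  linarith

theorem ms_biUnion (hν : ∀ v, 0 ≤ ν v) {ι : Type} (s : Finset ι) (A : ι → Finset V) {c : ℝ}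
    (h : ∀ i ∈ s, ms ν (A i) ≤ c) : ms ν (s.biUnion A) ≤ s.card * c := by
  induction s using Finset.induction_on with
  | empty => simp [ms]
  | insert i s hi ih =>
    rw [Finset.biUnion_insert, Finset.card_insert_of_notMem hi]
    have h1 := ms_union hν (A i) (s.biUnion A)
    have h2 := h i (Finset.mem_insert_self _ _)
    have h3 := ih fun j hj => h j (Finset.mem_insert_of_mem hj)
    push_cast
    linarith

/-- small sets have small measure -/
theorem ms_small (hν : ∀ v, 0 ≤ ν v) {A : Finset V} {c ξ : ℝ} (h : Small G A c) (hc : 0 ≤ c)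
    (hst : ∀ I, Stab G I → ms ν I ≤ ξ) : ms ν A ≤ c * ξ := by
  obtain ⟨I, _, hI, hle⟩ := h ν hν
  exact hle.trans (mul_le_mul_of_nonneg_left (hst I hI) hc)

variable [Fintype V]

theorem nm_nonneg {r : V → ℝ} (h : ∀ v, 0 ≤ r v) (x : V) : 0 ≤ nm G r x := wnb_nonneg h x

theorem nm_pos_exists {r : V → ℝ} (h : ∀ v, 0 ≤ r v) {x : V} (hx : 0 < nm G r x) :
    ∃ y, G.Adj x y ∧ r y ≠ 0 := by
  by_contra hcon
  push Not at hcon
  have h1 : nm G r x = 0 := by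
    unfold nm wnb
    refine Finset.sum_eq_zero fun y hy => hcon y ?_
    exact (mem_nb.1 hy).2
  exact hx.ne' h1

theorem zt_nonneg {ρ : V → ℝ} (hν : ∀ v, 0 ≤ ν v) (hρ : ∀ v, 0 ≤ ρ v) (A : Finset V) (x : V) :
    0 ≤ zt G ν ρ A x := by
  unfold zt
  split_ifs
  · exact div_nonneg (hν x) (nm_nonneg hρ x)
  · exact le_rfl

/-- (ii): the vertices with a large weight of `zt` -/
theorem bound2 {ρ : V → ℝ} {W W1 : Finset V} {C0 ξ ξ' : ℝ} (hNS : NSP G C0) (hC0 : 1 ≤ C0)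
    (hξ' : 0 < ξ') (hξ : 0 ≤ ξ) (hν : ∀ v, 0 ≤ ν v) (hρ : ∀ v, 0 ≤ ρ v)
    (hst : ∀ I, Stab G I → ms ν I ≤ ξ) (hW1 : W1 ⊆ W)
    (hz : ∀ w ∈ W, nm G (zt G ν ρ W1) w ≤ 16 * C0) :
    ms ν (W1.filter fun x => ξ' < nm G (zt G ν ρ W1) x) ≤ 8 * C0 * (16 * C0 / ξ') * ξ := by
  rcases le_or_gt ξ' (16 * C0) with h | h
  · have h1 := hNS (zt G ν ρ W1) (zt_nonneg hν hρ W1) ξ' (16 * C0) hξ' h
    have h2 : (W1.filter fun x => ξ' < nm G (zt G ν ρ W1) x) ⊆ Finset.univ.filter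
        (fun x => ξ' ≤ nm G (zt G ν ρ W1) x ∧ nm G (zt G ν ρ W1) x ≤ 16 * C0) := by
      intro x hx
      rw [Finset.mem_filter] at hx ⊢
      exact ⟨Finset.mem_univ _, hx.2.le, hz x (hW1 hx.1)⟩
    exact ms_small hν (h1.mono_set h2) (by positivity) hst
  · have h2 : (W1.filter fun x => ξ' < nm G (zt G ν ρ W1) x) = ∅ := by
      rw [Finset.filter_eq_empty_iff]
      intro x hx h3
      have := hz x (hW1 hx)
      linarith
    rw [h2]
    have : ms ν (∅ : Finset V) = 0 := by simp [ms]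
    rw [this]
    positivity

/-- (iii): the vertices with a large scale -/
theorem bound3 {ρ b : V → ℝ} {W W1 : Finset V} {ξ ξ' : ℝ} (hξ' : 0 < ξ') (hξ : 0 ≤ ξ)
    (hν : ∀ v, 0 ≤ ν v) (hρ : ∀ v, 0 ≤ ρ v) (hρW : ∀ v, ρ v ≠ 0 → v ∈ W) (hρ1 : ∑ v, ρ v ≤ 1)
    (hW1 : W1 ⊆ W) (hb : ∀ x ∈ W, 0 < b x)
    (hbξ : ∀ w ∈ W, nm G (fun x => if x ∈ W then ν x / b x else 0) w ≤ ξ) :
    ms ν (W1.filter fun x => ξ' * b x < nm G ρ x) ≤ ξ / ξ' := by
  set f : V → ℝ := fun x => if x ∈ W then ν x / b x else 0 with hf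
  have hf0 : ∀ x, 0 ≤ f x := by
    intro x
    simp only [hf]
    split_ifs with h
    · exact div_nonneg (hν x) (hb x h).le
    · exact le_rfl
  have h1 : ∑ x, f x * nm G ρ x = ∑ y, ρ y * nm G f y := sum_mul_wnb f
  have h2 : ∑ y, ρ y * nm G f y ≤ ξ := by
    calc ∑ y, ρ y * nm G f y ≤ ∑ y, ρ y * ξ := by
          refine Finset.sum_le_sum fun y _ => ?_
          by_cases hy : ρ y = 0
          · rw [hy, zero_mul, zero_mul]
          · exact mul_le_mul_of_nonneg_left (hbξ y (hρW y hy)) (hρ y)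
      _ = (∑ y, ρ y) * ξ := by rw [Finset.sum_mul]
      _ ≤ 1 * ξ := mul_le_mul_of_nonneg_right hρ1 hξ
      _ = ξ := one_mul ξ
  have h3 : ξ' * ms ν (W1.filter fun x => ξ' * b x < nm G ρ x) ≤ ∑ x, f x * nm G ρ x := by
    calc ξ' * ms ν (W1.filter fun x => ξ' * b x < nm G ρ x)
        = ∑ x ∈ W1.filter (fun x => ξ' * b x < nm G ρ x), ξ' * ν x := by
          unfold ms
          rw [Finset.mul_sum]
      _ ≤ ∑ x ∈ W1.filter (fun x => ξ' * b x < nm G ρ x), f x * nm G ρ x := by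
          refine Finset.sum_le_sum fun x hx => ?_
          rw [Finset.mem_filter] at hx
          have hxW := hW1 hx.1
          have h4 : f x = ν x / b x := by simp only [hf, if_pos hxW]
          have h5 := hb x hxW
          rw [h4, div_mul_eq_mul_div, le_div_iff₀ h5]
          have h6 := hν x
          nlinarith [hx.2]
      _ ≤ ∑ x, f x * nm G ρ x :=
          Finset.sum_le_sum_of_subset_of_nonneg (Finset.subset_univ _) fun x _ _ =>
            mul_nonneg (hf0 x) (nm_nonneg hρ x)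
  rw [le_div_iff₀ hξ']
  rw [h1] at h3
  linarith

/-- (iv): the atoms -/
theorem bound4 {κ C0 : ℝ} (h2 : StAtom) (hκ : 1 ≤ κ) (hC0 : 1 ≤ C0) {ρ : V → ℝ}
    {W W1 : Finset V} {ξ ξ'' : ℝ} (hnb : ∀ v, Small G (nb G Finset.univ v) κ)
    (hlc : NLC G Finset.univ κ C0) (hξ'' : 0 < ξ'') (hν : ∀ v, 0 ≤ ν v)
    (hρ : ∀ v, 0 ≤ ρ v) (hρW : ∀ v, ρ v ≠ 0 → v ∈ W) (hst : ∀ I, Stab G I → ms ν I ≤ ξ)
    (hpos : ∀ x ∈ W1, 0 < nm G ρ x)
    (hz : ∀ w ∈ W, nm G (zt G ν ρ W1) w ≤ 16 * C0) :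
    ms ν (W1.filter fun x => ρ x = 0 ∧ ξ'' * nm G ρ x < ν x) ≤
      (2 * (⌊16 * C0 / ξ''⌋₊ : ℝ) + 1) * C0 * ξ := by
  set A := W1.filter fun x => ρ x = 0 ∧ ξ'' * nm G ρ x < ν x with hA
  have hex : ∀ x : V, ∃ y : V, x ∈ A → G.Adj x y ∧ ρ y ≠ 0 := by
    intro x
    by_cases hx : x ∈ A
    · obtain ⟨y, hy⟩ := nm_pos_exists hρ (hpos x (Finset.mem_filter.1 hx).1)
      exact ⟨y, fun _ => hy⟩
    · exact ⟨x, fun h => absurd h hx⟩
  choose y hy using hex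
  have hsm := h2 κ C0 hκ (by linarith) V G hnb hlc A y ⌊16 * C0 / ξ''⌋₊
    (fun x hx => (hy x hx).1) (fun x hx h => (hy x hx).2 (Finset.mem_filter.1 h).2.1) ?_
  · exact ms_small hν hsm (by positivity) hst
  · intro x hx
    apply Nat.le_floor
    rw [le_div_iff₀ hξ'']
    have h3 := hz (y x) (hρW _ (hy x hx).2)
    refine le_trans ?_ h3
    have hz0 := zt_nonneg (G := G) hν hρ W1
    calc ((A.filter fun z => G.Adj z (y x)).card : ℝ) * ξ''
        = ∑ z ∈ A.filter (fun z => G.Adj z (y x)), ξ'' := by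
          rw [Finset.sum_const, nsmul_eq_mul]
      _ ≤ ∑ z ∈ A.filter (fun z => G.Adj z (y x)), zt G ν ρ W1 z := by
          refine Finset.sum_le_sum fun z hz' => ?_
          have hzA := Finset.mem_filter.1 (Finset.mem_filter.1 hz').1
          unfold zt
          rw [if_pos hzA.1, le_div_iff₀ (hpos z hzA.1)]
          exact hzA.2.2.le
      _ ≤ ∑ z ∈ nb G Finset.univ (y x), zt G ν ρ W1 z := by
          refine Finset.sum_le_sum_of_subset_of_nonneg ?_ fun z _ _ => hz0 z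
          intro z hz'
          rw [mem_nb]
          exact ⟨Finset.mem_univ _, (Finset.mem_filter.1 hz').2.symm⟩

/-- (v): the vertices with a large value of `k` -/
theorem bound5 {ρ k : V → ℝ} {W W1 : Finset V} {ξ'' Λ : ℝ} (hξ'' : 0 < ξ'')
    (hk : ∀ v, 0 ≤ k v) (hkΛ : ∑ v, k v ≤ Λ * ms ν W)
    (hpos : ∀ x ∈ W1, 0 < nm G ρ x) (hW : 0 < ms ν W) :
    ms ν (W1.filter fun x => ν x ≤ ξ'' * nm G ρ x ∧ ms ν W * nm G ρ x < k x) ≤ Λ * ξ'' := by
  set A := W1.filter fun x => ν x ≤ ξ'' * nm G ρ x ∧ ms ν W * nm G ρ x < k x with hA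
  have h1 : ms ν W * ms ν A ≤ ξ'' * (Λ * ms ν W) := by
    calc ms ν W * ms ν A = ∑ x ∈ A, ms ν W * ν x := by
          conv_lhs => rw [show ms ν A = ∑ x ∈ A, ν x from rfl, Finset.mul_sum]
      _ ≤ ∑ x ∈ A, ξ'' * k x := by
          refine Finset.sum_le_sum fun x hx => ?_
          have hx' := Finset.mem_filter.1 hx
          calc ms ν W * ν x ≤ ms ν W * (ξ'' * nm G ρ x) :=
                mul_le_mul_of_nonneg_left hx'.2.1 hW.le
            _ = ξ'' * (ms ν W * nm G ρ x) := by ring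
            _ ≤ ξ'' * k x := mul_le_mul_of_nonneg_left hx'.2.2.le hξ''.le
      _ = ξ'' * ∑ x ∈ A, k x := by rw [Finset.mul_sum]
      _ ≤ ξ'' * ∑ x, k x := mul_le_mul_of_nonneg_left
          (Finset.sum_le_sum_of_subset_of_nonneg (Finset.subset_univ _) fun x _ _ => hk x) hξ''.le
      _ ≤ ξ'' * (Λ * ms ν W) := mul_le_mul_of_nonneg_left hkΛ hξ''.le
  have h2 : ms ν W * ms ν A ≤ ms ν W * (Λ * ξ'') := by
    calc ms ν W * ms ν A ≤ ξ'' * (Λ * ms ν W) := h1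
      _ = ms ν W * (Λ * ξ'') := by ring
  exact le_of_mul_le_mul_left h2 hW

end Bas3

open Bas3

/-- Module `Bas3`. -/
theorem stBas3 (h1 : StNS) (h2 : StAtom) : StBas3 := by
  intro κ C0 hκ hC0 n Λ H ξ' q hΛ hH hξ'
  -- the constants
  set ξ'' : ℝ := min ξ' (1 / (4 * H * (q * Λ + 1))) with hξ''def
  have hqΛ : 0 ≤ (q : ℝ) * Λ := mul_nonneg (Nat.cast_nonneg q) hΛ
  have hden : 0 < 4 * H * (q * Λ + 1) := by positivity
  have hξ'' : 0 < ξ'' := lt_min hξ' (by positivity)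
  have hξ''1 : ξ'' ≤ ξ' := min_le_left _ _
  have hξ''2 : q * (Λ * ξ'') ≤ 1 / (4 * H) := by
    have h3 : ξ'' ≤ 1 / (4 * H * (q * Λ + 1)) := min_le_right _ _
    have h4 : q * (Λ * ξ'') ≤ (q * Λ + 1) * (1 / (4 * H * (q * Λ + 1))) := by
      calc q * (Λ * ξ'') = (q * Λ) * ξ'' := by ring
        _ ≤ (q * Λ + 1) * ξ'' := by nlinarith
        _ ≤ (q * Λ + 1) * (1 / (4 * H * (q * Λ + 1))) :=
          mul_le_mul_of_nonneg_left h3 (by linarith)
    refine h4.trans (le_of_eq ?_)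
    have h5 : (q : ℝ) * Λ + 1 ≠ 0 := by positivity
    have h6 : H ≠ 0 := by positivity
    field_simp
  set D : ℝ := 1 + 8 * C0 * (16 * C0 / ξ') + n * (1 / ξ') +
    (2 * (⌊16 * C0 / ξ''⌋₊ : ℝ) + 1) * C0 with hD
  have hD1 : 1 ≤ D := by
    have h3 : 0 ≤ 8 * C0 * (16 * C0 / ξ') := by positivity
    have h4 : 0 ≤ (n : ℝ) * (1 / ξ') := by positivity
    have h5 : 0 ≤ (2 * (⌊16 * C0 / ξ''⌋₊ : ℝ) + 1) * C0 := by positivity
    linarith
  have hD0 : 0 < D := by linarith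
  refine ⟨1 / (4 * H * D), by positivity, ?_⟩
  intro V _ G ν ρ W W1 b J _ k hnb hlc hν hν1 hst hρ hρW hρ1 hρS hW1 hHW hpos hz hb hbξ hJ hk hkΛ
  set ξ : ℝ := 1 / (4 * H * D) with hξdef
  have hξ : 0 < ξ := by positivity
  have hDξ : D * ξ = 1 / (4 * H) := by
    rw [hξdef]
    have h6 : H ≠ 0 := by positivity
    field_simp
  have hNS : NSP G C0 := h1 κ C0 hκ (by linarith) V G hnb hlc
  have hW1pos : 0 < ms ν W1 := by
    by_contra hcon
    push Not at hcon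
    have h3 : H * ms ν W1 ≤ 0 := mul_nonpos_of_nonneg_of_nonpos (by linarith) hcon
    linarith
  have hWpos : 0 < ms ν W := lt_of_lt_of_le hW1pos (ms_mono hν hW1)
  -- the pieces
  set R1 := W1.filter fun x => ρ x ≠ 0 with hR1
  set R2 := W1.filter fun x => ξ' < nm G (zt G ν ρ W1) x with hR2
  set R3 := (Finset.range n).biUnion fun c => W1.filter fun x => ξ' * b c x < nm G ρ x with hR3
  set R4 := W1.filter fun x => ρ x = 0 ∧ ξ'' * nm G ρ x < ν x with hR4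
  set R5 := (Finset.univ : Finset J).biUnion fun i =>
    W1.filter fun x => ν x ≤ ξ'' * nm G ρ x ∧ ms ν W * nm G ρ x < k i x with hR5
  have b1 : ms ν R1 ≤ 1 * ξ := by
    rw [one_mul]
    refine hst _ ?_
    intro u hu v hv
    rw [hR1, Finset.mem_filter] at hu hv
    exact hρS u (Finset.mem_filter.2 ⟨Finset.mem_univ _, hu.2⟩) v
      (Finset.mem_filter.2 ⟨Finset.mem_univ _, hv.2⟩)
  have b2 : ms ν R2 ≤ 8 * C0 * (16 * C0 / ξ') * ξ :=
    bound2 hNS hC0 hξ' hξ.le hν hρ hst hW1 hz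
  have b3 : ms ν R3 ≤ n * (1 / ξ') * ξ := by
    have h3 := ms_biUnion hν (Finset.range n)
      (fun c => W1.filter fun x => ξ' * b c x < nm G ρ x) (c := ξ / ξ') fun c hc =>
        bound3 hξ' hξ.le hν hρ hρW hρ1 hW1 (hb c (Finset.mem_range.1 hc))
          (hbξ c (Finset.mem_range.1 hc))
    rw [Finset.card_range] at h3
    refine h3.trans (le_of_eq ?_)
    ring
  have b4 : ms ν R4 ≤ (2 * (⌊16 * C0 / ξ''⌋₊ : ℝ) + 1) * C0 * ξ :=
    bound4 h2 hκ hC0 hnb hlc hξ'' hν hρ hρW hst hpos hz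
  have b5 : ms ν R5 ≤ q * (Λ * ξ'') := by
    have h3 := ms_biUnion hν (Finset.univ : Finset J)
      (fun i => W1.filter fun x => ν x ≤ ξ'' * nm G ρ x ∧ ms ν W * nm G ρ x < k i x)
      (c := Λ * ξ'') fun i _ => bound5 hξ'' (hk i) (hkΛ i) hpos hWpos
    rw [Finset.card_univ] at h3
    refine h3.trans ?_
    have h4 : (Fintype.card J : ℝ) ≤ q := by exact_mod_cast hJ
    exact mul_le_mul_of_nonneg_right h4 (mul_nonneg hΛ hξ''.le)
  set R := R1 ∪ (R2 ∪ (R3 ∪ (R4 ∪ R5))) with hR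
  have bR : ms ν R ≤ ms ν W1 / 2 := by
    have c1 := ms_union hν R1 (R2 ∪ (R3 ∪ (R4 ∪ R5)))
    have c2 := ms_union hν R2 (R3 ∪ (R4 ∪ R5))
    have c3 := ms_union hν R3 (R4 ∪ R5)
    have c4 := ms_union hν R4 R5
    have h3 : ms ν R ≤ D * ξ + q * (Λ * ξ'') := by
      rw [hD]
      linarith
    rw [hDξ] at h3
    have h4 : 1 / (4 * H) + 1 / (4 * H) ≤ ms ν W1 / 2 := by
      have h5 : 1 / (4 * H) + 1 / (4 * H) = 1 / H / 2 := by ring
      rw [h5]
      have h6 : 1 / H ≤ ms ν W1 := by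
        rw [div_le_iff₀ (by linarith)]
        linarith
      linarith
    linarith
  refine ⟨W1 \ R, Finset.sdiff_subset, ?_, ?_, ?_, ?_, ?_, ?_⟩
  · have h3 : ms ν W1 ≤ ms ν (W1 \ R) + ms ν R := by
      refine (ms_mono hν ?_).trans (ms_union hν (W1 \ R) R)
      intro x hx
      rw [Finset.mem_union, Finset.mem_sdiff]
      tauto
    linarith
  · intro x hx
    rw [Finset.mem_sdiff] at hx
    by_contra h
    refine hx.2 ?_
    rw [hR, Finset.mem_union]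
    exact Or.inl (Finset.mem_filter.2 ⟨hx.1, h⟩)
  · intro x hx
    rw [Finset.mem_sdiff] at hx
    by_contra h
    refine hx.2 ?_
    rw [hR, Finset.mem_union, Finset.mem_union]
    exact Or.inr (Or.inl (Finset.mem_filter.2 ⟨hx.1, not_le.1 h⟩))
  · intro x hx
    rw [Finset.mem_sdiff] at hx
    by_contra h
    refine hx.2 ?_
    rw [hR, Finset.mem_union, Finset.mem_union, Finset.mem_union, Finset.mem_union]
    by_cases h0 : ρ x = 0
    · refine Or.inr (Or.inr (Or.inr (Or.inl (Finset.mem_filter.2 ⟨hx.1, h0, ?_⟩))))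
      refine lt_of_le_of_lt ?_ (not_le.1 h)
      exact mul_le_mul_of_nonneg_right hξ''1 (nm_nonneg hρ x)
    · exact Or.inl (Finset.mem_filter.2 ⟨hx.1, h0⟩)
  · intro c hc x hx
    rw [Finset.mem_sdiff] at hx
    by_contra h
    refine hx.2 ?_
    rw [hR, Finset.mem_union, Finset.mem_union, Finset.mem_union]
    refine Or.inr (Or.inr (Or.inl ?_))
    rw [hR3, Finset.mem_biUnion]
    exact ⟨c, Finset.mem_range.2 hc, Finset.mem_filter.2 ⟨hx.1, not_le.1 h⟩⟩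
  · intro x hx i
    rw [Finset.mem_sdiff] at hx
    by_contra h
    refine hx.2 ?_
    rw [hR, Finset.mem_union, Finset.mem_union, Finset.mem_union, Finset.mem_union]
    by_cases h0 : ρ x = 0
    · by_cases h3 : ν x ≤ ξ'' * nm G ρ x
      · refine Or.inr (Or.inr (Or.inr (Or.inr ?_)))
        rw [hR5, Finset.mem_biUnion]
        exact ⟨i, Finset.mem_univ _, Finset.mem_filter.2 ⟨hx.1, h3, not_le.1 h⟩⟩
      · exact Or.inr (Or.inr (Or.inr (Or.inl (Finset.mem_filter.2 ⟨hx.1, h0, not_le.1 h3⟩))))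
    · exact Or.inl (Finset.mem_filter.2 ⟨hx.1, h0⟩)

end Pool.Agent.Lib.FGF
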