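import Pool.Agent.Lib.FGF.Stmts
import Pool.Agent.Lib.FracGS.Base
import Pool.Agent.Lib.GSR3.Base

/-!
# The fractional Gyarfas-Sumner conjecture: basic lemmas
-/

set_option autoImplicit false

namespace Pool.Agent.Lib.FGF

open Finset Classical
open Pool.Agent.Lib.FracGS (nb wnb TAdj pat sum_mul_wnb wnb_eq_sum_ite)
open Pool.Agent.Lib.GSR3 (Stab Small Tree)

section measure

variable {V : Type}

/-! ### Weights of sets -/

lemma ms_nonneg {r : V → ℝ} (h : ∀ v, 0 ≤ r v) (A : Finset V) : 0 ≤ ms r A :=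
  Finset.sum_nonneg fun v _ => h v

lemma ms_mono {r : V → ℝ} (h : ∀ v, 0 ≤ r v) {A B : Finset V} (hAB : A ⊆ B) :
    ms r A ≤ ms r B :=
  Finset.sum_le_sum_of_subset_of_nonneg hAB fun v _ _ => h v

lemma ms_union_le {r : V → ℝ} (h : ∀ v, 0 ≤ r v) (A B : Finset V) :
    ms r (A ∪ B) ≤ ms r A + ms r B := by
  have h1 := Finset.sum_union_inter (s₁ := A) (s₂ := B) (f := r)
  have h2 := ms_nonneg h (A ∩ B)
  unfold ms at *
  linarith

lemma ms_sdiff (r : V → ℝ) {A B : Finset V} (hAB : A ⊆ B) :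
    ms r (B \ A) = ms r B - ms r A := by
  have h := Finset.sum_sdiff (f := r) hAB
  unfold ms at *
  linarith

lemma ms_filter_add (r : V → ℝ) (A : Finset V) (p : V → Prop) :
    ms r (A.filter p) + ms r (A.filter (fun x => ¬ p x)) = ms r A :=
  Finset.sum_filter_add_sum_filter_not _ _ _

lemma ms_biUnion_le {r : V → ℝ} (h : ∀ v, 0 ≤ r v) {ι : Type} (s : Finset ι)
    (S : ι → Finset V) : ms r (s.biUnion S) ≤ ∑ i ∈ s, ms r (S i) := by
  induction s using Finset.induction_on with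
  | empty => simp [ms]
  | insert i s hi ih =>
    rw [Finset.biUnion_insert, Finset.sum_insert hi]
    exact (ms_union_le h _ _).trans (add_le_add_right ih _)

/-- Markov's inequality. -/
lemma markov {ν f : V → ℝ} (hν : ∀ v, 0 ≤ ν v) (A : Finset V) (hf : ∀ x ∈ A, 0 ≤ f x) (t : ℝ) :
    t * ms ν (A.filter (fun x => t < f x)) ≤ ∑ x ∈ A, ν x * f x := by
  unfold ms
  rw [Finset.mul_sum, Finset.sum_filter]
  refine Finset.sum_le_sum fun x hx => ?_
  split_ifs with h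
  · rw [mul_comm]
    exact mul_le_mul_of_nonneg_left h.le (hν x)
  · exact mul_nonneg (hν x) (hf x hx)

lemma small_ms {G : SimpleGraph V} {ν : V → ℝ} {A : Finset V} {c α : ℝ}
    (hν : ∀ v, 0 ≤ ν v) (hc : 0 ≤ c) (h : Small G A c) (hα : ∀ I, Stab G I → ms ν I ≤ α) :
    ms ν A ≤ c * α := by
  obtain ⟨I, -, hI, hle⟩ := h ν hν
  exact hle.trans (mul_le_mul_of_nonneg_left (hα I hI) hc)

variable [Fintype V] {G : SimpleGraph V}

/-! ### Weights of neighbourhoods -/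

lemma nm_eq (r : V → ℝ) (x : V) : nm G r x = ∑ y, if G.Adj x y then r y else 0 :=
  wnb_eq_sum_ite x

lemma nm_eq_filter (r : V → ℝ) (x : V) :
    nm G r x = ∑ y ∈ Finset.univ.filter (fun y => G.Adj x y), r y := rfl

lemma nm_nonneg {r : V → ℝ} (h : ∀ v, 0 ≤ r v) (x : V) : 0 ≤ nm G r x :=
  FracGS.wnb_nonneg h x

lemma nm_mono {r r' : V → ℝ} (h : ∀ v, r v ≤ r' v) (x : V) : nm G r x ≤ nm G r' x :=
  Finset.sum_le_sum fun v _ => h v

lemma nm_congr {r r' : V → ℝ} {x : V} (h : ∀ y, G.Adj x y → r y = r' y) :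
    nm G r x = nm G r' x := by
  rw [nm_eq, nm_eq]
  refine Finset.sum_congr rfl fun y _ => ?_
  split_ifs with hy
  · exact h y hy
  · rfl

lemma nm_zero (x : V) : nm G (fun _ => (0 : ℝ)) x = 0 := by
  simp [nm_eq]

lemma nm_add (r r' : V → ℝ) (x : V) :
    nm G (fun v => r v + r' v) x = nm G r x + nm G r' x := by
  rw [nm_eq_filter, nm_eq_filter, nm_eq_filter, Finset.sum_add_distrib]

lemma nm_smul (c : ℝ) (r : V → ℝ) (x : V) : nm G (fun v => c * r v) x = c * nm G r x := by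
  rw [nm_eq_filter, nm_eq_filter, Finset.mul_sum]

lemma nm_sum {ι : Type} (s : Finset ι) (r : ι → V → ℝ) (x : V) :
    nm G (fun v => ∑ i ∈ s, r i v) x = ∑ i ∈ s, nm G (r i) x := by
  simp only [nm_eq_filter]
  exact Finset.sum_comm

lemma nm_delta (v x : V) :
    nm G (fun u => if u = v then (1 : ℝ) else 0) x = if G.Adj x v then 1 else 0 := by
  rw [nm_eq, Finset.sum_eq_single v]
  · simp
  · intro y _ hy
    simp [hy]
  · intro h
    exact absurd (Finset.mem_univ v) h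

/-- Double counting. -/
lemma nm_swap (f g : V → ℝ) : ∑ x, f x * nm G g x = ∑ y, g y * nm G f y :=
  sum_mul_wnb f

lemma nm_le_sum {r : V → ℝ} (h : ∀ v, 0 ≤ r v) (x : V) : nm G r x ≤ ∑ v, r v :=
  Finset.sum_le_sum_of_subset_of_nonneg (Finset.subset_univ _) fun v _ _ => h v

lemma sum_le_nm {r : V → ℝ} (h : ∀ v, 0 ≤ r v) {x : V} {Y : Finset V}
    (hY : ∀ y ∈ Y, G.Adj x y) : ∑ y ∈ Y, r y ≤ nm G r x := by
  rw [nm_eq_filter]
  refine Finset.sum_le_sum_of_subset_of_nonneg ?_ fun v _ _ => h v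
  intro y hy
  exact Finset.mem_filter.mpr ⟨Finset.mem_univ _, hY y hy⟩

lemma le_nm {r : V → ℝ} (h : ∀ v, 0 ≤ r v) {x y : V} (hxy : G.Adj x y) : r y ≤ nm G r x := by
  have := sum_le_nm (G := G) h (x := x) (Y := {y}) (by simpa using hxy)
  simpa using this

lemma exists_of_nm_pos {r : V → ℝ} {x : V} (h : 0 < nm G r x) : ∃ y, G.Adj x y ∧ r y ≠ 0 := by
  by_contra hcon
  push Not at hcon
  have : nm G r x = 0 := by
    rw [nm_eq]
    refine Finset.sum_eq_zero fun y _ => ?_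
    split_ifs with hy
    · exact hcon y hy
    · rfl
  rw [this] at h
  exact lt_irrefl _ h

/-! ### Closed neighbourhoods -/

lemma cm_nonneg {r : V → ℝ} (h : ∀ v, 0 ≤ r v) (x : V) : 0 ≤ cm G r x :=
  add_nonneg (h x) (nm_nonneg h x)

lemma cm_mono {r r' : V → ℝ} (h : ∀ v, r v ≤ r' v) (x : V) : cm G r x ≤ cm G r' x :=
  add_le_add (h x) (nm_mono h x)

lemma cm_zero (x : V) : cm G (fun _ => (0 : ℝ)) x = 0 := by
  unfold cm
  rw [nm_zero, add_zero]

lemma cm_add (r r' : V → ℝ) (x : V) :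
    cm G (fun v => r v + r' v) x = cm G r x + cm G r' x := by
  unfold cm
  rw [nm_add]
  ring

lemma cm_smul (c : ℝ) (r : V → ℝ) (x : V) : cm G (fun v => c * r v) x = c * cm G r x := by
  unfold cm
  rw [nm_smul]
  ring

lemma cm_sum {ι : Type} (s : Finset ι) (r : ι → V → ℝ) (x : V) :
    cm G (fun v => ∑ i ∈ s, r i v) x = ∑ i ∈ s, cm G (r i) x := by
  unfold cm
  rw [nm_sum, Finset.sum_add_distrib]

lemma cm_delta (v x : V) :
    cm G (fun u => if u = v then (1 : ℝ) else 0) x = if x = v ∨ G.Adj x v then 1 else 0 := by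
  unfold cm
  rw [nm_delta]
  by_cases h1 : x = v
  · subst h1
    simp
  · by_cases h2 : G.Adj x v
    · simp [h1, h2]
    · simp [h1, h2]

lemma cm_swap (f g : V → ℝ) : ∑ x, f x * cm G g x = ∑ y, g y * cm G f y := by
  unfold cm
  simp only [mul_add, Finset.sum_add_distrib]
  rw [nm_swap]
  congr 1
  exact Finset.sum_congr rfl fun x _ => mul_comm _ _

lemma le_cm_self {r : V → ℝ} (h : ∀ v, 0 ≤ r v) (x : V) : r x ≤ cm G r x :=
  le_add_of_nonneg_right (nm_nonneg h x)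

lemma nm_le_cm {r : V → ℝ} (h : ∀ v, 0 ≤ r v) (x : V) : nm G r x ≤ cm G r x :=
  le_add_of_nonneg_left (h x)

lemma le_cm_adj {r : V → ℝ} (h : ∀ v, 0 ≤ r v) {x y : V} (hxy : G.Adj x y) :
    r y ≤ cm G r x :=
  (le_nm h hxy).trans (nm_le_cm h x)

/-! ### The weights `zt` -/

lemma zt_mem {ν r : V → ℝ} {A : Finset V} {x : V} (h : x ∈ A) :
    zt G ν r A x = ν x / nm G r x := by
  unfold zt
  rw [if_pos h]

lemma zt_notMem {ν r : V → ℝ} {A : Finset V} {x : V} (h : x ∉ A) : zt G ν r A x = 0 := by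
  unfold zt
  rw [if_neg h]

lemma zt_nonneg {ν r : V → ℝ} (hν : ∀ v, 0 ≤ ν v) (hr : ∀ v, 0 ≤ r v) (A : Finset V) (x : V) :
    0 ≤ zt G ν r A x := by
  unfold zt
  split_ifs
  · exact div_nonneg (hν x) (nm_nonneg hr x)
  · exact le_refl _

lemma zt_mono {ν r : V → ℝ} (hν : ∀ v, 0 ≤ ν v) (hr : ∀ v, 0 ≤ r v) {A B : Finset V}
    (hAB : A ⊆ B) (x : V) : zt G ν r A x ≤ zt G ν r B x := by
  by_cases h : x ∈ A
  · rw [zt_mem h, zt_mem (hAB h)]
  · rw [zt_notMem h]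
    exact zt_nonneg hν hr B x

lemma nm_zt_mono {ν r : V → ℝ} (hν : ∀ v, 0 ≤ ν v) (hr : ∀ v, 0 ≤ r v) {A B : Finset V}
    (hAB : A ⊆ B) (x : V) : nm G (zt G ν r A) x ≤ nm G (zt G ν r B) x :=
  nm_mono (zt_mono hν hr hAB) x

lemma sum_zt (ν r : V → ℝ) (A : Finset V) (f : V → ℝ) :
    ∑ x, zt G ν r A x * f x = ∑ x ∈ A, ν x / nm G r x * f x := by
  rw [← Finset.sum_subset (Finset.subset_univ A)]
  · refine Finset.sum_congr rfl fun x hx => ?_
    rw [zt_mem hx]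
  · intro x _ hx
    rw [zt_notMem hx, zero_mul]

/-- The total weight of the paths. -/
lemma sum_mul_nm_zt {ν r : V → ℝ} {A : Finset V} (h : ∀ x ∈ A, nm G r x ≠ 0) :
    ∑ y, r y * nm G (zt G ν r A) y = ms ν A := by
  rw [nm_swap, sum_zt]
  unfold ms
  refine Finset.sum_congr rfl fun x hx => ?_
  rw [div_mul_cancel₀ _ (h x hx)]

/-- Averaging a function of the pairs `(x, y)` over the paths. -/
lemma sum_zt_nm_le {ν r f : V → ℝ} {A : Finset V} {D : ℝ} (hf : ∀ v, 0 ≤ f v) (hD : ∀ v, f v ≠ 0 → nm G (zt G ν r A) v ≤ D) :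
    ∑ x ∈ A, ν x * (nm G f x / nm G r x) ≤ D * ∑ v, f v := by
  have h1 : ∑ x ∈ A, ν x * (nm G f x / nm G r x) = ∑ x, zt G ν r A x * nm G f x := by
    rw [sum_zt]
    refine Finset.sum_congr rfl fun x _ => ?_
    ring
  rw [h1, nm_swap, Finset.mul_sum]
  refine Finset.sum_le_sum fun v _ => ?_
  by_cases h : f v = 0
  · rw [h, zero_mul, mul_zero]
  · rw [mul_comm]
    exact mul_le_mul_of_nonneg_right (hD v h) (hf v)

end measure

/-! ### Trees, masters -/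

section masters

variable {V : Type} {G : SimpleGraph V} {M : ℕ}

lemma Tree.le {j d : ℕ} {φ : List (Fin M) → V} (h : Tree G d M φ) (hj : j ≤ d) :
    Tree G j M φ :=
  ⟨fun u w hu hw => h.inj u w (hu.trans hj) (hw.trans hj),
    fun u w hu hw => h.adj u w (hu.trans hj) (hw.trans hj)⟩

variable [Fintype V]

lemma Dom.mono {j : ℕ} {v : V} {m m' : V → ℝ} {L L' : Finset V} (h : Dom G M j v m L)
    (hm : ∀ u, m u ≤ m' u) (hL : L' ⊆ L) : Dom G M j v m' L' := by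
  intro φ hφ hv hcon
  refine h φ hφ hv fun u hu hl => ?_
  obtain ⟨h1, h2⟩ := hcon u hu hl
  exact ⟨hL h1, (cm_mono hm _).trans_lt h2⟩

lemma MS.mono {j : ℕ} {B : ℝ} {W W' : Finset V} {a : ℕ → V → ℝ} {C : Finset ℕ}
    {m : V → V → ℝ} (h : MS G M j B W a C m) (hW : W' ⊆ W) : MS G M j B W' a C m :=
  ⟨h.nn, fun v hv => (h.dom v (hW hv)).mono (fun _ => le_rfl) hW,
    fun v hv x hx => h.bd v (hW hv) x (hW hx)⟩

lemma HasMS.mono {j : ℕ} {B : ℝ} {W W' : Finset V} {a : ℕ → V → ℝ} {C : Finset ℕ}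
    (h : HasMS G M j B W a C) (hW : W' ⊆ W) : HasMS G M j B W' a C := by
  obtain ⟨m, hm⟩ := h
  exact ⟨m, hm.mono hW⟩

lemma Dom.of_noTree {h : ℕ} {v : V} {m : V → ℝ} {L : Finset V}
    (hT : ∀ φ : List (Fin M) → V, ¬ Tree G h M φ) : Dom G M h v m L :=
  fun φ hφ _ _ => hT φ hφ

lemma HasMS.start {h : ℕ} {B : ℝ} {a : ℕ → V → ℝ} {W : Finset V}
    (hT : ∀ φ : List (Fin M) → V, ¬ Tree G h M φ) : HasMS G M h B W a ∅ := by
  refine ⟨fun _ _ => 0, fun _ _ => le_rfl, fun v _ => Dom.of_noTree hT, fun v _ x _ => ?_⟩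
  rw [cm_zero, Finset.sum_empty, mul_zero]

end masters

/-! ### Systems -/

section systems

variable {P : Par} {n : ℕ} {T : Finset (Finset ℕ)} {H ξ : ℝ} {V : Type} [Fintype V]
  {G : SimpleGraph V} {ν : V → ℝ} {σ : Dat V}

lemma Sys.sc_nonneg (h : Sys P n T H ξ G ν σ) {s : ℕ} (hs : s < n) (x : V) :
    0 ≤ sc G σ s x :=
  nm_nonneg (h.ρ0 s hs) x

lemma Sys.W_sub (h : Sys P n T H ξ G ν σ) {i j : ℕ} (hij : i ≤ j) (hj : j ≤ n) :
    σ.W j ⊆ σ.W i := by
  induction j, hij using Nat.le_induction with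
  | base => exact Finset.Subset.refl _
  | succ j hij ih => exact (h.sub j (by omega)).trans (ih (by omega))

lemma Sys.ms_pos (h : Sys P n T H ξ G ν σ) : 0 < ms ν (σ.W n) := by
  have h1 := ms_nonneg h.ν0 (σ.W n)
  rcases h1.lt_or_eq with h2 | h2
  · exact h2
  · have h3 := h.pos
    rw [← h2, mul_zero] at h3
    linarith

lemma Sys.H_pos (h : Sys P n T H ξ G ν σ) : 0 < H := by
  by_contra hcon
  have h1 := h.pos
  have h2 : H * ms ν (σ.W n) ≤ 0 :=
    mul_nonpos_of_nonpos_of_nonneg (not_lt.mp hcon) h.ms_pos.le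
  linarith

lemma Sys.ms_le_one (h : Sys P n T H ξ G ν σ) (A : Finset V) : ms ν A ≤ 1 := by
  rw [← h.ν1]
  exact ms_mono h.ν0 (Finset.subset_univ A)

lemma Sys.one_le (h : Sys P n T H ξ G ν σ) : 1 ≤ H := by
  have h1 := h.pos
  have h2 := h.ms_le_one (σ.W n)
  have h3 := h.H_pos
  nlinarith

lemma Sys.ξ_nonneg (h : Sys P n T H ξ G ν σ) : 0 ≤ ξ := by
  have h1 := h.al ∅ GSR3.stab_empty
  simpa [ms] using h1

lemma Sys.W_nonempty (h : Sys P n T H ξ G ν σ) : (σ.W n).Nonempty := by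
  rw [Finset.nonempty_iff_ne_empty]
  intro h1
  have h2 := h.ms_pos
  rw [h1] at h2
  simp [ms] at h2

/-- The scale `c` is positive on the worlds of the later stages. -/
lemma Sys.sc_pos (h : Sys P n T H ξ G ν σ) {c i : ℕ} (hc : c < i) (hi : i ≤ n) {x : V}
    (hx : x ∈ σ.W i) : 0 < sc G σ c x :=
  h.ap c (by omega) x (h.W_sub (Nat.succ_le_of_lt hc) hi hx)

/-- The scale `c` is positive on the hubs of the later stages. -/
lemma Sys.sc_pos_hub (h : Sys P n T H ξ G ν σ) {c s : ℕ} (hc : c < s) (hs : s < n) {y : V}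
    (hy : σ.ρ s y ≠ 0) : 0 < sc G σ c y :=
  h.sc_pos hc hs.le (h.ρW s hs y hy).1

lemma Sys.hub_notMem (h : Sys P n T H ξ G ν σ) {s i : ℕ} (hs : s < i) (hi : i ≤ n) {y : V}
    (hy : σ.ρ s y ≠ 0) : y ∉ σ.W i :=
  fun h1 => (h.ρW s (by omega) y hy).2 (h.W_sub (Nat.succ_le_of_lt hs) hi h1)

end systems

/-! ### Shrinking -/

section shrink

variable {V : Type} (σ : Dat V) (n : ℕ) (W' : Finset V)

@[simp] lemma shr_ρ : (σ.shr n W').ρ = σ.ρ := rfl

@[simp] lemma shr_isB : (σ.shr n W').isB = σ.isB := rfl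

@[simp] lemma shr_lab : (σ.shr n W').lab = σ.lab := rfl

@[simp] lemma shr_near : (σ.shr n W').near = σ.near := rfl

@[simp] lemma shr_W_self : (σ.shr n W').W n = W' := by
  simp [Dat.shr]

lemma shr_W_ne {i : ℕ} (h : i ≠ n) : (σ.shr n W').W i = σ.W i := by
  simp [Dat.shr, h]

lemma shr_W_lt {i : ℕ} (h : i < n) : (σ.shr n W').W i = σ.W i := shr_W_ne σ n W' h.ne

@[simp] lemma sc_shr [Fintype V] (G : SimpleGraph V) : sc G (σ.shr n W') = sc G σ := rfl

lemma big_shr [Fintype V] (P : Par) (G : SimpleGraph V) (S : Finset ℕ) (s : ℕ) (x : V) :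
    big P G (σ.shr n W') S s x = big P G σ S s x := rfl

end shrink

end Pool.Agent.Lib.FGF
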