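import Pool.Agent.Lib.FGF.Stmts

/-!
# Fractional Gyarfas-Sumner: a vertex without light stars has few light neighbours
-/

set_option autoImplicit false

namespace Pool.Agent.Lib.FGF

open Finset Classical
open Pool.Agent.Lib.FracGS (nb wnb TAdj)
open Pool.Agent.Lib.GSR3 (Stab Small Tree)

namespace Cnt

lemma tree0 {V : Type} (G : SimpleGraph V) (M : ℕ) (c : V) :
    Tree G 0 M (fun _ : List (Fin M) => c) where
  inj u w hu hw _ := by
    rw [List.eq_nil_of_length_eq_zero (Nat.le_zero.1 hu),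
      List.eq_nil_of_length_eq_zero (Nat.le_zero.1 hw)]
  adj u w hu hw := by
    rw [List.eq_nil_of_length_eq_zero (Nat.le_zero.1 hu),
      List.eq_nil_of_length_eq_zero (Nat.le_zero.1 hw)]
    refine ⟨fun h => (G.loopless.irrefl _ h).elim, ?_⟩
    rintro (⟨t, ht⟩ | ⟨t, ht⟩) <;> cases ht

end Cnt

open Cnt

/-- Module `Cnt`. -/
theorem stCnt (h : StGlue) : StCnt := by
  intro M hM V _ G m L X v hXL hadj hX hl hD
  by_contra hcard
  push Not at hcard
  obtain ⟨X', hX', hc⟩ := Finset.exists_subset_card_eq hcard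
  let e : X' ≃ Fin M := X'.equivFinOfCardEq hc
  let c : Fin M → V := fun i => ((e.symm i : X') : V)
  have hcX : ∀ i, c i ∈ X := fun i => hX' (e.symm i).2
  have hcinj : ∀ i i', c i = c i' → i = i' := fun i i' h1 =>
    e.symm.injective (Subtype.ext h1)
  obtain ⟨ψ, hψ, hψ0, hψ1⟩ := h V G M 0 v (fun i _ => c i) (fun i => tree0 G M (c i))
    (fun i => hadj _ (hcX i)) (fun i u _ h1 => G.ne_of_adj (hadj _ (hcX i)) h1.symm)
    (fun i u hu hu0 => (hu (List.eq_nil_of_length_eq_zero (Nat.le_zero.1 hu0))).elim)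
    (fun i i' u u' hne _ _ => ⟨fun h1 => hne (hcinj i i' h1), hX _ (hcX i) _ (hcX i')⟩)
  refine hD ψ hψ hψ0 fun u hu0 hu => ?_
  obtain ⟨i, rfl⟩ : ∃ i, u = [i] := by
    refine List.length_eq_one_iff.1 (le_antisymm hu ?_)
    exact List.length_pos_iff.2 hu0
  have h2 := hψ1 i [] le_rfl
  rw [List.nil_append] at h2
  rw [h2]
  exact ⟨hXL (hcX i), hl _ (hcX i)⟩

end Pool.Agent.Lib.FGF
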