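import Pool.Agent.Lib.FGF.BDefs

/-!
# The fractional Gyarfas-Sumner conjecture: definitions

All graphs are finite.  `Small G A c` (from `GSR3`) says that the fractional chromatic number of
`G[A]` is at most `c`; `Tree G d M φ` (from `GSR3`) says that `φ` is an induced copy of the `M`-ary
tree of depth `d` (the vertices are the words of length at most `d`, the root is `[]`, the parent of
`t :: w` is `w`).
-/

set_option autoImplicit false

namespace Pool.Agent.Lib.FGF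

open Finset Classical
open Pool.Agent.Lib.FracGS (nb wnb TAdj pat)
open Pool.Agent.Lib.GSR3 (Stab Small Tree)
open Pool.Agent.Lib.GSR5 (NLC)

/-! ### Measures -/

/-- The weight of a set of vertices. -/
noncomputable def ms {V : Type} (r : V → ℝ) (A : Finset V) : ℝ := ∑ v ∈ A, r v

/-- The `r`-weight of the neighbours of `x`. -/
noncomputable def nm {V : Type} [Fintype V] (G : SimpleGraph V) (r : V → ℝ) (x : V) : ℝ :=
  wnb G Finset.univ r x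

/-- The `r`-weight of the closed neighbourhood of `x`. -/
noncomputable def cm {V : Type} [Fintype V] (G : SimpleGraph V) (r : V → ℝ) (x : V) : ℝ :=
  r x + nm G r x

/-- The weight `ν / r(N)` on `A`. -/
noncomputable def zt {V : Type} [Fintype V] (G : SimpleGraph V) (ν r : V → ℝ) (A : Finset V) :
    V → ℝ :=
  fun x => if x ∈ A then ν x / nm G r x else 0

/-! ### Masters -/

/-- `v` is not the root of an induced copy of the `M`-ary tree of depth `j` all of whose other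
vertices lie in `L` and have closed neighbourhoods of `m`-weight less than one. -/
def Dom {V : Type} [Fintype V] (G : SimpleGraph V) (M j : ℕ) (v : V) (m : V → ℝ)
    (L : Finset V) : Prop :=
  ∀ φ : List (Fin M) → V, Tree G j M φ → φ [] = v →
    ¬ ∀ u : List (Fin M), u ≠ [] → u.length ≤ j → φ u ∈ L ∧ cm G m (φ u) < 1

/-- The family `m v` (`v ∈ W`) is a master system on `W` for the scales `a c`, `c ∈ C`. -/
structure MS {V : Type} [Fintype V] (G : SimpleGraph V) (M j : ℕ) (B : ℝ) (W : Finset V)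
    (a : ℕ → V → ℝ) (C : Finset ℕ) (m : V → V → ℝ) : Prop where
  nn : ∀ v x, 0 ≤ m v x
  dom : ∀ v ∈ W, Dom G M j v (m v) W
  bd : ∀ v ∈ W, ∀ x ∈ W, cm G (m v) x ≤ B * ∑ c ∈ C, a c x / a c v

/-- There is a master system. -/
def HasMS {V : Type} [Fintype V] (G : SimpleGraph V) (M j : ℕ) (B : ℝ) (W : Finset V)
    (a : ℕ → V → ℝ) (C : Finset ℕ) : Prop :=
  ∃ m : V → V → ℝ, MS G M j B W a C m

/-! ### Links -/

/-- The normalised common `ρ`-weight of `x` and `x'`. -/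
noncomputable def ell {V : Type} [Fintype V] (G : SimpleGraph V) (ρ : V → ℝ) (x x' : V) : ℝ :=
  (∑ y ∈ Finset.univ.filter (fun y => G.Adj x y ∧ G.Adj x' y), ρ y) /
    (Real.sqrt (nm G ρ x) * Real.sqrt (nm G ρ x'))

/-- The weight of the links of the mates via `r` inside `W`: the sum over the paths `x, y, x'` with
`x, x' ∈ W` of the product of the `ell` for the measures `ρ c`, `c ∈ S`; the total weight of the
paths is `ν W`. -/
noncomputable def lk {V : Type} [Fintype V] (G : SimpleGraph V) (ν r : V → ℝ) (ρ : ℕ → V → ℝ)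
    (S : Finset ℕ) (W : Finset V) : ℝ :=
  ∑ y, r y / nm G (zt G ν r W) y * ∑ x ∈ Finset.univ.filter (fun x => G.Adj y x),
    ∑ x' ∈ Finset.univ.filter (fun x' => G.Adj y x'),
      zt G ν r W x * zt G ν r W x' * ∏ c ∈ S, ell G (ρ c) x x'

/-! ### Parameters and data -/

/-- The parameters.  `M` and `h` are the arity and the depth of the forbidden tree, `m` is the size
of the sets of stages. -/
structure Par where
  M : ℕ
  h : ℕ
  m : ℕ
  κ : ℝ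
  C0 : ℝ
  ε : ℝ
  ε2 : ℝ
  εp : ℝ
  τ : ℝ
  B : ℝ
  L0 : ℝ
  Γ : ℝ
  Λ : ℝ

/-- The factor between the scales in a type B conflict. -/
noncomputable def Par.Υ (P : Par) : ℝ := P.L0 * (4 / P.ε ^ 2)

/-- The inequalities between the parameters. -/
structure Par.OK (P : Par) : Prop where
  M1 : 1 ≤ P.M
  h2 : 2 ≤ P.h
  he : Even P.h
  hm : P.h ≤ P.m
  κ1 : 1 ≤ P.κ
  C0 : 1 ≤ P.C0
  ε0 : 0 < P.ε
  ε1 : P.ε ≤ 1
  ε20 : 0 < P.ε2
  ε21 : 8 * P.m * P.ε2 ≤ P.ε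
  εp0 : 0 < P.εp
  εp1 : P.εp ≤ 1
  τ1 : ((P.M + 1 : ℕ) : ℝ) ^ P.h ≤ P.τ
  B1 : 1 + 64 * P.κ * 2 * P.τ / P.ε ≤ P.B
  B2 : 2 * P.κ * 2 * P.τ / P.εp ≤ P.B
  L1 : 4 * P.τ * P.B * P.m * (4 / P.ε ^ 2) ≤ P.L0
  L2 : P.τ ^ 2 * (4 / P.ε ^ 2) ≤ P.L0
  Γ1 : P.τ ≤ P.Γ
  Γ2 : P.B * P.m < P.Γ
  Γ3 : 4 / P.ε ^ 2 ≤ P.Γ
  Γ4 : 2 ≤ P.Γ

/-- The data of the construction: the measures of the hubs, the worlds, the items of type B with
their labels and lists. -/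
structure Dat (V : Type) where
  ρ : ℕ → V → ℝ
  W : ℕ → Finset V
  isB : Finset ℕ → ℕ → Prop
  lab : Finset ℕ → ℕ → V → V
  near : Finset ℕ → ℕ → V → Finset V

section

variable {V : Type} [Fintype V] (P : Par) (G : SimpleGraph V) (ν : V → ℝ) (σ : Dat V)

/-- The scale of stage `c`. -/
noncomputable def sc (c : ℕ) (x : V) : ℝ := nm G (σ.ρ c) x

/-- The weight of the hubs of stage `s` of `x` which are bigger than `x` by the factor `Γ` for all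
scales `c ∈ S`. -/
noncomputable def big (S : Finset ℕ) (s : ℕ) (x : V) : ℝ :=
  ∑ y ∈ Finset.univ.filter (fun y => G.Adj x y ∧ ∀ c ∈ S, P.Γ * sc G σ c x ≤ sc G σ c y), σ.ρ s y

/-- Sign plus of the pair `(c, s)`. -/
def Plus2 (c s : ℕ) : Prop := ∀ x ∈ σ.W (s + 1), P.ε2 * sc G σ s x ≤ big P G σ {c} s x

/-- Sign minus of the pair `(c, s)`. -/
def Minus2 (c s : ℕ) : Prop := ∀ x ∈ σ.W (s + 1), big P G σ {c} s x < P.ε2 * sc G σ s x

/-- Sign plus of the item `(S, s)`. -/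
def PlusS (S : Finset ℕ) (s : ℕ) : Prop :=
  ∀ x ∈ σ.W (s + 1), P.εp * sc G σ s x ≤ big P G σ S s x

/-- Sign minus of the item `(S, s)`. -/
def MinusS (S : Finset ℕ) (s : ℕ) : Prop :=
  ∀ x ∈ σ.W (s + 1), big P G σ S s x < P.εp * sc G σ s x

/-- Type P of the item `(S, s)`: one level of a master system is lost. -/
def TypeP (S : Finset ℕ) (s : ℕ) : Prop :=
  ∀ C, C ⊆ S → (∀ j, 1 ≤ j → j + 1 ≤ P.h → HasMS G P.M (j + 1) P.B (σ.W s) (sc G σ) C →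
    HasMS G P.M j P.B (σ.W (s + 1)) (sc G σ) (insert s C)) ∧
    ¬ HasMS G P.M 1 P.B (σ.W s) (sc G σ) C

/-- Type A of the item `(S, s)`: two levels of a master system are lost. -/
def TypeA (S : Finset ℕ) (s : ℕ) : Prop :=
  ∀ C, C ⊆ S → (∀ j, 1 ≤ j → j + 2 ≤ P.h → HasMS G P.M (j + 2) P.B (σ.W s) (sc G σ) C →
    HasMS G P.M j P.B (σ.W (s + 1)) (sc G σ) (insert s C)) ∧
    ¬ HasMS G P.M 2 P.B (σ.W s) (sc G σ) C

/-- Type U of the item `(S, s)` in the world `σ.W n`. -/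
def TypeU (n : ℕ) (ξ : ℝ) (S : Finset ℕ) (s : ℕ) : Prop :=
  ∀ W', W' ⊆ σ.W n → ξ * ms ν (σ.W n) ≤ ms ν W' →
    lk G ν (σ.ρ s) σ.ρ S W' ≤ P.ε * ms ν W'

/-- The item `(S, s)` has one of the types. -/
def Item (n : ℕ) (ξ : ℝ) (S : Finset ℕ) (s : ℕ) : Prop :=
  TypeP P G σ S s ∨ (MinusS P G σ S s ∧
    ((∃ c ∈ S, Plus2 P G σ c s) ∨ TypeU P G ν σ n ξ S s ∨ TypeA P G σ S s ∨ σ.isB S s))

/-- The labels and the lists of an item of type B. -/
structure LabOK (H : ℝ) (S : Finset ℕ) (s : ℕ) : Prop where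
  mem : ∀ x ∈ σ.W (s + 1), σ.lab S s x ∈ σ.W s ∧ σ.lab S s x ∉ σ.W (s + 1)
  adj : ∀ x ∈ σ.W (s + 1), G.Adj x (σ.lab S s x)
  card : ∀ t ∈ σ.W (s + 1), ((σ.near S s t).card : ℝ) ≤ H
  conf : ∀ x ∈ σ.W (s + 1), ∀ t ∈ σ.W (s + 1), G.Adj t (σ.lab S s x) →
    (sc G σ s t < P.Υ * sc G σ s x ∨ ∀ c ∈ S, P.Υ * sc G σ c x ≤ sc G σ c t) →
      σ.lab S s x ∈ σ.near S s t
  prop : ∀ x ∈ σ.W (s + 1), ∀ t ∈ σ.W (s + 1), G.Adj x t → σ.lab S s x ∉ σ.near S s t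

/-- The master systems on `σ.W s` have masters at all vertices whose average is dominated by the
scale of stage `s`. -/
def KerOK (H : ℝ) (s : ℕ) (C : Finset ℕ) (j : ℕ) : Prop :=
  ∃ m l : V → V → ℝ, MS G P.M j P.B (σ.W s) (sc G σ) C m ∧ (∀ t v, 0 ≤ l t v) ∧
    (∀ t, ∑ v, l t v ≤ P.Λ) ∧
    (∀ t ∈ σ.W s, ∀ y, σ.ρ s y ≠ 0 → G.Adj t y → cm G (m t) y < 1 →
      Dom G P.M (j - 1) y (fun v => m t v + l t v) (σ.W s)) ∧
    ∀ x ∈ σ.W (s + 1), ∑ t ∈ σ.W s, ν t * cm G (l t) x ≤ H * ms ν (σ.W s) * sc G σ s x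

end

/-- The separation property of the world `σ.W i`. -/
def SepAt {V : Type} (σ : Dat V) (i : ℕ) : Prop :=
  BSep (fun s S => σ.isB S s) (fun s S => σ.lab S s) (fun s S => σ.near S s) i (σ.W i)

/-- The system after `n` stages; the items of the last stage with `S ∈ T` have types. -/
structure Sys (P : Par) (n : ℕ) (T : Finset (Finset ℕ)) (H ξ : ℝ) {V : Type} [Fintype V]
    (G : SimpleGraph V) (ν : V → ℝ) (σ : Dat V) : Prop where
  ν0 : ∀ v, 0 ≤ ν v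
  ν1 : ∑ v, ν v = 1
  al : ∀ I, Stab G I → ms ν I ≤ ξ
  W0 : σ.W 0 = Finset.univ
  sub : ∀ s < n, σ.W (s + 1) ⊆ σ.W s
  pos : 1 ≤ H * ms ν (σ.W n)
  ρ0 : ∀ s < n, ∀ v, 0 ≤ σ.ρ s v
  ρW : ∀ s < n, ∀ v, σ.ρ s v ≠ 0 → v ∈ σ.W s ∧ v ∉ σ.W (s + 1)
  ρ1 : ∀ s < n, ∑ v, σ.ρ s v ≤ 1
  ρS : ∀ s < n, Stab G (Finset.univ.filter (fun v => σ.ρ s v ≠ 0))
  ap : ∀ s < n, ∀ x ∈ σ.W (s + 1), 0 < sc G σ s x
  dH : ∀ s < n, ∀ w ∈ σ.W s, nm G (zt G ν (σ.ρ s) (σ.W (s + 1))) w ≤ H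
  dξ : ∀ s < n, ∀ w ∈ σ.W (s + 1), nm G (zt G ν (σ.ρ s) (σ.W (s + 1))) w ≤ ξ
  at' : ∀ s < n, ∀ x ∈ σ.W (s + 1), ν x ≤ ξ * sc G σ s x
  drop : ∀ c s, c < s → s < n → ∀ x ∈ σ.W (s + 1), sc G σ s x ≤ ξ * sc G σ c x
  far : ∀ s < n, ∀ x ∈ σ.W (s + 1), ∀ y ∈ σ.W (s + 1), G.Adj x y →
    P.Γ * sc G σ s x ≤ sc G σ s y ∨ P.Γ * sc G σ s y ≤ sc G σ s x
  sg2 : ∀ c s, c < s → s < n → Plus2 P G σ c s ∨ Minus2 P G σ c s
  sgS : ∀ s < n, ∀ S, S ⊆ Finset.range s → S.card = P.m → PlusS P G σ S s ∨ MinusS P G σ S s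
  ker : ∀ s < n, ∀ C, C ⊆ Finset.range s → ∀ j, 2 ≤ j → j ≤ P.h →
    HasMS G P.M j P.B (σ.W s) (sc G σ) C → KerOK P G ν σ H s C j
  itm : ∀ s < n, ∀ S, S ⊆ Finset.range s → S.card = P.m → (s + 1 < n ∨ S ∈ T) →
    Item P G ν σ n ξ S s
  lab : ∀ S s, σ.isB S s → s < n ∧ S ⊆ Finset.range s ∧ S.card = P.m ∧ LabOK P G σ H S s
  sep : ∀ i < n, SepAt σ i

/-- All the items of the last stage. -/
def full (P : Par) (n : ℕ) : Finset (Finset ℕ) := (Finset.range (n - 1)).powersetCard P.m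

/-- The class of graphs: no tree, small neighbourhoods, no exact covers of big sets. -/
structure Cls (P : Par) {V : Type} [Fintype V] (G : SimpleGraph V) : Prop where
  tree : ∀ φ : List (Fin P.M) → V, ¬ Tree G P.h P.M φ
  nbs : ∀ v, Small G (nb G Finset.univ v) P.κ
  nlc : NLC G Finset.univ P.κ P.C0

end Pool.Agent.Lib.FGF
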