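import Pool.Agent.Lib.FGF.Stmts
import Pool.Agent.Lib.GSR3.Base

/-!
# The fractional Gyarfas-Sumner conjecture: module `Far`

A part of the world in which all edges are long for a scale.
-/

set_option autoImplicit false

namespace Pool.Agent.Lib.FGF

open Finset Classical
open Pool.Agent.Lib.FracGS (nb wnb TAdj pat)
open Pool.Agent.Lib.GSR3 (Stab Small Tree)
open Pool.Agent.Lib.GSR5 (NLC)

namespace Far

/-- Two points in windows whose indices differ by at least two. -/
lemma far_of_lt {Γ a b : ℝ} {i j : ℤ} (hΓ : 2 ≤ Γ) (ha : a < Γ ^ (i + 1)) (hb : Γ ^ j ≤ b)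
    (hij : i + 2 ≤ j) : Γ * a ≤ b := by
  have h0 : (0 : ℝ) < Γ := by linarith
  have h1 : (1 : ℝ) ≤ Γ := by linarith
  calc Γ * a ≤ Γ * Γ ^ (i + 1) := mul_le_mul_of_nonneg_left ha.le h0.le
    _ = Γ ^ (i + 2) := by
      rw [show i + 2 = (i + 1) + 1 by ring, zpow_add₀ h0.ne' (i + 1) 1, zpow_one, mul_comm]
    _ ≤ Γ ^ j := zpow_le_zpow_right₀ h1 hij
    _ ≤ b := hb

/-- Integers of the same parity which are different differ by at least two. -/
lemma two_le_of_parity {i j : ℤ} (hp : Even i ↔ Even j) (hne : i ≠ j) : i + 2 ≤ j ∨ j + 2 ≤ i := by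
  by_contra hcon
  push Not at hcon
  obtain ⟨h1, h2⟩ := hcon
  have h3 : j = i + 1 ∨ i = j + 1 := by omega
  rcases h3 with h | h
  · subst h
    rw [Int.even_add_one] at hp
    by_cases he : Even i
    · exact (hp.mp he) he
    · exact he (hp.mpr he)
  · subst h
    rw [Int.even_add_one] at hp
    by_cases he : Even j
    · exact (hp.mpr he) he
    · exact he (hp.mp he)

end Far

open Far

/-- Module `Far`. -/
theorem stFar : StFar := by
  intro C0 Γ hC0 hΓ V _ G ν ρ W hNS hν hρ hpos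
  have hΓ0 : (0 : ℝ) < Γ := by linarith
  have hΓ1 : (1 : ℝ) < Γ := by linarith
  -- the windows
  have hk : ∀ x : V, ∃ n : ℤ, x ∈ W → Γ ^ n ≤ nm G ρ x ∧ nm G ρ x < Γ ^ (n + 1) := by
    intro x
    by_cases hx : x ∈ W
    · obtain ⟨n, hn⟩ := exists_mem_Ico_zpow (hpos x hx) hΓ1
      exact ⟨n, fun _ => ⟨hn.1, hn.2⟩⟩
    · exact ⟨0, fun h => absurd h hx⟩
  choose k hk using hk
  have hJ : ∀ n : ℤ, ∃ J : Finset V, J ⊆ W.filter (fun x => k x = n) ∧ Stab G J ∧
      ∑ v ∈ W.filter (fun x => k x = n), ν v ≤ 8 * C0 * Γ * ∑ v ∈ J, ν v := by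
    intro n
    have h1 := hNS ρ hρ (Γ ^ n) (Γ ^ (n + 1)) (zpow_pos hΓ0 n)
      (zpow_le_zpow_right₀ hΓ1.le (by omega))
    have h2 : Γ ^ (n + 1) / Γ ^ n = Γ := by
      rw [zpow_add₀ hΓ0.ne', zpow_one, mul_comm, mul_div_assoc, div_self (zpow_pos hΓ0 n).ne',
        mul_one]
    rw [h2] at h1
    refine h1.mono_set (A := W.filter (fun x => k x = n)) ?_ ν hν
    intro x hx
    rw [Finset.mem_filter] at hx ⊢
    obtain ⟨hxW, rfl⟩ := hx
    exact ⟨Finset.mem_univ _, (hk x hxW).1, (hk x hxW).2.le⟩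
  choose J hJW hJS hJle using hJ
  -- the two candidates
  have hsum : ms ν W ≤ 8 * C0 * Γ * (ms ν (W.filter (fun x => x ∈ J (k x) ∧ Even (k x))) +
      ms ν (W.filter (fun x => x ∈ J (k x) ∧ ¬ Even (k x)))) := by
    have e1 : ms ν W = ∑ n ∈ W.image k, ∑ v ∈ W.filter (fun x => k x = n), ν v := by
      rw [ms, Finset.sum_fiberwise_of_maps_to (fun x hx => Finset.mem_image_of_mem k hx)]
    have e2 : ms ν (W.filter (fun x => x ∈ J (k x))) = ∑ n ∈ W.image k, ∑ v ∈ J n, ν v := by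
      rw [ms, ← Finset.sum_fiberwise_of_maps_to (t := W.image k) (g := k)
        (fun x hx => Finset.mem_image_of_mem k (Finset.mem_filter.mp hx).1)]
      refine Finset.sum_congr rfl fun n _ => Finset.sum_congr ?_ fun _ _ => rfl
      ext x
      simp only [Finset.mem_filter]
      constructor
      · rintro ⟨⟨_, h2⟩, rfl⟩
        exact h2
      · intro hx
        have h1 := Finset.mem_filter.mp (hJW n hx)
        exact ⟨⟨h1.1, by rw [h1.2]; exact hx⟩, h1.2⟩
    have e3 : ms ν (W.filter (fun x => x ∈ J (k x) ∧ Even (k x))) +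
        ms ν (W.filter (fun x => x ∈ J (k x) ∧ ¬ Even (k x))) =
        ms ν (W.filter (fun x => x ∈ J (k x))) := by
      rw [ms, ms, ms, ← Finset.filter_filter, ← Finset.filter_filter,
        Finset.sum_filter_add_sum_filter_not]
    rw [e3, e2, e1, Finset.mul_sum]
    exact Finset.sum_le_sum fun n _ => hJle n
  have hfar : ∀ x ∈ W, ∀ y ∈ W, x ∈ J (k x) → y ∈ J (k y) → (Even (k x) ↔ Even (k y)) →
      G.Adj x y → Γ * nm G ρ x ≤ nm G ρ y ∨ Γ * nm G ρ y ≤ nm G ρ x := by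
    intro x hx y hy hxJ hyJ hp hadj
    have hne : k x ≠ k y := by
      intro he
      rw [← he] at hyJ
      exact hJS _ x hxJ y hyJ hadj
    rcases two_le_of_parity hp hne with h | h
    · exact Or.inl (far_of_lt hΓ (hk x hx).2 (hk y hy).1 h)
    · exact Or.inr (far_of_lt hΓ (hk y hy).2 (hk x hx).1 h)
  have hC : 0 ≤ 8 * C0 * Γ := by positivity
  rcases le_total (ms ν (W.filter (fun x => x ∈ J (k x) ∧ Even (k x))))
    (ms ν (W.filter (fun x => x ∈ J (k x) ∧ ¬ Even (k x)))) with h | h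
  · refine ⟨W.filter (fun x => x ∈ J (k x) ∧ ¬ Even (k x)), Finset.filter_subset _ _, ?_, ?_⟩
    · have h1 := mul_le_mul_of_nonneg_left h hC
      rw [mul_add] at hsum
      linarith
    · intro x hx y hy hadj
      rw [Finset.mem_filter] at hx hy
      exact hfar x hx.1 y hy.1 hx.2.1 hy.2.1
        ⟨fun h => absurd h hx.2.2, fun h => absurd h hy.2.2⟩ hadj
  · refine ⟨W.filter (fun x => x ∈ J (k x) ∧ Even (k x)), Finset.filter_subset _ _, ?_, ?_⟩
    · have h1 := mul_le_mul_of_nonneg_left h hC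
      rw [mul_add] at hsum
      linarith
    · intro x hx y hy hadj
      rw [Finset.mem_filter] at hx hy
      exact hfar x hx.1 y hy.1 hx.2.1 hy.2.1 ⟨fun _ => hy.2.2, fun _ => hx.2.2⟩ hadj

end Pool.Agent.Lib.FGF
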