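import Pool.Agent.Lib.FGF.Base

/-!
# Module `Fib`: few good vertices at every hub are impossible
-/

set_option autoImplicit false

namespace Pool.Agent.Lib.FGF

open Finset Classical
open Pool.Agent.Lib.FracGS (nb wnb TAdj pat)
open Pool.Agent.Lib.GSR3 (Stab Small Tree)

theorem stFib : StFib := by
  intro V _ G ν ρ W ξ e M Gd hξ he hν hρ hρ1 hpos hat hGd hM
  have h1 : ∀ x ∈ W, e * ν x ≤ ξ * ∑ y ∈ Gd x, ρ y := by
    intro x hx
    have h2 := hGd x hx
    have h3 := hat x hx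
    calc e * ν x ≤ e * (ξ * nm G ρ x) := mul_le_mul_of_nonneg_left h3 he.le
      _ = ξ * (e * nm G ρ x) := by ring
      _ ≤ ξ * ∑ y ∈ Gd x, ρ y := mul_le_mul_of_nonneg_left h2 hξ
  have h2 : ∑ x ∈ W, ∑ y ∈ Gd x, ρ y =
      ∑ y, ((W.filter (fun x => y ∈ Gd x)).card : ℝ) * ρ y := by
    have h3 : ∀ x, ∑ y ∈ Gd x, ρ y = ∑ y, if y ∈ Gd x then ρ y else 0 := by
      intro x
      rw [← Finset.sum_filter]
      refine Finset.sum_congr ?_ fun _ _ => rfl
      ext y
      simp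
    simp only [h3]
    rw [Finset.sum_comm]
    refine Finset.sum_congr rfl fun y _ => ?_
    rw [← Finset.sum_filter, Finset.sum_const, nsmul_eq_mul]
  have h3 : ∑ y, ((W.filter (fun x => y ∈ Gd x)).card : ℝ) * ρ y ≤ M := by
    calc ∑ y, ((W.filter (fun x => y ∈ Gd x)).card : ℝ) * ρ y ≤ ∑ y, (M : ℝ) * ρ y := by
          refine Finset.sum_le_sum fun y _ => ?_
          by_cases hy : ρ y = 0
          · rw [hy, mul_zero, mul_zero]
          · exact mul_le_mul_of_nonneg_right (by exact_mod_cast hM y hy) (hρ y)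
      _ = M * ∑ y, ρ y := by rw [Finset.mul_sum]
      _ ≤ M * 1 := mul_le_mul_of_nonneg_left hρ1 (Nat.cast_nonneg M)
      _ = M := mul_one _
  calc e * ms ν W = ∑ x ∈ W, e * ν x := by
        unfold ms
        rw [Finset.mul_sum]
    _ ≤ ∑ x ∈ W, ξ * ∑ y ∈ Gd x, ρ y := Finset.sum_le_sum h1
    _ = ξ * ∑ x ∈ W, ∑ y ∈ Gd x, ρ y := by rw [Finset.mul_sum]
    _ ≤ ξ * M := by
        rw [h2]
        exact mul_le_mul_of_nonneg_left h3 hξ
    _ = M * ξ := mul_comm _ _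

end Pool.Agent.Lib.FGF
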