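import Pool.Agent.Lib.FGF.Stmts2

/-!
# The fractional Gyarfas-Sumner conjecture: there is no complete system (module `Fin`)
-/

set_option autoImplicit false

namespace Pool.Agent.Lib.FGF

open Finset Classical
open Pool.Agent.Lib.FracGS (nb wnb TAdj pat)
open Pool.Agent.Lib.GSR3 (Stab Small Tree FGS)
open Pool.Agent.Lib.GSR5 (NLC HasLabF)

namespace FinM

/-- the largest element -/
def top (U : Finset ℕ) : ℕ := U.sup id

/-- the other elements -/
def rest (U : Finset ℕ) : Finset ℕ := U.erase (top U)

theorem top_insert {S : Finset ℕ} {s : ℕ} (h : S ⊆ Finset.range s) : top (insert s S) = s := by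
  unfold top
  rw [Finset.sup_insert]
  refine max_eq_left (Finset.sup_le fun c hc => ?_)
  exact (Finset.mem_range.1 (h hc)).le

theorem notMem_of_range {S : Finset ℕ} {s : ℕ} (h : S ⊆ Finset.range s) : s ∉ S := fun hs =>
  lt_irrefl _ (Finset.mem_range.1 (h hs))

theorem rest_insert {S : Finset ℕ} {s : ℕ} (h : S ⊆ Finset.range s) :
    rest (insert s S) = S := by
  unfold rest
  rw [top_insert h]
  exact Finset.erase_insert (notMem_of_range h)

end FinM

open FinM in
theorem stFin (h1 : StBCase) (h2 : StPCase) (h3 : StACase) (h4 : StRam) (h5 : StSgS)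
    (h6 : StUPool) : StFin := by
  intro M h hM hh he
  obtain ⟨e1, e2, b, he1, he1', he2, hb, hU⟩ := h6 M h hM hh he
  refine ⟨e1, e2, b, he1, he1', he2, hb, ?_⟩
  intro P hP hPM hPh hε hε2 hε21 hεp hΓ n0 par hpar
  obtain ⟨RU, hRU⟩ := hU P hP hPM hPh hε hε2 hΓ
  obtain ⟨RB, hRB⟩ := h1 P.m n0 par hpar
  obtain ⟨RS, hRS⟩ := h5 P.m P.ε2 hP.ε20 hε21
  let N2 : ℕ := (P.m + P.h) + RU + RB + (RS + 1) + (P.m + 1)
  obtain ⟨N1, hN1⟩ := h4 5 (P.m + 1) N2 (by norm_num)
  obtain ⟨N, hN⟩ := h4 2 2 N1 (by norm_num)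
  refine ⟨N, fun H hH => ?_⟩
  obtain ⟨ξ0, hξ0, hRU'⟩ := hRU H hH
  refine ⟨ξ0, hξ0, ?_⟩
  intro V _ G ν σ hC hE hS
  -- colour the pairs
  obtain ⟨B1, hB1, hB1c, i1, hi1⟩ := hN
    (fun U => if ∃ c ∈ rest U, Plus2 P G σ c (top U) then 1 else 0) (Finset.range N)
    (fun U => by split_ifs <;> norm_num) (by rw [Finset.card_range])
  -- colour the `(m+1)`-sets
  obtain ⟨B2, hB2, hB2c, i2, hi2⟩ := hN1
    (fun U => if TypeP P G σ (rest U) (top U) then 0 else
      if ∃ c ∈ rest U, Plus2 P G σ c (top U) then 1 else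
      if TypeU P G ν σ N ξ0 (rest U) (top U) then 2 else
      if TypeA P G σ (rest U) (top U) then 3 else 4) B1
    (fun U => by split_ifs <;> norm_num) hB1c.ge
  have hB2N : B2 ⊆ Finset.range N := hB2.trans hB1
  have hBs : ∀ s ∈ B2, s < N := fun s hs => Finset.mem_range.1 (hB2N hs)
  have hfull : ∀ s < N, ∀ S, S ⊆ Finset.range s → S.card = P.m → Item P G ν σ N ξ0 S s := by
    intro s hs S hSr hSc
    refine hS.itm s hs S hSr hSc ?_
    by_cases h7 : s + 1 < N
    · exact Or.inl h7
    · right
      have h8 : s = N - 1 := by omega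
      unfold full
      rw [Finset.mem_powersetCard, ← h8]
      exact ⟨hSr, hSc⟩
  -- the colour of an item
  have hcol : ∀ s ∈ B2, ∀ S, S ⊆ B2 → S ⊆ Finset.range s → S.card = P.m →
      (if TypeP P G σ S s then 0 else
      if ∃ c ∈ S, Plus2 P G σ c s then 1 else
      if TypeU P G ν σ N ξ0 S s then 2 else
      if TypeA P G σ S s then 3 else 4) = i2 := by
    intro s hs S hS2 hSr hSc
    have h7 := hi2 (insert s S) (Finset.insert_subset hs hS2) (by
      rw [Finset.card_insert_of_notMem (notMem_of_range hSr), hSc])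
    rwa [top_insert hSr, rest_insert hSr] at h7
  have hpair : ∀ s ∈ B2, ∀ c ∈ B2, c < s → (if Plus2 P G σ c s then 1 else 0) = i1 := by
    intro s hs c hc hcs
    have hr : ({c} : Finset ℕ) ⊆ Finset.range s := by
      rw [Finset.singleton_subset_iff, Finset.mem_range]
      exact hcs
    have h7 := hi1 (insert s {c}) (Finset.insert_subset (hB2 hs)
      (Finset.singleton_subset_iff.2 (hB2 hc))) (by
      rw [Finset.card_insert_of_notMem (notMem_of_range hr), Finset.card_singleton])
    rw [top_insert hr, rest_insert hr] at h7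
    simpa using h7
  -- an item exists
  have hcard : N2 = B2.card := hB2c.symm
  have hne : B2.Nonempty := by
    rw [← Finset.card_pos]
    omega
  -- the top stage
  let s0 := B2.max' hne
  have hs0 : s0 ∈ B2 := Finset.max'_mem _ _
  have herase : B2.erase s0 ⊆ Finset.range s0 := by
    intro c hc
    rw [Finset.mem_range]
    exact lt_of_le_of_ne (Finset.le_max' _ _ (Finset.mem_of_mem_erase hc))
      (Finset.ne_of_mem_erase hc)
  have hec : (B2.erase s0).card + 1 = N2 := by
    rw [Finset.card_erase_add_one hs0, hB2c]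
  -- colour 0 is impossible
  have hP0 : i2 ≠ 0 := by
    rintro rfl
    refine h2 P hP N _ H ξ0 V G ν σ hC hS B2 hB2N (by omega) ?_
    intro s hs S hS2 hSr hSc
    have h7 := hcol s hs S hS2 hSr hSc
    by_contra hcon
    rw [if_neg hcon] at h7
    split_ifs at h7
  by_cases hplus : i1 = 1
  · -- all pairs have sign plus
    have hpl : ∀ c ∈ B2.erase s0, Plus2 P G σ c s0 := by
      intro c hc
      have h7 := hpair s0 hs0 c (Finset.mem_of_mem_erase hc) (Finset.mem_range.1 (herase hc))
      rw [hplus] at h7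
      by_contra hcon
      rw [if_neg hcon] at h7
      exact absurd h7 (by norm_num)
    refine hRS P hP rfl rfl hεp N _ H ξ0 V G ν σ hS s0 (hBs s0 hs0) (B2.erase s0) herase
      (by omega) hpl ?_
    intro S hSe hSc
    rcases hfull s0 (hBs s0 hs0) S (hSe.trans herase) hSc with h7 | h7
    · exfalso
      apply hP0
      have h8 := hcol s0 hs0 S (hSe.trans (Finset.erase_subset _ _)) (hSe.trans herase) hSc
      rw [if_pos h7] at h8
      exact h8.symm
    · exact h7.1
  · -- all pairs have sign minus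
    have hnp : ∀ s ∈ B2, ∀ c ∈ B2, c < s → ¬ Plus2 P G σ c s := by
      intro s hs c hc hcs hpl
      have h7 := hpair s hs c hc hcs
      rw [if_pos hpl] at h7
      exact hplus h7.symm
    have hnx : ∀ s ∈ B2, ∀ S, S ⊆ B2 → S ⊆ Finset.range s → ¬ ∃ c ∈ S, Plus2 P G σ c s := by
      rintro s hs S hS2 hSr ⟨c, hc, hpl⟩
      exact hnp s hs c (hS2 hc) (Finset.mem_range.1 (hSr hc)) hpl
    -- the color of all the items
    have hcol2 : ∀ s ∈ B2, ∀ S, S ⊆ B2 → S ⊆ Finset.range s → S.card = P.m →
        ¬ TypeP P G σ S s ∧ (if TypeU P G ν σ N ξ0 S s then 2 else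
          if TypeA P G σ S s then 3 else 4) = i2 := by
      intro s hs S hS2 hSr hSc
      have h7 := hcol s hs S hS2 hSr hSc
      have h8 : ¬ TypeP P G σ S s := by
        intro h9
        rw [if_pos h9] at h7
        exact hP0 h7.symm
      rw [if_neg h8, if_neg (hnx s hs S hS2 hSr)] at h7
      exact ⟨h8, h7⟩
    by_cases hU2 : i2 = 2
    · refine hRU' N _ V G ν σ ξ0 hξ0.le le_rfl hC hS B2 hB2N (by omega) ?_ ?_
      · intro c hc s hs hcs
        rcases hS.sg2 c s hcs (hBs s hs) with h7 | h7
        · exact absurd h7 (hnp s hs c hc hcs)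
        · exact h7
      · intro s hs S hS2 hSr hSc
        have h7 := (hcol2 s hs S hS2 hSr hSc).2
        by_contra hcon
        rw [if_neg hcon, hU2] at h7
        split_ifs at h7 <;> omega
    · by_cases hA2 : i2 = 3
      · refine h3 P hP N _ H ξ0 V G ν σ hC hS B2 hB2N (by omega) ?_
        intro s hs S hS2 hSr hSc
        have h7 := (hcol2 s hs S hS2 hSr hSc).2
        by_contra hcon
        rw [if_neg hcon, hA2] at h7
        split_ifs at h7 <;> omega
      · have h9 : Nonempty (pat par (n0 + 1) ↪g G) := by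
          refine hRB P hP rfl N _ H ξ0 V G ν σ hS B2 hB2N (by omega) ?_
          intro s hs S hS2 hSr hSc
          obtain ⟨h7, h8⟩ := hcol2 s hs S hS2 hSr hSc
          rcases hfull s (hBs s hs) S hSr hSc with h10 | ⟨-, h10⟩
          · exact absurd h10 h7
          · rcases h10 with h10 | h10 | h10 | h10
            · exact absurd h10 (hnx s hs S hS2 hSr)
            · rw [if_pos h10] at h8
              exact absurd h8.symm hU2
            · by_cases hTU : TypeU P G ν σ N ξ0 S s
              · rw [if_pos hTU] at h8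
                exact absurd h8.symm hU2
              · rw [if_neg hTU, if_pos h10] at h8
                exact absurd h8.symm hA2
            · exact h10
        exact hE.false h9.some

end Pool.Agent.Lib.FGF
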