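import Pool.Agent.Lib.FGF.Stmts

/-!
# Joining a vertex to the roots of trees (module `Glue`)
-/

set_option autoImplicit false

namespace Pool.Agent.Lib.FGF

open Finset Classical
open Pool.Agent.Lib.FracGS (nb wnb TAdj pat)
open Pool.Agent.Lib.GSR3 (Stab Small Tree)

namespace GlueAux

variable {V : Type} {M : ℕ}

/-- The glued map. -/
def gmap (v : V) (φ : Fin M → List (Fin M) → V) (u : List (Fin M)) : V :=
  if h : u = [] then v else φ (u.getLast h) u.dropLast

lemma gmap_nil (v : V) (φ : Fin M → List (Fin M) → V) : gmap v φ [] = v := by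
  simp [gmap]

lemma gmap_concat (v : V) (φ : Fin M → List (Fin M) → V) (u : List (Fin M)) (i : Fin M) :
    gmap v φ (u ++ [i]) = φ i u := by
  have h : u ++ [i] ≠ [] := by simp
  rw [gmap, dif_neg h]
  simp

lemma tadj_symm {k : ℕ} {u w : List (Fin k)} : TAdj u w ↔ TAdj w u := by
  constructor
  · rintro (h | h)
    · exact Or.inr h
    · exact Or.inl h
  · rintro (h | h)
    · exact Or.inr h
    · exact Or.inl h

lemma tadj_nil {k : ℕ} (w : List (Fin k)) (i : Fin k) : TAdj [] (w ++ [i]) ↔ w = [] := by
  constructor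
  · rintro (⟨t, h⟩ | ⟨t, h⟩)
    · exact absurd h (by simp)
    · cases w with
      | nil => rfl
      | cons a w => simp at h
  · rintro rfl
    exact Or.inr ⟨i, rfl⟩

lemma tadj_concat {k : ℕ} (u w : List (Fin k)) (i i' : Fin k) :
    TAdj (u ++ [i]) (w ++ [i']) ↔ i = i' ∧ TAdj u w := by
  have key : ∀ (u w : List (Fin k)) (i i' : Fin k),
      (∃ t, u ++ [i] = t :: (w ++ [i'])) ↔ i = i' ∧ ∃ t, u = t :: w := by
    intro u w i i'
    constructor
    · rintro ⟨t, h⟩
      rw [← List.cons_append] at h
      obtain ⟨h1, h2⟩ := List.append_inj' h rfl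
      simp only [List.cons.injEq, and_true] at h2
      exact ⟨h2, t, h1⟩
    · rintro ⟨rfl, t, rfl⟩
      exact ⟨t, rfl⟩
  constructor
  · rintro (h | h)
    · obtain ⟨h1, h2⟩ := (key u w i i').1 h
      exact ⟨h1, Or.inl h2⟩
    · obtain ⟨h1, h2⟩ := (key w u i' i).1 h
      exact ⟨h1.symm, Or.inr h2⟩
  · rintro ⟨h1, h | h⟩
    · exact Or.inl ((key u w i i').2 ⟨h1, h⟩)
    · exact Or.inr ((key w u i' i).2 ⟨h1.symm, h⟩)

end GlueAux

open GlueAux in
theorem stGlue : StGlue := by
  intro V G M j v φ hT hv h3 h4 h5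
  have hnil : ∀ (i : Fin M) (w : List (Fin M)), w.length ≤ j →
      (G.Adj v (φ i w) ↔ w = []) := by
    intro i w hw
    constructor
    · intro h
      by_contra hne
      exact h4 i w hne hw h
    · rintro rfl
      exact hv i
  refine ⟨gmap v φ, ⟨?_, ?_⟩, gmap_nil v φ, fun i u _ => gmap_concat v φ u i⟩
  · intro u w hu hw h
    rcases List.eq_nil_or_concat' u with rfl | ⟨u, i, rfl⟩ <;>
      rcases List.eq_nil_or_concat' w with rfl | ⟨w, i', rfl⟩
    · rfl
    · rw [gmap_nil, gmap_concat] at h
      exact absurd h.symm (h3 i' w (by simpa using hw))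
    · rw [gmap_nil, gmap_concat] at h
      exact absurd h (h3 i u (by simpa using hu))
    · rw [gmap_concat, gmap_concat] at h
      have hu' : u.length ≤ j := by simpa using hu
      have hw' : w.length ≤ j := by simpa using hw
      by_cases hi : i = i'
      · subst hi
        rw [(hT i).inj u w hu' hw' h]
      · exact absurd h (h5 i i' u w hi hu' hw').1
  · intro u w hu hw
    rcases List.eq_nil_or_concat' u with rfl | ⟨u, i, rfl⟩ <;>
      rcases List.eq_nil_or_concat' w with rfl | ⟨w, i', rfl⟩
    · rw [gmap_nil]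
      constructor
      · intro h
        exact absurd h (G.irrefl)
      · rintro (⟨t, h⟩ | ⟨t, h⟩) <;> exact absurd h (by simp)
    · rw [gmap_nil, gmap_concat, tadj_nil]
      exact hnil i' w (by simpa using hw)
    · rw [gmap_nil, gmap_concat, tadj_symm, tadj_nil, G.adj_comm]
      exact hnil i u (by simpa using hu)
    · rw [gmap_concat, gmap_concat, tadj_concat]
      have hu' : u.length ≤ j := by simpa using hu
      have hw' : w.length ≤ j := by simpa using hw
      by_cases hi : i = i'
      · subst hi
        rw [(hT i).adj u w hu' hw']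
        simp
      · constructor
        · intro h
          exact absurd h (h5 i i' u w hi hu' hw').2
        · rintro ⟨h, -⟩
          exact absurd h hi

end Pool.Agent.Lib.FGF
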