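import Pool.Agent.Lib.FGF.Stmts

/-!
# The fractional Gyarfas-Sumner conjecture: an item gets a type
-/

set_option autoImplicit false

namespace Pool.Agent.Lib.FGF

open Finset Classical

namespace IMoveAux

variable {V : Type} [Fintype V] {P : Par} {G : SimpleGraph V} {ν : V → ℝ} {σ : Dat V}

theorem ms_nonneg (h : ∀ v, 0 ≤ ν v) (A : Finset V) : 0 ≤ ms ν A := sum_nonneg fun v _ => h v

/-- one more item -/
theorem ins {n : ℕ} {T : Finset (Finset ℕ)} {H ξ : ℝ} {S : Finset ℕ}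
    (h : Sys P (n + 1) T H ξ G ν σ) (hi : Item P G ν σ (n + 1) ξ S n) :
    Sys P (n + 1) (insert S T) H ξ G ν σ where
  ν0 := h.ν0
  ν1 := h.ν1
  al := h.al
  W0 := h.W0
  sub := h.sub
  pos := h.pos
  ρ0 := h.ρ0
  ρW := h.ρW
  ρ1 := h.ρ1
  ρS := h.ρS
  ap := h.ap
  dH := h.dH
  dξ := h.dξ
  at' := h.at'
  drop := h.drop
  far := h.far
  sg2 := h.sg2
  sgS := h.sgS
  ker := h.ker
  itm := by
    intro s hs S' hS' hc hor
    rcases hor with h1 | h1
    · exact h.itm s hs S' hS' hc (Or.inl h1)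
    · rcases mem_insert.1 h1 with h2 | h2
      · by_cases hsn : s = n
        · subst hsn
          subst h2
          exact hi
        · exact h.itm s hs S' hS' hc (Or.inl (by omega))
      · exact h.itm s hs S' hS' hc (Or.inr h2)
  lab := h.lab
  sep := h.sep

theorem minus_shr {n : ℕ} {S : Finset ℕ} {W' : Finset V} (h : MinusS P G σ S n)
    (hW : W' ⊆ σ.W (n + 1)) : MinusS P G (σ.shr (n + 1) W') S n := by
  intro x hx
  have h1 : (σ.shr (n + 1) W').W (n + 1) = W' := by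
    simp [Dat.shr]
  rw [h1] at hx
  exact h x (hW hx)

end IMoveAux

open IMoveAux in
theorem stIMove (h1 : StMono) (h2 : StShr) (h3 : StPItem) (h4 : StSplit) (h5 : StAItem)
    (h6 : StBItem) (h7 : StSetB) : StIMove := by
  intro P hP n S hSn hSc T F hF H hH
  have hε := hP.ε0
  have hε1 := hP.ε1
  have hεp := hP.εp0
  have hεp1 := hP.εp1
  have hκ := hP.κ1
  obtain ⟨ξP, hξP, hPI⟩ := h3 P hP n H
  obtain ⟨K, hK, hAI⟩ := h5 P hP n H hH
  have hFH := hF H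
  set c1 : ℝ := max 1 (32 / (P.ε * F H)) with hc1
  have hc1' : 1 ≤ c1 := le_max_left _ _
  obtain ⟨ξA, hξA, hAI⟩ := hAI c1 hc1'
  obtain ⟨HB, hHB, hBI⟩ := h6 P hP n H K c1 hH hK hc1'
  set cP : ℝ := 4 * P.κ / P.εp with hcP
  have hcP' : 1 ≤ cP := by
    rw [hcP, le_div_iff₀ hεp]
    linarith
  set c2 : ℝ := c1 * (256 * P.κ / P.ε) with hc2
  have hq : 1 ≤ 256 * P.κ / P.ε := by
    rw [le_div_iff₀ hε]
    linarith
  have hc2' : 1 ≤ c2 := one_le_mul_of_one_le_of_one_le hc1' hq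
  set c3 : ℝ := c1 * HB with hc3
  have hc3' : 1 ≤ c3 := one_le_mul_of_one_le_of_one_le hc1' hHB
  set H3 : ℝ := max (c3 * H) HB with hH3
  have hcP0 : 0 < cP := by linarith
  have hc20 : 0 < c2 := by linarith
  have hc30 : 0 < c3 := by linarith
  set ξ : ℝ := min (min (min ξP ξA) (min (F H) (F (cP * H) / cP)))
    (min (F (c2 * H) / c2) (F H3 / c3)) with hξ
  have hξ0 : 0 < ξ := by
    refine lt_min (lt_min (lt_min hξP hξA) (lt_min hFH (div_pos (hF _) hcP0)))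
      (lt_min (div_pos (hF _) hc20) (div_pos (hF _) hc30))
  have e1 : ξ ≤ ξP := (min_le_left _ _).trans ((min_le_left _ _).trans (min_le_left _ _))
  have e2 : ξ ≤ ξA := (min_le_left _ _).trans ((min_le_left _ _).trans (min_le_right _ _))
  have e3 : ξ ≤ F H := (min_le_left _ _).trans ((min_le_right _ _).trans (min_le_left _ _))
  have e4 : cP * ξ ≤ F (cP * H) := by
    have h := (min_le_left _ _).trans ((min_le_right _ _).trans (min_le_right _ _)) |>.trans_eq'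
      hξ
    rw [le_div_iff₀ hcP0] at h
    linarith
  have e5 : c2 * ξ ≤ F (c2 * H) := by
    have h := (min_le_right _ _).trans (min_le_left _ _) |>.trans_eq' hξ
    rw [le_div_iff₀ hc20] at h
    linarith
  have e6 : c3 * ξ ≤ F H3 := by
    have h := (min_le_right _ _).trans (min_le_right _ _) |>.trans_eq' hξ
    rw [le_div_iff₀ hc30] at h
    linarith
  refine ⟨ξ, hξ0, ?_⟩
  intro V _ G ν σ hC hS
  have hH0 : 0 ≤ H := by linarith
  have hle : ∀ c : ℝ, 1 ≤ c → 1 ≤ c * H := fun c hc => one_le_mul_of_one_le_of_one_le hc hH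
  rcases hS.sgS n (Nat.lt_succ_self n) S hSn hSc with hPl | hMi
  · -- plus
    obtain ⟨W', hW', hms, hTP⟩ := hPI T V G ν σ ξ S e1 hC hS hSn hSc hPl
    have hms' : ms ν (σ.W (n + 1)) ≤ cP * ms ν W' := by
      rw [hcP, div_mul_eq_mul_div, le_div_iff₀ hεp]
      linarith
    have h8 := h2 P hP n T H ξ cP V G ν σ W' hcP' hH0 hξ0.le hS hW' hms'
    exact ⟨cP * H, σ.shr (n + 1) W', hle _ hcP',
      ins (h1 P (n + 1) T _ _ _ _ V G ν _ le_rfl e4 h8) (Or.inl hTP)⟩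
  by_cases h2p : ∃ c ∈ S, Plus2 P G σ c n
  · exact ⟨H, σ, hH, ins (h1 P (n + 1) T _ _ _ _ V G ν σ le_rfl e3 hS)
      (Or.inr ⟨hMi, Or.inl h2p⟩)⟩
  have hall : ∀ c ∈ S, Minus2 P G σ c n := by
    intro c hc
    rcases hS.sg2 c n (Finset.mem_range.1 (hSn hc)) (Nat.lt_succ_self n) with h | h
    · exact absurd ⟨c, hc, h⟩ h2p
    · exact h
  by_cases hU : TypeU P G ν σ (n + 1) (F H) S n
  · exact ⟨H, σ, hH, ins (h1 P (n + 1) T _ _ _ _ V G ν σ le_rfl e3 hS)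
      (Or.inr ⟨hMi, Or.inr (Or.inl hU)⟩)⟩
  unfold TypeU at hU
  push Not at hU
  obtain ⟨W1, hW1, hmsW1, hlk⟩ := hU
  obtain ⟨W', Gd, Fy, A, μ, hW'1, hmsW', hor⟩ :=
    h4 P hP n T H ξ K V G ν σ S W1 hK hS hSn hSc hall hW1 hlk
  have hW'n : W' ⊆ σ.W (n + 1) := hW'1.trans hW1
  have h0' : 0 ≤ ms ν W' := ms_nonneg hS.ν0 W'
  have hmsn : ms ν (σ.W (n + 1)) ≤ c1 * ms ν W' := by
    have h8 : ms ν (σ.W (n + 1)) ≤ 32 / (P.ε * F H) * ms ν W' := by
      rw [div_mul_eq_mul_div, le_div_iff₀ (mul_pos hε hFH)]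
      have h9 := mul_le_mul_of_nonneg_left hmsW1 hε.le
      nlinarith
    exact h8.trans (mul_le_mul_of_nonneg_right (le_max_right _ _) h0')
  rcases hor with hA | hB
  · obtain ⟨W'', hW'', hms'', hTA⟩ := hAI T V G ν σ ξ S W' Gd Fy A μ e2 hC hS hSn hSc hW'n hmsn hA
    have hms3 : ms ν (σ.W (n + 1)) ≤ c2 * ms ν W'' := by
      have h8 : ms ν W' ≤ 256 * P.κ / P.ε * ms ν W'' := by
        rw [div_mul_eq_mul_div, le_div_iff₀ hε]
        linarith
      rw [hc2, mul_assoc]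
      exact hmsn.trans (mul_le_mul_of_nonneg_left h8 (by linarith))
    have h8 := h2 P hP n T H ξ c2 V G ν σ W'' hc2' hH0 hξ0.le hS (hW''.trans hW'n) hms3
    exact ⟨c2 * H, σ.shr (n + 1) W'', hle _ hc2',
      ins (h1 P (n + 1) T _ _ _ _ V G ν _ le_rfl e5 h8)
        (Or.inr ⟨minus_shr hMi (hW''.trans hW'n), Or.inr (Or.inr (Or.inl hTA))⟩)⟩
  · obtain ⟨W'', lb, nr, hW'', hms'', hLab⟩ :=
      hBI T V G ν σ ξ S W' Gd Fy A μ hC hS hSn hSc hW'n hmsn hB
    have hms3 : ms ν (σ.W (n + 1)) ≤ c3 * ms ν W'' := by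
      rw [hc3, mul_assoc]
      exact hmsn.trans (mul_le_mul_of_nonneg_left hms'' (by linarith))
    have h8 := h7 P hP n T H ξ c3 HB V G ν σ S W'' lb nr hc3' hH0 hξ0.le hS hSn hSc
      (hW''.trans hW'n) hms3 hLab hMi
    exact ⟨H3, _, (hle _ hc3').trans (le_max_left _ _),
      h1 P (n + 1) (insert S T) _ _ _ _ V G ν _ le_rfl e6 h8⟩

end Pool.Agent.Lib.FGF
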