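import Pool.Agent.Lib.FGF.Stmts2

/-!
# Fractional Gyarfas-Sumner: many functions with large means
-/

set_option autoImplicit false

namespace Pool.Agent.Lib.FGF

open Finset Classical

namespace JenAux

/-- The tuples with two equal entries. -/
theorem card_eq_le (A : Finset ℕ) (m' : ℕ) (i j : Fin (m' + 1)) (hij : i ≠ j) :
    ((Fintype.piFinset (fun _ : Fin (m' + 1) => A)).filter (fun t => t i = t j)).card ≤
      A.card ^ m' := by
  have hc : (Fintype.piFinset (fun _ : Fin m' => A)).card = A.card ^ m' := by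
    simp [Fintype.card_piFinset]
  rw [← hc]
  refine Finset.card_le_card_of_injOn (fun t k => t (j.succAbove k)) ?_ ?_
  · intro t ht
    have ht' := (Finset.mem_filter.mp (Finset.mem_coe.mp ht)).1
    rw [Finset.mem_coe, Fintype.mem_piFinset]
    intro k
    exact (Fintype.mem_piFinset.mp ht') _
  · intro t ht t' ht' h
    have h1 := (Finset.mem_filter.mp (Finset.mem_coe.mp ht)).2
    have h2 := (Finset.mem_filter.mp (Finset.mem_coe.mp ht')).2
    have h3 : ∀ k, t (j.succAbove k) = t' (j.succAbove k) := fun k => congrFun h k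
    obtain ⟨k0, hk0⟩ := Fin.exists_succAbove_eq hij
    funext k
    by_cases hk : k = j
    · subst hk
      rw [← h1, ← h2, ← hk0]
      exact h3 k0
    · obtain ⟨k1, hk1⟩ := Fin.exists_succAbove_eq hk
      rw [← hk1]
      exact h3 k1

/-- The tuples which are not injective. -/
theorem card_not_inj_le (A : Finset ℕ) (m' : ℕ) :
    ((Fintype.piFinset (fun _ : Fin (m' + 1) => A)).filter
      (fun t => ¬ Function.Injective t)).card ≤ (m' + 1) ^ 2 * A.card ^ m' := by
  have hsub : (Fintype.piFinset (fun _ : Fin (m' + 1) => A)).filter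
      (fun t => ¬ Function.Injective t) ⊆
      ((Finset.univ : Finset (Fin (m' + 1) × Fin (m' + 1))).filter (fun q => q.1 ≠ q.2)).biUnion
        (fun q => (Fintype.piFinset (fun _ : Fin (m' + 1) => A)).filter
          (fun t => t q.1 = t q.2)) := by
    intro t ht
    obtain ⟨ht1, ht2⟩ := Finset.mem_filter.mp ht
    have : ∃ a b, t a = t b ∧ a ≠ b := by
      by_contra hcon
      apply ht2
      intro a b hab
      by_contra hne
      exact hcon ⟨a, b, hab, hne⟩
    obtain ⟨a, b, hab, hne⟩ := this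
    rw [Finset.mem_biUnion]
    exact ⟨(a, b), Finset.mem_filter.mpr ⟨Finset.mem_univ _, hne⟩,
      Finset.mem_filter.mpr ⟨ht1, hab⟩⟩
  refine (Finset.card_le_card hsub).trans (Finset.card_biUnion_le.trans ?_)
  refine (Finset.sum_le_sum (g := fun _ => A.card ^ m') (fun q hq =>
    card_eq_le A m' q.1 q.2 (Finset.mem_filter.mp hq).2)).trans ?_
  rw [Finset.sum_const, smul_eq_mul]
  apply Nat.mul_le_mul_right
  refine (Finset.card_filter_le _ _).trans (le_of_eq ?_)
  rw [Finset.card_univ, Fintype.card_prod, Fintype.card_fin]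
  ring

/-- The normalised form. -/
theorem core (m' : ℕ) (e : ℝ) (he : 0 < e) (Ω : Type) [Fintype Ω] (w : Ω → ℝ)
    (f : ℕ → Ω → ℝ) (A : Finset ℕ) (hw : ∀ ω, 0 ≤ w ω)
    (hf : ∀ c ∈ A, ∀ ω, 0 ≤ f c ω ∧ f c ω ≤ 1) (hw1 : ∑ ω, w ω = 1)
    (hA0 : 0 < A.card)
    (hA : ((m' : ℝ) + 1) ^ 2 < A.card * (e ^ (m' + 1) / 2))
    (hmean : ∀ c ∈ A, e ≤ ∑ ω, w ω * f c ω) :
    ∃ S, S ⊆ A ∧ S.card = m' + 1 ∧ e ^ (m' + 1) / 2 < ∑ ω, w ω * ∏ c ∈ S, f c ω := by
  by_contra hcon
  have hS : ∀ S, S ⊆ A → S.card = m' + 1 →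
      ∑ ω, w ω * ∏ c ∈ S, f c ω ≤ e ^ (m' + 1) / 2 := by
    intro S h1 h2
    by_contra h3
    exact hcon ⟨S, h1, h2, not_le.mp h3⟩
  set n : ℝ := (A.card : ℝ) with hn
  have hn0 : 0 < n := by
    rw [hn]
    exact_mod_cast hA0
  set T := Fintype.piFinset (fun _ : Fin (m' + 1) => A) with hT
  have hTc : (T.card : ℝ) = n ^ (m' + 1) := by
    rw [hT, Fintype.card_piFinset]
    simp [hn]
  -- the moment
  have hJ : (n * e) ^ (m' + 1) ≤ ∑ ω, w ω * (∑ c ∈ A, f c ω) ^ (m' + 1) := by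
    have h1 := Real.pow_arith_mean_le_arith_mean_pow (s := Finset.univ) w
      (fun ω => ∑ c ∈ A, f c ω) (fun ω _ => hw ω) hw1
      (fun ω _ => Finset.sum_nonneg fun c hc => (hf c hc ω).1) (m' + 1)
    refine le_trans (pow_le_pow_left₀ (mul_nonneg hn0.le he.le) ?_ _) h1
    have h2 : ∑ ω, w ω * ∑ c ∈ A, f c ω = ∑ c ∈ A, ∑ ω, w ω * f c ω := by
      rw [Finset.sum_comm]
      exact Finset.sum_congr rfl fun ω _ => Finset.mul_sum _ _ _
    rw [h2]
    calc n * e = ∑ c ∈ A, e := by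
          rw [Finset.sum_const, nsmul_eq_mul]
      _ ≤ _ := Finset.sum_le_sum hmean
  have hexp : ∑ ω, w ω * (∑ c ∈ A, f c ω) ^ (m' + 1) =
      ∑ t ∈ T, ∑ ω, w ω * ∏ i, f (t i) ω := by
    rw [Finset.sum_comm]
    refine Finset.sum_congr rfl fun ω _ => ?_
    rw [← Finset.mul_sum]
    congr 1
    have h3 := Finset.prod_univ_sum (fun _ : Fin (m' + 1) => A) (fun _ c => f c ω)
    rw [Finset.prod_const, Finset.card_univ, Fintype.card_fin] at h3
    exact h3
  have hsplit : ∑ t ∈ T, ∑ ω, w ω * ∏ i, f (t i) ω ≤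
      ∑ t ∈ T, (e ^ (m' + 1) / 2 + if Function.Injective t then (0 : ℝ) else 1) := by
    refine Finset.sum_le_sum fun t ht => ?_
    have htA : ∀ i, t i ∈ A := fun i => Fintype.mem_piFinset.mp ht i
    by_cases hi : Function.Injective t
    · rw [if_pos hi, add_zero]
      have h4 := hS (Finset.univ.image t) (by
        intro c hc
        obtain ⟨i, _, rfl⟩ := Finset.mem_image.mp hc
        exact htA i) (by
        rw [Finset.card_image_of_injective _ hi, Finset.card_univ, Fintype.card_fin])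
      refine le_trans (le_of_eq ?_) h4
      refine Finset.sum_congr rfl fun ω _ => ?_
      rw [Finset.prod_image fun a _ b _ hab => hi hab]
    · rw [if_neg hi]
      have h5 : ∑ ω, w ω * ∏ i, f (t i) ω ≤ ∑ ω, w ω := by
        refine Finset.sum_le_sum fun ω _ => ?_
        calc w ω * ∏ i, f (t i) ω ≤ w ω * 1 :=
              mul_le_mul_of_nonneg_left (Finset.prod_le_one
                (fun i _ => (hf _ (htA i) ω).1) (fun i _ => (hf _ (htA i) ω).2)) (hw ω)
          _ = w ω := mul_one _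
      rw [hw1] at h5
      have h6 : 0 ≤ e ^ (m' + 1) / 2 := by positivity
      linarith
  have hcount : ∑ t ∈ T, (e ^ (m' + 1) / 2 + if Function.Injective t then (0 : ℝ) else 1) ≤
      n ^ (m' + 1) * (e ^ (m' + 1) / 2) + ((m' : ℝ) + 1) ^ 2 * n ^ m' := by
    rw [Finset.sum_add_distrib, Finset.sum_const, nsmul_eq_mul, hTc]
    have h7 : ∑ t ∈ T, (if Function.Injective t then (0 : ℝ) else 1) =
        ((T.filter (fun t => ¬ Function.Injective t)).card : ℝ) := by
      rw [Finset.card_filter]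
      push_cast
      refine Finset.sum_congr rfl fun t _ => ?_
      by_cases h : Function.Injective t <;> simp [h]
    rw [h7]
    have h8 := card_not_inj_le A m'
    have h9 : ((T.filter (fun t => ¬ Function.Injective t)).card : ℝ) ≤
        ((m' : ℝ) + 1) ^ 2 * n ^ m' := by
      rw [hn]
      exact_mod_cast h8
    linarith
  have hfin : (n * e) ^ (m' + 1) ≤
      n ^ (m' + 1) * (e ^ (m' + 1) / 2) + ((m' : ℝ) + 1) ^ 2 * n ^ m' :=
    hJ.trans ((le_of_eq hexp).trans (hsplit.trans hcount))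
  have hlt : ((m' : ℝ) + 1) ^ 2 * n ^ m' < n * (e ^ (m' + 1) / 2) * n ^ m' :=
    mul_lt_mul_of_pos_right hA (pow_pos hn0 _)
  have heq : (n * e) ^ (m' + 1) = 2 * (n ^ (m' + 1) * (e ^ (m' + 1) / 2)) := by
    rw [mul_pow]
    ring
  have heq2 : n * (e ^ (m' + 1) / 2) * n ^ m' = n ^ (m' + 1) * (e ^ (m' + 1) / 2) := by
    rw [pow_succ n m']
    ring
  rw [heq2] at hlt
  rw [heq] at hfin
  linarith

end JenAux

open JenAux in
/-- Module `Jen`. -/
theorem stJen : StJen := by
  intro m e he he1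
  rcases Nat.eq_zero_or_pos m with hm | hm
  · subst hm
    refine ⟨0, ?_⟩
    intro Ω _ p f A hp hf hP _ _
    refine ⟨∅, Finset.empty_subset _, Finset.card_empty, ?_⟩
    simp only [pow_zero, Finset.prod_empty, mul_one]
    linarith
  · obtain ⟨m', rfl⟩ : ∃ m', m = m' + 1 := ⟨m - 1, by omega⟩
    have hE : 0 < e ^ (m' + 1) / 2 := by positivity
    refine ⟨⌈((m' : ℝ) + 1) ^ 2 / (e ^ (m' + 1) / 2)⌉₊ + 1, ?_⟩
    intro Ω _ p f A hp hf hP hA hmean
    set P := ∑ ω, p ω with hPdef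
    have hA0 : 0 < A.card := by omega
    have hA' : ((m' : ℝ) + 1) ^ 2 < A.card * (e ^ (m' + 1) / 2) := by
      have h1 : ((m' : ℝ) + 1) ^ 2 / (e ^ (m' + 1) / 2) < A.card := by
        have h2 := Nat.le_ceil (((m' : ℝ) + 1) ^ 2 / (e ^ (m' + 1) / 2))
        have h3 : ((⌈((m' : ℝ) + 1) ^ 2 / (e ^ (m' + 1) / 2)⌉₊ : ℕ) : ℝ) + 1 ≤ A.card := by
          exact_mod_cast hA
        linarith
      rwa [div_lt_iff₀ hE] at h1
    obtain ⟨S, hS1, hS2, hS3⟩ := core m' e he Ω (fun ω => p ω / P) f A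
      (fun ω => div_nonneg (hp ω) hP.le) hf (by
        rw [← Finset.sum_div]
        exact div_self hP.ne') hA0 hA' (by
        intro c hc
        have h4 : ∑ ω, p ω / P * f c ω = (∑ ω, p ω * f c ω) / P := by
          rw [Finset.sum_div]
          exact Finset.sum_congr rfl fun ω _ => by ring
        rw [h4, le_div_iff₀ hP]
        exact hmean c hc)
    refine ⟨S, hS1, hS2, ?_⟩
    have h5 : ∑ ω, p ω / P * ∏ c ∈ S, f c ω = (∑ ω, p ω * ∏ c ∈ S, f c ω) / P := by
      rw [Finset.sum_div]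
      exact Finset.sum_congr rfl fun ω _ => by ring
    rw [h5, lt_div_iff₀ hP] at hS3
    exact hS3

end Pool.Agent.Lib.FGF
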