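import Pool.Agent.Lib.GSR3.Base

/-!
# Fractional Gyarfas-Sumner: configurations in a pool of unlinked stages (definitions)

All graphs are finite.  `W` is a set of vertices with a law `μ`; the levels `i = 0, 1, ...` have
stable sets of hubs `J i` with weights `q i`.  Small levels are inner (late stages), large levels
are outer (early stages).
-/

set_option autoImplicit false

namespace Pool.Agent.Lib.FGL

open Finset Classical
open Pool.Agent.Lib.FracGS (nb wnb om TAdj)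
open Pool.Agent.Lib.GSR3 (Stab Tree)

/-- `a(v)`: the `ρ`-weight of the neighbourhood of `v`. -/
noncomputable def aw {V : Type} [Fintype V] (G : SimpleGraph V) (ρ : V → ℝ) (v : V) : ℝ :=
  wnb G univ ρ v

/-- `D(v)`: the sum of `μ x / a(x)` over the neighbours `x` of `v` in `W`. -/
noncomputable def Dw {V : Type} [Fintype V] (G : SimpleGraph V) (W : Finset V) (μ ρ : V → ℝ)
    (v : V) : ℝ :=
  wnb G W (fun x => μ x / aw G ρ x) v

/-- The link of `x` and `x'`. -/
noncomputable def lk {V : Type} [Fintype V] (G : SimpleGraph V) (ρ : V → ℝ) (x x' : V) : ℝ :=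
  om G univ ρ x x' / Real.sqrt (aw G ρ x * aw G ρ x')

/-- The law of the mates `(x, x')` via the hubs with weights `ρ`. -/
noncomputable def mt {V : Type} [Fintype V] (G : SimpleGraph V) (W : Finset V) (μ ρ : V → ℝ)
    (x x' : V) : ℝ :=
  om G univ (fun y => ρ y / Dw G W μ ρ y) x x' * (μ x / aw G ρ x) * (μ x' / aw G ρ x')

/-- A system of `r` unlinked levels. -/
structure LSys {V : Type} [Fintype V] (G : SimpleGraph V) (W : Finset V) (μ : V → ℝ) (r : ℕ)
    (J : ℕ → Finset V) (q : ℕ → V → ℝ) (H xi Gam e1 e2 : ℝ) : Prop where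
  μ0 : ∀ x, 0 ≤ μ x
  μW : ∀ x, x ∉ W → μ x = 0
  μ1 : ∑ x ∈ W, μ x = 1
  q0 : ∀ i < r, ∀ y, 0 ≤ q i y
  q1 : ∀ i < r, ∑ y, q i y ≤ 1
  qJ : ∀ i < r, ∀ y, y ∉ J i → q i y = 0
  stab : ∀ i < r, Stab G (J i)
  dW : ∀ i < r, Disjoint (J i) W
  dJ : ∀ i < r, ∀ j < r, i ≠ j → Disjoint (J i) (J j)
  apos : ∀ i < r, ∀ x ∈ W, 0 < aw G (q i) x
  aposJ : ∀ i j, i < j → j < r → ∀ x ∈ J i, 0 < aw G (q j) x
  Dxi : ∀ i < r, ∀ w ∈ W, Dw G W μ (q i) w ≤ xi
  DxiJ : ∀ i j, i < j → j < r → ∀ w ∈ J i, Dw G W μ (q j) w ≤ xi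
  DH : ∀ i < r, ∀ y ∈ J i, Dw G W μ (q i) y ≤ H
  atm : ∀ i < r, ∀ x ∈ W, μ x ≤ xi * aw G (q i) x
  scJ : ∀ i j k, i < j → j < k → k < r → ∀ v ∈ J i, aw G (q j) v ≤ xi * aw G (q k) v
  sg : ∀ i j, i < j → j < r → ∀ x ∈ W,
    wnb G univ (fun y => if aw G (q j) x < Gam * aw G (q j) y then q i y else 0) x ≤
      e2 * aw G (q i) x
  lam : ∀ i j, i < j → j < r →
    ∑ x ∈ W, ∑ x' ∈ W, mt G W μ (q i) x x' * lk G (q j) x x' ≤ e1

/-- Configurations of depth `d`: a configuration of depth `0` is a vertex, a configuration of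
depth `d + 1` is a hub and `M + 1` configurations of depth `d`. -/
def Conf (M : ℕ) (V : Type) : ℕ → Type
  | 0 => V
  | d + 1 => V × (Fin (M + 1) → Conf M V d)

noncomputable instance Conf.fintype (M : ℕ) (V : Type) [Fintype V] :
    (d : ℕ) → Fintype (Conf M V d)
  | 0 => inferInstanceAs (Fintype V)
  | d + 1 =>
    haveI := Conf.fintype M V d
    inferInstanceAs (Fintype (V × (Fin (M + 1) → Conf M V d)))

/-- The root: the vertex of the copies with number `0`. -/
def root {M : ℕ} {V : Type} : (d : ℕ) → Conf M V d → V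
  | 0, x => x
  | d + 1, x => root d (x.2 0)

/-- Positions of the vertices in `W`. -/
def WN (M : ℕ) : ℕ → Type
  | 0 => Unit
  | d + 1 => Fin (M + 1) × WN M d

instance WN.fintype (M : ℕ) : (d : ℕ) → Fintype (WN M d)
  | 0 => inferInstanceAs (Fintype Unit)
  | d + 1 =>
    haveI := WN.fintype M d
    inferInstanceAs (Fintype (Fin (M + 1) × WN M d))

/-- The vertex of `W` in position `u`. -/
def wv {M : ℕ} {V : Type} : (d : ℕ) → Conf M V d → WN M d → V
  | 0, x, _ => x
  | d + 1, x, u => wv d (x.2 u.1) u.2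

/-- The position of the root. -/
def rn (M : ℕ) : (d : ℕ) → WN M d
  | 0 => ()
  | d + 1 => (0, rn M d)

/-- Positions of the hubs. -/
def HN (M : ℕ) : ℕ → Type
  | 0 => Empty
  | d + 1 => Option (Fin (M + 1) × HN M d)

instance HN.fintype (M : ℕ) : (d : ℕ) → Fintype (HN M d)
  | 0 => inferInstanceAs (Fintype Empty)
  | d + 1 =>
    haveI := HN.fintype M d
    inferInstanceAs (Fintype (Option (Fin (M + 1) × HN M d)))

/-- The hub in position `h`. -/
def hv {M : ℕ} {V : Type} : (d : ℕ) → Conf M V d → HN M d → V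
  | 0, _, h => h.elim
  | _ + 1, x, none => x.1
  | d + 1, x, some h => hv d (x.2 h.1) h.2

/-- The level of the hub in position `h`. -/
def lev {M : ℕ} : (d : ℕ) → HN M d → ℕ
  | 0, h => h.elim
  | d + 1, none => d
  | d + 1, some h => lev d h.2

/-- The root of the copy with number `0` at the hub in position `h`. -/
def hr {M : ℕ} {V : Type} : (d : ℕ) → Conf M V d → HN M d → V
  | 0, _, h => h.elim
  | d + 1, x, none => root d (x.2 0)
  | d + 1, x, some h => hr d (x.2 h.1) h.2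

/-- The weight of a configuration `f` hanging at the hub `g`, relative to the weight `w`. -/
noncomputable def kw {V C : Type} [Fintype V] (G : SimpleGraph V) (W : Finset V) (μ ρ : V → ℝ)
    (rt : C → V) (w : C → ℝ) (g : V) (f : C) : ℝ :=
  w f * (if G.Adj g (rt f) then 1 else 0) / (aw G ρ (rt f) * Dw G W μ ρ g)

/-- The law of the random configuration of depth `d`. -/
noncomputable def cw {V : Type} [Fintype V] (G : SimpleGraph V) (W : Finset V) (μ : V → ℝ)
    (q : ℕ → V → ℝ) (M : ℕ) : (d : ℕ) → Conf M V d → ℝ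
  | 0, x => μ x
  | d + 1, x => q d x.1 * Dw G W μ (q d) x.1 *
      ∏ e, kw G W μ (q d) (root d) (cw G W μ q M d) x.1 (x.2 e)

/-- The probability of `E` for the weight `w`. -/
noncomputable def prb {C : Type} [Fintype C] (w : C → ℝ) (E : C → Prop) : ℝ :=
  ∑ x, if E x then w x else 0

/-- The root has the largest `a` among all the vertices of `W` in the configuration. -/
def Top {V : Type} [Fintype V] (G : SimpleGraph V) (ρ : V → ℝ) {M : ℕ} (d : ℕ)
    (x : Conf M V d) : Prop :=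
  ∀ u, aw G ρ (wv d x u) ≤ aw G ρ (root d x)

/-- At every hub the root of every copy has the largest `a` in this copy. -/
def OK {V : Type} [Fintype V] (G : SimpleGraph V) (q : ℕ → V → ℝ) {M : ℕ} :
    (d : ℕ) → Conf M V d → Prop
  | 0, _ => True
  | d + 1, x => ∀ e, OK G q d (x.2 e) ∧ Top G (q d) d (x.2 e)

/-- There are no conflicts. -/
def Clean {V : Type} (G : SimpleGraph V) {M : ℕ} : (d : ℕ) → Conf M V d → Prop
  | 0, _ => True
  | d + 1, x => (∀ e, Clean G d (x.2 e)) ∧ (∀ e, G.Adj x.1 (root d (x.2 e))) ∧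
      (∀ e u, u ≠ rn M d → ¬ G.Adj x.1 (wv d (x.2 e) u)) ∧
      (∀ e u, x.1 ≠ wv d (x.2 e) u) ∧
      (∀ e h, ¬ G.Adj x.1 (hv d (x.2 e) h)) ∧
      (∀ e h, x.1 ≠ hv d (x.2 e) h) ∧
      (∀ e e', e ≠ e' → ∀ u u', wv d (x.2 e) u ≠ wv d (x.2 e') u' ∧
        ¬ G.Adj (wv d (x.2 e) u) (wv d (x.2 e') u')) ∧
      (∀ e e', e ≠ e' → ∀ u h, wv d (x.2 e) u ≠ hv d (x.2 e') h ∧
        ¬ G.Adj (wv d (x.2 e) u) (hv d (x.2 e') h)) ∧
      (∀ e e', e ≠ e' → ∀ h h', hv d (x.2 e) h ≠ hv d (x.2 e') h' ∧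
        ¬ G.Adj (hv d (x.2 e) h) (hv d (x.2 e') h'))

end Pool.Agent.Lib.FGL
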