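import Pool.Agent.Lib.FGF.LStmts

/-!
# Fractional Gyarfas-Sumner: the densities of the vertices of a copy
-/

set_option autoImplicit false

namespace Pool.Agent.Lib.FGL

open Finset Classical
open Pool.Agent.Lib.FracGS (nb wnb om TAdj)
open Pool.Agent.Lib.GSR3 (Stab Tree)

namespace LDenAux

theorem aw_nonneg {V : Type} [Fintype V] (G : SimpleGraph V) (ρ : V → ℝ) (h : ∀ y, 0 ≤ ρ y)
    (v : V) : 0 ≤ aw G ρ v :=
  Finset.sum_nonneg fun y _ => h y

/-- The density of the vertex `b f`. -/
theorem kw_le {V C : Type} [Fintype V] (G : SimpleGraph V) (W : Finset V) (μ ρ : V → ℝ)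
    (rt : C → V) (w : C → ℝ) (g : V) (f : C) (v : V) (eta : ℝ) (F : V → ℝ) (E : Prop)
    [Decidable E] (hw : 0 ≤ w f) (hρ : ∀ y, 0 ≤ ρ y) (hF : ∀ v, 0 ≤ F v) (heta : 0 < eta)
    (hD : eta ≤ Dw G W μ ρ g)
    (hE : E → w f ≠ 0 → 0 < aw G ρ v ∧ aw G ρ v ≤ aw G ρ (rt f)) :
    (if E then kw G W μ ρ rt w g f * F v else 0) ≤ w f * (F v / aw G ρ v) / eta := by
  have hR : 0 ≤ w f * (F v / aw G ρ v) / eta :=
    div_nonneg (mul_nonneg hw (div_nonneg (hF v) (aw_nonneg G ρ hρ v))) heta.le
  by_cases h : E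
  · rw [if_pos h]
    by_cases h0 : w f = 0
    · have : kw G W μ ρ rt w g f = 0 := by
        unfold kw
        rw [h0]
        simp
      rw [this, zero_mul]
      exact hR
    · obtain ⟨h1, h2⟩ := hE h h0
      have h3 : kw G W μ ρ rt w g f ≤ w f / (aw G ρ v * eta) := by
        unfold kw
        apply div_le_div₀ hw
        · have : (if G.Adj g (rt f) then (1 : ℝ) else 0) ≤ 1 := by
            split_ifs <;> norm_num
          calc w f * (if G.Adj g (rt f) then (1 : ℝ) else 0) ≤ w f * 1 :=
                mul_le_mul_of_nonneg_left this hw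
            _ = w f := mul_one _
        · exact mul_pos h1 heta
        · exact mul_le_mul h2 hD heta.le (h1.le.trans h2)
      calc kw G W μ ρ rt w g f * F v ≤ w f / (aw G ρ v * eta) * F v :=
            mul_le_mul_of_nonneg_right h3 (hF v)
        _ = w f * (F v / aw G ρ v) / eta := by
            field_simp
  · rw [if_neg h]
    exact hR

end LDenAux

open LDenAux in
/-- Module `LDen`. -/
theorem stLDen (h0 : StLSub) (h1 : StLKer) (h2 : StLMarg) : StLDen := by
  intro M V _ G W μ r J q H xi Gam e1 e2 hS hGam d hd eta heta g hg F hF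
  have hB : LBas G W μ r q := (h0 V G W μ r J q H xi Gam e1 e2 hS).1
  have hcw : ∀ x, 0 ≤ cw G W μ q M d x := ((h1 M V G W μ r q hB).1 d hd.le).1
  obtain ⟨m1, _, m3, m4, m5, _, m7⟩ := h2 M V G W μ r q hB d hd.le
  have hq0 := hB.q0 d hd
  refine ⟨fun u => ?_, fun h => ?_⟩
  · have key : ∀ f : Conf M V d, (if Top G (q d) d f then
          kw G W μ (q d) (root d) (cw G W μ q M d) g f * F (wv d f u) else 0) ≤
        cw G W μ q M d f * (F (wv d f u) / aw G (q d) (wv d f u)) / eta := by
      intro f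
      refine kw_le G W μ (q d) (root d) (cw G W μ q M d) g f (wv d f u) eta F _ (hcw f) hq0 hF
        heta hg ?_
      intro hT hne
      exact ⟨hB.apos d hd _ ((m7 f hne).1 u), hT u⟩
    refine (Finset.sum_le_sum fun f _ => key f).trans (le_of_eq ?_)
    rw [← Finset.sum_div]
    have := m1 u (fun v => F v / aw G (q d) v)
    rw [this]
    congr 1
    refine Finset.sum_congr rfl fun z _ => ?_
    ring
  · have key : ∀ f : Conf M V d, (if Top G (q d) d f ∧
            Gam * aw G (q d) (hv d f h) ≤ aw G (q d) (hr d f h) then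
          kw G W μ (q d) (root d) (cw G W μ q M d) g f * F (hv d f h) else 0) ≤
        cw G W μ q M d f * (F (hv d f h) / aw G (q d) (hv d f h)) / eta := by
      intro f
      refine kw_le G W μ (q d) (root d) (cw G W μ q M d) g f (hv d f h) eta F _ (hcw f) hq0 hF
        heta hg ?_
      rintro ⟨hT, hG⟩ hne
      have hJ : hv d f h ∈ J (lev d h) := by
        by_contra hcon
        exact (m7 f hne).2.1 h (hS.qJ _ ((m4 h).trans hd) _ hcon)
      have hpos : 0 < aw G (q d) (hv d f h) := hS.aposJ _ _ (m4 h) hd _ hJ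
      obtain ⟨u, hu⟩ := m5 h
      refine ⟨hpos, ?_⟩
      calc aw G (q d) (hv d f h) = 1 * aw G (q d) (hv d f h) := (one_mul _).symm
        _ ≤ Gam * aw G (q d) (hv d f h) := mul_le_mul_of_nonneg_right hGam hpos.le
        _ ≤ aw G (q d) (hr d f h) := hG
        _ = aw G (q d) (wv d f u) := by rw [hu f]
        _ ≤ aw G (q d) (root d f) := hT u
    refine (Finset.sum_le_sum fun f _ => key f).trans (le_of_eq ?_)
    rw [← Finset.sum_div]
    have := m3 h (fun v => F v / aw G (q d) v)
    rw [this]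
    congr 1
    refine Finset.sum_congr rfl fun z _ => ?_
    ring

end Pool.Agent.Lib.FGL
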