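import Pool.Agent.Lib.FGF.LStmts

/-!
# Fractional Gyarfas-Sumner: configurations without conflicts contain trees

Module `LEmb`.  The `M` outermost hubs of a configuration of depth `d` have the same root; each of
them has `M` further copies, which contain trees at their roots by induction.
-/

set_option autoImplicit false

namespace Pool.Agent.Lib.FGL

open Pool.Agent.Lib.FracGS (TAdj)
open Pool.Agent.Lib.GSR3 (Tree)

namespace LEmb

/-! ### Words -/

section Words

variable {M : ℕ}

lemma tadj_append (u w : List (Fin M)) (i : Fin M) :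
    TAdj (u ++ [i]) (w ++ [i]) ↔ TAdj u w := by
  unfold TAdj
  constructor
  · rintro (⟨t, h⟩ | ⟨t, h⟩)
    · left
      exact ⟨t, List.append_cancel_right (h.trans (List.cons_append).symm)⟩
    · right
      exact ⟨t, List.append_cancel_right (h.trans (List.cons_append).symm)⟩
  · rintro (⟨t, rfl⟩ | ⟨t, rfl⟩)
    · left
      exact ⟨t, rfl⟩
    · right
      exact ⟨t, rfl⟩

lemma tadj_ne (u w : List (Fin M)) {i j : Fin M} (hij : i ≠ j) :
    ¬ TAdj (u ++ [i]) (w ++ [j]) := by
  unfold TAdj
  rintro (⟨t, h⟩ | ⟨t, h⟩)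
  · have h1 : u ++ [i] = (t :: w) ++ [j] := h
    have h2 := congrArg List.getLast? h1
    simp only [List.getLast?_append, List.getLast?_singleton, Option.some_or] at h2
    exact hij (Option.some.inj h2)
  · have h1 : w ++ [j] = (t :: u) ++ [i] := h
    have h2 := congrArg List.getLast? h1
    simp only [List.getLast?_append, List.getLast?_singleton, Option.some_or] at h2
    exact hij (Option.some.inj h2).symm

lemma tadj_nil (w : List (Fin M)) (i : Fin M) : TAdj [] (w ++ [i]) ↔ w = [] := by
  unfold TAdj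
  constructor
  · rintro (⟨t, h⟩ | ⟨t, h⟩)
    · simp at h
    · have h1 := congrArg List.length h
      simp only [List.length_append, List.length_singleton] at h1
      exact List.eq_nil_of_length_eq_zero (by omega)
  · rintro rfl
    right
    exact ⟨i, rfl⟩

lemma tadj_comm {u w : List (Fin M)} : TAdj u w ↔ TAdj w u :=
  ⟨fun h => h.symm, fun h => h.symm⟩

lemma eq_nil_or (u : List (Fin M)) : u = [] ∨ ∃ w i, u = w ++ [i] := by
  rcases List.eq_nil_or_concat u with h | ⟨w, i, h⟩
  · exact Or.inl h
  · exact Or.inr ⟨w, i, by simpa using h⟩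

end Words

variable {V : Type} {G : SimpleGraph V} {M : ℕ}

/-- The map of the tree with root `b` and the trees `φ i` below it. -/
noncomputable def jn (b : V) (φ : Fin M → List (Fin M) → V) (u : List (Fin M)) : V :=
  if h : u = [] then b else φ (u.getLast h) u.dropLast

lemma jn_nil (b : V) (φ : Fin M → List (Fin M) → V) : jn b φ [] = b := by
  simp [jn]

lemma jn_append (b : V) (φ : Fin M → List (Fin M) → V) (u : List (Fin M)) (i : Fin M) :
    jn b φ (u ++ [i]) = φ i u := by
  unfold jn
  rw [dif_neg (by simp)]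
  simp

/-- `M` disjoint nonadjacent trees and a new root. -/
lemma jn_tree {n : ℕ} {b : V} {φ : Fin M → List (Fin M) → V} (hT : ∀ i, Tree G n M (φ i))
    (hr : ∀ i, G.Adj b (φ i [])) (hb : ∀ i w, w.length ≤ n → b ≠ φ i w)
    (hA : ∀ i w, w ≠ [] → w.length ≤ n → ¬ G.Adj b (φ i w))
    (hX : ∀ i j, i ≠ j → ∀ u w, u.length ≤ n → w.length ≤ n →
      φ i u ≠ φ j w ∧ ¬ G.Adj (φ i u) (φ j w)) : Tree G (n + 1) M (jn b φ) := by
  have hbA : ∀ (i : Fin M) (w : List (Fin M)), w.length ≤ n → (G.Adj b (φ i w) ↔ w = []) := by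
    intro i w hw
    constructor
    · intro h
      by_contra h'
      exact hA i w h' hw h
    · rintro rfl
      exact hr i
  constructor
  · intro u w hu hw he
    rcases eq_nil_or u with rfl | ⟨u, i, rfl⟩
    · rcases eq_nil_or w with rfl | ⟨w, j, rfl⟩
      · rfl
      · rw [jn_nil, jn_append] at he
        simp only [List.length_append, List.length_singleton] at hw
        exact absurd he (hb j w (by omega))
    · simp only [List.length_append, List.length_singleton] at hu
      rcases eq_nil_or w with rfl | ⟨w, j, rfl⟩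
      · rw [jn_nil, jn_append] at he
        exact absurd he.symm (hb i u (by omega))
      · simp only [List.length_append, List.length_singleton] at hw
        rw [jn_append, jn_append] at he
        by_cases hij : i = j
        · subst hij
          rw [(hT i).inj u w (by omega) (by omega) he]
        · exact absurd he (hX i j hij u w (by omega) (by omega)).1
  · intro u w hu hw
    rcases eq_nil_or u with rfl | ⟨u, i, rfl⟩
    · rcases eq_nil_or w with rfl | ⟨w, j, rfl⟩
      · constructor
        · intro h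
          exact absurd rfl h.ne
        · rintro (⟨t, h⟩ | ⟨t, h⟩) <;> simp at h
      · simp only [List.length_append, List.length_singleton] at hw
        rw [jn_nil, jn_append, tadj_nil]
        exact hbA j w (by omega)
    · simp only [List.length_append, List.length_singleton] at hu
      rcases eq_nil_or w with rfl | ⟨w, j, rfl⟩
      · rw [jn_nil, jn_append, tadj_comm, tadj_nil, G.adj_comm]
        exact hbA i u (by omega)
      · simp only [List.length_append, List.length_singleton] at hw
        rw [jn_append, jn_append]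
        by_cases hij : i = j
        · subst hij
          rw [tadj_append]
          exact (hT i).adj u w (by omega) (by omega)
        · constructor
          · intro h
            exact absurd h (hX i j hij u w (by omega) (by omega)).2
          · intro h
            exact absurd h (tadj_ne u w hij)

/-! ### Configurations -/

/-- `v` is a vertex of the configuration `x`. -/
def InC (d : ℕ) (x : Conf M V d) (v : V) : Prop :=
  (∃ u, v = wv d x u) ∨ (∃ h, v = hv d x h)

lemma root_eq : ∀ (d : ℕ) (x : Conf M V d), root d x = wv d x (rn M d)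
  | 0, _ => rfl
  | d + 1, x => root_eq d (x.2 0)

lemma inC_root (d : ℕ) (x : Conf M V d) : InC d x (root d x) := Or.inl ⟨_, root_eq d x⟩

lemma inC_copy {d : ℕ} {x : Conf M V (d + 1)} {e : Fin (M + 1)} {v : V}
    (h : InC d (x.2 e) v) : InC (d + 1) x v := by
  rcases h with ⟨u, rfl⟩ | ⟨h, rfl⟩
  · exact Or.inl ⟨(e, u), rfl⟩
  · exact Or.inr ⟨some (e, h), rfl⟩

lemma inC_hub {d : ℕ} (x : Conf M V (d + 1)) : InC (d + 1) x x.1 := Or.inr ⟨none, rfl⟩

/-- Different copies. -/
lemma cross {d : ℕ} {x : Conf M V (d + 1)} (hx : Clean G (d + 1) x) {e e' : Fin (M + 1)}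
    (he : e ≠ e') {v v' : V} (h : InC d (x.2 e) v) (h' : InC d (x.2 e') v') :
    v ≠ v' ∧ ¬ G.Adj v v' := by
  obtain ⟨-, -, -, -, -, -, h1, h2, h3⟩ := hx
  rcases h with ⟨u, rfl⟩ | ⟨a, rfl⟩
  · rcases h' with ⟨u', rfl⟩ | ⟨a', rfl⟩
    · exact h1 e e' he u u'
    · exact h2 e e' he u a'
  · rcases h' with ⟨u', rfl⟩ | ⟨a', rfl⟩
    · have h4 := h2 e' e he.symm u' a
      exact ⟨h4.1.symm, fun h5 => h4.2 h5.symm⟩
    · exact h3 e e' he a a'

/-- The hub and a copy. -/
lemma hub_ne {d : ℕ} {x : Conf M V (d + 1)} (hx : Clean G (d + 1) x) {e : Fin (M + 1)} {v : V}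
    (h : InC d (x.2 e) v) : x.1 ≠ v := by
  obtain ⟨-, -, -, h1, -, h2, -, -, -⟩ := hx
  rcases h with ⟨u, rfl⟩ | ⟨a, rfl⟩
  · exact h1 e u
  · exact h2 e a

lemma hub_nadj {d : ℕ} {x : Conf M V (d + 1)} (hx : Clean G (d + 1) x) {e : Fin (M + 1)} {v : V}
    (h : InC d (x.2 e) v) (hv : v ≠ root d (x.2 e)) : ¬ G.Adj x.1 v := by
  obtain ⟨-, -, h1, -, h2, -, -, -, -⟩ := hx
  rcases h with ⟨u, rfl⟩ | ⟨a, rfl⟩
  · refine h1 e u ?_
    rintro rfl
    exact hv (root_eq d (x.2 e)).symm
  · exact h2 e a

/-- A family of `m` trees of depth `n` below the root `b`. -/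
structure Fm (G : SimpleGraph V) (n m : ℕ) (b : V) (P : V → Prop)
    (ψ : ℕ → List (Fin M) → V) : Prop where
  tree : ∀ i < m, Tree G n M (ψ i)
  adj : ∀ i < m, G.Adj b (ψ i [])
  ne : ∀ i < m, ∀ w, w.length ≤ n → b ≠ ψ i w
  nadj : ∀ i < m, ∀ w, w ≠ [] → w.length ≤ n → ¬ G.Adj b (ψ i w)
  cross : ∀ i < m, ∀ j < m, i ≠ j → ∀ u w, u.length ≤ n → w.length ≤ n →
    ψ i u ≠ ψ j w ∧ ¬ G.Adj (ψ i u) (ψ j w)
  mem : ∀ i < m, ∀ w, w.length ≤ n → P (ψ i w)

/-- The tree of depth `n` at the root. -/
def Rt (G : SimpleGraph V) (n d : ℕ) (x : Conf M V d) : Prop :=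
  ∃ φ : List (Fin M) → V, Tree G n M φ ∧ φ [] = root d x ∧ ∀ w, w.length ≤ n → InC d x (φ w)

lemma fam {n D : ℕ} (hD : ∀ d, D ≤ d → ∀ x : Conf M V d, Clean G d x → Rt G n d x) (m : ℕ) :
    ∀ d, D + m ≤ d → ∀ x : Conf M V d, Clean G d x →
      ∃ ψ : ℕ → List (Fin M) → V, Fm G (n + 1) m (root d x) (InC d x) ψ := by
  induction m with
  | zero =>
    intro d _ x _
    exact ⟨fun _ _ => root d x, fun i h => absurd h (Nat.not_lt_zero i),
      fun i h => absurd h (Nat.not_lt_zero i), fun i h => absurd h (Nat.not_lt_zero i),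
      fun i h => absurd h (Nat.not_lt_zero i), fun i h => absurd h (Nat.not_lt_zero i),
      fun i h => absurd h (Nat.not_lt_zero i)⟩
  | succ m ih =>
    intro d hd x hx
    obtain ⟨d, rfl⟩ : ∃ d', d = d' + 1 := ⟨d - 1, by omega⟩
    have hcl : ∀ e, Clean G d (x.2 e) := hx.1
    have hadj : ∀ e, G.Adj x.1 (root d (x.2 e)) := hx.2.1
    obtain ⟨ψ, hψ⟩ := ih d (by omega) (x.2 0) (hcl 0)
    have h1 : ∀ e : Fin M, Rt G n d (x.2 e.succ) := fun e => hD d (by omega) _ (hcl _)
    choose φ hφT hφr hφm using h1
    have hroot : root (d + 1) x = root d (x.2 0) := rfl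
    have h0 : ∀ e : Fin M, (0 : Fin (M + 1)) ≠ e.succ := fun e => (Fin.succ_ne_zero e).symm
    -- the new tree
    have hnew : Tree G (n + 1) M (jn x.1 φ) := by
      refine jn_tree hφT (fun e => ?_) (fun e w hw => hub_ne hx (hφm e w hw))
        (fun e w hw0 hw => hub_nadj hx (hφm e w hw) ?_) (fun e e' he u w hu hw => ?_)
      · rw [hφr]
        exact hadj _
      · rw [← hφr]
        intro h
        exact hw0 ((hφT e).inj w [] hw (Nat.zero_le _) h)
      · exact cross hx (fun h => he (Fin.succ_injective _ h)) (hφm e u hu) (hφm e' w hw)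
    have hin : ∀ w : List (Fin M), w.length ≤ n + 1 → w = [] ∧ jn x.1 φ w = x.1 ∨
        w ≠ [] ∧ ∃ e : Fin M, InC d (x.2 e.succ) (jn x.1 φ w) := by
      intro w hw
      rcases eq_nil_or w with rfl | ⟨w, e, rfl⟩
      · exact Or.inl ⟨rfl, jn_nil _ _⟩
      · simp only [List.length_append, List.length_singleton] at hw
        refine Or.inr ⟨by simp, e, ?_⟩
        rw [jn_append]
        exact hφm e w (by omega)
    have hX : ∀ i < m, ∀ u w, u.length ≤ n + 1 → w.length ≤ n + 1 →
        ψ i u ≠ jn x.1 φ w ∧ ¬ G.Adj (ψ i u) (jn x.1 φ w) := by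
      intro i hi u w hu hw
      have h2 := hψ.mem i hi u hu
      rcases hin w hw with ⟨-, h3⟩ | ⟨-, e, h3⟩
      · rw [h3]
        refine ⟨(hub_ne hx h2).symm, fun h4 => hub_nadj hx h2 ?_ h4.symm⟩
        exact (hψ.ne i hi u hu).symm
      · exact cross hx (h0 e) h2 h3
    refine ⟨fun i => if i = m then jn x.1 φ else ψ i, ?_, ?_, ?_, ?_, ?_, ?_⟩
    · intro i hi
      by_cases him : i = m
      · simp only [him, if_true]
        exact hnew
      · simp only [him, if_false]
        exact hψ.tree i (by omega)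
    · intro i hi
      by_cases him : i = m
      · simp only [him, if_true]
        rw [jn_nil, hroot]
        exact (hadj 0).symm
      · simp only [him, if_false]
        exact hψ.adj i (by omega)
    · intro i hi w hw
      by_cases him : i = m
      · simp only [him, if_true]
        rcases hin w hw with ⟨-, h3⟩ | ⟨-, e, h3⟩
        · rw [h3]
          exact (hub_ne hx (inC_root d (x.2 0))).symm
        · exact (cross hx (h0 e) (inC_root d (x.2 0)) h3).1
      · simp only [him, if_false]
        exact hψ.ne i (by omega) w hw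
    · intro i hi w hw0 hw
      by_cases him : i = m
      · simp only [him, if_true]
        rcases hin w hw with ⟨h3, -⟩ | ⟨-, e, h3⟩
        · exact absurd h3 hw0
        · exact (cross hx (h0 e) (inC_root d (x.2 0)) h3).2
      · simp only [him, if_false]
        exact hψ.nadj i (by omega) w hw0 hw
    · intro i hi j hj hij u w hu hw
      by_cases him : i = m
      · by_cases hjm : j = m
        · exact absurd (him.trans hjm.symm) hij
        · simp only [him, hjm, if_true, if_false]
          have h4 := hX j (by omega) w u hw hu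
          exact ⟨h4.1.symm, fun h5 => h4.2 h5.symm⟩
      · by_cases hjm : j = m
        · simp only [him, hjm, if_true, if_false]
          exact hX i (by omega) u w hu hw
        · simp only [him, hjm, if_false]
          exact hψ.cross i (by omega) j (by omega) hij u w hu hw
    · intro i hi w hw
      by_cases him : i = m
      · simp only [him, if_true]
        rcases hin w hw with ⟨-, h3⟩ | ⟨-, e, h3⟩
        · rw [h3]
          exact inC_hub x
        · exact inC_copy h3
      · simp only [him, if_false]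
        exact inC_copy (hψ.mem i (by omega) w hw)

lemma main (k : ℕ) : ∀ d, M * k ≤ d → ∀ x : Conf M V d, Clean G d x → Rt G (2 * k) d x := by
  induction k with
  | zero =>
    intro d _ x _
    refine ⟨fun _ => root d x, ⟨?_, ?_⟩, rfl, fun _ _ => inC_root d x⟩
    · intro u w hu hw _
      rw [List.eq_nil_of_length_eq_zero (Nat.le_zero.1 hu),
        List.eq_nil_of_length_eq_zero (Nat.le_zero.1 hw)]
    · intro u w hu hw
      rw [List.eq_nil_of_length_eq_zero (Nat.le_zero.1 hu),
        List.eq_nil_of_length_eq_zero (Nat.le_zero.1 hw)]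
      constructor
      · intro h
        exact absurd rfl h.ne
      · rintro (⟨t, h⟩ | ⟨t, h⟩) <;> simp at h
  | succ k ih =>
    intro d hd x hx
    obtain ⟨ψ, hψ⟩ := fam ih M d (by rw [← Nat.mul_succ]; exact hd) x hx
    have hT : Tree G (2 * k + 1 + 1) M (jn (root d x) (fun i : Fin M => ψ i)) :=
      jn_tree (fun i => hψ.tree i i.2) (fun i => hψ.adj i i.2) (fun i => hψ.ne i i.2)
        (fun i => hψ.nadj i i.2)
        (fun i j hij => hψ.cross i i.2 j j.2 (fun h => hij (Fin.ext h)))
    refine ⟨_, hT, jn_nil _ _, fun w hw => ?_⟩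
    rcases eq_nil_or w with rfl | ⟨w, i, rfl⟩
    · rw [jn_nil]
      exact inC_root d x
    · simp only [List.length_append, List.length_singleton] at hw
      rw [jn_append]
      exact hψ.mem i i.2 w (by omega)

end LEmb

/-- Module `LEmb`. -/
theorem stLEmb : StLEmb := by
  intro M k d hd V G x hx
  obtain ⟨φ, hφ, -, -⟩ := LEmb.main k d hd x hx
  exact ⟨φ, hφ⟩

end Pool.Agent.Lib.FGL
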