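import Pool.Agent.Lib.FGF.LStmts

/-!
# Fractional Gyarfas-Sumner: the kernel at a hub and the law of the copies
-/

set_option autoImplicit false

namespace Pool.Agent.Lib.FGL

open Finset Classical
open Pool.Agent.Lib.FracGS (nb wnb om TAdj)
open Pool.Agent.Lib.GSR3 (Stab Tree)

namespace LKer

/-! ### products of sums -/

section Prod

variable {C : Type} [Fintype C] {n : ℕ}

lemma prodsum (κ : Fin n → C → ℝ) : ∑ f : Fin n → C, ∏ i, κ i (f i) = ∏ i, ∑ c, κ i c := by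
  rw [Finset.prod_univ_sum, Fintype.piFinset_univ]

/-- one coordinate -/
lemma one {κ : C → ℝ} (h : ∑ c, κ c = 1) (e : Fin n) (F : C → ℝ) :
    ∑ f : Fin n → C, (∏ i, κ (f i)) * F (f e) = ∑ c, κ c * F c := by
  have h1 : ∀ f : Fin n → C, (∏ i, κ (f i)) * F (f e) =
      ∏ i, (κ (f i) * if i = e then F (f i) else 1) := by
    intro f
    rw [Finset.prod_mul_distrib, Finset.prod_ite_eq' univ e (fun i => F (f i)),
      if_pos (Finset.mem_univ e)]
  simp only [h1]
  rw [prodsum (fun i c => κ c * if i = e then F c else 1)]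
  have h2 : ∀ i : Fin n, ∑ c, (κ c * if i = e then F c else 1) =
      if i = e then ∑ c, κ c * F c else 1 := by
    intro i
    split_ifs with hi
    · rfl
    · simp only [mul_one]
      exact h
  simp only [h2]
  rw [Finset.prod_ite_eq' univ e (fun _ => ∑ c, κ c * F c), if_pos (Finset.mem_univ e)]

/-- two coordinates -/
lemma two {κ : C → ℝ} (h : ∑ c, κ c = 1) {e e' : Fin n} (hne : e ≠ e') (F : C → C → ℝ) :
    ∑ f : Fin n → C, (∏ i, κ (f i)) * F (f e) (f e') = ∑ c', κ c' * ∑ c, κ c * F c c' := by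
  have h1 : ∀ f : Fin n → C, (∏ i, κ (f i)) * F (f e) (f e') =
      ∑ c', ∏ i, (κ (f i) * if i = e then F (f i) c' else
        if i = e' then (if f i = c' then 1 else 0) else 1) := by
    intro f
    have h2 : ∀ c', ∏ i, (κ (f i) * if i = e then F (f i) c' else
        if i = e' then (if f i = c' then 1 else 0) else 1) =
        if f e' = c' then (∏ i, κ (f i)) * F (f e) c' else 0 := by
      intro c'
      have h3 : ∏ i, (if i = e then F (f i) c' else
          if i = e' then (if f i = c' then (1 : ℝ) else 0) else 1) =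
          F (f e) c' * (if f e' = c' then (1 : ℝ) else 0) := by
        rw [Fintype.prod_eq_mul e e' hne]
        · rw [if_pos rfl, if_neg hne.symm, if_pos rfl]
        · rintro i ⟨hi, hi'⟩
          rw [if_neg hi, if_neg hi']
      rw [Finset.prod_mul_distrib, h3]
      split_ifs <;> ring
    simp only [h2]
    rw [Finset.sum_ite_eq univ (f e'), if_pos (Finset.mem_univ _)]
  simp only [h1]
  rw [Finset.sum_comm]
  refine Finset.sum_congr rfl fun c' _ => ?_
  rw [prodsum (fun i c => κ c * if i = e then F c c' else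
        if i = e' then (if c = c' then 1 else 0) else 1),
    Fintype.prod_eq_mul e e' hne]
  · simp only [if_true, if_neg hne.symm]
    rw [mul_comm]
    congr 1
    simp
  · rintro i ⟨hi, hi'⟩
    simp only [if_neg hi, if_neg hi', mul_one]
    exact h

/-- all coordinates -/
lemma all {κ : C → ℝ} (P : C → ℝ) :
    ∑ f : Fin n → C, (∏ i, κ (f i)) * ∏ i, P (f i) = (∑ c, κ c * P c) ^ n := by
  have h1 : ∀ f : Fin n → C, (∏ i, κ (f i)) * ∏ i, P (f i) = ∏ i, (κ (f i) * P (f i)) :=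
    fun f => Finset.prod_mul_distrib.symm
  simp only [h1]
  rw [prodsum (fun _ c => κ c * P c), Finset.prod_const, Finset.card_univ, Fintype.card_fin]

/-- permutation of the coordinates -/
lemma perm (κ : C → ℝ) (σ : Equiv.Perm (Fin n)) (F : (Fin n → C) → ℝ) :
    ∑ f : Fin n → C, (∏ i, κ (f i)) * F (fun i => f (σ i)) =
      ∑ f : Fin n → C, (∏ i, κ (f i)) * F f := by
  refine Fintype.sum_equiv (Equiv.arrowCongr σ.symm (Equiv.refl C)) _ _ fun f => ?_
  have h1 : (Equiv.arrowCongr σ.symm (Equiv.refl C)) f = fun i => f (σ i) := by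
    funext i
    simp [Equiv.arrowCongr]
  rw [h1]
  congr 1
  exact (Equiv.prod_comp σ (fun i => κ (f i))).symm

end Prod

/-! ### the kernel -/

section Ker

variable {V C : Type} [Fintype V] [Fintype C] {G : SimpleGraph V} {W : Finset V} {μ ρ : V → ℝ}
  {rt : C → V} {w : C → ℝ}

lemma aw_nonneg (hρ : ∀ y, 0 ≤ ρ y) (v : V) : 0 ≤ aw G ρ v := by
  unfold aw wnb
  exact Finset.sum_nonneg fun u _ => hρ u

lemma Dw_nonneg (hμ : ∀ x, 0 ≤ μ x) (hρ : ∀ y, 0 ≤ ρ y) (v : V) : 0 ≤ Dw G W μ ρ v := by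
  unfold Dw wnb
  exact Finset.sum_nonneg fun u _ => div_nonneg (hμ u) (aw_nonneg hρ u)

lemma kw_nonneg (hμ : ∀ x, 0 ≤ μ x) (hρ : ∀ y, 0 ≤ ρ y) (hw : ∀ x, 0 ≤ w x) (g : V) (f : C) :
    0 ≤ kw G W μ ρ rt w g f := by
  unfold kw
  refine div_nonneg (mul_nonneg (hw f) ?_) (mul_nonneg (aw_nonneg hρ _) (Dw_nonneg hμ hρ _))
  split_ifs
  · exact zero_le_one
  · exact le_rfl

lemma kw_sum (hm : ∀ F : V → ℝ, ∑ x, w x * F (rt x) = ∑ v ∈ W, μ v * F v) {g : V}
    (hD : 0 < Dw G W μ ρ g) : ∑ f, kw G W μ ρ rt w g f = 1 := by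
  have h1 : ∀ f, kw G W μ ρ rt w g f =
      w f * ((if G.Adj g (rt f) then 1 else 0) / (aw G ρ (rt f) * Dw G W μ ρ g)) := by
    intro f
    unfold kw
    rw [mul_div_assoc]
  simp only [h1]
  rw [hm (fun v => (if G.Adj g v then 1 else 0) / (aw G ρ v * Dw G W μ ρ g))]
  have h2 : ∀ v, μ v * ((if G.Adj g v then 1 else 0) / (aw G ρ v * Dw G W μ ρ g)) =
      (if G.Adj g v then μ v / aw G ρ v else 0) / Dw G W μ ρ g := by
    intro v
    split_ifs
    · rw [div_div, mul_one_div]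
    · simp
  simp only [h2]
  rw [← Finset.sum_div, ← Finset.sum_filter, div_eq_one_iff_eq hD.ne']
  rfl

lemma supp (hμW : ∀ x, x ∉ W → μ x = 0) (hw : ∀ x, 0 ≤ w x)
    (hm : ∀ F : V → ℝ, ∑ x, w x * F (rt x) = ∑ v ∈ W, μ v * F v) {x : C} (hx : w x ≠ 0) :
    rt x ∈ W ∧ 0 < μ (rt x) := by
  have h1 : w x ≤ ∑ y, w y * (if rt y = rt x then 1 else 0) := by
    have h2 : w x * (if rt x = rt x then 1 else 0) ≤ ∑ y, w y * (if rt y = rt x then 1 else 0) :=
      Finset.single_le_sum (f := fun y => w y * (if rt y = rt x then (1 : ℝ) else 0))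
        (fun y _ => mul_nonneg (hw y) (by split_ifs <;> norm_num)) (Finset.mem_univ x)
    rwa [if_pos rfl, mul_one] at h2
  rw [hm (fun v => if v = rt x then 1 else 0)] at h1
  have h3 : 0 < w x := lt_of_le_of_ne (hw x) hx.symm
  have h4 : ∑ v ∈ W, μ v * (if v = rt x then 1 else 0) = if rt x ∈ W then μ (rt x) else 0 := by
    simp
  rw [h4] at h1
  by_cases h5 : rt x ∈ W
  · rw [if_pos h5] at h1
    exact ⟨h5, lt_of_lt_of_le h3 h1⟩
  · rw [if_neg h5] at h1
    linarith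

lemma w_zero (hμ : ∀ x, 0 ≤ μ x) (hμW : ∀ x, x ∉ W → μ x = 0) (hρ : ∀ y, 0 ≤ ρ y)
    (ha : ∀ x ∈ W, 0 < aw G ρ x) (hw : ∀ x, 0 ≤ w x)
    (hm : ∀ F : V → ℝ, ∑ x, w x * F (rt x) = ∑ v ∈ W, μ v * F v) {g : V}
    (hD : Dw G W μ ρ g = 0) {f : C} (hf : G.Adj g (rt f)) : w f = 0 := by
  by_contra hne
  obtain ⟨h1, h2⟩ := supp hμW hw hm hne
  have h3 : μ (rt f) / aw G ρ (rt f) ≤ Dw G W μ ρ g := by
    unfold Dw wnb
    refine Finset.single_le_sum (f := fun x => μ x / aw G ρ x)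
      (fun y _ => div_nonneg (hμ y) (aw_nonneg hρ y)) ?_
    unfold nb
    exact Finset.mem_filter.2 ⟨h1, hf⟩
  have h4 := div_pos h2 (ha _ h1)
  linarith

variable (hμ : ∀ x, 0 ≤ μ x) (hμW : ∀ x, x ∉ W → μ x = 0) (hρ : ∀ y, 0 ≤ ρ y)
    (ha : ∀ x ∈ W, 0 < aw G ρ x) (hw : ∀ x, 0 ≤ w x)
    (hm : ∀ F : V → ℝ, ∑ x, w x * F (rt x) = ∑ v ∈ W, μ v * F v) {n : ℕ}

include hμ hρ hm in
/-- general step: a formula for the copies at a hub `g` with `D g > 0` -/
lemma gen (A B : V → ℝ) (h : ∀ g, ∑ f, kw G W μ ρ rt w g f = 1 → A g = B g) :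
    ∑ g, ρ g * Dw G W μ ρ g * A g = ∑ g, ρ g * Dw G W μ ρ g * B g := by
  refine Finset.sum_congr rfl fun g _ => ?_
  rcases (Dw_nonneg (G := G) (W := W) hμ hρ g).lt_or_eq with h1 | h1
  · rw [h g (kw_sum hm h1)]
  · rw [← h1, mul_zero, zero_mul, zero_mul]

include hμ hμW hρ ha hw hm in
/-- exchange of the hub and the copy -/
lemma exch (F : V → C → ℝ) :
    ∑ g, ρ g * Dw G W μ ρ g * ∑ f, kw G W μ ρ rt w g f * F g f =
      ∑ f, w f / aw G ρ (rt f) * ∑ g, if G.Adj (rt f) g then ρ g * F g f else 0 := by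
  simp only [Finset.mul_sum]
  rw [Finset.sum_comm]
  refine Finset.sum_congr rfl fun f _ => Finset.sum_congr rfl fun g _ => ?_
  unfold kw
  by_cases hadj : G.Adj g (rt f)
  · rw [if_pos hadj, if_pos hadj.symm]
    rcases (Dw_nonneg (G := G) (W := W) hμ hρ g).lt_or_eq with h1 | h1
    · have h2 := h1.ne'
      rw [mul_one, mul_comm (aw G ρ (rt f)), ← div_div]
      field_simp
    · rw [w_zero hμ hμW hρ ha hw hm h1.symm hadj]
      simp
  · rw [if_neg hadj, if_neg fun h => hadj h.symm]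
    simp

end Ker

/-! ### configurations -/

lemma sum_conf {M : ℕ} {V : Type} [Fintype V] {d : ℕ} (Φ : Conf M V (d + 1) → ℝ) :
    ∑ x, Φ x = ∑ g : V, ∑ f : Fin (M + 1) → Conf M V d, Φ (g, f) :=
  Fintype.sum_prod_type (fun x : V × (Fin (M + 1) → Conf M V d) => Φ x)

/-- the first part of the statement for the depth `d` -/
def PA (M : ℕ) {V : Type} [Fintype V] (G : SimpleGraph V) (W : Finset V) (μ : V → ℝ)
    (q : ℕ → V → ℝ) (d : ℕ) : Prop :=
  (∀ x, 0 ≤ cw G W μ q M d x) ∧ ∑ x, cw G W μ q M d x = 1 ∧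
      (∀ F : V → ℝ, ∑ x, cw G W μ q M d x * F (root d x) = ∑ v ∈ W, μ v * F v)

section Conf

variable {M : ℕ} {V : Type} [Fintype V] {G : SimpleGraph V} {W : Finset V} {μ : V → ℝ} {r : ℕ}
  {q : ℕ → V → ℝ}

/-- sums over the configurations of depth `d + 1` -/
lemma sum_cw {d : ℕ} (Φ : V → (Fin (M + 1) → Conf M V d) → ℝ) :
    ∑ x, cw G W μ q M (d + 1) x * Φ x.1 x.2 =
      ∑ g, q d g * Dw G W μ (q d) g * ∑ f : Fin (M + 1) → Conf M V d,
        (∏ e, kw G W μ (q d) (root d) (cw G W μ q M d) g (f e)) * Φ g f := by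
  rw [sum_conf]
  refine Finset.sum_congr rfl fun g _ => ?_
  rw [Finset.mul_sum]
  refine Finset.sum_congr rfl fun f _ => ?_
  change q d g * Dw G W μ (q d) g *
    (∏ e, kw G W μ (q d) (root d) (cw G W μ q M d) g (f e)) * Φ g f = _
  ring

variable (hB : LBas G W μ r q)

include hB in
lemma form1 {d : ℕ} (hd : d < r) (hA : PA M G W μ q d) (e : Fin (M + 1))
    (F : V → Conf M V d → ℝ) :
    ∑ x, cw G W μ q M (d + 1) x * F x.1 (x.2 e) =
          ∑ g, q d g * Dw G W μ (q d) g *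
            ∑ f, kw G W μ (q d) (root d) (cw G W μ q M d) g f * F g f := by
  rw [sum_cw (fun g f => F g (f e))]
  refine gen hB.μ0 (hB.q0 d hd) hA.2.2 _ _ fun g hg => ?_
  exact one hg e (F g)

include hB in
lemma form2 {d : ℕ} (hd : d < r) (hA : PA M G W μ q d) (e : Fin (M + 1))
    (F : V → Conf M V d → ℝ) :
    ∑ x, cw G W μ q M (d + 1) x * F x.1 (x.2 e) =
          ∑ f, cw G W μ q M d f / aw G (q d) (root d f) *
            ∑ g, if G.Adj (root d f) g then q d g * F g f else 0 := by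
  rw [form1 hB hd hA]
  exact exch hB.μ0 hB.μW (hB.q0 d hd) (hB.apos d hd) hA.1 hA.2.2 F

include hB in
lemma form3 {d : ℕ} (hd : d < r) (hA : PA M G W μ q d) (e : Fin (M + 1))
    (F : Conf M V d → ℝ) :
    ∑ x, cw G W μ q M (d + 1) x * F (x.2 e) = ∑ f, cw G W μ q M d f * F f := by
  rw [form2 hB hd hA e (fun _ f => F f)]
  refine Finset.sum_congr rfl fun f _ => ?_
  by_cases h0 : cw G W μ q M d f = 0
  · rw [h0]
    simp
  · obtain ⟨h1, -⟩ := supp hB.μW hA.1 hA.2.2 h0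
    have h2 := hB.apos d hd _ h1
    have h3 : ∑ g, (if G.Adj (root d f) g then q d g * F f else 0) =
        aw G (q d) (root d f) * F f := by
      unfold aw wnb nb
      rw [← Finset.sum_filter, Finset.sum_mul]
    rw [h3, ← mul_assoc, div_mul_cancel₀ _ h2.ne']

include hB in
lemma succ {d : ℕ} (hd : d < r) (hA : PA M G W μ q d) : PA M G W μ q (d + 1) := by
  have h3 : ∀ F : V → ℝ, ∑ x, cw G W μ q M (d + 1) x * F (root (d + 1) x) =
      ∑ v ∈ W, μ v * F v := by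
    intro F
    rw [← hA.2.2 F]
    exact form3 hB hd hA 0 (fun f => F (root d f))
  refine ⟨fun x => ?_, ?_, h3⟩
  · change 0 ≤ q d x.1 * Dw G W μ (q d) x.1 *
      ∏ e, kw G W μ (q d) (root d) (cw G W μ q M d) x.1 (x.2 e)
    exact mul_nonneg (mul_nonneg (hB.q0 d hd _) (Dw_nonneg hB.μ0 (hB.q0 d hd) _))
      (Finset.prod_nonneg fun e _ => kw_nonneg hB.μ0 (hB.q0 d hd) hA.1 _ _)
  · have h4 := h3 (fun _ => 1)
    simp only [mul_one] at h4
    rw [h4, hB.μ1]

include hB in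
lemma zero : PA M G W μ q 0 := by
  have h1 : ∀ F : V → ℝ, ∑ x : V, μ x * F x = ∑ v ∈ W, μ v * F v := by
    intro F
    refine (Finset.sum_subset (Finset.subset_univ W) fun x _ hx => ?_).symm
    rw [hB.μW x hx, zero_mul]
  refine ⟨hB.μ0, ?_, h1⟩
  have h4 := h1 (fun _ => 1)
  simp only [mul_one] at h4
  exact h4.trans hB.μ1

include hB in
lemma main : ∀ d ≤ r, PA M G W μ q d := by
  intro d
  induction d with
  | zero => exact fun _ => zero hB
  | succ d ih => exact fun hd => succ hB hd (ih (Nat.le_of_succ_le hd))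

end Conf

end LKer

open LKer

/-- Module `LKer`. -/
theorem stLKer : StLKer := by
  intro M V _ G W μ r q hB
  refine ⟨main hB, fun d hd => ?_⟩
  have hA : PA M G W μ q d := main hB d hd.le
  refine ⟨kw_nonneg hB.μ0 (hB.q0 d hd) hA.1, Dw_nonneg hB.μ0 (hB.q0 d hd),
    fun g hg => kw_sum hA.2.2 hg, form1 hB hd hA, form2 hB hd hA, form3 hB hd hA, ?_, ?_, ?_⟩
  · intro e e' hne F
    rw [sum_cw (fun g f => F g (f e) (f e'))]
    exact gen hB.μ0 (hB.q0 d hd) hA.2.2 _ _ fun g hg => two hg hne (F g)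
  · intro P
    rw [sum_cw (fun _ f => ∏ e, P (f e))]
    exact gen hB.μ0 (hB.q0 d hd) hA.2.2 _ _ fun g _ => all P
  · intro σ F
    rw [sum_cw (fun g f => F g (fun e => f (σ e))), sum_cw F]
    exact gen hB.μ0 (hB.q0 d hd) hA.2.2 _ _ fun g _ => perm _ σ (F g)

end Pool.Agent.Lib.FGL
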