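import Pool.Agent.Lib.FGF.LStmts

/-!
# Fractional Gyarfas-Sumner: marginals and support of the law of the configurations
-/

set_option autoImplicit false

namespace Pool.Agent.Lib.FGL

open Finset Classical
open Pool.Agent.Lib.FracGS (nb wnb om TAdj)
open Pool.Agent.Lib.GSR3 (Stab Tree)

namespace LMarg

variable {M : ℕ} {V : Type}

theorem lev_lt : ∀ (d : ℕ) (h : HN M d), lev d h < d
  | 0, h => h.elim
  | d + 1, none => Nat.lt_succ_self d
  | d + 1, some h => Nat.lt_succ_of_lt (lev_lt d h.2)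

theorem root_eq : ∀ (d : ℕ) (x : Conf M V d), root d x = wv d x (rn M d)
  | 0, _ => rfl
  | d + 1, x => root_eq d (x.2 0)

theorem exists_u : ∀ (d : ℕ) (h : HN M d), ∃ u : WN M d, ∀ x : Conf M V d, hr d x h = wv d x u
  | 0, h => h.elim
  | d + 1, none => ⟨(0, rn M d), fun x => root_eq d (x.2 0)⟩
  | d + 1, some h => by
    obtain ⟨u, hu⟩ := exists_u d h.2
    exact ⟨(h.1, u), fun x => hu (x.2 h.1)⟩

variable [Fintype V] {G : SimpleGraph V} {W : Finset V} {μ : V → ℝ} {r : ℕ} {q : ℕ → V → ℝ}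

theorem supp (hμ : ∀ x, x ∉ W → μ x = 0) : ∀ (d : ℕ) (x : Conf M V d), cw G W μ q M d x ≠ 0 →
    (∀ u, wv d x u ∈ W) ∧ (∀ h, q (lev d h) (hv d x h) ≠ 0) ∧
      (∀ h, G.Adj (hr d x h) (hv d x h))
  | 0, x => by
    intro hx
    refine ⟨fun _ => ?_, fun h => h.elim, fun h => h.elim⟩
    by_contra hcon
    exact hx (hμ x hcon)
  | d + 1, x => by
    intro hx
    have hx' : q d x.1 * Dw G W μ (q d) x.1 *
      ∏ e, kw G W μ (q d) (root d) (cw G W μ q M d) x.1 (x.2 e) ≠ 0 := hx
    have h1 := left_ne_zero_of_mul (left_ne_zero_of_mul hx')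
    have h2 := Finset.prod_ne_zero_iff.1 (right_ne_zero_of_mul hx')
    have h3 : ∀ e, cw G W μ q M d (x.2 e) ≠ 0 ∧ G.Adj x.1 (root d (x.2 e)) := by
      intro e
      have h4 := h2 e (Finset.mem_univ e)
      unfold kw at h4
      constructor
      · intro h5
        apply h4
        rw [h5]
        simp
      · by_contra h5
        apply h4
        rw [if_neg h5]
        simp
    refine ⟨fun u => (supp hμ d _ (h3 u.1).1).1 u.2, ?_, ?_⟩
    · intro h
      match h with
      | none => exact h1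
      | some h => exact (supp hμ d _ (h3 h.1).1).2.1 h.2
    · intro h
      match h with
      | none => exact (h3 0).2.symm
      | some h => exact (supp hμ d _ (h3 h.1).1).2.2 h.2

theorem sum_W (hμ : ∀ x, x ∉ W → μ x = 0) (F : V → ℝ) : ∑ x, μ x * F x = ∑ v ∈ W, μ v * F v := by
  symm
  refine Finset.sum_subset (Finset.subset_univ W) fun x _ hx => ?_
  rw [hμ x hx, zero_mul]

theorem marg_w (h1 : StLKer) (hb : LBas G W μ r q) : ∀ (d : ℕ), d ≤ r → ∀ (u : WN M d) (F : V → ℝ),
    ∑ x, cw G W μ q M d x * F (wv d x u) = ∑ v ∈ W, μ v * F v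
  | 0, _, _, F => sum_W hb.μW F
  | d + 1, hd, u, F => by
    have h2 := ((h1 M V G W μ r q hb).2 d (Nat.lt_of_succ_le hd)).2.2.2.2.2.1 u.1
      (fun f => F (wv d f u.2))
    exact h2.trans (marg_w h1 hb d (Nat.le_of_succ_le hd) u.2 F)

theorem marg_h (h1 : StLKer) (hb : LBas G W μ r q) : ∀ (d : ℕ), d ≤ r → ∀ (h : HN M d)
    (F : V → V → ℝ), ∑ x, cw G W μ q M d x * F (hr d x h) (hv d x h) =
      ∑ v ∈ W, μ v / aw G (q (lev d h)) v *
        ∑ y, if G.Adj v y then q (lev d h) y * F v y else 0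
  | 0, _, h, _ => h.elim
  | d + 1, hd, none, F => by
    have hk := (h1 M V G W μ r q hb).2 d (Nat.lt_of_succ_le hd)
    have h2 := hk.2.2.2.2.1 0 (fun g f => F (root d f) g)
    refine h2.trans ?_
    have h3 := ((h1 M V G W μ r q hb).1 d (Nat.le_of_succ_le hd)).2.2
      (fun v => (∑ y, if G.Adj v y then q d y * F v y else 0) / aw G (q d) v)
    have h4 : ∀ f : Conf M V d, cw G W μ q M d f / aw G (q d) (root d f) *
        (∑ g, if G.Adj (root d f) g then q d g * F (root d f) g else 0) =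
        cw G W μ q M d f * ((∑ y, if G.Adj (root d f) y then q d y * F (root d f) y else 0) /
          aw G (q d) (root d f)) := by
      intro f
      ring
    have h5 : ∀ v : V, μ v / aw G (q d) v *
        (∑ y, if G.Adj v y then q d y * F v y else 0) =
        μ v * ((∑ y, if G.Adj v y then q d y * F v y else 0) / aw G (q d) v) := by
      intro v
      ring
    change _ = ∑ v ∈ W, μ v / aw G (q d) v * ∑ y, if G.Adj v y then q d y * F v y else 0
    rw [Finset.sum_congr rfl (fun f _ => h4 f), h3, Finset.sum_congr rfl (fun v _ => h5 v)]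
  | d + 1, hd, some h, F => by
    have h2 := ((h1 M V G W μ r q hb).2 d (Nat.lt_of_succ_le hd)).2.2.2.2.2.1 h.1
      (fun f => F (hr d f h.2) (hv d f h.2))
    exact h2.trans (marg_h h1 hb d (Nat.le_of_succ_le hd) h.2 F)

theorem marg_y (h1 : StLKer) (hb : LBas G W μ r q) (d : ℕ) (hd : d ≤ r) (h : HN M d)
    (F : V → ℝ) : ∑ x, cw G W μ q M d x * F (hv d x h) =
      ∑ y, q (lev d h) y * Dw G W μ (q (lev d h)) y * F y := by
  rw [marg_h h1 hb d hd h (fun _ y => F y)]
  set ρ := q (lev d h) with hρ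
  have h2 : ∀ v ∈ W, μ v / aw G ρ v * (∑ y, if G.Adj v y then ρ y * F y else 0) =
      ∑ y, (if G.Adj v y then μ v / aw G ρ v * (ρ y * F y) else 0) := by
    intro v _
    rw [Finset.mul_sum]
    refine Finset.sum_congr rfl fun y _ => ?_
    split_ifs
    · rfl
    · rw [mul_zero]
  rw [Finset.sum_congr rfl h2, Finset.sum_comm]
  refine Finset.sum_congr rfl fun y _ => ?_
  rw [Dw, wnb, ← Finset.sum_filter]
  have h3 : (nb G W y) = W.filter (fun v => G.Adj v y) := by
    ext v
    simp [nb, G.adj_comm]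
  rw [h3, Finset.mul_sum, Finset.sum_mul]
  refine Finset.sum_congr rfl fun v _ => ?_
  ring

end LMarg

theorem stLMarg (h1 : StLKer) : StLMarg := by
  intro M V _ G W μ r q hb d hd
  exact ⟨LMarg.marg_w h1 hb d hd, LMarg.marg_h h1 hb d hd, LMarg.marg_y h1 hb d hd,
    LMarg.lev_lt d, LMarg.exists_u d, LMarg.root_eq d, LMarg.supp hb.μW d⟩

end Pool.Agent.Lib.FGL
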