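import Pool.Agent.Lib.FGF.LStmts

/-!
# Fractional Gyarfas-Sumner: the stages can be chosen such that the roots are on top
-/

set_option autoImplicit false

namespace Pool.Agent.Lib.FGL

open Finset Classical
open Pool.Agent.Lib.FracGS (nb wnb om TAdj)
open Pool.Agent.Lib.GSR3 (Stab Tree)

namespace LOKx

theorem cw_congr {V : Type} [Fintype V] (G : SimpleGraph V) (W : Finset V) (μ : V → ℝ)
    {q q' : ℕ → V → ℝ} (M : ℕ) :
    ∀ d : ℕ, (∀ i < d, q i = q' i) → cw G W μ q M d = cw G W μ q' M d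
  | 0, _ => rfl
  | d + 1, h => by
    have h1 := cw_congr G W μ M d fun i hi => h i (Nat.lt_succ_of_lt hi)
    have h2 := h d (Nat.lt_succ_self d)
    funext x
    change q d x.1 * Dw G W μ (q d) x.1 *
      ∏ e, kw G W μ (q d) (root d) (cw G W μ q M d) x.1 (x.2 e) = _
    rw [h1, h2]
    rfl

theorem OK_congr {V : Type} [Fintype V] (G : SimpleGraph V) {q q' : ℕ → V → ℝ} {M : ℕ} :
    ∀ d : ℕ, (∀ i < d, q i = q' i) → ∀ x : Conf M V d, OK G q d x → OK G q' d x
  | 0, _, _, _ => trivial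
  | d + 1, h, x, hx => by
    intro e
    have h1 := OK_congr G d (fun i hi => h i (Nat.lt_succ_of_lt hi)) (x.2 e) (hx e).1
    have h2 := (hx e).2
    rw [h d (Nat.lt_succ_self d)] at h2
    exact ⟨h1, h2⟩

/-- the indicator of a proposition -/
noncomputable def ind (E : Prop) : ℝ := if E then 1 else 0

theorem ind_pos {E : Prop} (h : E) : ind E = 1 := if_pos h

theorem ind_neg {E : Prop} (h : ¬ E) : ind E = 0 := if_neg h

theorem ind_nonneg (E : Prop) : 0 ≤ ind E := by
  unfold ind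
  split_ifs
  · exact zero_le_one
  · exact le_refl _

theorem prb_eq {C : Type} [Fintype C] (w : C → ℝ) (E : C → Prop) :
    prb w E = ∑ x, w x * ind (E x) := by
  unfold prb ind
  refine Finset.sum_congr rfl fun x _ => ?_
  split_ifs <;> simp

theorem prb_mono {C : Type} [Fintype C] {w : C → ℝ} (hw : ∀ x, 0 ≤ w x) {E E' : C → Prop}
    (h : ∀ x, E x → E' x) : prb w E ≤ prb w E' := by
  unfold prb
  refine Finset.sum_le_sum fun x _ => ?_
  by_cases h1 : E x
  · rw [if_pos h1, if_pos (h x h1)]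
  · rw [if_neg h1]
    split_ifs
    · exact hw x
    · exact le_refl _

theorem prb_union {C ι : Type} [Fintype C] {w : C → ℝ} (hw : ∀ x, 0 ≤ w x) {E : C → Prop}
    (s : Finset ι) (E' : ι → C → Prop) (h : ∀ x, E x → ∃ i ∈ s, E' i x) :
    prb w E ≤ ∑ i ∈ s, prb w (E' i) := by
  unfold prb
  rw [Finset.sum_comm]
  refine Finset.sum_le_sum fun x _ => ?_
  have h0 : ∀ i ∈ s, 0 ≤ (if E' i x then w x else 0) := by
    intro i _
    split_ifs
    · exact hw x
    · exact le_refl _
  by_cases h1 : E x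
  · obtain ⟨i, hi, hx⟩ := h x h1
    rw [if_pos h1]
    have h2 := Finset.single_le_sum h0 hi
    rw [if_pos hx] at h2
    exact h2
  · rw [if_neg h1]
    exact Finset.sum_nonneg h0

/-- all copies satisfy `P` -/
theorem prb_all (hK : StLKer) {M : ℕ} {V : Type} [Fintype V] {G : SimpleGraph V} {W : Finset V}
    {μ : V → ℝ} {q : ℕ → V → ℝ} {d : ℕ} (hB : LBas G W μ (d + 1) q) (P : Conf M V d → Prop) :
    prb (cw G W μ q M d) P ^ (M + 1) ≤ prb (cw G W μ q M (d + 1)) (fun x => ∀ e, P (x.2 e)) := by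
  obtain ⟨hA, hC⟩ := hK M V G W μ (d + 1) q hB
  obtain ⟨k0, D0, k1, m1, -, m3, -, m5, -⟩ := hC d (Nat.lt_succ_self d)
  obtain ⟨-, hs1, -⟩ := hA (d + 1) le_rfl
  have e1 : prb (cw G W μ q M (d + 1)) (fun x => ∀ e, P (x.2 e)) =
      ∑ x, cw G W μ q M (d + 1) x * ∏ e : Fin (M + 1), ind (P (x.2 e)) := by
    rw [prb_eq]
    refine Finset.sum_congr rfl fun x _ => ?_
    congr 1
    by_cases h : ∀ e, P (x.2 e)
    · rw [ind_pos h]
      symm
      exact Finset.prod_eq_one fun e _ => ind_pos (h e)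
    · rw [ind_neg h]
      push Not at h
      obtain ⟨e, he⟩ := h
      symm
      exact Finset.prod_eq_zero (Finset.mem_univ e) (ind_neg he)
  have e2 : prb (cw G W μ q M d) P = ∑ g, q d g * Dw G W μ (q d) g *
      ∑ f, kw G W μ (q d) (root d) (cw G W μ q M d) g f * ind (P f) := by
    rw [prb_eq, ← m3 0 (fun f => ind (P f))]
    exact m1 0 (fun _ f => ind (P f))
  have hq0 : ∀ g, 0 ≤ q d g := hB.q0 d (Nat.lt_succ_self d)
  have e3 : ∑ g, q d g * Dw G W μ (q d) g = 1 := by
    have h := m1 0 (fun _ _ => 1)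
    simp only [mul_one] at h
    rw [hs1] at h
    rw [h]
    refine Finset.sum_congr rfl fun g _ => ?_
    rcases (D0 g).eq_or_lt with h0 | h0
    · rw [← h0, mul_zero, zero_mul]
    · rw [k1 g h0, mul_one]
  rw [e1, e2, m5 (fun f => ind (P f))]
  refine Real.pow_arith_mean_le_arith_mean_pow univ _ _ (fun g _ => mul_nonneg (hq0 g) (D0 g)) e3
    (fun g _ => Finset.sum_nonneg fun f _ => mul_nonneg (k0 g f) (ind_nonneg _)) (M + 1)

/-- The root of the copy `e` is on top for the weight `ρ`. -/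
def Tp {V : Type} [Fintype V] (G : SimpleGraph V) (ρ : V → ℝ) {M d : ℕ}
    (y : Fin (M + 1) → Conf M V d) (e : Fin (M + 1)) : Prop :=
  ∀ e', aw G ρ (root d (y e')) ≤ aw G ρ (root d (y e))

theorem exists_Tp {V : Type} [Fintype V] (G : SimpleGraph V) (ρ : V → ℝ) {M d : ℕ}
    (y : Fin (M + 1) → Conf M V d) : ∃ e, Tp G ρ y e := by
  obtain ⟨e, -, he⟩ := Finset.exists_max_image (univ : Finset (Fin (M + 1)))
    (fun e => aw G ρ (root d (y e))) ⟨0, Finset.mem_univ 0⟩
  exact ⟨e, fun e' => he e' (Finset.mem_univ e')⟩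

/-- pigeonhole -/
theorem exists_Tp_set {V : Type} [Fintype V] (G : SimpleGraph V) (q : ℕ → V → ℝ) {M d r' : ℕ}
    (y : Fin (M + 1) → Conf M V d) (S : Finset ℕ) (hS : (M + 1) * r' ≤ S.card) :
    ∃ e : Fin (M + 1), ∃ R ∈ S.powersetCard r', ∀ s ∈ R, Tp G (q s) y e := by
  choose e he using fun s => exists_Tp G (q s) y
  have hS' : (univ : Finset (Fin (M + 1))).card * r' ≤ S.card := by
    rw [Finset.card_univ, Fintype.card_fin]
    exact hS
  obtain ⟨a, -, ha⟩ := Finset.exists_le_card_fiber_of_mul_le_card_of_maps_to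
    (s := S) (t := (univ : Finset (Fin (M + 1)))) (f := e) (n := r')
    (fun s _ => Finset.mem_univ _) ⟨0, Finset.mem_univ 0⟩ hS'
  obtain ⟨R, hR, hRc⟩ := Finset.exists_subset_card_eq ha
  refine ⟨a, R, ?_, ?_⟩
  · rw [Finset.mem_powersetCard]
    exact ⟨hR.trans (Finset.filter_subset _ _), hRc⟩
  · intro s hs
    have h := (Finset.mem_filter.1 (hR hs)).2
    rw [← h]
    exact he s

end LOKx

open LOKx

/-- Module `LOK`. -/
theorem stLOK (h1 : StLKer) : StLOK := by
  intro M d
  induction d with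
  | zero =>
    intro r'
    refine ⟨r', 1, one_pos, ?_⟩
    intro V _ G W μ q hB
    refine ⟨fun _ => 0, range r', fun i hi => absurd hi (Nat.not_lt_zero i),
      fun i j _ hj => absurd hj (Nat.not_lt_zero j), ?_, Finset.card_range r', ?_⟩
    · intro s hs
      exact ⟨Finset.mem_range.1 hs, fun i hi => absurd hi (Nat.not_lt_zero i)⟩
    · have h2 := ((h1 M V G W μ r' q hB).1 0 (Nat.zero_le _)).2.1
      have h3 : prb (cw G W μ (fun _ => q 0) M 0) (fun x =>
          OK G (fun _ => q 0) 0 x ∧ ∀ s ∈ range r', Top G (q s) 0 x) =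
          ∑ x, cw G W μ q M 0 x := by
        unfold prb
        refine Finset.sum_congr rfl fun x _ => ?_
        rw [if_pos]
        · rfl
        · exact ⟨trivial, fun s _ _ => le_refl _⟩
      rw [h3, h2]
  | succ d ih =>
    intro r'
    obtain ⟨r, κ, hκ, h⟩ := ih ((M + 1) * r' + 1)
    set N : ℕ := (M + 1) * r' with hN
    refine ⟨r, κ ^ (M + 1) / ((M + 1 : ℕ) * 2 ^ (N + 1)), by positivity, ?_⟩
    intro V _ G W μ q hB
    obtain ⟨c, R, hc1, hc2, hR, hRc, hκP⟩ := h V G W μ q hB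
    have hRne : R.Nonempty := by
      rw [← Finset.card_pos, hRc]
      exact Nat.succ_pos _
    set m : ℕ := R.min' hRne with hm
    have hmR : m ∈ R := Finset.min'_mem R hRne
    set c' : ℕ → ℕ := fun i => if i < d then c i else m with hc'
    have hc'1 : ∀ i < d, c' i = c i := fun i hi => if_pos hi
    have hc'2 : c' d = m := if_neg (lt_irrefl d)
    set S : Finset ℕ := R.erase m with hS
    have hSc : S.card = N := by
      rw [hS, Finset.card_erase_of_mem hmR, hRc]
      rfl
    have hSR : ∀ s ∈ S, s ∈ R := fun s hs => Finset.mem_of_mem_erase hs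
    have hSm : ∀ s ∈ S, m < s := by
      intro s hs
      exact lt_of_le_of_ne (Finset.min'_le R s (hSR s hs)) (Finset.ne_of_mem_erase hs).symm
    have hlt : ∀ i < d + 1, c' i < r := by
      intro i hi
      rcases Nat.lt_succ_iff_lt_or_eq.1 hi with h2 | h2
      · rw [hc'1 i h2]
        exact hc1 i h2
      · rw [h2, hc'2]
        exact (hR m hmR).1
    have hinc : ∀ i j, i < j → j < d + 1 → c' i < c' j := by
      intro i j hij hj
      rcases Nat.lt_succ_iff_lt_or_eq.1 hj with h2 | h2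
      · rw [hc'1 i (hij.trans h2), hc'1 j h2]
        exact hc2 i j hij h2
      · rw [h2] at hij ⊢
        rw [hc'1 i hij, hc'2]
        exact (hR m hmR).2 i hij
    set q₁ : ℕ → V → ℝ := fun i => q (c i) with hq₁
    set q₂ : ℕ → V → ℝ := fun i => q (c' i) with hq₂
    have hq12 : ∀ i < d, q₁ i = q₂ i := by
      intro i hi
      rw [hq₁, hq₂]
      simp only
      rw [hc'1 i hi]
    have hq2d : q₂ d = q m := by
      rw [hq₂]
      simp only
      rw [hc'2]
    have hB2 : LBas G W μ (d + 1) q₂ := by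
      refine ⟨hB.μ0, hB.μW, hB.μ1, ?_, ?_⟩
      · intro i hi
        exact hB.q0 _ (hlt i hi)
      · intro i hi
        exact hB.apos _ (hlt i hi)
    set P : Conf M V d → Prop := fun x => OK G q₁ d x ∧ ∀ s ∈ R, Top G (q s) d x with hP
    have hPA := prb_all h1 hB2 P
    rw [← cw_congr G W μ M d hq12] at hPA
    have hw0 : ∀ x, 0 ≤ cw G W μ q₂ M (d + 1) x :=
      ((h1 M V G W μ (d + 1) q₂ hB2).1 (d + 1) le_rfl).1
    set A : Finset ℕ → Fin (M + 1) → Conf M V (d + 1) → Prop := fun R' e x =>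
      (∀ e', P (x.2 e')) ∧ ∀ s ∈ R', Tp G (q s) x.2 e with hA
    -- symmetry
    have hsym : ∀ (R' : Finset ℕ) (e : Fin (M + 1)), prb (cw G W μ q₂ M (d + 1)) (A R' e) =
        prb (cw G W μ q₂ M (d + 1)) (A R' 0) := by
      intro R' e
      obtain ⟨-, -, -, -, -, -, -, -, hperm⟩ :=
        (h1 M V G W μ (d + 1) q₂ hB2).2 d (Nat.lt_succ_self d)
      have h3 := hperm (Equiv.swap 0 e) (fun _ y => ind ((∀ e', P (y e')) ∧
        ∀ s ∈ R', Tp G (q s) y e))
      rw [prb_eq, prb_eq]
      refine Eq.trans h3.symm ?_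
      refine Finset.sum_congr rfl fun x _ => ?_
      congr 1
      have h4 : ((∀ e', P (x.2 (Equiv.swap 0 e e'))) ∧
          ∀ s ∈ R', Tp G (q s) (fun e' => x.2 (Equiv.swap 0 e e')) e) ↔ A R' 0 x := by
        constructor
        · rintro ⟨h5, h6⟩
          refine ⟨fun e' => ?_, fun s hs e' => ?_⟩
          · have := h5 (Equiv.swap 0 e e')
            rwa [Equiv.swap_apply_self] at this
          · have := h6 s hs (Equiv.swap 0 e e')
            simp only [Equiv.swap_apply_self, Equiv.swap_apply_right] at this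
            exact this
        · rintro ⟨h5, h6⟩
          refine ⟨fun e' => h5 _, fun s hs e' => ?_⟩
          have := h6 s hs (Equiv.swap 0 e e')
          simp only [Equiv.swap_apply_right]
          exact this
      exact congrArg ind (propext h4)
    have hunion : prb (cw G W μ q₂ M (d + 1)) (fun x => ∀ e, P (x.2 e)) ≤
        ∑ p ∈ (univ : Finset (Fin (M + 1))) ×ˢ S.powersetCard r',
          prb (cw G W μ q₂ M (d + 1)) (A p.2 p.1) := by
      refine prb_union hw0 _ (fun p : Fin (M + 1) × Finset ℕ => A p.2 p.1) fun x hx => ?_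
      obtain ⟨e, R', hR', hT⟩ := exists_Tp_set G q x.2 S (le_of_eq hSc.symm)
      exact ⟨(e, R'), Finset.mem_product.2 ⟨Finset.mem_univ _, hR'⟩, hx, hT⟩
    have hex : ∃ R' ∈ S.powersetCard r',
        κ ^ (M + 1) / ((M + 1 : ℕ) * 2 ^ (N + 1)) ≤ prb (cw G W μ q₂ M (d + 1)) (A R' 0) := by
      by_contra hcon
      push Not at hcon
      have h3 : ∑ p ∈ (univ : Finset (Fin (M + 1))) ×ˢ S.powersetCard r',
          prb (cw G W μ q₂ M (d + 1)) (A p.2 p.1) ≤
          ((M + 1) * 2 ^ N : ℕ) • (κ ^ (M + 1) / ((M + 1 : ℕ) * 2 ^ (N + 1))) := by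
        have h4 : ∀ p ∈ (univ : Finset (Fin (M + 1))) ×ˢ S.powersetCard r',
            prb (cw G W μ q₂ M (d + 1)) (A p.2 p.1) ≤
              κ ^ (M + 1) / ((M + 1 : ℕ) * 2 ^ (N + 1)) := by
          intro p hp
          rw [hsym]
          exact (hcon p.2 (Finset.mem_product.1 hp).2).le
        refine (Finset.sum_le_card_nsmul _ _ _ h4).trans ?_
        refine nsmul_le_nsmul_left (by positivity) ?_
        rw [Finset.card_product, Finset.card_univ, Fintype.card_fin]
        refine Nat.mul_le_mul_left _ ?_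
        rw [Finset.card_powersetCard, hSc]
        exact Nat.choose_le_two_pow N r'
      have h4 : ((M + 1) * 2 ^ N : ℕ) • (κ ^ (M + 1) / ((M + 1 : ℕ) * 2 ^ (N + 1))) =
          κ ^ (M + 1) / 2 := by
        rw [nsmul_eq_mul]
        push_cast
        have : ((M : ℝ) + 1) ≠ 0 := by positivity
        field_simp
        ring
      have h5 : κ ^ (M + 1) ≤ prb (cw G W μ q₁ M d) P ^ (M + 1) :=
        pow_le_pow_left₀ hκ.le hκP _
      have h6 : 0 < κ ^ (M + 1) := by positivity
      linarith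
    obtain ⟨R', hR', hR'P⟩ := hex
    rw [Finset.mem_powersetCard] at hR'
    refine ⟨c', R', hlt, hinc, ?_, hR'.2, hR'P.trans (prb_mono hw0 ?_)⟩
    · intro s hs
      have hsS := hR'.1 hs
      refine ⟨(hR s (hSR s hsS)).1, fun i hi => ?_⟩
      rcases Nat.lt_succ_iff_lt_or_eq.1 hi with h2 | h2
      · rw [hc'1 i h2]
        exact (hR s (hSR s hsS)).2 i h2
      · rw [h2, hc'2]
        exact hSm s hsS
    · rintro x ⟨hx1, hx2⟩
      refine ⟨fun e => ⟨OK_congr G d hq12 _ (hx1 e).1, ?_⟩, fun s hs => ?_⟩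
      · have h3 := (hx1 e).2 m hmR
        change Top G (q₂ d) d (x.2 e)
        rw [hq2d]
        exact h3
      · rintro ⟨e, u⟩
        exact ((hx1 e).2 s (hSR s (hR'.1 hs)) u).trans (hx2 s hs e)

end Pool.Agent.Lib.FGL
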