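import Pool.Agent.Lib.FGF.LStmts

/-!
# Fractional Gyarfas-Sumner: conflicts between the outer hub and a copy
-/

set_option autoImplicit false

namespace Pool.Agent.Lib.FGL

open Finset Classical
open Pool.Agent.Lib.FracGS (nb wnb om TAdj)
open Pool.Agent.Lib.GSR3 (Stab Tree)

namespace LOneAux

/-- indicator -/
noncomputable def ind (P : Prop) : ℝ := if P then 1 else 0

theorem ind_pos {P : Prop} (h : P) : ind P = 1 := if_pos h

theorem ind_neg {P : Prop} (h : ¬ P) : ind P = 0 := if_neg h

theorem prb_eq {C : Type} [Fintype C] (w : C → ℝ) (E : C → Prop) :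
    prb w E = ∑ x, w x * ind (E x) := by
  unfold prb
  refine sum_congr rfl fun x _ => ?_
  by_cases h : E x
  · rw [if_pos h, ind_pos h, mul_one]
  · rw [if_neg h, ind_neg h, mul_zero]

theorem om_nonneg {V : Type} (G : SimpleGraph V) (S : Finset V) {ζ : V → ℝ} (h : ∀ y, 0 ≤ ζ y)
    (x p : V) : 0 ≤ om G S ζ x p := sum_nonneg fun y _ => h y

theorem lk_nonneg {V : Type} [Fintype V] (G : SimpleGraph V) {ρ : V → ℝ} (h : ∀ y, 0 ≤ ρ y)
    (x x' : V) : 0 ≤ lk G ρ x x' := div_nonneg (om_nonneg G univ h x x') (Real.sqrt_nonneg _)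

theorem om_le_aw {V : Type} [Fintype V] (G : SimpleGraph V) {ρ : V → ℝ} (h : ∀ y, 0 ≤ ρ y)
    (x x' : V) : om G univ ρ x x' ≤ aw G ρ x' := by
  refine sum_le_sum_of_subset_of_nonneg ?_ fun y _ _ => h y
  intro y hy
  rw [mem_filter] at hy
  exact mem_filter.2 ⟨hy.1, hy.2.2⟩

theorem sum_om {V : Type} [Fintype V] (G : SimpleGraph V) (ρ : V → ℝ) (x x' : V) :
    (∑ g, if G.Adj x g then ρ g * ind (G.Adj g x') else 0) = om G univ ρ x x' := by
  unfold om
  rw [sum_filter]
  refine sum_congr rfl fun g _ => ?_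
  by_cases h1 : G.Adj x g
  · by_cases h2 : G.Adj g x'
    · rw [if_pos h1, ind_pos h2, if_pos ⟨h1, h2.symm⟩, mul_one]
    · rw [if_pos h1, ind_neg h2, if_neg fun h => h2 h.2.symm, mul_zero]
  · rw [if_neg h1, if_neg fun h => h1 h.1]

end LOneAux

open LOneAux in
theorem stLOne (h0 : StLSub) (h1 : StLKer) (h2 : StLMarg) (h4 : StLOp) : StLOne := by
  intro M V _ G W μ r J q H xi Gam e1 e2 hS hGam he1 d hd eta heta
  have hB : LBas G W μ r q := (h0 V G W μ r J q H xi Gam e1 e2 hS).1
  obtain ⟨k1, k2⟩ := h1 M V G W μ r q hB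
  obtain ⟨c0, c1, c2⟩ := k1 d hd.le
  obtain ⟨w0, D0, w1, f1, f2, f3, _⟩ := k2 d hd
  obtain ⟨m1, m2, m3, m4, m5, m6, m7⟩ := h2 M V G W μ r q hB d hd.le
  have hG0 : (0 : ℝ) < Gam := by linarith
  refine ⟨?_, fun e => ⟨fun h => ?_, fun u hu => ?_, fun h => ?_⟩⟩
  · -- (1)
    rw [prb_eq]
    refine (f1 0 (fun g _ => ind (Dw G W μ (q d) g < eta))).le.trans ?_
    have hle : ∀ g ∈ (univ : Finset V), q d g * Dw G W μ (q d) g *
        ∑ f, kw G W μ (q d) (root d) (cw G W μ q M d) g f *
          ind (Dw G W μ (q d) g < eta) ≤ eta * q d g := by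
      intro g _
      rw [← sum_mul]
      by_cases hg : Dw G W μ (q d) g < eta
      · rw [ind_pos hg, mul_one]
        rcases (D0 g).eq_or_lt with hD | hD
        · rw [← hD, mul_zero, zero_mul]
          exact mul_nonneg heta.le (hS.q0 d hd g)
        · rw [w1 g hD, mul_one, mul_comm]
          exact mul_le_mul_of_nonneg_right hg.le (hS.q0 d hd g)
      · rw [ind_neg hg, mul_zero, mul_zero]
        exact mul_nonneg heta.le (hS.q0 d hd g)
    refine (sum_le_sum hle).trans ?_
    rw [← mul_sum]
    calc eta * ∑ g, q d g ≤ eta * 1 := mul_le_mul_of_nonneg_left (hS.q1 d hd) heta.le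
      _ = eta := mul_one _
  · -- (2)
    rw [prb_eq]
    refine (f3 e (fun f => ind (aw G (q d) (hr d f h) < Gam * aw G (q d) (hv d f h)))).le.trans ?_
    refine (m2 h (fun v y => ind (aw G (q d) v < Gam * aw G (q d) y))).le.trans ?_
    have hi := m4 h
    have hle : ∀ v ∈ W, μ v / aw G (q (lev d h)) v *
        (∑ y, if G.Adj v y then q (lev d h) y *
          ind (aw G (q d) v < Gam * aw G (q d) y) else 0) ≤ e2 * μ v := by
      intro v hv
      have ha := hS.apos (lev d h) (hi.trans hd) v hv
      have e : (∑ y, if G.Adj v y then q (lev d h) y *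
          ind (aw G (q d) v < Gam * aw G (q d) y) else 0) =
          wnb G univ (fun y => if aw G (q d) v < Gam * aw G (q d) y then q (lev d h) y else 0)
            v := by
        unfold wnb nb
        rw [sum_filter]
        refine sum_congr rfl fun y _ => ?_
        by_cases h5 : G.Adj v y
        · rw [if_pos h5, if_pos h5]
          by_cases h6 : aw G (q d) v < Gam * aw G (q d) y
          · rw [ind_pos h6, if_pos h6, mul_one]
          · rw [ind_neg h6, if_neg h6, mul_zero]
        · rw [if_neg h5, if_neg h5]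
      rw [e]
      have h5 := mul_le_mul_of_nonneg_left (hS.sg (lev d h) d hi hd v hv)
        (div_nonneg (hS.μ0 v) ha.le)
      refine h5.trans (le_of_eq ?_)
      field_simp
    refine (sum_le_sum hle).trans ?_
    rw [← mul_sum, hS.μ1, mul_one]
  · -- (3)
    rw [prb_eq]
    refine (f2 e (fun g f => ind (Top G (q d) d f ∧ G.Adj g (wv d f u)))).le.trans ?_
    refine le_trans ?_ (h4 M V G W μ r J q H xi Gam e1 e2 hS he1 d hd u hu)
    refine sum_le_sum fun f _ => ?_
    have hlk : 0 ≤ lk G (q d) (root d f) (wv d f u) := lk_nonneg G (hS.q0 d hd) _ _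
    by_cases hT : Top G (q d) d f
    · have e : (∑ g, if G.Adj (root d f) g then q d g *
          ind (Top G (q d) d f ∧ G.Adj g (wv d f u)) else 0) =
          om G univ (q d) (root d f) (wv d f u) := by
        rw [← sum_om]
        refine sum_congr rfl fun g _ => ?_
        simp only [hT, true_and]
      rw [e]
      by_cases hc : cw G W μ q M d f = 0
      · rw [hc, zero_div, zero_mul, zero_mul]
      · obtain ⟨hW, _, _⟩ := m7 f hc
        have ha : 0 < aw G (q d) (root d f) := by
          rw [m6 f]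
          exact hS.apos d hd _ (hW _)
        have hb : 0 < aw G (q d) (wv d f u) := hS.apos d hd _ (hW u)
        have hs : 0 < Real.sqrt (aw G (q d) (root d f) * aw G (q d) (wv d f u)) :=
          Real.sqrt_pos.2 (mul_pos ha hb)
        have hs2 : Real.sqrt (aw G (q d) (root d f) * aw G (q d) (wv d f u)) ≤
            aw G (q d) (root d f) := by
          rw [Real.sqrt_le_left ha.le, sq]
          exact mul_le_mul_of_nonneg_left (hT u) ha.le
        rw [div_mul_eq_mul_div, mul_div_assoc]
        refine mul_le_mul_of_nonneg_left ?_ (c0 f)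
        exact div_le_div_of_nonneg_left (om_nonneg G univ (hS.q0 d hd) _ _) hs hs2
    · have e : (∑ g, if G.Adj (root d f) g then q d g *
          ind (Top G (q d) d f ∧ G.Adj g (wv d f u)) else 0) = 0 := by
        refine sum_eq_zero fun g _ => ?_
        rw [ind_neg fun h : Top G (q d) d f ∧ G.Adj g (wv d f u) => hT h.1, mul_zero, ite_self]
      rw [e, mul_zero]
      exact mul_nonneg (c0 f) hlk
  · -- (4)
    rw [prb_eq]
    refine (f2 e (fun g f => ind (Top G (q d) d f ∧
          Gam * aw G (q d) (hv d f h) ≤ aw G (q d) (hr d f h) ∧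
          G.Adj g (hv d f h)))).le.trans ?_
    have hle : ∀ f ∈ (univ : Finset (Conf M V d)), cw G W μ q M d f / aw G (q d) (root d f) *
        (∑ g, if G.Adj (root d f) g then q d g *
          ind (Top G (q d) d f ∧ Gam * aw G (q d) (hv d f h) ≤ aw G (q d) (hr d f h) ∧
          G.Adj g (hv d f h)) else 0) ≤ (1 / Gam) * cw G W μ q M d f := by
      intro f _
      by_cases hc : cw G W μ q M d f = 0
      · rw [hc, zero_div, zero_mul, mul_zero]
      obtain ⟨hW, _, _⟩ := m7 f hc
      have ha : 0 < aw G (q d) (root d f) := by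
        rw [m6 f]
        exact hS.apos d hd _ (hW _)
      by_cases hT : Top G (q d) d f ∧ Gam * aw G (q d) (hv d f h) ≤ aw G (q d) (hr d f h)
      · have e : (∑ g, if G.Adj (root d f) g then q d g *
            ind (Top G (q d) d f ∧ Gam * aw G (q d) (hv d f h) ≤ aw G (q d) (hr d f h) ∧
            G.Adj g (hv d f h)) else 0) =
            om G univ (q d) (root d f) (hv d f h) := by
          rw [← sum_om]
          refine sum_congr rfl fun g _ => ?_
          simp only [hT.1, hT.2, true_and]
        rw [e]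
        have h5 : om G univ (q d) (root d f) (hv d f h) ≤ aw G (q d) (hv d f h) :=
          om_le_aw G (hS.q0 d hd) _ _
        obtain ⟨u, hu⟩ := m5 h
        have h6 : aw G (q d) (hr d f h) ≤ aw G (q d) (root d f) := by
          rw [hu f]
          exact hT.1 u
        have h7 : Gam * om G univ (q d) (root d f) (hv d f h) ≤ aw G (q d) (root d f) :=
          (mul_le_mul_of_nonneg_left h5 hG0.le).trans (hT.2.trans h6)
        have h8 : om G univ (q d) (root d f) (hv d f h) / aw G (q d) (root d f) ≤ 1 / Gam := by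
          rw [div_le_div_iff₀ ha hG0]
          linarith
        rw [div_mul_eq_mul_div, mul_div_assoc, mul_comm (1 / Gam)]
        exact mul_le_mul_of_nonneg_left h8 (c0 f)
      · have e : (∑ g, if G.Adj (root d f) g then q d g *
            ind (Top G (q d) d f ∧ Gam * aw G (q d) (hv d f h) ≤ aw G (q d) (hr d f h) ∧
            G.Adj g (hv d f h)) else 0) = 0 := by
          refine sum_eq_zero fun g _ => ?_
          rw [ind_neg fun h' : Top G (q d) d f ∧
            Gam * aw G (q d) (hv d f h) ≤ aw G (q d) (hr d f h) ∧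
            G.Adj g (hv d f h) => hT ⟨h'.1, h'.2.1⟩, mul_zero, ite_self]
        rw [e, mul_zero]
        exact mul_nonneg (by positivity) (c0 f)
    refine (sum_le_sum hle).trans ?_
    rw [← mul_sum, c1, mul_one]

end Pool.Agent.Lib.FGL
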