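import Pool.Agent.Lib.FGF.LStmts

/-!
# Fractional Gyarfas-Sumner: links between the root and another vertex
-/

set_option autoImplicit false

namespace Pool.Agent.Lib.FGL

open Finset Classical
open Pool.Agent.Lib.FracGS (nb wnb om TAdj)

namespace LOpAux

variable {V : Type} [Fintype V] {G : SimpleGraph V} {W : Finset V} {μ : V → ℝ} {r : ℕ}
  {q : ℕ → V → ℝ}

/-- `g_y(v)` -/
noncomputable def gy (G : SimpleGraph V) (ρ : V → ℝ) (y v : V) : ℝ :=
  if G.Adj v y then 1 / Real.sqrt (aw G ρ v) else 0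

lemma aw_eq (ρ : V → ℝ) (v : V) : aw G ρ v = ∑ y, if G.Adj v y then ρ y else 0 := by
  unfold aw wnb nb
  rw [sum_filter]

lemma aw_nonneg {ρ : V → ℝ} (h : ∀ y, 0 ≤ ρ y) (v : V) : 0 ≤ aw G ρ v := by
  rw [aw_eq]
  exact sum_nonneg fun y _ => by split_ifs <;> simp [h y]

lemma om_eq (ρ : V → ℝ) (x x' : V) :
    om G univ ρ x x' = ∑ y, if G.Adj x y ∧ G.Adj x' y then ρ y else 0 := by
  unfold om
  rw [sum_filter]

lemma gy_nonneg (ρ : V → ℝ) (y v : V) : 0 ≤ gy G ρ y v := by
  unfold gy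
  split_ifs
  · positivity
  · exact le_rfl

/-- the link as a sum -/
lemma lk_eq {ρ : V → ℝ} (h : ∀ y, 0 ≤ ρ y) (x x' : V) :
    lk G ρ x x' = ∑ y, ρ y * (gy G ρ y x * gy G ρ y x') := by
  rw [lk, om_eq, Real.sqrt_mul (aw_nonneg h x), sum_div]
  refine sum_congr rfl fun y _ => ?_
  unfold gy
  by_cases h1 : G.Adj x y <;> by_cases h2 : G.Adj x' y <;> simp [h1, h2]
  ring

lemma sum_gy {ρ : V → ℝ} {v : V} (hv : 0 < aw G ρ v) :
    ∑ y, ρ y * gy G ρ y v ^ 2 = 1 := by
  have h1 : ∀ y, ρ y * gy G ρ y v ^ 2 = (if G.Adj v y then ρ y else 0) / aw G ρ v := by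
    intro y
    unfold gy
    by_cases h1 : G.Adj v y
    · simp only [h1, if_true]
      rw [div_pow, Real.sq_sqrt hv.le]
      ring
    · simp [h1]
  rw [sum_congr rfl fun y _ => h1 y, ← sum_div, ← aw_eq, div_self hv.ne']

/-- the sum over the hubs of the squares of the root marginals -/
lemma root_sq (ρ F : V → ℝ) :
    ∑ g, ρ g * Dw G W μ ρ g *
        (∑ v ∈ W, μ v * ((if G.Adj g v then 1 else 0) / (aw G ρ v * Dw G W μ ρ g) * F v)) ^ 2 =
      ∑ x ∈ W, ∑ x' ∈ W, mt G W μ ρ x x' * F x * F x' := by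
  have h1 : ∀ g, ρ g * Dw G W μ ρ g *
      (∑ v ∈ W, μ v * ((if G.Adj g v then 1 else 0) / (aw G ρ v * Dw G W μ ρ g) * F v)) ^ 2 =
      ∑ x ∈ W, ∑ x' ∈ W, (if G.Adj x g ∧ G.Adj x' g then ρ g / Dw G W μ ρ g else 0) *
        ((μ x / aw G ρ x) * (μ x' / aw G ρ x') * F x * F x') := by
    intro g
    have h2 : ρ g * Dw G W μ ρ g *
        (∑ v ∈ W, μ v * ((if G.Adj g v then 1 else 0) / (aw G ρ v * Dw G W μ ρ g) * F v)) ^ 2 =
        (ρ g / Dw G W μ ρ g) *
          (∑ v ∈ W, (if G.Adj v g then 1 else 0) * ((μ v / aw G ρ v) * F v)) ^ 2 := by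
      have h3 : ∑ v ∈ W, μ v * ((if G.Adj g v then 1 else 0) / (aw G ρ v * Dw G W μ ρ g) * F v) =
          (Dw G W μ ρ g)⁻¹ *
            ∑ v ∈ W, (if G.Adj v g then 1 else 0) * ((μ v / aw G ρ v) * F v) := by
        rw [mul_sum]
        refine sum_congr rfl fun v _ => ?_
        rw [G.adj_comm g v, div_eq_mul_inv, mul_inv, div_eq_mul_inv]
        ring
      rw [h3, mul_pow]
      by_cases hD : Dw G W μ ρ g = 0
      · rw [hD]; simp
      · field_simp
    rw [h2, sq, sum_mul_sum, mul_sum]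
    refine sum_congr rfl fun x _ => ?_
    rw [mul_sum]
    refine sum_congr rfl fun x' _ => ?_
    by_cases h4 : G.Adj x g
    · by_cases h5 : G.Adj x' g
      · rw [if_pos h4, if_pos h5, if_pos ⟨h4, h5⟩]
        ring
      · simp [h5]
    · simp [h4]
  rw [sum_congr rfl fun g _ => h1 g, sum_comm]
  refine sum_congr rfl fun x _ => ?_
  rw [sum_comm]
  refine sum_congr rfl fun x' _ => ?_
  rw [← sum_mul, mt, om_eq]
  ring

lemma mt_nonneg (hB : LBas G W μ r q) {i : ℕ} (hi : i < r) (x x' : V) :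
    0 ≤ mt G W μ (q i) x x' := by
  have hq := hB.q0 i hi
  have hD : ∀ y, 0 ≤ Dw G W μ (q i) y := by
    intro y
    unfold Dw wnb
    exact sum_nonneg fun v _ => div_nonneg (hB.μ0 v) (aw_nonneg hq v)
  unfold mt
  refine mul_nonneg (mul_nonneg ?_ (div_nonneg (hB.μ0 x) (aw_nonneg hq x)))
    (div_nonneg (hB.μ0 x') (aw_nonneg hq x'))
  rw [om_eq]
  refine sum_nonneg fun y _ => ?_
  split_ifs
  · exact div_nonneg (hq y) (hD y)
  · exact le_rfl

/-- the main recursion -/
lemma key (h1 : StLKer) (h2 : StLMarg) (M : ℕ) (hB : LBas G W μ r q) :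
    ∀ d ≤ r, ∀ u : WN M d, u ≠ rn M d → ∃ i < d, ∀ F K : V → ℝ,
      (∑ x, cw G W μ q M d x * (F (root d x) * K (wv d x u))) ^ 2 ≤
        (∑ x ∈ W, ∑ x' ∈ W, mt G W μ (q i) x x' * F x * F x') * ∑ v ∈ W, μ v * K v ^ 2 := by
  obtain ⟨hL1, hL2⟩ := h1 M V G W μ r q hB
  intro d
  induction d with
  | zero =>
    intro _ u hu
    exact absurd rfl hu
  | succ d ih =>
    intro hd u hu
    have hd' : d < r := hd
    obtain ⟨hk0, hD0, hk1, hL4, -, hcopy, htwo, -, -⟩ := hL2 d hd'
    obtain ⟨hw0, -, hroot⟩ := hL1 d hd'.le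
    obtain ⟨e, u'⟩ := u
    by_cases he : e = 0
    · subst he
      have hu' : u' ≠ rn M d := fun h => hu (by rw [h]; rfl)
      obtain ⟨i, hi, hi2⟩ := ih hd'.le u' hu'
      refine ⟨i, hi.trans (Nat.lt_succ_self d), fun F K => ?_⟩
      have h3 := hcopy 0 (fun f => F (root d f) * K (wv d f u'))
      have h4 : ∑ x, cw G W μ q M (d + 1) x *
          (F (root (d + 1) x) * K (wv (d + 1) x ((0 : Fin (M + 1)), u'))) =
          ∑ f, cw G W μ q M d f * (F (root d f) * K (wv d f u')) := h3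
      rw [h4]
      exact hi2 F K
    · refine ⟨d, Nat.lt_succ_self d, fun F K => ?_⟩
      have h3 := htwo 0 e (fun h => he h.symm) (fun _ f f' => F (root d f) * K (wv d f' u'))
      have h4 : ∑ x, cw G W μ q M (d + 1) x *
          (F (root (d + 1) x) * K (wv (d + 1) x (e, u'))) =
          ∑ g, q d g * Dw G W μ (q d) g *
            ((∑ f, kw G W μ (q d) (root d) (cw G W μ q M d) g f * F (root d f)) *
              ∑ f, kw G W μ (q d) (root d) (cw G W μ q M d) g f * K (wv d f u')) := by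
        refine Eq.trans h3 (sum_congr rfl fun g _ => ?_)
        congr 1
        rw [mul_comm (∑ f, kw G W μ (q d) (root d) (cw G W μ q M d) g f * F (root d f)), sum_mul]
        refine sum_congr rfl fun f' _ => ?_
        rw [mul_assoc, mul_comm (K (wv d f' u')), sum_mul]
        congr 1
        exact sum_congr rfl fun f _ => by ring
      rw [h4]
      have hw : ∀ g, 0 ≤ q d g * Dw G W μ (q d) g := fun g =>
        mul_nonneg (hB.q0 d hd' g) (hD0 g)
      refine le_trans (sum_sq_le_sum_mul_sum_of_sq_le_mul univ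
        (f := fun g => q d g * Dw G W μ (q d) g *
          (∑ f, kw G W μ (q d) (root d) (cw G W μ q M d) g f * F (root d f)) ^ 2)
        (g := fun g => q d g * Dw G W μ (q d) g *
          (∑ f, kw G W μ (q d) (root d) (cw G W μ q M d) g f * K (wv d f u')) ^ 2)
        (fun g _ => mul_nonneg (hw g) (sq_nonneg _)) (fun g _ => mul_nonneg (hw g) (sq_nonneg _))
        (fun g _ => le_of_eq (by ring))) ?_
      have hA : ∑ g, q d g * Dw G W μ (q d) g *
          (∑ f, kw G W μ (q d) (root d) (cw G W μ q M d) g f * F (root d f)) ^ 2 =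
          ∑ x ∈ W, ∑ x' ∈ W, mt G W μ (q d) x x' * F x * F x' := by
        rw [← root_sq]
        refine sum_congr rfl fun g _ => ?_
        congr 2
        rw [← hroot]
        refine sum_congr rfl fun f _ => ?_
        rw [kw]
        ring
      have hBd : ∑ g, q d g * Dw G W μ (q d) g *
          (∑ f, kw G W μ (q d) (root d) (cw G W μ q M d) g f * K (wv d f u')) ^ 2 ≤
          ∑ v ∈ W, μ v * K v ^ 2 := by
        have h5 : ∑ v ∈ W, μ v * K v ^ 2 = ∑ g, q d g * Dw G W μ (q d) g *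
            ∑ f, kw G W μ (q d) (root d) (cw G W μ q M d) g f * K (wv d f u') ^ 2 := by
          rw [← (h2 M V G W μ r q hB d hd'.le).1 u' (fun v => K v ^ 2),
            ← hcopy e (fun f => K (wv d f u') ^ 2)]
          exact hL4 e (fun _ f => K (wv d f u') ^ 2)
        rw [h5]
        refine sum_le_sum fun g _ => ?_
        rcases (hD0 g).lt_or_eq with h6 | h6
        · refine mul_le_mul_of_nonneg_left ?_ (hw g)
          have h7 := sum_sq_le_sum_mul_sum_of_sq_le_mul univ
            (r := fun f => kw G W μ (q d) (root d) (cw G W μ q M d) g f * K (wv d f u'))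
            (f := fun f => kw G W μ (q d) (root d) (cw G W μ q M d) g f)
            (g := fun f => kw G W μ (q d) (root d) (cw G W μ q M d) g f * K (wv d f u') ^ 2)
            (fun f _ => hk0 g f) (fun f _ => mul_nonneg (hk0 g f) (sq_nonneg _))
            (fun f _ => le_of_eq (by ring))
          rwa [hk1 g h6, one_mul] at h7
        · rw [← h6]
          simp
      rw [hA]
      refine mul_le_mul_of_nonneg_left hBd ?_
      rw [← hA]
      exact sum_nonneg fun g _ => mul_nonneg (hw g) (sq_nonneg _)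

end LOpAux

open LOpAux in
/-- Module `LOp`: links between the root and another vertex. -/
theorem stLOp (h0 : StLSub) (h1 : StLKer) (h2 : StLMarg) : StLOp := by
  intro M V _ G W μ r J q H xi Gam e1 e2 hS he1 d hd u hu
  obtain ⟨hB, -, -⟩ := h0 V G W μ r J q H xi Gam e1 e2 hS
  obtain ⟨i, hi, hkey⟩ := key h1 h2 M hB d hd.le u hu
  have hq := hB.q0 d hd
  set ρ := q d with hρ
  have hZ : ∑ x, cw G W μ q M d x * lk G ρ (root d x) (wv d x u) =
      ∑ y, ρ y * ∑ x, cw G W μ q M d x * (gy G ρ y (root d x) * gy G ρ y (wv d x u)) := by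
    rw [sum_congr rfl fun x _ => by rw [lk_eq hq, mul_sum], sum_comm]
    refine sum_congr rfl fun y _ => ?_
    rw [mul_sum]
    exact sum_congr rfl fun x _ => by ring
  rw [hZ]
  refine (le_abs_self _).trans (Real.abs_le_sqrt ?_)
  have hi' : i < r := hi.trans hd
  set A : V → ℝ := fun y =>
    ∑ x ∈ W, ∑ x' ∈ W, mt G W μ (q i) x x' * gy G ρ y x * gy G ρ y x' with hA
  set B : V → ℝ := fun y => ∑ v ∈ W, μ v * gy G ρ y v ^ 2 with hBdef
  have hA0 : ∀ y, 0 ≤ A y := fun y => sum_nonneg fun x _ => sum_nonneg fun x' _ =>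
    mul_nonneg (mul_nonneg (mt_nonneg hB hi' x x') (gy_nonneg ρ y x)) (gy_nonneg ρ y x')
  have hB0 : ∀ y, 0 ≤ B y := fun y => sum_nonneg fun v _ =>
    mul_nonneg (hB.μ0 v) (sq_nonneg _)
  have hCS := sum_sq_le_sum_mul_sum_of_sq_le_mul univ
    (r := fun y => ρ y * ∑ x, cw G W μ q M d x * (gy G ρ y (root d x) * gy G ρ y (wv d x u)))
    (f := fun y => ρ y * A y) (g := fun y => ρ y * B y)
    (fun y _ => mul_nonneg (hq y) (hA0 y)) (fun y _ => mul_nonneg (hq y) (hB0 y))
    (fun y _ => by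
      rw [mul_pow]
      calc ρ y ^ 2 * (∑ x, cw G W μ q M d x *
            (gy G ρ y (root d x) * gy G ρ y (wv d x u))) ^ 2 ≤ ρ y ^ 2 * (A y * B y) :=
            mul_le_mul_of_nonneg_left (hkey (gy G ρ y) (gy G ρ y)) (sq_nonneg _)
        _ = ρ y * A y * (ρ y * B y) := by ring)
  refine hCS.trans ?_
  have hSA : ∑ y, ρ y * A y ≤ e1 := by
    have h3 : ∑ y, ρ y * A y = ∑ x ∈ W, ∑ x' ∈ W, mt G W μ (q i) x x' * lk G ρ x x' := by
      simp only [hA, mul_sum]
      rw [sum_comm]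
      refine sum_congr rfl fun x _ => ?_
      rw [sum_comm]
      refine sum_congr rfl fun x' _ => ?_
      rw [lk_eq hq, mul_sum]
      exact sum_congr rfl fun y _ => by ring
    rw [h3]
    exact hS.lam i d hi hd
  have hSB : ∑ y, ρ y * B y = 1 := by
    have h3 : ∑ y, ρ y * B y = ∑ v ∈ W, μ v * ∑ y, ρ y * gy G ρ y v ^ 2 := by
      simp only [hBdef, mul_sum]
      rw [sum_comm]
      exact sum_congr rfl fun v _ => sum_congr rfl fun y _ => by ring
    rw [h3, ← hB.μ1]
    refine sum_congr rfl fun v hv => ?_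
    rw [sum_gy (hB.apos d hd v hv), mul_one]
  rw [hSB, mul_one]
  exact hSA

end Pool.Agent.Lib.FGL
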