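import Pool.Agent.Lib.FGF.LStmts

/-!
# Fractional Gyarfas-Sumner, module `LRec`: the probability of a conflict
-/

set_option autoImplicit false

namespace Pool.Agent.Lib.FGL

open Finset Classical
open Pool.Agent.Lib.FracGS (nb wnb om TAdj)
open Pool.Agent.Lib.GSR3 (Stab Tree)
open Pool.Agent.Lib.FGL

namespace LRecAux

section prb

variable {C : Type} [Fintype C] {w : C → ℝ}

theorem prb_nonneg (hw : ∀ x, 0 ≤ w x) (E : C → Prop) : 0 ≤ prb w E := by
  unfold prb
  apply Finset.sum_nonneg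
  intro x _
  split_ifs
  · exact hw x
  · exact le_rfl

theorem prb_mono (hw : ∀ x, 0 ≤ w x) {E F : C → Prop} (h : ∀ x, w x ≠ 0 → E x → F x) :
    prb w E ≤ prb w F := by
  unfold prb
  apply Finset.sum_le_sum
  intro x _
  by_cases h0 : w x = 0
  · rw [h0, ite_self, ite_self]
  · by_cases hE : E x
    · rw [if_pos hE, if_pos (h x h0 hE)]
    · rw [if_neg hE]
      split_ifs
      · exact hw x
      · exact le_rfl

theorem prb_or (hw : ∀ x, 0 ≤ w x) (A B : C → Prop) :
    prb w (fun x => A x ∨ B x) ≤ prb w A + prb w B := by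
  unfold prb
  rw [← Finset.sum_add_distrib]
  apply Finset.sum_le_sum
  intro x _
  have := hw x
  by_cases hA : A x <;> by_cases hB : B x <;> simp [hA, hB, this]

theorem prb_false (E : C → Prop) (h : ∀ x, ¬ E x) : prb w E = 0 := by
  unfold prb
  apply Finset.sum_eq_zero
  intro x _
  rw [if_neg (h x)]

theorem prb_ex {ι : Type} [Fintype ι] (hw : ∀ x, 0 ≤ w x) (A : ι → C → Prop) {b : ℝ}
    (h : ∀ i, prb w (A i) ≤ b) :
    prb w (fun x => ∃ i, A i x) ≤ Fintype.card ι * b := by
  have h1 : prb w (fun x => ∃ i, A i x) ≤ ∑ i, prb w (A i) := by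
    unfold prb
    rw [Finset.sum_comm]
    apply Finset.sum_le_sum
    intro x _
    by_cases hx : ∃ i, A i x
    · obtain ⟨i, hi⟩ := hx
      rw [if_pos ⟨i, hi⟩]
      refine le_trans ?_ (Finset.single_le_sum (f := fun i => if A i x then w x else 0)
        (fun j _ => ?_) (Finset.mem_univ i))
      · change w x ≤ if A i x then w x else 0
        rw [if_pos hi]
      · change 0 ≤ if A j x then w x else 0
        split_ifs
        · exact hw x
        · exact le_rfl
    · rw [if_neg hx]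
      apply Finset.sum_nonneg
      intro j _
      split_ifs
      · exact hw x
      · exact le_rfl
  refine h1.trans ?_
  calc ∑ i, prb w (A i) ≤ ∑ _i : ι, b := Finset.sum_le_sum fun i _ => h i
    _ = Fintype.card ι * b := by rw [Finset.sum_const, Finset.card_univ, nsmul_eq_mul]

end prb

theorem ite_aux (P : Prop) (D1 D2 : Decidable P) (a : ℝ) :
    @ite ℝ P D1 a 0 = a * @ite ℝ P D2 1 0 := by
  by_cases hP : P
  · simp [hP]
  · simp [hP]

end LRecAux

open LRecAux in
/-- Module `LRec`. -/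
theorem stLRec (h0 : StLSub) (h1 : StLKer) (h2 : StLMarg) (h5 : StLTwo) (h6 : StLOne) :
    StLRec := by
  intro M d
  induction d with
  | zero =>
    refine ⟨0, le_rfl, ?_⟩
    intro V _ G W μ J q H xi Gam e1 e2 _ _ _ _ _ _ eta _
    rw [zero_mul]
    apply le_of_eq
    apply prb_false
    rintro x ⟨-, hx⟩
    exact hx trivial
  | succ d ih =>
    obtain ⟨C, hC, ihC⟩ := ih
    set nM : ℝ := (Fintype.card (Fin (M + 1)) : ℝ) with hnM
    set nW : ℝ := (Fintype.card (WN M d) : ℝ) with hnW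
    set nH : ℝ := (Fintype.card (HN M d) : ℝ) with hnH
    have hnM0 : 0 ≤ nM := Nat.cast_nonneg _
    have hnW0 : 0 ≤ nW := Nat.cast_nonneg _
    have hnH0 : 0 ≤ nH := Nat.cast_nonneg _
    refine ⟨1 + nM * C + nM * nH + nM * nW + nM * nH + nM * (nM * (nW * (nW * 2))) +
      nM * (nM * (nW * nH)) + nM * (nM * (nH * nH)), by positivity, ?_⟩
    intro V _ G W μ J q H xi Gam e1 e2 hS hGam hxi hH he1 he2 eta heta
    obtain ⟨hB, hsub, -⟩ := h0 V G W μ (d + 1) J q H xi Gam e1 e2 hS
    have hSd : LSys G W μ d J q H xi Gam e1 e2 :=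
      hsub d id (fun i hi => Nat.lt_succ_of_lt hi) (fun i j hij _ => hij)
    have ihd := ihC V G W μ J q H xi Gam e1 e2 hSd hGam hxi hH he1 he2 eta heta
    -- the bound
    set B : ℝ := eta + e2 + Real.sqrt e1 + 1 / Gam + H ^ 2 * xi / eta with hBdef
    have hsq : 0 ≤ Real.sqrt e1 := Real.sqrt_nonneg _
    have hG1 : 0 ≤ 1 / Gam := by positivity
    have hH2 : 1 ≤ H ^ 2 := one_le_pow₀ hH
    have hxe : 0 ≤ xi / eta := div_nonneg hxi heta.le
    have hHx : xi / eta ≤ H ^ 2 * xi / eta := by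
      rw [mul_div_assoc]
      exact le_mul_of_one_le_left hxe hH2
    have hB0 : 0 ≤ B := by linarith
    have b1 : eta ≤ B := by linarith
    have b2 : e2 ≤ B := by linarith
    have b3 : Real.sqrt e1 ≤ B := by linarith
    have b4 : 1 / Gam ≤ B := by linarith
    have b5 : H ^ 2 * xi / eta ≤ B := by linarith
    have b6 : xi / eta ≤ B := by linarith
    have b7 : 2 * xi / eta ≤ 2 * B := by
      rw [mul_div_assoc]
      linarith
    -- the facts on the law
    obtain ⟨hK1, hK2⟩ := h1 M V G W μ (d + 1) q hB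
    have hw : ∀ x, 0 ≤ cw G W μ q M (d + 1) x := (hK1 (d + 1) le_rfl).1
    obtain ⟨-, -, -, -, -, hcopy, -⟩ := hK2 d (Nat.lt_succ_self d)
    obtain ⟨-, -, -, hlevd, hhrd, hrootd, hsuppd⟩ := h2 M V G W μ (d + 1) q hB d (Nat.le_succ d)
    obtain ⟨hO1, hO2⟩ := h6 M V G W μ (d + 1) J q H xi Gam e1 e2 hS hGam he1 d
      (Nat.lt_succ_self d) eta heta
    have hT := h5 M V G W μ (d + 1) J q H xi Gam e1 e2 hS hGam hxi hH d
      (Nat.lt_succ_self d) eta heta
    -- the events
    set w := cw G W μ q M (d + 1) with hwdef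
    let A0 : Conf M V (d + 1) → Prop := fun x => Dw G W μ (q d) x.1 < eta
    let A1 : Fin (M + 1) → Conf M V (d + 1) → Prop := fun e x =>
      OK G q d (x.2 e) ∧ ¬ Clean G d (x.2 e)
    let A2 : Fin (M + 1) → HN M d → Conf M V (d + 1) → Prop := fun e h x =>
      aw G (q d) (hr d (x.2 e) h) < Gam * aw G (q d) (hv d (x.2 e) h)
    let A3 : Fin (M + 1) → WN M d → Conf M V (d + 1) → Prop := fun e u x =>
      u ≠ rn M d ∧ Top G (q d) d (x.2 e) ∧ G.Adj x.1 (wv d (x.2 e) u)
    let A4 : Fin (M + 1) → HN M d → Conf M V (d + 1) → Prop := fun e h x =>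
      Top G (q d) d (x.2 e) ∧
        Gam * aw G (q d) (hv d (x.2 e) h) ≤ aw G (q d) (hr d (x.2 e) h) ∧
        G.Adj x.1 (hv d (x.2 e) h)
    let A5 : Fin (M + 1) → Fin (M + 1) → WN M d → WN M d → Conf M V (d + 1) → Prop :=
      fun e e' u u' x => e ≠ e' ∧ eta ≤ Dw G W μ (q d) x.1 ∧
        Top G (q d) d (x.2 e) ∧ (wv d (x.2 e) u = wv d (x.2 e') u' ∨
          G.Adj (wv d (x.2 e) u) (wv d (x.2 e') u'))
    let A6 : Fin (M + 1) → Fin (M + 1) → WN M d → HN M d → Conf M V (d + 1) → Prop :=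
      fun e e' u h' x => e ≠ e' ∧ eta ≤ Dw G W μ (q d) x.1 ∧ Top G (q d) d (x.2 e) ∧
          G.Adj (wv d (x.2 e) u) (hv d (x.2 e') h')
    let A7 : Fin (M + 1) → Fin (M + 1) → HN M d → HN M d → Conf M V (d + 1) → Prop :=
      fun e e' h h' x => e ≠ e' ∧ lev d h ≤ lev d h' ∧
        eta ≤ Dw G W μ (q d) x.1 ∧ Top G (q d) d (x.2 e) ∧
          Gam * aw G (q d) (hv d (x.2 e) h) ≤ aw G (q d) (hr d (x.2 e) h) ∧
          G.Adj (hv d (x.2 e) h) (hv d (x.2 e') h')
    -- their probabilities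
    have p0 : prb w A0 ≤ B := hO1.trans b1
    have p1 : ∀ e, prb w (A1 e) ≤ C * B := by
      intro e
      refine le_trans (le_of_eq ?_) ihd
      have h3 := hcopy e (fun f => if OK G q d f ∧ ¬ Clean G d f then 1 else 0)
      have g1 : prb w (A1 e) = ∑ x, w x *
          (if OK G q d (x.2 e) ∧ ¬ Clean G d (x.2 e) then (1 : ℝ) else 0) := by
        unfold prb
        apply Finset.sum_congr rfl
        intro x _
        exact ite_aux _ _ _ _
      have g2 : prb (cw G W μ q M d) (fun x => OK G q d x ∧ ¬ Clean G d x) =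
          ∑ f, cw G W μ q M d f * (if OK G q d f ∧ ¬ Clean G d f then (1 : ℝ) else 0) := by
        unfold prb
        apply Finset.sum_congr rfl
        intro x _
        exact ite_aux _ _ _ _
      rw [g1, g2]
      exact h3
    have p2 : ∀ e h, prb w (A2 e h) ≤ B := fun e h => ((hO2 e).1 h).trans b2
    have p3 : ∀ e u, prb w (A3 e u) ≤ B := by
      intro e u
      by_cases hu : u = rn M d
      · rw [prb_false]
        · exact hB0
        · rintro x ⟨hx, -⟩
          exact hx hu
      · refine le_trans (prb_mono hw ?_) (((hO2 e).2.1 u hu).trans b3)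
        rintro x - ⟨-, hx⟩
        exact hx
    have p4 : ∀ e h, prb w (A4 e h) ≤ B := fun e h => ((hO2 e).2.2 h).trans b4
    have p5 : ∀ e e' u u', prb w (A5 e e' u u') ≤ 2 * B := by
      intro e e' u u'
      by_cases hee : e = e'
      · rw [prb_false]
        · linarith
        · rintro x ⟨hx, -⟩
          exact hx hee
      · refine le_trans (prb_mono hw ?_) (((hT e e' hee).1 u u').trans b7)
        rintro x - ⟨-, hx⟩
        exact hx
    have p6 : ∀ e e' u h', prb w (A6 e e' u h') ≤ B := by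
      intro e e' u h'
      by_cases hee : e = e'
      · rw [prb_false]
        · exact hB0
        · rintro x ⟨hx, -⟩
          exact hx hee
      · refine le_trans (prb_mono hw ?_) (((hT e e' hee).2.1 u h').trans b6)
        rintro x - ⟨-, hx⟩
        exact hx
    have p7 : ∀ e e' h h', prb w (A7 e e' h h') ≤ B := by
      intro e e' h h'
      by_cases hee : e = e'
      · rw [prb_false]
        · exact hB0
        · rintro x ⟨hx, -⟩
          exact hx hee
      · by_cases hl : lev d h ≤ lev d h'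
        · refine le_trans (prb_mono hw ?_) (((hT e e' hee).2.2 h h' hl).trans b5)
          rintro x - ⟨-, -, hx⟩
          exact hx
        · rw [prb_false]
          · exact hB0
          · rintro x ⟨-, hx, -⟩
            exact hl hx
    -- the inclusion
    have hincl : ∀ x, w x ≠ 0 → (OK G q (d + 1) x ∧ ¬ Clean G (d + 1) x) →
        A0 x ∨ (∃ e, A1 e x) ∨ (∃ e h, A2 e h x) ∨ (∃ e u, A3 e u x) ∨ (∃ e h, A4 e h x) ∨
        (∃ e e' u u', A5 e e' u u' x) ∨ (∃ e e' u h', A6 e e' u h' x) ∨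
        (∃ e e' h h', A7 e e' h h' x) := by
      rintro x hx ⟨hOK, hNC⟩
      by_contra hno
      simp only [not_or, not_exists] at hno
      obtain ⟨n0, n1, n2, n3, n4, n5, n6, n7⟩ := hno
      apply hNC
      have hD : eta ≤ Dw G W μ (q d) x.1 := not_lt.1 n0
      have hxe : w x = q d x.1 * Dw G W μ (q d) x.1 *
          ∏ e, kw G W μ (q d) (root d) (cw G W μ q M d) x.1 (x.2 e) := rfl
      rw [hxe] at hx
      have hq0 : q d x.1 ≠ 0 := left_ne_zero_of_mul (left_ne_zero_of_mul hx)
      have hkw : ∀ e, kw G W μ (q d) (root d) (cw G W μ q M d) x.1 (x.2 e) ≠ 0 := fun e =>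
        Finset.prod_ne_zero_iff.1 (right_ne_zero_of_mul hx) e (Finset.mem_univ e)
      have hcw : ∀ e, cw G W μ q M d (x.2 e) ≠ 0 := by
        intro e h3
        apply hkw e
        unfold kw
        rw [h3, zero_mul, zero_div]
      have hadj : ∀ e, G.Adj x.1 (root d (x.2 e)) := by
        intro e
        by_contra h3
        apply hkw e
        unfold kw
        rw [if_neg h3, mul_zero, zero_div]
      have hxJ : x.1 ∈ J d := by
        by_contra h3
        exact hq0 (hS.qJ d (Nat.lt_succ_self d) x.1 h3)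
      have hwW : ∀ e u, wv d (x.2 e) u ∈ W := fun e => (hsuppd (x.2 e) (hcw e)).1
      have hhJ : ∀ e h, hv d (x.2 e) h ∈ J (lev d h) := by
        intro e h
        by_contra h3
        exact (hsuppd (x.2 e) (hcw e)).2.1 h
          (hS.qJ (lev d h) ((hlevd h).trans (Nat.lt_succ_self d)) _ h3)
      have hhadj : ∀ e h, G.Adj (hr d (x.2 e) h) (hv d (x.2 e) h) := fun e =>
        (hsuppd (x.2 e) (hcw e)).2.2
      have hTop : ∀ e, Top G (q d) d (x.2 e) := fun e => (hOK e).2
      have hsc : ∀ e h, Gam * aw G (q d) (hv d (x.2 e) h) ≤ aw G (q d) (hr d (x.2 e) h) :=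
        fun e h => not_lt.1 (n2 e h)
      have hWJ : ∀ i < d + 1, ∀ v, v ∈ J i → v ∉ W := fun i hi v hv1 hv2 =>
        (Finset.disjoint_left.1 (hS.dW i hi)) hv1 hv2
      have hwh : ∀ e e', e ≠ e' → ∀ u h, ¬ G.Adj (wv d (x.2 e) u) (hv d (x.2 e') h) := by
        intro e e' hee u h h3
        exact n6 e e' u h ⟨hee, hD, hTop e, h3⟩
      refine ⟨?_, hadj, ?_, ?_, ?_, ?_, ?_, ?_, ?_⟩
      · intro e
        by_contra h3
        exact n1 e ⟨(hOK e).1, h3⟩
      · intro e u hu h3
        exact n3 e u ⟨hu, hTop e, h3⟩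
      · intro e u h3
        exact hWJ d (Nat.lt_succ_self d) x.1 hxJ (h3 ▸ hwW e u)
      · intro e h h3
        exact n4 e h ⟨hTop e, hsc e h, h3⟩
      · intro e h h3
        have h4 := hhJ e h
        rw [← h3] at h4
        exact Finset.disjoint_left.1 (hS.dJ (lev d h) ((hlevd h).trans (Nat.lt_succ_self d)) d
          (Nat.lt_succ_self d) (hlevd h).ne) h4 hxJ
      · intro e e' hee u u'
        refine ⟨fun h3 => ?_, fun h3 => ?_⟩
        · exact n5 e e' u u' ⟨hee, hD, hTop e, Or.inl h3⟩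
        · exact n5 e e' u u' ⟨hee, hD, hTop e, Or.inr h3⟩
      · intro e e' hee u h
        refine ⟨fun h3 => ?_, hwh e e' hee u h⟩
        exact hWJ (lev d h) ((hlevd h).trans (Nat.lt_succ_self d)) _ (hhJ e' h) (h3 ▸ hwW e u)
      · intro e e' hee h h'
        refine ⟨fun h3 => ?_, fun h3 => ?_⟩
        · obtain ⟨u, hu⟩ := hhrd h
          have h4 := hhadj e h
          rw [hu (x.2 e), h3] at h4
          exact hwh e e' hee u h' h4
        · rcases le_total (lev d h) (lev d h') with hl | hl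
          · exact n7 e e' h h' ⟨hee, hl, hD, hTop e, hsc e h, h3⟩
          · exact n7 e' e h' h ⟨hee.symm, hl, hD, hTop e', hsc e' h', h3.symm⟩
    -- the union bound
    refine (prb_mono hw hincl).trans ?_
    have u1 : prb w (fun x => ∃ e, A1 e x) ≤ nM * (C * B) := prb_ex hw A1 p1
    have u2 : prb w (fun x => ∃ e h, A2 e h x) ≤ nM * (nH * B) :=
      prb_ex hw (fun e x => ∃ h, A2 e h x) (fun e => prb_ex hw (A2 e) (p2 e))
    have u3 : prb w (fun x => ∃ e u, A3 e u x) ≤ nM * (nW * B) :=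
      prb_ex hw (fun e x => ∃ u, A3 e u x) (fun e => prb_ex hw (A3 e) (p3 e))
    have u4 : prb w (fun x => ∃ e h, A4 e h x) ≤ nM * (nH * B) :=
      prb_ex hw (fun e x => ∃ h, A4 e h x) (fun e => prb_ex hw (A4 e) (p4 e))
    have u5 : prb w (fun x => ∃ e e' u u', A5 e e' u u' x) ≤ nM * (nM * (nW * (nW * (2 * B)))) :=
      prb_ex hw (fun e x => ∃ e' u u', A5 e e' u u' x) (fun e =>
        prb_ex hw (fun e' x => ∃ u u', A5 e e' u u' x) (fun e' =>
          prb_ex hw (fun u x => ∃ u', A5 e e' u u' x) (fun u =>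
            prb_ex hw (A5 e e' u) (p5 e e' u))))
    have u6 : prb w (fun x => ∃ e e' u h', A6 e e' u h' x) ≤ nM * (nM * (nW * (nH * B))) :=
      prb_ex hw (fun e x => ∃ e' u h', A6 e e' u h' x) (fun e =>
        prb_ex hw (fun e' x => ∃ u h', A6 e e' u h' x) (fun e' =>
          prb_ex hw (fun u x => ∃ h', A6 e e' u h' x) (fun u =>
            prb_ex hw (A6 e e' u) (p6 e e' u))))
    have u7 : prb w (fun x => ∃ e e' h h', A7 e e' h h' x) ≤ nM * (nM * (nH * (nH * B))) :=
      prb_ex hw (fun e x => ∃ e' h h', A7 e e' h h' x) (fun e =>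
        prb_ex hw (fun e' x => ∃ h h', A7 e e' h h' x) (fun e' =>
          prb_ex hw (fun h x => ∃ h', A7 e e' h h' x) (fun h =>
            prb_ex hw (A7 e e' h) (p7 e e' h))))
    refine (prb_or hw _ _).trans ?_
    refine (add_le_add p0 ((prb_or hw _ _).trans (add_le_add u1 ((prb_or hw _ _).trans
      (add_le_add u2 ((prb_or hw _ _).trans (add_le_add u3 ((prb_or hw _ _).trans
      (add_le_add u4 ((prb_or hw _ _).trans (add_le_add u5 ((prb_or hw _ _).trans
      (add_le_add u6 u7))))))))))))).trans (le_of_eq ?_)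
    ring

end Pool.Agent.Lib.FGL
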