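import Pool.Agent.Lib.FGF.LDefs

/-!
# Fractional Gyarfas-Sumner: configurations in a pool of unlinked stages (statements)
-/

set_option autoImplicit false

namespace Pool.Agent.Lib.FGL

open Finset Classical
open Pool.Agent.Lib.FracGS (nb wnb om TAdj)
open Pool.Agent.Lib.GSR3 (Stab Tree)

/-- The basic hypotheses on the law and the weights. -/
structure LBas {V : Type} [Fintype V] (G : SimpleGraph V) (W : Finset V) (μ : V → ℝ) (r : ℕ)
    (q : ℕ → V → ℝ) : Prop where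
  μ0 : ∀ x, 0 ≤ μ x
  μW : ∀ x, x ∉ W → μ x = 0
  μ1 : ∑ x ∈ W, μ x = 1
  q0 : ∀ i < r, ∀ y, 0 ≤ q i y
  apos : ∀ i < r, ∀ x ∈ W, 0 < aw G (q i) x

/-- Module `LSub`: subsystems along increasing maps; weakening of the constants. -/
def StLSub : Prop :=
  ∀ (V : Type) [Fintype V] (G : SimpleGraph V) (W : Finset V) (μ : V → ℝ) (r : ℕ)
    (J : ℕ → Finset V) (q : ℕ → V → ℝ) (H xi Gam e1 e2 : ℝ),
    LSys G W μ r J q H xi Gam e1 e2 → LBas G W μ r q ∧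
      (∀ (d : ℕ) (c : ℕ → ℕ), (∀ i < d, c i < r) → (∀ i j, i < j → j < d → c i < c j) →
        LSys G W μ d (fun i => J (c i)) (fun i => q (c i)) H xi Gam e1 e2) ∧
      (∀ H' xi' Gam' e1' e2' : ℝ, H ≤ H' → xi ≤ xi' → Gam' ≤ Gam → e1 ≤ e1' → e2 ≤ e2' →
        LSys G W μ r J q H' xi' Gam' e1' e2')

/-- Module `LKer`: the kernel at a hub and the law of the copies. -/
def StLKer : Prop :=
  ∀ (M : ℕ) (V : Type) [Fintype V] (G : SimpleGraph V) (W : Finset V) (μ : V → ℝ) (r : ℕ)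
    (q : ℕ → V → ℝ), LBas G W μ r q →
    (∀ d ≤ r, (∀ x, 0 ≤ cw G W μ q M d x) ∧ ∑ x, cw G W μ q M d x = 1 ∧
      (∀ F : V → ℝ, ∑ x, cw G W μ q M d x * F (root d x) = ∑ v ∈ W, μ v * F v)) ∧
    (∀ d < r, (∀ g f, 0 ≤ kw G W μ (q d) (root d) (cw G W μ q M d) g f) ∧
      (∀ g, 0 ≤ Dw G W μ (q d) g) ∧
      (∀ g, 0 < Dw G W μ (q d) g →
        ∑ f, kw G W μ (q d) (root d) (cw G W μ q M d) g f = 1) ∧
      (∀ (e : Fin (M + 1)) (F : V → Conf M V d → ℝ),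
        ∑ x, cw G W μ q M (d + 1) x * F x.1 (x.2 e) =
          ∑ g, q d g * Dw G W μ (q d) g *
            ∑ f, kw G W μ (q d) (root d) (cw G W μ q M d) g f * F g f) ∧
      (∀ (e : Fin (M + 1)) (F : V → Conf M V d → ℝ),
        ∑ x, cw G W μ q M (d + 1) x * F x.1 (x.2 e) =
          ∑ f, cw G W μ q M d f / aw G (q d) (root d f) *
            ∑ g, if G.Adj (root d f) g then q d g * F g f else 0) ∧
      (∀ (e : Fin (M + 1)) (F : Conf M V d → ℝ),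
        ∑ x, cw G W μ q M (d + 1) x * F (x.2 e) = ∑ f, cw G W μ q M d f * F f) ∧
      (∀ e e' : Fin (M + 1), e ≠ e' → ∀ F : V → Conf M V d → Conf M V d → ℝ,
        ∑ x, cw G W μ q M (d + 1) x * F x.1 (x.2 e) (x.2 e') =
          ∑ g, q d g * Dw G W μ (q d) g *
            ∑ f', kw G W μ (q d) (root d) (cw G W μ q M d) g f' *
              ∑ f, kw G W μ (q d) (root d) (cw G W μ q M d) g f * F g f f') ∧
      (∀ P : Conf M V d → ℝ,
        ∑ x, cw G W μ q M (d + 1) x * ∏ e, P (x.2 e) =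
          ∑ g, q d g * Dw G W μ (q d) g *
            (∑ f, kw G W μ (q d) (root d) (cw G W μ q M d) g f * P f) ^ (M + 1)) ∧
      (∀ (σ : Equiv.Perm (Fin (M + 1))) (F : V → (Fin (M + 1) → Conf M V d) → ℝ),
        ∑ x, cw G W μ q M (d + 1) x * F x.1 (fun e => x.2 (σ e)) =
          ∑ x, cw G W μ q M (d + 1) x * F x.1 x.2))

/-- Module `LMarg`: the marginals and the support. -/
def StLMarg : Prop :=
  ∀ (M : ℕ) (V : Type) [Fintype V] (G : SimpleGraph V) (W : Finset V) (μ : V → ℝ) (r : ℕ)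
    (q : ℕ → V → ℝ), LBas G W μ r q → ∀ d ≤ r,
      (∀ (u : WN M d) (F : V → ℝ),
        ∑ x, cw G W μ q M d x * F (wv d x u) = ∑ v ∈ W, μ v * F v) ∧
      (∀ (h : HN M d) (F : V → V → ℝ),
        ∑ x, cw G W μ q M d x * F (hr d x h) (hv d x h) =
          ∑ v ∈ W, μ v / aw G (q (lev d h)) v *
            ∑ y, if G.Adj v y then q (lev d h) y * F v y else 0) ∧
      (∀ (h : HN M d) (F : V → ℝ),
        ∑ x, cw G W μ q M d x * F (hv d x h) =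
          ∑ y, q (lev d h) y * Dw G W μ (q (lev d h)) y * F y) ∧
      (∀ h : HN M d, lev d h < d) ∧
      (∀ h : HN M d, ∃ u : WN M d, ∀ x : Conf M V d, hr d x h = wv d x u) ∧
      (∀ x : Conf M V d, root d x = wv d x (rn M d)) ∧
      (∀ x, cw G W μ q M d x ≠ 0 → (∀ u, wv d x u ∈ W) ∧
        (∀ h, q (lev d h) (hv d x h) ≠ 0) ∧ (∀ h, G.Adj (hr d x h) (hv d x h)))

/-- Module `LDen`: the densities of the vertices of a copy, given the outer hub. -/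
def StLDen : Prop :=
  ∀ (M : ℕ) (V : Type) [Fintype V] (G : SimpleGraph V) (W : Finset V) (μ : V → ℝ) (r : ℕ)
    (J : ℕ → Finset V) (q : ℕ → V → ℝ) (H xi Gam e1 e2 : ℝ),
    LSys G W μ r J q H xi Gam e1 e2 → 1 ≤ Gam → ∀ d < r, ∀ eta : ℝ, 0 < eta → ∀ g : V,
      eta ≤ Dw G W μ (q d) g → ∀ F : V → ℝ, (∀ v, 0 ≤ F v) →
      (∀ u : WN M d, (∑ f, if Top G (q d) d f then
          kw G W μ (q d) (root d) (cw G W μ q M d) g f * F (wv d f u) else 0) ≤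
        (∑ z ∈ W, μ z / aw G (q d) z * F z) / eta) ∧
      (∀ h : HN M d, (∑ f, if Top G (q d) d f ∧
            Gam * aw G (q d) (hv d f h) ≤ aw G (q d) (hr d f h) then
          kw G W μ (q d) (root d) (cw G W μ q M d) g f * F (hv d f h) else 0) ≤
        (∑ y, q (lev d h) y * Dw G W μ (q (lev d h)) y / aw G (q d) y * F y) / eta)

/-- Module `LTwo`: conflicts between two copies. -/
def StLTwo : Prop :=
  ∀ (M : ℕ) (V : Type) [Fintype V] (G : SimpleGraph V) (W : Finset V) (μ : V → ℝ) (r : ℕ)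
    (J : ℕ → Finset V) (q : ℕ → V → ℝ) (H xi Gam e1 e2 : ℝ),
    LSys G W μ r J q H xi Gam e1 e2 → 1 ≤ Gam → 0 ≤ xi → 1 ≤ H → ∀ d < r, ∀ eta : ℝ, 0 < eta →
      ∀ e e' : Fin (M + 1), e ≠ e' →
      (∀ u u' : WN M d, prb (cw G W μ q M (d + 1)) (fun x => eta ≤ Dw G W μ (q d) x.1 ∧
        Top G (q d) d (x.2 e) ∧ (wv d (x.2 e) u = wv d (x.2 e') u' ∨
          G.Adj (wv d (x.2 e) u) (wv d (x.2 e') u'))) ≤ 2 * xi / eta) ∧
      (∀ (u : WN M d) (h' : HN M d), prb (cw G W μ q M (d + 1)) (fun x =>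
        eta ≤ Dw G W μ (q d) x.1 ∧ Top G (q d) d (x.2 e) ∧
          G.Adj (wv d (x.2 e) u) (hv d (x.2 e') h')) ≤ xi / eta) ∧
      (∀ h h' : HN M d, lev d h ≤ lev d h' → prb (cw G W μ q M (d + 1)) (fun x =>
        eta ≤ Dw G W μ (q d) x.1 ∧ Top G (q d) d (x.2 e) ∧
          Gam * aw G (q d) (hv d (x.2 e) h) ≤ aw G (q d) (hr d (x.2 e) h) ∧
          G.Adj (hv d (x.2 e) h) (hv d (x.2 e') h')) ≤ H ^ 2 * xi / eta)

/-- Module `LOp`: links between the root and another vertex. -/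
def StLOp : Prop :=
  ∀ (M : ℕ) (V : Type) [Fintype V] (G : SimpleGraph V) (W : Finset V) (μ : V → ℝ) (r : ℕ)
    (J : ℕ → Finset V) (q : ℕ → V → ℝ) (H xi Gam e1 e2 : ℝ),
    LSys G W μ r J q H xi Gam e1 e2 → 0 ≤ e1 → ∀ d < r, ∀ u : WN M d, u ≠ rn M d →
      ∑ x, cw G W μ q M d x * lk G (q d) (root d x) (wv d x u) ≤ Real.sqrt e1

/-- Module `LOne`: conflicts between the outer hub and a copy. -/
def StLOne : Prop :=
  ∀ (M : ℕ) (V : Type) [Fintype V] (G : SimpleGraph V) (W : Finset V) (μ : V → ℝ) (r : ℕ)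
    (J : ℕ → Finset V) (q : ℕ → V → ℝ) (H xi Gam e1 e2 : ℝ),
    LSys G W μ r J q H xi Gam e1 e2 → 1 ≤ Gam → 0 ≤ e1 → ∀ d < r, ∀ eta : ℝ, 0 < eta →
      prb (cw G W μ q M (d + 1)) (fun x => Dw G W μ (q d) x.1 < eta) ≤ eta ∧
      ∀ e : Fin (M + 1),
      (∀ h : HN M d, prb (cw G W μ q M (d + 1)) (fun x =>
        aw G (q d) (hr d (x.2 e) h) < Gam * aw G (q d) (hv d (x.2 e) h)) ≤ e2) ∧
      (∀ u : WN M d, u ≠ rn M d → prb (cw G W μ q M (d + 1)) (fun x =>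
        Top G (q d) d (x.2 e) ∧ G.Adj x.1 (wv d (x.2 e) u)) ≤ Real.sqrt e1) ∧
      (∀ h : HN M d, prb (cw G W μ q M (d + 1)) (fun x =>
        Top G (q d) d (x.2 e) ∧
          Gam * aw G (q d) (hv d (x.2 e) h) ≤ aw G (q d) (hr d (x.2 e) h) ∧
          G.Adj x.1 (hv d (x.2 e) h)) ≤ 1 / Gam)

/-- Module `LRec`: the probability of a conflict. -/
def StLRec : Prop :=
  ∀ (M d : ℕ), ∃ C : ℝ, 0 ≤ C ∧ ∀ (V : Type) [Fintype V] (G : SimpleGraph V) (W : Finset V)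
    (μ : V → ℝ) (J : ℕ → Finset V) (q : ℕ → V → ℝ) (H xi Gam e1 e2 : ℝ),
    LSys G W μ d J q H xi Gam e1 e2 → 1 ≤ Gam → 0 ≤ xi → 1 ≤ H → 0 ≤ e1 → 0 ≤ e2 →
      ∀ eta : ℝ, 0 < eta →
      prb (cw G W μ q M d) (fun x => OK G q d x ∧ ¬ Clean G d x) ≤
        C * (eta + e2 + Real.sqrt e1 + 1 / Gam + H ^ 2 * xi / eta)

/-- Module `LOK`: the stages can be chosen such that the roots are on top. -/
def StLOK : Prop :=
  ∀ (M d r' : ℕ), ∃ (r : ℕ) (κ : ℝ), 0 < κ ∧ ∀ (V : Type) [Fintype V] (G : SimpleGraph V)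
    (W : Finset V) (μ : V → ℝ) (q : ℕ → V → ℝ), LBas G W μ r q →
      ∃ (c : ℕ → ℕ) (R : Finset ℕ), (∀ i < d, c i < r) ∧ (∀ i j, i < j → j < d → c i < c j) ∧
        (∀ s ∈ R, s < r ∧ ∀ i < d, c i < s) ∧ R.card = r' ∧
        κ ≤ prb (cw G W μ (fun i => q (c i)) M d) (fun x =>
          OK G (fun i => q (c i)) d x ∧ ∀ s ∈ R, Top G (q s) d x)

/-- Module `LEmb`: a configuration without conflicts contains the `M`-ary tree. -/
def StLEmb : Prop :=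
  ∀ (M k d : ℕ), M * k ≤ d → ∀ (V : Type) (G : SimpleGraph V) (x : Conf M V d),
    Clean G d x → ∃ φ : List (Fin M) → V, Tree G (2 * k) M φ

/-- Theorem L. -/
def StLThm : Prop :=
  ∀ M h : ℕ, ∃ (r : ℕ) (e1 e2 Gam : ℝ), 0 < e1 ∧ 0 < e2 ∧ 1 ≤ Gam ∧ ∀ H : ℝ, 1 ≤ H →
    ∃ xi : ℝ, 0 < xi ∧ ∀ (V : Type) [Fintype V] (G : SimpleGraph V) (W : Finset V)
      (μ : V → ℝ) (J : ℕ → Finset V) (q : ℕ → V → ℝ),
      LSys G W μ r J q H xi Gam e1 e2 → ∃ φ : List (Fin M) → V, Tree G h M φ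

end Pool.Agent.Lib.FGL
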