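import Pool.Agent.Lib.FGF.LStmts

/-!
# Fractional Gyarfas-Sumner: subsystems and weakening of the constants
-/

set_option autoImplicit false

namespace Pool.Agent.Lib.FGL

open Finset Classical
open Pool.Agent.Lib.FracGS (nb wnb om TAdj)
open Pool.Agent.Lib.GSR3 (Stab Tree)

namespace LSubAux

theorem wnb_le_wnb {V : Type} [Fintype V] (G : SimpleGraph V) (S : Finset V) (f g : V → ℝ)
    (h : ∀ y, f y ≤ g y) (v : V) : wnb G S f v ≤ wnb G S g v :=
  Finset.sum_le_sum fun y _ => h y

theorem wnb_nonneg' {V : Type} [Fintype V] (G : SimpleGraph V) (S : Finset V) (f : V → ℝ)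
    (h : ∀ y, 0 ≤ f y) (v : V) : 0 ≤ wnb G S f v :=
  Finset.sum_nonneg fun y _ => h y

theorem aw_nonneg {V : Type} [Fintype V] (G : SimpleGraph V) (ρ : V → ℝ) (h : ∀ y, 0 ≤ ρ y)
    (v : V) : 0 ≤ aw G ρ v := wnb_nonneg' G _ ρ h v

end LSubAux

open LSubAux in
/-- Module `LSub`. -/
theorem stLSub : StLSub := by
  intro V _ G W μ r J q H xi Gam e1 e2 h
  refine ⟨⟨h.μ0, h.μW, h.μ1, h.q0, h.apos⟩, ?_, ?_⟩
  · intro d c hc hinc
    have hne : ∀ i < d, ∀ j < d, i ≠ j → c i ≠ c j := by
      intro i hi j hj hij
      rcases Nat.lt_or_gt_of_ne hij with h1 | h1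
      · exact (hinc i j h1 hj).ne
      · exact (hinc j i h1 hi).ne'
    exact
      { μ0 := h.μ0
        μW := h.μW
        μ1 := h.μ1
        q0 := fun i hi => h.q0 _ (hc i hi)
        q1 := fun i hi => h.q1 _ (hc i hi)
        qJ := fun i hi => h.qJ _ (hc i hi)
        stab := fun i hi => h.stab _ (hc i hi)
        dW := fun i hi => h.dW _ (hc i hi)
        dJ := fun i hi j hj hij => h.dJ _ (hc i hi) _ (hc j hj) (hne i hi j hj hij)
        apos := fun i hi => h.apos _ (hc i hi)
        aposJ := fun i j hij hj => h.aposJ _ _ (hinc i j hij hj) (hc j hj)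
        Dxi := fun i hi => h.Dxi _ (hc i hi)
        DxiJ := fun i j hij hj => h.DxiJ _ _ (hinc i j hij hj) (hc j hj)
        DH := fun i hi => h.DH _ (hc i hi)
        atm := fun i hi => h.atm _ (hc i hi)
        scJ := fun i j k hij hjk hk =>
          h.scJ _ _ _ (hinc i j hij (hjk.trans hk)) (hinc j k hjk hk) (hc k hk)
        sg := fun i j hij hj => h.sg _ _ (hinc i j hij hj) (hc j hj)
        lam := fun i j hij hj => h.lam _ _ (hinc i j hij hj) (hc j hj) }
  · intro H' xi' Gam' e1' e2' hH hxi hGam he1 he2
    exact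
      { μ0 := h.μ0
        μW := h.μW
        μ1 := h.μ1
        q0 := h.q0
        q1 := h.q1
        qJ := h.qJ
        stab := h.stab
        dW := h.dW
        dJ := h.dJ
        apos := h.apos
        aposJ := h.aposJ
        Dxi := fun i hi w hw => (h.Dxi i hi w hw).trans hxi
        DxiJ := fun i j hij hj w hw => (h.DxiJ i j hij hj w hw).trans hxi
        DH := fun i hi y hy => (h.DH i hi y hy).trans hH
        atm := fun i hi x hx => (h.atm i hi x hx).trans
          (mul_le_mul_of_nonneg_right hxi (h.apos i hi x hx).le)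
        scJ := fun i j k hij hjk hk v hv => (h.scJ i j k hij hjk hk v hv).trans
          (mul_le_mul_of_nonneg_right hxi (aw_nonneg G _ (h.q0 k hk) v))
        sg := by
          intro i j hij hj x hx
          have hi : i < r := hij.trans hj
          refine le_trans (wnb_le_wnb G _ _ _ (fun y => ?_) x) ((h.sg i j hij hj x hx).trans
            (mul_le_mul_of_nonneg_right he2 (h.apos i hi x hx).le))
          have hay := aw_nonneg G _ (h.q0 j hj) y
          by_cases hc : aw G (q j) x < Gam' * aw G (q j) y
          · have hc' : aw G (q j) x < Gam * aw G (q j) y :=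
              lt_of_lt_of_le hc (mul_le_mul_of_nonneg_right hGam hay)
            rw [if_pos hc, if_pos hc']
          · rw [if_neg hc]
            split_ifs
            · exact h.q0 i hi y
            · exact le_rfl
        lam := fun i j hij hj => (h.lam i j hij hj).trans he1 }

end Pool.Agent.Lib.FGL
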