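import Pool.Agent.Lib.FGF.LStmts

/-!
# Fractional Gyarfas-Sumner: conflicts between two copies
-/

set_option autoImplicit false

namespace Pool.Agent.Lib.FGL

open Finset Classical
open Pool.Agent.Lib.FracGS (nb wnb om TAdj)
open Pool.Agent.Lib.GSR3 (Stab Tree)

namespace LTwoAux

section basic

variable {V : Type} [Fintype V] {G : SimpleGraph V}

theorem aw_eq (ρ : V → ℝ) (v : V) : aw G ρ v = ∑ u, if G.Adj v u then ρ u else 0 := by
  unfold aw wnb nb
  rw [Finset.sum_filter]

theorem Dw_eq (W : Finset V) (μ ρ : V → ℝ) (v : V) :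
    Dw G W μ ρ v = ∑ u ∈ W, if G.Adj v u then μ u / aw G ρ u else 0 := by
  unfold Dw wnb nb
  rw [Finset.sum_filter]

theorem aw_nonneg {ρ : V → ℝ} (h : ∀ y, 0 ≤ ρ y) (v : V) : 0 ≤ aw G ρ v := by
  rw [aw_eq]
  refine Finset.sum_nonneg fun u _ => ?_
  split_ifs
  · exact h u
  · exact le_rfl

/-- the indicator -/
noncomputable def ind (p : Prop) : ℝ := if p then 1 else 0

theorem ind_pos {p : Prop} (h : p) : ind p = 1 := if_pos h

theorem ind_neg {p : Prop} (h : ¬ p) : ind p = 0 := if_neg h

theorem ind_nonneg (p : Prop) : 0 ≤ ind p := by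
  unfold ind
  split_ifs
  · exact zero_le_one
  · exact le_rfl

theorem ind_and {p q : Prop} (h : p) : ind (p ∧ q) = ind q := by
  by_cases hq : q
  · rw [ind_pos hq, ind_pos ⟨h, hq⟩]
  · rw [ind_neg hq, ind_neg fun h => hq h.2]

theorem prb_eq {C : Type} [Fintype C] (w : C → ℝ) (E : C → Prop) :
    prb w E = ∑ x, w x * ind (E x) := by
  unfold prb
  refine Finset.sum_congr rfl fun x _ => ?_
  by_cases h : E x
  · rw [if_pos h, ind_pos h, mul_one]
  · rw [if_neg h, ind_neg h, mul_zero]

end basic

section main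

variable {M : ℕ} {V : Type} [Fintype V] {G : SimpleGraph V} {W : Finset V} {μ : V → ℝ} {r : ℕ}
  {q : ℕ → V → ℝ}

theorem bound (h1 : StLKer) (hB : LBas G W μ r q) {d : ℕ} (hd : d < r) (e e' : Fin (M + 1))
    (hne : e ≠ e') (eta : ℝ) (F : V → Conf M V d → Conf M V d → ℝ) (Ψ : Conf M V d → ℝ)
    (hΨ0 : ∀ f', cw G W μ q M d f' ≠ 0 → 0 ≤ Ψ f')
    (hF0 : ∀ g f f', ¬ eta ≤ Dw G W μ (q d) g → F g f f' = 0)
    (hF : ∀ g, eta ≤ Dw G W μ (q d) g → ∀ f', cw G W μ q M d f' ≠ 0 →
      ∑ f, kw G W μ (q d) (root d) (cw G W μ q M d) g f * F g f f' ≤ Ψ f') :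
    ∑ x, cw G W μ q M (d + 1) x * F x.1 (x.2 e) (x.2 e') ≤ ∑ f', cw G W μ q M d f' * Ψ f' := by
  obtain ⟨k0, D0, -, kF, -, kM, k2, -, -⟩ := (h1 M V G W μ r q hB).2 d hd
  rw [k2 e e' hne F]
  rw [← kM e' Ψ, kF e' (fun _ f => Ψ f)]
  refine Finset.sum_le_sum fun g _ => ?_
  refine mul_le_mul_of_nonneg_left ?_ (mul_nonneg (hB.q0 d hd g) (D0 g))
  refine Finset.sum_le_sum fun f' _ => ?_
  by_cases hf : cw G W μ q M d f' = 0
  · have : kw G W μ (q d) (root d) (cw G W μ q M d) g f' = 0 := by
      unfold kw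
      rw [hf, zero_mul, zero_div]
    rw [this, zero_mul, zero_mul]
  · refine mul_le_mul_of_nonneg_left ?_ (k0 g f')
    by_cases hg : eta ≤ Dw G W μ (q d) g
    · exact hF g hg f' hf
    · have : ∑ f, kw G W μ (q d) (root d) (cw G W μ q M d) g f * F g f f' = 0 := by
        refine Finset.sum_eq_zero fun f _ => ?_
        rw [hF0 g f f' hg, mul_zero]
      rw [this]
      exact hΨ0 f' hf

theorem bound' (h1 : StLKer) (hB : LBas G W μ r q) {d : ℕ} (hd : d < r) (e e' : Fin (M + 1))
    (hne : e ≠ e') (eta : ℝ) (F : V → Conf M V d → Conf M V d → ℝ) (B : ℝ) (hB0 : 0 ≤ B)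
    (hF0 : ∀ g f f', ¬ eta ≤ Dw G W μ (q d) g → F g f f' = 0)
    (hF : ∀ g, eta ≤ Dw G W μ (q d) g → ∀ f', cw G W μ q M d f' ≠ 0 →
      ∑ f, kw G W μ (q d) (root d) (cw G W μ q M d) g f * F g f f' ≤ B) :
    ∑ x, cw G W μ q M (d + 1) x * F x.1 (x.2 e) (x.2 e') ≤ B := by
  refine (bound h1 hB hd e e' hne eta F (fun _ => B) (fun _ _ => hB0) hF0 hF).trans ?_
  rw [← Finset.sum_mul, ((h1 M V G W μ r q hB).1 d hd.le).2.1, one_mul]

end main

end LTwoAux

open LTwoAux in
theorem stLTwo (h0 : StLSub) (h1 : StLKer) (h2 : StLMarg) (h3 : StLDen) : StLTwo := by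
  intro M V _ G W μ r J q H xi Gam e1 e2 hS hG hxi hH d hd eta heta e e' hne
  have hB : LBas G W μ r q := (h0 V G W μ r J q H xi Gam e1 e2 hS).1
  have hden := h3 M V G W μ r J q H xi Gam e1 e2 hS hG d hd eta heta
  obtain ⟨-, -, mh, ml, -, -, ms⟩ := h2 M V G W μ r q hB d hd.le
  have hsupp := ms
  refine ⟨fun u u' => ?_, fun u h' => ?_, fun h h' hlev => ?_⟩
  · -- two vertices of `W`
    rw [prb_eq]
    refine bound' h1 hB hd e e' hne eta
      (fun g f f' => ind (eta ≤ Dw G W μ (q d) g ∧ Top G (q d) d f ∧ (wv d f u = wv d f' u' ∨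
        G.Adj (wv d f u) (wv d f' u')))) (2 * xi / eta) (by positivity)
      (fun g f f' hg => ind_neg fun h => hg h.1) ?_
    intro g hg f' hf'
    have hz' : wv d f' u' ∈ W := (hsupp f' hf').1 u'
    generalize wv d f' u' = z' at hz'
    have h4 := (hden g hg (fun z => ind (z = z' ∨ G.Adj z z')) (fun v => ind_nonneg _)).1 u
    have h5 : ∑ f, kw G W μ (q d) (root d) (cw G W μ q M d) g f *
        ind (eta ≤ Dw G W μ (q d) g ∧ Top G (q d) d f ∧ (wv d f u = z' ∨ G.Adj (wv d f u) z')) =
        ∑ f, if Top G (q d) d f then kw G W μ (q d) (root d) (cw G W μ q M d) g f *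
          ind (wv d f u = z' ∨ G.Adj (wv d f u) z') else 0 := by
      refine Finset.sum_congr rfl fun f _ => ?_
      by_cases ht : Top G (q d) d f
      · rw [ind_and hg, ind_and ht, if_pos ht]
      · rw [if_neg ht, ind_neg fun h => ht h.2.1, mul_zero]
    rw [h5]
    refine h4.trans ?_
    refine div_le_div_of_nonneg_right ?_ heta.le
    have h6 : ∑ z ∈ W, μ z / aw G (q d) z * ind (z = z' ∨ G.Adj z z') ≤
        ∑ z ∈ W, ((if z = z' then μ z / aw G (q d) z else 0) +
          (if G.Adj z' z then μ z / aw G (q d) z else 0)) := by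
      refine Finset.sum_le_sum fun z hz => ?_
      have h7 : 0 ≤ μ z / aw G (q d) z := div_nonneg (hS.μ0 z) (hS.apos d hd z hz).le
      by_cases ha : z = z'
      · have hb : ¬ G.Adj z' z := by
          rw [ha]
          exact G.irrefl
        rw [ind_pos (Or.inl ha), if_pos ha, if_neg hb, mul_one, add_zero]
      · by_cases hb : G.Adj z' z
        · rw [ind_pos (Or.inr hb.symm), if_neg ha, if_pos hb, mul_one, zero_add]
        · rw [ind_neg, if_neg ha, if_neg hb, mul_zero, add_zero]
          rintro (h | h)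
          · exact ha h
          · exact hb h.symm
    refine h6.trans ?_
    rw [Finset.sum_add_distrib, ← Dw_eq, Finset.sum_ite_eq', if_pos hz']
    have h8 := hS.Dxi d hd z' hz'
    have h9 : μ z' / aw G (q d) z' ≤ xi := by
      rw [div_le_iff₀ (hS.apos d hd z' hz')]
      exact hS.atm d hd z' hz'
    linarith
  · -- a vertex of `W` and a hub
    rw [prb_eq]
    refine bound' h1 hB hd e e' hne eta
      (fun g f f' => ind (eta ≤ Dw G W μ (q d) g ∧ Top G (q d) d f ∧
        G.Adj (wv d f u) (hv d f' h'))) (xi / eta) (by positivity)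
      (fun g f f' hg => ind_neg fun h => hg h.1) ?_
    intro g hg f' hf'
    have hj : lev d h' < d := ml h'
    have hy' : hv d f' h' ∈ J (lev d h') := by
      by_contra hcon
      exact (hsupp f' hf').2.1 h' (hS.qJ _ (hj.trans hd) _ hcon)
    generalize hv d f' h' = y' at hy'
    have h4 := (hden g hg (fun z => ind (G.Adj z y')) (fun v => ind_nonneg _)).1 u
    have h5 : ∑ f, kw G W μ (q d) (root d) (cw G W μ q M d) g f *
        ind (eta ≤ Dw G W μ (q d) g ∧ Top G (q d) d f ∧ G.Adj (wv d f u) y') =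
        ∑ f, if Top G (q d) d f then kw G W μ (q d) (root d) (cw G W μ q M d) g f *
          ind (G.Adj (wv d f u) y') else 0 := by
      refine Finset.sum_congr rfl fun f _ => ?_
      by_cases ht : Top G (q d) d f
      · rw [ind_and hg, ind_and ht, if_pos ht]
      · rw [if_neg ht, ind_neg fun h => ht h.2.1, mul_zero]
    rw [h5]
    refine h4.trans ?_
    refine div_le_div_of_nonneg_right ?_ heta.le
    have h6 : ∑ z ∈ W, μ z / aw G (q d) z * ind (G.Adj z y') = Dw G W μ (q d) y' := by
      rw [Dw_eq]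
      refine Finset.sum_congr rfl fun z _ => ?_
      by_cases hb : G.Adj y' z
      · rw [if_pos hb, ind_pos hb.symm, mul_one]
      · rw [if_neg hb, ind_neg fun h => hb h.symm, mul_zero]
    rw [h6]
    exact hS.DxiJ _ d hj hd y' hy'
  · -- two hubs
    rw [prb_eq]
    have hi : lev d h < d := ml h
    have hj : lev d h' < d := ml h'
    have hJ : ∀ f, cw G W μ q M d f ≠ 0 → ∀ k : HN M d, hv d f k ∈ J (lev d k) := by
      intro f hf k
      by_contra hcon
      exact (hsupp f hf).2.1 k (hS.qJ _ ((ml k).trans hd) _ hcon)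
    have hpos : 0 ≤ H ^ 2 * xi / eta := by positivity
    rcases hlev.eq_or_lt with heq | hlt
    · -- the same level
      refine (bound' h1 hB hd e e' hne eta
        (fun g f f' => ind (eta ≤ Dw G W μ (q d) g ∧ Top G (q d) d f ∧
          Gam * aw G (q d) (hv d f h) ≤ aw G (q d) (hr d f h) ∧
          G.Adj (hv d f h) (hv d f' h'))) 0 le_rfl
        (fun g f f' hg => ind_neg fun h => hg h.1) ?_).trans hpos
      intro g hg f' hf'
      refine le_of_eq (Finset.sum_eq_zero fun f _ => ?_)
      by_cases hf : cw G W μ q M d f = 0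
      · have : kw G W μ (q d) (root d) (cw G W μ q M d) g f = 0 := by
          unfold kw
          rw [hf, zero_mul, zero_div]
        rw [this, zero_mul]
      · rw [ind_neg, mul_zero]
        rintro ⟨-, -, -, hadj⟩
        have h4 := hJ f hf h
        have h5 := hJ f' hf' h'
        rw [← heq] at h5
        exact hS.stab _ (hi.trans hd) _ h4 _ h5 hadj
    · -- different levels
      have hir := hi.trans hd
      have hjr := hj.trans hd
      have hDi : ∀ y, 0 ≤ Dw G W μ (q (lev d h)) y := ((h1 M V G W μ r q hB).2 _ hir).2.1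
      have hDj : ∀ y, 0 ≤ Dw G W μ (q (lev d h')) y := ((h1 M V G W μ r q hB).2 _ hjr).2.1
      have had : ∀ y, 0 ≤ aw G (q d) y := aw_nonneg (hS.q0 d hd)
      let Φ : V → ℝ := fun y' => ∑ y, q (lev d h) y * Dw G W μ (q (lev d h)) y / aw G (q d) y *
        ind (G.Adj y y')
      have hΦ0 : ∀ y', 0 ≤ Φ y' := by
        intro y'
        refine Finset.sum_nonneg fun y _ => ?_
        exact mul_nonneg (div_nonneg (mul_nonneg (hS.q0 _ hir y) (hDi y)) (had y)) (ind_nonneg _)
      have hstep := bound h1 hB hd e e' hne eta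
        (fun g f f' => ind (eta ≤ Dw G W μ (q d) g ∧ Top G (q d) d f ∧
          Gam * aw G (q d) (hv d f h) ≤ aw G (q d) (hr d f h) ∧
          G.Adj (hv d f h) (hv d f' h'))) (fun f' => Φ (hv d f' h') / eta)
        (fun f' _ => div_nonneg (hΦ0 _) heta.le)
        (fun g f f' hg => ind_neg fun h => hg h.1) (by
          intro g hg f' hf'
          have h4 := (hden g hg (fun z => ind (G.Adj z (hv d f' h'))) (fun v => ind_nonneg _)).2 h
          refine le_trans (le_of_eq ?_) h4
          refine Finset.sum_congr rfl fun f _ => ?_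
          by_cases ht : Top G (q d) d f
          · by_cases ht' : Gam * aw G (q d) (hv d f h) ≤ aw G (q d) (hr d f h)
            · rw [ind_and hg, ind_and ht, ind_and ht', if_pos ⟨ht, ht'⟩]
            · rw [if_neg fun h => ht' h.2, ind_neg fun h => ht' h.2.2.1, mul_zero]
          · rw [if_neg fun h => ht h.1, ind_neg fun h => ht h.2.1, mul_zero])
      refine hstep.trans ?_
      rw [mh h' (fun y' => Φ y' / eta)]
      -- the estimate
      have hb1 : ∀ y', q (lev d h') y' * Dw G W μ (q (lev d h')) y' * (Φ y' / eta) ≤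
          q (lev d h') y' * H * (Φ y' / eta) := by
        intro y'
        refine mul_le_mul_of_nonneg_right ?_ (div_nonneg (hΦ0 _) heta.le)
        by_cases hy : y' ∈ J (lev d h')
        · exact mul_le_mul_of_nonneg_left (hS.DH _ hjr y' hy) (hS.q0 _ hjr y')
        · rw [hS.qJ _ hjr y' hy, zero_mul, zero_mul]
      refine (Finset.sum_le_sum fun y' _ => hb1 y').trans ?_
      have hb2 : ∀ y', Φ y' ≤ ∑ y, q (lev d h) y * H / aw G (q d) y *
          ind (G.Adj y y') := by
        intro y'
        refine Finset.sum_le_sum fun y _ => ?_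
        refine mul_le_mul_of_nonneg_right ?_ (ind_nonneg _)
        refine div_le_div_of_nonneg_right ?_ (had y)
        by_cases hy : y ∈ J (lev d h)
        · exact mul_le_mul_of_nonneg_left (hS.DH _ hir y hy) (hS.q0 _ hir y)
        · rw [hS.qJ _ hir y hy, zero_mul, zero_mul]
      have hb3 : ∑ y', q (lev d h') y' * Φ y' ≤ H * xi := by
        calc ∑ y', q (lev d h') y' * Φ y'
            ≤ ∑ y', q (lev d h') y' * ∑ y, q (lev d h) y * H / aw G (q d) y *
                ind (G.Adj y y') :=
              Finset.sum_le_sum fun y' _ => mul_le_mul_of_nonneg_left (hb2 y') (hS.q0 _ hjr y')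
          _ = ∑ y, q (lev d h) y * H / aw G (q d) y * aw G (q (lev d h')) y := by
              simp_rw [Finset.mul_sum]
              rw [Finset.sum_comm]
              refine Finset.sum_congr rfl fun y _ => ?_
              rw [aw_eq (q (lev d h')), Finset.mul_sum]
              refine Finset.sum_congr rfl fun y' _ => ?_
              by_cases hb : G.Adj y y'
              · rw [if_pos hb, ind_pos hb, mul_one]
                ring
              · rw [if_neg hb, ind_neg hb, mul_zero, mul_zero]

          _ ≤ ∑ y, q (lev d h) y * (H * xi) := by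
              refine Finset.sum_le_sum fun y _ => ?_
              by_cases hy : y ∈ J (lev d h)
              · have h5 := hS.scJ _ _ d hlt hj hd y hy
                have h6 := hS.aposJ _ d hi hd y hy
                have h7 : q (lev d h) y * H / aw G (q d) y * aw G (q (lev d h')) y =
                    q (lev d h) y * H * (aw G (q (lev d h')) y / aw G (q d) y) := by
                  ring
                rw [h7, mul_assoc]
                refine mul_le_mul_of_nonneg_left ?_ (hS.q0 _ hir y)
                refine mul_le_mul_of_nonneg_left ?_ (by linarith)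
                rw [div_le_iff₀ h6]
                exact h5
              · rw [hS.qJ _ hir y hy]
                simp
          _ = (∑ y, q (lev d h) y) * (H * xi) := by rw [Finset.sum_mul]
          _ ≤ 1 * (H * xi) :=
              mul_le_mul_of_nonneg_right (hS.q1 _ hir) (by positivity)
          _ = H * xi := one_mul _
      have h8 : ∑ y', q (lev d h') y' * H * (Φ y' / eta) =
          H / eta * ∑ y', q (lev d h') y' * Φ y' := by
        rw [Finset.mul_sum]
        refine Finset.sum_congr rfl fun y' _ => ?_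
        ring
      rw [h8]
      calc H / eta * ∑ y', q (lev d h') y' * Φ y' ≤ H / eta * (H * xi) :=
            mul_le_mul_of_nonneg_left hb3 (by positivity)
        _ = H ^ 2 * xi / eta := by ring

end Pool.Agent.Lib.FGL
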