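import Pool.Agent.Lib.FGF.Stmts
import Pool.Agent.Lib.FGF.Avg
import Pool.Agent.Lib.GSR5.Minimax
import Pool.Agent.Lib.GSR5.Indep

/-!
# Fractional Gyarfas-Sumner: Lemma A (module `LemA`)

If `v` is not the root of a light tree of depth `j + 1` then there is a measure of bounded mass
which, together with the weight at `v`, meets all the light trees of depth `j` with roots in the
stable set `X` of neighbours of `v`.
-/

set_option autoImplicit false

namespace Pool.Agent.Lib.FGF

open Finset Classical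
open Pool.Agent.Lib.FracGS (nb wnb TAdj)
open Pool.Agent.Lib.GSR3 (Stab Small Tree)
open Pool.Agent.Lib.GSR5 (Law pr)

namespace LemAAux

variable {V : Type} {M j : ℕ}

/-- The words of length at most `j`. -/
noncomputable def wd (M j : ℕ) : Finset (List (Fin M)) :=
  (List.finite_length_le (Fin M) j).toFinset

lemma mem_wd {u : List (Fin M)} : u ∈ wd M j ↔ u.length ≤ j := by
  unfold wd
  simp

/-- Functions on the words of length at most `j`. -/
abbrev Tr (M j : ℕ) (V : Type) : Type := {u : List (Fin M) // u ∈ wd M j} → V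

/-- The extension to all words. -/
noncomputable def ex (t : Tr M j V) (u : List (Fin M)) : V :=
  if h : u ∈ wd M j then t ⟨u, h⟩ else t ⟨[], mem_wd.2 (Nat.zero_le _)⟩

/-- The restriction to the words of length at most `j`. -/
def re (M j : ℕ) (φ : List (Fin M) → V) : Tr M j V := fun u => φ u.1

lemma ex_re (φ : List (Fin M) → V) {u : List (Fin M)} (hu : u.length ≤ j) :
    ex (re M j φ) u = φ u := by
  unfold ex re
  rw [dif_pos (mem_wd.2 hu)]

lemma tree_re {G : SimpleGraph V} {φ : List (Fin M) → V} (h : Tree G j M φ) :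
    Tree G j M (ex (re M j φ)) where
  inj u w hu hw he := by
    rw [ex_re φ hu, ex_re φ hw] at he
    exact h.inj u w hu hw he
  adj u w hu hw := by
    rw [ex_re φ hu, ex_re φ hw]
    exact h.adj u w hu hw

variable [Fintype V] {G : SimpleGraph V}

lemma cm_mono {r s : V → ℝ} (h : ∀ u, r u ≤ s u) (x : V) : cm G r x ≤ cm G s x := by
  unfold cm nm wnb
  exact add_le_add (h x) (Finset.sum_le_sum fun u _ => h u)

lemma cm_ge {r : V → ℝ} (h : ∀ u, 0 ≤ r u) {x u : V} (hu : x = u ∨ G.Adj x u) :
    r u ≤ cm G r x := by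
  unfold cm nm wnb
  have h0 : 0 ≤ ∑ w ∈ nb G Finset.univ x, r w := Finset.sum_nonneg fun w _ => h w
  rcases hu with rfl | hu
  · linarith
  · have h1 : r u ≤ ∑ w ∈ nb G Finset.univ x, r w :=
      Finset.single_le_sum (f := r) (fun w _ => h w)
        (Finset.mem_filter.2 ⟨Finset.mem_univ _, hu⟩)
    have := h x
    linarith

lemma cm_eq (r : V → ℝ) (x : V) :
    cm G r x = ∑ u, r u * (if (x = u ∨ G.Adj x u) then 1 else 0) := by
  simp only [mul_ite, mul_one, mul_zero]
  rw [← Finset.sum_filter]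
  have h1 : Finset.univ.filter (fun u => x = u ∨ G.Adj x u) = insert x (nb G Finset.univ x) := by
    ext u
    simp only [Finset.mem_filter, Finset.mem_univ, true_and, Finset.mem_insert, nb]
    constructor
    · rintro (h | h)
      · exact Or.inl h.symm
      · exact Or.inr h
    · rintro (h | h)
      · exact Or.inl h.symm
      · exact Or.inr h
  rw [h1, Finset.sum_insert]
  · rfl
  · intro h
    exact G.loopless.irrefl x (Finset.mem_filter.1 h).2

/-- `u` lies in the closed neighbourhood of a vertex of `t` other than the root. -/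
def Hit (G : SimpleGraph V) (t : Tr M j V) (u : V) : Prop :=
  ∃ w : List (Fin M), w ≠ [] ∧ w.length ≤ j ∧ (ex t w = u ∨ G.Adj (ex t w) u)

/-- Two trees touch each other. -/
def Conf (G : SimpleGraph V) (t t' : Tr M j V) : Prop :=
  ∃ w w' : List (Fin M), w.length ≤ j ∧ w'.length ≤ j ∧
    (ex t w = ex t' w' ∨ G.Adj (ex t w) (ex t' w'))

/-- The good trees. -/
def Good (G : SimpleGraph V) (m : V → ℝ) (L X : Finset V) (v : V) (t : Tr M j V) : Prop :=
  ex t [] ∈ X ∧ cm G m (ex t []) < 1 ∧ Tree G j M (ex t) ∧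
    ∀ u : List (Fin M), u ≠ [] → u.length ≤ j →
      ex t u ∈ L ∧ cm G (fun u => m u + (if u = v then 1 else 0)) (ex t u) < 1

/-- The payoff. -/
noncomputable def pay (G : SimpleGraph V) (t : Tr M j V) (u : V) : ℝ :=
  if Hit G t u then 1 else 0

omit [Fintype V] in
lemma pay_nonneg (t : Tr M j V) (u : V) : 0 ≤ pay G t u := by
  unfold pay
  split_ifs <;> norm_num

lemma conf_hit (hM : 1 ≤ M) (hj : 1 ≤ j) {m : V → ℝ} {L X : Finset V} {v : V}
    (hX : Stab G X) {t t' : Tr M j V} (ht : Good G m L X v t) (ht' : Good G m L X v t')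
    (h : Conf G t t') :
    (∃ w : List (Fin M), w.length ≤ j ∧ Hit G t' (ex t w)) ∨
      ∃ w' : List (Fin M), w'.length ≤ j ∧ Hit G t (ex t' w') := by
  obtain ⟨w, w', hw, hw', h1⟩ := h
  by_cases h0 : w' = []
  · by_cases h2 : w = []
    · subst h0 h2
      rcases h1 with h1 | h1
      · left
        refine ⟨[], hw, [⟨0, hM⟩], by simp, by simpa using hj, Or.inr ?_⟩
        rw [h1]
        exact (ht'.2.2.1.adj [⟨0, hM⟩] [] (by simpa using hj) hw').2 (Or.inl ⟨_, rfl⟩)
      · exact absurd h1 (hX _ ht.1 _ ht'.1)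
    · right
      exact ⟨w', hw', w, h2, hw, h1⟩
  · left
    refine ⟨w, hw, w', h0, hw', ?_⟩
    rcases h1 with h1 | h1
    · exact Or.inl h1.symm
    · exact Or.inr h1.symm

/-- The probability of a conflict. -/
lemma conf_pr (hM : 1 ≤ M) (hj : 1 ≤ j) {m : V → ℝ} {L X : Finset V} {v : V} {e : ℝ}
    (hX : Stab G X) (hXL : X ⊆ L) {p : Tr M j V → ℝ} (hp : Law p)
    (hS : ∀ t, p t ≠ 0 → Good G m L X v t) (he : ∀ u ∈ L, ∑ t, p t * pay G t u ≤ e) :
    ∑ t, p t * pr p (fun t' => Conf G t t') ≤ 2 * ((wd M j).card * e) := by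
  have hL : ∀ t, p t ≠ 0 → ∀ w ∈ wd M j, ex t w ∈ L := by
    intro t ht w hw
    by_cases h0 : w = []
    · subst h0
      exact hXL (hS t ht).1
    · exact ((hS t ht).2.2.2 w h0 (mem_wd.1 hw)).1
  have h1 : ∀ t t', p t * (p t' * (if Conf G t t' then 1 else 0)) ≤
      ∑ w ∈ wd M j, p t * (p t' * pay G t' (ex t w)) +
        ∑ w ∈ wd M j, p t' * (p t * pay G t (ex t' w)) := by
    intro t t'
    have h0 : 0 ≤ ∑ w ∈ wd M j, p t * (p t' * pay G t' (ex t w)) :=
      Finset.sum_nonneg fun w _ => mul_nonneg (hp.nn _) (mul_nonneg (hp.nn _) (pay_nonneg _ _))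
    have h0' : 0 ≤ ∑ w ∈ wd M j, p t' * (p t * pay G t (ex t' w)) :=
      Finset.sum_nonneg fun w _ => mul_nonneg (hp.nn _) (mul_nonneg (hp.nn _) (pay_nonneg _ _))
    by_cases hc : Conf G t t'
    · by_cases ht : p t = 0
      · rw [ht, zero_mul]
        rw [ht] at h0 h0'
        exact add_nonneg h0 h0'
      by_cases ht' : p t' = 0
      · rw [ht', zero_mul, mul_zero]
        rw [ht'] at h0 h0'
        exact add_nonneg h0 h0'
      rw [if_pos hc, mul_one]
      rcases conf_hit hM hj hX (hS t ht) (hS t' ht') hc with ⟨w, hw, hh⟩ | ⟨w, hw, hh⟩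
      · have h2 : p t * p t' ≤ ∑ w ∈ wd M j, p t * (p t' * pay G t' (ex t w)) := by
          refine le_trans (le_of_eq ?_) (Finset.single_le_sum
            (f := fun w => p t * (p t' * pay G t' (ex t w)))
            (fun w _ => mul_nonneg (hp.nn _) (mul_nonneg (hp.nn _) (pay_nonneg _ _)))
            (mem_wd.2 hw))
          show p t * p t' = p t * (p t' * pay G t' (ex t w))
          rw [pay, if_pos hh, mul_one]
        linarith
      · have h2 : p t * p t' ≤ ∑ w ∈ wd M j, p t' * (p t * pay G t (ex t' w)) := by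
          refine le_trans (le_of_eq ?_) (Finset.single_le_sum
            (f := fun w => p t' * (p t * pay G t (ex t' w)))
            (fun w _ => mul_nonneg (hp.nn _) (mul_nonneg (hp.nn _) (pay_nonneg _ _)))
            (mem_wd.2 hw))
          show p t * p t' = p t' * (p t * pay G t (ex t' w))
          rw [pay, if_pos hh, mul_one, mul_comm]
        linarith
    · rw [if_neg hc, mul_zero, mul_zero]
      exact add_nonneg h0 h0'
  have key : ∑ t, ∑ t', ∑ w ∈ wd M j, p t * (p t' * pay G t' (ex t w)) ≤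
      (wd M j).card * e := by
    calc ∑ t, ∑ t', ∑ w ∈ wd M j, p t * (p t' * pay G t' (ex t w))
        = ∑ t, p t * ∑ w ∈ wd M j, ∑ t', p t' * pay G t' (ex t w) := by
          refine Finset.sum_congr rfl fun t _ => ?_
          rw [Finset.sum_comm, Finset.mul_sum]
          refine Finset.sum_congr rfl fun w _ => ?_
          rw [Finset.mul_sum]
      _ ≤ ∑ t, p t * ((wd M j).card * e) := by
          refine Finset.sum_le_sum fun t _ => ?_
          by_cases ht : p t = 0
          · rw [ht, zero_mul, zero_mul]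
          · refine mul_le_mul_of_nonneg_left ?_ (hp.nn t)
            rw [← nsmul_eq_mul]
            exact Finset.sum_le_card_nsmul _ _ _ fun w hw => he _ (hL t ht w hw)
      _ = (wd M j).card * e := by
          rw [← Finset.sum_mul, hp.one, one_mul]
  calc ∑ t, p t * pr p (fun t' => Conf G t t')
      = ∑ t, ∑ t', p t * (p t' * (if Conf G t t' then 1 else 0)) := by
        refine Finset.sum_congr rfl fun t _ => ?_
        unfold pr
        rw [Finset.sum_filter, Finset.mul_sum]
        refine Finset.sum_congr rfl fun t' _ => ?_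
        split_ifs <;> simp
    _ ≤ ∑ t, ∑ t', (∑ w ∈ wd M j, p t * (p t' * pay G t' (ex t w)) +
        ∑ w ∈ wd M j, p t' * (p t * pay G t (ex t' w))) :=
        Finset.sum_le_sum fun t _ => Finset.sum_le_sum fun t' _ => h1 t t'
    _ = ∑ t, ∑ t', ∑ w ∈ wd M j, p t * (p t' * pay G t' (ex t w)) +
        ∑ t', ∑ t, ∑ w ∈ wd M j, p t' * (p t * pay G t (ex t' w)) := by
        simp only [Finset.sum_add_distrib]
        congr 1
        exact Finset.sum_comm
    _ ≤ 2 * ((wd M j).card * e) := by
        linarith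

/-- The measure meets the trees. -/
lemma meets {l : V → ℝ} (hl : ∀ u, 0 ≤ l u) (t : Tr M j V) :
    ∑ u, l u * pay G t u ≤ ∑ w ∈ (wd M j).erase [], cm G l (ex t w) := by
  simp only [cm_eq]
  rw [Finset.sum_comm]
  refine Finset.sum_le_sum fun u _ => ?_
  rw [← Finset.mul_sum]
  refine mul_le_mul_of_nonneg_left ?_ (hl u)
  unfold pay
  have h0 : ∀ w ∈ (wd M j).erase [], (0 : ℝ) ≤
      if (ex t w = u ∨ G.Adj (ex t w) u) then 1 else 0 := by
    intro w _
    split_ifs <;> norm_num
  split_ifs with h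
  · obtain ⟨w, hw0, hw, h1⟩ := h
    refine le_trans (le_of_eq ?_) (Finset.single_le_sum h0
      (Finset.mem_erase.2 ⟨hw0, mem_wd.2 hw⟩))
    rw [if_pos h1]
  · exact Finset.sum_nonneg h0

end LemAAux

open LemAAux

/-- Module `LemA`. -/
theorem stLemA (h : StGlue) : StLemA := by
  intro M j hM hj
  set n : ℝ := ((wd M j).card : ℝ) with hn
  have hn1 : 1 ≤ n := by
    rw [hn]
    have : 0 < (wd M j).card := Finset.card_pos.2 ⟨[], mem_wd.2 (Nat.zero_le _)⟩
    exact_mod_cast this
  have hM1 : (1 : ℝ) ≤ M := by exact_mod_cast hM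
  set e : ℝ := 1 / (8 * (M : ℝ) ^ 2 * n) with he
  have hD : 0 < 8 * (M : ℝ) ^ 2 * n := by positivity
  have he0 : 0 < e := by
    rw [he]
    positivity
  refine ⟨n / e, by positivity, ?_⟩
  intro V _ G m L X v hm hXL hXv hX hDom
  set S : Finset (Tr M j V) := Finset.univ.filter (fun t => Good G m L X v t) with hS
  -- restrictions of trees are good
  have hre : ∀ (l : V → ℝ), (∀ u, 0 ≤ l u) → ∀ c ∈ X, cm G m c < 1 →
      ∀ φ : List (Fin M) → V, Tree G j M φ → φ [] = c →
        (∀ u : List (Fin M), u ≠ [] → u.length ≤ j → φ u ∈ L ∧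
          cm G (fun u => m u + (if u = v then 1 else 0) + l u) (φ u) < 1) →
            re M j φ ∈ S := by
    intro l hl c hc hc1 φ hφ h0 hu
    refine Finset.mem_filter.2 ⟨Finset.mem_univ _, ?_, ?_, tree_re hφ, ?_⟩
    · rw [ex_re φ (Nat.zero_le _), h0]
      exact hc
    · rw [ex_re φ (Nat.zero_le _), h0]
      exact hc1
    · intro u hu0 huj
      rw [ex_re φ huj]
      refine ⟨(hu u hu0 huj).1, lt_of_le_of_lt (cm_mono (fun w => ?_) _) (hu u hu0 huj).2⟩
      have := hl w
      linarith
  rcases S.eq_empty_or_nonempty with hSe | hSn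
  · refine ⟨fun _ => 0, fun _ => le_rfl, fun u hu => absurd rfl hu, ?_, ?_⟩
    · simp only [Finset.sum_const_zero]
      positivity
    · intro c hc hc1 φ hφ h0 hu
      have := hre (fun _ => 0) (fun _ => le_rfl) c hc hc1 φ hφ h0 hu
      rw [hSe] at this
      exact absurd this (Finset.notMem_empty _)
  have hLn : L.Nonempty := by
    obtain ⟨t, ht⟩ := hSn
    exact ⟨_, hXL (Finset.mem_filter.1 ht).2.1⟩
  rcases GSR5.stMinimax (Tr M j V) V S L (pay G) e hSn hLn with
    ⟨p, hp, hpS, hpe⟩ | ⟨l0, hl0, hl0L, hl0e⟩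
  · exfalso
    have hpG : ∀ t, p t ≠ 0 → Good G m L X v t := fun t ht =>
      (Finset.mem_filter.1 (hpS t ht)).2
    have h1 := conf_pr hM hj hX hXL hp hpG hpe
    rw [← hn] at h1
    have h2 : ((Fintype.card (Fin M) : ℝ) + (Fintype.card (Fin M) : ℝ) ^ 2) * (2 * (n * e))
        < 1 := by
      rw [Fintype.card_fin]
      have h3 : n * e * (8 * (M : ℝ) ^ 2) = 1 := by
        rw [he]
        field_simp
      have h4 : (M : ℝ) ≤ (M : ℝ) ^ 2 := by nlinarith
      have h5 : 0 < n * e := by positivity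
      nlinarith
    obtain ⟨f, hf1, -, hf2⟩ := GSR5.stIndep (Fin M) (Tr M j V) (fun _ => p)
      (fun _ _ => False) (fun _ _ t t' => Conf G t t') (2 * (n * e)) (fun _ => hp)
      (by positivity) (fun _ => by
        unfold pr
        rw [Finset.filter_false]
        simp only [Finset.sum_empty]
        positivity) (fun _ _ _ => h1) h2
    have hG : ∀ i, Good G m L X v (f i) := fun i => hpG _ (hf1 i)
    have hpos : ∀ u : V, (0 : ℝ) ≤ m u + (if u = v then 1 else 0) := by
      intro u
      have := hm u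
      split_ifs <;> linarith
    have hfar : ∀ i (u : List (Fin M)), u ≠ [] → u.length ≤ j →
        ¬ (ex (f i) u = v ∨ G.Adj (ex (f i) u) v) := by
      intro i u hu0 hu hc
      have h3 := ((hG i).2.2.2 u hu0 hu).2
      have h4 := cm_ge (G := G) hpos hc
      simp only [if_true] at h4
      have := hm v
      linarith
    obtain ⟨ψ, hψ, hψ0, hψ1⟩ := h V G M j v (fun i => ex (f i)) (fun i => (hG i).2.2.1)
      (fun i => hXv _ (hG i).1)
      (fun i u hu hc => by
        by_cases hu0 : u = []
        · subst hu0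
          exact G.ne_of_adj (hXv _ (hG i).1) hc.symm
        · exact hfar i u hu0 hu (Or.inl hc))
      (fun i u hu0 hu hc => hfar i u hu0 hu (Or.inr hc.symm))
      (fun i i' u u' hne hu hu' => by
        have h3 := hf2 i i' hne
        exact ⟨fun hc => h3 ⟨u, u', hu, hu', Or.inl hc⟩,
          fun hc => h3 ⟨u, u', hu, hu', Or.inr hc⟩⟩)
    refine hDom ψ hψ hψ0 fun u hu0 hu => ?_
    obtain ⟨w, i, rfl⟩ : ∃ (w : List (Fin M)) (i : Fin M), u = w ++ [i] :=
      ⟨u.dropLast, u.getLast hu0, (List.dropLast_append_getLast hu0).symm⟩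
    have hw : w.length ≤ j := by
      simpa using hu
    rw [hψ1 i w hw]
    by_cases hw0 : w = []
    · subst hw0
      exact ⟨hXL (hG i).1, (hG i).2.1⟩
    · obtain ⟨h3, h4⟩ := (hG i).2.2.2 w hw0 hw
      refine ⟨h3, lt_of_le_of_lt (cm_mono (fun z => ?_) _) h4⟩
      split_ifs <;> linarith
  · refine ⟨fun u => n / e * l0 u, fun u => mul_nonneg (by positivity) (hl0.nn u), ?_, ?_, ?_⟩
    · intro u hu
      refine hl0L u fun h0 => hu ?_
      show n / e * l0 u = 0
      rw [h0, mul_zero]
    · rw [← Finset.mul_sum, hl0.one, mul_one]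
    · intro c hc hc1 φ hφ h0 hu
      have hl : ∀ u, 0 ≤ n / e * l0 u := fun u => mul_nonneg (by positivity) (hl0.nn u)
      have h1 := hl0e _ (hre (fun u => n / e * l0 u) hl c hc hc1 φ hφ h0 hu)
      have h2 := meets (G := G) hl (re M j φ)
      have h3 : ∑ u, n / e * l0 u * pay G (re M j φ) u = n / e * ∑ u, l0 u * pay G (re M j φ) u := by
        rw [Finset.mul_sum]
        exact Finset.sum_congr rfl fun u _ => mul_assoc _ _ _
      have h4 : n ≤ n / e * ∑ u, l0 u * pay G (re M j φ) u := by
        calc n = n / e * e := by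
              field_simp
          _ ≤ _ := mul_le_mul_of_nonneg_left h1 (by positivity)
      have h5 : ∑ w ∈ (wd M j).erase [], cm G (fun u => n / e * l0 u) (ex (re M j φ) w) ≤
          ((wd M j).erase []).card := by
        rw [← nsmul_one]
        refine Finset.sum_le_card_nsmul _ _ _ fun w hw => ?_
        obtain ⟨hw0, hw1⟩ := Finset.mem_erase.1 hw
        rw [ex_re φ (mem_wd.1 hw1)]
        refine le_trans (cm_mono (fun z => ?_) _) (hu w hw0 (mem_wd.1 hw1)).2.le
        have := hm z
        split_ifs <;> linarith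
      have h6 : (((wd M j).erase []).card : ℝ) < n := by
        rw [hn]
        exact_mod_cast Finset.card_erase_lt_of_mem (mem_wd.2 (Nat.zero_le _))
      linarith

end Pool.Agent.Lib.FGF
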