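import Pool.Agent.Lib.FGF.Stmts2
import Pool.Agent.Lib.GSR3.Base

/-!
# The fractional Gyarfas-Sumner conjecture: composition of the moves
-/

set_option autoImplicit false

namespace Pool.Agent.Lib.FGF

open Finset Classical
open Pool.Agent.Lib.FracGS (nb wnb TAdj pat)
open Pool.Agent.Lib.GSR3 (Stab Small Tree)
open Pool.Agent.Lib.GSR5 (NLC)

namespace MComp

/-- The items of a family of sets get types. -/
theorem items (h2 : StIMove) (P : Par) (hP : P.OK) (n : ℕ) (Q : Finset (Finset ℕ)) :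
    (∀ S ∈ Q, S ⊆ Finset.range n ∧ S.card = P.m) → ∀ (T : Finset (Finset ℕ)) (F : ℝ → ℝ),
      (∀ H, 0 < F H) → ∃ F0 : ℝ → ℝ, (∀ H, 0 < F0 H) ∧
        ∀ (V : Type) [Fintype V] (G : SimpleGraph V) (ν : V → ℝ) (σ : Dat V) (H : ℝ),
          Cls P G → 1 ≤ H → Sys P (n + 1) T H (F0 H) G ν σ →
            ∃ (H' : ℝ) (σ' : Dat V), 1 ≤ H' ∧ Sys P (n + 1) (T ∪ Q) H' (F H') G ν σ' := by
  induction Q using Finset.induction_on with
  | empty =>
    intro _ T F hF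
    refine ⟨F, hF, ?_⟩
    intro V _ G ν σ H _ hH hS
    rw [Finset.union_empty]
    exact ⟨H, σ, hH, hS⟩
  | insert S Q _ ih =>
    intro hQ T F hF
    obtain ⟨F1, hF1, hs1⟩ := ih (fun S' hS' => hQ S' (Finset.mem_insert_of_mem hS'))
      (insert S T) F hF
    obtain ⟨hSn, hSc⟩ := hQ S (Finset.mem_insert_self S Q)
    have hmv := h2 P hP n S hSn hSc T F1 hF1
    choose! ξ hξ hstep using hmv
    refine ⟨fun H => if 1 ≤ H then ξ H else 1, ?_, ?_⟩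
    · intro H
      dsimp only
      split_ifs with h
      · exact hξ H h
      · exact one_pos
    · intro V _ G ν σ H hC hH hS
      dsimp only at hS
      rw [if_pos hH] at hS
      obtain ⟨H1, σ1, hH1, hS1⟩ := hstep H hH V G ν σ hC hS
      obtain ⟨H2, σ2, hH2, hS2⟩ := hs1 V G ν σ1 H1 hC hH1 hS1
      refine ⟨H2, σ2, hH2, ?_⟩
      have he : T ∪ insert S Q = insert S T ∪ Q := by
        rw [Finset.union_insert, Finset.insert_union]
      rw [he]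
      exact hS2

/-- One stage with all its items. -/
theorem stage (h2 : StIMove) (P : Par) (hP : P.OK)
    (hB : ∀ (n : ℕ) (F : ℝ → ℝ), (∀ H, 0 < F H) → ∀ H : ℝ, 1 ≤ H → ∃ ξ : ℝ, 0 < ξ ∧
      ∀ (V : Type) [Fintype V] (G : SimpleGraph V) (ν : V → ℝ) (σ : Dat V), Cls P G →
        Sys P n (full P n) H ξ G ν σ → ∃ (H' : ℝ) (σ' : Dat V), 1 ≤ H' ∧
          Sys P (n + 1) ∅ H' (F H') G ν σ')
    (n : ℕ) (F : ℝ → ℝ) (hF : ∀ H, 0 < F H) :
    ∃ F0 : ℝ → ℝ, (∀ H, 0 < F0 H) ∧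
      ∀ (V : Type) [Fintype V] (G : SimpleGraph V) (ν : V → ℝ) (σ : Dat V) (H : ℝ),
        Cls P G → 1 ≤ H → Sys P n (full P n) H (F0 H) G ν σ →
          ∃ (H' : ℝ) (σ' : Dat V), 1 ≤ H' ∧
            Sys P (n + 1) (full P (n + 1)) H' (F H') G ν σ' := by
  obtain ⟨F1, hF1, hs1⟩ := items h2 P hP n (full P (n + 1)) (by
    intro S hS
    rw [full, Finset.mem_powersetCard] at hS
    exact hS) ∅ F hF
  have hmv := hB n F1 hF1
  choose! ξ hξ hstep using hmv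
  refine ⟨fun H => if 1 ≤ H then ξ H else 1, ?_, ?_⟩
  · intro H
    dsimp only
    split_ifs with h
    · exact hξ H h
    · exact one_pos
  · intro V _ G ν σ H hC hH hS
    dsimp only at hS
    rw [if_pos hH] at hS
    obtain ⟨H1, σ1, hH1, hS1⟩ := hstep H hH V G ν σ hC hS
    obtain ⟨H2, σ2, hH2, hS2⟩ := hs1 V G ν σ1 H1 hC hH1 hS1
    rw [Finset.empty_union] at hS2
    exact ⟨H2, σ2, hH2, hS2⟩

/-- The data with no stages. -/
noncomputable def dat0 (V : Type) [Fintype V] : Dat V where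
  ρ := fun _ _ => 0
  W := fun _ => Finset.univ
  isB := fun _ _ => False
  lab := fun _ _ v => v
  near := fun _ _ _ => ∅

/-- The system with no stages. -/
theorem sys0 (P : Par) (T : Finset (Finset ℕ)) (α : ℝ) (V : Type) [Fintype V]
    (G : SimpleGraph V) (ν : V → ℝ) (hν : ∀ v, 0 ≤ ν v) (hν1 : ∑ v, ν v = 1)
    (hα : ∀ I, Stab G I → ms ν I ≤ α) : Sys P 0 T 1 α G ν (dat0 V) where
  ν0 := hν
  ν1 := hν1
  al := hα
  W0 := rfl
  sub := fun s hs => absurd hs (Nat.not_lt_zero s)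
  pos := by
    show (1 : ℝ) ≤ 1 * ms ν Finset.univ
    rw [one_mul, ms, hν1]
  ρ0 := fun s hs => absurd hs (Nat.not_lt_zero s)
  ρW := fun s hs => absurd hs (Nat.not_lt_zero s)
  ρ1 := fun s hs => absurd hs (Nat.not_lt_zero s)
  ρS := fun s hs => absurd hs (Nat.not_lt_zero s)
  ap := fun s hs => absurd hs (Nat.not_lt_zero s)
  dH := fun s hs => absurd hs (Nat.not_lt_zero s)
  dξ := fun s hs => absurd hs (Nat.not_lt_zero s)
  at' := fun s hs => absurd hs (Nat.not_lt_zero s)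
  drop := fun _ s _ hs => absurd hs (Nat.not_lt_zero s)
  far := fun s hs => absurd hs (Nat.not_lt_zero s)
  sg2 := fun _ s _ hs => absurd hs (Nat.not_lt_zero s)
  sgS := fun s hs => absurd hs (Nat.not_lt_zero s)
  ker := fun s hs => absurd hs (Nat.not_lt_zero s)
  itm := fun s hs => absurd hs (Nat.not_lt_zero s)
  lab := fun _ _ h => h.elim
  sep := fun s hs => absurd hs (Nat.not_lt_zero s)

/-- All systems can be reached. -/
theorem reach (h2 : StIMove) (P : Par) (hP : P.OK)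
    (hB : ∀ (n : ℕ) (F : ℝ → ℝ), (∀ H, 0 < F H) → ∀ H : ℝ, 1 ≤ H → ∃ ξ : ℝ, 0 < ξ ∧
      ∀ (V : Type) [Fintype V] (G : SimpleGraph V) (ν : V → ℝ) (σ : Dat V), Cls P G →
        Sys P n (full P n) H ξ G ν σ → ∃ (H' : ℝ) (σ' : Dat V), 1 ≤ H' ∧
          Sys P (n + 1) ∅ H' (F H') G ν σ')
    (n : ℕ) : ∀ F : ℝ → ℝ, (∀ H, 0 < F H) → ∃ α : ℝ, 0 < α ∧
      ∀ (V : Type) [Fintype V] (G : SimpleGraph V) (ν : V → ℝ), Cls P G → (∀ v, 0 ≤ ν v) →
        ∑ v, ν v = 1 → (∀ I, Stab G I → ms ν I ≤ α) →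
          ∃ (H : ℝ) (σ : Dat V), 1 ≤ H ∧ Sys P n (full P n) H (F H) G ν σ := by
  induction n with
  | zero =>
    intro F hF
    refine ⟨F 1, hF 1, ?_⟩
    intro V _ G ν _ hν hν1 hα
    exact ⟨1, dat0 V, le_rfl, sys0 P _ _ V G ν hν hν1 hα⟩
  | succ n ih =>
    intro F hF
    obtain ⟨F0, hF0, hs⟩ := stage h2 P hP hB n F hF
    obtain ⟨α, hα, hr⟩ := ih F0 hF0
    refine ⟨α, hα, ?_⟩
    intro V _ G ν hC hν hν1 hst
    obtain ⟨H, σ, hH, hS⟩ := hr V G ν hC hν hν1 hst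
    exact hs V G ν σ H hC hH hS

/-- If all laws charge some stable set then the graph is small. -/
theorem small_of_laws {V : Type} [Fintype V] (G : SimpleGraph V) (α : ℝ) (hα : 0 < α)
    (h : ∀ ν : V → ℝ, (∀ v, 0 ≤ ν v) → ∑ v, ν v = 1 → ∃ I, Stab G I ∧ α < ms ν I) :
    Small G Finset.univ (1 / α) := by
  intro w hw
  by_cases h0 : ∑ v, w v = 0
  · refine ⟨∅, Finset.empty_subset _, GSR3.stab_empty, ?_⟩
    rw [h0]
    simp
  · have hpos : 0 < ∑ v, w v :=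
      lt_of_le_of_ne (Finset.sum_nonneg fun v _ => hw v) (Ne.symm h0)
    obtain ⟨I, hI, hlt⟩ := h (fun v => w v / ∑ u, w u) (fun v => div_nonneg (hw v) hpos.le)
      (by rw [← Finset.sum_div, div_self h0])
    refine ⟨I, Finset.subset_univ I, hI, ?_⟩
    have h1 : ms (fun v => w v / ∑ u, w u) I = (∑ v ∈ I, w v) / ∑ u, w u := by
      rw [ms, Finset.sum_div]
    rw [h1, lt_div_iff₀ hpos] at hlt
    rw [one_div, ← div_eq_inv_mul, le_div_iff₀ hα]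
    linarith

/-- The choice of the parameters. -/
theorem exists_par (M h : ℕ) (κ C0 e1 e2 b Λ0 : ℝ) (hM : 1 ≤ M) (hh : 2 ≤ h) (he : Even h)
    (hκ : 1 ≤ κ) (hC0 : 1 ≤ C0) (he1 : 0 < e1) (he1' : e1 ≤ 1) (he2 : 0 < e2) :
    ∃ P : Par, P.OK ∧ P.M = M ∧ P.h = h ∧ P.κ = κ ∧ P.C0 = C0 ∧ Λ0 ≤ P.Λ ∧
      P.ε ≤ e1 ^ P.m / 2 ∧ P.ε2 ≤ e2 ∧ P.ε2 ≤ 1 ∧ P.εp ≤ P.ε2 ^ P.m / 2 ∧ b ≤ P.Γ := by
  have hh0 : (0 : ℝ) < h := by
    have : 0 < h := by omega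
    exact_mod_cast this
  obtain ⟨ε, hε⟩ : ∃ ε : ℝ, ε = e1 ^ h / 2 := ⟨_, rfl⟩
  have hε0 : 0 < ε := by
    rw [hε]
    positivity
  have hε1 : ε ≤ 1 := by
    rw [hε]
    have := pow_le_one₀ (n := h) he1.le he1'
    linarith
  obtain ⟨ε2, hε2⟩ : ∃ ε2 : ℝ, ε2 = min e2 (min 1 (ε / (8 * h))) := ⟨_, rfl⟩
  have hε20 : 0 < ε2 := by
    rw [hε2]
    refine lt_min he2 (lt_min one_pos ?_)
    positivity
  have hε2a : ε2 ≤ e2 := by
    rw [hε2]
    exact min_le_left _ _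
  have hε2b : ε2 ≤ 1 := by
    rw [hε2]
    exact (min_le_right _ _).trans (min_le_left _ _)
  have hε2c : ε2 ≤ ε / (8 * h) := by
    rw [hε2]
    exact (min_le_right _ _).trans (min_le_right _ _)
  obtain ⟨εp, hεp⟩ : ∃ εp : ℝ, εp = ε2 ^ h / 2 := ⟨_, rfl⟩
  have hεp0 : 0 < εp := by
    rw [hεp]
    positivity
  have hεp1 : εp ≤ 1 := by
    rw [hεp]
    have := pow_le_one₀ (n := h) hε20.le hε2b
    linarith
  obtain ⟨τ, hτ⟩ : ∃ τ : ℝ, τ = ((M + 1 : ℕ) : ℝ) ^ h := ⟨_, rfl⟩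
  obtain ⟨B, hB⟩ : ∃ B : ℝ, B = max (1 + 64 * κ * 2 * τ / ε) (2 * κ * 2 * τ / εp) := ⟨_, rfl⟩
  obtain ⟨L0, hL0⟩ : ∃ L0 : ℝ, L0 = max (4 * τ * B * h * (4 / ε ^ 2)) (τ ^ 2 * (4 / ε ^ 2)) :=
    ⟨_, rfl⟩
  obtain ⟨Γ, hΓ⟩ : ∃ Γ : ℝ, Γ = max τ (max (B * h + 1) (max (4 / ε ^ 2) (max 2 b))) := ⟨_, rfl⟩
  refine ⟨⟨M, h, h, κ, C0, ε, ε2, εp, τ, B, L0, Γ, Λ0⟩, ?_, rfl, rfl, rfl, rfl, le_rfl,
    hε.le, hε2a, hε2b, hεp.le, ?_⟩
  · refine ⟨hM, hh, he, le_rfl, hκ, hC0, hε0, hε1, hε20, ?_, hεp0, hεp1, hτ.ge, ?_, ?_, ?_, ?_,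
      ?_, ?_, ?_, ?_⟩
    · show 8 * (h : ℝ) * ε2 ≤ ε
      rw [le_div_iff₀ (by positivity)] at hε2c
      linarith
    · show 1 + 64 * κ * 2 * τ / ε ≤ B
      rw [hB]
      exact le_max_left _ _
    · show 2 * κ * 2 * τ / εp ≤ B
      rw [hB]
      exact le_max_right _ _
    · show 4 * τ * B * (h : ℝ) * (4 / ε ^ 2) ≤ L0
      rw [hL0]
      exact le_max_left _ _
    · show τ ^ 2 * (4 / ε ^ 2) ≤ L0
      rw [hL0]
      exact le_max_right _ _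
    · show τ ≤ Γ
      rw [hΓ]
      exact le_max_left _ _
    · show B * (h : ℝ) < Γ
      rw [hΓ]
      refine lt_of_lt_of_le ?_ ((le_max_left _ _).trans (le_max_right _ _))
      linarith
    · show 4 / ε ^ 2 ≤ Γ
      rw [hΓ]
      exact (le_max_left _ _).trans ((le_max_right _ _).trans (le_max_right _ _))
    · show (2 : ℝ) ≤ Γ
      rw [hΓ]
      exact (le_max_left _ _).trans ((le_max_right _ _).trans ((le_max_right _ _).trans
        (le_max_right _ _)))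
  · show b ≤ Γ
    rw [hΓ]
    exact (le_max_right _ _).trans ((le_max_right _ _).trans ((le_max_right _ _).trans
      (le_max_right _ _)))

end MComp

/-- Module `Main`. -/
theorem stM (h1 : StBMove) (h2 : StIMove) (_h3 : StMono) (h4 : StFin) : StM := by
  intro M h n0 par κ C0 hM hh he hpar hκ hC0
  obtain ⟨e1, e2, b, he1, he1', he2, hb, hfin⟩ := h4 M h hM hh he
  obtain ⟨Λ0, hbm⟩ := h1 M h
  obtain ⟨P, hP, hPM, hPh, hPκ, hPC, hPΛ, hPε, hPε2, hPε2', hPεp, hPΓ⟩ :=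
    MComp.exists_par M h κ C0 e1 e2 b Λ0 hM hh he hκ hC0 he1 he1' he2
  obtain ⟨N, hN⟩ := hfin P hP hPM hPh hPε hPε2 hPε2' hPεp hPΓ n0 par hpar
  choose! ξ hξ hno using hN
  obtain ⟨α, hα, hr⟩ := MComp.reach h2 P hP (hbm P hP hPM hPh hPΛ) N
    (fun H => if 1 ≤ H then ξ H else 1) (by
      intro H
      split_ifs with h
      · exact hξ H h
      · exact one_pos)
  refine ⟨1 / α, by positivity, ?_⟩
  intro V _ G hT hpat hnb hnlc
  have hC : Cls P G := by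
    refine ⟨?_, ?_, ?_⟩
    · intro φ hφ
      subst hPM hPh
      exact hT φ hφ
    · rw [hPκ]
      exact hnb
    · rw [hPκ, hPC]
      exact hnlc
  refine MComp.small_of_laws G α hα fun ν hν hν1 => ?_
  by_contra hcon
  push Not at hcon
  obtain ⟨H, σ, hH, hS⟩ := hr V G ν hC hν hν1 hcon
  rw [if_pos hH] at hS
  exact hno H hH V G ν σ hC hpat hS

end Pool.Agent.Lib.FGF
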