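import Pool.Agent.Lib.FGF.Stmts

/-!
# The fractional Gyarfas-Sumner conjecture: module `Mono`

The system is monotone in the constants.
-/

set_option autoImplicit false

namespace Pool.Agent.Lib.FGF

open Finset Classical
open Pool.Agent.Lib.FracGS (nb wnb TAdj pat)
open Pool.Agent.Lib.GSR3 (Stab Small Tree)
open Pool.Agent.Lib.GSR5 (NLC)

namespace Mono

section

variable {V : Type}

theorem ms_nonneg {r : V → ℝ} (h : ∀ v, 0 ≤ r v) (A : Finset V) : 0 ≤ ms r A :=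
  Finset.sum_nonneg fun v _ => h v

theorem ms_mono {r : V → ℝ} (h : ∀ v, 0 ≤ r v) {A B : Finset V} (hAB : A ⊆ B) :
    ms r A ≤ ms r B :=
  Finset.sum_le_sum_of_subset_of_nonneg hAB fun v _ _ => h v

variable [Fintype V] {G : SimpleGraph V}

theorem nm_nonneg {r : V → ℝ} (h : ∀ v, 0 ≤ r v) (x : V) : 0 ≤ nm G r x :=
  Finset.sum_nonneg fun v _ => h v

theorem nm_mono {r r' : V → ℝ} (h : ∀ v, r v ≤ r' v) (x : V) : nm G r x ≤ nm G r' x :=
  Finset.sum_le_sum fun v _ => h v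

theorem zt_mono {ν r : V → ℝ} (hν : ∀ v, 0 ≤ ν v) (hr : ∀ v, 0 ≤ r v) {A B : Finset V}
    (hAB : A ⊆ B) (x : V) : zt G ν r A x ≤ zt G ν r B x := by
  unfold zt
  by_cases hA : x ∈ A
  · rw [if_pos hA, if_pos (hAB hA)]
  · rw [if_neg hA]
    split_ifs
    · exact div_nonneg (hν x) (nm_nonneg hr x)
    · exact le_rfl

theorem nmzt_mono {ν r : V → ℝ} (hν : ∀ v, 0 ≤ ν v) (hr : ∀ v, 0 ≤ r v) {A B : Finset V}
    (hAB : A ⊆ B) (x : V) : nm G (zt G ν r A) x ≤ nm G (zt G ν r B) x :=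
  nm_mono (zt_mono hν hr hAB) x

omit [Fintype V] in
theorem W_mono {σ : Dat V} {n : ℕ} (h : ∀ s < n, σ.W (s + 1) ⊆ σ.W s) {s t : ℕ} (hst : s ≤ t)
    (ht : t ≤ n) : σ.W t ⊆ σ.W s := by
  induction t, hst using Nat.le_induction with
  | base => exact Finset.Subset.refl _
  | succ t hst ih => exact (h t (by omega)).trans (ih (by omega))

variable {P : Par} {ν : V → ℝ} {σ : Dat V}

theorem typeU_mono {n s : ℕ} {ξ ξ' : ℝ} {S : Finset ℕ} (hν : ∀ v, 0 ≤ ν v) (hξ : ξ ≤ ξ')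
    (h : TypeU P G ν σ n ξ S s) : TypeU P G ν σ n ξ' S s := by
  intro W' hW' hm
  refine h W' hW' (le_trans ?_ hm)
  exact mul_le_mul_of_nonneg_right hξ (ms_nonneg hν _)

theorem labOK_mono {H H' : ℝ} {S : Finset ℕ} {s : ℕ} (hH : H ≤ H') (h : LabOK P G σ H S s) :
    LabOK P G σ H' S s where
  mem := h.mem
  adj := h.adj
  card := fun t ht => (h.card t ht).trans hH
  conf := h.conf
  prop := h.prop

end

end Mono

open Mono in
/-- Module `Mono`. -/
theorem stMono : StMono := by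
  intro P n T H H' ξ ξ' V _ G ν σ hH hξ h
  have hms := fun A => ms_nonneg h.ν0 A
  have hsc : ∀ s < n, ∀ x, 0 ≤ sc G σ s x := fun s hs x => nm_nonneg (h.ρ0 s hs) x
  refine
    { ν0 := h.ν0
      ν1 := h.ν1
      al := fun I hI => (h.al I hI).trans hξ
      W0 := h.W0
      sub := h.sub
      pos := h.pos.trans (mul_le_mul_of_nonneg_right hH (hms _))
      ρ0 := h.ρ0
      ρW := h.ρW
      ρ1 := h.ρ1
      ρS := h.ρS
      ap := h.ap
      dH := fun s hs w hw => (h.dH s hs w hw).trans hH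
      dξ := fun s hs w hw => (h.dξ s hs w hw).trans hξ
      at' := fun s hs x hx =>
        (h.at' s hs x hx).trans (mul_le_mul_of_nonneg_right hξ (hsc s hs x))
      drop := fun c s hc hs x hx =>
        (h.drop c s hc hs x hx).trans (mul_le_mul_of_nonneg_right hξ (hsc c (hc.trans hs) x))
      far := h.far
      sg2 := h.sg2
      sgS := h.sgS
      ker := ?_
      itm := ?_
      lab := ?_
      sep := h.sep }
  · intro s hs C hC j hj hj' hM
    obtain ⟨m, l, h1, h2, h3, h4, h5⟩ := h.ker s hs C hC j hj hj' hM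
    refine ⟨m, l, h1, h2, h3, h4, fun x hx => (h5 x hx).trans ?_⟩
    exact mul_le_mul_of_nonneg_right (mul_le_mul_of_nonneg_right hH (hms _)) (hsc s hs x)
  · intro s hs S hS hSm hT
    rcases h.itm s hs S hS hSm hT with h1 | ⟨h1, h2 | h2 | h2 | h2⟩
    · exact Or.inl h1
    · exact Or.inr ⟨h1, Or.inl h2⟩
    · exact Or.inr ⟨h1, Or.inr (Or.inl (typeU_mono h.ν0 hξ h2))⟩
    · exact Or.inr ⟨h1, Or.inr (Or.inr (Or.inl h2))⟩
    · exact Or.inr ⟨h1, Or.inr (Or.inr (Or.inr h2))⟩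
  · intro S s hB
    obtain ⟨h1, h2, h3, h4⟩ := h.lab S s hB
    exact ⟨h1, h2, h3, labOK_mono hH h4⟩

end Pool.Agent.Lib.FGF
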