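import Pool.Agent.Lib.FGF.Stmts
import Pool.Agent.Lib.GSR3.Sample

/-!
# The fractional Gyarfas-Sumner conjecture: windows are small
-/

set_option autoImplicit false

namespace Pool.Agent.Lib.FGF

open Finset Classical
open Pool.Agent.Lib.FracGS (nb wnb TAdj pat bern mem_nb bern_nonneg sum_bern sum_bern_filter)
open Pool.Agent.Lib.GSR3 (Stab Small Tree once mem_once one_sub_sum_le_prod small_of_average)
open Pool.Agent.Lib.GSR5 (NLC LabCov)

namespace NSAux

/-- The part covered exactly once has a cover which is exact up to labels. -/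
theorem once_small {V : Type} [Fintype V] {G : SimpleGraph V} {κ C0 : ℝ}
    (hκ : ∀ v, Small G (nb G Finset.univ v) κ) (hN : NLC G Finset.univ κ C0) (Z : Finset V) :
    Small G (once G Finset.univ Z) C0 := by
  have h : ∀ u, ∃ x, u ∈ once G Finset.univ Z →
      (x ∈ Z ∧ G.Adj x u ∧ ∀ z, z ∈ Z → G.Adj z u → z = x) := by
    intro u
    by_cases hu : u ∈ once G Finset.univ Z
    · obtain ⟨x, -, h2, h3, h4⟩ := ((mem_once G Finset.univ Z u).1 hu).2.2
      exact ⟨x, fun _ => ⟨h2, h3, fun z hz => h4 z (Finset.mem_univ z) hz⟩⟩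
    · exact ⟨u, fun h => absurd h hu⟩
  choose x hx using h
  refine hN _ x x ⟨Finset.subset_univ _, fun a _ => Finset.mem_univ _, ?_,
    fun a ha => (hx a ha).2.1, ?_⟩ ?_
  · intro a ha b hb hab
    have h1 := (hx a ha).1
    rw [hab] at h1
    exact ((mem_once G Finset.univ Z b).1 hb).2.1 h1
  · intro a ha b hb hab
    exact (hx b hb).2.2 (x a) (hx a ha).1 hab
  · intro u
    refine (hκ u).mono_set fun a ha => ?_
    obtain ⟨ha1, ha2⟩ := Finset.mem_filter.1 ha
    rw [mem_nb]
    refine ⟨Finset.mem_univ _, ?_⟩
    rw [← ha2]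
    exact (hx a ha1).2.1

end NSAux

open NSAux

theorem stNS : StNS := by
  intro κ C0 _ hC0 V _ G hnb hN r hr a b ha hab
  have hb : 0 < b := ha.trans_le hab
  let p : V → ℝ := fun v => min (1 / 2) (r v / (2 * b))
  have hp0 : ∀ v, 0 ≤ p v := fun v =>
    le_min (by norm_num) (div_nonneg (hr v) (by linarith))
  have hp2 : ∀ v, p v ≤ 1 / 2 := fun v => min_le_left _ _
  have hp1 : ∀ v, p v ≤ 1 := fun v => (hp2 v).trans (by norm_num)
  have key : ∀ x ∈ Finset.univ.filter (fun x => a ≤ nm G r x ∧ nm G r x ≤ b),
      a / (8 * b) ≤ ∑ Z : Finset V, if x ∈ once G Finset.univ Z then bern p Z else 0 := by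
    intro x hx
    obtain ⟨-, hxa, hxb⟩ := Finset.mem_filter.1 hx
    have hnm : nm G r x = ∑ z ∈ nb G Finset.univ x, r z := rfl
    -- the probabilities of the neighbours
    have hpz : ∀ z ∈ nb G Finset.univ x, p z = r z / (2 * b) := by
      intro z hz
      refine min_eq_right ?_
      have h1 : r z ≤ nm G r x := by
        rw [hnm]
        exact Finset.single_le_sum (fun i _ => hr i) hz
      rw [div_le_div_iff₀ (by linarith) (by norm_num)]
      linarith
    have hsumr : ∑ z ∈ nb G Finset.univ x, p z = nm G r x / (2 * b) := by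
      rw [Finset.sum_congr rfl hpz, ← Finset.sum_div, hnm]
    have hsum1 : ∑ z ∈ nb G Finset.univ x, p z ≤ 1 / 2 := by
      rw [hsumr, div_le_div_iff₀ (by linarith) (by norm_num)]
      linarith
    -- the events
    let W : V → Finset V := fun z => insert x ((nb G Finset.univ x).erase z)
    have hsum : ∀ z ∈ nb G Finset.univ x, p z / 4 ≤
        ∑ Z ∈ (Finset.univ : Finset (Finset V)).filter
          (fun Z => {z} ⊆ Z ∧ Disjoint (W z) Z), bern p Z := by
      intro z hz
      have hzx : z ≠ x := by
        rintro rfl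
        exact G.loopless.irrefl _ (mem_nb.1 hz).2
      have hdis : Disjoint ({z} : Finset V) (W z) := by
        rw [Finset.disjoint_singleton_left]
        simp [W, hzx]
      rw [sum_bern_filter p {z} (W z) hdis, Finset.prod_singleton]
      have hna : x ∉ (nb G Finset.univ x).erase z := by
        intro h
        exact G.loopless.irrefl _ (mem_nb.1 (Finset.mem_of_mem_erase h)).2
      have h1 := (one_sub_sum_le_prod ((nb G Finset.univ x).erase z) p hp0 hp1).1
      have h4 : ∑ i ∈ (nb G Finset.univ x).erase z, p i ≤ ∑ i ∈ nb G Finset.univ x, p i :=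
        Finset.sum_le_sum_of_subset_of_nonneg (Finset.erase_subset _ _) fun i _ _ => hp0 i
      have h5 : 1 / 2 ≤ ∏ i ∈ (nb G Finset.univ x).erase z, (1 - p i) := by linarith
      have h6 : ∏ i ∈ W z, (1 - p i) =
          (1 - p x) * ∏ i ∈ (nb G Finset.univ x).erase z, (1 - p i) :=
        Finset.prod_insert hna
      rw [h6]
      have h7 : 1 / 2 ≤ 1 - p x := by linarith [hp2 x]
      have h8 : 1 / 4 ≤ (1 - p x) * ∏ i ∈ (nb G Finset.univ x).erase z, (1 - p i) := by
        nlinarith
      have h9 := mul_le_mul_of_nonneg_left h8 (hp0 z)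
      linarith
    have hpt : ∀ Z : Finset V, ∑ z ∈ nb G Finset.univ x,
        (if {z} ⊆ Z ∧ Disjoint (W z) Z then bern p Z else 0) ≤
          if x ∈ once G Finset.univ Z then bern p Z else 0 := by
      intro Z
      have hbz := bern_nonneg hp0 hp1 Z
      by_cases hex : ∃ z ∈ nb G Finset.univ x, {z} ⊆ Z ∧ Disjoint (W z) Z
      · obtain ⟨z, hz, hzZ, hWZ⟩ := hex
        rw [Finset.singleton_subset_iff] at hzZ
        have huniq : ∀ y ∈ nb G Finset.univ x, y ∈ Z → y = z := by
          intro y hy hyZ
          by_contra hne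
          refine Finset.disjoint_left.1 hWZ ?_ hyZ
          exact Finset.mem_insert_of_mem (Finset.mem_erase.2 ⟨hne, hy⟩)
        have hmem : x ∈ once G Finset.univ Z := by
          refine (mem_once G Finset.univ Z x).2 ⟨Finset.mem_univ _, fun haZ => ?_, z,
            Finset.mem_univ _, hzZ, (mem_nb.1 hz).2.symm,
            fun y _ hyZ hyx => huniq y (mem_nb.2 ⟨Finset.mem_univ _, hyx.symm⟩) hyZ⟩
          exact Finset.disjoint_left.1 hWZ (Finset.mem_insert_self _ _) haZ
        rw [if_pos hmem]
        have : ∑ y ∈ nb G Finset.univ x, (if {y} ⊆ Z ∧ Disjoint (W y) Z then bern p Z else 0) ≤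
            ∑ y ∈ nb G Finset.univ x, (if y = z then bern p Z else 0) := by
          refine Finset.sum_le_sum fun y hy => ?_
          by_cases hyx : y = z
          · rw [if_pos hyx]
            split_ifs
            · exact le_rfl
            · exact hbz
          · rw [if_neg hyx, if_neg]
            rintro ⟨h1, _⟩
            exact hyx (huniq y hy (Finset.singleton_subset_iff.1 h1))
        refine this.trans ?_
        rw [Finset.sum_ite_eq' (nb G Finset.univ x) z, if_pos hz]
      · push Not at hex
        rw [Finset.sum_eq_zero]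
        · split_ifs
          · exact hbz
          · exact le_rfl
        · intro z hz
          rw [if_neg]
          rintro ⟨h1, h2⟩
          exact hex z hz h1 h2
    calc a / (8 * b) ≤ nm G r x / (8 * b) := by
          exact div_le_div_of_nonneg_right hxa (by linarith)
      _ = ∑ z ∈ nb G Finset.univ x, p z / 4 := by
          rw [← Finset.sum_div, hsumr]
          field_simp
          ring
      _ ≤ ∑ z ∈ nb G Finset.univ x, ∑ Z ∈ (Finset.univ : Finset (Finset V)).filter
          (fun Z => {z} ⊆ Z ∧ Disjoint (W z) Z), bern p Z := Finset.sum_le_sum hsum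
      _ = ∑ Z : Finset V, ∑ z ∈ nb G Finset.univ x,
          (if {z} ⊆ Z ∧ Disjoint (W z) Z then bern p Z else 0) := by
        rw [Finset.sum_comm]
        refine Finset.sum_congr rfl fun z _ => ?_
        rw [Finset.sum_filter]
      _ ≤ _ := Finset.sum_le_sum fun Z _ => hpt Z
  have hδ : 0 < a / (8 * b) := by positivity
  have hres := small_of_average (G := G) (bern p) (bern_nonneg hp0 hp1) (sum_bern p).le
    (once G Finset.univ) hδ hC0 (once_small hnb hN) key
  refine hres.mono_const (le_of_eq ?_)
  field_simp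

end Pool.Agent.Lib.FGF
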