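import Pool.Agent.Lib.FGF.Stmts3

/-!
# The fractional Gyarfas-Sumner conjecture: the Nash pair
-/

set_option autoImplicit false

namespace Pool.Agent.Lib.FGF

open Finset Classical
open Pool.Agent.Lib.FracGS (nb wnb TAdj pat)
open Pool.Agent.Lib.GSR3 (Stab Small Tree)

namespace Nash

variable {V : Type} [Fintype V] (G : SimpleGraph V)

theorem nm_eq (r : V → ℝ) (x : V) : nm G r x = ∑ u, if G.Adj x u then r u else 0 := by
  rw [nm, wnb, nb, Finset.sum_filter]

theorem nm_nonneg {r : V → ℝ} (hr : ∀ v, 0 ≤ r v) (x : V) : 0 ≤ nm G r x := by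
  rw [nm_eq]
  refine Finset.sum_nonneg fun u _ => ?_
  split_ifs
  · exact hr u
  · exact le_rfl

/-- The laws on `W`. -/
def Lw (W : Finset V) : Set (V → ℝ) := stdSimplex ℝ V ∩ {p | ∀ v, v ∉ W → p v = 0}

theorem isCompact_Lw (W : Finset V) : IsCompact (Lw W) := by
  refine (isCompact_stdSimplex ℝ V).inter_right ?_
  simp only [Set.setOf_forall]
  refine isClosed_iInter fun v => isClosed_iInter fun _ => ?_
  exact isClosed_eq (continuous_apply v) continuous_const

/-- The product. -/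
noncomputable def fn (ν : V → ℝ) (W : Finset V) (p : V → ℝ) : ℝ := ∏ x ∈ W, (nm G p x) ^ (ν x)

theorem continuous_nm (x : V) : Continuous fun p : V → ℝ => nm G p x := by
  have h : (fun p : V → ℝ => nm G p x) = fun p => ∑ u ∈ nb G Finset.univ x, p u := rfl
  rw [h]
  exact continuous_finsetSum _ fun u _ => continuous_apply u

theorem continuous_fn {ν : V → ℝ} (hν : ∀ v, 0 ≤ ν v) (W : Finset V) :
    Continuous (fn G ν W) := by
  have h : fn G ν W = fun p => ∏ x ∈ W, (nm G p x) ^ (ν x) := rfl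
  rw [h]
  exact continuous_finsetProd _ fun x _ =>
    Continuous.rpow_const (continuous_nm G x) fun _ => Or.inr (hν x)

/-- The relative derivative of the factor at `x` in the direction `w`. -/
noncomputable def cc (p : V → ℝ) (w x : V) : ℝ := (if G.Adj x w then 1 else 0) / nm G p x - 1

/-- The law `(1 - t) p + t δ_w`. -/
noncomputable def mv (p : V → ℝ) (w : V) (t : ℝ) : V → ℝ :=
  fun v => (1 - t) * p v + t * if v = w then 1 else 0

theorem nm_mv (p : V → ℝ) (w : V) (t : ℝ) (x : V) :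
    nm G (mv p w t) x = (1 - t) * nm G p x + t * if G.Adj x w then 1 else 0 := by
  rw [nm_eq, nm_eq, Finset.mul_sum]
  have h : (t * if G.Adj x w then (1 : ℝ) else 0) =
      ∑ u, if u = w then (t * if G.Adj x u then (1 : ℝ) else 0) else 0 := by
    rw [Finset.sum_ite_eq' Finset.univ w fun u => t * if G.Adj x u then (1 : ℝ) else 0]
    simp
  rw [h, ← Finset.sum_add_distrib]
  refine Finset.sum_congr rfl fun u _ => ?_
  rw [mv]
  split_ifs <;> ring

theorem mv_mem {W : Finset V} {p : V → ℝ} (hp : p ∈ Lw W) {w : V} (hw : w ∈ W) {t : ℝ}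
    (h0 : 0 ≤ t) (h1 : t ≤ 1) : mv p w t ∈ Lw W := by
  obtain ⟨⟨hp0, hp1⟩, hp2⟩ := hp
  refine ⟨⟨fun v => ?_, ?_⟩, fun v hv => ?_⟩
  · rw [mv]
    refine add_nonneg (mul_nonneg (by linarith) (hp0 v)) (mul_nonneg h0 ?_)
    split_ifs
    · exact zero_le_one
    · exact le_rfl
  · have h : ∑ v, mv p w t v = (1 - t) * ∑ v, p v + t * ∑ v, (if v = w then (1 : ℝ) else 0) := by
      rw [Finset.mul_sum, Finset.mul_sum, ← Finset.sum_add_distrib]
      rfl
    rw [h, hp1, Finset.sum_ite_eq' Finset.univ w fun _ => (1 : ℝ), if_pos (Finset.mem_univ w)]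
    ring
  · have h : v ≠ w := by
      rintro rfl
      exact hv hw
    have h2 : p v = 0 := hp2 v hv
    rw [mv, h2, if_neg h]
    ring

theorem pos_cc {p : V → ℝ} (hp : ∀ v, 0 ≤ p v) (w x : V) {t : ℝ} (h0 : 0 ≤ t) (h1 : t < 1) :
    0 < 1 + t * cc G p w x := by
  have h : -1 ≤ cc G p w x := by
    have h2 : (0 : ℝ) ≤ (if G.Adj x w then 1 else 0) / nm G p x := by
      refine div_nonneg ?_ (nm_nonneg G hp x)
      split_ifs
      · exact zero_le_one
      · exact le_rfl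
    rw [cc]
    linarith
  nlinarith

theorem fac_mv {ν p : V → ℝ} (hp : ∀ v, 0 ≤ p v) (w x : V) (hν : 0 ≤ ν x)
    (hx : 0 < ν x → 0 < nm G p x) {t : ℝ} (h0 : 0 ≤ t) (h1 : t < 1) :
    nm G (mv p w t) x ^ ν x = nm G p x ^ ν x * (1 + t * cc G p w x) ^ ν x := by
  rcases hν.eq_or_lt with h | h
  · rw [← h, Real.rpow_zero, Real.rpow_zero, Real.rpow_zero, one_mul]
  · rw [← Real.mul_rpow (nm_nonneg G hp x) (pos_cc G hp w x h0 h1).le]
    congr 1
    have h2 := (hx h).ne'
    rw [nm_mv, cc]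
    field_simp
    ring

theorem kkt_log {ν p : V → ℝ} {W : Finset V} (hν : ∀ v, 0 ≤ ν v) (hp : p ∈ Lw W)
    (hm : ∀ q ∈ Lw W, fn G ν W q ≤ fn G ν W p) (hf : 0 < fn G ν W p)
    (hx : ∀ x ∈ W, 0 < ν x → 0 < nm G p x) {w : V} (hw : w ∈ W) {t : ℝ} (h0 : 0 < t)
    (h1 : t < 1) : ∑ x ∈ W, ν x * (cc G p w x / (1 + t * cc G p w x)) ≤ 0 := by
  have h2 := hm _ (mv_mem hp hw h0.le h1.le)
  have h3 : fn G ν W (mv p w t) = fn G ν W p * ∏ x ∈ W, (1 + t * cc G p w x) ^ ν x := by
    rw [fn, fn, ← Finset.prod_mul_distrib]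
    exact Finset.prod_congr rfl fun x hxW => fac_mv G hp.1.1 w x (hν x) (hx x hxW) h0.le h1
  rw [h3] at h2
  have h4 : ∏ x ∈ W, (1 + t * cc G p w x) ^ ν x ≤ 1 := by
    by_contra h
    rw [not_le] at h
    nlinarith
  have h5 : ∀ x ∈ W, 0 < (1 + t * cc G p w x) ^ ν x := fun x _ =>
    Real.rpow_pos_of_pos (pos_cc G hp.1.1 w x h0.le h1) _
  have h6 : ∑ x ∈ W, ν x * Real.log (1 + t * cc G p w x) ≤ 0 := by
    have h7 := Real.log_nonpos (Finset.prod_nonneg fun x hxW => (h5 x hxW).le) h4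
    rw [Real.log_prod fun x hxW => (h5 x hxW).ne'] at h7
    refine le_trans (le_of_eq ?_) h7
    refine Finset.sum_congr rfl fun x _ => ?_
    rw [Real.log_rpow (pos_cc G hp.1.1 w x h0.le h1)]
  have h8 : t * ∑ x ∈ W, ν x * (cc G p w x / (1 + t * cc G p w x)) ≤
      ∑ x ∈ W, ν x * Real.log (1 + t * cc G p w x) := by
    rw [Finset.mul_sum]
    refine Finset.sum_le_sum fun x _ => ?_
    have h9 := pos_cc G hp.1.1 w x h0.le h1
    have h10 := Real.one_sub_inv_le_log_of_pos h9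
    have h11 : t * (ν x * (cc G p w x / (1 + t * cc G p w x))) =
        ν x * (1 - (1 + t * cc G p w x)⁻¹) := by
      field_simp
      ring
    rw [h11]
    exact mul_le_mul_of_nonneg_left h10 (hν x)
  by_contra h
  rw [not_le] at h
  have := mul_pos h0 h
  linarith

theorem kkt_lim {ν p : V → ℝ} {W : Finset V} (hν : ∀ v, 0 ≤ ν v) (hp : p ∈ Lw W)
    (hm : ∀ q ∈ Lw W, fn G ν W q ≤ fn G ν W p) (hf : 0 < fn G ν W p)
    (hx : ∀ x ∈ W, 0 < ν x → 0 < nm G p x) {w : V} (hw : w ∈ W) :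
    ∑ x ∈ W, ν x * cc G p w x ≤ 0 := by
  have h1 : Filter.Tendsto (fun t : ℝ => ∑ x ∈ W, ν x * (cc G p w x / (1 + t * cc G p w x)))
      (nhdsWithin 0 (Set.Ioi 0)) (nhds (∑ x ∈ W, ν x * (cc G p w x / (1 + 0 * cc G p w x)))) := by
    apply Filter.Tendsto.mono_left _ nhdsWithin_le_nhds
    refine tendsto_finsetSum _ fun x _ => ?_
    refine Filter.Tendsto.const_mul _ (Filter.Tendsto.div tendsto_const_nhds ?_ ?_)
    · exact Filter.Tendsto.const_add _ (Filter.Tendsto.mul_const _ Filter.tendsto_id)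
    · rw [zero_mul, add_zero]
      exact one_ne_zero
  have h2 : ∀ᶠ t : ℝ in nhdsWithin 0 (Set.Ioi 0),
      ∑ x ∈ W, ν x * (cc G p w x / (1 + t * cc G p w x)) ≤ 0 := by
    have h3 : Set.Ioo (0 : ℝ) 1 ∈ nhdsWithin (0 : ℝ) (Set.Ioi 0) :=
      Ioo_mem_nhdsGT zero_lt_one
    filter_upwards [h3] with t ht
    exact kkt_log G hν hp hm hf hx hw ht.1 ht.2
  have h4 := le_of_tendsto h1 h2
  simpa using h4

theorem nm_zt (ν p : V → ℝ) (W : Finset V) (w : V) :
    nm G (zt G ν p W) w = ∑ x ∈ W, ν x * ((if G.Adj x w then 1 else 0) / nm G p x) := by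
  rw [nm_eq]
  have h : ∑ x ∈ W, ν x * ((if G.Adj x w then (1 : ℝ) else 0) / nm G p x) =
      ∑ x, if x ∈ W then ν x * ((if G.Adj x w then (1 : ℝ) else 0) / nm G p x) else 0 := by
    rw [Finset.sum_ite_mem, Finset.univ_inter]
  rw [h]
  refine Finset.sum_congr rfl fun u _ => ?_
  rw [zt]
  by_cases h1 : u ∈ W
  · rw [if_pos h1, if_pos h1]
    by_cases h2 : G.Adj w u
    · rw [if_pos h2, if_pos h2.symm]
      ring
    · rw [if_neg h2, if_neg fun h3 => h2 h3.symm]
      ring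
  · rw [if_neg h1, if_neg h1, ite_self]

end Nash

open Nash in
theorem stNash : StNash := by
  intro V _ G ν W hν hW hiso
  have hne : W.Nonempty := by
    by_contra h
    rw [Finset.not_nonempty_iff_eq_empty] at h
    rw [ms, h, Finset.sum_empty] at hW
    exact lt_irrefl _ hW
  have hcard : (0 : ℝ) < W.card := by exact_mod_cast hne.card_pos
  -- the uniform law
  obtain ⟨u, hu⟩ : ∃ u : V → ℝ, u = fun v => if v ∈ W then (W.card : ℝ)⁻¹ else 0 := ⟨_, rfl⟩
  have hu0 : ∀ v, 0 ≤ u v := by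
    intro v
    rw [hu]
    dsimp only
    split_ifs
    · positivity
    · exact le_rfl
  have huL : u ∈ Lw W := by
    refine ⟨⟨hu0, ?_⟩, fun v hv => ?_⟩
    · rw [hu, Finset.sum_ite_mem, Finset.univ_inter, Finset.sum_const, nsmul_eq_mul,
        mul_inv_cancel₀ hcard.ne']
    · rw [hu]
      exact if_neg hv
  have hun : ∀ x ∈ W, 0 < nm G u x := by
    intro x hx
    obtain ⟨y, hy, hxy⟩ := hiso x hx
    rw [nm_eq]
    refine Finset.sum_pos' (fun v _ => ?_) ⟨y, Finset.mem_univ y, ?_⟩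
    · split_ifs
      · exact hu0 v
      · exact le_rfl
    · rw [if_pos hxy, hu]
      dsimp only
      rw [if_pos hy]
      positivity
  have hfu : 0 < fn G ν W u := Finset.prod_pos fun x hx => Real.rpow_pos_of_pos (hun x hx) _
  obtain ⟨p, hp, hmax⟩ := (isCompact_Lw W).exists_isMaxOn ⟨u, huL⟩
    (continuous_fn G hν W).continuousOn
  have hm : ∀ q ∈ Lw W, fn G ν W q ≤ fn G ν W p := fun q hq => hmax hq
  have hf : 0 < fn G ν W p := hfu.trans_le (hm u huL)
  have hx : ∀ x ∈ W, 0 < ν x → 0 < nm G p x := by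
    intro x hx hνx
    rcases (nm_nonneg G hp.1.1 x).eq_or_lt with h | h
    · exfalso
      have h2 : fn G ν W p = 0 := by
        refine Finset.prod_eq_zero hx ?_
        rw [← h, Real.zero_rpow hνx.ne']
      rw [h2] at hf
      exact lt_irrefl _ hf
    · exact h
  have hle : ∀ w ∈ W, nm G (zt G ν p W) w ≤ ms ν W := by
    intro w hw
    have h1 := kkt_lim G hν hp hm hf hx hw
    have h2 : ∑ x ∈ W, ν x * cc G p w x = nm G (zt G ν p W) w - ms ν W := by
      rw [nm_zt, ms, ← Finset.sum_sub_distrib]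
      refine Finset.sum_congr rfl fun x _ => ?_
      rw [cc]
      ring
    rw [h2] at h1
    linarith
  have hpW : ∀ v, p v ≠ 0 → v ∈ W := by
    intro v hv
    by_contra h
    exact hv (hp.2 v h)
  refine ⟨p, hp.1.1, hpW, hp.1.2, hx, hle, ?_⟩
  -- equality on the support
  have hsum : ∑ w, p w * nm G (zt G ν p W) w = ms ν W := by
    have h1 : ∀ w, p w * nm G (zt G ν p W) w =
        ∑ x ∈ W, ν x / nm G p x * (if G.Adj x w then p w else 0) := by
      intro w
      rw [nm_zt, Finset.mul_sum]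
      refine Finset.sum_congr rfl fun x _ => ?_
      split_ifs <;> ring
    rw [Finset.sum_congr rfl fun w _ => h1 w, Finset.sum_comm, ms]
    refine Finset.sum_congr rfl fun x hxW => ?_
    rw [← Finset.mul_sum, ← nm_eq]
    rcases (hν x).eq_or_lt with h | h
    · rw [← h, zero_div, zero_mul]
    · rw [div_mul_cancel₀ _ (hx x hxW h).ne']
  have hz : ∑ w, p w * (ms ν W - nm G (zt G ν p W) w) = 0 := by
    have h1 : ∑ w, p w * (ms ν W - nm G (zt G ν p W) w) =
        (∑ w, p w) * ms ν W - ∑ w, p w * nm G (zt G ν p W) w := by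
      rw [Finset.sum_mul, ← Finset.sum_sub_distrib]
      exact Finset.sum_congr rfl fun w _ => by ring
    rw [h1, hsum, hp.1.2]
    ring
  have hnn : ∀ w ∈ Finset.univ, 0 ≤ p w * (ms ν W - nm G (zt G ν p W) w) := by
    intro w _
    by_cases h : p w = 0
    · rw [h, zero_mul]
    · exact mul_nonneg (hp.1.1 w) (sub_nonneg.2 (hle w (hpW w h)))
  intro w hw
  have h1 := (Finset.sum_eq_zero_iff_of_nonneg hnn).1 hz w (Finset.mem_univ w)
  rcases mul_eq_zero.1 h1 with h2 | h2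
  · exact absurd h2 hw
  · linarith

end Pool.Agent.Lib.FGF
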