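import Pool.Agent.Lib.FGF.Stmts2

/-!
# The fractional Gyarfas-Sumner conjecture: a pool all of whose items have type P
-/

set_option autoImplicit false

namespace Pool.Agent.Lib.FGF

open Finset Classical
open Pool.Agent.Lib.GSR3 (Stab Small Tree)

namespace PCase

section

variable {V : Type} [Fintype V] {G : SimpleGraph V}

theorem Dom.anti {M j : ℕ} {v : V} {m : V → ℝ} {L L' : Finset V} (h : Dom G M j v m L)
    (hL : L' ⊆ L) : Dom G M j v m L' := by
  intro φ hφ hv hall
  exact h φ hφ hv fun u hu hu' => ⟨hL (hall u hu hu').1, (hall u hu hu').2⟩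

theorem HasMS.anti {M j : ℕ} {B : ℝ} {W W' : Finset V} {a : ℕ → V → ℝ} {C : Finset ℕ}
    (h : HasMS G M j B W a C) (hW : W' ⊆ W) : HasMS G M j B W' a C := by
  obtain ⟨m, hm⟩ := h
  exact ⟨m, hm.nn, fun v hv => Dom.anti (hm.dom v (hW hv)) hW,
    fun v hv x hx => hm.bd v (hW hv) x (hW hx)⟩

/-- Without trees there is the zero master system. -/
theorem hasMS_zero {P : Par} (hC : Cls P G) (W : Finset V) (a : ℕ → V → ℝ) :
    HasMS G P.M P.h P.B W a ∅ := by
  refine ⟨fun _ _ => 0, fun _ _ => le_rfl, fun v _ φ hφ _ _ => hC.tree φ hφ, fun v _ x _ => ?_⟩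
  have h0 : cm G (fun _ : V => (0 : ℝ)) x = 0 := by
    simp [cm, nm, FracGS.wnb]
  rw [h0, Finset.sum_empty, mul_zero]

theorem W_anti {P : Par} {n : ℕ} {T : Finset (Finset ℕ)} {H ξ : ℝ} {ν : V → ℝ} {σ : Dat V}
    (hS : Sys P n T H ξ G ν σ) {s t : ℕ} (hst : s ≤ t) (ht : t ≤ n) : σ.W t ⊆ σ.W s := by
  induction t, hst using Nat.le_induction with
  | base => exact subset_rfl
  | succ t hst ih => exact (hS.sub t (by omega)).trans (ih (by omega))

/-- The ladder: `k` levels of a master system are lost at every stage. -/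
theorem ladder (P : Par) (n : ℕ) (T : Finset (Finset ℕ)) (H ξ : ℝ) (ν : V → ℝ) (σ : Dat V)
    (hC : Cls P G) (hS : Sys P n T H ξ G ν σ) (k q : ℕ) (hk : 1 ≤ k) (hq : 1 ≤ q)
    (hkq : k * q = P.h) (hqm : q ≤ P.m + 1) (A : Finset ℕ) (hA : A ⊆ Finset.range n)
    (hcard : P.m + q ≤ A.card)
    (hty : ∀ s ∈ A, ∀ S, S ⊆ A → S ⊆ Finset.range s → S.card = P.m → ∀ C, C ⊆ S →
      (∀ j, 1 ≤ j → j + k ≤ P.h → HasMS G P.M (j + k) P.B (σ.W s) (sc G σ) C →
        HasMS G P.M j P.B (σ.W (s + 1)) (sc G σ) (insert s C)) ∧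
        ¬ HasMS G P.M k P.B (σ.W s) (sc G σ) C) : False := by
  -- the elements of `A` in increasing order
  obtain ⟨e, hem, heA⟩ : ∃ e : ℕ → ℕ, (∀ i j, i < j → j < A.card → e i < e j) ∧
      ∀ i < A.card, e i ∈ A := by
    refine ⟨fun i => if h : i < A.card then A.orderEmbOfFin rfl ⟨i, h⟩ else 0, ?_, ?_⟩
    · intro i j hij hj
      have hi : i < A.card := hij.trans hj
      simp only [hi, hj, dif_pos]
      exact (A.orderEmbOfFin rfl).strictMono hij
    · intro i hi
      simp only [hi, dif_pos]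
      exact Finset.orderEmbOfFin_mem A rfl _
  have hen : ∀ i < A.card, e i < n := fun i hi => Finset.mem_range.1 (hA (heA i hi))
  have hinj : ∀ i < A.card, ∀ j < A.card, e i = e j → i = j := by
    intro i hi j hj h
    rcases lt_trichotomy i j with h1 | h1 | h1
    · exact absurd h (hem i j h1 hj).ne
    · exact h1
    · exact absurd h (hem j i h1 hi).ne'
  -- the items
  have hitem : ∀ i < q, ∀ C, C ⊆ (Finset.Ico P.m (P.m + i)).image e →
      (∀ j, 1 ≤ j → j + k ≤ P.h → HasMS G P.M (j + k) P.B (σ.W (e (P.m + i))) (sc G σ) C →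
        HasMS G P.M j P.B (σ.W (e (P.m + i) + 1)) (sc G σ) (insert (e (P.m + i)) C)) ∧
        ¬ HasMS G P.M k P.B (σ.W (e (P.m + i))) (sc G σ) C := by
    intro i hi C hC
    have hlt : P.m + i < A.card := by omega
    refine hty (e (P.m + i)) (heA _ hlt) ((Finset.Ico i (P.m + i)).image e) ?_ ?_ ?_ C
      (hC.trans (Finset.image_subset_image (Finset.Ico_subset_Ico (by omega) le_rfl)))
    · intro x hx
      obtain ⟨t, ht, rfl⟩ := Finset.mem_image.1 hx
      rw [Finset.mem_Ico] at ht
      exact heA t (by omega)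
    · intro x hx
      obtain ⟨t, ht, rfl⟩ := Finset.mem_image.1 hx
      rw [Finset.mem_Ico] at ht
      exact Finset.mem_range.2 (hem t _ ht.2 hlt)
    · rw [Finset.card_image_of_injOn, Nat.card_Ico]
      · omega
      · intro x hx y hy hxy
        have hx' := Finset.mem_Ico.1 (Finset.mem_coe.1 hx)
        have hy' := Finset.mem_Ico.1 (Finset.mem_coe.1 hy)
        exact hinj x (by omega) y (by omega) hxy
  -- the induction
  have hind : ∀ i < q, HasMS G P.M (k * (q - i)) P.B (σ.W (e (P.m + i))) (sc G σ)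
      ((Finset.Ico P.m (P.m + i)).image e) := by
    intro i
    induction i with
    | zero =>
      intro _
      have h0 := hasMS_zero hC (σ.W (e (P.m + 0))) (sc G σ)
      rw [Nat.sub_zero, hkq]
      simpa using h0
    | succ i ih =>
      intro hi
      have hi' : i < q := by omega
      have h1 := ih hi'
      have h2 := (hitem i hi' _ subset_rfl).1 (k * (q - (i + 1)))
        (Nat.mul_pos hk (by omega)) (by
          rw [← hkq]
          calc k * (q - (i + 1)) + k = k * (q - (i + 1) + 1) := by ring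
            _ ≤ k * q := Nat.mul_le_mul_left _ (by omega))
      have h3 : k * (q - (i + 1)) + k = k * (q - i) := by
        have : q - i = q - (i + 1) + 1 := by omega
        rw [this]
        ring
      rw [h3] at h2
      have h4 := h2 h1
      have h5 : insert (e (P.m + i)) ((Finset.Ico P.m (P.m + i)).image e) =
          (Finset.Ico P.m (P.m + (i + 1))).image e := by
        rw [← add_assoc, ← Finset.insert_Ico_right_eq_Ico_add_one (by omega),
          Finset.image_insert]
      rw [h5] at h4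
      refine HasMS.anti h4 (W_anti hS ?_ ?_)
      · exact hem (P.m + i) (P.m + (i + 1)) (by omega) (by omega)
      · exact (hen _ (by omega)).le
  have hlast := hind (q - 1) (by omega)
  have h1 : q - (q - 1) = 1 := by omega
  rw [h1, mul_one] at hlast
  exact (hitem (q - 1) (by omega) _ subset_rfl).2 hlast

end

end PCase

open PCase in
theorem stPCase : StPCase := by
  intro P hP n T H ξ V _ G ν σ hC hS A hA hcard hty
  have h2 := hP.h2
  exact ladder P n T H ξ ν σ hC hS 1 P.h le_rfl (by omega) (one_mul _) (by have := hP.hm; omega)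
    A hA hcard fun s hs S h3 h4 h5 C h6 => hty s hs S h3 h4 h5 C h6

end Pool.Agent.Lib.FGF
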