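import Pool.Agent.Lib.FGF.Stmts

/-!
# The fractional Gyarfas-Sumner conjecture: items of type P

A plus sign of an item gives type P on a large part of the last world.
-/

set_option autoImplicit false

namespace Pool.Agent.Lib.FGF

open Finset Classical
open Pool.Agent.Lib.FracGS (nb wnb TAdj pat)
open Pool.Agent.Lib.GSR3 (Stab Small Tree)
open Pool.Agent.Lib.GSR5 (NLC)

namespace PItem

section basic

variable {V : Type} [Fintype V] (G : SimpleGraph V)

lemma nm_eq (r : V → ℝ) (x : V) : nm G r x = ∑ u, if G.Adj x u then r u else 0 := by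
  unfold nm wnb nb
  rw [Finset.sum_filter]

lemma nm_nonneg {r : V → ℝ} (h : ∀ v, 0 ≤ r v) (x : V) : 0 ≤ nm G r x := by
  unfold nm wnb
  exact Finset.sum_nonneg fun v _ => h v

lemma cm_nonneg {r : V → ℝ} (h : ∀ v, 0 ≤ r v) (x : V) : 0 ≤ cm G r x :=
  add_nonneg (h x) (nm_nonneg G h x)

lemma nm_mono {r s : V → ℝ} (h : ∀ v, r v ≤ s v) (x : V) : nm G r x ≤ nm G s x := by
  unfold nm wnb
  exact Finset.sum_le_sum fun v _ => h v

lemma cm_add (r s : V → ℝ) (x : V) :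
    cm G (fun u => r u + s u) x = cm G r x + cm G s x := by
  unfold cm nm wnb
  rw [Finset.sum_add_distrib]
  ring

lemma cm_mul (c : ℝ) (r : V → ℝ) (x : V) : cm G (fun u => c * r u) x = c * cm G r x := by
  unfold cm nm wnb
  rw [← Finset.mul_sum]
  ring

lemma cm_sum (Y : Finset V) (R : V → ℝ) (m : V → V → ℝ) (x : V) :
    cm G (fun u => ∑ y ∈ Y, R y * m y u) x = ∑ y ∈ Y, R y * cm G (m y) x := by
  unfold cm nm wnb
  rw [Finset.sum_comm, ← Finset.sum_add_distrib]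
  refine Finset.sum_congr rfl fun y _ => ?_
  rw [← Finset.mul_sum]
  ring

lemma cm_delta {x y : V} (h : x ≠ y) :
    cm G (fun u => if u = y then (1 : ℝ) else 0) x = if G.Adj x y then 1 else 0 := by
  unfold cm
  rw [nm_eq]
  simp only [if_neg h, zero_add]
  rw [Finset.sum_eq_single y]
  · simp
  · intro b _ hb
    simp [hb]
  · intro h
    exact absurd (Finset.mem_univ _) h

lemma dom_mono {M j : ℕ} {v : V} {m : V → ℝ} {L L' : Finset V} (h : L' ⊆ L)
    (hd : Dom G M j v m L) : Dom G M j v m L' := by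
  intro φ h1 h2 h3
  exact hd φ h1 h2 fun u hu hl => ⟨h (h3 u hu hl).1, (h3 u hu hl).2⟩

omit [Fintype V] in
lemma ms_nonneg {ν : V → ℝ} (h : ∀ v, 0 ≤ ν v) (A : Finset V) : 0 ≤ ms ν A :=
  Finset.sum_nonneg fun v _ => h v

omit [Fintype V] in
lemma ms_mono {ν : V → ℝ} (h : ∀ v, 0 ≤ ν v) {A B : Finset V} (hAB : A ⊆ B) :
    ms ν A ≤ ms ν B :=
  Finset.sum_le_sum_of_subset_of_nonneg hAB fun v _ _ => h v

omit [Fintype V] in
lemma ms_union_le {ν : V → ℝ} (h : ∀ v, 0 ≤ ν v) (A B : Finset V) :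
    ms ν (A ∪ B) ≤ ms ν A + ms ν B := by
  have h1 : ms ν (A ∪ B) + ms ν (A ∩ B) = ms ν A + ms ν B := Finset.sum_union_inter
  have h2 := ms_nonneg h (A ∩ B)
  linarith

omit [Fintype V] in
lemma ms_biUnion_le {ν : V → ℝ} (h : ∀ v, 0 ≤ ν v) {ι : Type} (I : Finset ι)
    (f : ι → Finset V) : ms ν (I.biUnion f) ≤ ∑ i ∈ I, ms ν (f i) := by
  induction I using Finset.induction_on with
  | empty => simp [ms]
  | insert a I ha ih =>
    rw [Finset.biUnion_insert, Finset.sum_insert ha]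
    exact (ms_union_le h _ _).trans (by linarith)

end basic

/-- Lemma A with one constant for all depths. -/
lemma unif (h1 : StLemA) (M h : ℕ) (hM : 1 ≤ M) : ∃ Λ : ℝ, 0 ≤ Λ ∧ ∀ j, 1 ≤ j → j ≤ h →
    ∀ (V : Type) [Fintype V] (G : SimpleGraph V)
    (m : V → ℝ) (L X : Finset V) (v : V), (∀ u, 0 ≤ m u) → X ⊆ L → (∀ c ∈ X, G.Adj v c) →
      Stab G X → Dom G M (j + 1) v m L →
        ∃ l : V → ℝ, (∀ u, 0 ≤ l u) ∧ (∀ u, l u ≠ 0 → u ∈ L) ∧ ∑ u, l u ≤ Λ ∧
          ∀ c ∈ X, cm G m c < 1 →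
            Dom G M j c (fun u => m u + (if u = v then 1 else 0) + l u) L := by
  induction h with
  | zero =>
    refine ⟨0, le_rfl, ?_⟩
    intro j hj hj'
    omega
  | succ h ih =>
    obtain ⟨Λ, hΛ0, hΛ⟩ := ih
    obtain ⟨Λ', hΛ'0, hΛ'⟩ := h1 M (h + 1) hM (by omega)
    refine ⟨max Λ Λ', le_max_of_le_left hΛ0, ?_⟩
    intro j hj hj' V _ G m L X v a1 a2 a3 a4 a5
    by_cases hc : j ≤ h
    · obtain ⟨l, b1, b2, b3, b4⟩ := hΛ j hj hc V G m L X v a1 a2 a3 a4 a5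
      exact ⟨l, b1, b2, b3.trans (le_max_left _ _), b4⟩
    · have : j = h + 1 := by omega
      subst this
      obtain ⟨l, b1, b2, b3, b4⟩ := hΛ' V G m L X v a1 a2 a3 a4 a5
      exact ⟨l, b1, b2, b3.trans (le_max_right _ _), b4⟩

/-- The situation after the choice of the stable fibres. -/
structure Ctx (P : Par) {V : Type} [Fintype V] (G : SimpleGraph V) (ν : V → ℝ) (σ : Dat V)
    (n : ℕ) (S : Finset ℕ) (ξ e : ℝ) (Wa : Finset V) (Gd : V → Finset V) : Prop where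
  e0 : 0 < e
  ν0 : ∀ v, 0 ≤ ν v
  ρ0 : ∀ v, 0 ≤ σ.ρ n v
  ρ1 : ∑ v, σ.ρ n v ≤ 1
  ξ0 : 0 ≤ ξ
  sub : Wa ⊆ σ.W n
  hub : ∀ y, σ.ρ n y ≠ 0 → y ∈ σ.W n ∧ y ∉ Wa
  ap : ∀ x ∈ Wa, 0 < sc G σ n x
  apc : ∀ c ∈ S, ∀ x ∈ σ.W n, 0 < sc G σ c x
  dξ : ∀ w ∈ Wa, nm G (zt G ν (σ.ρ n) Wa) w ≤ ξ
  at' : ∀ x ∈ Wa, ν x ≤ ξ * sc G σ n x
  nS : n ∉ S
  cS : S.card = P.m
  gd : ∀ x ∈ Wa, ∀ y ∈ Gd x, σ.ρ n y ≠ 0 ∧ G.Adj x y ∧ ∀ c ∈ S, P.Γ * sc G σ c x ≤ sc G σ c y
  mass : ∀ x ∈ Wa, e * sc G σ n x ≤ ∑ y ∈ Gd x, σ.ρ n y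
  stb : ∀ y, Stab G (Wa.filter (fun x => y ∈ Gd x))

section ctx

variable {P : Par} {V : Type} [Fintype V] {G : SimpleGraph V} {ν : V → ℝ} {σ : Dat V}
  {n : ℕ} {S : Finset ℕ} {ξ e : ℝ} {Wa : Finset V} {Gd : V → Finset V}

lemma B_pos (hP : P.OK) : 0 < P.B := by
  have h1 := hP.B1
  have hτ : 0 ≤ P.τ := le_trans (by positivity) hP.τ1
  have hκ : 0 ≤ P.κ := zero_le_one.trans hP.κ1
  have hε : 0 ≤ P.ε := hP.ε0.le
  have : 0 ≤ 64 * P.κ * 2 * P.τ / P.ε := by positivity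
  linarith

lemma Γ_pos (hP : P.OK) : 0 < P.Γ := by
  have := hP.Γ4
  linarith

lemma τ_pos (hP : P.OK) : 0 < P.τ := lt_of_lt_of_le (by positivity) hP.τ1

/-- The masters of a good hub are small at the vertices of the world. -/
lemma cm_le (hP : P.OK) (K : Ctx P G ν σ n S ξ e Wa Gd) {C : Finset ℕ} (hC : C ⊆ S) {j : ℕ}
    {m : V → V → ℝ} (hm : MS G P.M j P.B (σ.W n) (sc G σ) C m) {v y x : V} (hv : v ∈ Wa)
    (hy : y ∈ Gd v) (hx : x ∈ Wa) :
    cm G (m y) x ≤ P.B / P.Γ * ∑ c ∈ C, sc G σ c x / sc G σ c v := by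
  have hΓ := Γ_pos hP
  have hB := B_pos hP
  obtain ⟨g1, g2, g3⟩ := K.gd v hv y hy
  have hyW := (K.hub y g1).1
  refine (hm.bd y hyW x (K.sub hx)).trans ?_
  rw [div_mul_eq_mul_div, mul_div_assoc, Finset.sum_div]
  refine mul_le_mul_of_nonneg_left (Finset.sum_le_sum fun c hc => ?_) hB.le
  have h1 : 0 < sc G σ c v := K.apc c (hC hc) v (K.sub hv)
  have h2 : 0 < sc G σ c x := K.apc c (hC hc) x (K.sub hx)
  have h3 := g3 c (hC hc)
  rw [div_div]
  refine div_le_div_of_nonneg_left h2.le (by positivity) ?_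
  rw [mul_comm]
  exact h3

lemma light (hP : P.OK) (K : Ctx P G ν σ n S ξ e Wa Gd) {C : Finset ℕ} (hC : C ⊆ S) {j : ℕ}
    {m : V → V → ℝ} (hm : MS G P.M j P.B (σ.W n) (sc G σ) C m) {v y : V} (hv : v ∈ Wa)
    (hy : y ∈ Gd v) : cm G (m y) v < 1 := by
  have hΓ := Γ_pos hP
  have hB := B_pos hP
  refine (cm_le hP K hC hm hv hy hv).trans_lt ?_
  have h1 : ∑ c ∈ C, sc G σ c v / sc G σ c v = C.card := by
    rw [Finset.sum_congr rfl (g := fun _ => (1 : ℝ))]
    · simp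
    · intro c hc
      exact div_self (K.apc c (hC hc) v (K.sub hv)).ne'
  rw [h1]
  have h2 : (C.card : ℝ) ≤ P.m := by
    rw [← K.cS]
    exact_mod_cast Finset.card_le_card hC
  calc P.B / P.Γ * C.card ≤ P.B / P.Γ * P.m :=
        mul_le_mul_of_nonneg_left h2 (by positivity)
    _ = P.B * P.m / P.Γ := by ring
    _ < 1 := by
        rw [div_lt_one hΓ]
        exact hP.Γ2

/-- One level of a master system is lost. -/
lemma step (h2 : StAvg) (h5 : StPOne) (hP : P.OK) (K : Ctx P G ν σ n S ξ e Wa Gd)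
    (heB : 2 * P.τ / e ≤ P.B) {Λ : ℝ}
    (hΛ0 : 0 ≤ Λ) {j : ℕ} (hj' : j + 1 ≤ P.h)
    (hΛ : ∀ (m : V → ℝ) (L X : Finset V) (v : V), (∀ u, 0 ≤ m u) → X ⊆ L →
      (∀ c ∈ X, G.Adj v c) → Stab G X → Dom G P.M (j + 1) v m L →
        ∃ l : V → ℝ, (∀ u, 0 ≤ l u) ∧ (∀ u, l u ≠ 0 → u ∈ L) ∧ ∑ u, l u ≤ Λ ∧
          ∀ c ∈ X, cm G m c < 1 →
            Dom G P.M j c (fun u => m u + (if u = v then 1 else 0) + l u) L)
    {C : Finset ℕ} (hC : C ⊆ S) (hH : HasMS G P.M (j + 1) P.B (σ.W n) (sc G σ) C) :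
    ∃ E : Finset V, ms ν E ≤ 2 * Λ * ξ ∧ ∀ W', W' ⊆ Wa → (∀ x ∈ W', x ∉ E) →
      HasMS G P.M j P.B W' (sc G σ) (insert n C) := by
  obtain ⟨m, hm⟩ := hH
  have hB := B_pos hP
  have hΓ := Γ_pos hP
  have hτ := τ_pos hP
  have he := K.e0
  have key : ∀ y : V, ∃ l : V → ℝ, (∀ u, 0 ≤ l u) ∧ (∀ u, l u ≠ 0 → u ∈ Wa) ∧
      ∑ u, l u ≤ Λ ∧ (y ∈ σ.W n → ∀ c ∈ Wa.filter (fun x => y ∈ Gd x),
        Dom G P.M j c (fun u => m y u + (if u = y then 1 else 0) + l u) Wa) := by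
    intro y
    by_cases hy : y ∈ σ.W n
    · obtain ⟨l, b1, b2, b3, b4⟩ := hΛ (m y) Wa (Wa.filter (fun x => y ∈ Gd x)) y (hm.nn y)
        (Finset.filter_subset _ _)
        (fun c hc => by
          rw [Finset.mem_filter] at hc
          exact (K.gd c hc.1 y hc.2).2.1.symm) (K.stb y)
        (dom_mono G K.sub (hm.dom y hy))
      refine ⟨l, b1, b2, b3, fun _ c hc => b4 c hc ?_⟩
      rw [Finset.mem_filter] at hc
      exact light hP K hC hm hc.1 hc.2
    · exact ⟨fun _ => 0, fun _ => le_rfl, fun u hu => absurd rfl hu, by simpa using hΛ0,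
        fun h => absurd h hy⟩
  choose l l1 l2 l3 l4 using key
  refine ⟨Wa.filter (fun x => nm G (σ.ρ n) x < ∑ y, σ.ρ n y * cm G (l y) x),
    h5 V G ν (σ.ρ n) Wa ξ Λ l K.ξ0 hΛ0 K.ν0 K.ρ0 K.ρ1 K.ap K.dξ K.at' l1 l2 l3, ?_⟩
  intro W' hW' hE
  -- the exceptional inequality fails
  have hgood : ∀ x ∈ W', ∑ y, σ.ρ n y * cm G (l y) x ≤ sc G σ n x := by
    intro x hx
    by_contra hcon
    push Not at hcon
    exact hE x hx (Finset.mem_filter.2 ⟨hW' hx, hcon⟩)
  have hsum : ∀ v ∈ Wa, 0 < ∑ y ∈ Gd v, σ.ρ n y := fun v hv =>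
    lt_of_lt_of_le (mul_pos he (K.ap v hv)) (K.mass v hv)
  let R : V → V → ℝ := fun v y => σ.ρ n y / ∑ y ∈ Gd v, σ.ρ n y
  let m' : V → V → ℝ := fun v => if v ∈ Wa then
    fun u => P.τ * ∑ y ∈ Gd v, R v y * (m y u + (if u = y then 1 else 0) + l y u)
    else fun _ => 0
  have hR0 : ∀ v ∈ Wa, ∀ y, 0 ≤ R v y := fun v hv y => div_nonneg (K.ρ0 y) (hsum v hv).le
  have hnn : ∀ y u, 0 ≤ m y u + (if u = y then (1 : ℝ) else 0) + l y u := by
    intro y u
    have a1 := hm.nn y u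
    have a2 := l1 y u
    split_ifs <;> linarith
  refine ⟨m', ?_, ?_, ?_⟩
  · intro v x
    simp only [m']
    split_ifs with hv
    · exact mul_nonneg hτ.le (Finset.sum_nonneg fun y _ => mul_nonneg (hR0 v hv y) (hnn y x))
    · exact le_rfl
  · intro v hv
    have hv' := hW' hv
    have hτj : ((P.M + 1 : ℕ) : ℝ) ^ j ≤ P.τ := by
      refine le_trans (pow_le_pow_right₀ ?_ (by omega)) hP.τ1
      exact_mod_cast Nat.succ_le_succ (Nat.zero_le P.M)
    have := h2 P.M j P.τ hτj V G v W' (Gd v) (R v)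
      (fun y u => m y u + (if u = y then 1 else 0) + l y u) (hR0 v hv')
      (by
        simp only [R]
        rw [← Finset.sum_div]
        exact div_self (hsum v hv').ne') hnn
      (fun y hy => dom_mono G hW' (l4 y (K.hub y (K.gd v hv' y hy).1).1 v
        (Finset.mem_filter.2 ⟨hv', hy⟩)))
    simp only [m', if_pos hv']
    exact this
  · intro v hv x hx
    have hv' := hW' hv
    have hx' := hW' hx
    have hs := hsum v hv'
    simp only [m', if_pos hv']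
    rw [cm_mul, cm_sum]
    have hsplit : ∀ y ∈ Gd v, R v y * cm G (fun u => m y u + (if u = y then 1 else 0) + l y u) x
        ≤ R v y * (P.B / P.Γ * ∑ c ∈ C, sc G σ c x / sc G σ c v) +
          (σ.ρ n y * (if G.Adj x y then 1 else 0)) / (∑ y ∈ Gd v, σ.ρ n y) +
          (σ.ρ n y * cm G (l y) x) / (∑ y ∈ Gd v, σ.ρ n y) := by
      intro y hy
      have hne : x ≠ y := by
        rintro rfl
        exact (K.hub x (K.gd v hv' x hy).1).2 hx'
      have e1 : cm G (fun u => m y u + (if u = y then 1 else 0) + l y u) x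
          = cm G (m y) x + (if G.Adj x y then 1 else 0) + cm G (l y) x := by
        rw [cm_add G (fun u => m y u + (if u = y then 1 else 0)) (l y), cm_add, cm_delta G hne]
      rw [e1, mul_add, mul_add]
      have e2 := mul_le_mul_of_nonneg_left (cm_le hP K hC hm hv' hy hx') (hR0 v hv' y)
      have e3 : R v y * (if G.Adj x y then (1 : ℝ) else 0)
          = (σ.ρ n y * (if G.Adj x y then 1 else 0)) / (∑ y ∈ Gd v, σ.ρ n y) := by
        simp only [R]; ring
      have e4 : R v y * cm G (l y) x = (σ.ρ n y * cm G (l y) x) / (∑ y ∈ Gd v, σ.ρ n y) := by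
        simp only [R]; ring
      rw [← e3, ← e4]
      linarith
    have hR1 : ∑ y ∈ Gd v, R v y = 1 := by
      simp only [R]
      rw [← Finset.sum_div]
      exact div_self hs.ne'
    have htot : ∑ y ∈ Gd v, R v y * cm G (fun u => m y u + (if u = y then 1 else 0) + l y u) x
        ≤ P.B / P.Γ * ∑ c ∈ C, sc G σ c x / sc G σ c v +
          (∑ y ∈ Gd v, σ.ρ n y * (if G.Adj x y then (1 : ℝ) else 0)) /
            (∑ y ∈ Gd v, σ.ρ n y) +
          (∑ y ∈ Gd v, σ.ρ n y * cm G (l y) x) / (∑ y ∈ Gd v, σ.ρ n y) := by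
      refine (Finset.sum_le_sum hsplit).trans (le_of_eq ?_)
      rw [Finset.sum_add_distrib, Finset.sum_add_distrib, ← Finset.sum_mul, hR1, one_mul,
        Finset.sum_div _ (fun y => σ.ρ n y * (if G.Adj x y then (1 : ℝ) else 0)),
        Finset.sum_div _ (fun y => σ.ρ n y * cm G (l y) x)]
    have t2 : ∑ y ∈ Gd v, σ.ρ n y * (if G.Adj x y then (1 : ℝ) else 0) ≤ sc G σ n x := by
      unfold sc
      rw [nm_eq]
      refine le_trans (Finset.sum_le_sum_of_subset_of_nonneg (Finset.subset_univ _) ?_) ?_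
      · intro y _ _
        exact mul_nonneg (K.ρ0 y) (by split_ifs <;> norm_num)
      · refine Finset.sum_le_sum fun y _ => ?_
        split_ifs <;> simp
    have t3 : ∑ y ∈ Gd v, σ.ρ n y * cm G (l y) x ≤ sc G σ n x := by
      refine le_trans (Finset.sum_le_sum_of_subset_of_nonneg (Finset.subset_univ _) ?_)
        (hgood x hx)
      intro y _ _
      exact mul_nonneg (K.ρ0 y) (cm_nonneg G (l1 y) x)
    have hscv := K.ap v hv'
    have hscx := K.ap x hx'
    have hden : ∀ a : ℝ, 0 ≤ a → a ≤ sc G σ n x →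
        a / (∑ y ∈ Gd v, σ.ρ n y) ≤ sc G σ n x / sc G σ n v / e := by
      intro a _ ha
      rw [div_div, mul_comm (sc G σ n v) e]
      exact div_le_div₀ hscx.le ha (mul_pos he hscv) (K.mass v hv')
    have t2' := hden _ (Finset.sum_nonneg fun y _ =>
      mul_nonneg (K.ρ0 y) (by split_ifs <;> norm_num)) t2
    have t3' := hden _ (Finset.sum_nonneg fun y _ =>
      mul_nonneg (K.ρ0 y) (cm_nonneg G (l1 y) x)) t3
    have hnC : n ∉ C := fun h => K.nS (hC h)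
    rw [Finset.sum_insert hnC]
    have hS0 : 0 ≤ ∑ c ∈ C, sc G σ c x / sc G σ c v := by
      refine Finset.sum_nonneg fun c hc => ?_
      exact div_nonneg (K.apc c (hC hc) x (K.sub hx')).le (K.apc c (hC hc) v (K.sub hv')).le
    have hq : 0 ≤ sc G σ n x / sc G σ n v := (div_pos hscx hscv).le
    calc P.τ * ∑ y ∈ Gd v, R v y * cm G (fun u => m y u + (if u = y then 1 else 0) + l y u) x
        ≤ P.τ * (P.B / P.Γ * ∑ c ∈ C, sc G σ c x / sc G σ c v +
            sc G σ n x / sc G σ n v / e + sc G σ n x / sc G σ n v / e) := by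
          refine mul_le_mul_of_nonneg_left ?_ hτ.le
          linarith
      _ = (P.τ / P.Γ) * (P.B * ∑ c ∈ C, sc G σ c x / sc G σ c v) +
            (2 * P.τ / e) * (sc G σ n x / sc G σ n v) := by
          field_simp
          ring
      _ ≤ 1 * (P.B * ∑ c ∈ C, sc G σ c x / sc G σ c v) +
            P.B * (sc G σ n x / sc G σ n v) := by
          refine add_le_add (mul_le_mul_of_nonneg_right ?_ (mul_nonneg hB.le hS0))
            (mul_le_mul_of_nonneg_right heB hq)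
          rw [div_le_one hΓ]
          exact hP.Γ1
      _ = P.B * (sc G σ n x / sc G σ n v + ∑ c ∈ C, sc G σ c x / sc G σ c v) := by ring

/-- There are no masters of depth one. -/
lemma no1 (h3 : StCnt) (h6 : StFib) (hP : P.OK) (K : Ctx P G ν σ n S ξ e Wa Gd)
    (hlt : P.M * ξ < e * ms ν Wa) {C : Finset ℕ} (hC : C ⊆ S) :
    ¬ HasMS G P.M 1 P.B (σ.W n) (sc G σ) C := by
  rintro ⟨m, hm⟩
  have hfib := h6 V G ν (σ.ρ n) Wa ξ e P.M Gd K.ξ0 K.e0 K.ν0 K.ρ0 K.ρ1 K.ap K.at' K.mass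
    (fun y hy => by
      have hyW := (K.hub y hy).1
      refine (h3 P.M hP.M1 V G (m y) Wa (Wa.filter (fun x => y ∈ Gd x)) y
        (Finset.filter_subset _ _) ?_ (K.stb y) ?_ (dom_mono G K.sub (hm.dom y hyW))).le
      · intro c hc
        rw [Finset.mem_filter] at hc
        exact (K.gd c hc.1 y hc.2).2.1.symm
      · intro c hc
        rw [Finset.mem_filter] at hc
        exact light hP K hC hm hc.1 hc.2)
  linarith

end ctx

end PItem

open PItem in
/-- Module `PItem`. -/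
theorem stPItem (h1 : StLemA) (h2 : StAvg) (h3 : StCnt) (h4 : StStb) (h5 : StPOne)
    (h6 : StFib) : StPItem := by
  intro P hP n H
  obtain ⟨Λ, hΛ0, hΛ⟩ := unif h1 P.M P.h hP.M1
  have hκ := hP.κ1
  have hκ0 : 0 < P.κ := by linarith
  have hε := hP.εp0
  set e : ℝ := P.εp / (2 * P.κ) with he
  have he0 : 0 < e := by positivity
  have he1 : e ≤ 1 := by
    rw [he, div_le_one (by positivity)]
    linarith [hP.εp1]
  set K1 : ℝ := 2 ^ P.m * P.h * (2 * Λ) with hK1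
  have hK10 : 0 ≤ K1 := by positivity
  have hH1 : (0 : ℝ) < max H 1 := lt_of_lt_of_le one_pos (le_max_right _ _)
  refine ⟨e ^ 2 / (2 * max H 1 * (K1 + P.M + 1)), by positivity, ?_⟩
  intro T V _ G ν σ ξ S hξ hcls hs hS hSm hplus
  have hξ0 : 0 ≤ ξ := by
    have := hs.al ∅ (by intro u hu; simp at hu)
    simpa [ms] using this
  have hnn : n < n + 1 := Nat.lt_succ_self n
  -- the good hubs
  obtain ⟨Wa, Gd, w1, w2, w3, w4, w5⟩ := h4 P.κ P.εp hκ hε V G ν (σ.ρ n) (σ.W (n + 1))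
    (fun x => Finset.univ.filter (fun y => σ.ρ n y ≠ 0 ∧ G.Adj x y ∧
      ∀ c ∈ S, P.Γ * sc G σ c x ≤ sc G σ c y)) hcls.nbs hs.ν0 (hs.ρ0 n hnn) (hs.ap n hnn)
    (fun x _ y hy => (Finset.mem_filter.1 hy).2.2.1)
    (fun x hx => by
      refine (hplus x hx).trans (le_of_eq ?_)
      unfold big
      symm
      refine Finset.sum_subset ?_ ?_
      · intro y hy
        rw [Finset.mem_filter] at hy ⊢
        exact ⟨hy.1, hy.2.2⟩
      · intro y hy hy'
        rw [Finset.mem_filter] at hy hy'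
        by_contra hne
        exact hy' ⟨hy.1, hne, hy.2⟩)
  have hsubn : σ.W (n + 1) ⊆ σ.W n := hs.sub n hnn
  have hsubc : ∀ c, c < n → σ.W n ⊆ σ.W (c + 1) := by
    intro c hc
    have : ∀ k, c + 1 + k ≤ n → σ.W (c + 1 + k) ⊆ σ.W (c + 1) := by
      intro k
      induction k with
      | zero => intro _; exact subset_rfl
      | succ k ih =>
        intro hk
        exact (hs.sub (c + 1 + k) (by omega)).trans (ih (by omega))
    have h := this (n - (c + 1)) (by omega)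
    rwa [show c + 1 + (n - (c + 1)) = n by omega] at h
  have K : Ctx P G ν σ n S ξ e Wa Gd :=
    { e0 := he0
      ν0 := hs.ν0
      ρ0 := hs.ρ0 n hnn
      ρ1 := hs.ρ1 n hnn
      ξ0 := hξ0
      sub := w1.trans hsubn
      hub := fun y hy => ⟨(hs.ρW n hnn y hy).1, fun h => (hs.ρW n hnn y hy).2 (w1 h)⟩
      ap := fun x hx => hs.ap n hnn x (w1 hx)
      apc := fun c hc x hx => by
        have hcn : c < n := Finset.mem_range.1 (hS hc)
        exact hs.ap c (by omega) x (hsubc c hcn hx)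
      dξ := fun w hw => by
        refine (nm_mono G ?_ w).trans (hs.dξ n hnn w (w1 hw))
        intro v
        unfold zt
        by_cases hv : v ∈ Wa
        · rw [if_pos hv, if_pos (w1 hv)]
        · rw [if_neg hv]
          split_ifs
          · exact div_nonneg (hs.ν0 v) (nm_nonneg G (hs.ρ0 n hnn) v)
          · exact le_rfl
      at' := fun x hx => hs.at' n hnn x (w1 hx)
      nS := fun h => by simpa using hS h
      cS := hSm
      gd := fun x hx y hy => (Finset.mem_filter.1 (w3 x hx hy)).2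
      mass := w4
      stb := w5 }
  have hmsW : 1 ≤ max H 1 * ms ν (σ.W (n + 1)) :=
    hs.pos.trans (mul_le_mul_of_nonneg_right (le_max_left _ _) (ms_nonneg hs.ν0 _))
  have hmsWa : e * ms ν (σ.W (n + 1)) ≤ ms ν Wa := by
    rw [he, div_mul_eq_mul_div, div_le_iff₀ (by positivity)]
    linarith
  have hWlow : e / max H 1 ≤ ms ν Wa := by
    refine le_trans ?_ hmsWa
    rw [div_le_iff₀ hH1]
    nlinarith
  have hξK : (K1 + P.M + 1) * ξ ≤ e * (e / max H 1) / 2 := by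
    have hpos : 0 < K1 + P.M + 1 := by positivity
    calc (K1 + P.M + 1) * ξ ≤ (K1 + P.M + 1) * (e ^ 2 / (2 * max H 1 * (K1 + P.M + 1))) :=
          mul_le_mul_of_nonneg_left hξ hpos.le
      _ = e * (e / max H 1) / 2 := by
          field_simp
  have hM0 : (0 : ℝ) ≤ P.M := Nat.cast_nonneg _
  have hMξ : P.M * ξ < e * ms ν Wa := by
    have a1 : P.M * ξ ≤ (K1 + P.M + 1) * ξ := mul_le_mul_of_nonneg_right (by linarith) hξ0
    have a2 : e * (e / max H 1) ≤ e * ms ν Wa := mul_le_mul_of_nonneg_left hWlow he0.le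
    have a3 : 0 < e * (e / max H 1) := by positivity
    linarith
  have hKξ : K1 * ξ ≤ ms ν Wa / 2 := by
    have a1 : K1 * ξ ≤ (K1 + P.M + 1) * ξ := mul_le_mul_of_nonneg_right (by linarith) hξ0
    have a2 : e * (e / max H 1) ≤ e * ms ν Wa := mul_le_mul_of_nonneg_left hWlow he0.le
    have a3 : e * ms ν Wa ≤ 1 * ms ν Wa := mul_le_mul_of_nonneg_right he1 (ms_nonneg hs.ν0 _)
    linarith
  have heB : 2 * P.τ / e ≤ P.B := by
    refine le_trans (le_of_eq ?_) hP.B2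
    rw [he]
    field_simp
  -- the exceptional sets
  have hE : ∀ (C : Finset ℕ) (j : ℕ), ∃ E : Finset V, ms ν E ≤ 2 * Λ * ξ ∧
      (C ⊆ S → 1 ≤ j → j + 1 ≤ P.h → HasMS G P.M (j + 1) P.B (σ.W n) (sc G σ) C →
        ∀ W', W' ⊆ Wa → (∀ x ∈ W', x ∉ E) →
          HasMS G P.M j P.B W' (sc G σ) (insert n C)) := by
    intro C j
    by_cases hc : C ⊆ S ∧ 1 ≤ j ∧ j + 1 ≤ P.h ∧
        HasMS G P.M (j + 1) P.B (σ.W n) (sc G σ) C
    · obtain ⟨c1, c2, c3, c4⟩ := hc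
      obtain ⟨E, e1, e2⟩ := step h2 h5 hP K heB hΛ0 c3 (hΛ j c2 (by omega) V G) c1 c4
      exact ⟨E, e1, fun _ _ _ _ => e2⟩
    · refine ⟨∅, ?_, fun c1 c2 c3 c4 => absurd ⟨c1, c2, c3, c4⟩ hc⟩
      simp only [ms, Finset.sum_empty]
      positivity
  choose E E1 E2 using hE
  set I : Finset (Finset ℕ × ℕ) := S.powerset ×ˢ Finset.range P.h with hI
  set EE : Finset V := I.biUnion (fun p => E p.1 p.2) with hEE
  have hEEm : ms ν EE ≤ K1 * ξ := by
    have a1 : ms ν EE ≤ ∑ p ∈ I, ms ν (E p.1 p.2) :=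
      ms_biUnion_le hs.ν0 I (fun p => E p.1 p.2)
    refine a1.trans ?_
    calc ∑ p ∈ I, ms ν (E p.1 p.2) ≤ ∑ p ∈ I, 2 * Λ * ξ :=
          Finset.sum_le_sum fun p _ => E1 p.1 p.2
      _ = K1 * ξ := by
          rw [Finset.sum_const, hI, Finset.card_product, Finset.card_powerset,
            Finset.card_range, hSm, nsmul_eq_mul, hK1]
          push_cast
          ring
  refine ⟨Wa \ EE, Finset.sdiff_subset.trans w1, ?_, ?_⟩
  · have a1 : ms ν Wa ≤ ms ν (Wa \ EE) + ms ν EE := by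
      have b1 : ms ν Wa ≤ ms ν ((Wa \ EE) ∪ EE) :=
        ms_mono hs.ν0 (by rw [Finset.sdiff_union_self_eq_union]; exact Finset.subset_union_left)
      have b2 : ms ν ((Wa \ EE) ∪ EE) = ms ν (Wa \ EE) + ms ν EE :=
        Finset.sum_union Finset.sdiff_disjoint
      linarith
    have a2 : ms ν Wa ≤ 2 * ms ν (Wa \ EE) := by linarith
    have a3 : 2 * P.κ * ms ν Wa ≤ 2 * P.κ * (2 * ms ν (Wa \ EE)) :=
      mul_le_mul_of_nonneg_left a2 (by positivity)
    linarith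
  · intro C hC
    have hWn : (σ.shr (n + 1) (Wa \ EE)).W n = σ.W n := by
      simp only [Dat.shr]
      exact Function.update_of_ne (by omega) _ _
    have hWn1 : (σ.shr (n + 1) (Wa \ EE)).W (n + 1) = Wa \ EE := by
      simp only [Dat.shr]
      exact Function.update_self _ _ _
    have hsc : sc G (σ.shr (n + 1) (Wa \ EE)) = sc G σ := rfl
    rw [hWn, hWn1, hsc]
    refine ⟨fun j hj hj' hms => ?_, no1 h3 h6 hP K hMξ hC⟩
    refine E2 C j hC hj hj' hms (Wa \ EE) Finset.sdiff_subset ?_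
    intro x hx hxE
    rw [Finset.mem_sdiff] at hx
    refine hx.2 (Finset.mem_biUnion.2 ⟨(C, j), ?_, hxE⟩)
    rw [hI, Finset.mem_product]
    exact ⟨Finset.mem_powerset.2 hC, Finset.mem_range.2 (by omega)⟩

end Pool.Agent.Lib.FGF
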