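import Pool.Agent.Lib.FGF.Base

/-!
# Module `POne`: the property (P1)
-/

set_option autoImplicit false

namespace Pool.Agent.Lib.FGF

open Finset Classical
open Pool.Agent.Lib.FracGS (nb wnb TAdj pat)
open Pool.Agent.Lib.GSR3 (Stab Small Tree)

namespace POne

variable {V : Type} [Fintype V] {G : SimpleGraph V}

/-- The contribution of one hub. -/
theorem one {ν ρ : V → ℝ} {W : Finset V} {ξ Λ : ℝ} {l : V → ℝ} (hξ : 0 ≤ ξ)
    (hpos : ∀ x ∈ W, 0 < nm G ρ x) (hz : ∀ w ∈ W, nm G (zt G ν ρ W) w ≤ ξ)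
    (hat : ∀ x ∈ W, ν x ≤ ξ * nm G ρ x) (hl : ∀ v, 0 ≤ l v) (hlW : ∀ v, l v ≠ 0 → v ∈ W)
    (hls : ∑ v, l v ≤ Λ) :
    ∑ x ∈ W, ν x * (cm G l x / nm G ρ x) ≤ 2 * Λ * ξ := by
  have h1 : ∑ x ∈ W, ν x * (nm G l x / nm G ρ x) ≤ ξ * ∑ v, l v :=
    sum_zt_nm_le hl fun v hv => hz v (hlW v hv)
  have h2 : ∑ x ∈ W, ν x * (l x / nm G ρ x) ≤ ξ * ∑ v, l v := by
    rw [Finset.mul_sum]
    calc ∑ x ∈ W, ν x * (l x / nm G ρ x) ≤ ∑ x ∈ W, ξ * l x := by
          refine Finset.sum_le_sum fun x hx => ?_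
          rw [← mul_div_assoc, div_le_iff₀ (hpos x hx)]
          have h3 := mul_le_mul_of_nonneg_right (hat x hx) (hl x)
          linarith
      _ ≤ ∑ x, ξ * l x :=
          Finset.sum_le_sum_of_subset_of_nonneg (Finset.subset_univ _) fun x _ _ =>
            mul_nonneg hξ (hl x)
  have h3 : ∑ x ∈ W, ν x * (cm G l x / nm G ρ x) =
      ∑ x ∈ W, ν x * (l x / nm G ρ x) + ∑ x ∈ W, ν x * (nm G l x / nm G ρ x) := by
    rw [← Finset.sum_add_distrib]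
    refine Finset.sum_congr rfl fun x _ => ?_
    unfold cm
    ring
  have h4 : ξ * ∑ v, l v ≤ ξ * Λ := mul_le_mul_of_nonneg_left hls hξ
  rw [h3]
  linarith

end POne

theorem stPOne : StPOne := by
  intro V _ G ν ρ W ξ Λ l hξ hΛ hν hρ hρ1 hpos hz hat hl hlW hls
  have h1 := markov hν W (f := fun x => (∑ y, ρ y * cm G (l y) x) / nm G ρ x)
    (fun x _ => div_nonneg (Finset.sum_nonneg fun y _ =>
      mul_nonneg (hρ y) (cm_nonneg (hl y) x)) (nm_nonneg hρ x)) 1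
  have h2 : (W.filter fun x => nm G ρ x < ∑ y, ρ y * cm G (l y) x) =
      W.filter fun x => 1 < (∑ y, ρ y * cm G (l y) x) / nm G ρ x := by
    refine Finset.filter_congr fun x hx => ?_
    rw [lt_div_iff₀ (hpos x hx), one_mul]
  have h3 : ∑ x ∈ W, ν x * ((∑ y, ρ y * cm G (l y) x) / nm G ρ x) =
      ∑ y, ρ y * ∑ x ∈ W, ν x * (cm G (l y) x / nm G ρ x) := by
    simp only [Finset.mul_sum, Finset.sum_div]
    rw [Finset.sum_comm]
    refine Finset.sum_congr rfl fun y _ => Finset.sum_congr rfl fun x _ => ?_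
    ring
  have h4 : ∑ y, ρ y * ∑ x ∈ W, ν x * (cm G (l y) x / nm G ρ x) ≤ 2 * Λ * ξ := by
    calc ∑ y, ρ y * ∑ x ∈ W, ν x * (cm G (l y) x / nm G ρ x)
        ≤ ∑ y, ρ y * (2 * Λ * ξ) := Finset.sum_le_sum fun y _ =>
          mul_le_mul_of_nonneg_left (POne.one hξ hpos hz hat (hl y) (hlW y) (hls y)) (hρ y)
      _ = (∑ y, ρ y) * (2 * Λ * ξ) := by rw [Finset.sum_mul]
      _ ≤ 1 * (2 * Λ * ξ) := mul_le_mul_of_nonneg_right hρ1 (by positivity)
      _ = 2 * Λ * ξ := one_mul _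
  rw [h2]
  rw [one_mul] at h1
  exact h1.trans (h3.le.trans h4)

end Pool.Agent.Lib.FGF
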