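import Pool.Agent.Lib.FGF.Base

/-!
# Module `Pig`: majority
-/

set_option autoImplicit false

namespace Pool.Agent.Lib.FGF

open Finset Classical
open Pool.Agent.Lib.FracGS (nb wnb TAdj pat)
open Pool.Agent.Lib.GSR3 (Stab Small Tree)

namespace Pig

/-- Induction on the set of the properties. -/
theorem aux {V : Type} {ν : V → ℝ} (W : Finset V) {J : Type} (p : J → V → Prop)
    (hν : ∀ v, 0 ≤ ν v) (s : Finset J) : ∃ W', W' ⊆ W ∧ ms ν W ≤ 2 ^ s.card * ms ν W' ∧
      ∀ i ∈ s, (∀ x ∈ W', p i x) ∨ ∀ x ∈ W', ¬ p i x := by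
  induction s using Finset.induction_on with
  | empty => exact ⟨W, Finset.Subset.refl _, by simp, by simp⟩
  | insert i s hi ih =>
    obtain ⟨W', hsub, hms, hp⟩ := ih
    have h1 := ms_filter_add ν W' (p i)
    have h2 : ∃ W'' : Finset V, W'' ⊆ W' ∧ ms ν W' ≤ 2 * ms ν W'' ∧
        ((∀ x ∈ W'', p i x) ∨ ∀ x ∈ W'', ¬ p i x) := by
      rcases le_total (ms ν (W'.filter (fun x => ¬ p i x))) (ms ν (W'.filter (p i))) with h | h
      · exact ⟨W'.filter (p i), Finset.filter_subset _ _, by linarith,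
          Or.inl fun x hx => (Finset.mem_filter.mp hx).2⟩
      · exact ⟨W'.filter (fun x => ¬ p i x), Finset.filter_subset _ _, by linarith,
          Or.inr fun x hx => (Finset.mem_filter.mp hx).2⟩
    obtain ⟨W'', hsub', hms', hp'⟩ := h2
    refine ⟨W'', hsub'.trans hsub, ?_, ?_⟩
    · rw [Finset.card_insert_of_notMem hi, pow_succ]
      have h3 : (0 : ℝ) < 2 ^ s.card := by positivity
      have h4 := mul_le_mul_of_nonneg_left hms' h3.le
      linarith
    · intro j hj
      rcases Finset.mem_insert.mp hj with rfl | hj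
      · exact hp'
      · rcases hp j hj with h | h
        · exact Or.inl fun x hx => h x (hsub' hx)
        · exact Or.inr fun x hx => h x (hsub' hx)

end Pig

theorem stPig : StPig := by
  intro V ν W J _ p hν
  obtain ⟨W', h1, h2, h3⟩ := Pig.aux W p hν (Finset.univ : Finset J)
  exact ⟨W', h1, h2, fun i => h3 i (Finset.mem_univ i)⟩

end Pool.Agent.Lib.FGF
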