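import Pool.Agent.Lib.FGF.Stmts2

/-!
# Ramsey's theorem for finite sets of naturals (module `Ram`)

Erdős–Rado induction on the size `r` of the coloured sets: for a vertex `a` (the least element of
the current set) the colouring `S ↦ col (insert a S)` of the `r`-sets is made constant; after
`k * N` steps the colour of an `(r + 1)`-set only depends on its least element, and the pigeonhole
principle finishes.
-/

set_option autoImplicit false

namespace Pool.Agent.Lib.FGF

open Finset Classical

namespace Ram

/-- The statement for a fixed size `r` (and all `N`). -/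
def One (k r : ℕ) : Prop :=
  ∀ N : ℕ, ∃ R : ℕ, ∀ (col : Finset ℕ → ℕ) (A : Finset ℕ), (∀ S, col S < k) →
    R ≤ A.card → ∃ B, B ⊆ A ∧ B.card = N ∧ ∃ i, ∀ S, S ⊆ B → S.card = r → col S = i

/-- The colour of an `(r + 1)`-set depends only on its least element. -/
theorem pre {k r : ℕ} (hk : 1 ≤ k) (hr : One k r) (m : ℕ) :
    ∃ R : ℕ, ∀ (col : Finset ℕ → ℕ) (A : Finset ℕ), (∀ S, col S < k) → R ≤ A.card →
      ∃ B, B ⊆ A ∧ B.card = m ∧ ∃ c : ℕ → ℕ, (∀ a, c a < k) ∧
        ∀ S, S ⊆ B → S.card = r + 1 → ∃ a ∈ S, (∀ b ∈ S, a ≤ b) ∧ col S = c a := by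
  induction m with
  | zero =>
    refine ⟨0, fun col A _ _ => ⟨∅, empty_subset _, rfl, fun _ => 0, fun _ => hk, ?_⟩⟩
    intro S hS hc
    rw [subset_empty.1 hS] at hc
    simp at hc
  | succ m ih =>
    obtain ⟨R', hR'⟩ := ih
    obtain ⟨R'', hR''⟩ := hr R'
    refine ⟨R'' + 1, fun col A hcol hA => ?_⟩
    have hne : A.Nonempty := by
      rw [← Finset.card_pos]; omega
    set a := A.min' hne with ha
    have haA : a ∈ A := A.min'_mem hne
    have hmin : ∀ b ∈ A, a ≤ b := fun b hb => A.min'_le b hb
    have hcard : R'' ≤ (A.erase a).card := by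
      rw [Finset.card_erase_of_mem haA]; omega
    obtain ⟨B', hB'A, hB'c, i, hi⟩ :=
      hR'' (fun S => col (insert a S)) (A.erase a) (fun S => hcol _) hcard
    obtain ⟨B, hBB', hBc, c, hck, hc⟩ := hR' col B' hcol hB'c.ge
    have haB : a ∉ B := fun h => by
      have := hB'A (hBB' h)
      simp at this
    have hBA : B ⊆ A := fun x hx => Finset.mem_of_mem_erase (hB'A (hBB' hx))
    by_cases hik : i < k
    · refine ⟨insert a B, ?_, ?_, Function.update c a i, ?_, ?_⟩
      · intro x hx
        rcases Finset.mem_insert.1 hx with rfl | hx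
        · exact haA
        · exact hBA hx
      · rw [Finset.card_insert_of_notMem haB, hBc]
      · intro b
        by_cases hb : b = a
        · subst hb; simpa using hik
        · rw [Function.update_of_ne hb]; exact hck b
      · intro S hS hSc
        by_cases haS : a ∈ S
        · refine ⟨a, haS, ?_, ?_⟩
          · intro b hb
            rcases Finset.mem_insert.1 (hS hb) with rfl | hb'
            · exact le_rfl
            · exact hmin b (hBA hb')
          · have hsub : S.erase a ⊆ B' := by
              intro x hx
              rcases Finset.mem_insert.1 (hS (Finset.mem_of_mem_erase hx)) with h | h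
              · exact absurd h (Finset.ne_of_mem_erase hx)
              · exact hBB' h
            have hcs : (S.erase a).card = r := by
              rw [Finset.card_erase_of_mem haS, hSc]; rfl
            have := hi (S.erase a) hsub hcs
            simp only [Finset.insert_erase haS] at this
            rw [this, Function.update_self]
        · have hSB : S ⊆ B := by
            intro x hx
            rcases Finset.mem_insert.1 (hS hx) with h | h
            · exact absurd (h ▸ hx) haS
            · exact h
          obtain ⟨b, hbS, hbm, hbc⟩ := hc S hSB hSc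
          refine ⟨b, hbS, hbm, ?_⟩
          have hba : b ≠ a := fun h => haS (h ▸ hbS)
          rw [Function.update_of_ne hba]; exact hbc
    · -- no `r`-subset of `B'`: use the colour `0`
      have hno : ∀ S, S ⊆ B' → S.card ≠ r := fun S hS hc' =>
        hik ((hi S hS hc') ▸ hcol _)
      refine ⟨insert a B, ?_, ?_, fun _ => 0, fun _ => hk, ?_⟩
      · intro x hx
        rcases Finset.mem_insert.1 hx with rfl | hx
        · exact haA
        · exact hBA hx
      · rw [Finset.card_insert_of_notMem haB, hBc]
      · intro S hS hSc
        exfalso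
        by_cases haS : a ∈ S
        · refine hno (S.erase a) ?_ ?_
          · intro x hx
            rcases Finset.mem_insert.1 (hS (Finset.mem_of_mem_erase hx)) with h | h
            · exact absurd h (Finset.ne_of_mem_erase hx)
            · exact hBB' h
          · rw [Finset.card_erase_of_mem haS, hSc]; rfl
        · have hSB : S ⊆ B := by
            intro x hx
            rcases Finset.mem_insert.1 (hS hx) with h | h
            · exact absurd (h ▸ hx) haS
            · exact h
          obtain ⟨T, hTS, hTc⟩ := Finset.exists_subset_card_eq (s := S) (n := r) (by omega)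
          exact hno T (hTS.trans (hSB.trans hBB')) hTc

/-- Erdős–Rado induction. -/
theorem one {k : ℕ} (hk : 1 ≤ k) (r : ℕ) : One k r := by
  induction r with
  | zero =>
    intro N
    refine ⟨N, fun col A _ hA => ?_⟩
    obtain ⟨B, hBA, hBc⟩ := Finset.exists_subset_card_eq hA
    refine ⟨B, hBA, hBc, col ∅, fun S _ hS => ?_⟩
    rw [Finset.card_eq_zero.1 hS]
  | succ r ih =>
    intro N
    obtain ⟨R, hR⟩ := pre hk ih (k * N)
    refine ⟨R, fun col A hcol hA => ?_⟩
    obtain ⟨B, hBA, hBc, c, hck, hc⟩ := hR col A hcol hA
    obtain ⟨i, -, hi⟩ := Finset.exists_le_card_fiber_of_mul_le_card_of_maps_to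
      (s := B) (t := Finset.range k) (f := c) (n := N)
      (fun a _ => Finset.mem_range.2 (hck a)) (Finset.nonempty_range_iff.2 (by omega))
      (by rw [Finset.card_range, hBc])
    obtain ⟨B₂, hB₂, hB₂c⟩ := Finset.exists_subset_card_eq hi
    refine ⟨B₂, fun x hx => hBA (Finset.mem_filter.1 (hB₂ hx)).1, hB₂c, i, ?_⟩
    intro S hS hSc
    obtain ⟨a, haS, -, hac⟩ := hc S (fun x hx => (Finset.mem_filter.1 (hB₂ (hS hx))).1) hSc
    rw [hac]
    exact (Finset.mem_filter.1 (hB₂ (hS haS))).2

end Ram

/-- Ramsey's theorem. -/
theorem stRam : StRam := fun _ r N hk => Ram.one hk r N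

end Pool.Agent.Lib.FGF
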