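import Pool.Agent.Lib.FGF.Stmts2
import Pool.Agent.Lib.GSR3.Base
import Pool.Agent.Lib.GSR3.Final

/-!
# The fractional Gyarfas-Sumner conjecture: from the whole graph to subsets
-/

set_option autoImplicit false

namespace Pool.Agent.Lib.FGF

open Finset Classical
open Pool.Agent.Lib.FracGS (nb wnb TAdj pat mem_nb)
open Pool.Agent.Lib.GSR3 (Stab Small Tree FGS small_of_induce)
open Pool.Agent.Lib.GSR5 (NLC HasLabF LabCov)

namespace RestP

/-- Small sets of induced subgraphs. -/
theorem small_induce {V : Type} [Fintype V] (G : SimpleGraph V) (A : Finset V)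
    (B : Finset {v | v ∈ A}) (c : ℝ)
    (h : Small G (B.map (Function.Embedding.subtype _)) c) :
    Small (G.induce {v | v ∈ A}) B c := by
  intro w hw
  obtain ⟨I, hI, hS, hle⟩ := h (fun v => if h : v ∈ A then w ⟨v, h⟩ else 0) (fun v => by
    split_ifs
    · exact hw _
    · exact le_rfl)
  refine ⟨B.filter (fun v => v.1 ∈ I), Finset.filter_subset _ _, ?_, ?_⟩
  · intro u hu v hv huv
    rw [Finset.mem_filter] at hu hv
    exact hS u.1 hu.2 v.1 hv.2 huv
  · have h1 : I = (B.filter (fun v => v.1 ∈ I)).map (Function.Embedding.subtype _) := by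
      ext v
      rw [Finset.mem_map]
      constructor
      · intro hv
        obtain ⟨u, hu, rfl⟩ := Finset.mem_map.1 (hI hv)
        exact ⟨u, Finset.mem_filter.2 ⟨hu, hv⟩, rfl⟩
      · rintro ⟨u, hu, rfl⟩
        exact (Finset.mem_filter.1 hu).2
    have h2 : ∀ C : Finset {v | v ∈ A},
        ∑ v ∈ C.map (Function.Embedding.subtype _), (if h : v ∈ A then w ⟨v, h⟩ else 0) =
          ∑ v ∈ C, w v := by
      intro C
      rw [Finset.sum_map]
      refine Finset.sum_congr rfl fun v _ => ?_
      have hv : (Function.Embedding.subtype (fun v => v ∈ {v | v ∈ A})) v ∈ A := v.2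
      rw [dif_pos hv]
      rfl
    rw [h1, h2, h2] at hle
    exact hle

end RestP

/-- Module `Rest`. -/
theorem stRest (hM : StM) : StRest := by
  intro M h n0 par κ hM1 hh he hpar hκ
  have hmain := fun c : ℝ =>
    hM M h n0 par κ (max c 1) hM1 hh he hpar hκ (le_max_right _ _)
  choose f hf hm using hmain
  refine ⟨f, hf, ?_⟩
  intro V _ G hT hpat hnb A _ c hc hN
  refine small_of_induce G A (f c) (hm c _ _ ?_ ?_ ?_ ?_)
  · intro φ hφ
    refine hT (fun u => (φ u).1) ⟨?_, ?_⟩
    · intro u w hu hw huw
      exact hφ.inj u w hu hw (Subtype.ext huw)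
    · intro u w hu hw
      exact hφ.adj u w hu hw
  · exact ⟨fun ψ => hpat.false (ψ.trans (SimpleGraph.Embedding.induce _))⟩
  · intro v
    refine RestP.small_induce G A _ κ ((hnb v.1).mono_set ?_)
    intro u hu
    obtain ⟨u', hu', rfl⟩ := Finset.mem_map.1 hu
    rw [mem_nb] at hu' ⊢
    exact ⟨Finset.mem_univ _, hu'.2⟩
  · intro B x g hB hcl
    refine RestP.small_induce G A _ _ ?_
    have hcov : LabCov G A (B.map (Function.Embedding.subtype _))
        (fun v => if h : v ∈ A then (x ⟨v, h⟩).1 else v)
        (fun v => if h : v ∈ A then (g ⟨v, h⟩).1 else v) := by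
      refine ⟨?_, ?_, ?_, ?_, ?_⟩
      · intro v hv
        obtain ⟨u, _, rfl⟩ := Finset.mem_map.1 hv
        exact u.2
      · intro v hv
        obtain ⟨u, _, rfl⟩ := Finset.mem_map.1 hv
        have hu : (Function.Embedding.subtype (fun v => v ∈ {v | v ∈ A})) u ∈ A := u.2
        rw [dif_pos hu]
        exact (x _).2
      · intro v hv w hw
        obtain ⟨u, hu', rfl⟩ := Finset.mem_map.1 hv
        obtain ⟨u', hu'', rfl⟩ := Finset.mem_map.1 hw
        have hu : (Function.Embedding.subtype (fun v => v ∈ {v | v ∈ A})) u ∈ A := u.2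
        rw [dif_pos hu]
        intro h1
        exact hB.out u hu' u' hu'' (Subtype.ext h1)
      · intro v hv
        obtain ⟨u, hu', rfl⟩ := Finset.mem_map.1 hv
        have hu : (Function.Embedding.subtype (fun v => v ∈ {v | v ∈ A})) u ∈ A := u.2
        rw [dif_pos hu]
        exact hB.adj u hu'
      · intro v hv w hw
        obtain ⟨u, hu', rfl⟩ := Finset.mem_map.1 hv
        obtain ⟨u', hu'', rfl⟩ := Finset.mem_map.1 hw
        have hu : (Function.Embedding.subtype (fun v => v ∈ {v | v ∈ A})) u ∈ A := u.2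
        have hu1 : (Function.Embedding.subtype (fun v => v ∈ {v | v ∈ A})) u' ∈ A := u'.2
        rw [dif_pos hu, dif_pos hu, dif_pos hu1]
        intro h1
        exact congrArg Subtype.val (hB.exact u hu' u' hu'' h1)
    refine (hN _ _ _ hcov ?_).mono_const (le_max_left _ _)
    intro u
    by_cases hu : u ∈ A
    · have h1 : (B.map (Function.Embedding.subtype _)).filter
          (fun a => (if h : a ∈ A then (g ⟨a, h⟩).1 else a) = u) =
          (B.filter (fun a => g a = ⟨u, hu⟩)).map (Function.Embedding.subtype _) := by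
        ext v
        rw [Finset.mem_filter, Finset.mem_map, Finset.mem_map]
        constructor
        · rintro ⟨⟨a, ha, rfl⟩, h2⟩
          have hu2 : (Function.Embedding.subtype (fun v => v ∈ {v | v ∈ A})) a ∈ A := a.2
          rw [dif_pos hu2] at h2
          exact ⟨a, Finset.mem_filter.2 ⟨ha, Subtype.ext h2⟩, rfl⟩
        · rintro ⟨a, ha, rfl⟩
          rw [Finset.mem_filter] at ha
          have hu2 : (Function.Embedding.subtype (fun v => v ∈ {v | v ∈ A})) a ∈ A := a.2
          refine ⟨⟨a, ha.1, rfl⟩, ?_⟩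
          rw [dif_pos hu2]
          exact congrArg Subtype.val ha.2
      have hcl' : Small (G.induce {v | v ∈ A}) (B.filter (fun a => g a = ⟨u, hu⟩)) κ := by
        convert hcl ⟨u, hu⟩
      rw [h1]
      intro w hw
      obtain ⟨I, hI, hS, hle⟩ := hcl' (fun v => w v.1) (fun v => hw v.1)
      refine ⟨I.map (Function.Embedding.subtype _), ?_, ?_, ?_⟩
      · exact Finset.map_subset_map.2 hI
      · intro a ha b hb hab
        obtain ⟨a', ha', rfl⟩ := Finset.mem_map.1 ha
        obtain ⟨b', hb', rfl⟩ := Finset.mem_map.1 hb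
        exact hS a' ha' b' hb' hab
      · rw [Finset.sum_map, Finset.sum_map]
        exact hle
    · have h1 : (B.map (Function.Embedding.subtype _)).filter
          (fun a => (if h : a ∈ A then (g ⟨a, h⟩).1 else a) = u) = ∅ := by
        rw [Finset.filter_eq_empty_iff]
        intro v hv
        obtain ⟨a, _, rfl⟩ := Finset.mem_map.1 hv
        have hu2 : (Function.Embedding.subtype (fun v => v ∈ {v | v ∈ A})) a ∈ A := a.2
        rw [dif_pos hu2]
        intro h2
        exact hu (h2 ▸ (g _).2)
      rw [h1]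
      exact GSR3.small_empty (by linarith)

end Pool.Agent.Lib.FGF
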