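import Pool.Agent.Lib.FGF.Shr

/-!
# The fractional Gyarfas-Sumner conjecture: module `SetB`

Adding an item of type B.
-/

set_option autoImplicit false

namespace Pool.Agent.Lib.FGF

open Finset Classical
open Pool.Agent.Lib.FracGS (nb wnb TAdj pat)
open Pool.Agent.Lib.GSR3 (Stab Small Tree)
open Pool.Agent.Lib.GSR5 (NLC)

namespace SetB

theorem bapp_congr {V : Type} {f g : ℕ → Finset ℕ → V → V} (w : List (ℕ × Finset ℕ))
    (h : ∀ m ∈ w, f m.1 m.2 = g m.1 m.2) (b : V) : bapp f w b = bapp g w b := by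
  induction w generalizing b with
  | nil => rfl
  | cons c w ih =>
    change bapp f w (f c.1 c.2 b) = bapp g w (g c.1 c.2 b)
    rw [h c List.mem_cons_self, ih fun d hd => h d (List.mem_cons_of_mem _ hd)]

section

variable {V : Type} {σ : Dat V} {S : Finset ℕ} {n : ℕ} {W' : Finset V} {lb : V → V}
  {nr : V → Finset V}

theorem lab_ne {S' : Finset ℕ} {s : ℕ} (h : ¬ (S' = S ∧ s = n)) :
    (σ.setB S n W' lb nr).lab S' s = σ.lab S' s := if_neg h

theorem near_ne {S' : Finset ℕ} {s : ℕ} (h : ¬ (S' = S ∧ s = n)) :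
    (σ.setB S n W' lb nr).near S' s = σ.near S' s := if_neg h

theorem isB_ne {S' : Finset ℕ} {s : ℕ} (h : s ≠ n) (hB : (σ.setB S n W' lb nr).isB S' s) :
    σ.isB S' s := by
  rcases hB with hB | hB
  · exact hB
  · exact absurd hB.2 h

theorem word {l i : ℕ} (hi : i ≤ n) {w : List (ℕ × Finset ℕ)}
    (h : BWord (fun s S' => (σ.setB S n W' lb nr).isB S' s) l i w) :
    BWord (fun s S' => σ.isB S' s) l i w :=
  ⟨h.1, fun m hm => ⟨(h.2 m hm).1, (h.2 m hm).2.1,
    isB_ne (by have := (h.2 m hm).2.1; omega) (h.2 m hm).2.2⟩⟩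

theorem bapp_eq {l i : ℕ} (hi : i ≤ n) {w : List (ℕ × Finset ℕ)}
    (h : BWord (fun s S' => (σ.setB S n W' lb nr).isB S' s) l i w) (b : V) :
    bapp (fun s S' => (σ.setB S n W' lb nr).lab S' s) w b =
      bapp (fun s S' => σ.lab S' s) w b :=
  bapp_congr w (fun m hm => lab_ne fun h' => by
    have := (h.2 m hm).2.1
    omega) b

end

end SetB

open Mono Shr SetB in
/-- Module `SetB`. -/
theorem stSetB : StSetB := by
  intro P hP n T H ξ c H' V _ G ν σ S W' lb nr hc hH hξ h hS hSm hW' hm hlab hmin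
  have h1 := stMono P (n + 1) T (c * H) (max (c * H) H') (c * ξ) (c * ξ) V G ν
    (σ.shr (n + 1) W') (le_max_left _ _) le_rfl
    (stShr P hP n T H ξ c V G ν σ W' hc hH hξ h hW' hm)
  have hlast : (σ.setB S n W' lb nr).W (n + 1) = W' := Function.update_self _ _ _
  have heq : ∀ s < n + 1, (σ.setB S n W' lb nr).W s = σ.W s := fun s hs =>
    Function.update_of_ne hs.ne _ _
  refine
    { ν0 := h1.ν0
      ν1 := h1.ν1
      al := h1.al
      W0 := h1.W0
      sub := h1.sub
      pos := h1.pos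
      ρ0 := h1.ρ0
      ρW := h1.ρW
      ρ1 := h1.ρ1
      ρS := h1.ρS
      ap := h1.ap
      dH := h1.dH
      dξ := h1.dξ
      at' := h1.at'
      drop := h1.drop
      far := h1.far
      sg2 := h1.sg2
      sgS := h1.sgS
      ker := h1.ker
      itm := ?_
      lab := ?_
      sep := ?_ }
  · intro s hs S' hS' hSm' hT
    by_cases hh : S' = S ∧ s = n
    · obtain ⟨rfl, rfl⟩ := hh
      refine Or.inr ⟨fun x hx => hmin x (hW' ?_), Or.inr (Or.inr (Or.inr (Or.inr ⟨rfl, rfl⟩)))⟩
      rw [hlast] at hx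
      exact hx
    · have hT' : s + 1 < n + 1 ∨ S' ∈ T := by
        rcases hT with hT | hT
        · exact Or.inl hT
        · rcases Finset.mem_insert.1 hT with h2 | h2
          · refine Or.inl ?_
            have : s ≠ n := fun h3 => hh ⟨h2, h3⟩
            omega
          · exact Or.inr h2
      rcases h1.itm s hs S' hS' hSm' hT' with h2 | ⟨h2, h3 | h3 | h3 | h3⟩
      · exact Or.inl h2
      · exact Or.inr ⟨h2, Or.inl h3⟩
      · exact Or.inr ⟨h2, Or.inr (Or.inl h3)⟩
      · exact Or.inr ⟨h2, Or.inr (Or.inr (Or.inl h3))⟩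
      · exact Or.inr ⟨h2, Or.inr (Or.inr (Or.inr (Or.inl h3)))⟩
  · intro S' s hB
    by_cases hh : S' = S ∧ s = n
    · obtain ⟨rfl, rfl⟩ := hh
      exact ⟨Nat.lt_succ_self _, hS, hSm, labOK_mono (le_max_right _ _) hlab⟩
    · have hB' : σ.isB S' s := by
        rcases hB with hB | hB
        · exact hB
        · exact absurd hB hh
      obtain ⟨h2, h3, h4, h5⟩ := h1.lab S' s hB'
      refine ⟨h2, h3, h4, ⟨?_, ?_, ?_, ?_, ?_⟩⟩
      · rw [lab_ne hh]
        exact h5.mem
      · rw [lab_ne hh]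
        exact h5.adj
      · rw [near_ne hh]
        exact h5.card
      · rw [lab_ne hh, near_ne hh]
        exact h5.conf
      · rw [lab_ne hh, near_ne hh]
        exact h5.prop
  · intro i hi
    have h2 := h.sep i hi
    unfold SepAt at *
    rw [heq i hi]
    intro l S' hl hB v w hv hw
    have hin : i ≤ n := by omega
    have hln : ¬ (S' = S ∧ l = n) := fun h' => by
      have := h'.2
      omega
    have h3 := h2 l S' hl (isB_ne (by omega) hB) v w (word hin hv) (word hin hw)
    simp only [bapp_eq hin hv, bapp_eq hin hw, lab_ne hln, near_ne hln]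
    exact h3

end Pool.Agent.Lib.FGF
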