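import Pool.Agent.Lib.FGF.Stmts2

/-!
# Fractional Gyarfas-Sumner: signs plus for many pairs give sign plus for a set
-/

set_option autoImplicit false

namespace Pool.Agent.Lib.FGF

open Finset Classical
open Pool.Agent.Lib.FracGS (nb wnb TAdj pat)

namespace SgSAux

/-- The weight of a filtered set of neighbours. -/
theorem big_eq {V : Type} [Fintype V] (P : Par) (G : SimpleGraph V) (σ : Dat V) (S : Finset ℕ)
    (s : ℕ) (x : V) :
    big P G σ S s x = ∑ y, (if G.Adj x y then σ.ρ s y else 0) *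
      ∏ c ∈ S, (if P.Γ * sc G σ c x ≤ sc G σ c y then (1 : ℝ) else 0) := by
  unfold big
  rw [Finset.sum_filter]
  refine Finset.sum_congr rfl fun y _ => ?_
  by_cases hadj : G.Adj x y
  · rw [if_pos hadj]
    by_cases hall : ∀ c ∈ S, P.Γ * sc G σ c x ≤ sc G σ c y
    · rw [if_pos ⟨hadj, hall⟩, Finset.prod_congr rfl (fun c hc => if_pos (hall c hc))]
      simp
    · rw [if_neg fun h => hall h.2]
      push Not at hall
      obtain ⟨c, hc, hlt⟩ := hall
      rw [Finset.prod_eq_zero hc (if_neg (not_le.mpr hlt)), mul_zero]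
  · rw [if_neg hadj, zero_mul, if_neg fun h => hadj h.1]

theorem sc_eq {V : Type} [Fintype V] (G : SimpleGraph V) (σ : Dat V) (s : ℕ) (x : V) :
    sc G σ s x = ∑ y, if G.Adj x y then σ.ρ s y else 0 := by
  unfold sc nm wnb nb
  rw [Finset.sum_filter]

theorem sub_world {P : Par} {n : ℕ} {T : Finset (Finset ℕ)} {H ξ : ℝ} {V : Type} [Fintype V]
    {G : SimpleGraph V} {ν : V → ℝ} {σ : Dat V} (hS : Sys P n T H ξ G ν σ) (k : ℕ) :
    ∀ s, s + k = n → σ.W n ⊆ σ.W s := by
  induction k with
  | zero =>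
    intro s hs
    have : s = n := by omega
    rw [this]
  | succ k ih =>
    intro s hs
    exact (ih (s + 1) (by omega)).trans (hS.sub s (by omega))

end SgSAux

open SgSAux in
/-- Module `SgS`. -/
theorem stSgS (h : StJen) : StSgS := by
  intro m e he he1
  obtain ⟨R, hR⟩ := h m e he he1
  refine ⟨R, ?_⟩
  intro P _ hPm hPe hPp n T H ξ V _ G ν σ hS s hs A hA hAc hPlus hMinus
  -- a vertex in the world
  have hne : (σ.W (s + 1)).Nonempty := by
    have h1 : (σ.W n).Nonempty := by
      by_contra hcon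
      rw [Finset.not_nonempty_iff_eq_empty] at hcon
      have h2 := hS.pos
      rw [hcon] at h2
      simp [ms] at h2
      linarith
    exact h1.mono (sub_world hS (n - (s + 1)) (s + 1) (by omega))
  obtain ⟨x, hx⟩ := hne
  have hpos : 0 < sc G σ s x := hS.ap s hs x hx
  obtain ⟨S, hS1, hS2, hS3⟩ := hR V (fun y => if G.Adj x y then σ.ρ s y else 0)
    (fun c y => if P.Γ * sc G σ c x ≤ sc G σ c y then (1 : ℝ) else 0) A
    (fun y => by
      show (0 : ℝ) ≤ if G.Adj x y then σ.ρ s y else 0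
      split_ifs
      · exact hS.ρ0 s hs y
      · exact le_rfl)
    (fun c _ y => by
      show (0 : ℝ) ≤ (if P.Γ * sc G σ c x ≤ sc G σ c y then (1 : ℝ) else 0) ∧
        (if P.Γ * sc G σ c x ≤ sc G σ c y then (1 : ℝ) else 0) ≤ 1
      split_ifs <;> norm_num)
    (by rw [← sc_eq]; exact hpos) hAc
    (fun c hc => by
      have h3 := hPlus c hc x hx
      rw [big_eq, hPe] at h3
      simp only [Finset.prod_singleton] at h3
      rw [← sc_eq]
      exact h3)
  have h4 := hMinus S hS1 hS2 x hx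
  rw [big_eq] at h4
  rw [← sc_eq] at hS3
  have h5 : P.εp * sc G σ s x ≤ e ^ m / 2 * sc G σ s x :=
    mul_le_mul_of_nonneg_right hPp hpos.le
  linarith

end Pool.Agent.Lib.FGF
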