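import Pool.Agent.Lib.FGF.Mono

/-!
# The fractional Gyarfas-Sumner conjecture: module `Shr`

The last world may be replaced by a part of it.
-/

set_option autoImplicit false

namespace Pool.Agent.Lib.FGF

open Finset Classical
open Pool.Agent.Lib.FracGS (nb wnb TAdj pat)
open Pool.Agent.Lib.GSR3 (Stab Small Tree)
open Pool.Agent.Lib.GSR5 (NLC)

namespace Shr

section

variable {V : Type} [Fintype V] {G : SimpleGraph V}

theorem dom_mono {M j : ℕ} {v : V} {m : V → ℝ} {L L' : Finset V} (hL : L' ⊆ L)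
    (h : Dom G M j v m L) : Dom G M j v m L' := fun φ h1 h2 h3 =>
  h φ h1 h2 fun u hu hj => ⟨hL (h3 u hu hj).1, (h3 u hu hj).2⟩

theorem ms_sub {M j : ℕ} {B : ℝ} {W W' : Finset V} {a : ℕ → V → ℝ} {C : Finset ℕ}
    {m : V → V → ℝ} (hW : W' ⊆ W) (h : MS G M j B W a C m) : MS G M j B W' a C m where
  nn := h.nn
  dom := fun v hv => dom_mono hW (h.dom v (hW hv))
  bd := fun v hv x hx => h.bd v (hW hv) x (hW hx)

theorem hasMS_sub {M j : ℕ} {B : ℝ} {W W' : Finset V} {a : ℕ → V → ℝ} {C : Finset ℕ}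
    (hW : W' ⊆ W) (h : HasMS G M j B W a C) : HasMS G M j B W' a C := by
  obtain ⟨m, hm⟩ := h
  exact ⟨m, ms_sub hW hm⟩

end

section

variable {V : Type} {σ : Dat V} {n : ℕ} {W' : Finset V}

theorem W_eq {s : ℕ} (h : s ≠ n) : (σ.shr n W').W s = σ.W s :=
  Function.update_of_ne h _ _

theorem W_last : (σ.shr n W').W n = W' :=
  Function.update_self _ _ _

theorem W_sub (h : W' ⊆ σ.W n) (s : ℕ) : (σ.shr n W').W s ⊆ σ.W s := by
  by_cases hs : s = n
  · subst hs
    rw [W_last]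
    exact h
  · rw [W_eq hs]

end

end Shr

open Mono Shr in
/-- Module `Shr`. -/
theorem stShr : StShr := by
  intro P hP n T H ξ c V _ G ν σ W' hc hH hξ h hW' hm
  have hms := fun A => ms_nonneg h.ν0 A
  have hsc : ∀ s < n + 1, ∀ x, 0 ≤ sc G σ s x := fun s hs x => nm_nonneg (h.ρ0 s hs) x
  have hcξ : ξ ≤ c * ξ := le_mul_of_one_le_left hξ hc
  have hcH : H ≤ c * H := le_mul_of_one_le_left hH hc
  have hsub := W_sub hW'
  have heq : ∀ s < n + 1, (σ.shr (n + 1) W').W s = σ.W s := fun s hs => W_eq hs.ne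
  refine
    { ν0 := h.ν0
      ν1 := h.ν1
      al := fun I hI => (h.al I hI).trans hcξ
      W0 := (heq 0 (by omega)).trans h.W0
      sub := ?_
      pos := ?_
      ρ0 := h.ρ0
      ρW := ?_
      ρ1 := h.ρ1
      ρS := h.ρS
      ap := fun s hs x hx => h.ap s hs x (hsub _ hx)
      dH := ?_
      dξ := ?_
      at' := ?_
      drop := ?_
      far := fun s hs x hx y hy hxy => h.far s hs x (hsub _ hx) y (hsub _ hy) hxy
      sg2 := ?_
      sgS := ?_
      ker := ?_
      itm := ?_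
      lab := ?_
      sep := ?_ }
  · intro s hs
    rw [heq s hs]
    exact (hsub _).trans (h.sub s hs)
  · rw [W_last]
    refine h.pos.trans ?_
    calc H * ms ν (σ.W (n + 1)) ≤ H * (c * ms ν W') := mul_le_mul_of_nonneg_left hm hH
      _ = c * H * ms ν W' := by ring
  · intro s hs v hv
    obtain ⟨h1, h2⟩ := h.ρW s hs v hv
    refine ⟨?_, fun h3 => h2 (hsub _ h3)⟩
    rw [heq s hs]
    exact h1
  · intro s hs w hw
    rw [heq s hs] at hw
    exact ((nmzt_mono h.ν0 (h.ρ0 s hs) (hsub _) w).trans (h.dH s hs w hw)).trans hcH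
  · intro s hs w hw
    exact ((nmzt_mono h.ν0 (h.ρ0 s hs) (hsub _) w).trans (h.dξ s hs w (hsub _ hw))).trans hcξ
  · intro s hs x hx
    exact (h.at' s hs x (hsub _ hx)).trans (mul_le_mul_of_nonneg_right hcξ (hsc s hs x))
  · intro d s hd hs x hx
    exact (h.drop d s hd hs x (hsub _ hx)).trans
      (mul_le_mul_of_nonneg_right hcξ (hsc d (hd.trans hs) x))
  · intro d s hd hs
    rcases h.sg2 d s hd hs with h1 | h1
    · exact Or.inl fun x hx => h1 x (hsub _ hx)
    · exact Or.inr fun x hx => h1 x (hsub _ hx)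
  · intro s hs S hS hSm
    rcases h.sgS s hs S hS hSm with h1 | h1
    · exact Or.inl fun x hx => h1 x (hsub _ hx)
    · exact Or.inr fun x hx => h1 x (hsub _ hx)
  · intro s hs C hC j hj hj' hM
    rw [heq s hs] at hM
    obtain ⟨m, l, h1, h2, h3, h4, h5⟩ := h.ker s hs C hC j hj hj' hM
    refine ⟨m, l, ?_, h2, h3, ?_, ?_⟩
    · rw [heq s hs]
      exact h1
    · rw [heq s hs]
      exact h4
    · intro x hx
      rw [heq s hs]
      refine (h5 x (hsub _ hx)).trans ?_
      exact mul_le_mul_of_nonneg_right (mul_le_mul_of_nonneg_right hcH (hms _)) (hsc s hs x)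
  · intro s hs S hS hSm hT
    rcases h.itm s hs S hS hSm hT with h1 | ⟨h1, h2⟩
    · refine Or.inl fun C hC => ⟨fun j hj hj' hM => ?_, ?_⟩
      · rw [heq s hs] at hM
        exact hasMS_sub (hsub _) ((h1 C hC).1 j hj hj' hM)
      · rw [heq s hs]
        exact (h1 C hC).2
    · refine Or.inr ⟨fun x hx => h1 x (hsub _ hx), ?_⟩
      rcases h2 with ⟨d, hd, h2⟩ | h2 | h2 | h2
      · exact Or.inl ⟨d, hd, fun x hx => h2 x (hsub _ hx)⟩
      · refine Or.inr (Or.inl fun W'' hW'' hm'' => ?_)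
        rw [W_last] at hW'' hm''
        refine h2 W'' (hW''.trans hW') (le_trans ?_ hm'')
        calc ξ * ms ν (σ.W (n + 1)) ≤ ξ * (c * ms ν W') := mul_le_mul_of_nonneg_left hm hξ
          _ = c * ξ * ms ν W' := by ring
      · refine Or.inr (Or.inr (Or.inl fun C hC => ⟨fun j hj hj' hM => ?_, ?_⟩))
        · rw [heq s hs] at hM
          exact hasMS_sub (hsub _) ((h2 C hC).1 j hj hj' hM)
        · rw [heq s hs]
          exact (h2 C hC).2
      · exact Or.inr (Or.inr (Or.inr h2))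
  · intro S s hB
    obtain ⟨h1, h2, h3, h4⟩ := h.lab S s hB
    refine ⟨h1, h2, h3, ?_, fun x hx => h4.adj x (hsub _ hx),
      fun t ht => (h4.card t (hsub _ ht)).trans hcH,
      fun x hx t ht => h4.conf x (hsub _ hx) t (hsub _ ht),
      fun x hx t ht => h4.prop x (hsub _ hx) t (hsub _ ht)⟩
    intro x hx
    obtain ⟨h5, h6⟩ := h4.mem x (hsub _ hx)
    refine ⟨?_, fun h7 => h6 (hsub _ h7)⟩
    rw [heq s h1]
    exact h5
  · intro i hi
    have h1 := h.sep i hi
    unfold SepAt at *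
    rw [heq i hi]
    exact h1

end Pool.Agent.Lib.FGF
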