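import Pool.Agent.Lib.FGF.Stmts

/-!
# The fractional Gyarfas-Sumner conjecture: module `Split`
-/

set_option autoImplicit false

namespace Pool.Agent.Lib.FGF

open Finset Classical
open Pool.Agent.Lib.FracGS (nb wnb TAdj pat)
open Pool.Agent.Lib.GSR3 (Stab Small Tree)
open Pool.Agent.Lib.GSR5 (NLC)

namespace SplitAux

section General

variable {V : Type} [Fintype V] (G : SimpleGraph V)

theorem nm_eq (r : V → ℝ) (x : V) :
    nm G r x = ∑ y ∈ Finset.univ.filter (fun y => G.Adj x y), r y := rfl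

theorem nm_nonneg {r : V → ℝ} (h : ∀ v, 0 ≤ r v) (x : V) : 0 ≤ nm G r x :=
  Finset.sum_nonneg fun y _ => h y

omit [Fintype V] in
theorem swap (ρ ζ : V → ℝ) (Y W : Finset V) (C : V → Finset V) (hC : ∀ y ∈ Y, C y ⊆ W) :
    ∑ y ∈ Y, ρ y * ∑ x ∈ C y, ζ x = ∑ x ∈ W, ζ x * ∑ y ∈ Y.filter (fun y => x ∈ C y), ρ y := by
  simp only [Finset.mul_sum]
  rw [Finset.sum_comm' (t' := W) (s' := fun x => Y.filter (fun y => x ∈ C y))]
  · exact Finset.sum_congr rfl fun x _ => Finset.sum_congr rfl fun y _ => by ring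
  · intro y x
    simp only [Finset.mem_filter]
    constructor
    · rintro ⟨h1, h2⟩
      exact ⟨⟨h1, h2⟩, hC y h1 h2⟩
    · rintro ⟨⟨h1, h2⟩, -⟩
      exact ⟨h1, h2⟩

/-- common weight -/
noncomputable def com (ρ : V → ℝ) (x x' : V) : ℝ :=
  ∑ y ∈ Finset.univ.filter (fun y => G.Adj x y ∧ G.Adj x' y), ρ y

theorem com_nonneg {ρ : V → ℝ} (h : ∀ v, 0 ≤ ρ v) (x x' : V) : 0 ≤ com G ρ x x' :=
  Finset.sum_nonneg fun y _ => h y

theorem com_le_left {ρ : V → ℝ} (h : ∀ v, 0 ≤ ρ v) (x x' : V) : com G ρ x x' ≤ nm G ρ x := by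
  rw [nm_eq]
  refine Finset.sum_le_sum_of_subset_of_nonneg (fun y hy => ?_) fun y _ _ => h y
  rw [Finset.mem_filter] at hy ⊢
  exact ⟨hy.1, hy.2.1⟩

theorem com_le_right {ρ : V → ℝ} (h : ∀ v, 0 ≤ ρ v) (x x' : V) :
    com G ρ x x' ≤ nm G ρ x' := by
  rw [nm_eq]
  refine Finset.sum_le_sum_of_subset_of_nonneg (fun y hy => ?_) fun y _ _ => h y
  rw [Finset.mem_filter] at hy ⊢
  exact ⟨hy.1, hy.2.2⟩

theorem ell_eq (ρ : V → ℝ) (x x' : V) :
    ell G ρ x x' = com G ρ x x' / (Real.sqrt (nm G ρ x) * Real.sqrt (nm G ρ x')) := rfl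

theorem ell_nonneg {ρ : V → ℝ} (h : ∀ v, 0 ≤ ρ v) (x x' : V) : 0 ≤ ell G ρ x x' :=
  div_nonneg (com_nonneg G h x x') (mul_nonneg (Real.sqrt_nonneg _) (Real.sqrt_nonneg _))

theorem ell_le_one {ρ : V → ℝ} (h : ∀ v, 0 ≤ ρ v) (x x' : V) : ell G ρ x x' ≤ 1 := by
  rw [ell_eq]
  refine div_le_one_of_le₀ ?_ (mul_nonneg (Real.sqrt_nonneg _) (Real.sqrt_nonneg _))
  have h1 := Real.sqrt_le_sqrt (com_le_left G h x x')
  have h2 := Real.sqrt_le_sqrt (com_le_right G h x x')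
  calc com G ρ x x' = Real.sqrt (com G ρ x x') * Real.sqrt (com G ρ x x') :=
        (Real.mul_self_sqrt (com_nonneg G h x x')).symm
    _ ≤ _ := mul_le_mul h1 h2 (Real.sqrt_nonneg _) (Real.sqrt_nonneg _)

theorem ratio_aux (a b c e : ℝ) (ha : 0 < a) (hb : 0 < b) (he : 0 < e)
    (hcb : c ≤ b) (h : e ≤ c / (Real.sqrt a * Real.sqrt b)) : a ≤ 1 / e ^ 2 * b := by
  have h1 : 0 < Real.sqrt a := Real.sqrt_pos.2 ha
  have h2 : 0 < Real.sqrt b := Real.sqrt_pos.2 hb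
  rw [le_div_iff₀ (by positivity)] at h
  have h3 : e * (Real.sqrt a * Real.sqrt b) ≤ Real.sqrt b * Real.sqrt b := by
    rw [Real.mul_self_sqrt hb.le]
    exact h.trans hcb
  have h4 : e * Real.sqrt a ≤ Real.sqrt b := by
    by_contra hcon
    have := mul_lt_mul_of_pos_right (not_le.1 hcon) h2
    linarith
  have h5 : (e * Real.sqrt a) ^ 2 ≤ Real.sqrt b ^ 2 := pow_le_pow_left₀ (by positivity) h4 2
  rw [mul_pow, Real.sq_sqrt ha.le, Real.sq_sqrt hb.le] at h5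
  rw [one_div, inv_mul_eq_div, le_div_iff₀ (by positivity)]
  linarith

theorem ell_ratio {ρ : V → ℝ} (h : ∀ v, 0 ≤ ρ v) (x x' : V) (e : ℝ) (he : 0 < e)
    (hx : 0 < nm G ρ x) (hx' : 0 < nm G ρ x') (hl : e ≤ ell G ρ x x') :
    nm G ρ x ≤ 1 / e ^ 2 * nm G ρ x' ∧ nm G ρ x' ≤ 1 / e ^ 2 * nm G ρ x := by
  rw [ell_eq] at hl
  refine ⟨ratio_aux _ _ _ e hx hx' he (com_le_right G h x x') hl, ?_⟩
  rw [mul_comm] at hl
  exact ratio_aux _ _ _ e hx' hx he (com_le_left G h x x') hl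

theorem prod_ge (S : Finset ℕ) (f : ℕ → ℝ) (e : ℝ) (h0 : ∀ c ∈ S, 0 ≤ f c)
    (h1 : ∀ c ∈ S, f c ≤ 1) (h : e ≤ ∏ c ∈ S, f c) (c : ℕ) (hc : c ∈ S) : e ≤ f c := by
  rw [← Finset.mul_prod_erase S f hc] at h
  have h2 : ∏ c ∈ S.erase c, f c ≤ 1 :=
    Finset.prod_le_one (fun i hi => h0 i (Finset.mem_of_mem_erase hi))
      (fun i hi => h1 i (Finset.mem_of_mem_erase hi))
  exact h.trans (mul_le_of_le_one_right (h0 c hc) h2)

omit [Fintype V] in
/-- median -/
theorem median (C : Finset V) (w a : V → ℝ) (hw : ∀ x, 0 ≤ w x) (hC : C.Nonempty) :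
    ∃ x0 ∈ C, (∑ x ∈ C, w x) ≤ 2 * ∑ x ∈ C.filter (fun x => a x ≤ a x0), w x ∧
      (∑ x ∈ C, w x) ≤ 2 * ∑ x ∈ C.filter (fun x => a x0 ≤ a x), w x := by
  have h0 : 0 ≤ ∑ x ∈ C, w x := Finset.sum_nonneg fun x _ => hw x
  set E := C.filter (fun z => (∑ x ∈ C, w x) ≤ 2 * ∑ x ∈ C.filter (fun x => a x ≤ a z), w x)
    with hE
  have hEne : E.Nonempty := by
    obtain ⟨z, hz, hmax⟩ := Finset.exists_max_image C a hC
    refine ⟨z, ?_⟩
    rw [hE, Finset.mem_filter]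
    refine ⟨hz, ?_⟩
    have : C.filter (fun x => a x ≤ a z) = C := Finset.filter_true_of_mem hmax
    rw [this]
    linarith
  obtain ⟨x0, hx0, hmin⟩ := Finset.exists_min_image E a hEne
  rw [hE, Finset.mem_filter] at hx0
  refine ⟨x0, hx0.1, hx0.2, ?_⟩
  have hsplit := Finset.sum_filter_add_sum_filter_not C (fun x => a x0 ≤ a x) w
  have hlow : 2 * ∑ x ∈ C.filter (fun x => ¬ a x0 ≤ a x), w x ≤ ∑ x ∈ C, w x := by
    rcases (C.filter (fun x => ¬ a x0 ≤ a x)).eq_empty_or_nonempty with he | hne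
    · rw [he, Finset.sum_empty]
      linarith
    · obtain ⟨x1, hx1, hmax⟩ := Finset.exists_max_image _ a hne
      rw [Finset.mem_filter] at hx1
      have hlt : a x1 < a x0 := not_le.1 hx1.2
      have heq : C.filter (fun x => ¬ a x0 ≤ a x) = C.filter (fun x => a x ≤ a x1) := by
        ext x
        rw [Finset.mem_filter, Finset.mem_filter]
        constructor
        · rintro ⟨h1, h2⟩
          exact ⟨h1, hmax x (Finset.mem_filter.2 ⟨h1, h2⟩)⟩
        · rintro ⟨h1, h2⟩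
          exact ⟨h1, not_le.2 (lt_of_le_of_lt h2 hlt)⟩
      rw [heq]
      by_contra hcon
      have h3 : x1 ∈ E := by
        rw [hE, Finset.mem_filter]
        exact ⟨hx1.1, (not_le.1 hcon).le⟩
      exact absurd (hmin x1 h3) (not_le.2 hlt)
  linarith

omit [Fintype V] in
/-- selection of the good vertices -/
theorem select (ν a g : V → ℝ) (W1 : Finset V) (e : ℝ) (hν : ∀ v, 0 ≤ ν v)
    (ha : ∀ x ∈ W1, 0 < a x) (hg1 : ∀ x ∈ W1, g x ≤ a x) (he : 0 < e)
    (h : 3 * e / 32 * ms ν W1 ≤ ∑ x ∈ W1, ν x / a x * g x) :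
    e * ms ν W1 ≤ 32 * ms ν (W1.filter (fun x => e / 32 * a x ≤ g x)) := by
  have hsplit := Finset.sum_filter_add_sum_filter_not W1 (fun x => e / 32 * a x ≤ g x)
    (fun x => ν x / a x * g x)
  have h1 : ∑ x ∈ W1.filter (fun x => e / 32 * a x ≤ g x), ν x / a x * g x ≤
      ms ν (W1.filter (fun x => e / 32 * a x ≤ g x)) := by
    refine Finset.sum_le_sum fun x hx => ?_
    have hx' := (Finset.mem_filter.1 hx).1
    have hax := ha x hx'
    calc ν x / a x * g x ≤ ν x / a x * a x :=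
          mul_le_mul_of_nonneg_left (hg1 x hx') (div_nonneg (hν x) hax.le)
      _ = ν x := by field_simp
  have h2 : ∑ x ∈ W1.filter (fun x => ¬ e / 32 * a x ≤ g x), ν x / a x * g x ≤
      e / 32 * ms ν W1 := by
    have h3 : ∑ x ∈ W1.filter (fun x => ¬ e / 32 * a x ≤ g x), ν x / a x * g x ≤
        ∑ x ∈ W1.filter (fun x => ¬ e / 32 * a x ≤ g x), e / 32 * ν x := by
      refine Finset.sum_le_sum fun x hx => ?_
      have hx' := Finset.mem_filter.1 hx
      have hax := ha x hx'.1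
      calc ν x / a x * g x ≤ ν x / a x * (e / 32 * a x) :=
            mul_le_mul_of_nonneg_left (not_le.1 hx'.2).le (div_nonneg (hν x) hax.le)
        _ = e / 32 * ν x := by field_simp
    refine h3.trans ?_
    rw [← Finset.mul_sum]
    refine mul_le_mul_of_nonneg_left ?_ (by positivity)
    exact Finset.sum_le_sum_of_subset_of_nonneg (Finset.filter_subset _ _) fun x _ _ => hν x
  have h4 : 0 ≤ e * ms ν W1 := mul_nonneg he.le (Finset.sum_nonneg fun x _ => hν x)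
  linarith

/-- the fibre -/
noncomputable def Xy (W1 : Finset V) (y : V) : Finset V := W1.filter (fun x => G.Adj y x)

/-- the product of the links -/
noncomputable def Pl (ρ : ℕ → V → ℝ) (S : Finset ℕ) (x x' : V) : ℝ := ∏ c ∈ S, ell G (ρ c) x x'

/-- the vertices of the fibre linked to `z` -/
noncomputable def Cz (ρ : ℕ → V → ℝ) (S : Finset ℕ) (W1 : Finset V) (e : ℝ) (y z : V) :
    Finset V := (Xy G W1 y).filter (fun x => e ≤ Pl G ρ S z x)

theorem Pl_nonneg {ρ : ℕ → V → ℝ} {S : Finset ℕ} (h : ∀ c ∈ S, ∀ v, 0 ≤ ρ c v) (x x' : V) :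
    0 ≤ Pl G ρ S x x' := Finset.prod_nonneg fun c hc => ell_nonneg G (h c hc) x x'

theorem Pl_le_one {ρ : ℕ → V → ℝ} {S : Finset ℕ} (h : ∀ c ∈ S, ∀ v, 0 ≤ ρ c v) (x x' : V) :
    Pl G ρ S x x' ≤ 1 :=
  Finset.prod_le_one (fun c hc => ell_nonneg G (h c hc) x x')
    fun c hc => ell_le_one G (h c hc) x x'

theorem zt_nonneg {ν r : V → ℝ} (hν : ∀ v, 0 ≤ ν v) (hr : ∀ v, 0 ≤ r v) (W1 : Finset V) (x : V) :
    0 ≤ zt G ν r W1 x := by
  unfold zt
  split_ifs
  · exact div_nonneg (hν x) (nm_nonneg G hr x)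
  · exact le_rfl

theorem lk_le {ν r : V → ℝ} {ρ : ℕ → V → ℝ} {S : Finset ℕ} (W1 : Finset V) (e : ℝ)
    (hν : ∀ v, 0 ≤ ν v) (hr : ∀ v, 0 ≤ r v) (hρ : ∀ c ∈ S, ∀ v, 0 ≤ ρ c v) (he : 0 ≤ e)
    (x0 : V → V) (hmax : ∀ y, ∀ z ∈ Xy G W1 y, ∑ x ∈ Cz G ρ S W1 e y z, zt G ν r W1 x ≤
      ∑ x ∈ Cz G ρ S W1 e y (x0 y), zt G ν r W1 x) :
    lk G ν r ρ S W1 ≤ ∑ y, r y * ∑ x ∈ Cz G ρ S W1 e y (x0 y), zt G ν r W1 x +
      e * ∑ y, r y * nm G (zt G ν r W1) y := by
  have hζ := zt_nonneg G hν hr W1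
  rw [Finset.mul_sum, ← Finset.sum_add_distrib]
  unfold lk
  refine Finset.sum_le_sum fun y _ => ?_
  have hD : 0 ≤ nm G (zt G ν r W1) y := nm_nonneg G hζ y
  have hC0 : 0 ≤ ∑ x ∈ Cz G ρ S W1 e y (x0 y), zt G ν r W1 x := Finset.sum_nonneg fun x _ => hζ x
  have hin : ∑ x ∈ Finset.univ.filter (fun x => G.Adj y x),
      ∑ x' ∈ Finset.univ.filter (fun x' => G.Adj y x'),
        zt G ν r W1 x * zt G ν r W1 x' * ∏ c ∈ S, ell G (ρ c) x x' ≤
      nm G (zt G ν r W1) y * (∑ x ∈ Cz G ρ S W1 e y (x0 y), zt G ν r W1 x +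
        e * nm G (zt G ν r W1) y) := by
    have h1 : ∀ x ∈ Finset.univ.filter (fun x => G.Adj y x),
        ∑ x' ∈ Finset.univ.filter (fun x' => G.Adj y x'),
          zt G ν r W1 x * zt G ν r W1 x' * ∏ c ∈ S, ell G (ρ c) x x' ≤
        zt G ν r W1 x * (∑ x ∈ Cz G ρ S W1 e y (x0 y), zt G ν r W1 x +
        e * nm G (zt G ν r W1) y) := by
      intro x hx
      by_cases hxW : x ∈ W1
      · have hxX : x ∈ Xy G W1 y := Finset.mem_filter.2 ⟨hxW, (Finset.mem_filter.1 hx).2⟩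
        have h2 : ∑ x' ∈ Finset.univ.filter (fun x' => G.Adj y x'),
            zt G ν r W1 x' * Pl G ρ S x x' ≤
            ∑ x' ∈ Cz G ρ S W1 e y x, zt G ν r W1 x' + e * nm G (zt G ν r W1) y := by
          have h3 : ∑ x' ∈ Cz G ρ S W1 e y x, zt G ν r W1 x' =
              ∑ x' ∈ Finset.univ.filter (fun x' => G.Adj y x'),
                if x' ∈ Cz G ρ S W1 e y x then zt G ν r W1 x' else 0 := by
            rw [← Finset.sum_filter]
            refine Finset.sum_congr ?_ fun _ _ => rfl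
            ext x'
            rw [Finset.mem_filter, Finset.mem_filter]
            constructor
            · intro h
              exact ⟨⟨Finset.mem_univ _,
                (Finset.mem_filter.1 (Finset.mem_filter.1 h).1).2⟩, h⟩
            · intro h
              exact h.2
          rw [h3, nm_eq, Finset.mul_sum, ← Finset.sum_add_distrib]
          refine Finset.sum_le_sum fun x' hx' => ?_
          have hz := hζ x'
          have hp0 := Pl_nonneg G hρ x x'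
          have hp1 := Pl_le_one G hρ x x'
          split_ifs with hc
          · have : 0 ≤ e * zt G ν r W1 x' := mul_nonneg he hz
            nlinarith
          · rw [zero_add]
            by_cases hx'W : x' ∈ W1
            · have hlt : Pl G ρ S x x' < e := by
                by_contra hcon
                exact hc (Finset.mem_filter.2 ⟨Finset.mem_filter.2
                  ⟨hx'W, (Finset.mem_filter.1 hx').2⟩, not_lt.1 hcon⟩)
              nlinarith
            · have : zt G ν r W1 x' = 0 := by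
                unfold zt
                rw [if_neg hx'W]
              rw [this]
              simp
        have h4 := h2.trans (add_le_add (hmax y x hxX) le_rfl)
        have h5 := mul_le_mul_of_nonneg_left h4 (hζ x)
        refine le_trans (le_of_eq ?_) h5
        rw [Finset.mul_sum]
        refine Finset.sum_congr rfl fun x' _ => ?_
        unfold Pl
        ring
      · have : zt G ν r W1 x = 0 := by
          unfold zt
          rw [if_neg hxW]
        simp [this]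
    refine (Finset.sum_le_sum h1).trans (le_of_eq ?_)
    rw [← Finset.sum_mul, ← nm_eq]
  rcases eq_or_lt_of_le hD with h0 | h0
  · rw [← h0]
    simp only [div_zero, zero_mul, mul_zero, add_zero]
    exact mul_nonneg (hr y) hC0
  · calc _ ≤ r y / nm G (zt G ν r W1) y * (nm G (zt G ν r W1) y *
          (∑ x ∈ Cz G ρ S W1 e y (x0 y), zt G ν r W1 x + e * nm G (zt G ν r W1) y)) :=
        mul_le_mul_of_nonneg_left hin (div_nonneg (hr y) hD)
      _ = _ := by field_simp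

theorem mass_eq {ν r : V → ℝ} (W1 : Finset V) (ha : ∀ x ∈ W1, 0 < nm G r x) :
    ∑ y, r y * nm G (zt G ν r W1) y = ms ν W1 := by
  have h := swap r (zt G ν r W1) Finset.univ Finset.univ
    (fun y => Finset.univ.filter (fun x => G.Adj y x)) (fun y _ => Finset.subset_univ _)
  have h1 : ∑ y, r y * nm G (zt G ν r W1) y = ∑ y ∈ Finset.univ, r y *
      ∑ x ∈ Finset.univ.filter (fun x => G.Adj y x), zt G ν r W1 x := rfl
  rw [h1, h]
  have h2 : ∀ x, zt G ν r W1 x * ∑ y ∈ Finset.univ.filter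
      (fun y => x ∈ Finset.univ.filter (fun x => G.Adj y x)), r y =
      if x ∈ W1 then ν x else 0 := by
    intro x
    have h3 : Finset.univ.filter (fun y => x ∈ Finset.univ.filter (fun x => G.Adj y x)) =
        Finset.univ.filter (fun y => G.Adj x y) := by
      ext y
      simp [G.adj_comm]
    rw [h3, ← nm_eq]
    unfold zt
    split_ifs with hx
    · have := ha x hx
      field_simp
    · simp
  rw [Finset.sum_congr rfl fun x _ => h2 x, ← Finset.sum_filter]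
  unfold ms
  refine Finset.sum_congr ?_ fun _ _ => rfl
  ext x
  simp

end General

end SplitAux

open SplitAux in
/-- Module `Split`. -/
theorem stSplit : StSplit := by
  intro P hP n T H ξ K V _ G ν σ S W1 hK hS hSn hSm hmin hW1 hlk
  have hν := hS.ν0
  have hε := hP.ε0
  have hρ : ∀ c ≤ n, ∀ v, 0 ≤ σ.ρ c v := fun c hc => hS.ρ0 c (by omega)
  have hρS : ∀ c ∈ S, ∀ v, 0 ≤ σ.ρ c v :=
    fun c hc => hρ c (Finset.mem_range.1 (hSn hc)).le
  have hchain : ∀ i j, i ≤ j → j ≤ n + 1 → σ.W j ⊆ σ.W i := by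
    intro i j hij
    induction j, hij using Nat.le_induction with
    | base => intro _; exact Finset.Subset.refl _
    | succ k hk ih => intro hk'; exact (hS.sub k (by omega)).trans (ih (by omega))
  have ha : ∀ c ≤ n, ∀ x ∈ W1, 0 < sc G σ c x := fun c hc x hx =>
    hS.ap c (by omega) x (hchain (c + 1) (n + 1) (by omega) le_rfl (hW1 hx))
  obtain ⟨ζ, hζdef⟩ : ∃ ζ, ζ = zt G ν (σ.ρ n) W1 := ⟨_, rfl⟩
  have hζ0 : ∀ x, 0 ≤ ζ x := by
    rw [hζdef]; exact zt_nonneg G hν (hρ n le_rfl) W1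
  have hζW : ∀ x ∈ W1, ζ x = ν x / sc G σ n x := by
    intro x hx
    rw [hζdef]
    unfold zt sc
    rw [if_pos hx]
  -- the centres
  have hex : ∀ y, ∃ z, (Xy G W1 y).Nonempty → (z ∈ Xy G W1 y ∧ ∀ z' ∈ Xy G W1 y,
      ∑ x ∈ Cz G σ.ρ S W1 (P.ε / 2) y z', ζ x ≤ ∑ x ∈ Cz G σ.ρ S W1 (P.ε / 2) y z, ζ x) := by
    intro y
    by_cases hne : (Xy G W1 y).Nonempty
    · obtain ⟨z, hz, hmax⟩ := Finset.exists_max_image (Xy G W1 y)
        (fun z => ∑ x ∈ Cz G σ.ρ S W1 (P.ε / 2) y z, ζ x) hne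
      exact ⟨z, fun _ => ⟨hz, hmax⟩⟩
    · exact ⟨y, fun h => absurd h hne⟩
  choose x0 hx0 using hex
  obtain ⟨C, hC⟩ : ∃ C : V → Finset V, C = fun y => Cz G σ.ρ S W1 (P.ε / 2) y (x0 y) := ⟨_, rfl⟩
  have hCX : ∀ y, ∀ x ∈ C y, x ∈ W1 ∧ G.Adj y x ∧ P.ε / 2 ≤ Pl G σ.ρ S (x0 y) x ∧
      x0 y ∈ W1 := by
    intro y x hx
    rw [hC] at hx
    have h1 := Finset.mem_filter.1 hx
    have h2 := Finset.mem_filter.1 h1.1
    have h3 := (hx0 y ⟨x, h1.1⟩).1
    exact ⟨h2.1, h2.2, h1.2, (Finset.mem_filter.1 h3).1⟩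
  have hCW : ∀ y, C y ⊆ W1 := fun y x hx => (hCX y x hx).1
  -- the classes
  obtain ⟨A, hA⟩ : ∃ A : ℕ → V → ℝ, A = fun c y => sc G σ c (x0 y) := ⟨_, rfl⟩
  have hcls : ∀ y, ∀ x ∈ C y, ∀ c ∈ S, 0 < A c y ∧ sc G σ c x ≤ 4 / P.ε ^ 2 * A c y ∧
      A c y ≤ 4 / P.ε ^ 2 * sc G σ c x := by
    intro y x hx c hc
    obtain ⟨h1, h2, h3, h4⟩ := hCX y x hx
    have hcn : c ≤ n := (Finset.mem_range.1 (hSn hc)).le
    have h5 := prod_ge S (fun c => ell G (σ.ρ c) (x0 y) x) (P.ε / 2)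
      (fun c hc => ell_nonneg G (hρS c hc) _ _) (fun c hc => ell_le_one G (hρS c hc) _ _) h3 c hc
    obtain ⟨h6, h7⟩ := ell_ratio G (hρS c hc) (x0 y) x (P.ε / 2) (by positivity)
      (ha c hcn _ h4) (ha c hcn _ h1) h5
    have h8 : 1 / (P.ε / 2) ^ 2 = 4 / P.ε ^ 2 := by
      field_simp
      ring
    rw [h8] at h6 h7
    rw [hA]
    exact ⟨ha c hcn _ h4, h7, h6⟩
  -- the mass of the pairs
  have hmass := mass_eq (ν := ν) G W1 (ha n le_rfl)
  have hpair : P.ε / 2 * ms ν W1 ≤ ∑ y, σ.ρ n y * ∑ x ∈ C y, ζ x := by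
    have h1 := lk_le G (S := S) W1 (P.ε / 2) hν (hρ n le_rfl) hρS (by positivity) x0 (by
      intro y z hz
      have := (hx0 y ⟨z, hz⟩).2 z hz
      rw [hζdef] at this
      exact this)
    rw [hmass, ← hζdef] at h1
    have h2 : ∑ y, σ.ρ n y * ∑ x ∈ Cz G σ.ρ S W1 (P.ε / 2) y (x0 y), ζ x =
        ∑ y, σ.ρ n y * ∑ x ∈ C y, ζ x := by rw [hC]
    rw [h2] at h1
    linarith
  have hms0 : 0 ≤ ms ν W1 := Finset.sum_nonneg fun x _ => hν x
  -- dropping the hubs which are too big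
  obtain ⟨Bd, hBd⟩ : ∃ Bd : ℕ → Finset V, Bd = fun c => Finset.univ.filter
    (fun y => σ.ρ n y ≠ 0 ∧ A c y < sc G σ c y) := ⟨_, rfl⟩
  have hdrop : ∀ c ∈ S, ∑ y ∈ Bd c, σ.ρ n y * ∑ x ∈ C y, ζ x ≤ P.ε2 * ms ν W1 := by
    intro c hc
    have hcn : c < n := Finset.mem_range.1 (hSn hc)
    rw [swap (σ.ρ n) ζ (Bd c) W1 C (fun y _ => hCW y)]
    unfold ms
    rw [Finset.mul_sum]
    refine Finset.sum_le_sum fun x hx => ?_
    have hax := ha n le_rfl x hx
    have h1 : ∑ y ∈ (Bd c).filter (fun y => x ∈ C y), σ.ρ n y ≤ P.ε2 * sc G σ n x := by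
      refine le_trans ?_ (hmin c hc x (hW1 hx)).le
      unfold big
      refine Finset.sum_le_sum_of_subset_of_nonneg (fun y hy => ?_)
        fun y _ _ => hρ n le_rfl y
      rw [hBd, Finset.mem_filter, Finset.mem_filter] at hy
      obtain ⟨⟨-, hy0, hyA⟩, hyC⟩ := hy
      obtain ⟨h2, h3, h4, h5⟩ := hCX y x hyC
      rw [Finset.mem_filter]
      refine ⟨Finset.mem_univ _, h3.symm, ?_⟩
      intro c' hc'
      rw [Finset.mem_singleton] at hc'
      subst hc'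
      have hyW := (hS.ρW n (by omega) y hy0).1
      have hyW' : y ∈ σ.W (c' + 1) := hchain (c' + 1) n (by omega) (by omega) hyW
      have hxW' : x ∈ σ.W (c' + 1) := hchain (c' + 1) (n + 1) (by omega) le_rfl (hW1 hx)
      rcases hS.far c' (by omega) x hxW' y hyW' h3.symm with h6 | h6
      · exact h6
      · exfalso
        obtain ⟨h7, h8, h9⟩ := hcls y x hyC c' hc
        have h10 := hP.Γ3
        have h11 : 0 < 4 / P.ε ^ 2 := by positivity
        have h12 : 0 < P.Γ := by linarith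
        have h13 : P.Γ * A c' y < P.Γ * sc G σ c' y := mul_lt_mul_of_pos_left hyA h12
        have h14 : 4 / P.ε ^ 2 * A c' y ≤ P.Γ * A c' y := mul_le_mul_of_nonneg_right h10 h7.le
        linarith
    rw [hζW x hx]
    calc ν x / sc G σ n x * ∑ y ∈ (Bd c).filter (fun y => x ∈ C y), σ.ρ n y
        ≤ ν x / sc G σ n x * (P.ε2 * sc G σ n x) :=
          mul_le_mul_of_nonneg_left h1 (div_nonneg (hν x) hax.le)
      _ = P.ε2 * ν x := by field_simp
  obtain ⟨Y0, hY0⟩ : ∃ Y0 : Finset V, Y0 = Finset.univ.filter (fun y => σ.ρ n y ≠ 0 ∧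
    (C y).Nonempty ∧ ∀ c ∈ S, sc G σ c y ≤ A c y) := ⟨_, rfl⟩
  have hY0mass : 3 * P.ε / 8 * ms ν W1 ≤ ∑ y ∈ Y0, σ.ρ n y * ∑ x ∈ C y, ζ x := by
    have hterm : ∀ y, 0 ≤ σ.ρ n y * ∑ x ∈ C y, ζ x := fun y =>
      mul_nonneg (hρ n le_rfl y) (Finset.sum_nonneg fun x _ => hζ0 x)
    have h1 : ∑ y, σ.ρ n y * ∑ x ∈ C y, ζ x ≤ ∑ y ∈ Y0, σ.ρ n y * ∑ x ∈ C y, ζ x +
        ∑ c ∈ S, ∑ y ∈ Bd c, σ.ρ n y * ∑ x ∈ C y, ζ x := by
      have h2 : ∑ y ∈ Y0, σ.ρ n y * ∑ x ∈ C y, ζ x =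
          ∑ y, if y ∈ Y0 then σ.ρ n y * ∑ x ∈ C y, ζ x else 0 := by
        rw [← Finset.sum_filter]
        refine Finset.sum_congr ?_ fun _ _ => rfl
        ext y; simp
      have h3 : ∑ c ∈ S, ∑ y ∈ Bd c, σ.ρ n y * ∑ x ∈ C y, ζ x =
          ∑ y, ∑ c ∈ S, if y ∈ Bd c then σ.ρ n y * ∑ x ∈ C y, ζ x else 0 := by
        rw [Finset.sum_comm]
        refine Finset.sum_congr rfl fun c _ => ?_
        rw [← Finset.sum_filter]
        refine Finset.sum_congr ?_ fun _ _ => rfl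
        ext y; simp
      rw [h2, h3, ← Finset.sum_add_distrib]
      refine Finset.sum_le_sum fun y _ => ?_
      have hnn : 0 ≤ ∑ c ∈ S, (if y ∈ Bd c then σ.ρ n y * ∑ x ∈ C y, ζ x else 0) := by
        refine Finset.sum_nonneg fun c _ => ?_
        split_ifs
        · exact hterm y
        · exact le_rfl
      by_cases hy : y ∈ Y0
      · rw [if_pos hy]
        linarith
      · rw [if_neg hy, zero_add]
        by_cases hr0 : σ.ρ n y = 0
        · rw [hr0, zero_mul]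
          rw [hr0, zero_mul] at hnn
          exact hnn
        · by_cases hCe : (C y).Nonempty
          · have : ∃ c ∈ S, A c y < sc G σ c y := by
              by_contra hcon
              push Not at hcon
              exact hy (by rw [hY0, Finset.mem_filter]
                           exact ⟨Finset.mem_univ _, hr0, hCe, hcon⟩)
            obtain ⟨c, hc, hlt⟩ := this
            have hyB : y ∈ Bd c := by
              rw [hBd, Finset.mem_filter]
              exact ⟨Finset.mem_univ _, hr0, hlt⟩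
            have h4 := Finset.single_le_sum (s := S)
              (f := fun c => if y ∈ Bd c then σ.ρ n y * ∑ x ∈ C y, ζ x else 0)
              (fun c _ => by
                show 0 ≤ if y ∈ Bd c then σ.ρ n y * ∑ x ∈ C y, ζ x else 0
                split_ifs
                · exact hterm y
                · exact le_rfl) hc
            rw [if_pos hyB] at h4
            exact h4
          · rw [Finset.not_nonempty_iff_eq_empty] at hCe
            rw [hCe, Finset.sum_empty, mul_zero]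
            rw [hCe, Finset.sum_empty, mul_zero] at hnn
            exact hnn
    have h5 : ∑ c ∈ S, ∑ y ∈ Bd c, σ.ρ n y * ∑ x ∈ C y, ζ x ≤ P.ε / 8 * ms ν W1 := by
      refine (Finset.sum_le_sum hdrop).trans ?_
      rw [Finset.sum_const, hSm, nsmul_eq_mul, ← mul_assoc]
      refine mul_le_mul_of_nonneg_right ?_ hms0
      have := hP.ε21
      linarith
    linarith
  -- the medians
  have hmed : ∀ y, ∃ t : ℝ, (C y).Nonempty → 0 < t ∧
      (∑ x ∈ C y, ζ x) ≤ 2 * ∑ x ∈ (C y).filter (fun x => sc G σ n x ≤ t), ζ x ∧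
      (∑ x ∈ C y, ζ x) ≤ 2 * ∑ x ∈ (C y).filter (fun x => t ≤ sc G σ n x), ζ x := by
    intro y
    by_cases hne : (C y).Nonempty
    · obtain ⟨z, hz, h1, h2⟩ := median (C y) ζ (sc G σ n) hζ0 hne
      exact ⟨sc G σ n z, fun _ => ⟨ha n le_rfl z (hCW y hz), h1, h2⟩⟩
    · exact ⟨0, fun h => absurd h hne⟩
  choose μ hμ using hmed
  obtain ⟨F, hF⟩ : ∃ F : V → Finset V, F = fun y => (σ.W n).filter
    (fun t => G.Adj t y ∧ ∀ c ∈ S, P.L0 * A c y ≤ sc G σ c t) := ⟨_, rfl⟩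
  obtain ⟨YA, hYA⟩ : ∃ YA : Finset V, YA = Y0.filter
    (fun y => K * ms ν (σ.W n) * μ y ≤ ms ν (F y)) := ⟨_, rfl⟩
  obtain ⟨YB, hYB⟩ : ∃ YB : Finset V, YB = Y0.filter
    (fun y => ¬ K * ms ν (σ.W n) * μ y ≤ ms ν (F y)) := ⟨_, rfl⟩
  have hAB := Finset.sum_filter_add_sum_filter_not Y0
    (fun y => K * ms ν (σ.W n) * μ y ≤ ms ν (F y)) (fun y => σ.ρ n y * ∑ x ∈ C y, ζ x)
  rw [← hYA, ← hYB] at hAB
  -- common part
  have common : ∀ (Y : Finset V) (C' : V → Finset V), Y ⊆ Y0 → (∀ y, C' y ⊆ C y) →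
      (∀ y ∈ Y, ∑ x ∈ C y, ζ x ≤ 2 * ∑ x ∈ C' y, ζ x) →
      3 * P.ε / 16 * ms ν W1 ≤ ∑ y ∈ Y, σ.ρ n y * ∑ x ∈ C y, ζ x →
      ∃ (W' : Finset V) (Gd : V → Finset V), W' ⊆ W1 ∧ P.ε * ms ν W1 ≤ 32 * ms ν W' ∧
        (∀ x, ∀ y ∈ Gd x, y ∈ Y ∧ x ∈ C' y) ∧
        (∀ x ∈ W', P.ε / 32 * sc G σ n x ≤ ∑ y ∈ Gd x, σ.ρ n y) := by
    intro Y C' hY hC' hhalf hbig
    have h1 : 3 * P.ε / 32 * ms ν W1 ≤ ∑ y ∈ Y, σ.ρ n y * ∑ x ∈ C' y, ζ x := by
      have h2 : ∑ y ∈ Y, σ.ρ n y * ∑ x ∈ C y, ζ x ≤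
          2 * ∑ y ∈ Y, σ.ρ n y * ∑ x ∈ C' y, ζ x := by
        rw [Finset.mul_sum]
        refine Finset.sum_le_sum fun y hy => ?_
        have := mul_le_mul_of_nonneg_left (hhalf y hy) (hρ n le_rfl y)
        linarith
      linarith
    rw [swap (σ.ρ n) ζ Y W1 C' (fun y _ => (hC' y).trans (hCW y))] at h1
    have h2 : ∑ x ∈ W1, ζ x * ∑ y ∈ Y.filter (fun y => x ∈ C' y), σ.ρ n y =
        ∑ x ∈ W1, ν x / sc G σ n x * ∑ y ∈ Y.filter (fun y => x ∈ C' y), σ.ρ n y := by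
      refine Finset.sum_congr rfl fun x hx => ?_
      rw [hζW x hx]
    rw [h2] at h1
    have h3 := select ν (sc G σ n) (fun x => ∑ y ∈ Y.filter (fun y => x ∈ C' y), σ.ρ n y) W1
      P.ε hν (ha n le_rfl) (fun x hx => by
        show ∑ y ∈ Y.filter (fun y => x ∈ C' y), σ.ρ n y ≤ sc G σ n x
        unfold sc
        rw [nm_eq]
        refine Finset.sum_le_sum_of_subset_of_nonneg (fun y hy => ?_)
          fun y _ _ => hρ n le_rfl y
        rw [Finset.mem_filter] at hy ⊢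
        exact ⟨Finset.mem_univ _, (hCX y x (hC' y hy.2)).2.1.symm⟩) hε h1
    exact ⟨_, fun x => Y.filter (fun y => x ∈ C' y), Finset.filter_subset _ _, h3,
      fun x y hy => Finset.mem_filter.1 hy, fun x hx => (Finset.mem_filter.1 hx).2⟩
  rcases le_total (3 * P.ε / 16 * ms ν W1) (∑ y ∈ YA, σ.ρ n y * ∑ x ∈ C y, ζ x) with hcase | hcase
  · obtain ⟨W', Gd, hW', hbig, hGd, hm⟩ := common YA
      (fun y => (C y).filter (fun x => sc G σ n x ≤ μ y)) (by
        rw [hYA]; exact Finset.filter_subset _ _) (fun y => Finset.filter_subset _ _) (by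
        intro y hy
        rw [hYA, Finset.mem_filter, hY0, Finset.mem_filter] at hy
        exact (hμ y hy.1.2.2.1).2.1) hcase
    refine ⟨W', Gd, F, A, μ, hW', hbig, Or.inl ⟨?_, hm, ?_, ?_, ?_⟩⟩
    · intro x _ y hy
      obtain ⟨h1, h2⟩ := hGd x y hy
      rw [hYA, Finset.mem_filter, hY0, Finset.mem_filter] at h1
      exact ⟨(hCX y x (Finset.mem_filter.1 h2).1).2.1.symm, h1.1.2.1⟩
    · intro x _ y hy
      obtain ⟨h1, h2⟩ := hGd x y hy
      rw [hYA, Finset.mem_filter, hY0, Finset.mem_filter] at h1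
      exact ⟨(hμ y h1.1.2.2.1).1, (Finset.mem_filter.1 h2).2, h1.2⟩
    · intro y t ht
      rw [hF] at ht
      have := Finset.mem_filter.1 ht
      exact ⟨this.1, this.2.1⟩
    · intro x _ y hy c hc
      obtain ⟨h1, h2⟩ := hGd x y hy
      rw [hYA, Finset.mem_filter, hY0, Finset.mem_filter] at h1
      obtain ⟨h3, h4, h5⟩ := hcls y x (Finset.mem_filter.1 h2).1 c hc
      refine ⟨h3, h4, h1.1.2.2.2 c hc, ?_⟩
      intro t ht
      rw [hF] at ht
      exact (Finset.mem_filter.1 ht).2.2 c hc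
  · have hcase2 : 3 * P.ε / 16 * ms ν W1 ≤ ∑ y ∈ YB, σ.ρ n y * ∑ x ∈ C y, ζ x := by
      linarith
    obtain ⟨W', Gd, hW', hbig, hGd, hm⟩ := common YB
      (fun y => (C y).filter (fun x => μ y ≤ sc G σ n x)) (by
        rw [hYB]; exact Finset.filter_subset _ _) (fun y => Finset.filter_subset _ _) (by
        intro y hy
        rw [hYB, Finset.mem_filter, hY0, Finset.mem_filter] at hy
        exact (hμ y hy.1.2.2.1).2.2) hcase2
    refine ⟨W', Gd, F, A, μ, hW', hbig, Or.inr ⟨?_, hm, ?_, ?_, ?_⟩⟩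
    · intro x _ y hy
      obtain ⟨h1, h2⟩ := hGd x y hy
      rw [hYB, Finset.mem_filter, hY0, Finset.mem_filter] at h1
      exact ⟨(hCX y x (Finset.mem_filter.1 h2).1).2.1.symm, h1.1.2.1⟩
    · intro x _ y hy
      obtain ⟨h1, h2⟩ := hGd x y hy
      rw [hYB, Finset.mem_filter, hY0, Finset.mem_filter] at h1
      exact ⟨(hμ y h1.1.2.2.1).1, (Finset.mem_filter.1 h2).2, (not_le.1 h1.2).le⟩
    · intro y t ht hty htc
      rw [hF]
      exact Finset.mem_filter.2 ⟨ht, hty, htc⟩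
    · intro x _ y hy c hc
      obtain ⟨h1, h2⟩ := hGd x y hy
      obtain ⟨h3, h4, h5⟩ := hcls y x (Finset.mem_filter.1 h2).1 c hc
      exact ⟨h3, h5⟩

end Pool.Agent.Lib.FGF
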