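import Pool.Agent.Lib.FGF.Stmts
import Pool.Agent.Lib.GSR3.Base

/-!
# The fractional Gyarfas-Sumner conjecture: module `Stb`

A part of the world in which the fibres of the good hubs are stable.
-/

set_option autoImplicit false

namespace Pool.Agent.Lib.FGF

open Finset Classical
open Pool.Agent.Lib.FracGS (nb wnb TAdj pat)
open Pool.Agent.Lib.GSR3 (Stab Small Tree)
open Pool.Agent.Lib.GSR5 (NLC)

namespace Stb

/-- Exchange of the sums over the vertices and their good hubs. -/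
lemma sum_swap {V : Type} [Fintype V] (W : Finset V) (Gd : V → Finset V) (ζ ρ : V → ℝ) :
    ∑ x ∈ W, ζ x * ∑ y ∈ Gd x, ρ y =
      ∑ y : V, ρ y * ∑ x ∈ W.filter (fun x => y ∈ Gd x), ζ x := by
  have h1 : ∀ x, ζ x * ∑ y ∈ Gd x, ρ y = ∑ y : V, if y ∈ Gd x then ρ y * ζ x else 0 := by
    intro x
    rw [← Finset.sum_filter, Finset.filter_mem_eq_inter, Finset.univ_inter, Finset.mul_sum]
    exact Finset.sum_congr rfl fun y _ => mul_comm _ _
  simp only [h1]
  rw [Finset.sum_comm]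
  refine Finset.sum_congr rfl fun y _ => ?_
  rw [Finset.mul_sum, Finset.sum_filter]

end Stb

open Stb

/-- Module `Stb`. -/
theorem stStb : StStb := by
  intro κ e hκ he V _ G ν ρ W Gd hnb hν hρ hpos hadj hmass
  have hκ0 : 0 < κ := by linarith
  set ζ : V → ℝ := fun x => ν x / nm G ρ x with hζ
  have hnm : ∀ x, 0 ≤ nm G ρ x := fun x => Finset.sum_nonneg fun y _ => hρ y
  have hζ0 : ∀ x, 0 ≤ ζ x := fun x => div_nonneg (hν x) (hnm x)
  -- stable parts of the fibres
  have hJ : ∀ y, ∃ J : Finset V, J ⊆ W.filter (fun x => y ∈ Gd x) ∧ Stab G J ∧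
      ∑ x ∈ W.filter (fun x => y ∈ Gd x), ζ x ≤ κ * ∑ x ∈ J, ζ x := by
    intro y
    refine (hnb y).mono_set (A := W.filter (fun x => y ∈ Gd x)) ?_ ζ hζ0
    intro x hx
    rw [Finset.mem_filter] at hx
    rw [Pool.Agent.Lib.FracGS.mem_nb]
    exact ⟨Finset.mem_univ _, (hadj x hx.1 y hx.2).symm⟩
  choose J hJF hJS hJle using hJ
  set Gd' : V → Finset V := fun x => (Gd x).filter (fun y => x ∈ J y) with hGd'
  have hfib : ∀ y, W.filter (fun x => y ∈ Gd' x) = J y := by
    intro y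
    ext x
    rw [Finset.mem_filter, hGd', Finset.mem_filter]
    constructor
    · rintro ⟨_, _, h⟩
      exact h
    · intro h
      have h1 := Finset.mem_filter.mp (hJF y h)
      exact ⟨h1.1, h1.2, h⟩
  -- the total weight
  have htot : e * ms ν W ≤ κ * ∑ x ∈ W, ζ x * ∑ y ∈ Gd' x, ρ y := by
    rw [sum_swap W Gd' ζ ρ]
    calc e * ms ν W = ∑ x ∈ W, e * ν x := by rw [ms, Finset.mul_sum]
      _ ≤ ∑ x ∈ W, ζ x * ∑ y ∈ Gd x, ρ y := by
        refine Finset.sum_le_sum fun x hx => ?_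
        have h1 := mul_le_mul_of_nonneg_left (hmass x hx) (hζ0 x)
        have h2 : ζ x * (e * nm G ρ x) = e * ν x := by
          rw [hζ]
          have := (hpos x hx).ne'
          field_simp
        rw [h2] at h1
        exact h1
      _ = ∑ y : V, ρ y * ∑ x ∈ W.filter (fun x => y ∈ Gd x), ζ x := sum_swap W Gd ζ ρ
      _ ≤ ∑ y : V, ρ y * (κ * ∑ x ∈ J y, ζ x) :=
        Finset.sum_le_sum fun y _ => mul_le_mul_of_nonneg_left (hJle y) (hρ y)
      _ = κ * ∑ y : V, ρ y * ∑ x ∈ W.filter (fun x => y ∈ Gd' x), ζ x := by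
        rw [Finset.mul_sum]
        refine Finset.sum_congr rfl fun y _ => ?_
        rw [hfib]
        ring
  set W' : Finset V := W.filter (fun x => e / (2 * κ) * nm G ρ x ≤ ∑ y ∈ Gd' x, ρ y) with hW'
  -- upper bound
  have hub : ∑ x ∈ W, ζ x * ∑ y ∈ Gd' x, ρ y ≤ ms ν W' + e / (2 * κ) * ms ν W := by
    rw [← Finset.sum_filter_add_sum_filter_not W
      (fun x => e / (2 * κ) * nm G ρ x ≤ ∑ y ∈ Gd' x, ρ y)]
    refine add_le_add ?_ ?_
    · rw [ms, hW']
      refine Finset.sum_le_sum fun x hx => ?_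
      have hxW := (Finset.mem_filter.mp hx).1
      have h1 : ∑ y ∈ Gd' x, ρ y ≤ nm G ρ x := by
        refine Finset.sum_le_sum_of_subset_of_nonneg ?_ fun y _ _ => hρ y
        intro y hy
        rw [Pool.Agent.Lib.FracGS.mem_nb]
        exact ⟨Finset.mem_univ _, hadj x hxW y (Finset.mem_filter.mp hy).1⟩
      have h2 := mul_le_mul_of_nonneg_left h1 (hζ0 x)
      have h3 : ζ x * nm G ρ x = ν x := div_mul_cancel₀ _ (hpos x hxW).ne'
      rw [h3] at h2
      exact h2
    · have h4 : ∑ x ∈ W.filter (fun x => ¬ e / (2 * κ) * nm G ρ x ≤ ∑ y ∈ Gd' x, ρ y),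
            (ζ x * ∑ y ∈ Gd' x, ρ y) ≤
          ∑ x ∈ W.filter (fun x => ¬ e / (2 * κ) * nm G ρ x ≤ ∑ y ∈ Gd' x, ρ y),
            e / (2 * κ) * ν x := by
        refine Finset.sum_le_sum fun x hx => ?_
        rw [Finset.mem_filter, not_le] at hx
        have h1 := mul_le_mul_of_nonneg_left hx.2.le (hζ0 x)
        have h3 : ζ x * nm G ρ x = ν x := div_mul_cancel₀ _ (hpos x hx.1).ne'
        calc ζ x * ∑ y ∈ Gd' x, ρ y ≤ ζ x * (e / (2 * κ) * nm G ρ x) := h1
          _ = e / (2 * κ) * (ζ x * nm G ρ x) := by ring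
          _ = e / (2 * κ) * ν x := by rw [h3]
      have h5 : ∑ x ∈ W.filter (fun x => ¬ e / (2 * κ) * nm G ρ x ≤ ∑ y ∈ Gd' x, ρ y),
            e / (2 * κ) * ν x ≤ ∑ x ∈ W, e / (2 * κ) * ν x :=
        Finset.sum_le_sum_of_subset_of_nonneg (Finset.filter_subset _ _)
          fun x _ _ => mul_nonneg (by positivity) (hν x)
      rw [← Finset.mul_sum W] at h5
      exact h4.trans h5
  refine ⟨W', Gd', Finset.filter_subset _ _, ?_, fun x _ => Finset.filter_subset _ _, ?_, ?_⟩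
  · have h1 := mul_le_mul_of_nonneg_left hub hκ0.le
    have h2 : κ * (ms ν W' + e / (2 * κ) * ms ν W) = κ * ms ν W' + e * ms ν W / 2 := by
      field_simp
    rw [h2] at h1
    linarith
  · intro x hx
    exact (Finset.mem_filter.mp hx).2
  · intro y
    refine (hJS y).mono ?_
    rw [← hfib y]
    exact Finset.filter_subset_filter _ (Finset.filter_subset _ _)

end Pool.Agent.Lib.FGF
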