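import Pool.Agent.Lib.FGF.Stmts2
import Pool.Agent.Lib.FGF.LStmts

/-!
# Pools of unlinked stages
-/

set_option autoImplicit false

namespace Pool.Agent.Lib.FGF

open Finset Classical
open Pool.Agent.Lib.FracGS (nb wnb om TAdj wnb_eq_sum_ite wnb_nonneg om_nonneg om_le_left om_comm)
open Pool.Agent.Lib.GSR3 (Stab Small Tree)

namespace UPoolAux

variable {V : Type} [Fintype V] {G : SimpleGraph V}

lemma nm_eq (r : V → ℝ) (x : V) : nm G r x = ∑ u, if G.Adj x u then r u else 0 := by
  unfold nm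
  rw [wnb_eq_sum_ite]

lemma nm_nonneg {r : V → ℝ} (h : ∀ v, 0 ≤ r v) (x : V) : 0 ≤ nm G r x := by
  unfold nm
  exact wnb_nonneg h x

lemma zt_nonneg {ν r : V → ℝ} (hν : ∀ v, 0 ≤ ν v) (hr : ∀ v, 0 ≤ r v) (A : Finset V) (x : V) :
    0 ≤ zt G ν r A x := by
  unfold zt
  split_ifs
  · exact div_nonneg (hν x) (nm_nonneg hr x)
  · exact le_rfl

lemma nm_zt_mono {ν r : V → ℝ} (hν : ∀ v, 0 ≤ ν v) (hr : ∀ v, 0 ≤ r v) {A B : Finset V}
    (h : A ⊆ B) (w : V) : nm G (zt G ν r A) w ≤ nm G (zt G ν r B) w := by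
  rw [nm_eq, nm_eq]
  refine Finset.sum_le_sum fun u _ => ?_
  by_cases ha : G.Adj w u
  · rw [if_pos ha, if_pos ha]
    unfold zt
    by_cases h1 : u ∈ A
    · rw [if_pos h1, if_pos (h h1)]
    · rw [if_neg h1]
      split_ifs
      · exact div_nonneg (hν u) (nm_nonneg hr u)
      · exact le_rfl
  · rw [if_neg ha, if_neg ha]

/-- The normalised restriction of `ν` to `W`. -/
noncomputable def mu (ν : V → ℝ) (W : Finset V) (x : V) : ℝ :=
  if x ∈ W then ν x / ms ν W else 0

lemma Dw_eq (ν r : V → ℝ) (W : Finset V) (w : V) :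
    FGL.Dw G W (mu ν W) r w = nm G (zt G ν r W) w / ms ν W := by
  unfold FGL.Dw
  rw [wnb_eq_sum_ite, nm_eq, Finset.sum_div]
  rw [← Finset.sum_subset (Finset.subset_univ W)]
  · refine Finset.sum_congr rfl fun u hu => ?_
    unfold mu zt FGL.aw nm
    rw [if_pos hu, if_pos hu]
    split_ifs <;> ring
  · intro u _ hu
    unfold zt
    rw [if_neg hu]
    simp

lemma ell_nonneg {r : V → ℝ} (h : ∀ v, 0 ≤ r v) (x x' : V) : 0 ≤ ell G r x x' := by
  unfold ell
  refine div_nonneg (Finset.sum_nonneg fun y _ => h y) ?_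
  positivity

lemma ell_eq {r : V → ℝ} (h : ∀ v, 0 ≤ r v) (x x' : V) :
    ell G r x x' = FGL.lk G r x x' := by
  unfold ell FGL.lk om FGL.aw nm
  rw [Real.sqrt_mul (wnb_nonneg h x)]

lemma ell_le_one {r : V → ℝ} (h : ∀ v, 0 ≤ r v) (x x' : V) : ell G r x x' ≤ 1 := by
  unfold ell
  have h1 : ∑ y ∈ Finset.univ.filter (fun y => G.Adj x y ∧ G.Adj x' y), r y ≤ nm G r x :=
    om_le_left (S := univ) h x x'
  have h2 : ∑ y ∈ Finset.univ.filter (fun y => G.Adj x y ∧ G.Adj x' y), r y ≤ nm G r x' := by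
    have := om_le_left (G := G) (S := univ) h x' x
    rw [om_comm] at this
    exact this
  have h0 : 0 ≤ ∑ y ∈ Finset.univ.filter (fun y => G.Adj x y ∧ G.Adj x' y), r y :=
    Finset.sum_nonneg fun y _ => h y
  have n1 := nm_nonneg (G := G) h x
  have n2 := nm_nonneg (G := G) h x'
  refine div_le_one_of_le₀ ?_ (by positivity)
  calc ∑ y ∈ Finset.univ.filter (fun y => G.Adj x y ∧ G.Adj x' y), r y
      = Real.sqrt (∑ y ∈ Finset.univ.filter (fun y => G.Adj x y ∧ G.Adj x' y), r y) *
        Real.sqrt (∑ y ∈ Finset.univ.filter (fun y => G.Adj x y ∧ G.Adj x' y), r y) :=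
        (Real.mul_self_sqrt h0).symm
    _ ≤ Real.sqrt (nm G r x) * Real.sqrt (nm G r x') := by
        gcongr

/-- The weight of a path. -/
noncomputable def pw (G : SimpleGraph V) (ν r : V → ℝ) (W : Finset V) (t : V × V × V) : ℝ :=
  r t.1 / nm G (zt G ν r W) t.1 * (if G.Adj t.1 t.2.1 then zt G ν r W t.2.1 else 0) *
    (if G.Adj t.1 t.2.2 then zt G ν r W t.2.2 else 0)

lemma pw_nonneg {ν r : V → ℝ} (hν : ∀ v, 0 ≤ ν v) (hr : ∀ v, 0 ≤ r v) (W : Finset V)
    (t : V × V × V) : 0 ≤ pw G ν r W t := by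
  unfold pw
  have h1 := nm_nonneg (G := G) (zt_nonneg (G := G) hν hr W) t.1
  have h2 := hr t.1
  refine mul_nonneg (mul_nonneg (div_nonneg h2 h1) ?_) ?_
  · split_ifs
    · exact zt_nonneg hν hr W _
    · exact le_rfl
  · split_ifs
    · exact zt_nonneg hν hr W _
    · exact le_rfl

lemma sum_pw (ν r : V → ℝ) (W : Finset V) (F : V → V → ℝ) :
    ∑ t, pw G ν r W t * F t.2.1 t.2.2 =
      ∑ y, r y / nm G (zt G ν r W) y * ∑ x ∈ Finset.univ.filter (fun x => G.Adj y x),
        ∑ x' ∈ Finset.univ.filter (fun x' => G.Adj y x'),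
          zt G ν r W x * zt G ν r W x' * F x x' := by
  rw [Fintype.sum_prod_type]
  refine Finset.sum_congr rfl fun y _ => ?_
  rw [Fintype.sum_prod_type, Finset.sum_filter, Finset.mul_sum]
  refine Finset.sum_congr rfl fun x _ => ?_
  rw [Finset.sum_filter]
  by_cases h : G.Adj y x
  · rw [if_pos h, Finset.mul_sum]
    refine Finset.sum_congr rfl fun x' _ => ?_
    unfold pw
    simp only
    rw [if_pos h]
    split_ifs <;> ring
  · rw [if_neg h, mul_zero]
    refine Finset.sum_eq_zero fun x' _ => ?_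
    unfold pw
    simp only
    rw [if_neg h]
    ring

lemma lk_eq (ν r : V → ℝ) (ρ : ℕ → V → ℝ) (S : Finset ℕ) (W : Finset V) :
    lk G ν r ρ S W = ∑ t, pw G ν r W t * ∏ c ∈ S, ell G (ρ c) t.2.1 t.2.2 := by
  rw [sum_pw ν r W (fun x x' => ∏ c ∈ S, ell G (ρ c) x x')]
  rfl

lemma sum_pw_one {ν r : V → ℝ} {W : Finset V}
    (hp : ∀ x ∈ W, 0 < nm G r x) : ∑ t, pw G ν r W t = ms ν W := by
  have h := sum_pw (G := G) ν r W (fun _ _ => 1)
  simp only [mul_one] at h
  rw [h]
  have h1 : ∀ y, r y / nm G (zt G ν r W) y * ∑ x ∈ Finset.univ.filter (fun x => G.Adj y x),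
        ∑ x' ∈ Finset.univ.filter (fun x' => G.Adj y x'),
          zt G ν r W x * zt G ν r W x' = r y * nm G (zt G ν r W) y := by
    intro y
    have e : ∑ x ∈ Finset.univ.filter (fun x => G.Adj y x),
        ∑ x' ∈ Finset.univ.filter (fun x' => G.Adj y x'),
          zt G ν r W x * zt G ν r W x' = nm G (zt G ν r W) y * nm G (zt G ν r W) y := by
      rw [nm_eq, ← Finset.sum_filter, Finset.sum_mul_sum]
    rw [e]
    by_cases h0 : nm G (zt G ν r W) y = 0
    · rw [h0]
      ring
    · field_simp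
  rw [Finset.sum_congr rfl fun y _ => h1 y]
  have h2 : ∀ y, r y * nm G (zt G ν r W) y =
      ∑ x, if G.Adj y x then r y * zt G ν r W x else 0 := by
    intro y
    rw [nm_eq, Finset.mul_sum]
    refine Finset.sum_congr rfl fun x _ => ?_
    split_ifs <;> ring
  rw [Finset.sum_congr rfl fun y _ => h2 y, Finset.sum_comm]
  unfold ms
  rw [← Finset.sum_subset (Finset.subset_univ W)]
  · refine Finset.sum_congr rfl fun x hx => ?_
    have e : ∀ y, (if G.Adj y x then r y * zt G ν r W x else 0) =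
        (if G.Adj x y then r y else 0) * zt G ν r W x := by
      intro y
      rw [G.adj_comm]
      split_ifs <;> ring
    rw [Finset.sum_congr rfl fun y _ => e y, ← Finset.sum_mul, ← nm_eq]
    unfold zt
    rw [if_pos hx]
    have := hp x hx
    field_simp
  · intro x _ hx
    refine Finset.sum_eq_zero fun y _ => ?_
    unfold zt
    rw [if_neg hx]
    simp

/-- The links in the two interfaces. -/
lemma lam_eq {ν r : V → ℝ} {ρ : ℕ → V → ℝ} {W : Finset V} {c : ℕ} (hρ : ∀ v, 0 ≤ ρ c v)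
    (hW : 0 < ms ν W) :
    ∑ x ∈ W, ∑ x' ∈ W, FGL.mt G W (mu ν W) r x x' * FGL.lk G (ρ c) x x' =
      lk G ν r ρ {c} W / ms ν W := by
  rw [lk_eq]
  simp only [Finset.prod_singleton]
  rw [sum_pw ν r W (fun x x' => ell G (ρ c) x x')]
  have h1 : ∀ x ∈ W, ∀ x' ∈ W, FGL.mt G W (mu ν W) r x x' * FGL.lk G (ρ c) x x' =
      ∑ y, r y / nm G (zt G ν r W) y * ((if G.Adj y x then zt G ν r W x else 0) *
        (if G.Adj y x' then zt G ν r W x' else 0) * ell G (ρ c) x x') / ms ν W := by
    intro x hx x' hx'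
    unfold FGL.mt om
    rw [Finset.sum_filter, Finset.sum_mul, Finset.sum_mul, Finset.sum_mul]
    refine Finset.sum_congr rfl fun y _ => ?_
    rw [← ell_eq hρ]
    by_cases ha : G.Adj x y
    · by_cases hb : G.Adj x' y
      · rw [if_pos ⟨ha, hb⟩, if_pos ha.symm, if_pos hb.symm, Dw_eq]
        unfold zt mu FGL.aw
        rw [if_pos hx, if_pos hx, if_pos hx', if_pos hx']
        have e1 : wnb G univ r x = nm G r x := rfl
        have e2 : wnb G univ r x' = nm G r x' := rfl
        rw [e1, e2]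
        field_simp
      · have hb' : ¬ G.Adj y x' := fun h => hb h.symm
        rw [if_neg (fun h => hb h.2), if_neg hb']
        ring
    · have ha' : ¬ G.Adj y x := fun h => ha h.symm
      rw [if_neg (fun h => ha h.1), if_neg ha']
      ring
  rw [Finset.sum_congr rfl fun x hx => Finset.sum_congr rfl fun x' hx' => h1 x hx x' hx']
  rw [Finset.sum_congr rfl fun x _ => Finset.sum_comm, Finset.sum_comm, Finset.sum_div]
  refine Finset.sum_congr rfl fun y _ => ?_
  have h2 : ∀ x ∈ W, ∑ x' ∈ W, r y / nm G (zt G ν r W) y *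
      ((if G.Adj y x then zt G ν r W x else 0) *
        (if G.Adj y x' then zt G ν r W x' else 0) * ell G (ρ c) x x') / ms ν W =
      r y / nm G (zt G ν r W) y * (∑ x', (if G.Adj y x then zt G ν r W x else 0) *
        (if G.Adj y x' then zt G ν r W x' else 0) * ell G (ρ c) x x') / ms ν W := by
    intro x _
    rw [Finset.mul_sum, Finset.sum_div]
    refine Finset.sum_subset (Finset.subset_univ W) ?_
    intro x' _ hx'
    unfold zt
    rw [if_neg hx']
    simp
  rw [Finset.sum_congr rfl h2, ← Finset.sum_div, ← Finset.mul_sum]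
  congr 2
  rw [Finset.sum_filter]
  have h3 : ∑ x ∈ W, ∑ x', (if G.Adj y x then zt G ν r W x else 0) *
        (if G.Adj y x' then zt G ν r W x' else 0) * ell G (ρ c) x x' =
      ∑ x, ∑ x', (if G.Adj y x then zt G ν r W x else 0) *
        (if G.Adj y x' then zt G ν r W x' else 0) * ell G (ρ c) x x' := by
    refine Finset.sum_subset (Finset.subset_univ W) ?_
    intro x _ hx
    refine Finset.sum_eq_zero fun x' _ => ?_
    unfold zt
    rw [if_neg hx]
    simp
  rw [h3]
  refine Finset.sum_congr rfl fun x _ => ?_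
  rw [Finset.sum_filter]
  by_cases h : G.Adj y x
  · rw [if_pos h, if_pos h]
    refine Finset.sum_congr rfl fun x' _ => ?_
    split_ifs <;> ring
  · rw [if_neg h, if_neg h]
    refine Finset.sum_eq_zero fun x' _ => ?_
    ring

/-- A decreasing sequence of stages gives a system of levels. -/
lemma lsys_of_sys {P : Par} {n : ℕ} {T : Finset (Finset ℕ)} {H ξ : ℝ} {ν : V → ℝ}
    {σ : Dat V} (hS : Sys P n T H ξ G ν σ) (hH : 1 ≤ H) (hξ : 0 ≤ ξ) {r : ℕ} {s : ℕ → ℕ}
    (hs : ∀ i < r, s i < n) (hd : ∀ i j, i < j → j < r → s j < s i) {Gam e1 e2 : ℝ}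
    (hG : Gam ≤ P.Γ) (he : P.ε2 ≤ e2)
    (hm : ∀ i j, i < j → j < r → Minus2 P G σ (s j) (s i))
    (hl : ∀ i j, i < j → j < r →
      lk G ν (σ.ρ (s i)) σ.ρ {s j} (σ.W n) ≤ e1 * ms ν (σ.W n)) :
    FGL.LSys G (σ.W n) (mu ν (σ.W n)) r
      (fun i => Finset.univ.filter (fun v => σ.ρ (s i) v ≠ 0)) (fun i => σ.ρ (s i))
      (H ^ 2) (H * ξ) Gam e1 e2 := by
  have hanti : ∀ i j, i ≤ j → j ≤ n → σ.W j ⊆ σ.W i := by
    intro i j hij
    induction j, hij using Nat.le_induction with
    | base => intro _; exact subset_rfl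
    | succ j hij ih =>
      intro hj
      exact (hS.sub j (by omega)).trans (ih (by omega))
  have hms : 0 < ms ν (σ.W n) := by
    by_contra h
    have h1 := hS.pos
    have : H * ms ν (σ.W n) ≤ 0 := mul_nonpos_of_nonneg_of_nonpos (by linarith) (not_lt.mp h)
    linarith
  have hinv : 1 / ms ν (σ.W n) ≤ H := by
    rw [div_le_iff₀ hms]
    exact hS.pos
  have hDle : ∀ c < n, ∀ w, FGL.Dw G (σ.W n) (mu ν (σ.W n)) (σ.ρ c) w ≤
      H * nm G (zt G ν (σ.ρ c) (σ.W (c + 1))) w := by
    intro c hc w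
    rw [Dw_eq]
    have h1 : nm G (zt G ν (σ.ρ c) (σ.W n)) w ≤ nm G (zt G ν (σ.ρ c) (σ.W (c + 1))) w :=
      nm_zt_mono hS.ν0 (hS.ρ0 c hc) (hanti (c + 1) n (by omega) le_rfl) w
    have h2 : 0 ≤ nm G (zt G ν (σ.ρ c) (σ.W n)) w :=
      nm_nonneg (zt_nonneg hS.ν0 (hS.ρ0 c hc) _) w
    calc nm G (zt G ν (σ.ρ c) (σ.W n)) w / ms ν (σ.W n)
        = (1 / ms ν (σ.W n)) * nm G (zt G ν (σ.ρ c) (σ.W n)) w := by ring
      _ ≤ H * nm G (zt G ν (σ.ρ c) (σ.W (c + 1))) w := by
          apply mul_le_mul hinv h1 h2 (by linarith)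
  have hmem : ∀ i < r, ∀ v, σ.ρ (s i) v ≠ 0 → v ∈ σ.W (s i) ∧ v ∉ σ.W (s i + 1) :=
    fun i hi v hv => hS.ρW (s i) (hs i hi) v hv
  -- hubs of level `i` lie in the world after the stage of level `j > i`
  have hmem' : ∀ i j, i < j → j < r → ∀ v, σ.ρ (s i) v ≠ 0 → v ∈ σ.W (s j + 1) := by
    intro i j hij hj v hv
    exact hanti (s j + 1) (s i) (hd i j hij hj) (hs i (by omega)).le (hmem i (by omega) v hv).1
  have hWn : ∀ i < r, σ.W n ⊆ σ.W (s i + 1) := fun i hi =>
    hanti (s i + 1) n (hs i hi) le_rfl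
  have hHξ : ξ ≤ H * ξ := by nlinarith
  constructor
  · intro x
    unfold mu
    split_ifs
    · exact div_nonneg (hS.ν0 x) hms.le
    · exact le_rfl
  · intro x hx
    unfold mu
    rw [if_neg hx]
  · unfold mu
    rw [Finset.sum_congr rfl fun x hx => if_pos hx, ← Finset.sum_div]
    exact div_self hms.ne'
  · intro i hi y
    exact hS.ρ0 (s i) (hs i hi) y
  · intro i hi
    exact hS.ρ1 (s i) (hs i hi)
  · intro i hi y hy
    rw [Finset.mem_filter, not_and_not_right] at hy
    by_contra h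
    exact h (by simpa using hy)
  · intro i hi
    exact hS.ρS (s i) (hs i hi)
  · intro i hi
    rw [Finset.disjoint_left]
    intro v hv hw
    rw [Finset.mem_filter] at hv
    exact (hmem i hi v hv.2).2 (hWn i hi hw)
  · intro i hi j hj hij
    rw [Finset.disjoint_left]
    intro v hv hw
    rw [Finset.mem_filter] at hv hw
    rcases lt_or_gt_of_ne hij with h | h
    · exact (hmem j hj v hw.2).2 (hmem' i j h hj v hv.2)
    · exact (hmem i hi v hv.2).2 (hmem' j i h hi v hw.2)
  · intro i hi x hx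
    exact hS.ap (s i) (hs i hi) x (hWn i hi hx)
  · intro i j hij hj x hx
    rw [Finset.mem_filter] at hx
    exact hS.ap (s j) (hs j hj) x (hmem' i j hij hj x hx.2)
  · intro i hi w hw
    refine (hDle (s i) (hs i hi) w).trans ?_
    exact mul_le_mul_of_nonneg_left (hS.dξ (s i) (hs i hi) w (hWn i hi hw)) (by linarith)
  · intro i j hij hj w hw
    rw [Finset.mem_filter] at hw
    refine (hDle (s j) (hs j hj) w).trans ?_
    exact mul_le_mul_of_nonneg_left
      (hS.dξ (s j) (hs j hj) w (hmem' i j hij hj w hw.2)) (by linarith)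
  · intro i hi y hy
    rw [Finset.mem_filter] at hy
    refine (hDle (s i) (hs i hi) y).trans ?_
    rw [sq]
    exact mul_le_mul_of_nonneg_left (hS.dH (s i) (hs i hi) y (hmem i hi y hy.2).1) (by linarith)
  · intro i hi x hx
    have h1 := hS.at' (s i) (hs i hi) x (hWn i hi hx)
    have h2 : 0 < sc G σ (s i) x := hS.ap (s i) (hs i hi) x (hWn i hi hx)
    have e : FGL.aw G (σ.ρ (s i)) x = sc G σ (s i) x := rfl
    rw [e]
    unfold mu
    rw [if_pos hx]
    calc ν x / ms ν (σ.W n) = (1 / ms ν (σ.W n)) * ν x := by ring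
      _ ≤ H * (ξ * sc G σ (s i) x) := by
          apply mul_le_mul hinv h1 (hS.ν0 x) (by linarith)
      _ = H * ξ * sc G σ (s i) x := by ring
  · intro i j k hij hjk hk v hv
    rw [Finset.mem_filter] at hv
    have h1 : sc G σ (s j) v ≤ ξ * sc G σ (s k) v :=
      hS.drop (s k) (s j) (hd j k hjk hk) (hs j (by omega)) v
        (hmem' i j hij (by omega) v hv.2)
    have h2 : 0 ≤ sc G σ (s k) v := nm_nonneg (hS.ρ0 (s k) (hs k hk)) v
    exact h1.trans (mul_le_mul_of_nonneg_right hHξ h2)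
  · intro i j hij hj x hx
    have hc := hs j hj
    have hsi := hs i (by omega)
    have hx1 : x ∈ σ.W (s i + 1) := hWn i (by omega) hx
    have h1 := hm i j hij hj x hx1
    have h2 : 0 ≤ sc G σ (s i) x := nm_nonneg (hS.ρ0 (s i) hsi) x
    have h3 : wnb G univ (fun y => if FGL.aw G (σ.ρ (s j)) x < Gam * FGL.aw G (σ.ρ (s j)) y
        then σ.ρ (s i) y else 0) x ≤ big P G σ {s j} (s i) x := by
      rw [wnb_eq_sum_ite]
      unfold big
      rw [Finset.sum_filter]
      refine Finset.sum_le_sum fun y _ => ?_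
      by_cases ha : G.Adj x y
      · rw [if_pos ha]
        by_cases hb : FGL.aw G (σ.ρ (s j)) x < Gam * FGL.aw G (σ.ρ (s j)) y
        · rw [if_pos hb]
          by_cases hy : σ.ρ (s i) y = 0
          · rw [hy]
            split_ifs <;> exact le_rfl
          · rw [if_pos]
            refine ⟨ha, ?_⟩
            intro c hcm
            rw [Finset.mem_singleton] at hcm
            subst hcm
            rcases hS.far (s j) hc x (hWn j hj hx) y (hmem' i j hij hj y hy) ha with h | h
            · exact h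
            · exfalso
              have h5 : 0 ≤ sc G σ (s j) y := nm_nonneg (hS.ρ0 (s j) hc) y
              have h6 : Gam * sc G σ (s j) y ≤ P.Γ * sc G σ (s j) y :=
                mul_le_mul_of_nonneg_right hG h5
              have h7 : sc G σ (s j) x < Gam * sc G σ (s j) y := hb
              linarith
        · rw [if_neg hb]
          split_ifs
          · exact hS.ρ0 (s i) hsi y
          · exact le_rfl
      · rw [if_neg ha, if_neg (fun h => ha h.1)]
    have h4 : P.ε2 * sc G σ (s i) x ≤ e2 * sc G σ (s i) x := mul_le_mul_of_nonneg_right he h2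
    exact h3.trans (h1.le.trans h4)
  · intro i j hij hj
    have h0 := lam_eq (G := G) (ν := ν) (r := σ.ρ (s i)) (ρ := σ.ρ) (W := σ.W n) (c := s j)
      (hS.ρ0 (s j) (hs j hj)) hms
    rw [h0, div_le_iff₀ hms]
    exact hl i j hij hj

end UPoolAux

open UPoolAux

theorem stUPool (hSub : FGL.StLSub) (h : FGL.StLThm) (hJ : StJen) (hR : StRam) : StUPool := by
  intro M h0 hM hh hev
  obtain ⟨r, e1, e2, Gam, he1, he2, hGam, hL⟩ := h M h0
  refine ⟨min e1 1, e2, Gam, lt_min he1 one_pos, min_le_right _ _, he2, hGam, ?_⟩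
  intro P hP hPM hPh hε hε2 hΓ
  obtain ⟨RJ, hJ⟩ := hJ P.m (min e1 1) (lt_min he1 one_pos) (min_le_right _ _)
  obtain ⟨R, hR⟩ := hR 2 2 (r + RJ + 1) (by norm_num)
  refine ⟨R, ?_⟩
  intro H hH
  obtain ⟨xi, hxi, hL⟩ := hL (H ^ 2) (by nlinarith)
  refine ⟨min 1 (xi / H), lt_min one_pos (by positivity), ?_⟩
  intro n T V _ G ν σ ξ hξ hξ0 hC hS A hA hAR hm hU
  have hξ1 : ξ ≤ 1 := hξ0.trans (min_le_left _ _)
  have hξ2 : H * ξ ≤ xi := by
    have := hξ0.trans (min_le_right _ _)
    rw [le_div_iff₀ (by linarith)] at this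
    linarith
  have hanti : ∀ i j, i ≤ j → j ≤ n → σ.W j ⊆ σ.W i := by
    intro i j hij
    induction j, hij using Nat.le_induction with
    | base => intro _; exact subset_rfl
    | succ j hij ih =>
      intro hj
      exact (hS.sub j (by omega)).trans (ih (by omega))
  have hms : 0 < ms ν (σ.W n) := by
    by_contra h
    have h1 := hS.pos
    have : H * ms ν (σ.W n) ≤ 0 := mul_nonpos_of_nonneg_of_nonpos (by linarith) (not_lt.mp h)
    linarith
  set lin : ℕ → ℕ → Prop := fun c s =>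
    min e1 1 * ms ν (σ.W n) ≤ lk G ν (σ.ρ s) σ.ρ {c} (σ.W n) with hlin
  obtain ⟨B, hBA, hBc, i0, hi0⟩ := hR
    (fun S => if ∃ c s, c < s ∧ S = {c, s} ∧ lin c s then 1 else 0) A
    (fun S => by split_ifs <;> norm_num) hAR
  by_cases hi : i0 = 1
  · -- all pairs are linked
    subst hi
    have hlk : ∀ c ∈ B, ∀ s ∈ B, c < s → lin c s := by
      intro c hc s hs hcs
      have h1 := hi0 {c, s} (by
        intro z hz
        rw [Finset.mem_insert, Finset.mem_singleton] at hz
        rcases hz with rfl | rfl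
        · exact hc
        · exact hs) (Finset.card_pair hcs.ne)
      have h2 : ∃ c' s', c' < s' ∧ ({c, s} : Finset ℕ) = {c', s'} ∧ lin c' s' := by
        by_contra h3
        have h4 : (if ∃ c' s', c' < s' ∧ ({c, s} : Finset ℕ) = {c', s'} ∧ lin c' s' then 1
          else 0) = 1 := h1
        rw [if_neg h3] at h4
        exact absurd h4 (by norm_num)
      obtain ⟨c', s', hcs', he, hl⟩ := h2
      have e1' : c ∈ ({c', s'} : Finset ℕ) := by rw [← he]; simp
      have e2' : s ∈ ({c', s'} : Finset ℕ) := by rw [← he]; simp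
      rw [Finset.mem_insert, Finset.mem_singleton] at e1' e2'
      rcases e1' with rfl | rfl <;> rcases e2' with rfl | rfl
      · omega
      · exact hl
      · omega
      · omega
    have hBne : B.Nonempty := by
      rw [← Finset.card_pos, hBc]
      omega
    set s := B.max' hBne with hs
    have hsB : s ∈ B := B.max'_mem hBne
    have hsn : s < n := Finset.mem_range.mp (hA (hBA hsB))
    have hpW : ∀ x ∈ σ.W n, 0 < nm G (σ.ρ s) x := fun x hx =>
      hS.ap s hsn x (hanti (s + 1) n hsn le_rfl hx)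
    have hsum := sum_pw_one (G := G) (ν := ν) hpW
    obtain ⟨S, hSB, hSc, hSp⟩ := hJ (V × V × V) (pw G ν (σ.ρ s) (σ.W n))
      (fun c t => ell G (σ.ρ c) t.2.1 t.2.2) (B.erase s)
      (fun t => pw_nonneg hS.ν0 (hS.ρ0 s hsn) _ t)
      (fun c hc t => by
        have hcn : c < n := Finset.mem_range.mp (hA (hBA (Finset.mem_of_mem_erase hc)))
        exact ⟨ell_nonneg (hS.ρ0 c hcn) _ _, ell_le_one (hS.ρ0 c hcn) _ _⟩)
      (by rw [hsum]; exact hms)
      (by rw [Finset.card_erase_of_mem hsB, hBc]; omega)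
      (fun c hc => by
        rw [hsum]
        have hcB := Finset.mem_of_mem_erase hc
        have hcs : c < s := lt_of_le_of_ne (B.le_max' c hcB) (Finset.ne_of_mem_erase hc)
        have h1 : min e1 1 * ms ν (σ.W n) ≤ lk G ν (σ.ρ s) σ.ρ {c} (σ.W n) :=
          hlk c hcB s hsB hcs
        rw [lk_eq] at h1
        simpa only [Finset.prod_singleton] using h1)
    have hSs : S ⊆ Finset.range s := by
      intro c hc
      rw [Finset.mem_range]
      exact lt_of_le_of_ne (B.le_max' c (Finset.mem_of_mem_erase (hSB hc)))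
        (Finset.ne_of_mem_erase (hSB hc))
    have h1 := hU s (hBA hsB) S (fun c hc => hBA (Finset.mem_of_mem_erase (hSB hc))) hSs hSc
      (σ.W n) subset_rfl (by nlinarith)
    rw [lk_eq] at h1
    rw [hsum] at hSp
    have h2 : P.ε * ms ν (σ.W n) ≤ (min e1 1) ^ P.m / 2 * ms ν (σ.W n) :=
      mul_le_mul_of_nonneg_right hε hms.le
    linarith
  · -- no pair is linked
    have hlk : ∀ c ∈ B, ∀ s ∈ B, c < s → ¬ lin c s := by
      intro c hc s hs hcs hl
      have h1 := hi0 {c, s} (by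
        intro z hz
        rw [Finset.mem_insert, Finset.mem_singleton] at hz
        rcases hz with rfl | rfl
        · exact hc
        · exact hs) (Finset.card_pair hcs.ne)
      have h4 : (if ∃ c' s', c' < s' ∧ ({c, s} : Finset ℕ) = {c', s'} ∧ lin c' s' then 1
          else 0) = i0 := h1
      rw [if_pos ⟨c, s, hcs, rfl, hl⟩] at h4
      exact hi h4.symm
    -- the levels
    set s : ℕ → ℕ := fun i => if hi : i < r + RJ + 1 then
      B.orderEmbOfFin hBc ⟨r + RJ - i, by omega⟩ else 0 with hsdef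
    have hsB : ∀ i < r, s i ∈ B := by
      intro i hi
      rw [hsdef]
      dsimp only
      rw [dif_pos (by omega)]
      exact B.orderEmbOfFin_mem hBc _
    have hdec : ∀ i j, i < j → j < r → s j < s i := by
      intro i j hij hj
      rw [hsdef]
      dsimp only
      rw [dif_pos (by omega), dif_pos (by omega)]
      apply (B.orderEmbOfFin hBc).strictMono
      rw [Fin.mk_lt_mk]
      omega
    have hsn : ∀ i < r, s i < n := fun i hi => Finset.mem_range.mp (hA (hBA (hsB i hi)))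
    have hsys := lsys_of_sys (e1 := e1) (e2 := e2) hS hH hξ hsn hdec hΓ hε2
      (fun i j hij hj => hm (s j) (hBA (hsB j hj)) (s i) (hBA (hsB i (by omega)))
        (hdec i j hij hj))
      (fun i j hij hj => by
        have h1 : ¬ (min e1 1 * ms ν (σ.W n) ≤ lk G ν (σ.ρ (s i)) σ.ρ {s j} (σ.W n)) :=
          hlk (s j) (hsB j hj) (s i) (hsB i (by omega)) (hdec i j hij hj)
        rw [not_le] at h1
        have h2 : min e1 1 * ms ν (σ.W n) ≤ e1 * ms ν (σ.W n) :=
          mul_le_mul_of_nonneg_right (min_le_left _ _) hms.le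
        linarith)
    have hsys' := (hSub V G (σ.W n) (mu ν (σ.W n)) r _ _ _ _ _ _ _ hsys).2.2 (H ^ 2) xi Gam e1 e2
      le_rfl hξ2 le_rfl le_rfl le_rfl
    obtain ⟨φ, hφ⟩ := hL V G (σ.W n) (mu ν (σ.W n)) _ _ hsys'
    have := hC.tree
    rw [hPM, hPh] at this
    exact this φ hφ

end Pool.Agent.Lib.FGF
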