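import Pool.Agent.Lib.FGF.All
import Pool.Agent.Lib.FGF.Rest
import Pool.Agent.Lib.FGF.M
import Pool.Agent.Lib.FGF.Fin
import Pool.Agent.Lib.FGF.Ram
import Pool.Agent.Lib.FGF.Jen
import Pool.Agent.Lib.FGF.SgS
import Pool.Agent.Lib.FGF.PCase
import Pool.Agent.Lib.FGF.ACase
import Pool.Agent.Lib.FGF.BAll
import Pool.Agent.Lib.FGF.UPool
import Pool.Agent.Lib.FGF.LSub
import Pool.Agent.Lib.FGF.LKer
import Pool.Agent.Lib.FGF.LMarg
import Pool.Agent.Lib.FGF.LDen
import Pool.Agent.Lib.FGF.LTwo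
import Pool.Agent.Lib.FGF.LOp
import Pool.Agent.Lib.FGF.LOne
import Pool.Agent.Lib.FGF.LRec
import Pool.Agent.Lib.FGF.LOK
import Pool.Agent.Lib.FGF.LEmb
import Pool.Agent.Lib.FGF.LThm
import Pool.Agent.Lib.FGF.IMove
import Pool.Agent.Lib.FGF.Mono
import Pool.Agent.Lib.FGF.Shr
import Pool.Agent.Lib.FGF.SetB
import Pool.Agent.Lib.FGF.PItem
import Pool.Agent.Lib.FGF.AItem
import Pool.Agent.Lib.FGF.Split
import Pool.Agent.Lib.FGF.BMove
import Pool.Agent.Lib.FGF.Glue
import Pool.Agent.Lib.FGF.LemA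
import Pool.Agent.Lib.FGF.Avg
import Pool.Agent.Lib.FGF.Cnt
import Pool.Agent.Lib.FGF.NS
import Pool.Agent.Lib.FGF.Atom
import Pool.Agent.Lib.FGF.Nash
import Pool.Agent.Lib.FGF.Bas1
import Pool.Agent.Lib.FGF.Bas2
import Pool.Agent.Lib.FGF.Bas3
import Pool.Agent.Lib.FGF.Far
import Pool.Agent.Lib.FGF.Pig
import Pool.Agent.Lib.FGF.Stb
import Pool.Agent.Lib.FGF.POne
import Pool.Agent.Lib.FGF.Fib
import Pool.Agent.Lib.GSR5.Minimax

/-!
# The fractional Gyarfas-Sumner conjecture: assembly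
-/

set_option autoImplicit false

namespace Pool.Agent.Lib.FGF

namespace Main

theorem lKer : FGL.StLKer := FGL.stLKer

theorem lMarg : FGL.StLMarg := FGL.stLMarg lKer

theorem lDen : FGL.StLDen := FGL.stLDen FGL.stLSub lKer lMarg

theorem lTwo : FGL.StLTwo := FGL.stLTwo FGL.stLSub lKer lMarg lDen

theorem lOp : FGL.StLOp := FGL.stLOp FGL.stLSub lKer lMarg

theorem lOne : FGL.StLOne := FGL.stLOne FGL.stLSub lKer lMarg lOp

theorem lRec : FGL.StLRec := FGL.stLRec FGL.stLSub lKer lMarg lTwo lOne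

theorem lThm : FGL.StLThm := FGL.stLThm FGL.stLSub lRec (FGL.stLOK lKer) FGL.stLEmb

theorem uPool : StUPool := stUPool FGL.stLSub lThm stJen stRam

theorem fin : StFin := stFin stBCaseAll stPCase stACase stRam (stSgS stJen) uPool

theorem cnt : StCnt := stCnt stGlue

theorem lemA : StLemA := stLemA stGlue

theorem pItem : StPItem := stPItem lemA stAvg cnt stStb stPOne stFib

theorem aItem : StAItem := stAItem lemA stAvg cnt stStb stPOne stFib

theorem iMove : StIMove := stIMove stMono stShr pItem stSplit aItem stBItemAll stSetB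

theorem bMove : StBMove :=
  stBMove lemA stNS (stBas1 stNash) stBas2 (stBas3 stNS stAtom) stFar stPig stSepMAll stShr stMono

theorem main : StM := stM bMove iMove stMono fin

end Main

/-- The fractional Gyarfas-Sumner conjecture. -/
theorem fractional : StAll := stAll (stRest Main.main)

end Pool.Agent.Lib.FGF
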