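import Pool.Agent.Lib.FGF.Defs

/-!
# The fractional Gyarfas-Sumner conjecture: statements of the modules, first part

Trees, masters, the stages and the items.  Proof sketches: team store `fgf_plan.md`.
-/

set_option autoImplicit false

namespace Pool.Agent.Lib.FGF

open Finset Classical
open Pool.Agent.Lib.FracGS (nb wnb TAdj pat)
open Pool.Agent.Lib.GSR3 (Stab Small Tree)
open Pool.Agent.Lib.GSR5 (NLC)

/-! ### Trees and masters -/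

/-- Module `Glue`: joining a vertex to the roots of `M` trees of depth `j` gives a tree of depth
`j + 1`. -/
def StGlue : Prop :=
  ∀ (V : Type) (G : SimpleGraph V) (M j : ℕ) (v : V) (φ : Fin M → List (Fin M) → V),
    (∀ i, Tree G j M (φ i)) → (∀ i, G.Adj v (φ i [])) →
    (∀ i (u : List (Fin M)), u.length ≤ j → φ i u ≠ v) →
    (∀ i (u : List (Fin M)), u ≠ [] → u.length ≤ j → ¬ G.Adj v (φ i u)) →
    (∀ i i' (u u' : List (Fin M)), i ≠ i' → u.length ≤ j → u'.length ≤ j →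
      φ i u ≠ φ i' u' ∧ ¬ G.Adj (φ i u) (φ i' u')) →
      ∃ ψ : List (Fin M) → V, Tree G (j + 1) M ψ ∧ ψ [] = v ∧
        ∀ i (u : List (Fin M)), u.length ≤ j → ψ (u ++ [i]) = φ i u

/-- Module `LemA`: Lemma A. -/
def StLemA : Prop :=
  ∀ M j : ℕ, 1 ≤ M → 1 ≤ j → ∃ Λ : ℝ, 0 ≤ Λ ∧ ∀ (V : Type) [Fintype V] (G : SimpleGraph V)
    (m : V → ℝ) (L X : Finset V) (v : V), (∀ u, 0 ≤ m u) → X ⊆ L → (∀ c ∈ X, G.Adj v c) →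
      Stab G X → Dom G M (j + 1) v m L →
        ∃ l : V → ℝ, (∀ u, 0 ≤ l u) ∧ (∀ u, l u ≠ 0 → u ∈ L) ∧ ∑ u, l u ≤ Λ ∧
          ∀ c ∈ X, cm G m c < 1 →
            Dom G M j c (fun u => m u + (if u = v then 1 else 0) + l u) L

/-- Module `Avg`: averages of masters are masters. -/
def StAvg : Prop :=
  ∀ (M j : ℕ) (τ : ℝ), ((M + 1 : ℕ) : ℝ) ^ j ≤ τ → ∀ (V : Type) [Fintype V]
    (G : SimpleGraph V) (x : V) (L Y : Finset V) (R : V → ℝ) (m : V → V → ℝ),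
      (∀ y, 0 ≤ R y) → ∑ y ∈ Y, R y = 1 → (∀ y u, 0 ≤ m y u) →
        (∀ y ∈ Y, Dom G M j x (m y) L) →
          Dom G M j x (fun u => τ * ∑ y ∈ Y, R y * m y u) L

/-- Module `Cnt`: a vertex without light stars has few light neighbours in a stable set. -/
def StCnt : Prop :=
  ∀ (M : ℕ), 1 ≤ M → ∀ (V : Type) [Fintype V] (G : SimpleGraph V) (m : V → ℝ)
    (L X : Finset V) (v : V), X ⊆ L → (∀ c ∈ X, G.Adj v c) → Stab G X →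
      (∀ c ∈ X, cm G m c < 1) → Dom G M 1 v m L → X.card < M

/-! ### Measures -/

/-- The property (NS): windows are small. -/
def NSP {V : Type} [Fintype V] (G : SimpleGraph V) (C0 : ℝ) : Prop :=
  ∀ r : V → ℝ, (∀ v, 0 ≤ r v) → ∀ a b : ℝ, 0 < a → a ≤ b →
    Small G (Finset.univ.filter (fun x => a ≤ nm G r x ∧ nm G r x ≤ b)) (8 * C0 * (b / a))

/-- Module `NS`. -/
def StNS : Prop :=
  ∀ (κ C0 : ℝ), 1 ≤ κ → 0 ≤ C0 → ∀ (V : Type) [Fintype V] (G : SimpleGraph V),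
    (∀ v, Small G (nb G Finset.univ v) κ) → NLC G Finset.univ κ C0 → NSP G C0

/-- Module `Atom`: a set of vertices whose chosen neighbours have at most `l` neighbours in it is
small. -/
def StAtom : Prop :=
  ∀ (κ C0 : ℝ), 1 ≤ κ → 0 ≤ C0 → ∀ (V : Type) [Fintype V] (G : SimpleGraph V),
    (∀ v, Small G (nb G Finset.univ v) κ) → NLC G Finset.univ κ C0 →
      ∀ (A : Finset V) (y : V → V) (l : ℕ), (∀ x ∈ A, G.Adj x (y x)) → (∀ x ∈ A, y x ∉ A) →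
        (∀ x ∈ A, (A.filter (fun z => G.Adj z (y x))).card ≤ l) →
          Small G A ((2 * l + 1) * C0)

/-- Module `Bas1`: the hubs of a new stage. -/
def StBas1 : Prop :=
  ∀ C0 : ℝ, 1 ≤ C0 → ∀ (V : Type) [Fintype V] (G : SimpleGraph V) (ν : V → ℝ) (W : Finset V)
    (α : ℝ), NSP G C0 → (∀ v, 0 ≤ ν v) → (∀ I, Stab G I → ms ν I ≤ α) → 0 < ms ν W →
      2 * α ≤ ms ν W →
        ∃ (ρ : V → ℝ) (W1 : Finset V), (∀ v, 0 ≤ ρ v) ∧ (∀ v, ρ v ≠ 0 → v ∈ W) ∧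
          ∑ v, ρ v ≤ 1 ∧ Stab G (Finset.univ.filter (fun v => ρ v ≠ 0)) ∧ W1 ⊆ W ∧
          ms ν W ≤ 32 * C0 * ms ν W1 ∧ (∀ x ∈ W1, 0 < nm G ρ x) ∧
          ∀ w ∈ W, nm G (zt G ν ρ W1) w ≤ 16 * C0 * ms ν W

/-- Module `Bas2`: a part of the new world on which finitely many given measures of bounded mass
(relative to `W`) are dominated by the scale. -/
def StBas2 : Prop :=
  ∀ (V : Type) [Fintype V] (G : SimpleGraph V) (ν ρ : V → ℝ) (W W1 : Finset V) (C0 Λ : ℝ)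
    (J : Type) [Fintype J] (k : J → V → ℝ), 1 ≤ C0 → 0 ≤ Λ → (∀ v, 0 ≤ ν v) →
      (∀ v, 0 ≤ ρ v) → (∀ i v, 0 ≤ k i v) → (∀ i v, k i v ≠ 0 → v ∈ W) →
      (∀ i, ∑ v, k i v ≤ Λ * ms ν W) → W1 ⊆ W → 0 < ms ν W → ms ν W ≤ 32 * C0 * ms ν W1 →
      (∀ x ∈ W1, 0 < nm G ρ x) → (∀ w ∈ W, nm G (zt G ν ρ W1) w ≤ 16 * C0 * ms ν W) →
        ∃ W2, W2 ⊆ W1 ∧ ms ν W1 ≤ 2 * ms ν W2 ∧ ∀ x ∈ W2, ∀ i,
          nm G (k i) x ≤ (1024 * C0 ^ 2 * Λ * (Fintype.card J + 1)) * ms ν W * nm G ρ x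

/-- Module `Bas3`: removing the negligible sets. -/
def StBas3 : Prop :=
  ∀ (κ C0 : ℝ), 1 ≤ κ → 1 ≤ C0 → ∀ (n : ℕ) (Λ H ξ' : ℝ) (q : ℕ), 0 ≤ Λ → 1 ≤ H → 0 < ξ' →
    ∃ ξ : ℝ, 0 < ξ ∧ ∀ (V : Type) [Fintype V] (G : SimpleGraph V) (ν ρ : V → ℝ)
      (W W1 : Finset V) (b : ℕ → V → ℝ) (J : Type) [Fintype J] (k : J → V → ℝ),
      (∀ v, Small G (nb G Finset.univ v) κ) → NLC G Finset.univ κ C0 →
      (∀ v, 0 ≤ ν v) → ∑ v, ν v = 1 → (∀ I, Stab G I → ms ν I ≤ ξ) →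
      (∀ v, 0 ≤ ρ v) → (∀ v, ρ v ≠ 0 → v ∈ W) → ∑ v, ρ v ≤ 1 →
      Stab G (Finset.univ.filter (fun v => ρ v ≠ 0)) → W1 ⊆ W → 1 ≤ H * ms ν W1 →
      (∀ x ∈ W1, 0 < nm G ρ x) → (∀ w ∈ W, nm G (zt G ν ρ W1) w ≤ 16 * C0) →
      (∀ c < n, ∀ x ∈ W, 0 < b c x) →
      (∀ c < n, ∀ w ∈ W, nm G (fun x => if x ∈ W then ν x / b c x else 0) w ≤ ξ) →
      Fintype.card J ≤ q → (∀ i v, 0 ≤ k i v) → (∀ i, ∑ v, k i v ≤ Λ * ms ν W) →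
        ∃ W2, W2 ⊆ W1 ∧ ms ν W1 ≤ 2 * ms ν W2 ∧ (∀ x ∈ W2, ρ x = 0) ∧
          (∀ w ∈ W2, nm G (zt G ν ρ W1) w ≤ ξ') ∧ (∀ x ∈ W2, ν x ≤ ξ' * nm G ρ x) ∧
          (∀ c < n, ∀ x ∈ W2, nm G ρ x ≤ ξ' * b c x) ∧
          ∀ x ∈ W2, ∀ i, k i x ≤ ms ν W * nm G ρ x

/-- Module `Far`: a part of the world in which all edges are long for the scale `a`. -/
def StFar : Prop :=
  ∀ (C0 Γ : ℝ), 1 ≤ C0 → 2 ≤ Γ → ∀ (V : Type) [Fintype V] (G : SimpleGraph V) (ν ρ : V → ℝ)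
    (W : Finset V), NSP G C0 → (∀ v, 0 ≤ ν v) → (∀ v, 0 ≤ ρ v) → (∀ x ∈ W, 0 < nm G ρ x) →
      ∃ W', W' ⊆ W ∧ ms ν W ≤ 16 * C0 * Γ * ms ν W' ∧
        ∀ x ∈ W', ∀ y ∈ W', G.Adj x y →
          Γ * nm G ρ x ≤ nm G ρ y ∨ Γ * nm G ρ y ≤ nm G ρ x

/-- Module `Pig`: finitely many properties are made homogeneous. -/
def StPig : Prop :=
  ∀ (V : Type) (ν : V → ℝ) (W : Finset V) (J : Type) [Fintype J] (p : J → V → Prop),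
    (∀ v, 0 ≤ ν v) → ∃ W', W' ⊆ W ∧ ms ν W ≤ 2 ^ Fintype.card J * ms ν W' ∧
      ∀ i, (∀ x ∈ W', p i x) ∨ ∀ x ∈ W', ¬ p i x

/-- Module `Stb`: a part of the world in which the fibres of the good hubs are stable. -/
def StStb : Prop :=
  ∀ (κ e : ℝ), 1 ≤ κ → 0 < e → ∀ (V : Type) [Fintype V] (G : SimpleGraph V) (ν ρ : V → ℝ)
    (W : Finset V) (Gd : V → Finset V), (∀ v, Small G (nb G Finset.univ v) κ) →
      (∀ v, 0 ≤ ν v) → (∀ v, 0 ≤ ρ v) → (∀ x ∈ W, 0 < nm G ρ x) →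
      (∀ x ∈ W, ∀ y ∈ Gd x, G.Adj x y) → (∀ x ∈ W, e * nm G ρ x ≤ ∑ y ∈ Gd x, ρ y) →
        ∃ (W' : Finset V) (Gd' : V → Finset V), W' ⊆ W ∧ e * ms ν W ≤ 2 * κ * ms ν W' ∧
          (∀ x ∈ W', Gd' x ⊆ Gd x) ∧
          (∀ x ∈ W', e / (2 * κ) * nm G ρ x ≤ ∑ y ∈ Gd' x, ρ y) ∧
          ∀ y, Stab G (W'.filter (fun x => y ∈ Gd' x))

/-- Module `POne`: the property (P1). -/
def StPOne : Prop :=
  ∀ (V : Type) [Fintype V] (G : SimpleGraph V) (ν ρ : V → ℝ) (W : Finset V) (ξ Λ : ℝ)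
    (l : V → V → ℝ), 0 ≤ ξ → 0 ≤ Λ → (∀ v, 0 ≤ ν v) → (∀ v, 0 ≤ ρ v) → ∑ v, ρ v ≤ 1 →
      (∀ x ∈ W, 0 < nm G ρ x) → (∀ w ∈ W, nm G (zt G ν ρ W) w ≤ ξ) →
      (∀ x ∈ W, ν x ≤ ξ * nm G ρ x) → (∀ y v, 0 ≤ l y v) → (∀ y v, l y v ≠ 0 → v ∈ W) →
      (∀ y, ∑ v, l y v ≤ Λ) →
        ms ν (W.filter (fun x => nm G ρ x < ∑ y, ρ y * cm G (l y) x)) ≤ 2 * Λ * ξ

/-- Module `Fib`: few good vertices at every hub are impossible. -/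
def StFib : Prop :=
  ∀ (V : Type) [Fintype V] (G : SimpleGraph V) (ν ρ : V → ℝ) (W : Finset V) (ξ e : ℝ) (M : ℕ)
    (Gd : V → Finset V), 0 ≤ ξ → 0 < e → (∀ v, 0 ≤ ν v) → (∀ v, 0 ≤ ρ v) → ∑ v, ρ v ≤ 1 →
      (∀ x ∈ W, 0 < nm G ρ x) → (∀ x ∈ W, ν x ≤ ξ * nm G ρ x) →
      (∀ x ∈ W, e * nm G ρ x ≤ ∑ y ∈ Gd x, ρ y) →
      (∀ y, ρ y ≠ 0 → (W.filter (fun x => y ∈ Gd x)).card ≤ M) →
        e * ms ν W ≤ M * ξ

/-! ### Shrinking the last world -/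

/-- The data with the world `n` replaced by `W'`. -/
def Dat.shr {V : Type} (σ : Dat V) (n : ℕ) (W' : Finset V) : Dat V :=
  { σ with W := Function.update σ.W n W' }

/-- Module `Mono`. -/
def StMono : Prop :=
  ∀ (P : Par) (n : ℕ) (T : Finset (Finset ℕ)) (H H' ξ ξ' : ℝ) (V : Type) [Fintype V]
    (G : SimpleGraph V) (ν : V → ℝ) (σ : Dat V), H ≤ H' → ξ ≤ ξ' → Sys P n T H ξ G ν σ →
      Sys P n T H' ξ' G ν σ

/-- Module `Shr`. -/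
def StShr : Prop :=
  ∀ (P : Par), P.OK → ∀ (n : ℕ) (T : Finset (Finset ℕ)) (H ξ c : ℝ) (V : Type) [Fintype V]
    (G : SimpleGraph V) (ν : V → ℝ) (σ : Dat V) (W' : Finset V), 1 ≤ c → 0 ≤ H → 0 ≤ ξ →
      Sys P (n + 1) T H ξ G ν σ → W' ⊆ σ.W (n + 1) → ms ν (σ.W (n + 1)) ≤ c * ms ν W' →
        Sys P (n + 1) T (c * H) (c * ξ) G ν (σ.shr (n + 1) W')

/-! ### Items -/

/-- Module `PItem`. -/
def StPItem : Prop :=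
  ∀ (P : Par), P.OK → ∀ (n : ℕ) (H : ℝ), ∃ ξ0 : ℝ, 0 < ξ0 ∧ ∀ (T : Finset (Finset ℕ))
    (V : Type) [Fintype V] (G : SimpleGraph V) (ν : V → ℝ) (σ : Dat V) (ξ : ℝ)
    (S : Finset ℕ), ξ ≤ ξ0 → Cls P G → Sys P (n + 1) T H ξ G ν σ → S ⊆ Finset.range n →
      S.card = P.m → PlusS P G σ S n →
        ∃ W', W' ⊆ σ.W (n + 1) ∧ P.εp * ms ν (σ.W (n + 1)) ≤ 4 * P.κ * ms ν W' ∧
          TypeP P G (σ.shr (n + 1) W') S n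

/-- The data of an item with much weight of bigger vertices at the good hubs. -/
structure AData (P : Par) {V : Type} [Fintype V] (G : SimpleGraph V) (ν : V → ℝ) (σ : Dat V)
    (K : ℝ) (S : Finset ℕ) (s : ℕ) (W' : Finset V) (Gd F : V → Finset V) (A : ℕ → V → ℝ)
    (μ : V → ℝ) : Prop where
  adj : ∀ x ∈ W', ∀ y ∈ Gd x, G.Adj x y ∧ σ.ρ s y ≠ 0
  mass : ∀ x ∈ W', P.ε / 32 * sc G σ s x ≤ ∑ y ∈ Gd x, σ.ρ s y
  med : ∀ x ∈ W', ∀ y ∈ Gd x, 0 < μ y ∧ sc G σ s x ≤ μ y ∧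
    K * ms ν (σ.W s) * μ y ≤ ms ν (F y)
  fib : ∀ y, ∀ t ∈ F y, t ∈ σ.W s ∧ G.Adj t y
  cls : ∀ x ∈ W', ∀ y ∈ Gd x, ∀ c ∈ S, 0 < A c y ∧ sc G σ c x ≤ 4 / P.ε ^ 2 * A c y ∧
    sc G σ c y ≤ A c y ∧ ∀ t ∈ F y, P.L0 * A c y ≤ sc G σ c t

/-- The data of an item with little weight of bigger vertices at the good hubs. -/
structure BData (P : Par) {V : Type} [Fintype V] (G : SimpleGraph V) (ν : V → ℝ) (σ : Dat V)
    (K : ℝ) (S : Finset ℕ) (s : ℕ) (W' : Finset V) (Gd F : V → Finset V) (A : ℕ → V → ℝ)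
    (μ : V → ℝ) : Prop where
  adj : ∀ x ∈ W', ∀ y ∈ Gd x, G.Adj x y ∧ σ.ρ s y ≠ 0
  mass : ∀ x ∈ W', P.ε / 32 * sc G σ s x ≤ ∑ y ∈ Gd x, σ.ρ s y
  med : ∀ x ∈ W', ∀ y ∈ Gd x, 0 < μ y ∧ μ y ≤ sc G σ s x ∧
    ms ν (F y) ≤ K * ms ν (σ.W s) * μ y
  fib : ∀ y, ∀ t ∈ σ.W s, G.Adj t y → (∀ c ∈ S, P.L0 * A c y ≤ sc G σ c t) → t ∈ F y
  cls : ∀ x ∈ W', ∀ y ∈ Gd x, ∀ c ∈ S, 0 < A c y ∧ A c y ≤ 4 / P.ε ^ 2 * sc G σ c x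

/-- Module `Split`. -/
def StSplit : Prop :=
  ∀ (P : Par), P.OK → ∀ (n : ℕ) (T : Finset (Finset ℕ)) (H ξ K : ℝ) (V : Type) [Fintype V]
    (G : SimpleGraph V) (ν : V → ℝ) (σ : Dat V) (S : Finset ℕ) (W1 : Finset V), 0 < K →
      Sys P (n + 1) T H ξ G ν σ → S ⊆ Finset.range n → S.card = P.m →
      (∀ c ∈ S, Minus2 P G σ c n) → W1 ⊆ σ.W (n + 1) →
      P.ε * ms ν W1 < lk G ν (σ.ρ n) σ.ρ S W1 →
        ∃ (W' : Finset V) (Gd F : V → Finset V) (A : ℕ → V → ℝ) (μ : V → ℝ), W' ⊆ W1 ∧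
          P.ε * ms ν W1 ≤ 32 * ms ν W' ∧
          (AData P G ν σ K S n W' Gd F A μ ∨ BData P G ν σ K S n W' Gd F A μ)

/-- Module `AItem`. -/
def StAItem : Prop :=
  ∀ (P : Par), P.OK → ∀ (n : ℕ) (H : ℝ), 1 ≤ H → ∃ K : ℝ, 0 < K ∧ ∀ c : ℝ, 1 ≤ c →
    ∃ ξ0 : ℝ, 0 < ξ0 ∧ ∀ (T : Finset (Finset ℕ)) (V : Type) [Fintype V] (G : SimpleGraph V)
      (ν : V → ℝ) (σ : Dat V) (ξ : ℝ) (S : Finset ℕ) (W' : Finset V) (Gd F : V → Finset V)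
      (A : ℕ → V → ℝ) (μ : V → ℝ), ξ ≤ ξ0 → Cls P G → Sys P (n + 1) T H ξ G ν σ →
        S ⊆ Finset.range n → S.card = P.m → W' ⊆ σ.W (n + 1) →
        ms ν (σ.W (n + 1)) ≤ c * ms ν W' → AData P G ν σ K S n W' Gd F A μ →
          ∃ W'', W'' ⊆ W' ∧ P.ε * ms ν W' ≤ 256 * P.κ * ms ν W'' ∧
            TypeA P G (σ.shr (n + 1) W'') S n

/-- The data with new labels and lists for the item `(S, n)` and the world `n + 1` replaced. -/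
noncomputable def Dat.setB {V : Type} (σ : Dat V) (S : Finset ℕ) (n : ℕ) (W' : Finset V)
    (lb : V → V) (nr : V → Finset V) : Dat V where
  ρ := σ.ρ
  W := Function.update σ.W (n + 1) W'
  isB := fun S' s => σ.isB S' s ∨ (S' = S ∧ s = n)
  lab := fun S' s => if S' = S ∧ s = n then lb else σ.lab S' s
  near := fun S' s => if S' = S ∧ s = n then nr else σ.near S' s

/-- Module `BItem`. -/
def StBItem : Prop :=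
  ∀ (P : Par), P.OK → ∀ (n : ℕ) (H K c : ℝ), 1 ≤ H → 0 < K → 1 ≤ c → ∃ H' : ℝ, 1 ≤ H' ∧
    ∀ (T : Finset (Finset ℕ)) (V : Type) [Fintype V] (G : SimpleGraph V) (ν : V → ℝ)
      (σ : Dat V) (ξ : ℝ) (S : Finset ℕ) (W' : Finset V) (Gd F : V → Finset V)
      (A : ℕ → V → ℝ) (μ : V → ℝ), Cls P G → Sys P (n + 1) T H ξ G ν σ →
        S ⊆ Finset.range n → S.card = P.m → W' ⊆ σ.W (n + 1) →
        ms ν (σ.W (n + 1)) ≤ c * ms ν W' → BData P G ν σ K S n W' Gd F A μ →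
          ∃ (W'' : Finset V) (lb : V → V) (nr : V → Finset V), W'' ⊆ W' ∧
            ms ν W' ≤ H' * ms ν W'' ∧ LabOK P G (σ.setB S n W'' lb nr) H' S n

/-- Module `SetB`: adding an item of type B. -/
def StSetB : Prop :=
  ∀ (P : Par), P.OK → ∀ (n : ℕ) (T : Finset (Finset ℕ)) (H ξ c H' : ℝ) (V : Type)
    [Fintype V] (G : SimpleGraph V) (ν : V → ℝ) (σ : Dat V) (S : Finset ℕ) (W' : Finset V)
    (lb : V → V) (nr : V → Finset V), 1 ≤ c → 0 ≤ H → 0 ≤ ξ →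
      Sys P (n + 1) T H ξ G ν σ → S ⊆ Finset.range n → S.card = P.m → W' ⊆ σ.W (n + 1) →
      ms ν (σ.W (n + 1)) ≤ c * ms ν W' → LabOK P G (σ.setB S n W' lb nr) H' S n →
      MinusS P G σ S n →
        Sys P (n + 1) (insert S T) (max (c * H) H') (c * ξ) G ν (σ.setB S n W' lb nr)

/-! ### Moves -/

/-- Module `IMove`: an item gets a type. -/
def StIMove : Prop :=
  ∀ (P : Par), P.OK → ∀ (n : ℕ) (S : Finset ℕ), S ⊆ Finset.range n → S.card = P.m →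
    ∀ (T : Finset (Finset ℕ)) (F : ℝ → ℝ), (∀ H, 0 < F H) → ∀ H : ℝ, 1 ≤ H → ∃ ξ : ℝ, 0 < ξ ∧
      ∀ (V : Type) [Fintype V] (G : SimpleGraph V) (ν : V → ℝ) (σ : Dat V), Cls P G →
        Sys P (n + 1) T H ξ G ν σ → ∃ (H' : ℝ) (σ' : Dat V), 1 ≤ H' ∧
          Sys P (n + 1) (insert S T) H' (F H') G ν σ'

/-- Module `SepM`: the separation property of the last world. -/
def StSepM : Prop :=
  ∀ (P : Par), P.OK → ∀ (n : ℕ) (H : ℝ), 1 ≤ H → ∃ c : ℝ, 1 ≤ c ∧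
    ∀ (T : Finset (Finset ℕ)) (V : Type) [Fintype V] (G : SimpleGraph V) (ν : V → ℝ)
      (σ : Dat V) (ξ : ℝ), Sys P n T H ξ G ν σ →
        ∃ W', W' ⊆ σ.W n ∧ ms ν (σ.W n) ≤ c * ms ν W' ∧ SepAt (σ.shr n W') n

/-- Module `BMove`: a new stage. -/
def StBMove : Prop :=
  ∀ (M h : ℕ), ∃ Λ0 : ℝ, ∀ (P : Par), P.OK → P.M = M → P.h = h → Λ0 ≤ P.Λ →
    ∀ (n : ℕ) (F : ℝ → ℝ), (∀ H, 0 < F H) → ∀ H : ℝ, 1 ≤ H → ∃ ξ : ℝ, 0 < ξ ∧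
      ∀ (V : Type) [Fintype V] (G : SimpleGraph V) (ν : V → ℝ) (σ : Dat V), Cls P G →
        Sys P n (full P n) H ξ G ν σ → ∃ (H' : ℝ) (σ' : Dat V), 1 ≤ H' ∧
          Sys P (n + 1) ∅ H' (F H') G ν σ'

end Pool.Agent.Lib.FGF
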