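import Pool.Agent.Lib.FGF.Defs

/-!
# The unlinked case: random configurations

A configuration of depth `0` is a vertex; a configuration of depth `d + 1` consists of a hub and
`M + 1` configurations of depth `d` whose roots are neighbours of the hub; its root is the root of
the first one.  The hub at depth `d + 1` belongs to the stage `c d`.
-/

set_option autoImplicit false

namespace Pool.Agent.Lib.FGF

open Finset Classical
open Pool.Agent.Lib.FracGS (nb wnb TAdj pat)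
open Pool.Agent.Lib.GSR3 (Stab Small Tree)

/-- Configurations. -/
def Conf (V : Type) (M : ℕ) : ℕ → Type
  | 0 => V
  | d + 1 => V × (Fin (M + 1) → Conf V M d)

noncomputable instance confFintype (V : Type) [Fintype V] (M : ℕ) : ∀ d, Fintype (Conf V M d)
  | 0 => inferInstanceAs (Fintype V)
  | d + 1 => by
    haveI := confFintype V M d
    exact inferInstanceAs (Fintype (V × (Fin (M + 1) → Conf V M d)))

/-- The root. -/
def rt {V : Type} {M : ℕ} : ∀ {d : ℕ}, Conf V M d → V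
  | 0, x => x
  | _ + 1, g => rt (g.2 0)

/-- The positions of the vertices of the world. -/
def WPos (M : ℕ) : ℕ → Type
  | 0 => Unit
  | d + 1 => Fin (M + 1) × WPos M d

/-- The positions of the hubs. -/
def HPos (M : ℕ) : ℕ → Type
  | 0 => Empty
  | d + 1 => Option (Fin (M + 1) × HPos M d)

noncomputable instance wposFintype (M : ℕ) : ∀ d, Fintype (WPos M d)
  | 0 => inferInstanceAs (Fintype Unit)
  | d + 1 => by
    haveI := wposFintype M d
    exact inferInstanceAs (Fintype (Fin (M + 1) × WPos M d))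

noncomputable instance hposFintype (M : ℕ) : ∀ d, Fintype (HPos M d)
  | 0 => inferInstanceAs (Fintype Empty)
  | d + 1 => by
    haveI := hposFintype M d
    exact inferInstanceAs (Fintype (Option (Fin (M + 1) × HPos M d)))

/-- The vertex of the world at a position. -/
def wvx {V : Type} {M : ℕ} : ∀ {d : ℕ}, WPos M d → Conf V M d → V
  | 0, _, x => x
  | _ + 1, p, g => wvx p.2 (g.2 p.1)

/-- The hub at a position. -/
def hvx {V : Type} {M : ℕ} : ∀ {d : ℕ}, HPos M d → Conf V M d → V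
  | 0, p, _ => p.elim
  | _ + 1, none, g => g.1
  | _ + 1, some p, g => hvx p.2 (g.2 p.1)

/-- The level of a hub: the hub at the top of a configuration of depth `d + 1` has level `d`. -/
def lev {M : ℕ} : ∀ {d : ℕ}, HPos M d → ℕ
  | 0, p => p.elim
  | d + 1, none => d
  | _ + 1, some p => lev p.2

/-- The position of the root. -/
def rpos (M : ℕ) : ∀ d, WPos M d
  | 0 => ()
  | d + 1 => (0, rpos M d)

section

variable {V : Type} [Fintype V] (G : SimpleGraph V) (μ : V → ℝ) (ρ : ℕ → V → ℝ)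

/-- The scale of stage `s`. -/
noncomputable def as (s : ℕ) (x : V) : ℝ := nm G (ρ s) x

/-- The degree of a hub of stage `s`. -/
noncomputable def ds (s : ℕ) (y : V) : ℝ := nm G (fun x => μ x / as G ρ s x) y

/-- The weight of a configuration. -/
noncomputable def wt (c : ℕ → ℕ) {M : ℕ} : ∀ {d : ℕ}, Conf V M d → ℝ
  | 0, x => μ x
  | d + 1, g => ρ (c d) g.1 * ds G μ ρ (c d) g.1 *
      ∏ e, (wt c (g.2 e) * (if G.Adj (rt (g.2 e)) g.1 then 1 else 0) /
        (as G ρ (c d) (rt (g.2 e)) * ds G μ ρ (c d) g.1))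

/-- In every configuration attached to a hub the root is maximal for the scale of the hub. -/
def okn (c : ℕ → ℕ) {M : ℕ} : ∀ {d : ℕ}, Conf V M d → Prop
  | 0, _ => True
  | d + 1, g => ∀ e, okn c (g.2 e) ∧
      ∀ p : WPos M d, as G ρ (c d) (wvx p (g.2 e)) ≤ as G ρ (c d) (rt (g.2 e))

/-- The root is maximal for the scales of the stages in `R`. -/
def maxR (R : Finset ℕ) {M d : ℕ} (g : Conf V M d) : Prop :=
  ∀ s ∈ R, ∀ p : WPos M d, as G ρ s (wvx p g) ≤ as G ρ s (rt g)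

/-- Two configurations attached to the same hub are in conflict. -/
def crossBad {M d : ℕ} (g g' : Conf V M d) : Prop :=
  (∃ p p' : WPos M d, wvx p g = wvx p' g' ∨ G.Adj (wvx p g) (wvx p' g')) ∨
  (∃ (p : WPos M d) (q : HPos M d), G.Adj (wvx p g) (hvx q g') ∨ G.Adj (wvx p g') (hvx q g)) ∨
  ∃ q q' : HPos M d, G.Adj (hvx q g) (hvx q' g')

/-- The hub `γ` is in conflict with a configuration attached to it. -/
def hubBad {M d : ℕ} (γ : V) (g : Conf V M d) : Prop :=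
  (∃ p : WPos M d, p ≠ rpos M d ∧ G.Adj γ (wvx p g)) ∨ ∃ q : HPos M d, G.Adj γ (hvx q g)

/-- Bad configurations of depth `d ≤ D`: a conflict, a hub of small degree, or a hub which is not
smaller, by the factor `b`, than the root of its first configuration, for one of the scales
`c i`, `i < D`, which are used later. -/
def bad (c : ℕ → ℕ) (D : ℕ) (η b : ℝ) {M : ℕ} : ∀ {d : ℕ}, Conf V M d → Prop
  | 0, _ => False
  | d + 1, g => (∃ e, bad c D η b (g.2 e)) ∨ ds G μ ρ (c d) g.1 < η ∨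
      (∃ i, d < i ∧ i < D ∧ as G ρ (c i) (rt (g.2 0)) < b * as G ρ (c i) g.1) ∨
      (∃ e e', e ≠ e' ∧ crossBad G (g.2 e) (g.2 e')) ∨ ∃ e, hubBad G g.1 (g.2 e)

/-- The situation of the unlinked case, for the stages `0, ..., r - 1`. -/
structure UCtx (r : ℕ) (W : Finset V) (H δ : ℝ) : Prop where
  μ0 : ∀ v, 0 ≤ μ v
  μW : ∀ v, μ v ≠ 0 → v ∈ W
  μ1 : ∑ v, μ v = 1
  ρ0 : ∀ s < r, ∀ v, 0 ≤ ρ s v
  ρ1 : ∀ s < r, ∑ v, ρ s v ≤ 1
  ρS : ∀ s < r, Stab G (Finset.univ.filter (fun v => ρ s v ≠ 0))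
  ρW : ∀ s < r, ∀ v ∈ W, ρ s v = 0
  ap : ∀ s < r, ∀ x ∈ W, 0 < as G ρ s x
  apρ : ∀ c s, c < s → s < r → ∀ y, ρ s y ≠ 0 → 0 < as G ρ c y
  at' : ∀ s < r, ∀ x ∈ W, μ x ≤ δ * as G ρ s x
  dH : ∀ s < r, ∀ y, ρ s y ≠ 0 → ds G μ ρ s y ≤ H
  dδ : ∀ s < r, ∀ x ∈ W, ds G μ ρ s x ≤ δ
  drop : ∀ c s, c < s → s < r → ∀ x ∈ W, as G ρ s x ≤ δ * as G ρ c x
  dropρ : ∀ c c' s, c < c' → c' < s → s < r → ∀ y, ρ s y ≠ 0 →
    as G ρ c' y ≤ δ * as G ρ c y

/-- Minus signs for all pairs of stages. -/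
def Sgn (r : ℕ) (W : Finset V) (b e2 : ℝ) : Prop :=
  ∀ c s, c < s → s < r → ∀ x ∈ W,
    ∑ y ∈ Finset.univ.filter (fun y => G.Adj x y ∧ as G ρ c x < b * as G ρ c y), ρ s y ≤
      e2 * as G ρ s x

/-- No links for all pairs of stages. -/
def Unl (r : ℕ) (W : Finset V) (e1 : ℝ) : Prop :=
  ∀ c s, c < s → s < r → lk G μ (ρ s) ρ {c} W ≤ e1

end

/-! ### Statements -/

/-- Module `ULaw`: the marginals of the law of the configurations. -/
def StULaw : Prop :=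
  ∀ (V : Type) [Fintype V] (G : SimpleGraph V) (μ : V → ℝ) (ρ : ℕ → V → ℝ) (r : ℕ)
    (W : Finset V) (H δ : ℝ), UCtx G μ ρ r W H δ → ∀ (M d : ℕ) (c : ℕ → ℕ),
      (∀ i < d, c i < r) →
        (∀ g : Conf V M d, 0 ≤ wt G μ ρ c g) ∧
        (∀ (p : WPos M d) (F : V → ℝ), ∑ g : Conf V M d, wt G μ ρ c g * F (wvx p g) =
          ∑ x, μ x * F x) ∧
        (∀ (q : HPos M d) (F : V → ℝ), ∑ g : Conf V M d, wt G μ ρ c g * F (hvx q g) =
          ∑ y, ρ (c (lev q)) y * ds G μ ρ (c (lev q)) y * F y)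

/-- Module `UHub`: the law of the hub at the top together with one or two of the configurations
attached to it. -/
def StUHub : Prop :=
  ∀ (V : Type) [Fintype V] (G : SimpleGraph V) (μ : V → ℝ) (ρ : ℕ → V → ℝ) (r : ℕ)
    (W : Finset V) (H δ : ℝ), UCtx G μ ρ r W H δ → ∀ (M d : ℕ) (c : ℕ → ℕ),
      (∀ i < d + 1, c i < r) →
        (∀ (e : Fin (M + 1)) (F : V → Conf V M d → ℝ),
          ∑ g : Conf V M (d + 1), wt G μ ρ c g * F g.1 (g.2 e) =
            ∑ γ, ∑ g : Conf V M d, wt G μ ρ c g * F γ g *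
              (ρ (c d) γ * (if G.Adj (rt g) γ then 1 else 0) / as G ρ (c d) (rt g))) ∧
        (∀ (e e' : Fin (M + 1)) (F : V → Conf V M d → Conf V M d → ℝ), e ≠ e' →
          ∑ g : Conf V M (d + 1), wt G μ ρ c g * F g.1 (g.2 e) (g.2 e') =
            ∑ γ, ∑ g : Conf V M d, ∑ g' : Conf V M d,
              ρ (c d) γ * ds G μ ρ (c d) γ * F γ g g' *
              (wt G μ ρ c g * (if G.Adj (rt g) γ then 1 else 0) /
                (as G ρ (c d) (rt g) * ds G μ ρ (c d) γ)) *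
              (wt G μ ρ c g' * (if G.Adj (rt g') γ then 1 else 0) /
                (as G ρ (c d) (rt g') * ds G μ ρ (c d) γ)))

/-- Module `UOK`: the stages can be chosen such that the roots are maximal with positive
probability. -/
def StUOK : Prop :=
  ∀ M d r' : ℕ, ∃ (R0 : ℕ) (k0 : ℝ), 0 < k0 ∧ ∀ (V : Type) [Fintype V] (G : SimpleGraph V)
    (μ : V → ℝ) (ρ : ℕ → V → ℝ) (r : ℕ) (W : Finset V) (H δ : ℝ), UCtx G μ ρ r W H δ →
      ∀ A : Finset ℕ, A ⊆ Finset.range r → R0 ≤ A.card →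
        ∃ (c : ℕ → ℕ) (R : Finset ℕ), (∀ i < d, c i ∈ A) ∧
          (∀ i j, i < j → j < d → c j < c i) ∧ R ⊆ A ∧ R.card = r' ∧
          (∀ s ∈ R, ∀ i < d, s < c i) ∧
          k0 ≤ ∑ g : Conf V M d, if okn G ρ c g ∧ maxR G ρ R g then wt G μ ρ c g else 0

/-- Module `ULink`: the links along paths of mates. -/
def StULink : Prop :=
  ∀ (V : Type) [Fintype V] (G : SimpleGraph V) (μ : V → ℝ) (ρ : ℕ → V → ℝ) (r : ℕ)
    (W : Finset V) (H δ e1 : ℝ), UCtx G μ ρ r W H δ → 0 ≤ e1 → Unl G μ ρ r W e1 →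
      ∀ (M d s : ℕ) (c : ℕ → ℕ), (∀ i < d, c i < r) → (∀ i < d, s < c i) →
        ∀ p : WPos M d, p ≠ rpos M d →
          ∑ g : Conf V M d, wt G μ ρ c g * ell G (ρ s) (rt g) (wvx p g) ≤ Real.sqrt e1

/-- Module `UHb`: the conflicts between a hub and a configuration attached to it. -/
def StUHb : Prop :=
  ∀ (V : Type) [Fintype V] (G : SimpleGraph V) (μ : V → ℝ) (ρ : ℕ → V → ℝ) (r : ℕ)
    (W : Finset V) (H δ e1 b η : ℝ), UCtx G μ ρ r W H δ → 0 ≤ e1 → 1 ≤ b → 0 < η →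
      Unl G μ ρ r W e1 → ∀ (M d D : ℕ) (c : ℕ → ℕ), (∀ i < D, c i < r) →
        (∀ i j, i < j → j < D → c j < c i) → d < D →
          ∑ g : Conf V M d, wt G μ ρ c g *
            (if okn G ρ c g ∧ maxR G ρ {c d} g ∧ ¬ bad G μ ρ c D η b g then
              (∑ γ ∈ Finset.univ.filter (fun γ => G.Adj (rt g) γ ∧ hubBad G γ g),
                ρ (c d) γ) / as G ρ (c d) (rt g) else 0) ≤
            Fintype.card (WPos M d) * Real.sqrt e1 + Fintype.card (HPos M d) / b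

/-- Module `UCr`: the conflicts between two configurations attached to the same hub. -/
def StUCr : Prop :=
  ∀ (V : Type) [Fintype V] (G : SimpleGraph V) (μ : V → ℝ) (ρ : ℕ → V → ℝ) (r : ℕ)
    (W : Finset V) (H δ b η : ℝ), UCtx G μ ρ r W H δ → 1 ≤ H → 0 ≤ δ → 1 ≤ b → 0 < η →
      η ≤ 1 → ∀ (M d D : ℕ) (c : ℕ → ℕ), (∀ i < D, c i < r) →
        (∀ i j, i < j → j < D → c j < c i) → d < D →
          ∑ γ, ∑ g : Conf V M d, ∑ g' : Conf V M d,
            (if η ≤ ds G μ ρ (c d) γ ∧ okn G ρ c g ∧ okn G ρ c g' ∧ maxR G ρ {c d} g ∧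
                maxR G ρ {c d} g' ∧ ¬ bad G μ ρ c D η b g ∧ ¬ bad G μ ρ c D η b g' ∧
                crossBad G g g' then
              ρ (c d) γ * ds G μ ρ (c d) γ *
              (wt G μ ρ c g * (if G.Adj (rt g) γ then 1 else 0) /
                (as G ρ (c d) (rt g) * ds G μ ρ (c d) γ)) *
              (wt G μ ρ c g' * (if G.Adj (rt g') γ then 1 else 0) /
                (as G ρ (c d) (rt g') * ds G μ ρ (c d) γ)) else 0) ≤
            5 * (Fintype.card (WPos M d) + Fintype.card (HPos M d)) ^ 2 * (H ^ 2 * δ / η)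

/-- Module `UBad`: bad configurations are rare. -/
def StUBad : Prop :=
  ∀ (M D : ℕ) (k0 : ℝ), 0 < k0 → ∃ e1 e2 b : ℝ, 0 < e1 ∧ 0 < e2 ∧ 1 ≤ b ∧ ∀ H : ℝ, 1 ≤ H →
    ∃ (δ0 η : ℝ), 0 < δ0 ∧ 0 < η ∧ ∀ (V : Type) [Fintype V] (G : SimpleGraph V)
      (μ : V → ℝ) (ρ : ℕ → V → ℝ) (r : ℕ) (W : Finset V) (δ e1' e2' b' : ℝ), 0 ≤ δ → δ ≤ δ0 →
        e1' ≤ e1 → e2' ≤ e2 → b ≤ b' →
        UCtx G μ ρ r W H δ → Sgn G ρ r W b' e2' → Unl G μ ρ r W e1' →
          ∀ c : ℕ → ℕ, (∀ i < D, c i < r) → (∀ i j, i < j → j < D → c j < c i) →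
            ∑ g : Conf V M D, (if okn G ρ c g ∧ bad G μ ρ c D η b' g then
              wt G μ ρ c g else 0) < k0

/-- Module `UEmb`: a configuration which is not bad contains the tree. -/
def StUEmb : Prop :=
  ∀ (M q : ℕ) (V : Type) [Fintype V] (G : SimpleGraph V) (μ : V → ℝ) (ρ : ℕ → V → ℝ)
    (r : ℕ) (W : Finset V) (H δ η b : ℝ), 1 ≤ M → UCtx G μ ρ r W H δ →
      ∀ (D : ℕ) (c : ℕ → ℕ), M * q ≤ D → (∀ i < D, c i < r) →
        (∀ i j, i < j → j < D → c j < c i) → ∀ g : Conf V M D, wt G μ ρ c g ≠ 0 →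
          ¬ bad G μ ρ c D η b g → ∃ φ : List (Fin M) → V, Tree G (2 * q) M φ

/-- Module `UCase`. -/
def StU : Prop :=
  ∀ M q : ℕ, 1 ≤ M → ∃ (r : ℕ) (e1 e2 b : ℝ), 0 < e1 ∧ 0 < e2 ∧ 1 ≤ b ∧
    ∀ H : ℝ, 1 ≤ H → ∃ δ : ℝ, 0 < δ ∧ ∀ (V : Type) [Fintype V] (G : SimpleGraph V)
      (μ : V → ℝ) (ρ : ℕ → V → ℝ) (W : Finset V) (e1' e2' b' : ℝ), e1' ≤ e1 → e2' ≤ e2 →
        b ≤ b' → UCtx G μ ρ r W H δ → Sgn G ρ r W b' e2' → Unl G μ ρ r W e1' →
          ∃ φ : List (Fin M) → V, Tree G (2 * q) M φ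

end Pool.Agent.Lib.FGF
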