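import Pool.Agent.Lib.FGF.Stmts
import Pool.Agent.Lib.FGF.UDefs
import Pool.Agent.Lib.GSR3.Forest

/-!
# The fractional Gyarfas-Sumner conjecture: statements of the modules, last part
-/

set_option autoImplicit false

namespace Pool.Agent.Lib.FGF

open Finset Classical
open Pool.Agent.Lib.FracGS (nb wnb TAdj pat)
open Pool.Agent.Lib.GSR3 (Stab Small Tree FGS)
open Pool.Agent.Lib.GSR5 (NLC HasLabF)

/-- Module `BCase`: a pool all of whose items have type B. -/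
def StBCase : Prop :=
  ∀ (m n0 : ℕ) (par : ℕ → ℕ), (∀ j, 1 ≤ j → par j < j) → ∃ R : ℕ, ∀ (P : Par), P.OK →
    P.m = m → ∀ (n : ℕ) (T : Finset (Finset ℕ)) (H ξ : ℝ) (V : Type) [Fintype V]
      (G : SimpleGraph V) (ν : V → ℝ) (σ : Dat V), Sys P n T H ξ G ν σ →
        ∀ A : Finset ℕ, A ⊆ Finset.range n → R ≤ A.card →
          (∀ s ∈ A, ∀ S, S ⊆ A → S ⊆ Finset.range s → S.card = m → σ.isB S s) →
            Nonempty (pat par (n0 + 1) ↪g G)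

/-- Module `PCase`: a pool all of whose items have type P. -/
def StPCase : Prop :=
  ∀ (P : Par), P.OK → ∀ (n : ℕ) (T : Finset (Finset ℕ)) (H ξ : ℝ) (V : Type) [Fintype V]
    (G : SimpleGraph V) (ν : V → ℝ) (σ : Dat V), Cls P G → Sys P n T H ξ G ν σ →
      ∀ A : Finset ℕ, A ⊆ Finset.range n → P.m + P.h ≤ A.card →
        ¬ ∀ s ∈ A, ∀ S, S ⊆ A → S ⊆ Finset.range s → S.card = P.m → TypeP P G σ S s

/-- Module `ACase`: a pool all of whose items have type A. -/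
def StACase : Prop :=
  ∀ (P : Par), P.OK → ∀ (n : ℕ) (T : Finset (Finset ℕ)) (H ξ : ℝ) (V : Type) [Fintype V]
    (G : SimpleGraph V) (ν : V → ℝ) (σ : Dat V), Cls P G → Sys P n T H ξ G ν σ →
      ∀ A : Finset ℕ, A ⊆ Finset.range n → P.m + P.h ≤ A.card →
        ¬ ∀ s ∈ A, ∀ S, S ⊆ A → S ⊆ Finset.range s → S.card = P.m → TypeA P G σ S s

/-- Module `Jen`: many functions with means at least `e`: a set of `m` of them whose product has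
mean more than `e ^ m / 2`. -/
def StJen : Prop :=
  ∀ (m : ℕ) (e : ℝ), 0 < e → e ≤ 1 → ∃ R : ℕ, ∀ (Ω : Type) [Fintype Ω] (p : Ω → ℝ)
    (f : ℕ → Ω → ℝ) (A : Finset ℕ), (∀ ω, 0 ≤ p ω) → (∀ c ∈ A, ∀ ω, 0 ≤ f c ω ∧ f c ω ≤ 1) →
      0 < ∑ ω, p ω → R ≤ A.card → (∀ c ∈ A, e * ∑ ω, p ω ≤ ∑ ω, p ω * f c ω) →
        ∃ S, S ⊆ A ∧ S.card = m ∧ e ^ m / 2 * ∑ ω, p ω < ∑ ω, p ω * ∏ c ∈ S, f c ω

/-- Module `Ram`: Ramsey's theorem. -/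
def StRam : Prop :=
  ∀ k r N : ℕ, 1 ≤ k → ∃ R : ℕ, ∀ (col : Finset ℕ → ℕ) (A : Finset ℕ), (∀ S, col S < k) →
    R ≤ A.card → ∃ B, B ⊆ A ∧ B.card = N ∧ ∃ i, ∀ S, S ⊆ B → S.card = r → col S = i

/-- Module `SgS`: signs plus for many pairs give sign plus for a set. -/
def StSgS : Prop :=
  ∀ (m : ℕ) (e : ℝ), 0 < e → e ≤ 1 → ∃ R : ℕ, ∀ (P : Par), P.OK → P.m = m → P.ε2 = e →
    P.εp ≤ e ^ m / 2 → ∀ (n : ℕ) (T : Finset (Finset ℕ)) (H ξ : ℝ) (V : Type) [Fintype V]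
      (G : SimpleGraph V) (ν : V → ℝ) (σ : Dat V), Sys P n T H ξ G ν σ →
        ∀ s < n, ∀ A : Finset ℕ, A ⊆ Finset.range s → R ≤ A.card →
          (∀ c ∈ A, Plus2 P G σ c s) → ¬ ∀ S, S ⊆ A → S.card = m → MinusS P G σ S s

/-- Module `UPool`: a pool with minus signs all of whose items have type U. -/
def StUPool : Prop :=
  ∀ M h : ℕ, 1 ≤ M → 2 ≤ h → Even h → ∃ e1 e2 b : ℝ, 0 < e1 ∧ e1 ≤ 1 ∧ 0 < e2 ∧ 1 ≤ b ∧
    ∀ (P : Par), P.OK → P.M = M → P.h = h → P.ε ≤ e1 ^ P.m / 2 → P.ε2 ≤ e2 → b ≤ P.Γ →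
      ∃ R : ℕ, ∀ H : ℝ, 1 ≤ H → ∃ ξ0 : ℝ, 0 < ξ0 ∧ ∀ (n : ℕ) (T : Finset (Finset ℕ))
        (V : Type) [Fintype V] (G : SimpleGraph V) (ν : V → ℝ) (σ : Dat V) (ξ : ℝ),
          0 ≤ ξ → ξ ≤ ξ0 → Cls P G → Sys P n T H ξ G ν σ →
            ∀ A : Finset ℕ, A ⊆ Finset.range n → R ≤ A.card →
              (∀ c ∈ A, ∀ s ∈ A, c < s → Minus2 P G σ c s) →
              ¬ ∀ s ∈ A, ∀ S, S ⊆ A → S ⊆ Finset.range s → S.card = P.m →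
                TypeU P G ν σ n ξ S s

/-- Module `Fin`: there is no complete system. -/
def StFin : Prop :=
  ∀ M h : ℕ, 1 ≤ M → 2 ≤ h → Even h → ∃ e1 e2 b : ℝ, 0 < e1 ∧ e1 ≤ 1 ∧ 0 < e2 ∧ 1 ≤ b ∧
    ∀ (P : Par), P.OK → P.M = M → P.h = h → P.ε ≤ e1 ^ P.m / 2 → P.ε2 ≤ e2 → P.ε2 ≤ 1 →
      P.εp ≤ P.ε2 ^ P.m / 2 → b ≤ P.Γ →
      ∀ (n0 : ℕ) (par : ℕ → ℕ), (∀ j, 1 ≤ j → par j < j) → ∃ N : ℕ, ∀ H : ℝ, 1 ≤ H →
        ∃ ξ : ℝ, 0 < ξ ∧ ∀ (V : Type) [Fintype V] (G : SimpleGraph V) (ν : V → ℝ)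
          (σ : Dat V), Cls P G → IsEmpty (pat par (n0 + 1) ↪g G) →
            ¬ Sys P N (full P N) H ξ G ν σ

/-- Module `Main`: the theorem for graphs with small neighbourhoods and without exact covers of
big sets. -/
def StM : Prop :=
  ∀ (M h n0 : ℕ) (par : ℕ → ℕ) (κ C0 : ℝ), 1 ≤ M → 2 ≤ h → Even h →
    (∀ j, 1 ≤ j → par j < j) → 1 ≤ κ → 1 ≤ C0 → ∃ F : ℝ, 0 ≤ F ∧
      ∀ (V : Type) [Fintype V] (G : SimpleGraph V), (∀ φ : List (Fin M) → V, ¬ Tree G h M φ) →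
        IsEmpty (pat par (n0 + 1) ↪g G) → (∀ v, Small G (nb G Finset.univ v) κ) →
          NLC G Finset.univ κ C0 → Small G Finset.univ F

/-- Module `Rest`: the same for subsets, in the form needed for the chains. -/
def StRest : Prop :=
  ∀ (M h n0 : ℕ) (par : ℕ → ℕ) (κ : ℝ), 1 ≤ M → 2 ≤ h → Even h →
    (∀ j, 1 ≤ j → par j < j) → 1 ≤ κ → ∃ f : ℝ → ℝ, (∀ c, 0 ≤ f c) ∧
      ∀ (V : Type) [Fintype V] (G : SimpleGraph V), (∀ φ : List (Fin M) → V, ¬ Tree G h M φ) →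
        IsEmpty (pat par (n0 + 1) ↪g G) → (∀ v, Small G (nb G Finset.univ v) κ) →
          HasLabF G κ Finset.univ f

/-- Module `All`: the fractional Gyarfas-Sumner conjecture. -/
def StAll : Prop :=
  ∀ (W : Type) [Fintype W] (F : SimpleGraph W), F.IsAcyclic → FGS F

end Pool.Agent.Lib.FGF
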