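import Pool.Agent.Lib.FGF.Stmts

/-!
# The fractional Gyarfas-Sumner conjecture: the Nash pair
-/

set_option autoImplicit false

namespace Pool.Agent.Lib.FGF

open Finset Classical
open Pool.Agent.Lib.FracGS (nb wnb TAdj pat)
open Pool.Agent.Lib.GSR3 (Stab Small Tree)

/-- Module `Nash`: the law `p` on `W` which maximises the product of the `nm G p x ^ ν x`,
`x ∈ W`. -/
def StNash : Prop :=
  ∀ (V : Type) [Fintype V] (G : SimpleGraph V) (ν : V → ℝ) (W : Finset V), (∀ v, 0 ≤ ν v) →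
    0 < ms ν W → (∀ x ∈ W, ∃ y ∈ W, G.Adj x y) →
      ∃ p : V → ℝ, (∀ v, 0 ≤ p v) ∧ (∀ v, p v ≠ 0 → v ∈ W) ∧ ∑ v, p v = 1 ∧
        (∀ x ∈ W, 0 < ν x → 0 < nm G p x) ∧
        (∀ w ∈ W, nm G (zt G ν p W) w ≤ ms ν W) ∧
        ∀ w, p w ≠ 0 → nm G (zt G ν p W) w = ms ν W

end Pool.Agent.Lib.FGF
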